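import Pool.Agent.FTA.Stmts

/-! Module ABS: sums of absolute values of centred digits. -/

namespace Pool.Agent.FTA

namespace ABS_

/-- number with the digits `a 0, a 1, …` in base `2 ^ 80` -/
def ev (n : ℕ) (a : ℕ → ℕ) : ℕ := ∑ k ∈ Finset.range n, a k * (2 ^ 80) ^ k

theorem ev_zero (a : ℕ → ℕ) : ev 0 a = 0 := by simp [ev]

theorem ev_succ (n : ℕ) (a : ℕ → ℕ) : ev (n + 1) a = a 0 + 2 ^ 80 * ev n (fun k => a (k + 1)) := by
  unfold ev
  rw [Finset.sum_range_succ', Finset.mul_sum, pow_zero, mul_one, add_comm]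
  congr 1
  apply Finset.sum_congr rfl
  intro k _
  rw [pow_succ]; ring

theorem add_mul_mod (B x X : ℕ) (h : x < B) : (x + B * X) % B = x := by
  rw [Nat.add_mul_mod_self_left, Nat.mod_eq_of_lt h]

theorem add_mul_div (B x X : ℕ) (h : x < B) : (x + B * X) / B = X := by
  have hB : 0 < B := by omega
  rw [Nat.add_mul_div_left _ _ hB, Nat.div_eq_of_lt h, zero_add]

theorem xor_step (m x y X Y : ℕ) (hx : x < 2 ^ m) (hy : y < 2 ^ m) :
    (x + 2 ^ m * X) ^^^ (y + 2 ^ m * Y) = (x ^^^ y) + 2 ^ m * (X ^^^ Y) := by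
  have h1 : ((x + 2 ^ m * X) ^^^ (y + 2 ^ m * Y)) % 2 ^ m = x ^^^ y := by
    rw [Nat.xor_mod_two_pow, add_mul_mod _ _ _ hx, add_mul_mod _ _ _ hy]
  have h2 : ((x + 2 ^ m * X) ^^^ (y + 2 ^ m * Y)) / 2 ^ m = X ^^^ Y := by
    rw [Nat.xor_div_two_pow, add_mul_div _ _ _ hx, add_mul_div _ _ _ hy]
  have h3 := Nat.mod_add_div ((x + 2 ^ m * X) ^^^ (y + 2 ^ m * Y)) (2 ^ m)
  rw [h1, h2] at h3
  exact h3.symm

theorem xor_ev (n : ℕ) : ∀ a b : ℕ → ℕ, (∀ k, a k < 2 ^ 80) → (∀ k, b k < 2 ^ 80) →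
    ev n a ^^^ ev n b = ev n (fun k => a k ^^^ b k) := by
  induction n with
  | zero => intro a b _ _; rw [ev_zero, ev_zero, ev_zero]; rfl
  | succ n ih =>
    intro a b ha hb
    rw [ev_succ, ev_succ, ev_succ, xor_step 80 _ _ _ _ (ha 0) (hb 0),
      ih (fun k => a (k + 1)) (fun k => b (k + 1)) (fun k => ha _) (fun k => hb _)]

theorem top_step (w x y X Y : ℕ) (hw : w < 80) (hx : x < 2 ^ (w + 1)) (hy : y < 2) :
    ((x + 2 ^ 80 * X) >>> w) &&& (y + 2 ^ 80 * Y) = (x / 2 ^ w) * y + 2 ^ 80 * ((X >>> w) &&& Y) := by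
  have hBw : (2 : ℕ) ^ 80 = 2 ^ w * 2 ^ (80 - w) := by rw [← pow_add]; congr 1; omega
  have hw0 : 0 < (2 : ℕ) ^ w := by positivity
  have hsh : (x + 2 ^ 80 * X) >>> w = x / 2 ^ w + 2 ^ (80 - w) * X := by
    rw [Nat.shiftRight_eq_div_pow, hBw, mul_assoc, Nat.add_mul_div_left _ _ hw0]
  have hx2 : x / 2 ^ w < 2 := by
    rw [Nat.div_lt_iff_lt_mul hw0]; rw [pow_succ] at hx; omega
  have hy80 : y < 2 ^ 80 := lt_of_lt_of_le hy (by norm_num)
  have h80w : 2 ≤ 2 ^ (80 - w) := by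
    have : (2 : ℕ) ^ 1 ≤ 2 ^ (80 - w) := Nat.pow_le_pow_right (by norm_num) (by omega)
    simpa using this
  rw [hsh]
  have h1 : ((x / 2 ^ w + 2 ^ (80 - w) * X) &&& (y + 2 ^ 80 * Y)) % 2 ^ 80 = (x / 2 ^ w) * y := by
    rw [Nat.and_mod_two_pow, add_mul_mod _ _ _ hy80]
    have hy' : y = 0 ∨ y = 1 := by omega
    rcases hy' with h | h
    · subst h; simp
    · subst h
      rw [Nat.and_one_is_mod, Nat.mod_mod_of_dvd _ (by norm_num : (2 : ℕ) ∣ 2 ^ 80), mul_one]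
      have h2 : ∃ t, 2 ^ (80 - w) = 2 * t := by
        refine ⟨2 ^ (80 - w - 1), ?_⟩
        rw [← pow_succ']; congr 1; omega
      obtain ⟨t, ht⟩ := h2
      rw [ht, mul_assoc, Nat.add_mul_mod_self_left, Nat.mod_eq_of_lt hx2]
  have h2 : ((x / 2 ^ w + 2 ^ (80 - w) * X) &&& (y + 2 ^ 80 * Y)) / 2 ^ 80 = (X >>> w) &&& Y := by
    rw [Nat.and_div_two_pow, add_mul_div _ _ _ hy80]
    congr 1
    rw [hBw, mul_comm (2 ^ w), ← Nat.div_div_eq_div_mul, Nat.add_mul_div_left _ _ (by positivity),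
      Nat.div_eq_of_lt (lt_of_lt_of_le hx2 h80w), zero_add, Nat.shiftRight_eq_div_pow]
  have h3 := Nat.mod_add_div ((x / 2 ^ w + 2 ^ (80 - w) * X) &&& (y + 2 ^ 80 * Y)) (2 ^ 80)
  rw [h1, h2] at h3
  exact h3.symm

theorem top_ev (w : ℕ) (hw : w < 80) (n : ℕ) : ∀ a b : ℕ → ℕ, (∀ k, a k < 2 ^ (w + 1)) →
    (∀ k, b k < 2) → (ev n a >>> w) &&& ev n b = ev n (fun k => (a k / 2 ^ w) * b k) := by
  induction n with
  | zero =>
    intro a b _ _; rw [ev_zero, ev_zero, ev_zero]; simp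
  | succ n ih =>
    intro a b ha hb
    rw [ev_succ, ev_succ, ev_succ, top_step w _ _ _ _ hw (ha 0) (hb 0),
      ih (fun k => a (k + 1)) (fun k => b (k + 1)) (fun k => ha _) (fun k => hb _)]

/-- digit at position `k` of `pk s D` -/
def dg (s : Finset (ℕ × ℕ × ℕ)) (D : ℕ × ℕ × ℕ → ℕ) (k : ℕ) : ℕ :=
  ∑ e ∈ s.filter (fun e => slot e = k), D e

theorem pk_ev (s : Finset (ℕ × ℕ × ℕ)) (D : ℕ × ℕ × ℕ → ℕ) (n : ℕ) (h : ∀ e ∈ s, slot e < n) :
    pk s D = ev n (dg s D) := by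
  unfold pk ev dg
  rw [← Finset.sum_fiberwise_of_maps_to (s := s) (t := Finset.range n) (g := slot)
    (fun e he => Finset.mem_range.2 (h e he))]
  apply Finset.sum_congr rfl
  intro k _
  rw [Finset.sum_mul]
  apply Finset.sum_congr rfl
  intro e he
  rw [(Finset.mem_filter.1 he).2]

theorem dg_cases (s : Finset (ℕ × ℕ × ℕ)) (hi : ∀ e ∈ s, ∀ e' ∈ s, slot e = slot e' → e = e') (k : ℕ) :
    (∀ D, dg s D k = 0) ∨ ∃ e ∈ s, slot e = k ∧ ∀ D, dg s D k = D e := by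
  by_cases h : ∃ e ∈ s, slot e = k
  · right
    obtain ⟨e, he, hk⟩ := h
    refine ⟨e, he, hk, fun D => ?_⟩
    unfold dg
    have : s.filter (fun e => slot e = k) = {e} := by
      ext e'
      simp only [Finset.mem_filter, Finset.mem_singleton]
      constructor
      · rintro ⟨h1, h2⟩; exact hi _ h1 _ he (by rw [h2, hk])
      · rintro rfl; exact ⟨he, hk⟩
    rw [this, Finset.sum_singleton]
  · left
    intro D
    unfold dg
    apply Finset.sum_eq_zero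
    intro e he
    exact absurd ⟨e, (Finset.mem_filter.1 he).1, (Finset.mem_filter.1 he).2⟩ h

theorem xor_mask (n x : ℕ) (h : x < 2 ^ n) : x ^^^ (2 ^ n - 1) = 2 ^ n - 1 - x := by
  have e1 : 2 ^ n - 1 - x = 2 ^ n - (x + 1) := by omega
  rw [e1]
  apply Nat.eq_of_testBit_eq
  intro i
  rw [Nat.testBit_xor, Nat.testBit_two_pow_sub_one, Nat.testBit_two_pow_sub_succ h]
  by_cases hi : i < n
  · simp [hi]
  · have : x.testBit i = false := Nat.testBit_lt_two_pow (lt_of_lt_of_le h (Nat.pow_le_pow_right (by norm_num) (by omega)))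
    simp [hi, this]

theorem general (s : Finset (ℕ × ℕ × ℕ)) (hi : ∀ e ∈ s, ∀ e' ∈ s, slot e = slot e' → e = e')
    (hs : ∀ e ∈ s, slot e ≤ 294) (w : ℕ) (hw : w < 79) (hcard : s.card * 2 ^ (w + 1) < 2 ^ 80 - 1)
    (K1 : ℕ) (hK : K1 = pk s (fun _ => 1)) (D : ℕ × ℕ × ℕ → ℕ) (hD : ∀ e, D e < 2 ^ (w + 1)) :
    (∑ e ∈ s, |(D e : ℤ) - 2 ^ w|) ≤
      (((pk s D ^^^ ((K1 - ((pk s D >>> w) &&& K1)) * (2 ^ (w + 1) - 1))) % (2 ^ 80 - 1)
        - s.card * (2 ^ w - 1) : ℕ) : ℤ) := by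
  have hw0 : 0 < (2 : ℕ) ^ w := by positivity
  have hle : (2 : ℕ) ^ (w + 1) ≤ 2 ^ 80 := Nat.pow_le_pow_right (by norm_num) (by omega)
  have hn : ∀ e ∈ s, slot e < 295 := fun e he => by have := hs e he; omega
  -- the top bits
  have ht : (pk s D >>> w) &&& K1 = pk s (fun e => D e / 2 ^ w) := by
    rw [hK, pk_ev s D 295 hn, pk_ev s _ 295 hn, pk_ev s _ 295 hn, top_ev w (by omega)]
    · congr 1; funext k
      rcases dg_cases s hi k with h | ⟨e, _, _, h⟩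
      · simp [h]
      · simp [h]
    · intro k
      rcases dg_cases s hi k with h | ⟨e, _, _, h⟩
      · rw [h]; positivity
      · rw [h]; exact hD e
    · intro k
      rcases dg_cases s hi k with h | ⟨e, _, _, h⟩
      · rw [h]; norm_num
      · rw [h]; norm_num
  have hd2 : ∀ e, D e / 2 ^ w ≤ 1 := by
    intro e
    have : D e / 2 ^ w < 2 := by
      rw [Nat.div_lt_iff_lt_mul hw0]; have := hD e; rw [pow_succ] at this; omega
    omega
  have hsub : K1 - pk s (fun e => D e / 2 ^ w) = pk s (fun e => 1 - D e / 2 ^ w) := by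
    have : pk s (fun e => 1 - D e / 2 ^ w) + pk s (fun e => D e / 2 ^ w) = K1 := by
      rw [hK]; unfold pk; rw [← Finset.sum_add_distrib]
      apply Finset.sum_congr rfl
      intro e _
      rw [← add_mul, Nat.sub_add_cancel (hd2 e)]
    omega
  have hmul : pk s (fun e => 1 - D e / 2 ^ w) * (2 ^ (w + 1) - 1)
      = pk s (fun e => (1 - D e / 2 ^ w) * (2 ^ (w + 1) - 1)) := by
    unfold pk; rw [Finset.sum_mul]
    apply Finset.sum_congr rfl
    intro e _; ring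
  have hM : ∀ e, (1 - D e / 2 ^ w) * (2 ^ (w + 1) - 1) < 2 ^ (w + 1) := by
    intro e
    have h1 : 0 < (2 : ℕ) ^ (w + 1) := by positivity
    have h2 : 1 - D e / 2 ^ w ≤ 1 := Nat.sub_le _ _
    calc (1 - D e / 2 ^ w) * (2 ^ (w + 1) - 1) ≤ 1 * (2 ^ (w + 1) - 1) := Nat.mul_le_mul_right _ h2
      _ < 2 ^ (w + 1) := by omega
  have hx : pk s D ^^^ pk s (fun e => (1 - D e / 2 ^ w) * (2 ^ (w + 1) - 1))
      = pk s (fun e => D e ^^^ ((1 - D e / 2 ^ w) * (2 ^ (w + 1) - 1))) := by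
    rw [pk_ev s D 295 hn, pk_ev s _ 295 hn, pk_ev s _ 295 hn, xor_ev]
    · congr 1; funext k
      rcases dg_cases s hi k with h | ⟨e, _, _, h⟩
      · simp [h]
      · simp [h]
    · intro k
      rcases dg_cases s hi k with h | ⟨e, _, _, h⟩
      · rw [h]; positivity
      · rw [h]; exact lt_of_lt_of_le (hD e) hle
    · intro k
      rcases dg_cases s hi k with h | ⟨e, _, _, h⟩
      · rw [h]; positivity
      · rw [h]; exact lt_of_lt_of_le (hM e) hle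
  -- the digits
  have hX : ∀ e, (D e ^^^ ((1 - D e / 2 ^ w) * (2 ^ (w + 1) - 1))) < 2 ^ (w + 1) ∧
      |(D e : ℤ) - 2 ^ w| + (2 ^ w - 1) ≤ ((D e ^^^ ((1 - D e / 2 ^ w) * (2 ^ (w + 1) - 1)) : ℕ) : ℤ) := by
    intro e
    have hDe := hD e
    have hpw : (2 : ℕ) ^ (w + 1) = 2 * 2 ^ w := by rw [pow_succ]; ring
    by_cases hc : 2 ^ w ≤ D e
    · have h1 : D e / 2 ^ w = 1 := by
        have : 1 ≤ D e / 2 ^ w := (Nat.one_le_div_iff hw0).2 hc
        have := hd2 e; omega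
      rw [h1, Nat.sub_self, zero_mul, Nat.xor_zero]
      refine ⟨hDe, ?_⟩
      have h2 : (2 : ℤ) ^ w ≤ (D e : ℤ) := by exact_mod_cast hc
      rw [abs_of_nonneg (by linarith)]
      linarith
    · have h1 : D e / 2 ^ w = 0 := Nat.div_eq_of_lt (by omega)
      rw [h1, Nat.sub_zero, one_mul, xor_mask _ _ hDe]
      refine ⟨by omega, ?_⟩
      have h2 : (D e : ℤ) < (2 : ℤ) ^ w := by exact_mod_cast (not_le.1 hc)
      rw [abs_of_neg (by linarith)]
      have h3 : ((2 ^ (w + 1) - 1 - D e : ℕ) : ℤ) = 2 ^ (w + 1) - 1 - (D e : ℤ) := by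
        have : D e + 1 ≤ 2 ^ (w + 1) := hDe
        have h4 : 2 ^ (w + 1) - 1 - D e = 2 ^ (w + 1) - (D e + 1) := by omega
        rw [h4, Nat.cast_sub this]; push_cast; ring
      rw [h3, pow_succ]
      linarith
  rw [ht, hsub, hmul, hx]
  set X : ℕ × ℕ × ℕ → ℕ := fun e => D e ^^^ ((1 - D e / 2 ^ w) * (2 ^ (w + 1) - 1)) with hXdef
  -- the digit sum
  have hmod : pk s X % (2 ^ 80 - 1) = ∑ e ∈ s, X e := by
    have hlt : ∑ e ∈ s, X e < 2 ^ 80 - 1 := by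
      refine lt_of_le_of_lt ?_ hcard
      calc ∑ e ∈ s, X e ≤ ∑ _e ∈ s, 2 ^ (w + 1) := Finset.sum_le_sum (fun e _ => (hX e).1.le)
        _ = s.card * 2 ^ (w + 1) := by rw [Finset.sum_const, smul_eq_mul]
    have hcg : pk s X ≡ ∑ e ∈ s, X e [MOD (2 ^ 80 - 1)] := by
      unfold pk
      have hB : (2 : ℕ) ^ 80 ≡ 1 [MOD (2 ^ 80 - 1)] := by
        unfold Nat.ModEq; norm_num
      have : ∀ t : Finset (ℕ × ℕ × ℕ), (∑ e ∈ t, X e * (2 ^ 80) ^ slot e) ≡ ∑ e ∈ t, X e [MOD (2 ^ 80 - 1)] := by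
        intro t
        induction t using Finset.induction_on with
        | empty => simp only [Finset.sum_empty]; rfl
        | insert a t ha ih =>
          rw [Finset.sum_insert ha, Finset.sum_insert ha]
          refine Nat.ModEq.add ?_ ih
          have h := (hB.pow (slot a)).mul_left (X a)
          rw [one_pow, mul_one] at h
          exact h
      exact this s
    have h1 : pk s X % (2 ^ 80 - 1) = (∑ e ∈ s, X e) % (2 ^ 80 - 1) := hcg
    rw [h1, Nat.mod_eq_of_lt hlt]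
  rw [hmod]
  have hsum : (∑ e ∈ s, |(D e : ℤ) - 2 ^ w|) + (s.card : ℤ) * (2 ^ w - 1) ≤ ((∑ e ∈ s, X e : ℕ) : ℤ) := by
    push_cast
    calc (∑ e ∈ s, |(D e : ℤ) - 2 ^ w|) + (s.card : ℤ) * (2 ^ w - 1)
        = ∑ e ∈ s, (|(D e : ℤ) - 2 ^ w| + (2 ^ w - 1)) := by
          rw [Finset.sum_add_distrib, Finset.sum_const, nsmul_eq_mul]
      _ ≤ ∑ e ∈ s, (X e : ℤ) := Finset.sum_le_sum (fun e _ => (hX e).2)
  have hnn : 0 ≤ ∑ e ∈ s, |(D e : ℤ) - 2 ^ w| := Finset.sum_nonneg (fun e _ => abs_nonneg _)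
  have hcast : ((s.card * (2 ^ w - 1) : ℕ) : ℤ) = (s.card : ℤ) * (2 ^ w - 1) := by
    have : 1 ≤ (2 : ℕ) ^ w := hw0
    push_cast [Nat.cast_sub this]; ring
  have hle2 : s.card * (2 ^ w - 1) ≤ ∑ e ∈ s, X e := by
    have : ((s.card * (2 ^ w - 1) : ℕ) : ℤ) ≤ ((∑ e ∈ s, X e : ℕ) : ℤ) := by rw [hcast]; linarith
    exact_mod_cast this
  rw [Nat.cast_sub hle2, hcast]
  linarith

end ABS_

theorem abs_proof (h1 : Stmt_KIT) (h2 : Stmt_CONST) : Stmt_ABS := by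
  obtain ⟨hinj, _, hKc, hHc, hsl, _, _⟩ := h1
  obtain ⟨hKE, hKH, _, _, _, _, hBM⟩ := h2
  constructor
  · intro D hD
    have h := ABS_.general Kx
      (fun e he e' he' => hinj e (Finset.mem_union_left _ he) e' (Finset.mem_union_left _ he'))
      (fun e he => hsl e (Finset.mem_union_left _ he)) 40 (by norm_num) (by rw [hKc]; norm_num) KE hKE D hD
    have e1 : absK (pk Kx D) = (pk Kx D ^^^ ((KE - ((pk Kx D >>> 40) &&& KE)) * 0x1ffffffffff)) % BM1
        - 21990232555500 := rfl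
    rw [e1, hBM]
    rw [hKc] at h
    have e2 : (0x1ffffffffff : ℕ) = 2 ^ (40 + 1) - 1 := by norm_num
    have e3 : (21990232555500 : ℕ) = 20 * (2 ^ 40 - 1) := by norm_num
    rw [e2, e3]
    exact h
  · intro D hD
    have h := ABS_.general Hx
      (fun e he e' he' => hinj e (Finset.mem_union_right _ he) e' (Finset.mem_union_right _ he'))
      (fun e he => hsl e (Finset.mem_union_right _ he)) 70 (by norm_num) (by rw [hHc]; norm_num) KH hKH D hD
    have e1 : absH (pk Hx D) = (pk Hx D ^^^ ((KH - ((pk Hx D >>> 70) &&& KH)) * 0x7fffffffffffffffff)) % BM1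
        - 75557863725914323419072 := rfl
    rw [e1, hBM]
    rw [hHc] at h
    have e2 : (0x7fffffffffffffffff : ℕ) = 2 ^ (70 + 1) - 1 := by norm_num
    have e3 : (75557863725914323419072 : ℕ) = 64 * (2 ^ 70 - 1) := by norm_num
    rw [e2, e3]
    exact h

end Pool.Agent.FTA
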