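import Pool.Agent.FTA.Stmts

open Real

namespace Pool.Agent.FTA

theorem aff_proof : Stmt_AFF := by
  intro ev K gm l0 l1 l2 z0 z1 z2 x0 x1 x2 d0 d1 d2 h
  have h2 : l2 = 1 - l0 - l1 := by linarith
  subst h2
  cases ev
  · show (reA.sub K.bs _ + _) + (_ + _) = _
    simp only [qP, poleO, poleE, poleA, evenP, oddP, Wp, Rp]
    generalize Alg.ac reA K.xx = u1
    generalize Alg.ac reA K.xy = u2
    generalize Alg.ac reA (reA.sub (reA.cst false 0 0) K.xz) = u3
    simp only [reA]
    ring
  · simp only [qP, poleO, poleE, poleA, evenP, oddP, Wp, Rp]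
    generalize Alg.ac reA K.xx = u1
    generalize Alg.ac reA K.xy = u2
    generalize Alg.ac reA K.xz = u3
    simp only [reA]
    ring

end Pool.Agent.FTA
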