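import Pool.Agent.FTA.Stmts

/-! Azimuth: the kernel `FF z` is `F` of the latitudes and the cosine of the difference of the azimuths. -/

open Real

namespace Pool.Agent.FTA

namespace AZI_

/-- Parseval with respect to a unit vector and an orthonormal basis of its orthogonal complement -/
lemma parseval (z : V3) (hz : ‖z‖ = 1) : ∃ e f : V3, ∀ x y : V3,
    inner ℝ x y = inner ℝ z x * inner ℝ z y + inner ℝ e x * inner ℝ e y + inner ℝ f x * inner ℝ f y := by
  have hz0 : z ≠ 0 := by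
    intro h; rw [h] at hz; simp at hz
  have : Fact (Module.finrank ℝ V3 = 2 + 1) := ⟨by simp⟩
  have hfr : Module.finrank ℝ (ℝ ∙ z)ᗮ = 2 := Submodule.finrank_orthogonal_span_singleton hz0
  let b : OrthonormalBasis (Fin 2) ℝ (ℝ ∙ z)ᗮ := (stdOrthonormalBasis ℝ (ℝ ∙ z)ᗮ).reindex (finCongr hfr)
  refine ⟨(b 0 : V3), (b 1 : V3), fun x y => ?_⟩
  have hzz : inner ℝ z z = 1 := by
    rw [real_inner_self_eq_norm_sq, hz]; norm_num
  have hp : ∀ x : V3, x - inner ℝ z x • z ∈ (ℝ ∙ z)ᗮ := by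
    intro x
    rw [Submodule.mem_orthogonal_singleton_iff_inner_right, inner_sub_right, inner_smul_right, hzz]
    ring
  have horth : ∀ i, inner ℝ ((b i : (ℝ ∙ z)ᗮ) : V3) z = 0 := by
    intro i
    have := (Submodule.mem_orthogonal_singleton_iff_inner_left).1 (b i).2
    exact this
  have key := OrthonormalBasis.sum_inner_mul_inner b (⟨_, hp x⟩ : (ℝ ∙ z)ᗮ) (⟨_, hp y⟩ : (ℝ ∙ z)ᗮ)
  rw [Fin.sum_univ_two] at key
  simp only [Submodule.coe_inner] at key
  have e1 : ∀ (i : Fin 2) (x : V3), inner ℝ (x - inner ℝ z x • z) ((b i : (ℝ ∙ z)ᗮ) : V3)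
      = inner ℝ ((b i : (ℝ ∙ z)ᗮ) : V3) x := by
    intro i x
    have h1 : inner ℝ z ((b i : (ℝ ∙ z)ᗮ) : V3) = 0 := by rw [real_inner_comm]; exact horth i
    rw [inner_sub_left, inner_smul_left, h1, real_inner_comm]
    simp
  have e2 : ∀ (i : Fin 2) (x : V3), inner ℝ ((b i : (ℝ ∙ z)ᗮ) : V3) (x - inner ℝ z x • z)
      = inner ℝ ((b i : (ℝ ∙ z)ᗮ) : V3) x := by
    intro i x
    rw [inner_sub_right, inner_smul_right, horth i]
    simp
  have e3 : inner ℝ (x - inner ℝ z x • z) (y - inner ℝ z y • z) = inner ℝ x y - inner ℝ z x * inner ℝ z y := by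
    rw [inner_sub_left, inner_sub_right, inner_sub_right, inner_smul_left, inner_smul_right, inner_smul_left,
      inner_smul_right, hzz, real_inner_comm x z]
    simp
    ring
  rw [e1, e1, e2, e2, e3] at key
  linarith

lemma cn_ang (x y : V3) (h : |inner ℝ x y| ≤ 1) : cn (ang x y) = |inner ℝ x y| := by
  unfold cn ang
  have : π * (2 / π * arccos |inner ℝ x y|) / 2 = arccos |inner ℝ x y| := by
    field_simp
  rw [this, Real.cos_arccos (by linarith [abs_nonneg (inner ℝ x y)]) h]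

lemma sn_ang (x y : V3) : sn (ang x y) = √(1 - (inner ℝ x y) ^ 2) := by
  unfold sn ang
  have : π * (2 / π * arccos |inner ℝ x y|) / 2 = arccos |inner ℝ x y| := by
    field_simp
  rw [this, Real.sin_arccos, sq_abs]

lemma ang_nonneg (x y : V3) : 0 ≤ ang x y := by
  unfold ang
  exact mul_nonneg (by positivity) (Real.arccos_nonneg _)

lemma ang_le_one (x y : V3) : ang x y ≤ 1 := by
  unfold ang
  have h : arccos |inner ℝ x y| ≤ π / 2 := Real.arccos_le_pi_div_two.2 (abs_nonneg _)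
  calc 2 / π * arccos |inner ℝ x y| ≤ 2 / π * (π / 2) := by gcongr
    _ = 1 := by field_simp

lemma F_left (q t s : ℝ) (h0 : 0 ≤ q) (h1 : q ≤ 1) : F 0 q t = F 0 q s := by
  have hk : kk 0 q = 0 := by
    unfold kk; rw [max_eq_right]; linarith
  have hD : De 0 = 0 := by unfold De sn; simp
  have hp2 : p2 0 = 0 := by unfold p2; rw [hD]; simp
  have hp3 : p3 0 = 0 := by unfold p3; rw [hD]; simp
  have hm : min 0 q = 0 := min_eq_left h0
  have hW : Wf 0 q = 0 := by unfold Wf; rw [hk, hm]; simp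
  have hR : Rf 0 q = 0 := by unfold Rf; rw [hk, hm, hD]; simp
  unfold F
  rw [hp2, hp3, hW, hR]; ring

lemma F_right (q t s : ℝ) (h0 : 0 ≤ q) (h1 : q ≤ 1) : F q 0 t = F q 0 s := by
  have hk : kk q 0 = 0 := by
    unfold kk; rw [max_eq_right]; linarith
  have hD : De 0 = 0 := by unfold De sn; simp
  have hp2 : p2 0 = 0 := by unfold p2; rw [hD]; simp
  have hp3 : p3 0 = 0 := by unfold p3; rw [hD]; simp
  have hm : min q 0 = 0 := min_eq_right h0
  have hW : Wf q 0 = 0 := by unfold Wf; rw [hk, hm]; simp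
  have hR : Rf q 0 = 0 := by unfold Rf; rw [hk, hm, hD]; simp
  unfold F
  rw [hp2, hp3, hW, hR]; ring

lemma sgp_sq (r : ℝ) : sgp r * sgp r = 1 := by
  unfold sgp; split_ifs <;> norm_num

lemma sgp_mul (r : ℝ) : sgp r * r = |r| := by
  unfold sgp; split_ifs with h
  · rw [abs_of_nonneg h]; ring
  · rw [abs_of_neg (lt_of_not_ge h)]; ring

end AZI_

open AZI_

theorem azi_proof : Stmt_AZI := by
  intro z hz
  obtain ⟨e, f, hpar⟩ := parseval z hz
  let w : V3 → ℂ := fun x => ⟨sgp (inner ℝ z x) * inner ℝ e x, sgp (inner ℝ z x) * inner ℝ f x⟩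
  have hle : ∀ x : V3, ‖x‖ = 1 → |inner ℝ z x| ≤ 1 := by
    intro x hx
    have := abs_real_inner_le_norm z x
    rw [hz, hx] at this; linarith
  have hnorm : ∀ x : V3, ‖x‖ = 1 → ‖w x‖ = sn (ang z x) := by
    intro x hx
    rw [sn_ang]
    have h1 : inner ℝ x x = 1 := by rw [real_inner_self_eq_norm_sq, hx]; norm_num
    have h2 := hpar x x
    have h3 : ‖w x‖ ^ 2 = 1 - (inner ℝ z x) ^ 2 := by
      rw [← Complex.normSq_eq_norm_sq, Complex.normSq_apply]
      show sgp (inner ℝ z x) * inner ℝ e x * (sgp (inner ℝ z x) * inner ℝ e x)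
        + sgp (inner ℝ z x) * inner ℝ f x * (sgp (inner ℝ z x) * inner ℝ f x) = _
      have h4 := sgp_sq (inner ℝ z x)
      calc _ = (sgp (inner ℝ z x) * sgp (inner ℝ z x)) * (inner ℝ e x * inner ℝ e x + inner ℝ f x * inner ℝ f x) := by ring
        _ = _ := by rw [h4]; linarith
    rw [← h3, Real.sqrt_sq (norm_nonneg _)]
  refine ⟨fun x => Complex.arg (w x), fun x y hx hy => ?_⟩
  by_cases hx0 : sn (ang z x) = 0
  · have ha : ang z x = 0 := by
      rw [sn_ang] at hx0
      have h1 : 1 - (inner ℝ z x) ^ 2 ≤ 0 := Real.sqrt_eq_zero'.1 hx0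
      have h2 : |inner ℝ z x| = 1 := by
        apply le_antisymm (hle x hx)
        by_contra hc
        push Not at hc
        have := sq_abs (inner ℝ z x)
        nlinarith [abs_nonneg (inner ℝ z x)]
      unfold ang; rw [h2]; simp
    unfold FF
    rw [ha]
    exact F_left _ _ _ (ang_nonneg _ _) (ang_le_one _ _)
  by_cases hy0 : sn (ang z y) = 0
  · have ha : ang z y = 0 := by
      rw [sn_ang] at hy0
      have h1 : 1 - (inner ℝ z y) ^ 2 ≤ 0 := Real.sqrt_eq_zero'.1 hy0
      have h2 : |inner ℝ z y| = 1 := by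
        apply le_antisymm (hle y hy)
        by_contra hc
        push Not at hc
        have := sq_abs (inner ℝ z y)
        nlinarith [abs_nonneg (inner ℝ z y)]
      unfold ang; rw [h2]; simp
    unfold FF
    rw [ha]
    exact F_right _ _ _ (ang_nonneg _ _) (ang_le_one _ _)
  unfold FF
  congr 1
  unfold tz
  rw [div_eq_iff (mul_ne_zero hx0 hy0), Real.cos_sub, ← hnorm x hx, ← hnorm y hy]
  have c1 : ∀ u : ℂ, ‖u‖ * Real.cos (Complex.arg u) = u.re := fun u => Complex.norm_mul_cos_arg u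
  have c2 : ∀ u : ℂ, ‖u‖ * Real.sin (Complex.arg u) = u.im := fun u => Complex.norm_mul_sin_arg u
  have h5 : (Real.cos (Complex.arg (w x)) * Real.cos (Complex.arg (w y)) +
      Real.sin (Complex.arg (w x)) * Real.sin (Complex.arg (w y))) * (‖w x‖ * ‖w y‖)
      = (w x).re * (w y).re + (w x).im * (w y).im := by
    rw [← c1 (w x), ← c1 (w y), ← c2 (w x), ← c2 (w y)]; ring
  rw [h5]
  show _ = sgp (inner ℝ z x) * inner ℝ e x * (sgp (inner ℝ z y) * inner ℝ e y)
    + sgp (inner ℝ z x) * inner ℝ f x * (sgp (inner ℝ z y) * inner ℝ f y)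
  rw [hpar x y, ← sgp_mul (inner ℝ z x), ← sgp_mul (inner ℝ z y)]
  ring

end Pool.Agent.FTA
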