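import Pool.Agent.FTA.Stmts

/-! Module BITS: masks and shifts act digitwise on packed numbers. -/

namespace Pool.Agent.FTA

namespace BITS_

/-- the bits of a number given by its digits in base `2 ^ 80` -/
theorem digit_range (N : ℕ) : ∀ d : ℕ → ℕ, (∀ k, d k < 2 ^ 80) → ∀ k i : ℕ, i < 80 →
    (∑ k ∈ Finset.range N, d k * (2 ^ 80) ^ k).testBit (80 * k + i) =
      (decide (k < N) && (d k).testBit i) := by
  induction N with
  | zero => intro d _ k i _; simp
  | succ N ih =>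
    intro d hd k i hi
    have h1 : ∑ k ∈ Finset.range (N + 1), d k * (2 ^ 80) ^ k =
        2 ^ 80 * (∑ k ∈ Finset.range N, d (k + 1) * (2 ^ 80) ^ k) + d 0 := by
      rw [Finset.sum_range_succ', Finset.mul_sum, pow_zero, mul_one]
      congr 1
      refine Finset.sum_congr rfl fun k _ => ?_
      rw [pow_succ, mul_comm ((2 ^ 80) ^ k) (2 ^ 80), mul_left_comm]
    rw [h1, Nat.testBit_two_pow_mul_add _ (hd 0)]
    rcases k with _ | k
    · rw [Nat.mul_zero, Nat.zero_add, if_pos hi]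
      simp
    · rw [if_neg (by omega)]
      have h2 : 80 * (k + 1) + i - 80 = 80 * k + i := by omega
      rw [h2, ih (fun k => d (k + 1)) (fun k => hd (k + 1)) k i hi]
      have h3 : decide (k < N) = decide (k + 1 < N + 1) := by
        apply decide_eq_decide.mpr
        omega
      rw [h3]

/-- the digit of `pk s D` in the slot `k` -/
def dig (s : Finset (ℕ × ℕ × ℕ)) (D : ℕ × ℕ × ℕ → ℕ) (k : ℕ) : ℕ :=
  ∑ e ∈ s.filter (fun e => slot e = k), D e

theorem dig_eq (s : Finset (ℕ × ℕ × ℕ)) (hs : ∀ e ∈ s, ∀ e' ∈ s, slot e = slot e' → e = e')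
    (D : ℕ × ℕ × ℕ → ℕ) (e : ℕ × ℕ × ℕ) (he : e ∈ s) : dig s D (slot e) = D e := by
  unfold dig
  have : s.filter (fun e' => slot e' = slot e) = {e} := by
    ext e'
    rw [Finset.mem_filter, Finset.mem_singleton]
    constructor
    · rintro ⟨h1, h2⟩
      exact hs e' h1 e he h2
    · rintro rfl
      exact ⟨he, rfl⟩
  rw [this, Finset.sum_singleton]

theorem dig_zero (s : Finset (ℕ × ℕ × ℕ)) (D : ℕ × ℕ × ℕ → ℕ) (k : ℕ)
    (h : ∀ e ∈ s, slot e ≠ k) : dig s D k = 0 := by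
  unfold dig
  rw [Finset.filter_false_of_mem h, Finset.sum_empty]

theorem dig_lt (s : Finset (ℕ × ℕ × ℕ)) (hs : ∀ e ∈ s, ∀ e' ∈ s, slot e = slot e' → e = e')
    (D : ℕ × ℕ × ℕ → ℕ) (hD : ∀ e ∈ s, D e < 2 ^ 80) (k : ℕ) : dig s D k < 2 ^ 80 := by
  by_cases h : ∃ e ∈ s, slot e = k
  · obtain ⟨e, he, rfl⟩ := h
    rw [dig_eq s hs D e he]
    exact hD e he
  · push Not at h
    rw [dig_zero s D k h]
    exact Nat.two_pow_pos 80

theorem pk_eq (s : Finset (ℕ × ℕ × ℕ)) (D : ℕ × ℕ × ℕ → ℕ) (N : ℕ) (hN : ∀ e ∈ s, slot e < N) :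
    pk s D = ∑ k ∈ Finset.range N, dig s D k * (2 ^ 80) ^ k := by
  unfold pk dig
  rw [← Finset.sum_fiberwise_of_maps_to (s := s) (t := Finset.range N) (g := slot)
    (fun e he => Finset.mem_range.mpr (hN e he))]
  refine Finset.sum_congr rfl fun k _ => ?_
  rw [Finset.sum_mul]
  refine Finset.sum_congr rfl fun e he => ?_
  rw [(Finset.mem_filter.mp he).2]

/-- the bits of a packed number -/
theorem testBit_pk (s : Finset (ℕ × ℕ × ℕ)) (hs : ∀ e ∈ s, ∀ e' ∈ s, slot e = slot e' → e = e')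
    (D : ℕ × ℕ × ℕ → ℕ) (hD : ∀ e ∈ s, D e < 2 ^ 80) (k i : ℕ) (hi : i < 80) :
    (pk s D).testBit (80 * k + i) = (dig s D k).testBit i := by
  have hN : ∀ e ∈ s, slot e < s.sup slot + 1 := fun e he =>
    Nat.lt_succ_of_le (Finset.le_sup (f := slot) he)
  rw [pk_eq s D _ hN, digit_range _ _ (dig_lt s hs D hD) k i hi]
  by_cases h : k < s.sup slot + 1
  · rw [decide_eq_true h, Bool.true_and]
  · have : dig s D k = 0 := dig_zero s D k (fun e he hk => h (hk ▸ hN e he))
    rw [this, Nat.zero_testBit, Bool.and_false]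

theorem mul_pk (s : Finset (ℕ × ℕ × ℕ)) (m : ℕ) :
    m * pk s (fun _ => 1) = pk s (fun _ => m) := by
  unfold pk
  rw [Finset.mul_sum]
  refine Finset.sum_congr rfl fun e _ => ?_
  rw [one_mul]

end BITS_

open BITS_

theorem bits_proof (h1 : Stmt_KIT) (h2 : Stmt_CONST) : Stmt_BITS := by
  obtain ⟨hinj, hdis, -, -, -, -, -⟩ := h1
  obtain ⟨hKE, hKH, -, -, hMK, hMH, -⟩ := h2
  rw [hKE, mul_pk] at hMK
  rw [hKH, mul_pk] at hMH
  have hK : ∀ e ∈ Kx, ∀ e' ∈ Kx, slot e = slot e' → e = e' := fun e he e' he' =>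
    hinj e (Finset.mem_union_left _ he) e' (Finset.mem_union_left _ he')
  have hH : ∀ e ∈ Hx, ∀ e' ∈ Hx, slot e = slot e' → e = e' := fun e he e' he' =>
    hinj e (Finset.mem_union_right _ he) e' (Finset.mem_union_right _ he')
  unfold Stmt_BITS
  generalize hKs : Kx = K at *
  generalize hHs : Hx = H at *
  clear hKs hHs hKE hKH
  constructor
  · intro q hq D hD
    rw [hMK]
    have hD80 : ∀ e ∈ K ∪ H, D e < 2 ^ 80 := fun e _ =>
      lt_of_lt_of_le (hD e) (Nat.pow_le_pow_right (by norm_num) (by omega))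
    have hDq : ∀ e, D e / 2 ^ q < 2 ^ 41 := fun e => by
      rw [Nat.div_lt_iff_lt_mul (Nat.two_pow_pos q), ← pow_add]
      exact hD e
    apply Nat.eq_of_testBit_eq
    intro j
    obtain ⟨k, i, hi, rfl⟩ : ∃ k i, i < 80 ∧ j = 80 * k + i :=
      ⟨j / 80, j % 80, Nat.mod_lt _ (by norm_num), (Nat.div_add_mod j 80).symm⟩
    have e1 : (Nat.land (Nat.shiftRight (pk (K ∪ H) D) q) (pk K fun _ => 2 ^ 50 - 1)).testBit (80 * k + i)
        = ((pk (K ∪ H) D).testBit (q + (80 * k + i)) && (pk K fun _ => 2 ^ 50 - 1).testBit (80 * k + i)) := by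
      have := Nat.testBit_and (pk (K ∪ H) D >>> q) (pk K fun _ => 2 ^ 50 - 1) (80 * k + i)
      rw [Nat.testBit_shiftRight] at this
      exact this
    rw [e1, testBit_pk K hK (fun _ => 2 ^ 50 - 1) (fun _ _ => by norm_num) k i hi,
      testBit_pk K hK (fun e => D e / 2 ^ q) (fun e _ => lt_trans (hDq e) (by norm_num)) k i hi]
    by_cases hk : ∃ e ∈ K, slot e = k
    · obtain ⟨e, he, rfl⟩ := hk
      rw [dig_eq K hK _ e he, dig_eq K hK _ e he, Nat.testBit_two_pow_sub_one]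
      by_cases hi50 : i < 50
      · rw [decide_eq_true hi50, Bool.and_true]
        have e2 : q + (80 * slot e + i) = 80 * slot e + (q + i) := by omega
        rw [e2, testBit_pk (K ∪ H) hinj D hD80 (slot e) (q + i) (by omega),
          dig_eq (K ∪ H) hinj D e (Finset.mem_union_left _ he), Nat.testBit_div_two_pow, Nat.add_comm i q]
      · rw [decide_eq_false hi50, Bool.and_false]
        symm
        apply Nat.testBit_lt_two_pow
        exact lt_of_lt_of_le (hDq e) (Nat.pow_le_pow_right (by norm_num) (by omega))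
    · push Not at hk
      rw [dig_zero K _ k hk, dig_zero K _ k hk, Nat.zero_testBit, Bool.and_false]
  · intro D hD
    rw [hMH]
    have hD80 : ∀ e, D e < 2 ^ 80 := fun e => lt_trans (hD e) (by norm_num)
    apply Nat.eq_of_testBit_eq
    intro j
    obtain ⟨k, i, hi, rfl⟩ : ∃ k i, i < 80 ∧ j = 80 * k + i :=
      ⟨j / 80, j % 80, Nat.mod_lt _ (by norm_num), (Nat.div_add_mod j 80).symm⟩
    have e1 : (Nat.land (pk (K ∪ H) D) (pk H fun _ => 2 ^ 80 - 1)).testBit (80 * k + i)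
        = ((pk (K ∪ H) D).testBit (80 * k + i) && (pk H fun _ => 2 ^ 80 - 1).testBit (80 * k + i)) :=
      Nat.testBit_and _ _ _
    rw [e1, testBit_pk H hH (fun _ => 2 ^ 80 - 1) (fun _ _ => by norm_num) k i hi,
      testBit_pk H hH D (fun e _ => hD80 e) k i hi,
      testBit_pk (K ∪ H) hinj D (fun e _ => hD80 e) k i hi]
    by_cases hk : ∃ e ∈ H, slot e = k
    · obtain ⟨e, he, rfl⟩ := hk
      rw [dig_eq H hH _ e he, dig_eq H hH _ e he, Nat.testBit_two_pow_sub_one, decide_eq_true hi,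
        Bool.and_true, dig_eq (K ∪ H) hinj D e (Finset.mem_union_right _ he)]
    · push Not at hk
      rw [dig_zero H _ k hk, dig_zero H _ k hk, Nat.zero_testBit, Bool.and_false]

end Pool.Agent.FTA
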