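import Pool.Agent.FTA.Stmts

set_option autoImplicit false

/-! The closed form of chart A. -/

open Real

namespace Pool.Agent.FTA

noncomputable section

namespace CA_

lemma mul_eq (x y : ℝ) : reA.mul x y = x * y := rfl
lemma add_eq (x y : ℝ) : reA.add x y = x + y := rfl
lemma sub_eq (x y : ℝ) : reA.sub x y = x - y := rfl
lemma inv_eq (x : ℝ) : reA.inv x = x⁻¹ := rfl
lemma one_eq : Alg.one reA = 1 := by
  change dy false 1 0 = 1
  simp [dy]
lemma op_eq (x : ℝ) : Alg.op reA x = 1 + x := by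
  change Alg.one reA + x = 1 + x
  rw [one_eq]
lemma om_eq (x : ℝ) : Alg.om reA x = 1 - x := by
  change Alg.one reA - x = 1 - x
  rw [one_eq]
lemma dbl_eq (x : ℝ) : Alg.dbl reA x = 2 * x := by
  change ((2 : ℕ) : ℝ) / 2 ^ 0 * x = 2 * x
  norm_num

lemma cA_eq (a x t f1 f0 gm be : ℝ) (h1 : f1 = (1 + t * t)⁻¹) (h0 : f0 = t * t * f1)
    (hgm : gm = a * (2 * (f0 * x))) (hbe : be = gm + a * (f1 - f0)) :
    ∃ K : Core ℝ, K = core reA false a be gm f0 f1 t ∧ (cA reA a x t).xz = K.xz ∧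
      (cA reA a x t).o = qP reA false K gm (K.a.i * (2 * f0 - 2 * (f0 * x)))
        (K.a.i * (1 - 2 * (f0 * x))) ((1 - x) * K.kd) ∧
      (cA reA a x t).e = qP reA true K gm (K.a.i * (2 * f0 - 2 * (f0 * x)))
        (K.a.i * (1 - 2 * (f0 * x))) ((1 - x) * K.kd) := by
  refine ⟨_, rfl, ?_, ?_, ?_⟩
  all_goals
    simp only [cA, mul_eq, op_eq, inv_eq, ← h1, ← h0, dbl_eq, ← hgm, sub_eq, add_eq, ← hbe, om_eq]

end CA_

open CA_ in
theorem ca_proof (h1 : Stmt_CORE) (h2 : Stmt_QP) : Stmt_CA := by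
  intro a x t be gm ha hx0 hx1 ht0 ht1 hgm hbe hab
  have hden : (0 : ℝ) < 1 + t * t := by positivity
  set f1 : ℝ := (1 + t * t)⁻¹ with hf1
  set f0 : ℝ := t * t * f1 with hf0
  have hf1pos : 0 < f1 := inv_pos.2 hden
  have hf0pos : 0 < f0 := mul_pos (mul_pos ht0 ht0) hf1pos
  have hsum : f0 + f1 = 1 := by
    have h : (1 + t * t) * f1 = 1 := mul_inv_cancel₀ hden.ne'
    rw [hf0]
    linarith
  have htt : t * t ≤ 1 := by nlinarith
  have hle : f0 ≤ f1 := by
    rw [hf0]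
    nlinarith
  have hgm' : gm = a * (2 * (f0 * x)) := by
    rw [hgm, hf0, hf1]
    field_simp
  have hbe' : be = gm + a * (f1 - f0) := by
    rw [hbe, hf0, hf1]
    field_simp
  obtain ⟨K, hK, hxz, ho, he⟩ := cA_eq a x t f1 f0 gm be hf1 hf0 hgm' hbe'
  have hf0x0 : 0 ≤ f0 * x := mul_nonneg hf0pos.le hx0
  have hf0x1 : f0 * x ≤ f0 := by nlinarith
  have hgm0 : 0 ≤ gm := by
    rw [hgm']
    positivity
  have hgmbe : gm ≤ be := by
    rw [hbe']
    nlinarith
  have hgma : gm ≤ a := by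
    rw [hgm']
    nlinarith
  obtain ⟨hgram, hCV⟩ := h1 false a be gm f0 f1 t ha hab hgm0 hgmbe hf0pos hle hsum ht0
    (by rw [hf0]; ring) (by
      rw [if_neg (by decide)]
      rw [hbe']
      ring)
  rw [← hK] at hCV
  have hsg : sg false = 1 := rfl
  rw [hsg] at hgram hCV
  set D : ℝ := √(gram a (1 - be) (1 - gm) 1) with hD
  have hDpos : 0 < D := Real.sqrt_pos.2 hgram
  have hDsq : D ^ 2 = gram a (1 - be) (1 - gm) 1 := Real.sq_sqrt hgram.le
  have hai : K.a.i = a / sn a := by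
    rw [hCV.1]
    rfl
  have hkd : D * K.kd = 2 * (a * f0) := hCV.2.2.2.2.2.2.2.2.2.2.2.2
  have hkab : kk a (1 - be) = a * (2 * f0 - 2 * (f0 * x)) := by
    have h : a + (1 - be) - 1 = a * (2 * f0 - 2 * (f0 * x)) := by
      rw [hbe', hgm', show f1 = 1 - f0 by linarith]
      ring
    unfold kk
    rw [h]
    exact max_eq_left (mul_nonneg ha.le (by linarith))
  have hkac : kk a (1 - gm) = a * (1 - 2 * (f0 * x)) := by
    have h : a + (1 - gm) - 1 = a * (1 - 2 * (f0 * x)) := by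
      rw [hgm']
      ring
    unfold kk
    rw [h]
    exact max_eq_left (mul_nonneg ha.le (by linarith))
  obtain ⟨q1, q2⟩ := h2 K a (1 - be) (1 - gm) (a * f0) D (K.a.i * (2 * f0 - 2 * (f0 * x)))
    (K.a.i * (1 - 2 * (f0 * x))) ((1 - x) * K.kd) ha (by linarith) (by linarith) (by linarith)
    (mul_pos ha hf0pos).le (by
      rw [hbe', show f1 = 1 - f0 by linarith]
      ring) hDsq hDpos hCV (by linarith) (by
      rw [hkab, hai]
      ring) (by
      rw [hkac, hai]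
      ring) (by
      rw [hkab]
      linear_combination (1 - x) * hkd)
  rw [sub_sub_cancel, ← ho] at q1
  rw [sub_sub_cancel, ← he] at q2
  have hxz' : (cA reA a x t).xz = tt a (1 - be) (1 - gm) 1 := by
    rw [hxz]
    exact hCV.2.2.2.2.2.2.2.2.1
  refine ⟨D, hDpos, hxz', fun h => q1 (hxz' ▸ h), fun h => q2 (hxz' ▸ h)⟩

end

end Pool.Agent.FTA
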