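import Pool.Agent.FTA.Stmts

open Real

namespace Pool.Agent.FTA

namespace CB_

noncomputable section

lemma dy0 : reA.cst false 0 0 = 0 := by
  show dy false 0 0 = 0
  unfold dy
  simp

lemma one_eq : Alg.one reA = 1 := by
  show dy false 1 0 = 1
  unfold dy
  simp

lemma om_eq (x : ℝ) : Alg.om reA x = 1 - x := by
  show Alg.one reA - x = 1 - x
  rw [one_eq]

lemma op_eq (x : ℝ) : Alg.op reA x = 1 + x := by
  show Alg.one reA + x = 1 + x
  rw [one_eq]

lemma dbl_eq (x : ℝ) : Alg.dbl reA x = 2 * x := by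
  show ((2 : ℕ) : ℝ) / 2 ^ 0 * x = 2 * x
  norm_num

lemma mul_eq (x y : ℝ) : reA.mul x y = x * y := rfl
lemma add_eq (x y : ℝ) : reA.add x y = x + y := rfl
lemma sub_eq (x y : ℝ) : reA.sub x y = x - y := rfl
lemma inv_eq (x : ℝ) : reA.inv x = x⁻¹ := rfl

def K (a gm t : ℝ) : Core ℝ :=
  core reA false a (gm + a * ((1 + t * t)⁻¹ - t * t * (1 + t * t)⁻¹)) gm (t * t * (1 + t * t)⁻¹) (1 + t * t)⁻¹ t

lemma cB_o (a x t gm : ℝ)
    (hg : gm = a * (2 * (t * t * (1 + t * t)⁻¹) + ((1 + t * t)⁻¹ - t * t * (1 + t * t)⁻¹) * x)) :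
    (cB reA a x t).o = qP reA false (K a gm t) gm 0
      ((K a gm t).a.i * (((1 + t * t)⁻¹ - t * t * (1 + t * t)⁻¹) * (1 - x))) 0 ∧
    (cB reA a x t).e = qP reA true (K a gm t) gm 0
      ((K a gm t).a.i * (((1 + t * t)⁻¹ - t * t * (1 + t * t)⁻¹) * (1 - x))) 0 ∧
    (cB reA a x t).xz = (K a gm t).xz := by
  subst hg
  unfold cB
  simp only [om_eq, op_eq, dbl_eq, mul_eq, add_eq, sub_eq, inv_eq, dy0, K]
  exact ⟨trivial, trivial, trivial⟩

end

end CB_

open CB_ in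
theorem cb_proof (h1 : Stmt_CORE) (h2 : Stmt_QP) : Stmt_CB := by
  intro a x t be gm ha hx hx1 ht ht1 hgm hbe hab
  have ht2 : 0 < 1 + t ^ 2 := by positivity
  have ht3 : t ^ 2 ≤ 1 := by nlinarith
  have e1 : (1 + t * t)⁻¹ - t * t * (1 + t * t)⁻¹ = (1 - t ^ 2) / (1 + t ^ 2) := by
    rw [← sq]
    field_simp
  have e0 : 2 * (t * t * (1 + t * t)⁻¹) = 2 * t ^ 2 / (1 + t ^ 2) := by
    rw [← sq]
    field_simp
  set xi := (1 - t ^ 2) / (1 + t ^ 2) with hxi
  set f0 := t * t * (1 + t * t)⁻¹ with hf0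
  set f1 := (1 + t * t)⁻¹ with hf1
  have hxi0 : 0 ≤ xi := div_nonneg (by linarith) ht2.le
  have hf1p : 0 < f1 := by rw [hf1, ← sq]; exact inv_pos.2 ht2
  have hf0p : 0 < f0 := by rw [hf0]; positivity
  have hsum : f0 + f1 = 1 := by
    rw [hf0, hf1, ← sq]
    field_simp
    ring
  have h2f0 : 2 * f0 + xi = 1 := by rw [← e1]; linarith
  have hgm' : gm = a * (2 * f0 + xi * x) := by rw [hgm, e0]
  obtain ⟨ho, he, hxz⟩ := cB_o a x t gm (by rw [← hf0, ← hf1, e1]; exact hgm')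
  rw [← hf0, ← hf1, e1] at ho he
  have hxx : 0 ≤ xi * x := mul_nonneg hxi0 hx
  have hxx1 : xi * x ≤ xi := by nlinarith
  have hgm0 : 0 ≤ gm := by rw [hgm']; positivity
  have hgma : gm ≤ a := by
    rw [hgm']
    have : 2 * f0 + xi * x ≤ 1 := by linarith
    nlinarith
  have hbea : a ≤ be := by
    rw [hbe, hgm']
    have : 1 ≤ 2 * f0 + xi * x + xi := by linarith
    nlinarith
  have haxi : 0 ≤ a * xi := mul_nonneg ha.le hxi0
  set b := 1 - be with hb
  set c := 1 - gm with hc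
  have hKdef : K a gm t = core reA false a be gm f0 f1 t := by
    unfold K
    rw [← hf0, ← hf1, e1, ← hbe]
  obtain ⟨hg, hcv⟩ := h1 false a be gm f0 f1 t ha hab hgm0 (by rw [hbe]; linarith) hf0p (by linarith) hsum ht
    (by rw [hf0, hf1]; ring)
    (by
      simp only [Bool.false_eq_true, if_false]
      rw [hbe]
      have : f1 - f0 = xi := by linarith
      rw [this]
      ring)
  rw [← hKdef] at hcv
  have hsg : sg false = 1 := by simp [sg]
  rw [hsg] at hg hcv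
  set D := √(gram a b c 1) with hD
  have hD0 : 0 < D := Real.sqrt_pos.2 hg
  have hD2 : D ^ 2 = gram a b c 1 := Real.sq_sqrt hg.le
  have hKi : (K a gm t).a.i = a / sn a := by
    rw [hcv.1]
    rfl
  have hKxz : (K a gm t).xz = tt a b c 1 := hcv.2.2.2.2.2.2.2.2.1
  have hc1 : 1 - c = gm := by rw [hc]; ring
  have hkb : kk a b = 0 := by
    unfold kk
    rw [max_eq_right (by rw [hb]; linarith)]
  have hkc : kk a c = a * (xi * (1 - x)) := by
    unfold kk
    rw [max_eq_left (by rw [hc]; linarith), hc, hgm']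
    linear_combination (-a) * h2f0
  have hq := h2 (K a gm t) a b c (a * f0) D 0 ((K a gm t).a.i * (xi * (1 - x))) 0 ha hab
    (by rw [hb, hc, hbe]; linarith) (by rw [hc]; linarith) (mul_nonneg ha.le hf0p.le)
    (by
      rw [hb, hc, hbe]
      linear_combination a * h2f0) hD2 hD0 hcv (by rw [hb, hc]; linarith)
    (by rw [hkb]; simp) (by rw [hKi, hkc]; ring) (by rw [hkb]; simp)
  rw [hc1] at hq
  refine ⟨D, hD0, ?_, ?_, ?_⟩
  · rw [hxz, hKxz]
  · intro h
    rw [hxz, hKxz] at h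
    rw [hq.1 h, ho]
  · intro h
    rw [hxz, hKxz] at h
    rw [hq.2 h, he]

end Pool.Agent.FTA
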