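import Pool.Agent.FTA.Stmts

open Real

namespace Pool.Agent.FTA

namespace CEF_

noncomputable section

lemma one_eq : Alg.one reA = 1 := by
  show dy false 1 0 = 1
  unfold dy
  simp

lemma om_eq (x : ℝ) : Alg.om reA x = 1 - x := by
  show Alg.one reA - x = 1 - x
  rw [one_eq]

lemma op_eq (x : ℝ) : Alg.op reA x = 1 + x := by
  show Alg.one reA + x = 1 + x
  rw [one_eq]

lemma half_eq (x : ℝ) : reA.smul 1 1 x = x / 2 := by
  show ((1 : ℕ) : ℝ) / 2 ^ 1 * x = x / 2
  norm_num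
  ring

lemma mul_eq (x y : ℝ) : reA.mul x y = x * y := rfl
lemma add_eq (x y : ℝ) : reA.add x y = x + y := rfl
lemma sub_eq (x y : ℝ) : reA.sub x y = x - y := rfl
lemma inv_eq (x : ℝ) : reA.inv x = x⁻¹ := rfl
lemma rsq_eq (x : ℝ) : reA.rsq x = (√x)⁻¹ := rfl

lemma ccore_eq (neg : Bool) (a xi be gm : ℝ) :
    ccore reA neg a xi be gm =
      core reA neg a be gm ((1 - xi) / 2) ((1 + xi) / 2) ((1 - xi) * (√((1 - xi) * (1 + xi)))⁻¹) := by
  unfold ccore
  simp only [om_eq, op_eq, half_eq, mul_eq, rsq_eq]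

lemma eF_eq (ev : Bool) (a xi g : ℝ) :
    eF reA ev a xi g = qP reA ev (ccore reA false a xi (a * (g + xi)) (a * g)) (a * g)
      ((ccore reA false a xi (a * (g + xi)) (a * g)).a.i * (1 - xi - g))
      ((ccore reA false a xi (a * (g + xi)) (a * g)).a.i * (1 - g))
      ((1 - g * (1 - xi)⁻¹) * (ccore reA false a xi (a * (g + xi)) (a * g)).kd) := by
  unfold eF
  simp only [om_eq, mul_eq, add_eq, sub_eq, inv_eq]

end

end CEF_

open CEF_ in
theorem cef_proof (h1 : Stmt_CORE) (h2 : Stmt_QP) : Stmt_CEF := by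
  intro a xi g ha hxi hxi1 hg0 hg1 hab hbc
  have hax : 0 ≤ a * xi := mul_nonneg ha.le hxi
  have hag : 0 ≤ a * g := mul_nonneg ha.le hg0
  have hm : 0 < 1 - xi := by linarith
  have hp : 0 < 1 + xi := by linarith
  have hmp : 0 < (1 - xi) * (1 + xi) := mul_pos hm hp
  have hsq : 0 < √((1 - xi) * (1 + xi)) := Real.sqrt_pos.2 hmp
  set K := ccore reA false a xi (a * (g + xi)) (a * g) with hK
  set b := 1 - a * (g + xi) with hb
  set c := 1 - a * g with hc
  obtain ⟨hg, hcv⟩ := h1 false a (a * (g + xi)) (a * g) ((1 - xi) / 2) ((1 + xi) / 2)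
    ((1 - xi) * (√((1 - xi) * (1 + xi)))⁻¹) ha hab hag (by nlinarith) (by linarith) (by linarith) (by ring)
    (mul_pos hm (inv_pos.2 hsq))
    (by
      rw [mul_pow, inv_pow, Real.sq_sqrt hmp.le]
      field_simp)
    (by
      simp only [Bool.false_eq_true, if_false]
      ring)
  rw [← ccore_eq, ← hK] at hcv
  have hsg : sg false = 1 := by simp [sg]
  rw [hsg] at hg hcv
  set D := √(gram a b c 1) with hD
  have hD0 : 0 < D := Real.sqrt_pos.2 hg
  have hD2 : D ^ 2 = gram a b c 1 := Real.sq_sqrt hg.le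
  have hKi : K.a.i = a / sn a := by
    rw [hcv.1]
    rfl
  have hKd : D * K.kd = 2 * (a * ((1 - xi) / 2)) := hcv.2.2.2.2.2.2.2.2.2.2.2.2
  have hc1 : 1 - c = a * g := by rw [hc]; ring
  have hkb : kk a b = a * (1 - xi - g) := by
    unfold kk
    rw [max_eq_left (by rw [hb]; nlinarith)]
    rw [hb]
    ring
  have hkc : kk a c = a * (1 - g) := by
    unfold kk
    rw [max_eq_left (by rw [hc]; nlinarith)]
    rw [hc]
    ring
  have hq := h2 K a b c (a * ((1 - xi) / 2)) D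
    (K.a.i * (1 - xi - g)) (K.a.i * (1 - g)) ((1 - g * (1 - xi)⁻¹) * K.kd) ha hab
    (by rw [hb, hc]; nlinarith) (by rw [hc]; linarith)
    (mul_nonneg ha.le (by linarith)) (by rw [hb, hc]; ring) hD2 hD0 hcv (by rw [hb, hc]; linarith)
    (by rw [hKi, hkb]; ring) (by rw [hKi, hkc]; ring)
    (by
      have : D * ((1 - g * (1 - xi)⁻¹) * K.kd) = (1 - g * (1 - xi)⁻¹) * (D * K.kd) := by ring
      rw [this, hKd, hkb]
      field_simp)
  rw [hc1] at hq
  rcases le_total (tt a b c 1) 0 with ht | ht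
  · exact ⟨D, false, hD0, by rw [hq.1 ht, eF_eq]⟩
  · exact ⟨D, true, hD0, by rw [hq.2 ht, eF_eq]⟩

end Pool.Agent.FTA
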