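import Pool.Agent.FTA.Stmts

open Real

namespace Pool.Agent.FTA

namespace CEN_

noncomputable section

lemma one_eq : Alg.one reA = 1 := by
  show dy false 1 0 = 1
  unfold dy
  simp

lemma om_eq (x : ℝ) : Alg.om reA x = 1 - x := by
  show Alg.one reA - x = 1 - x
  rw [one_eq]

lemma op_eq (x : ℝ) : Alg.op reA x = 1 + x := by
  show Alg.one reA + x = 1 + x
  rw [one_eq]

lemma half_eq (x : ℝ) : reA.smul 1 1 x = x / 2 := by
  show ((1 : ℕ) : ℝ) / 2 ^ 1 * x = x / 2
  norm_num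
  ring

lemma mul_eq (x y : ℝ) : reA.mul x y = x * y := rfl
lemma add_eq (x y : ℝ) : reA.add x y = x + y := rfl
lemma sub_eq (x y : ℝ) : reA.sub x y = x - y := rfl
lemma rsq_eq (x : ℝ) : reA.rsq x = (√x)⁻¹ := rfl

lemma ccore_eq (neg : Bool) (a xi be gm : ℝ) :
    ccore reA neg a xi be gm =
      core reA neg a be gm ((1 - xi) / 2) ((1 + xi) / 2) ((1 - xi) * (√((1 - xi) * (1 + xi)))⁻¹) := by
  unfold ccore
  simp only [om_eq, op_eq, half_eq, mul_eq, rsq_eq]

lemma eN_eq (a xi x : ℝ) :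
    eN reA a xi x = qN reA (ccore reA true a xi (a * (xi - xi * x / 2)) (a * (xi * x / 2)))
      (a * (xi - xi * x / 2)) (a * (xi * x / 2))
      ((ccore reA true a xi (a * (xi - xi * x / 2)) (a * (xi * x / 2))).a.i * (1 - (xi - xi * x / 2)))
      ((ccore reA true a xi (a * (xi - xi * x / 2)) (a * (xi * x / 2))).a.i * (1 - xi * x / 2)) := by
  unfold eN
  simp only [om_eq, mul_eq, sub_eq, half_eq]

end

end CEN_

open CEN_ in
theorem cen_proof (h1 : Stmt_CORE) (h2 : Stmt_QN) : Stmt_CEN := by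
  intro a xi x ha hxi hxi1 hx0 hx1 hab
  have hm : 0 < 1 - xi := by linarith
  have hp : 0 < 1 + xi := by linarith
  have hmp : 0 < (1 - xi) * (1 + xi) := mul_pos hm hp
  have hsq : 0 < √((1 - xi) * (1 + xi)) := Real.sqrt_pos.2 hmp
  have hxx : 0 ≤ xi * x := mul_nonneg hxi hx0
  have hxx1 : xi * x ≤ xi := by nlinarith
  set K := ccore reA true a xi (a * (xi - xi * x / 2)) (a * (xi * x / 2)) with hK
  set b := 1 - a * (xi - xi * x / 2) with hb
  set c := 1 - a * (xi * x / 2) with hc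
  have hgm0 : 0 ≤ a * (xi * x / 2) := mul_nonneg ha.le (by linarith)
  have hgb : a * (xi * x / 2) ≤ a * (xi - xi * x / 2) := mul_le_mul_of_nonneg_left (by linarith) ha.le
  obtain ⟨hg, hcv⟩ := h1 true a (a * (xi - xi * x / 2)) (a * (xi * x / 2)) ((1 - xi) / 2) ((1 + xi) / 2)
    ((1 - xi) * (√((1 - xi) * (1 + xi)))⁻¹) ha hab hgm0 hgb (by linarith) (by linarith) (by ring)
    (mul_pos hm (inv_pos.2 hsq))
    (by
      rw [mul_pow, inv_pow, Real.sq_sqrt hmp.le]
      field_simp)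
    (by
      simp only [if_true]
      ring)
  rw [← ccore_eq, ← hK] at hcv
  have hsg : sg true = -1 := by simp [sg]
  rw [hsg] at hg hcv
  set D := √(gram a b c (-1)) with hD
  have hD0 : 0 < D := Real.sqrt_pos.2 hg
  have hD2 : D ^ 2 = gram a b c (-1) := Real.sq_sqrt hg.le
  have hKi : K.a.i = a / sn a := by
    rw [hcv.1]
    rfl
  have hb1 : 1 - b = a * (xi - xi * x / 2) := by rw [hb]; ring
  have hc1 : 1 - c = a * (xi * x / 2) := by rw [hc]; ring
  have hkb : kk a b = a * (1 - (xi - xi * x / 2)) := by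
    unfold kk
    rw [max_eq_left (by rw [hb]; nlinarith)]
    rw [hb]
    ring
  have hkc : kk a c = a * (1 - xi * x / 2) := by
    unfold kk
    rw [max_eq_left (by rw [hc]; nlinarith)]
    rw [hc]
    ring
  have hq := h2 K a b c (a * ((1 - xi) / 2)) D
    (K.a.i * (1 - (xi - xi * x / 2))) (K.a.i * (1 - xi * x / 2)) ha hab
    (by rw [hb, hc]; linarith) (by rw [hc]; linarith)
    (mul_nonneg ha.le (by linarith)) (by rw [hb, hc]; ring) hD2 hD0 hcv
    (by rw [hKi, hkb]; ring) (by rw [hKi, hkc]; ring)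
  rw [hb1, hc1] at hq
  exact ⟨D, hD0, by rw [hq, eN_eq]⟩

end Pool.Agent.FTA
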