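import Pool.Agent.FTA.Stmts

open Real

namespace Pool.Agent.FTA

namespace CEP_

noncomputable section

lemma dy0 : reA.cst false 0 0 = 0 := by
  show dy false 0 0 = 0
  unfold dy
  simp

lemma one_eq : Alg.one reA = 1 := by
  show dy false 1 0 = 1
  unfold dy
  simp

lemma om_eq (x : ℝ) : Alg.om reA x = 1 - x := by
  show Alg.one reA - x = 1 - x
  rw [one_eq]

lemma op_eq (x : ℝ) : Alg.op reA x = 1 + x := by
  show Alg.one reA + x = 1 + x
  rw [one_eq]

lemma half_eq (x : ℝ) : reA.smul 1 1 x = x / 2 := by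
  show ((1 : ℕ) : ℝ) / 2 ^ 1 * x = x / 2
  norm_num
  ring

lemma mul_eq (x y : ℝ) : reA.mul x y = x * y := rfl
lemma add_eq (x y : ℝ) : reA.add x y = x + y := rfl
lemma rsq_eq (x : ℝ) : reA.rsq x = (√x)⁻¹ := rfl

lemma ccore_eq (neg : Bool) (a xi be gm : ℝ) :
    ccore reA neg a xi be gm =
      core reA neg a be gm ((1 - xi) / 2) ((1 + xi) / 2) ((1 - xi) * (√((1 - xi) * (1 + xi)))⁻¹) := by
  unfold ccore
  simp only [om_eq, op_eq, half_eq, mul_eq, rsq_eq]

lemma eP0 (ev : Bool) (a xi gm : ℝ) :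
    eP reA 0 ev a xi gm = qP reA ev (ccore reA false a xi (gm + a * xi) gm) gm
      ((ccore reA false a xi (gm + a * xi) gm).a.i * (1 - xi)) (ccore reA false a xi (gm + a * xi) gm).a.i
      (ccore reA false a xi (gm + a * xi) gm).kd := by
  unfold eP
  simp only [om_eq, mul_eq, add_eq]

lemma eP1 (ev : Bool) (a xi gm : ℝ) :
    eP reA 1 ev a xi gm = qP reA ev (ccore reA false a xi (gm + a * xi) gm) gm
      0 ((ccore reA false a xi (gm + a * xi) gm).a.i * xi) 0 := by
  unfold eP
  simp only [dy0, mul_eq, add_eq]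

lemma eP2 (ev : Bool) (a xi gm : ℝ) :
    eP reA 2 ev a xi gm = qP reA ev (ccore reA false a xi (gm + a * xi) gm) gm 0 0 0 := by
  unfold eP
  simp only [dy0, mul_eq, add_eq]

end

end CEP_

open CEP_ in
theorem cep_proof (h1 : Stmt_CORE) (h2 : Stmt_QP) (h3 : Stmt_AFF) : Stmt_CEP := by
  intro a xi gm ha hxi hxi1 hgm hab hbc
  have hax : 0 ≤ a * xi := mul_nonneg ha.le hxi
  have hm : 0 < 1 - xi := by linarith
  have hp : 0 < 1 + xi := by linarith
  have hmp : 0 < (1 - xi) * (1 + xi) := mul_pos hm hp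
  have hsq : 0 < √((1 - xi) * (1 + xi)) := Real.sqrt_pos.2 hmp
  set K := ccore reA false a xi (gm + a * xi) gm with hK
  set b := 1 - (gm + a * xi) with hb
  set c := 1 - gm with hc
  obtain ⟨hg, hcv⟩ := h1 false a (gm + a * xi) gm ((1 - xi) / 2) ((1 + xi) / 2)
    ((1 - xi) * (√((1 - xi) * (1 + xi)))⁻¹) ha hab hgm (by linarith) (by linarith) (by linarith) (by ring)
    (mul_pos hm (inv_pos.2 hsq))
    (by
      rw [mul_pow, inv_pow, Real.sq_sqrt hmp.le]
      field_simp)
    (by
      simp only [Bool.false_eq_true, if_false]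
      ring)
  rw [← ccore_eq, ← hK] at hcv
  have hsg : sg false = 1 := by simp [sg]
  rw [hsg] at hg hcv
  set D := √(gram a b c 1) with hD
  have hD0 : 0 < D := Real.sqrt_pos.2 hg
  have hD2 : D ^ 2 = gram a b c 1 := Real.sq_sqrt hg.le
  have hKi : K.a.i = a / sn a := by
    rw [hcv.1]
    rfl
  have hKd : D * K.kd = 2 * (a * ((1 - xi) / 2)) := hcv.2.2.2.2.2.2.2.2.2.2.2.2
  have hc1 : 1 - c = gm := by rw [hc]; ring
  -- the general step
  have step : ∀ l0 l1 l2 : ℝ, 0 ≤ l0 → 0 ≤ l1 → 0 ≤ l2 → l0 + l1 + l2 = 1 →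
      l0 * (a * (1 - xi)) = kk a b → l0 * a + l1 * (a * xi) = kk a c →
      ∃ D l0 l1 l2 : ℝ, ∃ ev : Bool, 0 < D ∧ 0 ≤ l0 ∧ 0 ≤ l1 ∧ 0 ≤ l2 ∧ l0 + l1 + l2 = 1 ∧
        Gf a b c 1 = D * (l0 * eP reA 0 ev a xi gm + l1 * eP reA 1 ev a xi gm + l2 * eP reA 2 ev a xi gm) := by
    intro l0 l1 l2 hl0 hl1 hl2 hl hz hx
    have hq := h2 K a b c (a * ((1 - xi) / 2)) D
      (l0 * (K.a.i * (1 - xi)) + l1 * 0 + l2 * 0) (l0 * K.a.i + l1 * (K.a.i * xi) + l2 * 0)
      (l0 * K.kd + l1 * 0 + l2 * 0) ha hab (by rw [hb, hc]; linarith) (by rw [hc]; linarith)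
      (mul_nonneg ha.le (by linarith)) (by rw [hb, hc]; ring) hD2 hD0 hcv (by rw [hb, hc]; linarith)
      (by rw [hKi, ← hz]; ring) (by rw [hKi, ← hx]; ring)
      (by
        rw [← hz]
        have : D * (l0 * K.kd + l1 * 0 + l2 * 0) = l0 * (D * K.kd) := by ring
        rw [this, hKd]
        ring)
    rw [hc1] at hq
    have haff : ∀ ev : Bool, qP reA ev K gm
        (l0 * (K.a.i * (1 - xi)) + l1 * 0 + l2 * 0) (l0 * K.a.i + l1 * (K.a.i * xi) + l2 * 0)
        (l0 * K.kd + l1 * 0 + l2 * 0) =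
        l0 * eP reA 0 ev a xi gm + l1 * eP reA 1 ev a xi gm + l2 * eP reA 2 ev a xi gm := by
      intro ev
      rw [h3 ev K gm l0 l1 l2 _ _ _ _ _ _ _ _ _ hl, eP0, eP1, eP2]
    rcases le_total (tt a b c 1) 0 with ht | ht
    · exact ⟨D, l0, l1, l2, false, hD0, hl0, hl1, hl2, hl, by rw [hq.1 ht, haff]⟩
    · exact ⟨D, l0, l1, l2, true, hD0, hl0, hl1, hl2, hl, by rw [hq.2 ht, haff]⟩
  rcases le_total gm (a * (1 - xi)) with hA | hA
  · -- all kinks active
    have h4 : 0 < a * (1 - xi) := mul_pos ha hm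
    apply step (1 - gm / (a * (1 - xi))) (gm / (a * (1 - xi))) 0
    · have : gm / (a * (1 - xi)) ≤ 1 := (div_le_one h4).2 hA
      linarith
    · exact div_nonneg hgm h4.le
    · exact le_refl _
    · ring
    · unfold kk
      rw [max_eq_left (by rw [hb]; nlinarith)]
      rw [hb]
      field_simp
      ring
    · unfold kk
      rw [max_eq_left (by rw [hc]; nlinarith)]
      rw [hc]
      field_simp
      ring
  · rcases le_total gm a with hB | hB
    · by_cases hx0 : xi = 0
      · -- then gm = a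
        have hga : gm = a := by
          rw [hx0] at hA
          linarith
        apply step 0 0 1 (le_refl _) (le_refl _) zero_le_one (by norm_num)
        · unfold kk
          rw [max_eq_right (by rw [hb, hx0, hga]; linarith)]
          ring
        · unfold kk
          rw [max_eq_right (by rw [hc, hga]; linarith)]
          ring
      · have hxp : 0 < xi := lt_of_le_of_ne hxi (Ne.symm hx0)
        have h4 : 0 < a * xi := mul_pos ha hxp
        apply step 0 ((a - gm) / (a * xi)) (1 - (a - gm) / (a * xi)) (le_refl _)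
        · exact div_nonneg (by linarith) h4.le
        · have : (a - gm) / (a * xi) ≤ 1 := (div_le_one h4).2 (by nlinarith)
          linarith
        · ring
        · unfold kk
          rw [max_eq_right (by rw [hb]; nlinarith)]
          ring
        · unfold kk
          rw [max_eq_left (by rw [hc]; linarith)]
          rw [hc]
          field_simp
          ring
    · apply step 0 0 1 (le_refl _) (le_refl _) zero_le_one (by norm_num)
      · unfold kk
        rw [max_eq_right (by rw [hb]; linarith)]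
        ring
      · unfold kk
        rw [max_eq_right (by rw [hc]; linarith)]
        ring

end Pool.Agent.FTA
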