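import Pool.Agent.FTA.Stmts

/-! Module CHN: complement form near `V3`, negative type. -/

open Real

namespace Pool.Agent.FTA

namespace CHN_

theorem mul_scR (x : ℝ) : x * scR x = sn x := by
  unfold scR
  split_ifs with h
  · subst h; simp [sn]
  · field_simp

theorem asR_sq_mul (t : ℝ) (ht : 0 ≤ t) : asR (t ^ 2) * t = T1 t := by
  unfold asR T1
  split_ifs with h
  · have h0 : t = 0 := by simpa using h
    subst h0; simp
  · have h0 : t ≠ 0 := fun h' => h (by simp [h'])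
    rw [Real.sqrt_sq ht]
    field_simp

theorem sn_cn_sq (x : ℝ) : sn x ^ 2 + cn x ^ 2 = 1 := by
  unfold sn cn; exact Real.sin_sq_add_cos_sq _

theorem tbound (C Ca Cb Sa Sb : ℝ) (hC0 : 0 ≤ C) (hC : C ≤ 3 / 10) (hCa0 : 0 ≤ Ca) (hCa : Ca ≤ 3 / 10)
    (hCb0 : 0 ≤ Cb) (hCb : Cb ≤ 3 / 10) (hSa : 19 / 20 ≤ Sa) (hSb : 19 / 20 ≤ Sb) :
    0 ≤ (C + Ca * Cb) / (Sa * Sb) ∧ (C + Ca * Cb) / (Sa * Sb) ≤ 1 / 2 := by
  have h1 : 0 < Sa * Sb := by positivity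
  have h2 : 361 / 400 ≤ Sa * Sb := by nlinarith
  have h3 : Ca * Cb ≤ 9 / 100 := by nlinarith
  refine ⟨div_nonneg (by positivity) h1.le, ?_⟩
  rw [div_le_iff₀ h1]
  nlinarith

theorem first_diff (h1 : Stmt_HB) (x C t r : ℝ) (hx0 : 0 ≤ x) (hx : x ≤ 3 / 16) (hC : C = sn x)
    (ht0 : 0 ≤ t) (ht : t ≤ 1 / 2) (hr : r = (√(1 - t ^ 2))⁻¹) :
    (C - t) * (1 / π * r + 1 / 2 * (C + t)) ≤ 1 / 2 * (x + C ^ 2) - 1 / 2 * (T1 t + t ^ 2) := by
  obtain ⟨-, -, h3, h4, h5⟩ := h1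
  obtain ⟨a1, a2, a3, a4⟩ := h5 x hx0 hx
  have e1 := (h4 x hx0 (by linarith)).1
  have e2 := h3 t (sn x) ht0 (by linarith) a1 (by linarith)
  rw [e1] at e2
  subst hC hr
  nlinarith

theorem cmp_spec (h1 : Stmt_HB) (p1 : ∀ x, |x| ≤ 1 → reA.sc x = scR x) (p2 : ∀ x, |x| ≤ 1 → reA.cs x = cn x)
    (x : ℝ) (hx0 : 0 ≤ x) (hx : x ≤ 3 / 16) (k : Cmp ℝ) (hk : k = cmp reA x) :
    k.S = cn x ∧ k.C = sn x ∧ k.C = x * k.z ∧ k.m = k.C * k.z ∧ k.D = 1 - k.m ∧ De x = x * k.D ∧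
    k.p = 1 + 1 / 8 * k.D ∧ k.q = 1 / 4 + 1 / 8 * k.D ∧ k.s = 1 / 4 + 3 / 16 * k.D ∧
    0 ≤ k.C ∧ k.C ≤ 3 / 10 ∧ 19 / 20 ≤ k.S ∧ k.S ≤ 1 ∧ k.C ^ 2 + k.S ^ 2 = 1 := by
  obtain ⟨-, -, -, -, h5⟩ := h1
  obtain ⟨b1, b2, b3, b4⟩ := h5 x hx0 hx
  have hax : |x| ≤ 1 := by rw [abs_of_nonneg hx0]; linarith
  have ez : k.z = scR x := by rw [hk, ← p1 x hax]; rfl
  have eS : k.S = cn x := by rw [hk, ← p2 x hax]; rfl
  have eC : k.C = x * k.z := by rw [hk]; rfl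
  have eC2 : k.C = sn x := by rw [eC, ez, mul_scR]
  have em : k.m = k.C * k.z := by rw [hk]; rfl
  have eD : k.D = 1 - k.m := by
    have : k.D = dy false 1 0 - k.m := by rw [hk]; rfl
    rw [this]; simp [dy]
  have ep : k.p = 1 + 1 / 8 * k.D := by
    have : k.p = dy false 1 0 + ((1 : ℕ) : ℝ) / 2 ^ 3 * k.D := by rw [hk]; rfl
    rw [this]; norm_num [dy]
  have eq : k.q = 1 / 4 + 1 / 8 * k.D := by
    have : k.q = dy false 1 2 + ((1 : ℕ) : ℝ) / 2 ^ 3 * k.D := by rw [hk]; rfl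
    rw [this]; norm_num [dy]
  have es : k.s = 1 / 4 + 3 / 16 * k.D := by
    have : k.s = dy false 1 2 + ((3 : ℕ) : ℝ) / 2 ^ 4 * k.D := by rw [hk]; rfl
    rw [this]; norm_num [dy]
  refine ⟨eS, eC2, eC, em, eD, ?_, ep, eq, es, by rw [eC2]; exact b1, by rw [eC2]; exact b2,
    by rw [eS]; exact b3, by rw [eS]; exact b4, by rw [eS, eC2]; exact sn_cn_sq x⟩
  rw [eD, em]
  unfold De
  rw [← eC2]
  linear_combination (-1 : ℝ) * k.C * eC

/-- the form of `F` at a negative cosine -/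
theorem F_neg (h1 : Stmt_HB) (x y t Dx Dy Cx Cy Sx Sy : ℝ) (hy0 : 0 ≤ y) (hyx : y ≤ x) (hx : x ≤ 3 / 16)
    (ht0 : 0 ≤ t) (ht : t ≤ 1) (hDx : De x = x * Dx) (hDy : De y = y * Dy) (hCx : Cx = sn x) (hCy : Cy = sn y)
    (hSx : Sx = cn x) (hSy : Sy = cn y) :
    F (1 - x) (1 - y) (-t) =
      3 / 2 * (-(1 / 3) + x * (1 + 1 / 8 * Dx)) * (-(1 / 3) + y * (1 + 1 / 8 * Dy))
      + 4 * (1 / 4 - x * (1 / 4 + 1 / 8 * Dx)) * (1 / 4 - y * (1 / 4 + 1 / 8 * Dy)) * (-1 + 2 * T1 t)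
      + 4 * (1 / 4 - x * (1 / 4 + 3 / 16 * Dx)) * (1 / 4 - y * (1 / 4 + 3 / 16 * Dy)) * (2 * t ^ 2 - 1)
      - (5 / 4 * y - Cx * Sx * (Cy * Sy) / 2) * (t + T1 t) / 2
      + (5 / 4 * (y * (1 - 2 * x)) - 93 / 128 * (x * Dx) * (y * Dy)) * t ^ 2 := by
  obtain ⟨h1, h2, -, -, -⟩ := h1
  rw [h1 x y (-t) hy0 hyx hx, (h2 t ht0 ht).2.1, (h2 t ht0 ht).2.2, hDx, hDy, hCx, hCy, hSx, hSy]
  ring

theorem one1 : reA.one = 1 := by
  have : reA.one = dy false 1 0 := rfl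
  rw [this]; simp [dy]

theorem cst0 : reA.cst false 0 0 = 0 := by
  have : reA.cst false 0 0 = dy false 0 0 := rfl
  rw [this]; simp [dy]

theorem cst5 : reA.cst false 5 2 = 5 / 4 := by
  have : reA.cst false 5 2 = dy false 5 2 := rfl
  rw [this]; norm_num [dy]

theorem gen (P k zz i cab N C Q t d : ℝ) (hN : P * N = C * ((1 - cab) * (1 + cab))) (hk : k = N * (1 + cab)⁻¹)
    (hc : 1 + cab ≠ 0) (hz : P * zz = Q) (hi : cab * i = 1) (ht : t = (C + Q) * i) (hd : d = (0 - (zz + k)) * i) :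
    P * d = C - t := by
  have hw : (1 + cab)⁻¹ * (1 + cab) = 1 := inv_mul_cancel₀ hc
  have hk2 : P * k = C * (1 - cab) := by
    rw [hk]
    linear_combination (1 + cab)⁻¹ * hN + C * (1 - cab) * hw
  rw [hd, ht]
  linear_combination (-i) * hk2 - i * hz + C * hi

theorem sqb (t : ℝ) (h0 : 0 ≤ t) (h : t ≤ 1 / 2) : t ^ 2 ≤ 1 / 4 := by nlinarith

theorem sqN (Ca Cb Sa Sb : ℝ) (ha : Ca ^ 2 + Sa ^ 2 = 1) (hb : Cb ^ 2 + Sb ^ 2 = 1) :
    Ca ^ 2 + Cb ^ 2 - Ca ^ 2 * Cb ^ 2 = (1 - Sa * Sb) * (1 + Sa * Sb) := by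
  linear_combination (1 - Cb ^ 2) * ha + Sa ^ 2 * hb

end CHN_

open CHN_ in
theorem chn_proof (h1 : Stmt_HB) (h2 : Stmt_PRIM) : Stmt_CHN := by
  intro al s u hal0 hal hs0 hs hu0 hu
  have hbe0 : 0 ≤ al * s := mul_nonneg hal0 hs0
  have hbeal : al * s ≤ al := mul_le_of_le_one_right hal0 hs
  have hgm0 : 0 ≤ al * s * u := mul_nonneg hbe0 hu0
  have hgmbe : al * s * u ≤ al * s := mul_le_of_le_one_right hbe0 hu
  obtain ⟨p1, p2, -, p4⟩ := h2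
  unfold hF
  extract_lets be gm a b c cab cac cbc ia ib ic iab iac ibc su us Ab Ac tzb txb Cb tya tz tx ty z2 x2 y2 ezb exb abc ww ry eya epz epx epy mB mC zz k1 dz k2 zu dx k3 zs dy l1 l2 l3 pr one P1 P2 P3 lin L2 zt xt yt L3 Wz Wx Wy WT o2a RT
  have hbe : be = al * s := rfl
  have hgm : gm = be * u := rfl
  have sa := cmp_spec h1 p1 p2 al hal0 hal a rfl
  have sb := cmp_spec h1 p1 p2 be hbe0 (hbeal.trans hal) b rfl
  have sc := cmp_spec h1 p1 p2 gm hgm0 ((hgmbe.trans hbeal).trans hal) c rfl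
  have e_cab : cab = a.S * b.S := rfl
  have e_cac : cac = a.S * c.S := rfl
  have e_cbc : cbc = b.S * c.S := rfl
  have e_ia : ia = (a.S)⁻¹ := rfl
  have e_ib : ib = (b.S)⁻¹ := rfl
  have e_ic : ic = (c.S)⁻¹ := rfl
  have e_iab : iab = ia * ib := rfl
  have e_iac : iac = ia * ic := rfl
  have e_ibc : ibc = ib * ic := rfl
  have e_su : su = s * u := rfl
  have e_us : us = u * c.z := rfl
  have e_Ab : Ab = a.C * b.z := rfl
  have e_Ac : Ac = a.C * c.z := rfl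
  have e_tzb : tzb = (us + Ab) * iab := rfl
  have e_txb : txb = (b.z + u * Ac) * iac := rfl
  have e_Cb : Cb = s * c.C * b.z := rfl
  have e_tya : tya = (a.z + Cb) * ibc := rfl
  have e_tz : tz = tzb * be := rfl
  have e_tx : tx = txb * be := rfl
  have e_ty : ty = tya * al := rfl
  have e_z2 : z2 = tz ^ 2 := (sq tz).symm
  have e_x2 : x2 = tx ^ 2 := (sq tx).symm
  have e_y2 : y2 = ty ^ 2 := (sq ty).symm
  have e_ezb : ezb = reA.as z2 * tzb := rfl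
  have e_exb : exb = reA.as x2 * txb := rfl
  have e_abc : abc = ((2 : ℕ) : ℝ) / 2 ^ 0 * (a.C * b.C * c.C) := rfl
  have e_ww : ww = ((b.C * b.C + c.C * c.C) + abc) * (ia * ia) := rfl
  have e_ry : ry = cbc * ia * (√(reA.one - ww))⁻¹ := rfl
  have e_eya : eya = reA.as y2 * tya := rfl
  have e_epz : epz = ezb * be := rfl
  have e_epx : epx = exb * be := rfl
  have e_epy : epy = eya * al := rfl
  have e_mB : mB = b.m * s := rfl
  have e_mC : mC = c.m * su := rfl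
  have e_zz : zz = a.z * b.z := rfl
  have e_k1 : k1 = us * (a.m + mB - a.m * (b.C * b.C)) * (reA.one + cab)⁻¹ := rfl
  have e_dz : dz = (reA.cst false 0 0 - (zz + k1)) * iab := rfl
  have e_k2 : k2 = b.z * (a.m + mC - a.m * (c.C * c.C)) * (reA.one + cac)⁻¹ := rfl
  have e_zu : zu = a.z * us := rfl
  have e_dx : dx = (reA.cst false 0 0 - (zu + k2)) * iac := rfl
  have e_k3 : k3 = a.z * (b.m + c.m * u - b.m * (c.C * c.C)) * (reA.one + cbc)⁻¹ := rfl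
  have e_zs : zs = b.z * su * c.z := rfl
  have e_dy : dy = (reA.cst false 0 0 - (zs + k3)) * ibc := rfl
  have e_l1 : l1 = dz * (1 / π * (√(reA.one - z2))⁻¹ + ((1 : ℕ) : ℝ) / 2 ^ 1 * (c.C + tz)) := rfl
  have e_l2 : l2 = dx * (1 / π * (√(reA.one - x2))⁻¹ + ((1 : ℕ) : ℝ) / 2 ^ 1 * (b.C + tx)) := rfl
  have e_l3 : l3 = dy * (1 / π * ry + ((1 : ℕ) : ℝ) / 2 ^ 1 * (a.C + ty)) := rfl
  have e_P1 : P1 = ((3 : ℕ) : ℝ) / 2 ^ 1 * (a.p * b.p + (u * (a.p * c.p) + su * (b.p * c.p))) := rfl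
  have e_P2 : P2 = ((4 : ℕ) : ℝ) / 2 ^ 0 * (a.q * b.q * (reA.one - ((2 : ℕ) : ℝ) / 2 ^ 0 * epz) +
    (u * (a.q * c.q) * (reA.one - ((2 : ℕ) : ℝ) / 2 ^ 0 * epx) +
      su * (b.q * c.q) * (reA.one - ((2 : ℕ) : ℝ) / 2 ^ 0 * epy))) := rfl
  have e_P3 : P3 = ((4 : ℕ) : ℝ) / 2 ^ 0 * (a.s * b.s * (reA.one - ((2 : ℕ) : ℝ) / 2 ^ 0 * z2) +
    (u * (a.s * c.s) * (reA.one - ((2 : ℕ) : ℝ) / 2 ^ 0 * x2) +
      su * (b.s * c.s) * (reA.one - ((2 : ℕ) : ℝ) / 2 ^ 0 * y2))) := rfl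
  have e_L2 : L2 = ((2 : ℕ) : ℝ) / 2 ^ 0 * ((a.q + s * b.q) * ezb + ((a.q + su * c.q) * exb + (b.q + u * c.q) * eya)) := rfl
  have e_zt : zt = tz * tzb := rfl
  have e_xt : xt = tx * txb := rfl
  have e_yt : yt = ty * tya := rfl
  have e_L3 : L3 = ((2 : ℕ) : ℝ) / 2 ^ 0 * ((a.s + s * b.s) * zt + ((a.s + su * c.s) * xt + (b.s + u * c.s) * yt)) := rfl
  have e_Wz : Wz = (reA.cst false 5 2 - ((1 : ℕ) : ℝ) / 2 ^ 1 * (cab * Ab)) * s * (((1 : ℕ) : ℝ) / 2 ^ 1 * (tzb + ezb)) := rfl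
  have e_Wx : Wx = (reA.cst false 5 2 - ((1 : ℕ) : ℝ) / 2 ^ 1 * (cac * Ac)) * su * (((1 : ℕ) : ℝ) / 2 ^ 1 * (txb + exb)) := rfl
  have e_Wy : Wy = (reA.cst false 5 2 - ((1 : ℕ) : ℝ) / 2 ^ 1 * (cbc * (b.C * c.z))) * u *
    (((1 : ℕ) : ℝ) / 2 ^ 1 * (tya + eya)) := rfl
  have e_WT : WT = Wz + (Wx + Wy) := rfl
  have e_o2a : o2a = ((5 : ℕ) : ℝ) / 2 ^ 2 * (reA.one - ((2 : ℕ) : ℝ) / 2 ^ 0 * al) := rfl
  have e_RT : RT = ((93 : ℕ) : ℝ) / 2 ^ 7 * (a.D * b.D * z2 + (u * (a.D * c.D) * x2 + su * (b.D * c.D) * y2)) -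
    (o2a * s * zt + (o2a * su * xt + ((5 : ℕ) : ℝ) / 2 ^ 2 * (reA.one - ((2 : ℕ) : ℝ) / 2 ^ 0 * be) * u * yt)) := rfl
  have goal : (reA.add (reA.add (reA.add l1 (reA.add l2 l3)) (reA.sub (reA.add P2 P3) P1))
            (reA.add (reA.add L2 L3) (reA.add WT RT)), tzb).1 = l1 + (l2 + l3) + (P2 + P3 - P1) + (L2 + L3 + (WT + RT)) := rfl
  rw [goal, ← hbe, ← hgm]
  clear goal
  clear_value RT o2a WT Wy Wx Wz L3 yt xt zt L2 lin P3 P2 P1 one pr l3 l2 l1 dy zs k3 dx zu k2 dz k1 zz mC mB epy epx epz eya ry ww abc exb ezb y2 x2 z2 ty tx tz tya Cb txb tzb Ac Ab us su ibc iac iab ic ib ia cbc cac cab c b a gm be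
  simp only [one1, cst0, cst5] at e_ry e_k1 e_dz e_k2 e_dx e_k3 e_dy e_l1 e_l2 e_P2 e_P3 e_Wz e_Wx e_Wy e_o2a e_RT
  norm_num only [pow_zero, pow_one, Nat.cast_ofNat, Nat.cast_one, div_one] at e_abc e_l1 e_l2 e_l3 e_P1 e_P2 e_P3 e_L2 e_L3 e_Wz e_Wx e_Wy e_o2a e_RT
  obtain ⟨a1, a2, a3, a4, a5, a6, a7, a8, a9, a10, a11, a12, a13, a14⟩ := sa
  obtain ⟨b1, b2, b3, b4, b5, b6, b7, b8, b9, b10, b11, b12, b13, b14⟩ := sb
  obtain ⟨c1, c2, c3, c4, c5, c6, c7, c8, c9, c10, c11, c12, c13, c14⟩ := sc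
  rw [← hbe] at hbe0 hbeal hgm0 hgmbe
  rw [← hgm] at hgm0 hgmbe
  have hSa : 0 < a.S := by linarith
  have hSb : 0 < b.S := by linarith
  have hSc : 0 < c.S := by linarith
  have hcab : 0 < cab := by rw [e_cab]; positivity
  have hcac : 0 < cac := by rw [e_cac]; positivity
  have hcbc : 0 < cbc := by rw [e_cbc]; positivity
  have ia1 : a.S * ia = 1 := by rw [e_ia]; exact mul_inv_cancel₀ hSa.ne'
  have ib1 : b.S * ib = 1 := by rw [e_ib]; exact mul_inv_cancel₀ hSb.ne'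
  have ic1 : c.S * ic = 1 := by rw [e_ic]; exact mul_inv_cancel₀ hSc.ne'
  have iab1 : cab * iab = 1 := by rw [e_cab, e_iab]; linear_combination (b.S * ib) * ia1 + ib1
  have iac1 : cac * iac = 1 := by rw [e_cac, e_iac]; linear_combination (c.S * ic) * ia1 + ic1
  have ibc1 : cbc * ibc = 1 := by rw [e_cbc, e_ibc]; linear_combination (c.S * ic) * ib1 + ic1
  have hcC : be * us = c.C := by rw [c3, e_us, hgm]; ring
  have htz : tz = (c.C + a.C * b.C) * iab := by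
    rw [e_tz, e_tzb, e_Ab]; linear_combination iab * hcC - a.C * iab * b3
  have htx : tx = (b.C + a.C * c.C) * iac := by
    rw [e_tx, e_txb, e_Ac, c3, b3, hgm]; ring
  have hty : ty = (a.C + b.C * c.C) * ibc := by
    rw [e_ty, e_tya, e_Cb]
    have : al * s * b.z = b.C := by rw [b3, hbe]
    linear_combination (-ibc) * a3 + c.C * ibc * this
  have htz' : tz = (c.C + a.C * b.C) / (a.S * b.S) := by
    rw [htz, eq_div_iff (mul_pos hSa hSb).ne']; linear_combination (c.C + a.C * b.C) * (iab1 - iab * e_cab)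
  have htx' : tx = (b.C + a.C * c.C) / (a.S * c.S) := by
    rw [htx, eq_div_iff (mul_pos hSa hSc).ne']; linear_combination (b.C + a.C * c.C) * (iac1 - iac * e_cac)
  have hty' : ty = (a.C + b.C * c.C) / (b.S * c.S) := by
    rw [hty, eq_div_iff (mul_pos hSb hSc).ne']; linear_combination (a.C + b.C * c.C) * (ibc1 - ibc * e_cbc)
  have btz := tbound c.C a.C b.C a.S b.S c10 c11 a10 a11 b10 b11 a12 b12
  have btx := tbound b.C a.C c.C a.S c.S b10 b11 a10 a11 c10 c11 a12 c12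
  have bty := tbound a.C b.C c.C b.S c.S a10 a11 b10 b11 c10 c11 b12 c12
  rw [← htz'] at btz
  rw [← htx'] at btx
  rw [← hty'] at bty
  have hez : ezb * be = T1 tz := by
    rw [e_ezb, e_z2, p4 (tz ^ 2) (by positivity) (sqb tz btz.1 btz.2), ← asR_sq_mul tz btz.1, mul_assoc, ← e_tz]
  have hex : exb * be = T1 tx := by
    rw [e_exb, e_x2, p4 (tx ^ 2) (by positivity) (sqb tx btx.1 btx.2), ← asR_sq_mul tx btx.1, mul_assoc, ← e_tx]
  have hey : eya * al = T1 ty := by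
    rw [e_eya, e_y2, p4 (ty ^ 2) (by positivity) (sqb ty bty.1 bty.2), ← asR_sq_mul ty bty.1, mul_assoc, ← e_ty]
  have ham : al * a.m = a.C ^ 2 := by rw [a4]; linear_combination (-a.C) * a3
  have hbm : be * b.m = b.C ^ 2 := by rw [b4]; linear_combination (-b.C) * b3
  have hcm : gm * c.m = c.C ^ 2 := by rw [c4]; linear_combination (-c.C) * c3
  have hmB : al * mB = b.C ^ 2 := by rw [e_mB]; linear_combination hbm - b.m * hbe
  have hmC : al * mC = c.C ^ 2 := by rw [e_mC, e_su]; linear_combination hcm - c.m * hgm - c.m * u * hbe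
  have hmu : be * (c.m * u) = c.C ^ 2 := by linear_combination hcm - c.m * hgm
  have q1 := sqN a.C b.C a.S b.S a14 b14
  have q2 := sqN a.C c.C a.S c.S a14 c14
  have q3 := sqN b.C c.C b.S c.S b14 c14
  rw [← e_cab] at q1
  rw [← e_cac] at q2
  rw [← e_cbc] at q3
  have d1 : al * be * dz = c.C - tz := by
    refine gen (al * be) k1 zz iab cab _ c.C (a.C * b.C) tz dz ?_ e_k1 (by linarith) ?_ iab1 htz e_dz
    · linear_combination (al * (a.m + mB - a.m * (b.C * b.C))) * hcC + c.C * ((1 - b.C ^ 2) * ham + hmB + q1)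
    · rw [e_zz]; linear_combination (-(be * b.z)) * a3 - a.C * b3
  have d2 : al * be * dx = b.C - tx := by
    refine gen (al * be) k2 zu iac cac _ b.C (a.C * c.C) tx dx ?_ e_k2 (by linarith) ?_ iac1 htx e_dx
    · linear_combination (-(al * (a.m + mC - a.m * (c.C * c.C)))) * b3 + b.C * ((1 - c.C ^ 2) * ham + hmC + q2)
    · rw [e_zu]; linear_combination (al * a.z) * hcC - c.C * a3
  have d3 : al * be * dy = a.C - ty := by
    refine gen (al * be) k3 zs ibc cbc _ a.C (b.C * c.C) ty dy ?_ e_k3 (by linarith) ?_ ibc1 hty e_dy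
    · linear_combination (-(be * (b.m + c.m * u - b.m * (c.C * c.C)))) * a3 + a.C * ((1 - c.C ^ 2) * hbm + hmu + q3)
    · rw [e_zs, e_su, b3, c3, hgm, hbe]; ring
  have f1 := first_diff h1 gm c.C tz (√(1 - z2))⁻¹ hgm0 (by linarith) c2 btz.1 btz.2 (by rw [e_z2])
  have f2 := first_diff h1 be b.C tx (√(1 - x2))⁻¹ hbe0 (by linarith) b2 btx.1 btx.2 (by rw [e_x2])
  have hry : ry = (√(1 - ty ^ 2))⁻¹ := by
    have e1 : 1 - ty ^ 2 = (ibc * a.S) ^ 2 * (1 - ww) := by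
      rw [hty, e_ww, e_abc]
      have g2 : ibc ^ 2 * cbc ^ 2 = 1 := by
        have : ibc ^ 2 * cbc ^ 2 = (cbc * ibc) ^ 2 := by ring
        rw [this, ibc1]; norm_num
      have g3 : a.S ^ 2 * ia ^ 2 = 1 := by
        have : a.S ^ 2 * ia ^ 2 = (a.S * ia) ^ 2 := by ring
        rw [this, ia1]; norm_num
      linear_combination (-1 : ℝ) * g2 + ibc ^ 2 * ((b.C * b.C + c.C * c.C + 2 * (a.C * b.C * c.C)) * g3 + q3 * 1 - a14)
    have hpos : 0 ≤ ibc * a.S := by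
      have : 0 < ibc := by
        rw [e_ibc, e_ib, e_ic]; positivity
      positivity
    rw [e1, Real.sqrt_mul (sq_nonneg _), Real.sqrt_sq hpos, mul_inv, mul_inv, e_ry]
    have g4 : ibc⁻¹ = cbc := by
      rw [eq_comm, eq_inv_of_mul_eq_one_left ibc1]
    rw [g4, e_ia]
  have f3 := first_diff h1 al a.C ty ry hal0 hal a2 bty.1 bty.2 hry
  have n1 : al * be * l1 = (c.C - tz) * (1 / π * (√(1 - z2))⁻¹ + 1 / 2 * (c.C + tz)) := by
    rw [← d1, e_l1]; ring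
  have n2 : al * be * l2 = (b.C - tx) * (1 / π * (√(1 - x2))⁻¹ + 1 / 2 * (b.C + tx)) := by
    rw [← d2, e_l2]; ring
  have n3 : al * be * l3 = (a.C - ty) * (1 / π * ry + 1 / 2 * (a.C + ty)) := by
    rw [← d3, e_l3]; ring
  obtain ⟨-, -, -, h4, -⟩ := id h1
  have ca := h4 al hal0 (by linarith)
  have cb := h4 be hbe0 (by linarith)
  have cc := h4 gm hgm0 (by linarith)
  have tt1 : tt (1 - al) (1 - be) (1 - gm) (-1) = -tz := by
    unfold tt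
    rw [ca.2.1, ca.2.2, cb.2.1, cb.2.2, cc.2.1, ← a1, ← a2, ← b1, ← b2, ← c2, htz']
    ring
  have tt2 : tt (1 - al) (1 - gm) (1 - be) (-1) = -tx := by
    unfold tt
    rw [ca.2.1, ca.2.2, cc.2.1, cc.2.2, cb.2.1, ← a1, ← a2, ← b2, ← c1, ← c2, htx']
    ring
  have tt3 : tt (1 - be) (1 - gm) (1 - al) (-1) = -ty := by
    unfold tt
    rw [cb.2.1, cb.2.2, cc.2.1, cc.2.2, ca.2.1, ← a2, ← b1, ← b2, ← c1, ← c2, hty']
    ring
  have F1 := F_neg h1 al be tz a.D b.D a.C b.C a.S b.S hbe0 hbeal hal btz.1 (by linarith [btz.2]) a6 b6 a2 b2 a1 b1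
  have F2 := F_neg h1 al gm tx a.D c.D a.C c.C a.S c.S hgm0 (by linarith) hal btx.1 (by linarith [btx.2]) a6 c6 a2 c2 a1 c1
  have F3 := F_neg h1 be gm ty b.D c.D b.C c.C b.S c.S hgm0 hgmbe (by linarith) bty.1 (by linarith [bty.2]) b6 c6 b2 c2 b1 c1
  have key : Gf (1 - al) (1 - be) (1 - gm) (-1) =
      (1 / 2 * (gm + c.C ^ 2) - 1 / 2 * (T1 tz + tz ^ 2)) + (1 / 2 * (be + b.C ^ 2) - 1 / 2 * (T1 tx + tx ^ 2))
      + (1 / 2 * (al + a.C ^ 2) - 1 / 2 * (T1 ty + ty ^ 2))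
      + al * be * ((P2 + P3 - P1) + (L2 + L3 + (WT + RT))) := by
    unfold Gf
    rw [tt1, tt2, tt3, F1, F2, F3, ← hez, ← hex, ← hey, e_WT, e_P1, e_P2, e_P3, e_L2, e_L3, e_Wz, e_Wx, e_Wy, e_RT, e_o2a,
      e_zt, e_xt, e_yt, e_z2, e_x2, e_y2, e_epz, e_epx, e_epy, e_cab, e_cac, e_cbc, e_Ab, e_Ac, e_su, e_tz, e_tx, e_ty,
      a7, a8, a9, b7, b8, b9, c7, c8, c9, a5, b5, c5, a4, b4, c4, a3, b3, c3, hgm, hbe]
    ring
  rw [key]
  have split : al * be * (l1 + (l2 + l3) + (P2 + P3 - P1) + (L2 + L3 + (WT + RT))) =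
      al * be * l1 + al * be * l2 + al * be * l3 + al * be * ((P2 + P3 - P1) + (L2 + L3 + (WT + RT))) := by ring
  rw [split, n1, n2, n3]
  linarith

end Pool.Agent.FTA
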