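import Pool.Agent.FTA.Stmts

open Real

namespace Pool.Agent.FTA

namespace CHP_

lemma rcst (s : Bool) (p q : ℕ) : reA.cst s p q = dy s p q := rfl
lemma radd (x y : ℝ) : reA.add x y = x + y := rfl
lemma rsub (x y : ℝ) : reA.sub x y = x - y := rfl
lemma rmul (x y : ℝ) : reA.mul x y = x * y := rfl
lemma rsmul (p q : ℕ) (x : ℝ) : reA.smul p q x = (p : ℝ) / 2 ^ q * x := rfl
lemma rinv (x : ℝ) : reA.inv x = x⁻¹ := rfl
lemma rrsq (x : ℝ) : reA.rsq x = (√x)⁻¹ := rfl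
lemma rip : reA.ip = 1 / π := rfl
lemma dyf (p q : ℕ) : dy false p q = (p : ℝ) / 2 ^ q := by simp [dy]
lemma rone : Alg.one reA = 1 := by
  rw [Alg.one, rcst, dyf]; norm_num
lemma rom (x : ℝ) : Alg.om reA x = 1 - x := by rw [Alg.om, rone, rsub]
lemma rop (x : ℝ) : Alg.op reA x = 1 + x := by rw [Alg.op, rone, radd]
lemma rdbl (x : ℝ) : Alg.dbl reA x = 2 * x := by
  rw [Alg.dbl, rsmul]; norm_num

lemma sc_mul (x : ℝ) : x * scR x = sn x := by
  unfold scR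
  by_cases h : x = 0
  · rw [if_pos h, h]; simp [sn]
  · rw [if_neg h]; field_simp

lemma cmp_val (h2 : Stmt_PRIM) (x : ℝ) (hx : |x| ≤ 1) :
    (cmp reA x).S = cn x ∧ (cmp reA x).C = sn x ∧ (cmp reA x).C = x * (cmp reA x).z ∧
    (cmp reA x).m = (cmp reA x).C * (cmp reA x).z ∧ (cmp reA x).D = 1 - (cmp reA x).m ∧
    (cmp reA x).p = 1 + (cmp reA x).D / 8 ∧ (cmp reA x).q = 1 / 4 + (cmp reA x).D / 8 ∧
    (cmp reA x).s = 1 / 4 + 3 * (cmp reA x).D / 16 ∧ x * (cmp reA x).D = De x := by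
  have hz : (cmp reA x).z = scR x := h2.1 x hx
  have hC0 : (cmp reA x).C = x * (cmp reA x).z := rfl
  have hC : (cmp reA x).C = sn x := by rw [hC0, hz, sc_mul]
  have hm : (cmp reA x).m = (cmp reA x).C * (cmp reA x).z := rfl
  have hD : (cmp reA x).D = 1 - (cmp reA x).m := by
    change Alg.om reA _ = _
    rw [rom]; rfl
  refine ⟨h2.2.1 x hx, hC, hC0, hm, hD, ?_, ?_, ?_, ?_⟩
  · change Alg.op reA (reA.smul 1 3 (cmp reA x).D) = _
    rw [rop, rsmul]; norm_num; ring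
  · change reA.add (reA.cst false 1 2) (reA.smul 1 3 (cmp reA x).D) = _
    rw [radd, rcst, dyf, rsmul]; norm_num; ring
  · change reA.add (reA.cst false 1 2) (reA.smul 3 4 (cmp reA x).D) = _
    rw [radd, rcst, dyf, rsmul]; norm_num; ring
  · rw [hD, hm]
    unfold De
    rw [← hC]
    have : x * (1 - (cmp reA x).C * (cmp reA x).z) = x - (cmp reA x).C * (x * (cmp reA x).z) := by
      ring
    rw [this, ← hC0]; ring

lemma T1as (h2 : Stmt_PRIM) (t : ℝ) (h0 : 0 ≤ t) (h1 : t ≤ 1 / 2) : T1 t = reA.as (t * t) * t := by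
  rw [h2.2.2.2 (t * t) (mul_nonneg h0 h0) (by nlinarith)]
  unfold asR T1
  rcases h0.eq_or_lt with h | h
  · rw [← h]; simp
  · rw [if_neg (mul_pos h h).ne', Real.sqrt_mul_self h0]
    field_simp

lemma Fpair (h1 : Stmt_HB) (x y t Dx Dy Cx Cy Sx Sy e : ℝ) (hy0 : 0 ≤ y) (hyx : y ≤ x)
    (hx : x ≤ 3 / 16) (ht0 : 0 ≤ t) (ht1 : t ≤ 1) (hDx : x * Dx = De x) (hDy : y * Dy = De y)
    (hCx : Cx = sn x) (hCy : Cy = sn y) (hSx : Sx = cn x) (hSy : Sy = cn y) (he : T1 t = e) :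
    F (1 - x) (1 - y) t = 3 / 2 * (-(1 / 3) + x * (1 + Dx / 8)) * (-(1 / 3) + y * (1 + Dy / 8))
      + 4 * (1 / 4 - x * (1 / 4 + Dx / 8)) * (1 / 4 - y * (1 / 4 + Dy / 8)) * (-1 + 2 * e)
      + 4 * (1 / 4 - x * (1 / 4 + 3 * Dx / 16)) * (1 / 4 - y * (1 / 4 + 3 * Dy / 16)) * (2 * t ^ 2 - 1)
      + (5 / 4 * y - Cx * Sx * (Cy * Sy) / 2) * (t + e) / 2
      + (5 / 4 * (y * (1 - 2 * x)) - 93 / 128 * (x * Dx) * (y * Dy)) * t ^ 2 := by
  rw [h1.1 x y t hy0 hyx hx, (h1.2.1 t ht0 ht1).1, he, ← hCx, ← hCy, ← hSx, ← hSy, ← hDx, ← hDy]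
  ring

lemma snmono {x y : ℝ} (h0 : 0 ≤ x) (hxy : x ≤ y) (hy : y ≤ 1) : sn x ≤ sn y := by
  unfold sn
  apply Real.sin_le_sin_of_le_of_le_pi_div_two
  · have := Real.pi_pos; nlinarith
  · have := Real.pi_pos; nlinarith
  · have := Real.pi_pos; nlinarith

lemma sncn (x : ℝ) : cn x ^ 2 = 1 - sn x ^ 2 := by
  unfold sn cn
  have := Real.sin_sq_add_cos_sq (π * x / 2)
  linarith

lemma kgen {W Z P k cab Cx Cy Sx Sy : ℝ} (hk : k = P * (1 + cab)⁻¹) (hcab : cab = Sx * Sy)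
    (hpos : 0 < 1 + cab) (hx : Sx ^ 2 = 1 - Cx ^ 2) (hy : Sy ^ 2 = 1 - Cy ^ 2)
    (hP : W * P = Z * (Cx ^ 2 + Cy ^ 2 - Cx ^ 2 * Cy ^ 2)) : W * k = Z * (1 - cab) := by
  have h1 : W * k * (1 + cab) = W * P := by
    rw [hk, mul_assoc, mul_assoc, inv_mul_cancel₀ hpos.ne', mul_one]
  have h2 : W * P = Z * (1 - cab) * (1 + cab) := by
    rw [hP, hcab]
    linear_combination Z * Sy ^ 2 * hx + Z * (1 - Cx ^ 2) * hy
  exact mul_right_cancel₀ hpos.ne' (h1.trans h2)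

lemma dgen {W d Z k i Sx Sy Cx Cy C t cab : ℝ} (hd : d = (Z - k) * i) (hi : i = Sx⁻¹ * Sy⁻¹)
    (hx : Sx ≠ 0) (hy : Sy ≠ 0) (hZ : W * Z = Cx * Cy) (hk : W * k = C * (1 - cab))
    (hcab : cab = Sx * Sy) (ht : t * (Sx * Sy) = C - Cx * Cy) : W * d = C - t := by
  have h1 : W * d * (Sx * Sy) = (C - t) * (Sx * Sy) := by
    have h3 : W * d * (Sx * Sy) = (W * Z - W * k) * (Sx⁻¹ * Sx) * (Sy⁻¹ * Sy) := by
      rw [hd, hi]; ring
    rw [h3, inv_mul_cancel₀ hx, inv_mul_cancel₀ hy, hZ, hk, hcab]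
    linear_combination ht
  exact mul_right_cancel₀ (mul_ne_zero hx hy) h1

lemma tbd {t D N : ℝ} (h : t * D = N) (hD : 9 / 10 ≤ D) (h0 : 0 ≤ N) (h1 : N ≤ 3 / 10) :
    0 ≤ t ∧ t ≤ 1 / 2 := by
  constructor
  · by_contra hc
    push Not at hc
    nlinarith
  · by_contra hc
    push Not at hc
    nlinarith

lemma brl {W l d r C t X e : ℝ} (hl : l = d * (1 / π * r + 1 / 2 * (C + t))) (hd : W * d = C - t)
    (h : 1 / π * (C - t) * r ≤ (X - e) / 2) : W * l ≤ (X - e) / 2 + (C ^ 2 - t ^ 2) / 2 := by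
  have h1 : W * l = 1 / π * (C - t) * r + (C ^ 2 - t ^ 2) / 2 := by
    rw [hl, ← mul_assoc, hd]; ring
  rw [h1]; linarith

end CHP_

open CHP_

set_option maxHeartbeats 1000000 in
theorem chp_proof (h1 : Stmt_HB) (h2 : Stmt_PRIM) : Stmt_CHP := by
  intro al s u hal0 hal hs0 hs1 hu0 hu1 htt
  obtain ⟨H, hH⟩ : ∃ H, H = hF reA false false al s u u := ⟨_, rfl⟩
  rw [← hH]
  unfold hF at hH
  extract_lets be gm a b c cab cac cbc ia ib ic iab iac ibc su us Ab Ac tzb txb Cb tya tz tx ty z2 x2 y2 ezb exb abc ww ry eya epz epx epy mB mC zz k1 dz k2 zu dx k3 zs dY l1 l2 l3 pr one P1 P2 P3 lin L2 zt xt yt L3 Wz Wx Wy WT o2a RT at hH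
  have hbe : be = al * s := rfl
  have hgm : gm = be * u := rfl
  have ha : a = cmp reA al := rfl
  have hb : b = cmp reA be := rfl
  have hc : c = cmp reA gm := rfl
  have hcab : cab = a.S * b.S := rfl
  have hcac : cac = a.S * c.S := rfl
  have hcbc : cbc = b.S * c.S := rfl
  have hia : ia = (a.S)⁻¹ := rfl
  have hib : ib = (b.S)⁻¹ := rfl
  have hic : ic = (c.S)⁻¹ := rfl
  have hiab : iab = ia * ib := rfl
  have hiac : iac = ia * ic := rfl
  have hibc : ibc = ib * ic := rfl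
  have hsu : su = s * u := rfl
  have hus : us = u * c.z := rfl
  have hAb : Ab = a.C * b.z := rfl
  have hAc : Ac = a.C * c.z := rfl
  have htzb : tzb = (us - Ab) * iab := rfl
  have htxb : txb = (b.z - u * Ac) * iac := rfl
  have hCb : Cb = s * c.C * b.z := rfl
  have htya : tya = (a.z - Cb) * ibc := rfl
  have htz : tz = tzb * be := rfl
  have htx : tx = txb * be := rfl
  have hty : ty = tya * al := rfl
  have hz2 : z2 = tz * tz := rfl
  have hx2 : x2 = tx * tx := rfl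
  have hy2 : y2 = ty * ty := rfl
  have hezb : ezb = reA.as z2 * tzb := rfl
  have hexb : exb = reA.as x2 * txb := rfl
  have habc : abc = 2 * (a.C * b.C * c.C) := rdbl _
  have hww : ww = (b.C * b.C + c.C * c.C - abc) * (ia * ia) := rfl
  have hry : ry = cbc * ia * (√(1 - ww))⁻¹ := by
    change cbc * ia * (√(Alg.om reA ww))⁻¹ = _
    rw [rom]
  have heya : eya = reA.as y2 * tya := rfl
  have hepz : epz = ezb * be := rfl
  have hepx : epx = exb * be := rfl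
  have hepy : epy = eya * al := rfl
  have hmB : mB = b.m * s := rfl
  have hmC : mC = c.m * su := rfl
  have hzz : zz = a.z * b.z := rfl
  have hk1 : k1 = us * (a.m + mB - a.m * (b.C * b.C)) * (1 + cab)⁻¹ := by
    change us * (a.m + mB - a.m * (b.C * b.C)) * (Alg.op reA cab)⁻¹ = _
    rw [rop]
  have hdz : dz = (zz - k1) * iab := rfl
  have hk2 : k2 = b.z * (a.m + mC - a.m * (c.C * c.C)) * (1 + cac)⁻¹ := by
    change b.z * (a.m + mC - a.m * (c.C * c.C)) * (Alg.op reA cac)⁻¹ = _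
    rw [rop]
  have hzu : zu = a.z * us := rfl
  have hdx : dx = (zu - k2) * iac := rfl
  have hk3 : k3 = a.z * (b.m + c.m * u - b.m * (c.C * c.C)) * (1 + cbc)⁻¹ := by
    change a.z * (b.m + c.m * u - b.m * (c.C * c.C)) * (Alg.op reA cbc)⁻¹ = _
    rw [rop]
  have hzs : zs = b.z * su * c.z := rfl
  have hdY : dY = (zs - k3) * ibc := rfl
  have hl1 : l1 = dz * (1 / π * (√(1 - z2))⁻¹ + 1 / 2 * (c.C + tz)) := by
    change dz * (1 / π * (√(Alg.om reA z2))⁻¹ + ((1 : ℕ) : ℝ) / 2 ^ 1 * (c.C + tz)) = _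
    rw [rom]; norm_num
  have hl2 : l2 = dx * (1 / π * (√(1 - x2))⁻¹ + 1 / 2 * (b.C + tx)) := by
    change dx * (1 / π * (√(Alg.om reA x2))⁻¹ + ((1 : ℕ) : ℝ) / 2 ^ 1 * (b.C + tx)) = _
    rw [rom]; norm_num
  have hl3 : l3 = dY * (1 / π * ry + 1 / 2 * (a.C + ty)) := by
    change dY * (1 / π * ry + ((1 : ℕ) : ℝ) / 2 ^ 1 * (a.C + ty)) = _
    norm_num
  have hpr : ∀ (f : Cmp ℝ → ℝ) (wz wx wy : ℝ), pr f wz wx wy =
      f a * f b * wz + (u * (f a * f c) * wx + su * (f b * f c) * wy) := fun _ _ _ _ => rfl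
  have hone : one = 1 := rone
  have hP1 : P1 = 3 / 2 * (a.p * b.p + (u * (a.p * c.p) + su * (b.p * c.p))) := by
    change ((3 : ℕ) : ℝ) / 2 ^ 1 * (a.p * b.p + (u * (a.p * c.p) + su * (b.p * c.p))) = _
    norm_num
  have hP2 : P2 = 4 * (a.q * b.q * (1 - 2 * epz) + (u * (a.q * c.q) * (1 - 2 * epx) +
      su * (b.q * c.q) * (1 - 2 * epy))) := by
    change ((4 : ℕ) : ℝ) / 2 ^ 0 * (pr (fun k => k.q) (one - Alg.dbl reA epz)
      (one - Alg.dbl reA epx) (one - Alg.dbl reA epy)) = _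
    rw [hpr, rdbl, rdbl, rdbl, hone]; norm_num
  have hP3 : P3 = 4 * (a.s * b.s * (1 - 2 * z2) + (u * (a.s * c.s) * (1 - 2 * x2) +
      su * (b.s * c.s) * (1 - 2 * y2))) := by
    change ((4 : ℕ) : ℝ) / 2 ^ 0 * (pr (fun k => k.s) (one - Alg.dbl reA z2)
      (one - Alg.dbl reA x2) (one - Alg.dbl reA y2)) = _
    rw [hpr, rdbl, rdbl, rdbl, hone]; norm_num
  have hlin : ∀ (f : Cmp ℝ → ℝ) (wz wx wy : ℝ), lin f wz wx wy =
      2 * ((f a + s * f b) * wz + ((f a + su * f c) * wx + (f b + u * f c) * wy)) :=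
    fun _ _ _ _ => rdbl _
  have hL2 : L2 = 2 * ((a.q + s * b.q) * ezb + ((a.q + su * c.q) * exb + (b.q + u * c.q) * eya)) :=
    hlin _ _ _ _
  have hzt : zt = tz * tzb := rfl
  have hxt : xt = tx * txb := rfl
  have hyt : yt = ty * tya := rfl
  have hL3 : L3 = 2 * ((a.s + s * b.s) * zt + ((a.s + su * c.s) * xt + (b.s + u * c.s) * yt)) :=
    hlin _ _ _ _
  have h54 : reA.cst false 5 2 = 5 / 4 := by rw [rcst, dyf]; norm_num
  have h00 : reA.cst false 0 0 = 0 := by rw [rcst, dyf]; norm_num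
  have hWz : Wz = (5 / 4 - 1 / 2 * (cab * Ab)) * s * (1 / 2 * (tzb + ezb)) := by
    change (reA.cst false 5 2 - ((1 : ℕ) : ℝ) / 2 ^ 1 * (cab * Ab)) * s *
      (((1 : ℕ) : ℝ) / 2 ^ 1 * (tzb + ezb)) = _
    rw [h54]; norm_num
  have hWx : Wx = (5 / 4 - 1 / 2 * (cac * Ac)) * su * (1 / 2 * (txb + exb)) := by
    change (reA.cst false 5 2 - ((1 : ℕ) : ℝ) / 2 ^ 1 * (cac * Ac)) * su *
      (((1 : ℕ) : ℝ) / 2 ^ 1 * (txb + exb)) = _
    rw [h54]; norm_num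
  have hWy : Wy = (5 / 4 - 1 / 2 * (cbc * (b.C * c.z))) * u * (1 / 2 * (tya + eya)) := by
    change (reA.cst false 5 2 - ((1 : ℕ) : ℝ) / 2 ^ 1 * (cbc * (b.C * c.z))) * u *
      (((1 : ℕ) : ℝ) / 2 ^ 1 * (tya + eya)) = _
    rw [h54]; norm_num
  have hWT : WT = -Wz - (Wx + Wy) := by
    change (reA.cst false 0 0 - Wz) + (reA.cst false 0 0 - (Wx + Wy)) = _
    rw [h00]; ring
  have ho2a : o2a = 5 / 4 * (1 - 2 * al) := by
    change ((5 : ℕ) : ℝ) / 2 ^ 2 * (Alg.om reA (Alg.dbl reA al)) = _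
    rw [rom, rdbl]; norm_num
  have hRT : RT = 93 / 128 * (a.D * b.D * z2 + (u * (a.D * c.D) * x2 + su * (b.D * c.D) * y2)) -
      (o2a * s * zt + (o2a * su * xt + 5 / 4 * (1 - 2 * be) * u * yt)) := by
    change ((93 : ℕ) : ℝ) / 2 ^ 7 * (pr (fun k => k.D) z2 x2 y2) - (o2a * s * zt + (o2a * su * xt +
      ((5 : ℕ) : ℝ) / 2 ^ 2 * (Alg.om reA (Alg.dbl reA be)) * u * yt)) = _
    rw [hpr, rom, rdbl]; norm_num
  have hH' : H = (l1 + (l2 + l3) + (P2 + P3 - P1) + (L2 + L3 + (WT + RT)), tzb) := hH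
  clear hH
  clear_value RT o2a WT Wy Wx Wz L3 yt xt zt L2 lin P3 P2 P1 one pr l3 l2 l1 dY zs k3 dx zu k2 dz k1 zz mC mB epy epx epz eya ry ww abc exb ezb y2 x2 z2 ty tx tz tya Cb txb tzb Ac Ab us su ibc iac iab ic ib ia cbc cac cab c b a gm be
  rw [← hbe, ← hgm] at htt ⊢
  have hbe0 : 0 ≤ be := by rw [hbe]; exact mul_nonneg hal0 hs0
  have hbea : be ≤ al := by rw [hbe]; exact mul_le_of_le_one_right hal0 hs1
  have hgm0 : 0 ≤ gm := by rw [hgm]; exact mul_nonneg hbe0 hu0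
  have hgmb : gm ≤ be := by rw [hgm]; exact mul_le_of_le_one_right hbe0 hu1
  have hbe1 : be ≤ 3 / 16 := hbea.trans hal
  have hgm1 : gm ≤ 3 / 16 := hgmb.trans hbe1
  have Ha := cmp_val h2 al (by rw [abs_of_nonneg hal0]; linarith only [hal])
  have Hb := cmp_val h2 be (by rw [abs_of_nonneg hbe0]; linarith only [hbe1])
  have Hc := cmp_val h2 gm (by rw [abs_of_nonneg hgm0]; linarith only [hgm1])
  rw [← ha] at Ha
  rw [← hb] at Hb
  rw [← hc] at Hc
  obtain ⟨haS, haC, haC', ham, haD, hap, haq, has, haDe⟩ := Ha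
  obtain ⟨hbS, hbC, hbC', hbm, hbD, hbp, hbq, hbs, hbDe⟩ := Hb
  obtain ⟨hcS, hcC, hcC', hcm, hcD, hcp, hcq, hcs, hcDe⟩ := Hc
  obtain ⟨ba1, ba2, ba3, ba4⟩ := h1.2.2.2.2 al hal0 hal
  obtain ⟨bb1, bb2, bb3, bb4⟩ := h1.2.2.2.2 be hbe0 hbe1
  obtain ⟨bc1, bc2, bc3, bc4⟩ := h1.2.2.2.2 gm hgm0 hgm1
  have mab : sn be ≤ sn al := snmono hbe0 hbea (by linarith only [hal])
  have mbc : sn gm ≤ sn be := snmono hgm0 hgmb (by linarith only [hbe1])
  have qa := sncn al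
  have qb := sncn be
  have qc := sncn gm
  obtain ⟨ta1, ta2, ta3⟩ := h1.2.2.2.1 al hal0 (by linarith only [hal])
  obtain ⟨tb1, tb2, tb3⟩ := h1.2.2.2.1 be hbe0 (by linarith only [hbe1])
  obtain ⟨tc1, tc2, tc3⟩ := h1.2.2.2.1 gm hgm0 (by linarith only [hgm1])
  have sa1 : sn al = a.C := haC.symm
  have sb1 : sn be = b.C := hbC.symm
  have sc1 : sn gm = c.C := hcC.symm
  have ca1 : cn al = a.S := haS.symm
  have cb1 : cn be = b.S := hbS.symm
  have cc1 : cn gm = c.S := hcS.symm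
  rw [sa1] at ba1 ba2 mab qa ta1 ta2
  rw [sb1] at bb1 bb2 mab mbc qb tb1 tb2
  rw [sc1] at bc1 bc2 mbc qc tc1 tc2
  rw [ca1] at ba3 ba4 qa ta3
  rw [cb1] at bb3 bb4 qb tb3
  rw [cc1] at bc3 bc4 qc tc3
  have na : a.S ≠ 0 := by intro h; rw [h] at ba3; norm_num at ba3
  have nb : b.S ≠ 0 := by intro h; rw [h] at bb3; norm_num at bb3
  have nc : c.S ≠ 0 := by intro h; rw [h] at bc3; norm_num at bc3
  have pab : 9 / 10 ≤ a.S * b.S := by nlinarith only [ba3, bb3]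
  have pac : 9 / 10 ≤ a.S * c.S := by nlinarith only [ba3, bc3]
  have pbc : 9 / 10 ≤ b.S * c.S := by nlinarith only [bb3, bc3]
  have e1 : tz * (a.S * b.S) = c.C - a.C * b.C := by
    have h3 : tz * (a.S * b.S) = (us - Ab) * be * ((a.S)⁻¹ * a.S) * ((b.S)⁻¹ * b.S) := by
      rw [htz, htzb, hiab, hia, hib]; ring
    rw [h3, inv_mul_cancel₀ na, inv_mul_cancel₀ nb, hus, hAb, hcC', hbC', hgm]; ring
  have e2 : tx * (a.S * c.S) = b.C - a.C * c.C := by
    have h3 : tx * (a.S * c.S) = (b.z - u * Ac) * be * ((a.S)⁻¹ * a.S) * ((c.S)⁻¹ * c.S) := by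
      rw [htx, htxb, hiac, hia, hic]; ring
    rw [h3, inv_mul_cancel₀ na, inv_mul_cancel₀ nc, hAc, hcC', hbC', hgm]; ring
  have e3 : ty * (b.S * c.S) = a.C - b.C * c.C := by
    have h3 : ty * (b.S * c.S) = (a.z - Cb) * al * ((b.S)⁻¹ * b.S) * ((c.S)⁻¹ * c.S) := by
      rw [hty, htya, hibc, hib, hic]; ring
    rw [h3, inv_mul_cancel₀ nb, inv_mul_cancel₀ nc, hCb, haC', hbC', hbe]; ring
  have f1 : tt (1 - al) (1 - be) (1 - gm) 1 = tz := by
    unfold tt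
    rw [ta2, tb2, tc2, ta3, tb3, div_eq_iff (mul_ne_zero na nb), e1]; ring
  have f2 : tt (1 - al) (1 - gm) (1 - be) 1 = tx := by
    unfold tt
    rw [ta2, tb2, tc2, ta3, tc3, div_eq_iff (mul_ne_zero na nc), e2]; ring
  have f3 : tt (1 - be) (1 - gm) (1 - al) 1 = ty := by
    unfold tt
    rw [ta2, tb2, tc2, tb3, tc3, div_eq_iff (mul_ne_zero nb nc), e3]; ring
  rw [f1] at htt
  have g1 : 0 ≤ c.C - a.C * b.C := by
    rw [← e1]; exact mul_nonneg htt (by linarith only [pab])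
  have g2 : 0 ≤ b.C - a.C * c.C := by nlinarith only [mbc, ba1, ba2, bc1]
  have g3 : 0 ≤ a.C - b.C * c.C := by nlinarith only [mab, bc1, bc2, bb1]
  have h10 : tz ≤ 1 / 2 := (tbd e1 pab g1 (by nlinarith only [bc2, ba1, bb1])).2
  obtain ⟨h20, h21⟩ := tbd e2 pac g2 (by nlinarith only [bb2, ba1, bc1])
  obtain ⟨h30, h31⟩ := tbd e3 pbc g3 (by nlinarith only [ba2, bb1, bc1])
  have u1 : T1 tz = epz := by
    rw [T1as h2 tz htt h10, hepz, hezb, hz2]
    rw [mul_assoc, ← htz]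
  have u2 : T1 tx = epx := by
    rw [T1as h2 tx h20 h21, hepx, hexb, hx2]
    rw [mul_assoc, ← htx]
  have u3 : T1 ty = epy := by
    rw [T1as h2 ty h30 h31, hepy, heya, hy2]
    rw [mul_assoc, ← hty]
  have v1 := h1.2.2.1 tz c.C htt (by linarith only [h10]) bc1 (by linarith only [bc2])
  have v2 := h1.2.2.1 tx b.C h20 (by linarith only [h21]) bb1 (by linarith only [bb2])
  have v3 := h1.2.2.1 ty a.C h30 (by linarith only [h31]) ba1 (by linarith only [ba2])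
  rw [tc1, u1] at v1
  rw [tb1, u2] at v2
  rw [ta1, u3] at v3
  -- the differences
  have w1 : al * be * k1 = c.C * (1 - cab) := by
    refine kgen hk1 hcab (by rw [hcab]; linarith only [pab]) qa qb ?_
    have r1 : al * be * (us * (a.m + mB - a.m * (b.C * b.C))) =
      (be * us) * (al * a.m + be * b.m - al * a.m * b.C ^ 2) := by
      rw [hmB, hbe]; ring
    have r2 : be * us = c.C := by rw [hus, hcC', hgm]; ring
    have r3 : al * a.m = a.C ^ 2 := by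
      rw [ham]; calc al * (a.C * a.z) = a.C * (al * a.z) := by ring
        _ = a.C ^ 2 := by rw [← haC']; ring
    have r4 : be * b.m = b.C ^ 2 := by
      rw [hbm]; calc be * (b.C * b.z) = b.C * (be * b.z) := by ring
        _ = b.C ^ 2 := by rw [← hbC']; ring
    rw [r1, r2, r3, r4]
  have w2 : al * be * k2 = b.C * (1 - cac) := by
    refine kgen hk2 hcac (by rw [hcac]; linarith only [pac]) qa qc ?_
    have r1 : al * be * (b.z * (a.m + mC - a.m * (c.C * c.C))) =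
      (be * b.z) * (al * a.m + gm * c.m - al * a.m * c.C ^ 2) := by
      rw [hmC, hsu, hgm, hbe]; ring
    have r3 : al * a.m = a.C ^ 2 := by
      rw [ham]; calc al * (a.C * a.z) = a.C * (al * a.z) := by ring
        _ = a.C ^ 2 := by rw [← haC']; ring
    have r4 : gm * c.m = c.C ^ 2 := by
      rw [hcm]; calc gm * (c.C * c.z) = c.C * (gm * c.z) := by ring
        _ = c.C ^ 2 := by rw [← hcC']; ring
    rw [r1, ← hbC', r3, r4]
  have w3 : al * be * k3 = a.C * (1 - cbc) := by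
    refine kgen hk3 hcbc (by rw [hcbc]; linarith only [pbc]) qb qc ?_
    have r1 : al * be * (a.z * (b.m + c.m * u - b.m * (c.C * c.C))) =
      (al * a.z) * (be * b.m + gm * c.m - be * b.m * c.C ^ 2) := by
      rw [hgm]; ring
    have r3 : be * b.m = b.C ^ 2 := by
      rw [hbm]; calc be * (b.C * b.z) = b.C * (be * b.z) := by ring
        _ = b.C ^ 2 := by rw [← hbC']; ring
    have r4 : gm * c.m = c.C ^ 2 := by
      rw [hcm]; calc gm * (c.C * c.z) = c.C * (gm * c.z) := by ring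
        _ = c.C ^ 2 := by rw [← hcC']; ring
    rw [r1, ← haC', r3, r4]
  have x1 : al * be * dz = c.C - tz :=
    dgen hdz (by rw [hiab, hia, hib]) na nb
      (by rw [hzz, haC', hbC']; ring) w1 hcab e1
  have x2' : al * be * dx = b.C - tx :=
    dgen hdx (by rw [hiac, hia, hic]) na nc
      (by rw [hzu, hus, haC', hcC', hgm]; ring) w2 hcac e2
  have x3 : al * be * dY = a.C - ty :=
    dgen hdY (by rw [hibc, hib, hic]) nb nc
      (by rw [hzs, hsu, hbC', hcC', hgm, hbe]; ring) w3 hcbc e3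
  have hry' : ry = (√(1 - ty ^ 2))⁻¹ := by
    have hk : 0 < cbc * ia := by
      rw [hcbc, hia]
      exact mul_pos (by linarith only [pbc]) (inv_pos.2 (by linarith only [ba3]))
    have h3 : 1 - ww = (cbc * ia) ^ 2 * (1 - ty ^ 2) := by
      have h4 : (cbc * ia) ^ 2 * (1 - ty ^ 2) = (ia * ia) * ((b.S ^ 2 * c.S ^ 2) - (ty * (b.S * c.S)) ^ 2) := by
        rw [hcbc]; ring
      have h5 : ia * ia * a.S ^ 2 = 1 := by
        rw [hia]
        have : (a.S)⁻¹ * (a.S)⁻¹ * a.S ^ 2 = ((a.S)⁻¹ * a.S) * ((a.S)⁻¹ * a.S) := by ring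
        rw [this, inv_mul_cancel₀ na]; ring
      rw [h4, e3, qb, qc, hww, habc]
      linear_combination -h5 + ia * ia * qa
    rw [hry, h3, Real.sqrt_mul (sq_nonneg _), Real.sqrt_sq hk.le, mul_inv, ← mul_assoc,
      mul_inv_cancel₀ hk.ne', one_mul]
  have y1 : al * be * l1 ≤ (gm - epz) / 2 + (c.C ^ 2 - tz ^ 2) / 2 := by
    refine brl (r := (√(1 - tz ^ 2))⁻¹) (by rw [hl1, hz2, sq]) x1 v1
  have y2' : al * be * l2 ≤ (be - epx) / 2 + (b.C ^ 2 - tx ^ 2) / 2 := by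
    refine brl (r := (√(1 - tx ^ 2))⁻¹) (by rw [hl2, hx2, sq]) x2' v2
  have y3 : al * be * l3 ≤ (al - epy) / 2 + (a.C ^ 2 - ty ^ 2) / 2 := by
    refine brl (r := (√(1 - ty ^ 2))⁻¹) (by rw [hl3, hry']) x3 v3
  -- the kernel values
  have z1 := Fpair h1 al be tz a.D b.D a.C (be * b.z) a.S b.S epz hbe0 hbea hal htt
    (by linarith only [h10]) haDe hbDe haC (by rw [← hbC', hbC]) haS hbS u1
  have z2' := Fpair h1 al gm tx a.D c.D a.C (gm * c.z) a.S c.S epx hgm0 (hgmb.trans hbea) hal h20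
    (by linarith only [h21]) haDe hcDe haC (by rw [← hcC', hcC]) haS hcS u2
  have z3 := Fpair h1 be gm ty b.D c.D b.C (gm * c.z) b.S c.S epy hgm0 hgmb hbe1 h30
    (by linarith only [h31]) hbDe hcDe hbC (by rw [← hcC', hcC]) hbS hcS u3
  have rA : al * a.D = al - a.C ^ 2 := by rw [haDe, haC]; rfl
  have rB : be * b.D = be - b.C ^ 2 := by rw [hbDe, hbC]; rfl
  have rC : gm * c.D = gm - c.C ^ 2 := by rw [hcDe, hcC]; rfl
  have main : Gf (1 - al) (1 - be) (1 - gm) 1 =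
      al * be * (P2 + P3 - P1 + (L2 + L3 + (WT + RT))) + ((gm - epz) / 2 + (c.C ^ 2 - tz ^ 2) / 2)
      + ((be - epx) / 2 + (b.C ^ 2 - tx ^ 2) / 2) + ((al - epy) / 2 + (a.C ^ 2 - ty ^ 2) / 2) := by
    unfold Gf
    rw [f1, f2, f3, z1, z2', z3, hP2, hP3, hP1, hL2, hL3, hWT, hWz, hWx, hWy, hRT, ho2a, hzt, hxt,
      hyt, hap, hbp, hcp, haq, hbq, hcq, has, hbs, hcs, hepz, hepx, hepy, hz2, hx2, hy2, hcab, hcac,
      hcbc, hAb, hAc, htz, htx, hty, hsu, hgm, hbe]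
    rw [hbe] at rB
    rw [hgm, hbe] at rC
    linear_combination (-1 / 2) * rA + (-1 / 2) * rB + (-1 / 2) * rC
  constructor
  · rw [hH']
    change 0 ≤ be * tzb
    rw [mul_comm, ← htz]; exact htt
  · rw [hH', main]
    change al * be * (l1 + (l2 + l3) + (P2 + P3 - P1) + (L2 + L3 + (WT + RT))) ≤ _
    have : al * be * (l1 + (l2 + l3) + (P2 + P3 - P1) + (L2 + L3 + (WT + RT))) =
      al * be * (P2 + P3 - P1 + (L2 + L3 + (WT + RT))) + al * be * l1 + al * be * l2 + al * be * l3 := by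
      ring
    rw [this]
    linarith only [y1, y2', y3]

end Pool.Agent.FTA
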