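import Pool.Agent.FTA.Stmts

/-! Closed form of the chart `N`. -/

open Real

namespace Pool.Agent.FTA

namespace CN_

theorem dy1 : dy false 1 0 = 1 := by
  unfold dy
  simp

theorem cN_eq (a x t : ℝ) :
    cN reA a x t =
      qN reA (core reA true a (a * (((dy false 1 0 + t * t)⁻¹ - t * t * (dy false 1 0 + t * t)⁻¹) -
          ((1 : ℕ) : ℝ) / 2 ^ 1 * (((dy false 1 0 + t * t)⁻¹ - t * t * (dy false 1 0 + t * t)⁻¹) * x)))
        (a * (((1 : ℕ) : ℝ) / 2 ^ 1 * (((dy false 1 0 + t * t)⁻¹ - t * t * (dy false 1 0 + t * t)⁻¹) * x)))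
        (t * t * (dy false 1 0 + t * t)⁻¹) (dy false 1 0 + t * t)⁻¹ t)
        (a * (((dy false 1 0 + t * t)⁻¹ - t * t * (dy false 1 0 + t * t)⁻¹) -
          ((1 : ℕ) : ℝ) / 2 ^ 1 * (((dy false 1 0 + t * t)⁻¹ - t * t * (dy false 1 0 + t * t)⁻¹) * x)))
        (a * (((1 : ℕ) : ℝ) / 2 ^ 1 * (((dy false 1 0 + t * t)⁻¹ - t * t * (dy false 1 0 + t * t)⁻¹) * x)))
        ((core reA true a (a * (((dy false 1 0 + t * t)⁻¹ - t * t * (dy false 1 0 + t * t)⁻¹) -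
          ((1 : ℕ) : ℝ) / 2 ^ 1 * (((dy false 1 0 + t * t)⁻¹ - t * t * (dy false 1 0 + t * t)⁻¹) * x)))
        (a * (((1 : ℕ) : ℝ) / 2 ^ 1 * (((dy false 1 0 + t * t)⁻¹ - t * t * (dy false 1 0 + t * t)⁻¹) * x)))
        (t * t * (dy false 1 0 + t * t)⁻¹) (dy false 1 0 + t * t)⁻¹ t).a.i *
          (dy false 1 0 - (((dy false 1 0 + t * t)⁻¹ - t * t * (dy false 1 0 + t * t)⁻¹) -
          ((1 : ℕ) : ℝ) / 2 ^ 1 * (((dy false 1 0 + t * t)⁻¹ - t * t * (dy false 1 0 + t * t)⁻¹) * x))))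
        ((core reA true a (a * (((dy false 1 0 + t * t)⁻¹ - t * t * (dy false 1 0 + t * t)⁻¹) -
          ((1 : ℕ) : ℝ) / 2 ^ 1 * (((dy false 1 0 + t * t)⁻¹ - t * t * (dy false 1 0 + t * t)⁻¹) * x)))
        (a * (((1 : ℕ) : ℝ) / 2 ^ 1 * (((dy false 1 0 + t * t)⁻¹ - t * t * (dy false 1 0 + t * t)⁻¹) * x)))
        (t * t * (dy false 1 0 + t * t)⁻¹) (dy false 1 0 + t * t)⁻¹ t).a.i *
          (dy false 1 0 - ((1 : ℕ) : ℝ) / 2 ^ 1 * (((dy false 1 0 + t * t)⁻¹ - t * t * (dy false 1 0 + t * t)⁻¹) * x))) := rfl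

theorem cN_eq' (a x t : ℝ) (f1 f0 hx be gm : ℝ) (h1 : f1 = (1 + t * t)⁻¹) (h0 : f0 = t * t * f1)
    (hh : hx = 1 / 2 * ((f1 - f0) * x)) (hg : gm = a * hx) (hb : be = a * ((f1 - f0) - hx)) :
    cN reA a x t = qN reA (core reA true a be gm f0 f1 t) be gm
      ((core reA true a be gm f0 f1 t).a.i * (1 - ((f1 - f0) - hx)))
      ((core reA true a be gm f0 f1 t).a.i * (1 - hx)) := by
  have hn : ((1 : ℕ) : ℝ) / 2 ^ 1 = 1 / 2 := by norm_num
  rw [cN_eq, dy1, hn, hb, hg, hh, h0, h1]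

end CN_

open CN_ in
theorem cn_proof (h1 : Stmt_CORE) (h2 : Stmt_QN) : Stmt_CN := by
  intro a x t be gm ha hx0 hx1 ht0 ht1 hgm hbe habe
  have ht2 : 0 < t * t := mul_pos ht0 ht0
  have ht21 : t * t ≤ 1 := by nlinarith
  obtain ⟨f1, hf1⟩ : ∃ f1 : ℝ, f1 = (1 + t * t)⁻¹ := ⟨_, rfl⟩
  obtain ⟨f0, hf0⟩ : ∃ f0 : ℝ, f0 = t * t * f1 := ⟨_, rfl⟩
  obtain ⟨hx, hhx⟩ : ∃ hx : ℝ, hx = 1 / 2 * ((f1 - f0) * x) := ⟨_, rfl⟩
  have hf1p : 0 < f1 := by rw [hf1]; positivity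
  have hf0p : 0 < f0 := by rw [hf0]; positivity
  have hf01 : f0 ≤ f1 := by rw [hf0]; nlinarith
  have hsum : f0 + f1 = 1 := by
    have : (1 + t * t) * f1 = 1 := by
      rw [hf1]
      exact mul_inv_cancel₀ (by positivity)
    rw [hf0]
    linarith
  have hxi : (1 - t ^ 2) / (1 + t ^ 2) = f1 - f0 := by
    rw [hf0, hf1]
    field_simp
  have hxi0 : 0 ≤ f1 - f0 := by linarith
  have hxi1 : f1 - f0 ≤ 1 := by linarith
  have hxp : 0 ≤ (f1 - f0) * x := mul_nonneg hxi0 hx0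
  have hxp1 : (f1 - f0) * x ≤ f1 - f0 := by nlinarith
  have egm : gm = a * hx := by
    rw [hgm, hxi, hhx]
    ring
  have ebe : be = a * ((f1 - f0) - hx) := by
    rw [hbe, hxi, hhx]
    ring
  have hhx0 : 0 ≤ hx := by rw [hhx]; linarith
  have hhx1 : hx ≤ 1 / 2 := by rw [hhx]; linarith
  have hhx2 : hx ≤ (f1 - f0) - hx := by rw [hhx]; linarith
  have hgm0 : 0 ≤ gm := by rw [egm]; exact mul_nonneg ha.le hhx0
  have hgb : gm ≤ be := by
    rw [egm, ebe]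
    exact mul_le_mul_of_nonneg_left hhx2 ha.le
  have hba : be ≤ a := by
    rw [ebe]
    nlinarith
  have hga : gm ≤ a := by linarith
  obtain ⟨hg, hcv⟩ := h1 true a be gm f0 f1 t ha habe hgm0 hgb hf0p hf01 hsum ht0
    (by rw [hf0]; ring) (by rw [if_pos rfl, egm, ebe]; ring)
  have hsg : sg true = -1 := by
    unfold sg
    simp
  rw [hsg] at hg hcv
  refine ⟨√(gram a (1 - be) (1 - gm) (-1)), Real.sqrt_pos.mpr hg, ?_⟩
  have hK1 := hcv.1
  have hi : (core reA true a be gm f0 f1 t).a.i = a / sn a := by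
    rw [hK1]
    rfl
  have hkz : (core reA true a be gm f0 f1 t).a.i * (1 - ((f1 - f0) - hx)) = kk a (1 - be) / sn a := by
    rw [hi]
    have : kk a (1 - be) = a - be := by
      unfold kk
      rw [max_eq_left (by linarith)]
      ring
    rw [this, ebe]
    ring
  have hkx : (core reA true a be gm f0 f1 t).a.i * (1 - hx) = kk a (1 - gm) / sn a := by
    rw [hi]
    have : kk a (1 - gm) = a - gm := by
      unfold kk
      rw [max_eq_left (by linarith)]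
      ring
    rw [this, egm]
    ring
  have hq := h2 (core reA true a be gm f0 f1 t) a (1 - be) (1 - gm) (a * f0)
    (√(gram a (1 - be) (1 - gm) (-1))) (kk a (1 - be) / sn a) (kk a (1 - gm) / sn a) ha habe (by linarith) (by linarith)
    (mul_nonneg ha.le hf0p.le)
    (by
      have e1 : be + gm = a * (f1 - f0) := by rw [egm, ebe]; ring
      have e2 : a * f0 + a * f1 = a := by rw [← mul_add, hsum, mul_one]
      linarith)
    (Real.sq_sqrt hg.le) (Real.sqrt_pos.mpr hg) hcv rfl rfl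
  rw [hq, cN_eq' a x t f1 f0 hx be gm hf1 hf0 hhx egm ebe, hkz, hkx, sub_sub_cancel, sub_sub_cancel]

end Pool.Agent.FTA
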