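import Pool.Agent.FTA.Stmts

/-!
# CONST: the numerals
-/

open Real

namespace Pool.Agent.FTA

set_option maxRecDepth 100000

theorem const_proof : Stmt_CONST := by
  refine ⟨?_, ?_, ?_, ?_, ?_, ?_, ?_⟩ <;> decide +kernel

end Pool.Agent.FTA
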