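import Pool.Agent.FTA.Stmts

set_option autoImplicit false

/-! FTA, module CORE: the core program. -/

open Real

namespace Pool.Agent.FTA

namespace CORE_

theorem dy1 : dy false 1 0 = 1 := by
  unfold dy
  simp
theorem half : ((1 : ℕ) : ℝ) / 2 ^ 1 = 1 / 2 := by norm_num
theorem two : ((2 : ℕ) : ℝ) / 2 ^ 0 = 2 := by norm_num
theorem four : ((4 : ℕ) : ℝ) / 2 ^ 0 = 4 := by norm_num

theorem scv (hp : Stmt_PRIM) (x : ℝ) (h0 : 0 ≤ x) (h1 : x ≤ 1) : reA.sc x = scR x :=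
  hp.1 x (by rw [abs_of_nonneg h0]; exact h1)
theorem csv (hp : Stmt_PRIM) (x : ℝ) (h : |x| ≤ 1) : reA.cs x = cn x := hp.2.1 x h

theorem x_scR (x : ℝ) : x * scR x = sn x := by
  unfold scR
  split_ifs with h
  · rw [h]; unfold sn; simp
  · field_simp

theorem cn_om (x : ℝ) : cn (1 - x) = sn x := by
  unfold sn cn
  rw [show π * (1 - x) / 2 = π / 2 - π * x / 2 by ring, Real.cos_pi_div_two_sub]
theorem sn_om (x : ℝ) : sn (1 - x) = cn x := by
  unfold sn cn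
  rw [show π * (1 - x) / 2 = π / 2 - π * x / 2 by ring, Real.sin_pi_div_two_sub]
theorem cn_neg (x : ℝ) : cn (-x) = cn x := by
  unfold cn
  rw [show π * (-x) / 2 = -(π * x / 2) by ring, Real.cos_neg]
theorem sn_op (x : ℝ) : sn (1 + x) = cn x := by
  rw [show (1 : ℝ) + x = 1 - (-x) by ring, sn_om, cn_neg]

/-- the side data -/
theorem side_val (p S C i : ℝ) (hS : S = sn p) (hC : C = cn p) (hi : i = p / sn p) (h0 : sn p ≠ 0) :
    side reA p S C i = nside p := by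
  subst hS hC hi
  have e1 : side reA p (sn p) (cn p) (p / sn p) = Side.mk p (sn p) (cn p) (p / sn p) (p / sn p - sn p)
    (((3 : ℕ) : ℝ) / 2 ^ 3 * (p / sn p) - ((1 : ℕ) : ℝ) / 2 ^ 3 * sn p)
    (((7 : ℕ) : ℝ) / 2 ^ 4 * (p / sn p) - ((3 : ℕ) : ℝ) / 2 ^ 4 * sn p) := rfl
  rw [e1]
  unfold nside
  congr 1
  · unfold p2 De
    push_cast
    field_simp
    ring
  · unfold p3 De
    push_cast
    field_simp
    ring

theorem core2_val (neg : Bool) (a b c f0 f1 τ e0 e1 e2 e3 : ℝ) (ha : 0 < a) (hf0 : 0 < f0) (hf1 : 0 < f1)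
    (he0 : e0 = a * f0) (he1 : e1 = a * f1) (hτ0 : 0 < τ) (hτ : τ ^ 2 * f1 = f0)
    (s0 : 0 < sn e0) (s1 : 0 < sn e1) (s2 : 0 < sn e2) (s3 : 0 < sn e3) (sa : 0 < sn a) (sb : 0 < sn b) (sc : 0 < sn c)
    (hg : gram a b c (sg neg) = 4 * (sn e0 * sn e1 * sn e2 * sn e3))
    (hz : sn e0 * sn e3 - sn e1 * sn e2 = sg neg * cn c - cn a * cn b)
    (hx : sn e1 * sn e3 - sn e0 * sn e2 = cn b - sg neg * (cn a * cn c))
    (hy : sn e2 * sn e3 - sn e0 * sn e1 = cn a - sg neg * (cn b * cn c)) (hcs : reA.cs e0 = cn e0) :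
    CoreVal (core2 reA neg a b c f0 f1 τ (sn e0 / e0) (sn e1 / e1) (sn a) (cn a) (a / sn a) (sn b) (cn b) (sn c) (cn c)
      (sn e2) (sn e3)) neg a b c e0 (√(gram a b c (sg neg))) := by
  have e0p : 0 < e0 := by rw [he0]; positivity
  have e1p : 0 < e1 := by rw [he1]; positivity
  have hs2 : sg neg ^ 2 = 1 := by unfold sg; split_ifs <;> norm_num
  -- square roots
  obtain ⟨r, hr⟩ : ∃ r : ℝ, r = √(sn e2 * sn e3) := ⟨_, rfl⟩
  obtain ⟨g, hgd⟩ : ∃ g : ℝ, g = √(sn e0 / e0 * (sn e1 / e1)) := ⟨_, rfl⟩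
  have hr0 : 0 < r := by rw [hr]; positivity
  have hg0 : 0 < g := by rw [hgd]; positivity
  have hr2 : r ^ 2 = sn e2 * sn e3 := by rw [hr]; exact Real.sq_sqrt (by positivity)
  have hg2 : g ^ 2 = sn e0 / e0 * (sn e1 / e1) := by rw [hgd]; exact Real.sq_sqrt (by positivity)
  have hD : √(gram a b c (sg neg)) = 2 * (a * τ * f1) * g * r := by
    rw [hg]
    have h1 : 4 * (sn e0 * sn e1 * sn e2 * sn e3) = (2 * (a * τ * f1) * g * r) ^ 2 := by
      have h2 : sn e0 * sn e1 = (a * τ * f1) ^ 2 * g ^ 2 := by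
        rw [hg2]
        have h3 : (a * τ * f1) ^ 2 = e0 * e1 := by
          rw [he0, he1]
          linear_combination (a ^ 2 * f1) * hτ
        rw [h3]
        field_simp
      have h4 : (2 * (a * τ * f1) * g * r) ^ 2 = 4 * ((a * τ * f1) ^ 2 * g ^ 2) * r ^ 2 := by ring
      rw [h4, ← h2, hr2]
      ring
    rw [h1]
    exact Real.sqrt_sq (by positivity)
  have hD0 : 0 < 2 * (a * τ * f1) * g * r := by positivity
  have hvi : sn e2 * sn e3 * r⁻¹ = r := by rw [← hr2]; field_simp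
  have hpi : sn e0 / e0 * (sn e1 / e1) * g⁻¹ = g := by rw [← hg2]; field_simp
  have hsa : side reA a (sn a) (cn a) (a / sn a) = nside a := side_val a _ _ _ rfl rfl rfl sa.ne'
  have hsb : side reA b (sn b) (cn b) (b * (sn b)⁻¹) = nside b := side_val b _ _ _ rfl rfl (by rw [div_eq_mul_inv]) sb.ne'
  have hsc : side reA c (sn c) (cn c) (c * (sn c)⁻¹) = nside c := side_val c _ _ _ rfl rfl (by rw [div_eq_mul_inv]) sc.ne'
  have hDS : ((2 : ℕ) : ℝ) / 2 ^ 0 * (((τ * f1) * (sn e0 / e0 * (sn e1 / e1) * g⁻¹)) * ((sn e2 * sn e3 * r⁻¹) * (a / sn a))) =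
      (2 * (a * τ * f1) * g * r) / sn a := by
    rw [hvi, hpi, two]
    field_simp
  have hf0s : f0 * (sn e0 / e0) * (a / sn a) = sn e0 / sn a := by
    rw [he0]; field_simp
  have hf1s : f1 * (sn e1 / e1) * (a / sn a) = sn e1 / sn a := by
    rw [he1]; field_simp
  rw [hD]
  refine ⟨hsa, hsb, hsc, rfl, rfl, ?_, ?_, ?_, ?_, ?_, ?_, ?_, ?_⟩
  · show ((2 : ℕ) : ℝ) / 2 ^ 0 * (((τ * f1) * (sn e0 / e0 * (sn e1 / e1) * (√(sn e0 / e0 * (sn e1 / e1)))⁻¹)) *
      ((sn e2 * sn e3 * (√(sn e2 * sn e3))⁻¹) * (a / sn a))) * (sn b)⁻¹ = _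
    rw [← hr, ← hgd, hDS]
    field_simp
  · show ((2 : ℕ) : ℝ) / 2 ^ 0 * (((τ * f1) * (sn e0 / e0 * (sn e1 / e1) * (√(sn e0 / e0 * (sn e1 / e1)))⁻¹)) *
      ((sn e2 * sn e3 * (√(sn e2 * sn e3))⁻¹) * (a / sn a))) * (sn c)⁻¹ = _
    rw [← hr, ← hgd, hDS]
    field_simp
  · show ((2 : ℕ) : ℝ) / 2 ^ 0 * (((τ * f1) * (sn e0 / e0 * (sn e1 / e1) * (√(sn e0 / e0 * (sn e1 / e1)))⁻¹)) *
      ((sn e2 * sn e3 * (√(sn e2 * sn e3))⁻¹) * (a / sn a))) * (sn c)⁻¹ * sn a * (sn b)⁻¹ = _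
    rw [← hr, ← hgd, hDS]
    field_simp
  · show (f0 * (sn e0 / e0) * (a / sn a) * sn e3 - f1 * (sn e1 / e1) * (a / sn a) * sn e2) * (sn b)⁻¹ = tt a b c (sg neg)
    rw [hf0s, hf1s]
    unfold tt
    rw [← hz]
    field_simp
  · show (f1 * (sn e1 / e1) * (a / sn a) * sn e3 - f0 * (sn e0 / e0) * (a / sn a) * sn e2) * (sn c)⁻¹ = sg neg * tt a c b (sg neg)
    rw [hf0s, hf1s]
    unfold tt
    have : sg neg * ((sg neg * cn b - cn a * cn c) / (sn a * sn c)) = (sn e1 * sn e3 - sn e0 * sn e2) / (sn a * sn c) := by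
      rw [hx, ← mul_div_assoc]
      congr 1
      linear_combination (cn b) * hs2
    rw [this]
    field_simp
  · show (sn e2 * sn e3 - a * f0 * (sn e0 / e0) * (a * f1 * (sn e1 / e1))) * (sn b)⁻¹ * (sn c)⁻¹ = sg neg * tt b c a (sg neg)
    rw [← he0, ← he1]
    unfold tt
    have : sg neg * ((sg neg * cn a - cn b * cn c) / (sn b * sn c)) = (sn e2 * sn e3 - sn e0 * sn e1) / (sn b * sn c) := by
      rw [hy, ← mul_div_assoc]
      congr 1
      linear_combination (cn a) * hs2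
    rw [this]
    field_simp
  · have hb1 : (core2 reA neg a b c f0 f1 τ (sn e0 / e0) (sn e1 / e1) (sn a) (cn a) (a / sn a) (sn b) (cn b) (sn c) (cn c)
      (sn e2) (sn e3)).bs = ((1 : ℕ) : ℝ) / 2 ^ 1 * ((τ * (sn e0 / e0)) * ((√(sn e0 / e0 * (sn e1 / e1)))⁻¹ * (√(sn e2 * sn e3))⁻¹)) *
        (((1 : ℕ) : ℝ) / 2 ^ 1 * (reA.cs (a * f0) * (((4 : ℕ) : ℝ) / 2 ^ 0 * (sn a * sn b * sn c) -
          ((2 : ℕ) : ℝ) / 2 ^ 0 * (a * f0 * (sn e0 / e0) * reA.cs (a * f0)))) -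
          (((Bool.casesOn neg 5 15 : ℕ) : ℝ) / 2 ^ 1 * (sn e0 / e0)⁻¹)) := rfl
    have hk : (((Bool.casesOn neg 5 15 : ℕ) : ℝ) / 2 ^ 1) = (if neg = true then 15 / 2 else 5 / 2) := by
      cases neg
      · rw [if_neg (by simp)]; norm_num
      · rw [if_pos rfl]; norm_num
    rw [hb1, hk, half, two, four, ← he0, hcs, ← hr, ← hgd]
    generalize (if neg = true then (15 / 2 : ℝ) else 5 / 2) = κ'
    have h5 : a * τ ^ 2 * f1 = e0 := by rw [he0]; linear_combination a * hτ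
    have h6 : 2 * (a * τ * f1) * g * r * (1 / 2 * (τ * (sn e0 / e0) * (g⁻¹ * r⁻¹)) *
        (1 / 2 * (cn e0 * (4 * (sn a * sn b * sn c) - 2 * (e0 * (sn e0 / e0) * cn e0))) - κ' * (sn e0 / e0)⁻¹)) =
        (a * τ ^ 2 * f1) * (sn e0 / e0) *
        (1 / 2 * (cn e0 * (4 * (sn a * sn b * sn c) - 2 * (e0 * (sn e0 / e0) * cn e0))) - κ' * (sn e0 / e0)⁻¹) := by
      field_simp
    rw [h6, h5]
    have h7 : e0 * (sn e0 / e0) = sn e0 := by field_simp
    rw [h7, mul_sub]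
    have h8 : sn e0 * (κ' * (sn e0 / e0)⁻¹) = κ' * e0 := by field_simp
    rw [h8]
    ring
  · show 2 * (a * τ * f1) * g * r * (τ * ((√(sn e0 / e0 * (sn e1 / e1)))⁻¹ * (√(sn e2 * sn e3))⁻¹)) = 2 * e0
    rw [← hr, ← hgd, he0]
    have h6 : 2 * (a * τ * f1) * g * r * (τ * (g⁻¹ * r⁻¹)) = 2 * a * (τ ^ 2 * f1) := by
      field_simp
    rw [h6, hτ]
    ring

end CORE_

open CORE_ in
theorem core_proof (htr : Stmt_TRIG) (hpr : Stmt_PRIM) : Stmt_CORE := by
  intro neg a be gm f0 f1 τ ha hab hgm hgb hf0 hf01 hf hτ0 hτ hc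
  have hbe0 : 0 ≤ be := le_trans hgm hgb
  have hf1 : 0 < f1 := by linarith
  have ha1 : a ≤ 1 := by linarith
  have hb1 : be ≤ 1 := by linarith
  have haf0 : 0 < a * f0 := by positivity
  have haf1 : 0 < a * f1 := by positivity
  have hsum : a * f0 + a * f1 = a := by rw [← mul_add, hf, mul_one]
  have T := htr neg a (1 - be) (1 - gm) (a * f0) (a * f1) (1 - be - a * f0) (2 - a - (1 - be - a * f0))
    ha hab (by linarith) (by linarith) haf0 hsum (by ring) (by linarith)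
    (by
      cases neg
      · rw [if_neg (by simp)] at hc ⊢
        have : be - gm = a * f1 - a * f0 := by rw [hc]; ring
        linarith
      · rw [if_pos rfl] at hc ⊢
        have : be + gm = a * f1 - a * f0 := by rw [hc]; ring
        linarith)
  obtain ⟨e1p, e2p, e3p, s0, s1, s2, s3, sa, sb, sc, hg, hz, hx, hy, -, -, -⟩ := T
  refine ⟨by rw [hg]; positivity, ?_⟩
  have hcs : reA.cs (a * f0) = cn (a * f0) := csv hpr _ (by rw [abs_of_nonneg haf0.le]; linarith)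
  have key := core2_val neg a (1 - be) (1 - gm) f0 f1 τ (a * f0) (a * f1) (1 - be - a * f0) (2 - a - (1 - be - a * f0))
    ha hf0 hf1 rfl rfl hτ0 hτ s0 s1 s2 s3 sa sb sc hg hz hx hy hcs
  have hv : core reA neg a be gm f0 f1 τ = core2 reA neg a (1 - be) (1 - gm) f0 f1 τ (sn (a * f0) / (a * f0))
      (sn (a * f1) / (a * f1)) (sn a) (cn a) (a / sn a) (sn (1 - be)) (cn (1 - be)) (sn (1 - gm)) (cn (1 - gm))
      (sn (1 - be - a * f0)) (sn (2 - a - (1 - be - a * f0))) := by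
    have h1 : core reA neg a be gm f0 f1 τ = core2 reA neg a (dy false 1 0 - be) (dy false 1 0 - gm) f0 f1 τ (reA.sc (a * f0))
      (reA.sc (a * f1)) (a * reA.sc a) (reA.cs a) ((reA.sc a)⁻¹) (reA.cs be) (be * reA.sc be) (reA.cs gm) (gm * reA.sc gm)
      (Bool.casesOn neg (reA.cs (((1 : ℕ) : ℝ) / 2 ^ 1 * (a + be + gm))) (reA.cs (((1 : ℕ) : ℝ) / 2 ^ 1 * (a + be - gm))))
      (Bool.casesOn neg (reA.cs (((1 : ℕ) : ℝ) / 2 ^ 1 * (be + gm - a))) (reA.cs (((1 : ℕ) : ℝ) / 2 ^ 1 * (a + gm - be)))) := rfl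
    have u1 : reA.sc (a * f0) = sn (a * f0) / (a * f0) := by
      rw [scv hpr _ haf0.le (by linarith)]; unfold scR; rw [if_neg haf0.ne']
    have u2 : reA.sc (a * f1) = sn (a * f1) / (a * f1) := by
      rw [scv hpr _ haf1.le (by linarith)]; unfold scR; rw [if_neg haf1.ne']
    have u3 : reA.sc a = sn a / a := by
      rw [scv hpr _ ha.le ha1]; unfold scR; rw [if_neg ha.ne']
    have u4 : reA.cs a = cn a := csv hpr _ (by rw [abs_of_nonneg ha.le]; exact ha1)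
    have u5 : reA.cs be = sn (1 - be) := by
      rw [csv hpr _ (by rw [abs_of_nonneg hbe0]; exact hb1), sn_om]
    have u6 : be * reA.sc be = cn (1 - be) := by
      rw [scv hpr _ hbe0 hb1, x_scR, cn_om]
    have u7 : reA.cs gm = sn (1 - gm) := by
      rw [csv hpr _ (by rw [abs_of_nonneg hgm]; linarith), sn_om]
    have u8 : gm * reA.sc gm = cn (1 - gm) := by
      rw [scv hpr _ hgm (by linarith), x_scR, cn_om]
    have u9 : (Bool.casesOn neg (reA.cs (((1 : ℕ) : ℝ) / 2 ^ 1 * (a + be + gm))) (reA.cs (((1 : ℕ) : ℝ) / 2 ^ 1 * (a + be - gm))) : ℝ)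
        = sn (1 - be - a * f0) := by
      cases neg
      · rw [if_neg (by simp)] at hc
        have e : be - gm = a * f1 - a * f0 := by rw [hc]; ring
        show reA.cs (((1 : ℕ) : ℝ) / 2 ^ 1 * (a + be + gm)) = _
        rw [half, csv hpr _ (by rw [abs_le]; constructor <;> linarith)]
        rw [show 1 - be - a * f0 = 1 - 1 / 2 * (a + be + gm) by linarith, sn_om]
      · rw [if_pos rfl] at hc
        have e : be + gm = a * f1 - a * f0 := by rw [hc]; ring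
        show reA.cs (((1 : ℕ) : ℝ) / 2 ^ 1 * (a + be - gm)) = _
        rw [half, csv hpr _ (by rw [abs_le]; constructor <;> linarith)]
        rw [show 1 - be - a * f0 = 1 - 1 / 2 * (a + be - gm) by linarith, sn_om]
    have u10 : (Bool.casesOn neg (reA.cs (((1 : ℕ) : ℝ) / 2 ^ 1 * (be + gm - a))) (reA.cs (((1 : ℕ) : ℝ) / 2 ^ 1 * (a + gm - be))) : ℝ)
        = sn (2 - a - (1 - be - a * f0)) := by
      cases neg
      · rw [if_neg (by simp)] at hc
        have e : be - gm = a * f1 - a * f0 := by rw [hc]; ring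
        show reA.cs (((1 : ℕ) : ℝ) / 2 ^ 1 * (be + gm - a)) = _
        rw [half, csv hpr _ (by rw [abs_le]; constructor <;> linarith)]
        rw [show 2 - a - (1 - be - a * f0) = 1 + 1 / 2 * (be + gm - a) by linarith, sn_op]
      · rw [if_pos rfl] at hc
        have e : be + gm = a * f1 - a * f0 := by rw [hc]; ring
        show reA.cs (((1 : ℕ) : ℝ) / 2 ^ 1 * (a + gm - be)) = _
        rw [half, csv hpr _ (by rw [abs_le]; constructor <;> linarith)]
        rw [show 2 - a - (1 - be - a * f0) = 1 - 1 / 2 * (a + gm - be) by linarith, sn_om]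
    have u11 : a * (sn a / a) = sn a := by field_simp
    rw [h1, u9, u10, u1, u2, u3, u4, u5, u6, u7, u8, dy1, u11, inv_div]
  rw [hv]
  exact key

end Pool.Agent.FTA
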