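import Pool.Agent.FTA.Stmts

open Real

namespace Pool.Agent.FTA

theorem covn_proof (h1 : Stmt_RN) (h2 : Stmt_RH) (h3 : Stmt_RS) (h4 : Stmt_CN) (h5 : Stmt_CHN) (h6 : Stmt_CEN)
    (h7 : Stmt_REF) : Stmt_COVN := by
  intro a b c ha hab hbc hc hsum
  by_cases ha16 : 13 / 16 ≤ a
  · -- complement chart
    obtain ⟨s, hs0, hs1, hs⟩ : ∃ s : ℝ, 0 ≤ s ∧ s ≤ 1 ∧ (1 - a) * s = 1 - b := by
      by_cases hal : 1 - a = 0
      · exact ⟨0, le_rfl, zero_le_one, by rw [hal]; linarith⟩
      · have hp : 0 < 1 - a := lt_of_le_of_ne (by linarith) (Ne.symm hal)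
        refine ⟨(1 - b) / (1 - a), div_nonneg (by linarith) hp.le, ?_, ?_⟩
        · rw [div_le_one hp]; linarith
        · field_simp
    obtain ⟨u, hu0, hu1, hu⟩ : ∃ u : ℝ, 0 ≤ u ∧ u ≤ 1 ∧ (1 - b) * u = 1 - c := by
      by_cases hal : 1 - b = 0
      · exact ⟨0, le_rfl, zero_le_one, by rw [hal]; linarith⟩
      · have hp : 0 < 1 - b := lt_of_le_of_ne (by linarith) (Ne.symm hal)
        refine ⟨(1 - c) / (1 - b), div_nonneg (by linarith) hp.le, ?_, ?_⟩
        · rw [div_le_one hp]; linarith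
        · field_simp
    have k := h5 (1 - a) s u (by linarith) (by linarith) hs0 hs1 hu0 hu1
    have r := h2.1 (1 - a) s u (by linarith) (by linarith) hs0 hs1 hu0 hu1
    rw [hs] at k
    rw [hu] at k
    rw [show 1 - (1 - a) = a by ring, show 1 - (1 - b) = b by ring, show 1 - (1 - c) = c by ring] at k
    refine le_trans ?_ k
    exact mul_nonneg (mul_nonneg (by linarith) (by linarith)) r.le
  · have ha' : a < 13 / 16 := lt_of_not_ge ha16
    have hxi : ∃ xi : ℝ, 0 ≤ xi ∧ xi < 1 ∧ a * xi = (1 - b) + (1 - c) := by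
      refine ⟨((1 - b) + (1 - c)) / a, div_nonneg (by linarith) ha.le, ?_, ?_⟩
      · rw [div_lt_one ha]; linarith
      · field_simp
    obtain ⟨xi, hx0, hx1, hxi⟩ := hxi
    obtain ⟨x, hxx0, hxx1, hx⟩ : ∃ x : ℝ, 0 ≤ x ∧ x ≤ 1 ∧ ((1 - b) + (1 - c)) * x = 2 * (1 - c) := by
      by_cases hal : (1 - b) + (1 - c) = 0
      · refine ⟨0, le_rfl, zero_le_one, ?_⟩
        have : 1 - c = 0 := by linarith
        rw [this]; ring
      · have hp : 0 < (1 - b) + (1 - c) := lt_of_le_of_ne (by linarith) (Ne.symm hal)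
        refine ⟨2 * (1 - c) / ((1 - b) + (1 - c)), div_nonneg (by linarith) hp.le, ?_, ?_⟩
        · rw [div_le_one hp]; linarith
        · field_simp
    have e1 : a * (xi * x / 2) = 1 - c := by
      have : a * (xi * x / 2) = (a * xi) * x / 2 := by ring
      rw [this, hxi, hx]; ring
    have e2 : a * (xi - xi * x / 2) = 1 - b := by
      have : a * (xi - xi * x / 2) = a * xi - a * (xi * x / 2) := by ring
      rw [this, e1, hxi]; ring
    by_cases hx8 : xi ≤ 1 / 8
    · obtain ⟨D, hD, hG⟩ := h6 a xi x ha hx0 hx1 hxx0 hxx1 (by rw [e2]; linarith)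
      rw [e1, e2, show 1 - (1 - b) = b by ring, show 1 - (1 - c) = c by ring] at hG
      rw [hG]
      refine mul_nonneg hD.le ?_
      have r1 := h3.1 a xi x ha.le ha'.le hx0 hx8 hxx0 hxx1
      have r2 := h7.1 a x ha (by linarith) hxx0 hxx1
      linarith
    · have hx8' : 1 / 8 < xi := lt_of_not_ge hx8
      have hq0 : 0 < (1 - xi) / (1 + xi) := div_pos (by linarith) (by linarith)
      have ht2 : √((1 - xi) / (1 + xi)) ^ 2 = (1 - xi) / (1 + xi) := Real.sq_sqrt hq0.le
      have htpos : 0 < √((1 - xi) / (1 + xi)) := Real.sqrt_pos.mpr hq0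
      have ht1 : √((1 - xi) / (1 + xi)) ≤ 113 / 128 := by
        apply Real.sqrt_le_iff.mpr
        refine ⟨by norm_num, ?_⟩
        rw [div_le_iff₀ (by linarith)]
        nlinarith
      set t := √((1 - xi) / (1 + xi)) with htdef
      clear_value t
      have hr : (1 - t ^ 2) / (1 + t ^ 2) = xi := by
        rw [ht2]
        have : (1 + xi) ≠ 0 := by
          have : 0 < 1 + xi := by linarith
          exact this.ne'
        field_simp
        ring
      have g1 : (1 - c) = a * ((1 - t ^ 2) / (1 + t ^ 2) * x / 2) := by rw [hr, e1]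
      have g2 : (1 - b) = a * ((1 - t ^ 2) / (1 + t ^ 2) * (1 - x / 2)) := by
        rw [hr, ← e2]; ring
      obtain ⟨D, hD, hG⟩ := h4 a x t (1 - b) (1 - c) ha hxx0 hxx1 htpos (by linarith) g1 g2 (by linarith)
      rw [show 1 - (1 - b) = b by ring, show 1 - (1 - c) = c by ring] at hG
      rw [hG]
      refine mul_nonneg hD.le ?_
      exact (h1 a x t ha.le ha'.le hxx0 hxx1 htpos.le ht1 (by rw [← g2]; linarith)).le

end Pool.Agent.FTA
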