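import Pool.Agent.FTA.Stmts

/-! COVP: covering of the positive type by the charts. -/

open Real

namespace Pool.Agent.FTA

namespace COVP_

/-- the parameter `t` -/
lemma ex_t {xi : ℝ} (h0 : 0 ≤ xi) (h1 : xi < 1) :
    ∃ t : ℝ, 0 < t ∧ t ≤ 1 ∧ (1 - t ^ 2) / (1 + t ^ 2) = xi ∧ 2 * t ^ 2 / (1 + t ^ 2) = 1 - xi := by
  have hp : 0 < (1 - xi) / (1 + xi) := div_pos (by linarith) (by linarith)
  have hq : (1 + xi) ≠ 0 := by linarith
  refine ⟨√((1 - xi) / (1 + xi)), Real.sqrt_pos.2 hp, ?_, ?_, ?_⟩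
  · rw [Real.sqrt_le_one]
    rw [div_le_one (by linarith)]
    linarith
  · rw [Real.sq_sqrt hp.le]
    field_simp
    ring
  · rw [Real.sq_sqrt hp.le]
    field_simp
    ring

/-- the two signs of the cosine -/
lemma fin_sign {G D xz o e : ℝ} (hD : 0 < D) (h1 : xz ≤ 0 → G = D * o) (h2 : 0 ≤ xz → G = D * e)
    (h3 : (xz ≤ 0 → 0 < o) ∧ (0 ≤ xz → 0 < e)) : 0 ≤ G := by
  rcases le_total xz 0 with h | h
  · rw [h1 h]
    exact (mul_pos hD (h3.1 h)).le
  · rw [h2 h]
    exact (mul_pos hD (h3.2 h)).le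

/-- quotient in the unit interval -/
lemma ex_q {x y : ℝ} (h0 : 0 ≤ x) (h1 : x ≤ y) : ∃ s : ℝ, 0 ≤ s ∧ s ≤ 1 ∧ x = y * s := by
  rcases eq_or_lt_of_le (h0.trans h1) with h | h
  · exact ⟨0, le_rfl, zero_le_one, by linarith⟩
  · refine ⟨x / y, div_nonneg h0 h.le, (div_le_one h).2 h1, ?_⟩
    field_simp

/-- near `V1` -/
lemma v1 (hRS : Stmt_RS) (hCEP : Stmt_CEP) (hREF : Stmt_REF) {a xi gm : ℝ} (ha : 0 < a)
    (ha2 : a < 3 / 32) (hx0 : 0 ≤ xi) (hx1 : xi < 1 / 8) (hg0 : 0 ≤ gm) (hg1 : gm ≤ 3 / 32)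
    (hab : a ≤ 1 - (gm + a * xi)) : 0 ≤ Gf a (1 - (gm + a * xi)) (1 - gm) 1 := by
  have hsm : gm + (gm + a * xi) ≤ 1 := by nlinarith
  obtain ⟨D, l0, l1, l2, ev, hD, k0, k1, k2, -, hG⟩ :=
    hCEP a xi gm ha hx0 (by linarith) hg0 hab hsm
  have key : ∀ m : ℕ, m < 3 → 0 ≤ eP reA m ev a xi gm := by
    intro m hm
    have hz := hREF.2.1 a ha (by linarith) ev m hm
    rcases le_total gm xi with h | h
    · obtain ⟨s, hs0, hs1, hs⟩ := ex_q hg0 h
      have := hRS.2.1 a xi s ha.le ha2.le hx0 hx1.le hs0 hs1 m hm ev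
      rw [← hs, hz] at this
      exact this
    · obtain ⟨s, hs0, hs1, hs⟩ := ex_q hx0 h
      have := hRS.2.2.1 a gm s ha.le ha2.le hg0 hg1 hs0 hs1 m hm ev
      rw [← hs, hz] at this
      exact this
  rw [hG]
  have e0 := mul_nonneg k0 (key 0 (by norm_num))
  have e1 := mul_nonneg k1 (key 1 (by norm_num))
  have e2 := mul_nonneg k2 (key 2 (by norm_num))
  exact mul_nonneg hD.le (by linarith)

/-- near the edge -/
lemma edge (hRS : Stmt_RS) (hCEF : Stmt_CEF) (hREF : Stmt_REF) {a xi g : ℝ} (ha : 3 / 32 ≤ a)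
    (ha2 : a ≤ 13 / 16) (hx0 : 0 ≤ xi) (hx1 : xi < 1 / 8) (hg0 : 0 ≤ g) (hg1 : g < 1 / 8)
    (hab : a ≤ 1 - a * (g + xi)) : 0 ≤ Gf a (1 - a * (g + xi)) (1 - a * g) 1 := by
  have hsm : a * g + a * (g + xi) ≤ 1 := by nlinarith
  obtain ⟨D, ev, hD, hG⟩ :=
    hCEF a xi g (by linarith) hx0 (by linarith) hg0 (by linarith) hab hsm
  have hz := hREF.2.2.1 a (by linarith) (by linarith) ev
  have key : 0 ≤ eF reA ev a xi g := by
    rcases le_total g xi with h | h
    · obtain ⟨s, hs0, hs1, hs⟩ := ex_q hg0 h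
      have := (hRS.2.2.2.1 a xi s ha ha2 hx0 hx1.le hs0 hs1 ev).1
      rw [← hs, hz] at this
      exact this
    · obtain ⟨s, hs0, hs1, hs⟩ := ex_q hx0 h
      have := (hRS.2.2.2.1 a g s ha ha2 hg0 hg1.le hs0 hs1 ev).2
      rw [← hs, hz] at this
      exact this
  rw [hG]
  exact mul_nonneg hD.le key

/-- sine near zero -/
lemma sn_lower {x : ℝ} (h0 : 0 ≤ x) (h1 : x ≤ 3 / 16) : 63 / 64 * (π * x / 2) ≤ sn x := by
  unfold sn
  rcases eq_or_lt_of_le h0 with h | h
  · rw [← h]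
    simp
  have hpi := Real.pi_pos
  have hpi4 := Real.pi_lt_d2
  have hy0 : 0 < π * x / 2 := by positivity
  have hy1 : π * x / 2 ≤ 3 / 10 := by nlinarith
  have h4 := Real.sin_gt_sub_cube hy0
  have h5 : (π * x / 2) ^ 3 / 6 ≤ 1 / 64 * (π * x / 2) := by
    have : (π * x / 2) ^ 2 ≤ (3 / 10) ^ 2 := by
      apply pow_le_pow_left₀ hy0.le hy1
    nlinarith
  linarith

lemma sn_upper {x : ℝ} (h0 : 0 ≤ x) : sn x ≤ π * x / 2 := by
  unfold sn
  exact Real.sin_le (by positivity)

lemma cn_compl (x : ℝ) : cn (1 - x) = sn x := by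
  unfold cn sn
  rw [← Real.cos_pi_div_two_sub]
  congr 1
  ring

lemma sn_compl (x : ℝ) : sn (1 - x) = cn x := by
  unfold cn sn
  rw [← Real.cos_pi_div_two_sub]
  congr 1
  ring

lemma sn_pos {x : ℝ} (h0 : 0 < x) (h1 : x ≤ 1) : 0 < sn x := by
  unfold sn
  apply Real.sin_pos_of_pos_of_lt_pi
  · positivity
  · nlinarith [Real.pi_pos]

/-- `v ≤ 13/8` -/
lemma v_le {al be gm : ℝ} (h0 : 0 < be) (h1 : be ≤ al) (h2 : al ≤ 3 / 16) (h3 : 0 ≤ gm)
    (h4 : gm ≤ be) (ht : tt (1 - al) (1 - be) (1 - gm) 1 ≤ 0) : gm ≤ 13 / 8 * (al * be) := by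
  unfold tt at ht
  have hpos : 0 < sn (1 - al) * sn (1 - be) :=
    mul_pos (sn_pos (by linarith) (by linarith)) (sn_pos (by linarith) (by linarith))
  have h5 : 1 * cn (1 - gm) - cn (1 - al) * cn (1 - be) ≤ 0 := by
    by_contra hc
    push Not at hc
    exact absurd (div_pos hc hpos) (by linarith)
  rw [one_mul, cn_compl, cn_compl, cn_compl] at h5
  have h6 := sn_lower h3 (by linarith)
  have h7 := sn_upper (x := al) (by linarith)
  have h8 := sn_upper (x := be) h0.le
  have h9 : 0 < sn be := sn_pos h0 (by linarith)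
  have hpi := Real.pi_pos
  have hpi4 := Real.pi_lt_d2
  have h10 : sn al * sn be ≤ (π * al / 2) * (π * be / 2) :=
    mul_le_mul h7 h8 h9.le (by have : 0 < al := by linarith
                               positivity)
  have h11 : 63 / 64 * (π * gm / 2) ≤ (π * al / 2) * (π * be / 2) := by linarith
  have h12 : 63 / 64 * gm ≤ π / 2 * (al * be) := by
    have : π / 2 * (63 / 64 * gm) ≤ π / 2 * (π / 2 * (al * be)) := by
      have e1 : π / 2 * (63 / 64 * gm) = 63 / 64 * (π * gm / 2) := by ring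
      have e2 : π / 2 * (π / 2 * (al * be)) = (π * al / 2) * (π * be / 2) := by ring
      linarith
    exact le_of_mul_le_mul_left this (by positivity)
  have h13 : 0 < al * be := mul_pos (by linarith) h0
  nlinarith

/-- near the vertex `V3` -/
lemma v3 (hRH : Stmt_RH) (hCHP : Stmt_CHP) (hCHE : Stmt_CHE) {al be gm : ℝ} (h0 : 0 ≤ gm)
    (h1 : gm ≤ be) (h2 : be ≤ al) (h3 : al ≤ 3 / 16) : 0 ≤ Gf (1 - al) (1 - be) (1 - gm) 1 := by
  have hal : 0 ≤ al := by linarith
  obtain ⟨s, hs0, hs1, hs⟩ := ex_q (h0.trans h1) h2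
  obtain ⟨u, hu0, hu1, hu⟩ := ex_q h0 h1
  rcases le_total 0 (tt (1 - al) (1 - be) (1 - gm) 1) with ht | ht
  · have hk := hCHP al s u hal h3 hs0 hs1 hu0 hu1
    rw [← hs, ← hu] at hk
    obtain ⟨k1, k2⟩ := hk ht
    refine le_trans ?_ k2
    have hbe : 0 ≤ be := h0.trans h1
    rcases eq_or_lt_of_le hbe with h | h
    · rw [← h]
      simp
    · have k3 : 0 ≤ (hF reA false false al s u u).2 := by
        by_contra hc
        push Not at hc
        exact absurd (mul_neg_of_pos_of_neg h hc) (by linarith)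
      have k4 := hRH.2.1 al s u hal h3 hs0 hs1 hu0 hu1 k3
      exact mul_nonneg (mul_nonneg hal hbe) k4.le
  · have hbe : 0 ≤ be := h0.trans h1
    rcases eq_or_lt_of_le hbe with h | h
    · -- `be = 0`
      have hgm : gm = 0 := by linarith
      have hk := hCHE al s 0 hal h3 hs0 hs1 le_rfl (by simp)
      rw [← hs, mul_zero, mul_zero] at hk
      rw [hgm] at ht ⊢
      obtain ⟨-, k2⟩ := hk ht
      rw [← h] at k2 ⊢
      simpa using k2
    · have hal' : 0 < al := by linarith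
      have hv := v_le h h2 h3 h0 h1 ht
      have hvu : u / al ≤ 13 / 8 := by
        rw [div_le_iff₀ hal']
        have : be * u ≤ be * (13 / 8 * al) := by
          rw [← hu]
          linarith
        exact le_of_mul_le_mul_left this h
      have hal2 : al * (u / al) = u := by field_simp
      have hk := hCHE al s (u / al) hal h3 hs0 hs1 (div_nonneg hu0 hal) (by rw [hal2]; exact hu1)
      rw [hal2, ← hs, ← hu] at hk
      obtain ⟨k1, k2⟩ := hk ht
      refine le_trans ?_ k2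
      have k3 : 0 ≤ (hF reA false true al s u (u / al)).2 := by
        by_contra hc
        push Not at hc
        exact absurd (mul_neg_of_pos_of_neg h hc) (by linarith)
      have k4 := hRH.2.2 al s (u / al) hal h3 hs0 hs1 (div_nonneg hu0 hal) hvu
      rw [hal2] at k4
      exact mul_nonneg (mul_nonneg hal hbe) (k4 k3).le

/-- the cosine is negative in the corner of the chart `V` -/
lemma corner {a b c : ℝ} (ha : 0 < a) (hab : a ≤ b) (hb : b ≤ 1 / 32) (hc : 3 / 2 * b ≤ c)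
    (hc2 : c ≤ 1 / 16) : tt a b c 1 ≤ 0 := by
  unfold tt
  have hpi := Real.pi_pos
  have hpi4 := Real.pi_lt_d2
  have hb0 : 0 < b := by linarith
  refine div_nonpos_of_nonpos_of_nonneg ?_
    (mul_pos (sn_pos ha (by linarith)) (sn_pos hb0 (by linarith))).le
  have h1 : cn c = 1 - 2 * sn (c / 2) ^ 2 := by
    unfold cn sn
    have : π * c / 2 = 2 * (π * (c / 2) / 2) := by ring
    rw [this, Real.cos_two_mul, Real.cos_sq']
    ring
  have h2 := sn_lower (x := c / 2) (by linarith) (by linarith)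
  have h3 : cn b ≤ cn a := by
    unfold cn
    apply Real.cos_le_cos_of_nonneg_of_le_pi
    · positivity
    · nlinarith
    · nlinarith
  have h4 : 0 < cn b := by
    unfold cn
    apply Real.cos_pos_of_mem_Ioo
    constructor
    · have : 0 < π * b / 2 := by positivity
      linarith
    · nlinarith
  have h5 : cn b ^ 2 ≤ cn a * cn b := by nlinarith
  have h6 : cn b ^ 2 = 1 - sn b ^ 2 := by
    unfold cn sn
    exact Real.cos_sq' _
  have h7 := sn_upper (x := b) hb0.le
  have h8 : 0 < sn b := sn_pos hb0 (by linarith)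
  have h9 : sn b ^ 2 ≤ (π * b / 2) ^ 2 := pow_le_pow_left₀ h8.le h7 2
  have h10 : (63 / 64 * (π * (c / 2) / 2)) ^ 2 ≤ sn (c / 2) ^ 2 := by
    apply pow_le_pow_left₀ _ h2
    have : 0 < c := by linarith
    positivity
  have h11 : 63 / 64 * (3 / 2 * (π * b / 2)) / 2 ≤ 63 / 64 * (π * (c / 2) / 2) := by nlinarith
  have h12 : (63 / 64 * (3 / 2 * (π * b / 2)) / 2) ^ 2 ≤ (63 / 64 * (π * (c / 2) / 2)) ^ 2 := by
    apply pow_le_pow_left₀ (by positivity) h11
  nlinarith

end COVP_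

open COVP_

theorem covp_proof (hRA : Stmt_RA) (hRB : Stmt_RB) (hRV : Stmt_RV) (hRH : Stmt_RH) (hRS : Stmt_RS)
    (hCA : Stmt_CA) (hCB : Stmt_CB) (hCV : Stmt_CV) (hCHP : Stmt_CHP) (hCHE : Stmt_CHE)
    (hCEP : Stmt_CEP) (hCEF : Stmt_CEF) (hREF : Stmt_REF) : Stmt_COVP := by
  intro a b c ha hab hbc hc1 hcab
  rcases le_total (13 / 16) a with h13 | h13
  · have := v3 hRH hCHP hCHE (al := 1 - a) (be := 1 - b) (gm := 1 - c) (by linarith) (by linarith)
      (by linarith) (by linarith)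
    simpa using this
  obtain ⟨xi, hxi⟩ : ∃ xi : ℝ, xi = (c - b) / a := ⟨_, rfl⟩
  have hxi0 : 0 ≤ xi := by
    rw [hxi]
    exact div_nonneg (by linarith) ha.le
  have hxi1 : xi < 1 := by
    rw [hxi, div_lt_one ha]
    linarith
  have haxi : a * xi = c - b := by
    rw [hxi]
    field_simp
  obtain ⟨t, ht0, ht1, ht2, ht3⟩ := ex_t hxi0 hxi1
  obtain ⟨gm, hgm⟩ : ∃ gm : ℝ, gm = 1 - c := ⟨_, rfl⟩
  have hc : c = 1 - gm := by linarith
  have hb : b = 1 - (gm + a * xi) := by
    rw [haxi]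
    linarith
  have hgm0 : 0 ≤ gm := by linarith
  rcases le_total gm a with hga | hga
  · rcases le_total gm (a * (1 - xi)) with hgi | hgi
    · -- case (i)
      by_cases hA : xi < 1 / 8 ∧ a < 3 / 32
      · rw [hb, hc]
        exact v1 hRS hCEP hREF ha hA.2 hxi0 hA.1 hgm0 (by linarith [hA.2]) (by linarith)
      by_cases hB : xi < 1 / 8 ∧ gm / a < 1 / 8
      · have ha3 : 3 / 32 ≤ a := by
          by_contra hcon
          push Not at hcon
          exact hA ⟨hB.1, hcon⟩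
        have hg : a * (gm / a) = gm := by field_simp
        have e1 : a * (gm / a + xi) = gm + a * xi := by rw [mul_add, hg]
        have := edge hRS hCEF hREF ha3 h13 hxi0 hB.1 (div_nonneg hgm0 ha.le) hB.2
          (by rw [e1]; linarith)
        rw [hg, e1] at this
        rw [hb, hc]
        exact this
      · obtain ⟨x, hx0, hx1, hx⟩ := ex_q hgm0 hgi
        have hx' : gm = a * (2 * t ^ 2 / (1 + t ^ 2) * x) := by
          rw [ht3, hx]
          ring
        have hgma : gm / a = 2 * t ^ 2 / (1 + t ^ 2) * x := by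
          rw [div_eq_iff ha.ne', hx']
          ring
        have hbe : gm + a * xi = gm + a * ((1 - t ^ 2) / (1 + t ^ 2)) := by rw [ht2]
        obtain ⟨D, hD, -, k1, k2⟩ := hCA a x t (gm + a * xi) gm ha hx0 hx1 ht0 ht1 hx' hbe
          (by linarith)
        rw [hb, hc]
        refine fin_sign hD k1 k2 (hRA a x t ha.le h13 hx0 hx1 ht0.le ht1 ?_ ?_)
        · have : a * (2 * t ^ 2 / (1 + t ^ 2) * x + (1 - t ^ 2) / (1 + t ^ 2)) = gm + a * xi := by
            rw [mul_add, ← hx', ht2]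
          rw [this]
          linarith
        · rw [ht2, ← hgma]
          rintro ⟨q1, q2 | q2⟩
          · exact hB ⟨q1, q2⟩
          · exact hA ⟨q1, q2⟩
    · -- case (ii)
      by_cases hA : xi < 1 / 8 ∧ a < 3 / 32
      · rw [hb, hc]
        exact v1 hRS hCEP hREF ha hA.2 hxi0 hA.1 hgm0 (by linarith [hA.2]) (by linarith)
      · obtain ⟨x, hx0, hx1, hx⟩ := ex_q (x := gm - a * (1 - xi)) (y := a * xi) (by linarith)
          (by linarith)
        have hx' : gm = a * (2 * t ^ 2 / (1 + t ^ 2) + (1 - t ^ 2) / (1 + t ^ 2) * x) := by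
          rw [ht3, ht2]
          linarith
        have hbe : gm + a * xi = gm + a * ((1 - t ^ 2) / (1 + t ^ 2)) := by rw [ht2]
        obtain ⟨D, hD, -, k1, k2⟩ := hCB a x t (gm + a * xi) gm ha hx0 hx1 ht0 ht1 hx' hbe
          (by linarith)
        rw [hb, hc]
        refine fin_sign hD k1 k2 (hRB a x t ha.le h13 hx0 hx1 ht0.le ht1 ?_ ?_)
        · have : a * (2 * t ^ 2 / (1 + t ^ 2) + (1 - t ^ 2) / (1 + t ^ 2) * x +
              (1 - t ^ 2) / (1 + t ^ 2)) = gm + a * xi := by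
            rw [mul_add, ← hx', ht2]
          rw [this]
          linarith
        · rw [ht2]
          exact hA
  · -- case (iii)
    by_cases hA : xi < 1 / 8 ∧ gm < 3 / 32
    · rw [hb, hc]
      exact v1 hRS hCEP hREF ha (by linarith [hA.2]) hxi0 hA.1 hgm0 (by linarith [hA.2])
        (by linarith)
    have hb0 : 0 < b := by linarith
    have hr0 : 0 < a / b := div_pos ha hb0
    have hr1 : a / b ≤ 1 := (div_le_one hb0).2 hab
    have hrb : a = a / b * b := by field_simp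
    have hcc : c = b * (1 + a / b * ((1 - t ^ 2) / (1 + t ^ 2))) := by
      rw [ht2]
      have : b * (1 + a / b * xi) = b + a * xi := by field_simp
      rw [this, haxi]
      ring
    have hac : a + c ≤ 1 := by linarith
    by_cases hB : 31 / 32 ≤ a / b ∧ b ≤ 1 / 32 ∧ t ≤ 1 / 32
    · obtain ⟨hB1, hB2, hB3⟩ := hB
      have hxi9 : 9 / 10 ≤ xi := by
        rw [← ht2, le_div_iff₀ (by positivity)]
        nlinarith
      have hab9 : 31 / 32 * b ≤ a := by
        rw [le_div_iff₀ hb0] at hB1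
        exact hB1
      have hc32 : 3 / 2 * b ≤ c := by nlinarith
      have htt := corner ha hab hB2 hc32 (by linarith)
      obtain ⟨D, hD, hxz, k1, -⟩ := hCV false (a / b) b t a c hr0 hr1 hb0 ht0 ht1 hrb hcc hac
        (by simp only [Bool.false_eq_true, if_false]; linarith)
      have k3 := k1 (by rw [hxz]; exact htt)
      rw [k3]
      have k4 := hRS.2.2.2.2 (1 - a / b) b t (by linarith) (by linarith) hb0.le hB2 ht0.le hB3
      rw [hREF.2.2.2, sub_sub_cancel] at k4
      exact mul_nonneg hD.le k4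
    · have hA' : ¬ ((1 - t ^ 2) / (1 + t ^ 2) < 1 / 8 ∧ 1 - c < 3 / 32) := by
        rw [ht2, ← hgm]
        exact hA
      rcases le_total 1 (b + c) with hk | hk
      · obtain ⟨D, hD, -, k1, k2⟩ := hCV true (a / b) b t a c hr0 hr1 hb0 ht0 ht1 hrb hcc hac
          (by simpa using hk)
        exact fin_sign hD k1 k2 (hRV true (a / b) b t hr0.le hr1 hb0.le (by linarith) ht0.le ht1 c
          hcc (by rw [← hrb]; exact hac) (by simpa using hk) hA' hB)
      · obtain ⟨D, hD, -, k1, k2⟩ := hCV false (a / b) b t a c hr0 hr1 hb0 ht0 ht1 hrb hcc hac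
          (by simpa using hk)
        exact fin_sign hD k1 k2 (hRV false (a / b) b t hr0.le hr1 hb0.le (by linarith) ht0.le ht1 c
          hcc (by rw [← hrb]; exact hac) (by simpa using hk) hA' hB)

end Pool.Agent.FTA
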