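import Pool.Agent.FTA.Stmts

open Real

namespace Pool.Agent.FTA

namespace CV_

noncomputable section

lemma dy0 : reA.cst false 0 0 = 0 := by
  show dy false 0 0 = 0
  unfold dy
  simp

lemma one_eq : Alg.one reA = 1 := by
  show dy false 1 0 = 1
  unfold dy
  simp

lemma om_eq (x : ℝ) : Alg.om reA x = 1 - x := by
  show Alg.one reA - x = 1 - x
  rw [one_eq]

lemma op_eq (x : ℝ) : Alg.op reA x = 1 + x := by
  show Alg.one reA + x = 1 + x
  rw [one_eq]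

lemma dbl_eq (x : ℝ) : Alg.dbl reA x = 2 * x := by
  show ((2 : ℕ) : ℝ) / 2 ^ 0 * x = 2 * x
  norm_num

lemma mul_eq (x y : ℝ) : reA.mul x y = x * y := rfl
lemma add_eq (x y : ℝ) : reA.add x y = x + y := rfl
lemma sub_eq (x y : ℝ) : reA.sub x y = x - y := rfl
lemma inv_eq (x : ℝ) : reA.inv x = x⁻¹ := rfl
lemma rsq_eq (x : ℝ) : reA.rsq x = (√x)⁻¹ := rfl
lemma smul_eq (p q : ℕ) (x : ℝ) : reA.smul p q x = (p : ℝ) / 2 ^ q * x := rfl

lemma side_eq (p S C i : ℝ) (hS : S = sn p) (hC : C = cn p) (hi : i = p / sn p) (h0 : sn p ≠ 0) :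
    side reA p S C i = nside p := by
  subst hS hC hi
  unfold side nside p2 p3 De
  simp only [sub_eq, smul_eq, Side.mk.injEq, true_and]
  constructor
  · field_simp
    ring
  · field_simp
    ring

lemma vA_eq (b : ℝ) (P Q : Side ℝ) (bp bk kS iq ax y : ℝ) (h1 : bp = b * (P.i * iq))
    (h2 : bk = b * (kS * iq)) : vA reA b P Q bp bk ax y = b * poleA reA P Q kS iq ax y := by
  subst h1 h2
  simp only [vA, vpole, vev, poleA, evenP, oddP, Wp, Rp, om_eq, op_eq, dbl_eq, mul_eq, add_eq, sub_eq,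
    inv_eq, smul_eq]
  push_cast
  ring

lemma vO_eq (b : ℝ) (P Q : Side ℝ) (bp bk kS iq ax y : ℝ) (h1 : bp = b * (P.i * iq))
    (h2 : bk = b * (kS * iq)) : vO reA b P Q bp bk ax y = b * poleO reA P Q kS iq ax y := by
  subst h1 h2
  simp only [vO, vpole, vev, poleO, evenP, oddP, Wp, Rp, om_eq, op_eq, dbl_eq, mul_eq, add_eq, sub_eq,
    inv_eq, smul_eq]
  push_cast
  ring

lemma vE_eq (b : ℝ) (P Q : Side ℝ) (bp bk kS iq x y : ℝ) (h1 : bp = b * (P.i * iq))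
    (h2 : bk = b * (kS * iq)) : vE reA b P Q bp bk x y = b * poleE reA P Q kS iq x y := by
  subst h1 h2
  simp only [vE, vpole, vev, poleE, evenP, Wp, Rp, om_eq, dbl_eq, mul_eq, add_eq, sub_eq,
    inv_eq, smul_eq]
  push_cast
  ring

lemma cV_val (k1 : Bool) (rho b t f1 f0 a m c l2 l3 za zb zc z0 z1 s2 s3 ca cb cc c0 : ℝ)
    (h1 : (Alg.op reA (t * t))⁻¹ = f1) (h2 : t * t * f1 = f0) (h3 : rho * b = a)
    (h4 : Alg.op reA (rho * (f1 - f0)) = m) (h5 : b * m = c)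
    (h6 : Alg.om reA (rho * f0) = l2) (h7 : Alg.op reA (rho * f1) = l3)
    (h8 : Alg.sc reA a = za) (h9 : Alg.sc reA b = zb) (h10 : Alg.sc reA c = zc)
    (h11 : Alg.sc reA (a * f0) = z0) (h12 : Alg.sc reA (a * f1) = z1)
    (h13 : Alg.sc reA (b * l2) = s2) (h14 : Alg.sc reA (b * l3) = s3)
    (h15 : Alg.cs reA a = ca) (h16 : Alg.cs reA b = cb) (h17 : Alg.cs reA c = cc)
    (h18 : Alg.cs reA (a * f0) = c0) (yz yi v ir pr ig : ℝ)
    (hv : l2 * s2 * (l3 * s3) = v) (hir : (√v)⁻¹ = ir) (hpr : z0 * z1 = pr) (hig : (√pr)⁻¹ = ig)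
    (hyz : Alg.dbl reA (t * f1 * (pr * ig) * (v * ir * (za⁻¹ * zb⁻¹))) = yz)
    (hyi : yz * (m * zc)⁻¹ = yi) (xz xx xy : ℝ)
    (hxz : (f0 * z0 * (l3 * s3) - f1 * z1 * (l2 * s2)) * (za⁻¹ * zb⁻¹) = xz)
    (hxx : (f1 * z1 * (l3 * s3) - f0 * z0 * (l2 * s2)) * (za⁻¹ * (m * zc)⁻¹) = xx)
    (hxy : (v - rho * rho * (f0 * z0 * (f1 * z1))) * (zb⁻¹ * (m * zc)⁻¹) = xy)
    (bs bk : ℝ)
    (hbs : reA.smul 1 1 (t * z0 * (ig * ir)) *
      (reA.smul 1 1 (c0 * (reA.smul 4 0 (a * za * (b * zb) * (c * zc)) - Alg.dbl reA (a * f0 * z0 * c0)))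
        - reA.smul 5 1 z0⁻¹) = bs)
    (hbk : (Bool.casesOn k1 (reA.cst false 0 0)
      ((b + c - Alg.one reA) * b⁻¹ * (zb⁻¹ * (m * zc)⁻¹)) : ℝ) = bk) :
    (cV reA k1 rho b t).xz = xz ∧
    (cV reA k1 rho b t).o = bs + (vA reA b (side reA a (a * za) ca za⁻¹) (side reA c (c * zc) cc (m * (m * zc)⁻¹))
        (za⁻¹ * (m * zc)⁻¹) (reA.cst false 0 0) xx (yi * zb) +
      vA reA b (side reA b (b * zb) cb zb⁻¹) (side reA c (c * zc) cc (m * (m * zc)⁻¹))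
        (zb⁻¹ * (m * zc)⁻¹) bk xy (yi * (rho * za))) +
      vO reA b (side reA a (a * za) ca za⁻¹) (side reA b (b * zb) cb zb⁻¹)
        (za⁻¹ * zb⁻¹) (reA.cst false 0 0) (reA.cst false 0 0 - xz) yz ∧
    (cV reA k1 rho b t).e = bs + (vA reA b (side reA a (a * za) ca za⁻¹) (side reA c (c * zc) cc (m * (m * zc)⁻¹))
        (za⁻¹ * (m * zc)⁻¹) (reA.cst false 0 0) xx (yi * zb) +
      vA reA b (side reA b (b * zb) cb zb⁻¹) (side reA c (c * zc) cc (m * (m * zc)⁻¹))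
        (zb⁻¹ * (m * zc)⁻¹) bk xy (yi * (rho * za))) +
      vE reA b (side reA a (a * za) ca za⁻¹) (side reA b (b * zb) cb zb⁻¹)
        (za⁻¹ * zb⁻¹) (reA.cst false 0 0) xz yz := by
  subst hbk hbs hxy hxx hxz hyi hyz hig hpr hir hv h18 h17 h16 h15 h14 h13 h12 h11 h10 h9 h8 h7 h6 h5 h4
    h3 h2 h1
  exact ⟨rfl, rfl, rfl⟩

lemma scR_mul {x : ℝ} (hx : x ≠ 0) : x * scR x = sn x := by
  unfold scR
  rw [if_neg hx]
  field_simp

lemma scR_eq {x : ℝ} (hx : x ≠ 0) : scR x = sn x / x := by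
  unfold scR
  rw [if_neg hx]

lemma sn_two_sub (x : ℝ) : sn (2 - x) = sn x := by
  unfold sn
  rw [show π * (2 - x) / 2 = π - π * x / 2 by ring, Real.sin_pi_sub]

lemma cn_anti {x y : ℝ} (hx : 0 ≤ x) (hxy : x ≤ y) (hy : y ≤ 1) : cn y ≤ cn x := by
  unfold cn
  have hp := Real.pi_pos
  apply Real.cos_le_cos_of_nonneg_of_le_pi
  · positivity
  · nlinarith
  · nlinarith

lemma cn_le_one (x : ℝ) : cn x ≤ 1 := Real.cos_le_one _

lemma cn_nonneg {x : ℝ} (hx : 0 ≤ x) (hx1 : x ≤ 1) : 0 ≤ cn x := by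
  unfold cn
  have hp := Real.pi_pos
  apply Real.cos_nonneg_of_neg_pi_div_two_le_of_le
  · have : 0 ≤ π * x / 2 := by positivity
    linarith
  · nlinarith

lemma tt_nonneg {p q r : ℝ} (h5 : cn q ≤ cn r) (h6 : 0 ≤ cn q) (h : 0 < sn p * sn q) :
    0 ≤ tt p q r 1 := by
  have h7 := cn_le_one p
  unfold tt
  apply div_nonneg _ h.le
  have h8 : cn p * cn q ≤ 1 * cn q := mul_le_mul_of_nonneg_right h7 h6
  linarith

lemma fin_eq {D b : ℝ} (bs x y z : ℝ) (hb : b ≠ 0) :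
    D / b * (bs + (b * x + b * y) + b * z) = D / b * bs + D * z + D * x + D * y := by
  field_simp
  ring

lemma pyth {N g S D : ℝ} (h : S ^ 2 = N ^ 2 + g) (hD : D ^ 2 = g) (hS : 0 < S) :
    (N / S) ^ 2 + (D / S) ^ 2 = 1 := by
  have hS' : S ≠ 0 := hS.ne'
  rw [div_pow, div_pow, ← add_div, hD, ← h]
  exact div_self (pow_ne_zero 2 hS')

end

end CV_

open CV_ in
theorem cv_proof (h1 : Stmt_POLE) (h2 : Stmt_ID) (h3 : Stmt_TRIG) (h4 : Stmt_PRIM) : Stmt_CV := by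
  intro k1 rho b t a c hr hr1 hb ht ht1 ha hc hac hk
  obtain ⟨hsc, hcs, -, -⟩ := h4
  have ht2 : 0 < 1 + t * t := by positivity
  obtain ⟨f1, hf1⟩ : ∃ f1, f1 = (1 + t * t)⁻¹ := ⟨_, rfl⟩
  obtain ⟨f0, hf0⟩ : ∃ f0, f0 = t * t * f1 := ⟨_, rfl⟩
  have hf1p : 0 < f1 := by rw [hf1]; exact inv_pos.2 ht2
  have hf0p : 0 < f0 := by rw [hf0]; positivity
  have hsum : f0 + f1 = 1 := by
    rw [hf0, hf1]
    field_simp
    ring
  have hf01 : f0 ≤ f1 := by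
    rw [hf0]
    have : t * t ≤ 1 := by nlinarith
    nlinarith
  have hxi : (1 - t ^ 2) / (1 + t ^ 2) = f1 - f0 := by
    rw [hf0, hf1, sq]
    field_simp
  rw [hxi] at hc
  have ha0 : 0 < a := by rw [ha]; positivity
  have hab : a ≤ b := by rw [ha]; nlinarith
  obtain ⟨m, hm⟩ : ∃ m, m = 1 + rho * (f1 - f0) := ⟨_, rfl⟩
  have hm1 : 1 ≤ m := by
    rw [hm]
    have : 0 ≤ rho * (f1 - f0) := mul_nonneg hr.le (by linarith)
    linarith
  have hm0 : 0 < m := by linarith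
  have hcm : c = b * m := by rw [hc, hm]
  have hbc : b ≤ c := by rw [hcm]; nlinarith
  have hc1 : c ≤ 1 := by linarith
  have hb1 : b ≤ 1 := by linarith
  have ha1 : a ≤ 1 := by linarith
  have hc0 : 0 < c := by linarith
  obtain ⟨l2, hl2⟩ : ∃ l2, l2 = 1 - rho * f0 := ⟨_, rfl⟩
  obtain ⟨l3, hl3⟩ : ∃ l3, l3 = 1 + rho * f1 := ⟨_, rfl⟩
  have hbl2 : b * l2 = b - a * f0 := by rw [hl2, ha]; ring
  have hbl3 : b * l3 = c + a * f0 := by rw [hl3, hcm, hm, ha]; ring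
  have haf0 : 0 < a * f0 := mul_pos ha0 hf0p
  have haf1 : 0 < a * f1 := mul_pos ha0 hf1p
  have hafs : a * f0 + a * f1 = a := by rw [← mul_add, hsum, mul_one]
  have hbl2p : 0 < b * l2 := by rw [hbl2]; linarith
  have hbl3p : 0 < b * l3 := by rw [hbl3]; linarith
  have hbl31 : b * l3 ≤ 1 := by rw [hbl3]; linarith
  have hbl21 : b * l2 ≤ 1 := by rw [hbl2]; linarith
  have hsg : sg false = 1 := by simp [sg]
  have hT := h3 false a b c (a * f0) (a * f1) (b * l2) (2 - b * l3) ha0 hab hbc hc1 haf0 hafs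
    (by rw [hbl2]; ring) (by rw [hbl2, hbl3, hcm, hm, ha]; ring)
    (by
      simp only [Bool.false_eq_true, if_false]
      rw [hbl2, hcm, hm, ha]
      ring)
  rw [hsg, sn_two_sub] at hT
  obtain ⟨-, -, -, s0p, s1p, s2p, s3p, sap, sbp, scp, hgram, hxz, hxx, hxy, hq1, hq2, hq3⟩ := hT
  obtain ⟨za, hza⟩ : ∃ z, z = scR a := ⟨_, rfl⟩
  obtain ⟨zb, hzb⟩ : ∃ z, z = scR b := ⟨_, rfl⟩
  obtain ⟨zc, hzc⟩ : ∃ z, z = scR c := ⟨_, rfl⟩
  obtain ⟨z0, hz0⟩ : ∃ z, z = scR (a * f0) := ⟨_, rfl⟩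
  obtain ⟨z1, hz1⟩ : ∃ z, z = scR (a * f1) := ⟨_, rfl⟩
  obtain ⟨s2, hs2⟩ : ∃ z, z = scR (b * l2) := ⟨_, rfl⟩
  obtain ⟨s3, hs3⟩ : ∃ z, z = scR (b * l3) := ⟨_, rfl⟩
  have ea : sn a = a * za := by rw [hza, scR_mul ha0.ne']
  have eb : sn b = b * zb := by rw [hzb, scR_mul hb.ne']
  have ec : sn c = c * zc := by rw [hzc, scR_mul hc0.ne']
  have e0 : sn (a * f0) = a * f0 * z0 := by rw [hz0, scR_mul haf0.ne']
  have e1 : sn (a * f1) = a * f1 * z1 := by rw [hz1, scR_mul haf1.ne']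
  have e2 : sn (b * l2) = b * l2 * s2 := by rw [hs2, scR_mul hbl2p.ne']
  have e3 : sn (b * l3) = b * l3 * s3 := by rw [hs3, scR_mul hbl3p.ne']
  have hzap : 0 < za := by
    rw [ea] at sap
    exact (mul_pos_iff_of_pos_left ha0).1 sap
  have hzbp : 0 < zb := by
    rw [eb] at sbp
    exact (mul_pos_iff_of_pos_left hb).1 sbp
  have hzcp : 0 < zc := by
    rw [ec] at scp
    exact (mul_pos_iff_of_pos_left hc0).1 scp
  have hz0p : 0 < z0 := by
    rw [e0] at s0p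
    exact (mul_pos_iff_of_pos_left haf0).1 s0p
  have hz1p : 0 < z1 := by
    rw [e1] at s1p
    exact (mul_pos_iff_of_pos_left haf1).1 s1p
  have hp2p : 0 < l2 * s2 := by
    rw [e2, mul_assoc] at s2p
    exact (mul_pos_iff_of_pos_left hb).1 s2p
  have hp3p : 0 < l3 * s3 := by
    rw [e3, mul_assoc] at s3p
    exact (mul_pos_iff_of_pos_left hb).1 s3p
  obtain ⟨R, hR⟩ : ∃ R, R = √(z0 * z1) := ⟨_, rfl⟩
  obtain ⟨V, hV⟩ : ∃ V, V = √(l2 * s2 * (l3 * s3)) := ⟨_, rfl⟩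
  have hRp : 0 < R := by rw [hR]; exact Real.sqrt_pos.2 (mul_pos hz0p hz1p)
  have hVp : 0 < V := by rw [hV]; exact Real.sqrt_pos.2 (mul_pos hp2p hp3p)
  have hR2 : z0 * z1 = R ^ 2 := by rw [hR, Real.sq_sqrt (mul_pos hz0p hz1p).le]
  have hV2 : l2 * s2 * (l3 * s3) = V ^ 2 := by rw [hV, Real.sq_sqrt (mul_pos hp2p hp3p).le]
  have hgp : 0 < gram a b c 1 := by
    rw [hgram]
    exact mul_pos (by norm_num) (mul_pos (mul_pos (mul_pos s0p s1p) s2p) s3p)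
  obtain ⟨D, hD⟩ : ∃ D, D = √(gram a b c 1) := ⟨_, rfl⟩
  have hDp : 0 < D := by rw [hD]; exact Real.sqrt_pos.2 hgp
  have hD2 : D ^ 2 = gram a b c 1 := by rw [hD, Real.sq_sqrt hgp.le]
  have hDval : D = 2 * (rho * b * b * (t * f1)) * (R * V) := by
    have h5 : 0 ≤ 2 * (rho * b * b * (t * f1)) * (R * V) := by positivity
    rw [hD, ← Real.sqrt_sq h5]
    congr 1
    rw [hgram, e0, e1, e2, e3]
    have h6 : (2 * (rho * b * b * (t * f1)) * (R * V)) ^ 2 =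
        4 * (rho * b * b * (t * f1)) ^ 2 * (R ^ 2 * V ^ 2) := by ring
    rw [h6, ← hR2, ← hV2, ha, hf0]
    ring
  have hyz : 2 * (t * f1 * (z0 * z1 * R⁻¹) * (l2 * s2 * (l3 * s3) * V⁻¹ * (za⁻¹ * zb⁻¹))) =
      D / (sn a * sn b) := by
    rw [hR2, hV2, ea, eb, hDval, ha]
    field_simp
  have hyx : D / (sn a * sn b) * (m * zc)⁻¹ * zb = D / (sn a * sn c) := by
    rw [ea, eb, ec, hcm]
    field_simp
  have hyy : D / (sn a * sn b) * (m * zc)⁻¹ * (rho * za) = D / (sn b * sn c) := by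
    rw [ea, eb, ec, hcm, ha]
    field_simp
  have txz : (f0 * z0 * (l3 * s3) - f1 * z1 * (l2 * s2)) * (za⁻¹ * zb⁻¹) = tt a b c 1 := by
    unfold tt
    rw [← hxz, e0, e1, e2, e3, ea, eb, ha]
    field_simp
  have txx : (f1 * z1 * (l3 * s3) - f0 * z0 * (l2 * s2)) * (za⁻¹ * (m * zc)⁻¹) = tt a c b 1 := by
    unfold tt
    rw [one_mul] at hxx
    rw [one_mul, ← hxx, e0, e1, e2, e3, ea, ec, hcm, ha]
    field_simp
  have txy : (l2 * s2 * (l3 * s3) - rho * rho * (f0 * z0 * (f1 * z1))) * (zb⁻¹ * (m * zc)⁻¹) =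
      tt b c a 1 := by
    unfold tt
    rw [one_mul] at hxy
    rw [one_mul, ← hxy, e0, e1, e2, e3, eb, ec, hcm, ha]
    field_simp
  have abs1 : ∀ x : ℝ, 0 < x → x ≤ 1 → |x| ≤ 1 := fun x h h' => by rw [abs_of_pos h]; exact h'
  have haf01 : a * f0 ≤ 1 := by linarith
  have haf11 : a * f1 ≤ 1 := by linarith
  obtain ⟨v1, v2, v3⟩ := cV_val k1 rho b t f1 f0 a m c l2 l3 za zb zc z0 z1 s2 s3 (cn a) (cn b) (cn c)
    (cn (a * f0)) (by rw [op_eq]; exact hf1.symm) hf0.symm ha.symm (by rw [op_eq]; exact hm.symm) hcm.symm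
    (by rw [om_eq]; exact hl2.symm) (by rw [op_eq]; exact hl3.symm)
    (by rw [hza]; exact hsc a (abs1 a ha0 ha1)) (by rw [hzb]; exact hsc b (abs1 b hb hb1))
    (by rw [hzc]; exact hsc c (abs1 c hc0 hc1)) (by rw [hz0]; exact hsc _ (abs1 _ haf0 haf01))
    (by rw [hz1]; exact hsc _ (abs1 _ haf1 haf11)) (by rw [hs2]; exact hsc _ (abs1 _ hbl2p hbl21))
    (by rw [hs3]; exact hsc _ (abs1 _ hbl3p hbl31)) (hcs a (abs1 a ha0 ha1)) (hcs b (abs1 b hb hb1))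
    (hcs c (abs1 c hc0 hc1)) (hcs _ (abs1 _ haf0 haf01)) (D / (sn a * sn b)) _ _ V⁻¹ _ R⁻¹
    rfl (by rw [hV]) rfl (by rw [hR]) (by rw [dbl_eq]; exact hyz) rfl (tt a b c 1) (tt a c b 1)
    (tt b c a 1) txz txx txy _ _ rfl rfl
  rw [side_eq a (a * za) (cn a) za⁻¹ ea.symm rfl (by rw [ea]; field_simp) sap.ne',
    side_eq b (b * zb) (cn b) zb⁻¹ eb.symm rfl (by rw [eb]; field_simp) sbp.ne',
    side_eq c (c * zc) (cn c) (m * (m * zc)⁻¹) ec.symm rfl (by rw [ec]; field_simp) scp.ne',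
    hyx, hyy] at v2 v3
  have kab : kk a b = 0 := by
    unfold kk
    exact max_eq_right (by linarith)
  have kac : kk a c = 0 := by
    unfold kk
    exact max_eq_right (by linarith)
  have hbk : (Bool.casesOn k1 (reA.cst false 0 0)
      ((b + c - Alg.one reA) * b⁻¹ * (zb⁻¹ * (m * zc)⁻¹)) : ℝ) =
      b * (kk b c / sn b * (sn c)⁻¹) := by
    cases k1 with
    | false =>
      have h5 : kk b c = 0 := by
        unfold kk
        simp only [Bool.false_eq_true, if_false] at hk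
        exact max_eq_right (by linarith)
      show reA.cst false 0 0 = _
      rw [dy0, h5]
      simp
    | true =>
      have h5 : kk b c = b + c - 1 := by
        unfold kk
        simp only [if_true] at hk
        exact max_eq_left (by linarith)
      show (b + c - Alg.one reA) * b⁻¹ * (zb⁻¹ * (m * zc)⁻¹) = _
      rw [one_eq, h5, eb, ec]
      have h6 : c * zc = b * (m * zc) := by rw [hcm]; ring
      rw [h6]
      field_simp
  have b0 : (reA.cst false 0 0 : ℝ) = b * (kk a c / sn a * (sn c)⁻¹) := by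
    rw [dy0, kac]
    simp
  have b0' : (reA.cst false 0 0 : ℝ) = b * (kk a b / sn a * (sn b)⁻¹) := by
    rw [dy0, kab]
    simp
  have iac : za⁻¹ * (m * zc)⁻¹ = b * ((nside a).i * (sn c)⁻¹) := by
    show za⁻¹ * (m * zc)⁻¹ = b * (a / sn a * (sn c)⁻¹)
    rw [ea, ec]
    have h6 : c * zc = b * (m * zc) := by rw [hcm]; ring
    rw [h6]
    field_simp
  have ibc : zb⁻¹ * (m * zc)⁻¹ = b * ((nside b).i * (sn c)⁻¹) := by
    show zb⁻¹ * (m * zc)⁻¹ = b * (b / sn b * (sn c)⁻¹)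
    rw [eb, ec]
    have h6 : c * zc = b * (m * zc) := by rw [hcm]; ring
    rw [h6]
    field_simp
  have iab : za⁻¹ * zb⁻¹ = b * ((nside a).i * (sn b)⁻¹) := by
    show za⁻¹ * zb⁻¹ = b * (a / sn a * (sn b)⁻¹)
    rw [ea, eb]
    field_simp
  rw [hbk] at v2 v3
  rw [vA_eq b _ _ _ _ (kk a c / sn a) (sn c)⁻¹ _ _ iac b0,
    vA_eq b _ _ _ _ (kk b c / sn b) (sn c)⁻¹ _ _ ibc rfl] at v2 v3
  rw [vO_eq b _ _ _ _ (kk a b / sn a) (sn b)⁻¹ _ _ iab b0', dy0, zero_sub] at v2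
  rw [vE_eq b _ _ _ _ (kk a b / sn a) (sn b)⁻¹ _ _ iab b0'] at v3
  have SAB : 0 < sn a * sn b := mul_pos sap sbp
  have SAC : 0 < sn a * sn c := mul_pos sap scp
  have SBC : 0 < sn b * sn c := mul_pos sbp scp
  have PZ := h1 a b (tt a b c 1) (D / (sn a * sn b)) D ha0 hab hb1 (div_pos hDp SAB)
    (pyth hq1 hD2 SAB) (by field_simp)
  have PX := h1 a c (tt a c b 1) (D / (sn a * sn c)) D ha0 (hab.trans hbc) hc1 (div_pos hDp SAC)
    (pyth hq2 hD2 SAC) (by field_simp)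
  have PY := h1 b c (tt b c a 1) (D / (sn b * sn c)) D hb hbc hc1 (div_pos hDp SBC)
    (pyth hq3 hD2 SBC) (by field_simp)
  have tx0 : 0 ≤ tt a c b 1 :=
    tt_nonneg (cn_anti hb.le hbc hc1) (cn_nonneg hc0.le hc1) SAC
  have ty0 : 0 ≤ tt b c a 1 :=
    tt_nonneg (cn_anti ha0.le (hab.trans hbc) hc1) (cn_nonneg hc0.le hc1) SBC
  have X1 := PX.1 tx0
  have Y1 := PY.1 ty0
  have I1 := (h2 a b c (a * f0) ha0.le hab hbc hc1 haf0.le).1 (by
    rw [hcm, hm, ha]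
    have : f1 = 1 - f0 := by linarith
    rw [this]
    ring)
  rw [kab] at I1
  have B1 : D / b * (reA.smul 1 1 (t * z0 * (R⁻¹ * V⁻¹)) *
      (reA.smul 1 1 (cn (a * f0) * (reA.smul 4 0 (a * za * (b * zb) * (c * zc)) -
        Alg.dbl reA (a * f0 * z0 * cn (a * f0)))) - reA.smul 5 1 z0⁻¹)) =
      sn (a * f0) * cn (a * f0) * (4 * (sn a * sn b * sn c) - 2 * (sn (a * f0) * cn (a * f0))) / 2
        - 5 / 2 * (a * f0 + 0) := by
    simp only [smul_eq, dbl_eq]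
    push_cast
    rw [hDval, e0, ea, eb, ec]
    have h5 : 2 * (rho * b * b * (t * f1)) * (R * V) / b * ((1 : ℝ) / 2 ^ 1 * (t * z0 * (R⁻¹ * V⁻¹))) =
        a * f0 * z0 := by
      rw [hf0, ha]
      field_simp
    rw [← mul_assoc, h5]
    field_simp
    ring
  refine ⟨D / b, div_pos hDp hb, v1, ?_, ?_⟩
  · intro hx
    rw [v1] at hx
    have Z1 := PZ.2.1 hx
    rw [v2]
    have h5 : Gf a b c 1 = (2 - a - b - c - F a b (-1) - F a c 1 - F b c 1) +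
        (F a b (-1) - F a b (tt a b c 1)) + (F a c 1 - F a c (tt a c b 1)) +
        (F b c 1 - F b c (tt b c a 1)) := by
      unfold Gf
      ring
    rw [h5, I1, ← Z1, ← X1, ← Y1, ← B1]
    exact (fin_eq _ _ _ _ hb.ne').symm
  · intro hx
    rw [v1] at hx
    have Z1 := PZ.2.2 hx
    rw [v3]
    have h5 : Gf a b c 1 = (2 - a - b - c - F a b (-1) - F a c 1 - F b c 1) +
        (F a b (-1) - F a b (tt a b c 1)) + (F a c 1 - F a c (tt a c b 1)) +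
        (F b c 1 - F b c (tt b c a 1)) := by
      unfold Gf
      ring
    rw [h5, I1, ← Z1, ← X1, ← Y1, ← B1]
    exact (fin_eq _ _ _ _ hb.ne').symm

end Pool.Agent.FTA
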