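import Pool.Agent.FTA.Stmts

/-! Module DEG: the slack vanishes for degenerate triples. -/

open Real

namespace Pool.Agent.FTA

namespace DEG_

noncomputable section

lemma T1_one : T1 1 = 1 := by
  have := Real.pi_pos
  rw [T1, Real.arcsin_one]; field_simp

lemma T1_neg_one : T1 (-1) = -1 := by
  have := Real.pi_pos
  rw [T1, Real.arcsin_neg_one]; field_simp

lemma T2_one : T2 1 = 1 := by
  rw [T2, show 2 * (1 : ℝ) ^ 2 - 1 = 1 by norm_num]
  exact T1_one

lemma T2_neg_one : T2 (-1) = 1 := by
  rw [T2, show 2 * (-1 : ℝ) ^ 2 - 1 = 1 by norm_num]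
  exact T1_one

lemma sin_pi_mul (p : ℝ) : Real.sin (π * p) = 2 * sn p * cn p := by
  rw [sn, cn, ← Real.sin_two_mul]; congr 1; ring

lemma F_one (p q : ℝ) : F p q 1 = 2 / 3 - (p + q) - (De p + De q) / 8 - (sn p * sn q) ^ 2 / 2
    + 5 / 4 * (min p q + kk p q) + (5 / 4 * (min p q - kk p q) - sn p * cn p * (sn q * cn q) / 2) := by
  have hm : min p q * max p q = p * q := min_mul_max p q
  have h1 : sn p ^ 2 = p - De p := by rw [De]; ring
  have h2 : sn q ^ 2 = q - De q := by rw [De]; ring
  rw [F, T1_one, T2_one, Wf, Rf, sin_pi_mul, sin_pi_mul, p0, p0, p2, p2, p3, p3, mul_pow, h1, h2]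
  linear_combination (-(5 : ℝ) / 2) * hm

lemma F_neg_one (p q : ℝ) : F p q (-1) = 2 / 3 - (p + q) - (De p + De q) / 8 - (sn p * sn q) ^ 2 / 2
    + 5 / 4 * (min p q + kk p q) - (5 / 4 * (min p q - kk p q) - sn p * cn p * (sn q * cn q) / 2) := by
  have hm : min p q * max p q = p * q := min_mul_max p q
  have h1 : sn p ^ 2 = p - De p := by rw [De]; ring
  have h2 : sn q ^ 2 = q - De q := by rw [De]; ring
  rw [F, T1_neg_one, T2_neg_one, Wf, Rf, sin_pi_mul, sin_pi_mul, p0, p0, p2, p2, p3, p3, mul_pow, h1, h2]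
  linear_combination (-(5 : ℝ) / 2) * hm

lemma sn_zero : sn 0 = 0 := by simp [sn]
lemma cn_zero : cn 0 = 1 := by simp [cn]

lemma F_zero {q : ℝ} (h0 : 0 ≤ q) (h1 : q ≤ 1) (t : ℝ) : F 0 q t = p0 q := by
  have hk : kk 0 q = 0 := by rw [kk]; exact max_eq_right (by linarith)
  have hm : min 0 q = 0 := min_eq_left h0
  have hD : De 0 = 0 := by rw [De, sn_zero]; ring
  rw [F, Wf, Rf, hk, hm, p0, p2, p3, hD]
  simp

lemma sn_add (a b : ℝ) : sn (a + b) = sn a * cn b + cn a * sn b := by
  rw [sn, sn, cn, cn, sn, ← Real.sin_add]; congr 1; ring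

lemma cn_add (a b : ℝ) : cn (a + b) = cn a * cn b - sn a * sn b := by
  rw [cn, cn, sn, sn, cn, ← Real.cos_add]; congr 1; ring

lemma sn_two_sub (a : ℝ) : sn (2 - a) = sn a := by
  rw [sn, sn, show π * (2 - a) / 2 = π - π * a / 2 by ring, Real.sin_pi_sub]

lemma cn_two_sub (a : ℝ) : cn (2 - a) = - cn a := by
  rw [cn, cn, show π * (2 - a) / 2 = π - π * a / 2 by ring, Real.cos_pi_sub]

lemma sq_add_sq (a : ℝ) : sn a ^ 2 + cn a ^ 2 = 1 := by
  rw [sn, cn, Real.sin_sq_add_cos_sq]

lemma sn_pos {a : ℝ} (h0 : 0 < a) (h1 : a ≤ 1) : 0 < sn a := by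
  have hp := Real.pi_pos
  refine Real.sin_pos_of_pos_of_lt_pi (by positivity) ?_
  nlinarith

theorem one {a b c : ℝ} (ha : 0 ≤ a) (hab : a ≤ b) (hbc : b ≤ c) (hc : c ≤ 1) (h : c = a + b) :
    Gf a b c 1 = 0 := by
  have e1 : F a b (tt a b c 1) = F a b (-1) := by
    rcases eq_or_lt_of_le ha with h0 | h0
    · rw [← h0, F_zero (by linarith) (by linarith), F_zero (by linarith) (by linarith)]
    · have sa := sn_pos h0 (by linarith)
      have sb : 0 < sn b := sn_pos (by linarith) (by linarith)
      have : tt a b c 1 = -1 := by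
        rw [tt, h, cn_add]; field_simp; ring
      rw [this]
  have e2 : F a c (tt a c b 1) = F a c 1 := by
    rcases eq_or_lt_of_le ha with h0 | h0
    · rw [← h0, F_zero (by linarith) (by linarith), F_zero (by linarith) (by linarith)]
    · have sa := sn_pos h0 (by linarith)
      have sc : 0 < sn c := sn_pos (by linarith) (by linarith)
      have : tt a c b 1 = 1 := by
        rw [tt, div_eq_one_iff_eq (by positivity), h, sn_add, cn_add]
        linear_combination (-cn b) * sq_add_sq a
      rw [this]
  have e3 : F b c (tt b c a 1) = F b c 1 := by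
    rcases eq_or_lt_of_le (ha.trans hab) with h0 | h0
    · rw [← h0, F_zero (by linarith) (by linarith), F_zero (by linarith) (by linarith)]
    · have sb := sn_pos h0 (by linarith)
      have sc : 0 < sn c := sn_pos (by linarith) (by linarith)
      have : tt b c a 1 = 1 := by
        rw [tt, div_eq_one_iff_eq (by positivity), h, sn_add, cn_add]
        linear_combination (-cn a) * sq_add_sq b
      rw [this]
  have k0 : kk a b = 0 := by rw [kk]; exact max_eq_right (by linarith)
  have m1 : min a b = a := min_eq_left hab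
  have m2 : min a c = a := min_eq_left (hab.trans hbc)
  have m3 : min b c = b := min_eq_left hbc
  rw [Gf, e1, e2, e3, F_neg_one, F_one, F_one, k0, m1, m2, m3, De, De, De]
  have sa := sq_add_sq a
  have sb := sq_add_sq b
  have hs : sn c = sn a * cn b + cn a * sn b := by rw [h, sn_add]
  have hcn : cn c = cn a * cn b - sn a * sn b := by rw [h, cn_add]
  rw [hs, hcn]
  generalize sn a = x at *
  generalize cn a = y at *
  generalize sn b = z at *
  generalize cn b = w at *
  rw [h]
  grind

theorem two {a b c : ℝ} (ha : 0 ≤ a) (hab : a ≤ b) (hbc : b ≤ c) (hc : c ≤ 1) (h : a + b + c = 2) :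
    Gf a b c (-1) = 0 := by
  have hc' : c = 2 - (a + b) := by linarith
  have hb0 : 0 < b := by linarith
  have hc0 : 0 < c := by linarith
  have hs : sn c = sn a * cn b + cn a * sn b := by rw [hc', sn_two_sub, sn_add]
  have hcn : cn c = -(cn a * cn b - sn a * sn b) := by rw [hc', cn_two_sub, cn_add]
  have sa2 := sq_add_sq a
  have sb2 := sq_add_sq b
  have e1 : F a b (tt a b c (-1)) = F a b (-1) := by
    rcases eq_or_lt_of_le ha with h0 | h0
    · rw [← h0, F_zero (by linarith) (by linarith), F_zero (by linarith) (by linarith)]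
    · have sa := sn_pos h0 (by linarith)
      have sb : 0 < sn b := sn_pos (by linarith) (by linarith)
      have : tt a b c (-1) = -1 := by
        rw [tt, hcn]; field_simp; ring
      rw [this]
  have e2 : F a c (tt a c b (-1)) = F a c (-1) := by
    rcases eq_or_lt_of_le ha with h0 | h0
    · rw [← h0, F_zero (by linarith) (by linarith), F_zero (by linarith) (by linarith)]
    · have sa := sn_pos h0 (by linarith)
      have sc : 0 < sn c := sn_pos (by linarith) (by linarith)
      have : tt a c b (-1) = -1 := by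
        rw [tt, div_eq_iff (by positivity), hs, hcn]
        linear_combination (cn b) * sa2
      rw [this]
  have e3 : F b c (tt b c a (-1)) = F b c (-1) := by
    have sb := sn_pos hb0 (by linarith)
    have sc : 0 < sn c := sn_pos (by linarith) (by linarith)
    have : tt b c a (-1) = -1 := by
      rw [tt, div_eq_iff (by positivity), hs, hcn]
      linear_combination (cn a) * sb2
    rw [this]
  have k1 : kk a b = a + b - 1 := by rw [kk]; exact max_eq_left (by linarith)
  have k2 : kk a c = a + c - 1 := by rw [kk]; exact max_eq_left (by linarith)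
  have k3 : kk b c = b + c - 1 := by rw [kk]; exact max_eq_left (by linarith)
  have m1 : min a b = a := min_eq_left hab
  have m2 : min a c = a := min_eq_left (hab.trans hbc)
  have m3 : min b c = b := min_eq_left hbc
  rw [Gf, e1, e2, e3, F_neg_one, F_neg_one, F_neg_one, k1, k2, k3, m1, m2, m3, De, De, De, hs, hcn]
  generalize sn a = x at *
  generalize cn a = y at *
  generalize sn b = z at *
  generalize cn b = w at *
  rw [hc']
  grind

end

end DEG_

theorem deg_proof : Stmt_DEG :=
  ⟨fun _ _ _ ha hab hbc hc h => DEG_.one ha hab hbc hc h,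
    fun _ _ _ ha hab hbc hc h => DEG_.two ha hab hbc hc h⟩

end Pool.Agent.FTA
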