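import Mathlib

/-! The objects of the problem: points of the sphere `S^d`, sum of the non-obtuse angles, periodic orthonormal
configurations. -/

open Real

namespace Pool.Agent.FTA

/-- the Euclidean space `R^(d+1)` -/
abbrev Eu (d : ℕ) := EuclideanSpace ℝ (Fin (d + 1))

/-- the non-obtuse angle between the lines `R x` and `R y` (for unit vectors `x`, `y`) -/
noncomputable def lineAngle {d : ℕ} (x y : Eu d) : ℝ := Real.arccos |inner ℝ x y|

/-- the sum of the angles over all ordered pairs, `i = j` included -/
noncomputable def energy {d N : ℕ} (x : Fin N → Eu d) : ℝ := ∑ i, ∑ j, lineAngle (x i) (x j)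

/-- periodic orthonormal configuration of length `N` (indices start with `0`): the first `d + 1` points are pairwise orthogonal
unit vectors, and `y_k = y_(k-(d+1))` for the others -/
structure PeriodicOrthonormal {d N : ℕ} (y : Fin N → Eu d) : Prop where
  unit : ∀ i, ‖y i‖ = 1
  orth : ∀ i j : Fin N, (i : ℕ) < d + 1 → (j : ℕ) < d + 1 → i ≠ j → inner ℝ (y i) (y j) = 0
  per : ∀ i j : Fin N, (i : ℕ) = (j : ℕ) + (d + 1) → y i = y j

end Pool.Agent.FTA
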