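import Pool.Agent.FTA.Stmts

/-!
# Module EAC: error of the polynomial for `(2 / pi) arccos t / sqrt (1 - t ^ 2)`

Power series in `u = 1 - t` up to degree 24 with a differential equation for the remainder, then
an expansion in cosines `cos (k th)`, `cos th = (16 / 9) u - 1`, with rational coefficients
computed by the kernel.
-/

open Real Finset

namespace Pool.Agent.FTA

namespace EAC_

/-! ## Cosine polynomials -/

/-- `sum l_i cos ((k + i) th)` -/
noncomputable def ev (th : ℝ) : ℕ → List ℚ → ℝ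
  | _, [] => 0
  | k, c :: l => (c : ℝ) * cos (k * th) + ev th (k + 1) l

def addL : List ℚ → List ℚ → List ℚ
  | [], m => m
  | l, [] => l
  | a :: l, b :: m => (a + b) :: addL l m

def smulL (r : ℚ) : List ℚ → List ℚ
  | [] => []
  | a :: l => r * a :: smulL r l

def mulW : List ℚ → List ℚ
  | [] => []
  | c :: l => addL [0, c] (smulL (1 / 2) (addL (0 :: 0 :: l) l))

def hor (x : ℝ) : List ℚ → ℝ
  | [] => 0
  | c :: l => (c : ℝ) + x * hor x l

/-- cosine coefficients of the polynomial with coefficient list `l` at `al + be w` -/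
def chh (al be : ℚ) : List ℚ → List ℚ
  | [] => []
  | c :: l => addL [c] (addL (smulL al (chh al be l)) (smulL be (mulW (chh al be l))))

def n1 : List ℚ → ℚ
  | [] => 0
  | c :: l => |c| + n1 l

def n2 : ℕ → List ℚ → ℚ
  | _, [] => 0
  | k, c :: l => (k * k : ℕ) * |c| + n2 (k + 1) l

theorem ev_addL (th : ℝ) : ∀ (l m : List ℚ) (k : ℕ), ev th k (addL l m) = ev th k l + ev th k m
  | [], m, k => by simp [addL, ev]
  | a :: l, [], k => by simp [addL, ev]
  | a :: l, b :: m, k => by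
    simp only [addL, ev, ev_addL th l m (k + 1)]
    push_cast; ring

theorem ev_smulL (th : ℝ) (r : ℚ) : ∀ (l : List ℚ) (k : ℕ), ev th k (smulL r l) = r * ev th k l
  | [], k => by simp [smulL, ev]
  | a :: l, k => by
    simp only [smulL, ev, ev_smulL th r l (k + 1)]
    push_cast; ring

theorem ev_mul_cos (th : ℝ) : ∀ (l : List ℚ) (k : ℕ),
    cos th * ev th (k + 1) l = (1 / 2) * (ev th (k + 2) l + ev th k l)
  | [], k => by simp [ev]
  | a :: l, k => by
    simp only [ev]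
    have h := ev_mul_cos th l (k + 1)
    have h2 : cos th * cos (((k + 1 : ℕ) : ℝ) * th)
        = (1 / 2) * (cos (((k + 2 : ℕ) : ℝ) * th) + cos ((k : ℝ) * th)) := by
      have e1 : ((k + 2 : ℕ) : ℝ) * th = ((k + 1 : ℕ) : ℝ) * th + th := by push_cast; ring
      have e2 : (k : ℝ) * th = ((k + 1 : ℕ) : ℝ) * th - th := by push_cast; ring
      rw [e1, e2, cos_add, cos_sub]; ring
    have e3 : k + 1 + 2 = k + 2 + 1 := by ring
    rw [e3] at h
    rw [mul_add, h]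
    have e4 : cos th * ((a : ℝ) * cos (((k + 1 : ℕ) : ℝ) * th))
      = (a : ℝ) * (cos th * cos (((k + 1 : ℕ) : ℝ) * th)) := by ring
    rw [e4, h2]; ring

theorem ev_mulW (th : ℝ) : ∀ l : List ℚ, ev th 0 (mulW l) = cos th * ev th 0 l
  | [] => by simp [mulW, ev]
  | c :: l => by
    have h : cos th * ev th (0 + 1) l = (1 / 2) * (ev th (0 + 1 + 1) l + ev th 0 l) :=
      ev_mul_cos th l 0
    simp only [mulW, ev_addL, ev_smulL]
    simp only [ev]
    push_cast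
    simp only [zero_add, zero_mul, cos_zero, mul_one, one_mul, add_zero]
    simp only [zero_add, one_add_one_eq_two] at h
    linear_combination -h

theorem ev_chh (th : ℝ) (al be : ℚ) : ∀ l : List ℚ,
    ev th 0 (chh al be l) = hor (al + be * cos th) l
  | [] => by simp [chh, ev, hor]
  | c :: l => by
    simp only [chh, ev_addL, ev_smulL, ev_mulW, ev_chh th al be l, hor]
    simp [ev]
    ring

theorem abs_ev (th : ℝ) : ∀ (l : List ℚ) (k : ℕ), |ev th k l| ≤ (n1 l : ℚ)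
  | [], k => by simp [ev, n1]
  | c :: l, k => by
    simp only [ev, n1]
    refine (abs_add_le _ _).trans ?_
    rw [abs_mul]
    push_cast
    have h1 := abs_cos_le_one (k * th)
    have h2 := abs_ev th l (k + 1)
    have h3 : |(c : ℝ)| * |cos (k * th)| ≤ |(c : ℝ)| := mul_le_of_le_one_right (abs_nonneg _) h1
    linarith

theorem abs_sin_nat (k : ℕ) (x : ℝ) : |sin (k * x)| ≤ k * |sin x| := by
  induction k with
  | zero => simp
  | succ k ih =>
    have e : ((k + 1 : ℕ) : ℝ) * x = k * x + x := by push_cast; ring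
    rw [e, sin_add]
    refine (abs_add_le _ _).trans ?_
    rw [abs_mul, abs_mul]
    have h1 := abs_cos_le_one (k * x)
    have h2 := abs_cos_le_one x
    have h3 : |sin (k * x)| * |cos x| ≤ |sin (k * x)| := mul_le_of_le_one_right (abs_nonneg _) h2
    have h4 : |cos (k * x)| * |sin x| ≤ |sin x| := mul_le_of_le_one_left (abs_nonneg _) h1
    push_cast
    linarith

theorem cos_nat_lip (k : ℕ) (x y : ℝ) :
    |cos (k * x) - cos (k * y)| ≤ (k * k : ℕ) * |cos x - cos y| := by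
  rw [cos_sub_cos, cos_sub_cos]
  have e1 : ((k : ℝ) * x + k * y) / 2 = k * ((x + y) / 2) := by ring
  have e2 : ((k : ℝ) * x - k * y) / 2 = k * ((x - y) / 2) := by ring
  rw [e1, e2, abs_mul, abs_mul, abs_mul, abs_mul]
  have h1 := abs_sin_nat k ((x + y) / 2)
  have h2 := abs_sin_nat k ((x - y) / 2)
  have h3 := mul_le_mul h1 h2 (abs_nonneg _) (by positivity)
  have h4 : |(-2 : ℝ)| = 2 := by norm_num
  rw [h4]
  push_cast
  nlinarith

theorem abs_ev_sub (x y : ℝ) : ∀ (l : List ℚ) (k : ℕ),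
    |ev x k l - ev y k l| ≤ (n2 k l : ℚ) * |cos x - cos y|
  | [], k => by simp [ev, n2]
  | c :: l, k => by
    simp only [ev, n2]
    have e : (c : ℝ) * cos (k * x) + ev x (k + 1) l - (c * cos (k * y) + ev y (k + 1) l)
        = c * (cos (k * x) - cos (k * y)) + (ev x (k + 1) l - ev y (k + 1) l) := by ring
    rw [e]
    refine (abs_add_le _ _).trans ?_
    rw [abs_mul]
    have h1 := mul_le_mul_of_nonneg_left (cos_nat_lip k x y) (abs_nonneg (c : ℝ))
    have h2 := abs_ev_sub x y l (k + 1)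
    push_cast at h1 h2 ⊢
    nlinarith

/-! ## The series -/

def bq : ℕ → ℚ
  | 0 => 1
  | n + 1 => ((n + 1 : ℕ) : ℚ) / ((2 * n + 3 : ℕ) : ℚ) * bq n

theorem bq_pos : ∀ n, 0 < bq n
  | 0 => by simp [bq]
  | n + 1 => by
    have := bq_pos n
    simp only [bq]
    positivity

theorem bq_succ (n : ℕ) : ((2 * n + 3 : ℕ) : ℝ) * (bq (n + 1) : ℝ) = ((n + 1 : ℕ) : ℝ) * (bq n : ℝ) := by
  simp only [bq]
  push_cast
  field_simp

/-- partial sums `Q_M` (number of terms `M + 1`) and the derivative -/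
def Q (M : ℕ) (u : ℝ) : ℝ := ∑ n ∈ range (M + 1), (bq n : ℝ) * u ^ n
def Q' (M : ℕ) (u : ℝ) : ℝ := ∑ n ∈ range (M + 1), (bq n : ℝ) * (n * u ^ (n - 1))

theorem hasDerivAt_Q (M : ℕ) (u : ℝ) : HasDerivAt (Q M) (Q' M u) u := by
  unfold Q Q'
  refine HasDerivAt.fun_sum fun n _ => ?_
  exact (hasDerivAt_pow n u).const_mul _

theorem ode (M : ℕ) (u : ℝ) :
    -(u * (2 - u)) * Q' M u - (1 - u) * Q M u + 1 = (M + 1) * bq M * u ^ (M + 1) := by
  induction M with
  | zero => simp [Q, Q', bq]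
  | succ M ih =>
    have e1 : Q (M + 1) u = Q M u + bq (M + 1) * u ^ (M + 1) := by
      unfold Q; rw [sum_range_succ]
    have e2 : Q' (M + 1) u = Q' M u + bq (M + 1) * (((M + 1 : ℕ) : ℝ) * u ^ M) := by
      unfold Q'; rw [sum_range_succ]; rfl
    have h := bq_succ M
    rw [e1, e2]
    push_cast at h ⊢
    have e3 : u ^ (M + 1 + 1) = u * u * u ^ M := by ring
    have e4 : u ^ (M + 1) = u * u ^ M := by ring
    rw [e4] at ih
    rw [e3, e4]
    linear_combination ih - u * u ^ M * h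

/-- coefficient lists -/
def hq (f : ℕ → ℚ) : ℕ → ℕ → List ℚ
  | _, 0 => []
  | s, n + 1 => f s :: hq f (s + 1) n

theorem hor_hq (f : ℕ → ℚ) (x : ℝ) : ∀ (n s : ℕ),
    hor x (hq f s n) = ∑ i ∈ range n, (f (s + i) : ℝ) * x ^ i
  | 0, s => by simp [hq, hor]
  | n + 1, s => by
    simp only [hq, hor, hor_hq f x n (s + 1)]
    rw [sum_range_succ', mul_sum]
    simp only [pow_zero, mul_one, add_zero]
    rw [add_comm]
    congr 1
    refine sum_congr rfl fun i _ => ?_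
    have : s + 1 + i = s + (i + 1) := by ring
    rw [this]; ring

def bL : List ℚ := hq bq 0 25
def toQ (c : Bool × ℕ) : ℚ := (if c.1 = true then -1 else 1) * (c.2 : ℚ) / 2 ^ 30
def aL : List ℚ := acC.map toQ

def AL : List ℚ := chh (9 / 16) (9 / 16) bL
def BL : List ℚ := chh (7 / 16) (-9 / 16) aL
def rho0 : ℚ := 6366197723675814 / 10000000000000000
def DL : List ℚ := addL (smulL rho0 AL) (smulL (-1) BL)

theorem k1 : n1 AL ≤ 2 ∧ n2 0 AL ≤ 1 := by decide +kernel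
theorem k2 : n1 DL ≤ 600 / 2 ^ 30 ∧ n2 0 DL ≤ 40000 / 2 ^ 30 := by decide +kernel

/-! ## The remainder -/

theorem continuous_Q : Continuous (Q 24) :=
  continuous_iff_continuousAt.2 fun u => (hasDerivAt_Q 24 u).continuousAt

theorem one_sub_pos {t : ℝ} (h1 : -(1 / 8) ≤ t) (h2 : t < 1) : 0 < 1 - t ^ 2 := by nlinarith

theorem hasDerivAt_sq {t : ℝ} (h : 0 < 1 - t ^ 2) :
    HasDerivAt (fun t : ℝ => √(1 - t ^ 2)) (-t / √(1 - t ^ 2)) t := by
  have h1 : HasDerivAt (fun t : ℝ => 1 - t ^ 2) (-(2 * t)) t := by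
    have := (hasDerivAt_pow 2 t).const_sub 1
    simpa using this
  have h2 := h1.sqrt h.ne'
  have e : -(2 * t) / (2 * √(1 - t ^ 2)) = -t / √(1 - t ^ 2) := by
    have : √(1 - t ^ 2) ≠ 0 := (Real.sqrt_pos.2 h).ne'
    field_simp
  rwa [e] at h2

theorem hasDerivAt_Qc (t : ℝ) : HasDerivAt (fun t : ℝ => Q 24 (1 - t)) (-(Q' 24 (1 - t))) t :=
  (hasDerivAt_Q 24 (1 - t)).comp_const_sub 1 t

theorem ode' (t : ℝ) :
    -(1 - t ^ 2) * Q' 24 (1 - t) - t * Q 24 (1 - t) + 1 = 25 * bq 24 * (1 - t) ^ 25 := by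
  have h := ode 24 (1 - t)
  push_cast at h
  have e : (24 : ℝ) + 1 = 25 := by norm_num
  rw [e] at h
  linear_combination h

noncomputable def Hf (t : ℝ) : ℝ := arccos t - √(1 - t ^ 2) * Q 24 (1 - t)

theorem continuous_s : Continuous (fun t : ℝ => √(1 - t ^ 2)) := by fun_prop

theorem continuous_Hf : Continuous Hf := by
  unfold Hf
  exact Real.continuous_arccos.sub (continuous_s.mul (continuous_Q.comp (by fun_prop)))

theorem hasDerivAt_Hf {t : ℝ} (h1 : -(1 / 8) ≤ t) (h2 : t < 1) :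
    HasDerivAt Hf (-(25 * bq 24 * (1 - t) ^ 25) / √(1 - t ^ 2)) t := by
  have hp := one_sub_pos h1 h2
  have ha := Real.hasDerivAt_arccos (x := t) (by linarith) h2.ne
  have h := ha.sub ((hasDerivAt_sq hp).mul (hasDerivAt_Qc t))
  have hs : 0 < √(1 - t ^ 2) := Real.sqrt_pos.2 hp
  have hs2 : √(1 - t ^ 2) ^ 2 = 1 - t ^ 2 := Real.sq_sqrt hp.le
  refine h.congr_deriv ?_
  have ho := ode' t
  field_simp
  rw [hs2]
  linear_combination -ho

theorem bpos : (0 : ℝ) < bq 24 := by exact_mod_cast bq_pos 24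

theorem Hf_nonneg {t : ℝ} (h1 : -(1 / 8) ≤ t) (h2 : t ≤ 1) : 0 ≤ Hf t := by
  have anti : AntitoneOn Hf (Set.Icc (-(1 / 8)) 1) := by
    refine antitoneOn_of_deriv_nonpos (convex_Icc _ _) continuous_Hf.continuousOn ?_ ?_
    · intro x hx
      rw [interior_Icc] at hx
      exact (hasDerivAt_Hf hx.1.le hx.2).differentiableAt.differentiableWithinAt
    · intro x hx
      rw [interior_Icc] at hx
      rw [(hasDerivAt_Hf hx.1.le hx.2).deriv]
      have := bpos
      have h3 : 0 < 1 - x := by linarith [hx.2]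
      have h4 : 0 ≤ √(1 - x ^ 2) := Real.sqrt_nonneg _
      rw [neg_div]
      exact neg_nonpos.2 (by positivity)
  have h := anti ⟨h1, h2⟩ ⟨by norm_num, le_refl _⟩ h2
  have e : Hf 1 = 0 := by simp [Hf]
  rwa [e] at h

noncomputable def Kf (t : ℝ) : ℝ := 100 / 87 * bq 24 * (√(1 - t ^ 2) * (1 - t) ^ 25) - Hf t

theorem hasDerivAt_Kf {t : ℝ} (h1 : -(1 / 8) ≤ t) (h2 : t < 1) :
    HasDerivAt Kf (bq 24 * (1 - t) ^ 25 * (25 - 100 / 87 * (t + 25 * (1 + t))) / √(1 - t ^ 2)) t := by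
  have hp := one_sub_pos h1 h2
  have hs : 0 < √(1 - t ^ 2) := Real.sqrt_pos.2 hp
  have hs2 : √(1 - t ^ 2) ^ 2 = 1 - t ^ 2 := Real.sq_sqrt hp.le
  have hq : HasDerivAt (fun t : ℝ => (1 - t) ^ 25) (-(25 * (1 - t) ^ 24)) t := by
    have h3 : HasDerivAt (fun t : ℝ => 1 - t) (-1) t := by
      simpa using (hasDerivAt_id t).const_sub 1
    have h4 := h3.pow 25
    refine h4.congr_deriv ?_
    push_cast; ring
  have h := (((hasDerivAt_sq hp).mul hq).const_mul (100 / 87 * (bq 24 : ℝ))).sub (hasDerivAt_Hf h1 h2)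
  refine h.congr_deriv ?_
  have e25 : (1 - t) ^ 25 = (1 - t) * (1 - t) ^ 24 := by ring
  field_simp
  rw [hs2, e25]
  ring

theorem Kf_nonneg {t : ℝ} (h1 : -(1 / 8) ≤ t) (h2 : t ≤ 1) : 0 ≤ Kf t := by
  have anti : AntitoneOn Kf (Set.Icc (-(1 / 8)) 1) := by
    refine antitoneOn_of_deriv_nonpos (convex_Icc _ _) ?_ ?_ ?_
    · refine Continuous.continuousOn ?_
      unfold Kf
      refine Continuous.sub ?_ continuous_Hf
      exact continuous_const.mul (continuous_s.mul (by fun_prop))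
    · intro x hx
      rw [interior_Icc] at hx
      exact (hasDerivAt_Kf hx.1.le hx.2).differentiableAt.differentiableWithinAt
    · intro x hx
      rw [interior_Icc] at hx
      rw [(hasDerivAt_Kf hx.1.le hx.2).deriv]
      have := bpos
      have h3 : 0 < 1 - x := by linarith [hx.2]
      have h4 : 0 ≤ √(1 - x ^ 2) := Real.sqrt_nonneg _
      have h5 : 25 - 100 / 87 * (x + 25 * (1 + x)) ≤ 0 := by linarith [hx.1]
      refine div_nonpos_of_nonpos_of_nonneg ?_ h4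
      exact mul_nonpos_of_nonneg_of_nonpos (by positivity) h5
  have h := anti ⟨h1, h2⟩ ⟨by norm_num, le_refl _⟩ h2
  have e : Kf 1 = 0 := by simp [Kf, Hf]
  rwa [e] at h

/-- remainder -/
noncomputable def er (t : ℝ) : ℝ := arccos t / √(1 - t ^ 2) - Q 24 (1 - t)

theorem er_bounds {t : ℝ} (h1 : -(1 / 8) ≤ t) (h2 : t < 1) :
    0 ≤ er t ∧ er t ≤ 100 / 87 * bq 24 * (1 - t) ^ 25 := by
  have hp := one_sub_pos h1 h2
  have hs : 0 < √(1 - t ^ 2) := Real.sqrt_pos.2 hp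
  have e : er t = Hf t / √(1 - t ^ 2) := by
    unfold er Hf
    field_simp
  rw [e]
  constructor
  · exact div_nonneg (Hf_nonneg h1 h2.le) hs.le
  · rw [div_le_iff₀ hs]
    have := Kf_nonneg h1 h2.le
    unfold Kf at this
    linarith

theorem hasDerivAt_er {t : ℝ} (h1 : -(1 / 8) ≤ t) (h2 : t < 1) :
    HasDerivAt er ((t * er t - 25 * bq 24 * (1 - t) ^ 25) / (1 - t ^ 2)) t := by
  have hp := one_sub_pos h1 h2
  have hs : 0 < √(1 - t ^ 2) := Real.sqrt_pos.2 hp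
  have hs2 : √(1 - t ^ 2) ^ 2 = 1 - t ^ 2 := Real.sq_sqrt hp.le
  have ha := Real.hasDerivAt_arccos (x := t) (by linarith) h2.ne
  have h := (ha.div (hasDerivAt_sq hp) hs.ne').sub (hasDerivAt_Qc t)
  refine h.congr_deriv ?_
  have ho := ode' t
  unfold er
  rw [← ho]
  clear ho h ha
  generalize √(1 - t ^ 2) = s at *
  rw [← hs2]
  field_simp
  ring

theorem b1 : (100 / 87 : ℝ) * bq 24 * (9 / 8) ^ 25 ≤ 260 / 2 ^ 30 := by
  have h : (100 / 87 : ℚ) * bq 24 * (9 / 8) ^ 25 ≤ 260 / 2 ^ 30 := by decide +kernel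
  have h' := (Rat.cast_le (K := ℝ)).2 h
  push_cast at h'
  exact h'

theorem b2 : (8 / 7 : ℝ) * (100 / 87 * bq 24 + 25 * bq 24) * (9 / 8) ^ 24 ≤ 6000 / 2 ^ 30 := by
  have h : (8 / 7 : ℚ) * (100 / 87 * bq 24 + 25 * bq 24) * (9 / 8) ^ 24 ≤ 6000 / 2 ^ 30 := by
    decide +kernel
  have h' := (Rat.cast_le (K := ℝ)).2 h
  push_cast at h'
  exact h'

theorem er_deriv_bound {t : ℝ} (h1 : -(1 / 8) ≤ t) (h2 : t < 1) :
    |(t * er t - 25 * bq 24 * (1 - t) ^ 25) / (1 - t ^ 2)| ≤ 6000 / 2 ^ 30 := by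
  have hp := one_sub_pos h1 h2
  obtain ⟨h3, h4⟩ := er_bounds h1 h2
  have hu : 0 < 1 - t := by linarith
  have hb := bpos
  rw [abs_div, abs_of_pos hp, div_le_iff₀ hp]
  have h5 : |t * er t - 25 * bq 24 * (1 - t) ^ 25| ≤ (100 / 87 * bq 24 + 25 * bq 24) * (1 - t) ^ 25 := by
    refine (abs_sub _ _).trans ?_
    rw [abs_mul, abs_of_nonneg h3, abs_of_nonneg (by positivity : (0 : ℝ) ≤ 25 * bq 24 * (1 - t) ^ 25)]
    have h6 : |t| ≤ 1 := abs_le.2 ⟨by linarith, h2.le⟩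
    have h7 : |t| * er t ≤ er t := mul_le_of_le_one_left h3 h6
    linarith
  have h8 : (1 - t) ^ 24 ≤ (9 / 8 : ℝ) ^ 24 := pow_le_pow_left₀ hu.le (by linarith) 24
  have h9 : 7 / 8 * (1 - t) ≤ 1 - t ^ 2 := by nlinarith
  have h10 : (100 / 87 * bq 24 + 25 * bq 24) * (1 - t) ^ 25
      ≤ (8 / 7 : ℝ) * (100 / 87 * bq 24 + 25 * bq 24) * (9 / 8) ^ 24 * (7 / 8 * (1 - t)) := by
    have e : (1 - t) ^ 25 = (1 - t) ^ 24 * (1 - t) := by ring
    rw [e]
    have h11 : (100 / 87 * bq 24 + 25 * bq 24) * ((1 - t) ^ 24 * (1 - t))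
      ≤ (100 / 87 * bq 24 + 25 * bq 24) * ((9 / 8 : ℝ) ^ 24 * (1 - t)) := by
      refine mul_le_mul_of_nonneg_left ?_ (by positivity)
      exact mul_le_mul_of_nonneg_right h8 hu.le
    linarith
  have h12 := mul_le_mul_of_nonneg_right b2 (by positivity : 0 ≤ 7 / 8 * (1 - t))
  have h13 := mul_le_mul_of_nonneg_left h9 (by positivity : (0 : ℝ) ≤ 6000 / 2 ^ 30)
  linarith

/-- remainder on the closed interval -/
noncomputable def er1 (t : ℝ) : ℝ := if t = 1 then 0 else er t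

theorem er1_abs {t : ℝ} (h1 : -(1 / 8) ≤ t) (h2 : t ≤ 1) : |er1 t| ≤ 260 / 2 ^ 30 := by
  unfold er1
  split_ifs with h
  · rw [abs_zero]; positivity
  · have h3 : t < 1 := lt_of_le_of_ne h2 h
    obtain ⟨h4, h5⟩ := er_bounds h1 h3
    have hu : 0 < 1 - t := by linarith
    have hb := bpos
    have h8 : (1 - t) ^ 25 ≤ (9 / 8 : ℝ) ^ 25 := pow_le_pow_left₀ hu.le (by linarith) 25
    have h9 := mul_le_mul_of_nonneg_left h8 (by positivity : (0 : ℝ) ≤ 100 / 87 * bq 24)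
    rw [abs_of_nonneg h4]
    linarith [b1]

theorem er1_one {t : ℝ} (h1 : -(1 / 8) ≤ t) (h2 : t < 1) : |er t| ≤ 6000 / 2 ^ 30 * |t - 1| := by
  obtain ⟨h4, h5⟩ := er_bounds h1 h2
  have hu : 0 < 1 - t := by linarith
  have hb := bpos
  rw [abs_of_nonneg h4, abs_of_neg (by linarith : t - 1 < 0)]
  have h8 : (1 - t) ^ 24 ≤ (9 / 8 : ℝ) ^ 24 := pow_le_pow_left₀ hu.le (by linarith) 24
  have h9 : 100 / 87 * bq 24 * (1 - t) ^ 25
      ≤ (8 / 7 : ℝ) * (100 / 87 * bq 24 + 25 * bq 24) * (9 / 8) ^ 24 * (1 - t) := by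
    have e : (1 - t) ^ 25 = (1 - t) ^ 24 * (1 - t) := by ring
    rw [e]
    have h11 : (100 / 87 * bq 24) * ((1 - t) ^ 24 * (1 - t))
      ≤ (100 / 87 * bq 24) * ((9 / 8 : ℝ) ^ 24 * (1 - t)) := by
      refine mul_le_mul_of_nonneg_left ?_ (by positivity)
      exact mul_le_mul_of_nonneg_right h8 hu.le
    have h12 : (100 / 87 * (bq 24 : ℝ)) ≤ (8 / 7 : ℝ) * (100 / 87 * bq 24 + 25 * bq 24) := by
      linarith
    have h13 := mul_le_mul_of_nonneg_right h12 (by positivity : 0 ≤ (9 / 8 : ℝ) ^ 24 * (1 - t))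
    linarith
  have h12 := mul_le_mul_of_nonneg_right b2 hu.le
  linarith

theorem er1_lip {x y : ℝ} (hx1 : -(1 / 8) ≤ x) (hx2 : x ≤ 1) (hy1 : -(1 / 8) ≤ y) (hy2 : y ≤ 1) :
    |er1 x - er1 y| ≤ 6000 / 2 ^ 30 * |x - y| := by
  unfold er1
  split_ifs with h h' h'
  · rw [sub_self, abs_zero]; positivity
  · have hy3 : y < 1 := lt_of_le_of_ne hy2 h'
    have := er1_one hy1 hy3
    rw [h, zero_sub, abs_neg, abs_sub_comm]
    exact this
  · have hx3 : x < 1 := lt_of_le_of_ne hx2 h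
    have := er1_one hx1 hx3
    rw [h', sub_zero]
    exact this
  · have hy3 : y < 1 := lt_of_le_of_ne hy2 h'
    have hx3 : x < 1 := lt_of_le_of_ne hx2 h
    have hc : Convex ℝ (Set.Ico (-(1 / 8) : ℝ) 1) := convex_Ico _ _
    have := Convex.norm_image_sub_le_of_norm_hasDerivWithin_le (f := er)
      (f' := fun t => (t * er t - 25 * bq 24 * (1 - t) ^ 25) / (1 - t ^ 2))
      (s := Set.Ico (-(1 / 8) : ℝ) 1) (C := 6000 / 2 ^ 30)
      (fun t ht => (hasDerivAt_er ht.1 ht.2).hasDerivWithinAt)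
      (fun t ht => er_deriv_bound ht.1 ht.2) hc ⟨hy1, hy3⟩ ⟨hx1, hx3⟩
    exact this

/-! ## The polynomial part -/

theorem toQ_cast (c : Bool × ℕ) : ((toQ c : ℚ) : ℝ) = dy c.1 c.2 30 := by
  unfold toQ dy
  push_cast
  split_ifs <;> simp

theorem pv_eq (x : ℝ) : ∀ l : List (Bool × ℕ), pv x l = hor x (l.map toQ)
  | [] => by simp [pv, hor, dy]
  | [c] => by simp [pv, hor, toQ_cast]
  | c :: d :: l => by
    have h := pv_eq x (d :: l)
    have h2 : pv x (c :: d :: l) = dy c.1 c.2 30 + x * pv x (d :: l) := rfl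
    have h3 : hor x ((c :: d :: l).map toQ) = ((toQ c : ℚ) : ℝ) + x * hor x ((d :: l).map toQ) := rfl
    rw [h2, h3, h, toQ_cast]

noncomputable def th (t : ℝ) : ℝ := arccos (16 / 9 * (1 - t) - 1)

theorem cos_th {t : ℝ} (h1 : -(1 / 8) ≤ t) (h2 : t ≤ 1) : cos (th t) = 16 / 9 * (1 - t) - 1 := by
  unfold th
  exact Real.cos_arccos (by linarith) (by linarith)

theorem Q_eq {t : ℝ} (h1 : -(1 / 8) ≤ t) (h2 : t ≤ 1) : Q 24 (1 - t) = ev (th t) 0 AL := by
  unfold AL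
  rw [ev_chh, cos_th h1 h2]
  have e : (((9 / 16 : ℚ) : ℝ) + ((9 / 16 : ℚ) : ℝ) * (16 / 9 * (1 - t) - 1)) = 1 - t := by
    push_cast; ring
  rw [e]
  unfold bL
  rw [hor_hq]
  unfold Q
  simp

theorem P_eq {t : ℝ} (h1 : -(1 / 8) ≤ t) (h2 : t ≤ 1) : pv t acC = ev (th t) 0 BL := by
  unfold BL
  rw [ev_chh, cos_th h1 h2]
  have e : (((7 / 16 : ℚ) : ℝ) + ((-9 / 16 : ℚ) : ℝ) * (16 / 9 * (1 - t) - 1)) = t := by
    push_cast; ring
  rw [e, pv_eq]
  rfl

theorem rho_bd : |2 / π - (rho0 : ℝ)| ≤ 1 / 10 ^ 12 := by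
  have h1 := Real.pi_gt_d20
  have h2 := Real.pi_lt_d20
  have hp := Real.pi_pos
  unfold rho0
  push_cast
  rw [abs_le]
  constructor
  · have : (6366197723675814 / 10000000000000000 - 1 / 10 ^ 12 : ℝ) ≤ 2 / π := by
      rw [le_div_iff₀ hp]; nlinarith
    linarith
  · have : 2 / π ≤ (6366197723675814 / 10000000000000000 + 1 / 10 ^ 12 : ℝ) := by
      rw [div_le_iff₀ hp]; nlinarith
    linarith

theorem rho_le : 2 / π ≤ 1 := by
  rw [div_le_one Real.pi_pos]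
  linarith [Real.pi_gt_three]

theorem acR_eq {t : ℝ} : acR t = 2 / π * (er1 t + Q 24 (1 - t)) := by
  unfold acR er1
  split_ifs with h
  · rw [h]
    have : Q 24 (1 - 1) = 1 := by
      unfold Q
      rw [sub_self, sum_eq_single 0]
      · simp [bq]
      · intro b _ hb
        simp [hb]
      · simp
    rw [this]; ring
  · unfold er
    ring

theorem main_eq {t : ℝ} (h1 : -(1 / 8) ≤ t) (h2 : t ≤ 1) :
    acR t - pv t acC = 2 / π * er1 t + (ev (th t) 0 DL + (2 / π - rho0) * ev (th t) 0 AL) := by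
  unfold DL
  rw [acR_eq, P_eq h1 h2, Q_eq h1 h2, ev_addL, ev_smulL, ev_smulL]
  push_cast
  ring

theorem castLe {a b : ℚ} (h : a ≤ b) : (a : ℝ) ≤ b := (Rat.cast_le (K := ℝ)).2 h

theorem main_abs {t : ℝ} (h1 : -(1 / 8) ≤ t) (h2 : t ≤ 1) :
    |acR t - pv t acC| ≤ 2048 / 2 ^ 30 := by
  rw [main_eq h1 h2]
  have e1 := er1_abs h1 h2
  have e2 := abs_ev (th t) DL 0
  have e3 := abs_ev (th t) AL 0
  have e4 := castLe k2.1
  have e5 := castLe k1.1
  have e6 := rho_bd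
  have e7 := rho_le
  have e8 : 0 ≤ 2 / π := by positivity
  push_cast at e4 e5
  have f1 : |2 / π * er1 t| ≤ 260 / 2 ^ 30 := by
    rw [abs_mul, abs_of_nonneg e8]
    have := mul_le_of_le_one_left (abs_nonneg (er1 t)) e7
    linarith
  have f2 : |(2 / π - rho0) * ev (th t) 0 AL| ≤ 1 / 10 ^ 12 * 2 := by
    rw [abs_mul]
    exact mul_le_mul e6 (by linarith) (abs_nonneg _) (by positivity)
  have f3 := abs_add_le (2 / π * er1 t) (ev (th t) 0 DL + (2 / π - rho0) * ev (th t) 0 AL)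
  have f4 := abs_add_le (ev (th t) 0 DL) ((2 / π - rho0) * ev (th t) 0 AL)
  have f5 : (260 / 2 ^ 30 + 600 / 2 ^ 30 + 1 / 10 ^ 12 * 2 : ℝ) ≤ 2048 / 2 ^ 30 := by norm_num
  linarith

theorem main_lip {x y : ℝ} (hx1 : -(1 / 8) ≤ x) (hx2 : x ≤ 1) (hy1 : -(1 / 8) ≤ y) (hy2 : y ≤ 1) :
    |(acR x - pv x acC) - (acR y - pv y acC)| ≤ 262144 / 2 ^ 30 * |x - y| := by
  rw [main_eq hx1 hx2, main_eq hy1 hy2]
  have e1 := er1_lip hx1 hx2 hy1 hy2
  have e2 := abs_ev_sub (th x) (th y) DL 0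
  have e3 := abs_ev_sub (th x) (th y) AL 0
  have e4 := castLe k2.2
  have e5 := castLe k1.2
  have e6 := rho_bd
  have e7 := rho_le
  have e8 : 0 ≤ 2 / π := by positivity
  push_cast at e4 e5
  have ec : |cos (th x) - cos (th y)| = 16 / 9 * |x - y| := by
    rw [cos_th hx1 hx2, cos_th hy1 hy2]
    have : 16 / 9 * (1 - x) - 1 - (16 / 9 * (1 - y) - 1) = -(16 / 9) * (x - y) := by ring
    rw [this, abs_mul]
    norm_num
  rw [ec] at e2 e3
  set d := |x - y| with hd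
  have hd0 : 0 ≤ d := abs_nonneg _
  have f1 : |2 / π * (er1 x - er1 y)| ≤ 6000 / 2 ^ 30 * d := by
    rw [abs_mul, abs_of_nonneg e8]
    have := mul_le_of_le_one_left (abs_nonneg (er1 x - er1 y)) e7
    linarith
  have f2 : |(2 / π - rho0) * (ev (th x) 0 AL - ev (th y) 0 AL)| ≤ 1 / 10 ^ 12 * (16 / 9 * d) := by
    rw [abs_mul]
    refine mul_le_mul e6 ?_ (abs_nonneg _) (by positivity)
    refine e3.trans ?_
    have := mul_le_mul_of_nonneg_right e5 (by positivity : 0 ≤ 16 / 9 * d)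
    linarith
  have f0 : |ev (th x) 0 DL - ev (th y) 0 DL| ≤ 40000 / 2 ^ 30 * (16 / 9 * d) := by
    refine e2.trans ?_
    exact mul_le_mul_of_nonneg_right e4 (by positivity : 0 ≤ 16 / 9 * d)
  have eq1 : 2 / π * er1 x + (ev (th x) 0 DL + (2 / π - rho0) * ev (th x) 0 AL)
      - (2 / π * er1 y + (ev (th y) 0 DL + (2 / π - rho0) * ev (th y) 0 AL))
      = 2 / π * (er1 x - er1 y) + ((ev (th x) 0 DL - ev (th y) 0 DL)
        + (2 / π - rho0) * (ev (th x) 0 AL - ev (th y) 0 AL)) := by ring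
  rw [eq1]
  have f3 := abs_add_le (2 / π * (er1 x - er1 y)) ((ev (th x) 0 DL - ev (th y) 0 DL)
        + (2 / π - rho0) * (ev (th x) 0 AL - ev (th y) 0 AL))
  have f4 := abs_add_le (ev (th x) 0 DL - ev (th y) 0 DL)
    ((2 / π - rho0) * (ev (th x) 0 AL - ev (th y) 0 AL))
  have f5 : (6000 / 2 ^ 30 + 40000 / 2 ^ 30 * (16 / 9) + 1 / 10 ^ 12 * (16 / 9) : ℝ)
      ≤ 262144 / 2 ^ 30 := by norm_num
  have f6 := mul_le_mul_of_nonneg_right f5 hd0
  linarith

theorem cl8_mem (x : ℝ) : -(1 / 8) ≤ cl8 x ∧ cl8 x ≤ 1 := by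
  unfold cl8
  refine ⟨le_max_left _ _, max_le (by norm_num) (min_le_left _ _)⟩

theorem cl8_lip (x y : ℝ) : |cl8 x - cl8 y| ≤ |x - y| := by
  unfold cl8
  refine (abs_max_sub_max_le_max _ _ _ _).trans ?_
  rw [sub_self, abs_zero]
  refine max_le (abs_nonneg _) ?_
  refine (abs_min_sub_min_le_max _ _ _ _).trans ?_
  rw [sub_self, abs_zero]
  exact max_le (abs_nonneg _) le_rfl

end EAC_

theorem eac_proof : Stmt_EAC := by
  refine ⟨fun x => ?_, fun x y => ?_⟩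
  · exact EAC_.main_abs (EAC_.cl8_mem x).1 (EAC_.cl8_mem x).2
  · have h := EAC_.main_lip (EAC_.cl8_mem x).1 (EAC_.cl8_mem x).2 (EAC_.cl8_mem y).1 (EAC_.cl8_mem y).2
    have h2 := mul_le_mul_of_nonneg_left (EAC_.cl8_lip x y)
      (by positivity : (0 : ℝ) ≤ 262144 / 2 ^ 30)
    exact h.trans h2

end Pool.Agent.FTA
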