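import Pool.Agent.FTA.Stmts

/-! Squad FTA, module EAS: the error of the polynomial for `(2 / pi) arcsin (sqrt v) / sqrt v`. -/

open Real

namespace Pool.Agent.FTA
namespace EAS_

/-- partial sum of `arcsin z / z`, `v = z ^ 2` -/
noncomputable def P (v : ℝ) : ℝ :=
  1 + (1 / 6) * v ^ 1 + (3 / 40) * v ^ 2 + (5 / 112) * v ^ 3 + (35 / 1152) * v ^ 4 + (63 / 2816) * v ^ 5 +
    (231 / 13312) * v ^ 6 + (143 / 10240) * v ^ 7 + (6435 / 557056) * v ^ 8 + (12155 / 1245184) * v ^ 9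

/-- partial sum of `1 / sqrt (1 - v)` -/
noncomputable def Q (v : ℝ) : ℝ :=
  1 + (1 / 2) * v ^ 1 + (3 / 8) * v ^ 2 + (5 / 16) * v ^ 3 + (35 / 128) * v ^ 4 + (63 / 256) * v ^ 5 +
    (231 / 1024) * v ^ 6 + (429 / 2048) * v ^ 7 + (6435 / 32768) * v ^ 8 + (12155 / 65536) * v ^ 9

noncomputable def S (v : ℝ) : ℝ :=
  (46189 / 131072) + (20995 / 131072) * v ^ 1 + (230945 / 2097152) * v ^ 2 + (88825 / 1048576) * v ^ 3 +
    (1154725 / 16777216) * v ^ 4 + (969969 / 16777216) * v ^ 5 + (53348295 / 1073741824) * v ^ 6 +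
    (5827965 / 134217728) * v ^ 7 + (165125675 / 4294967296) * v ^ 8 + (147744025 / 4294967296) * v ^ 9

theorem QS (v : ℝ) : 1 - Q v ^ 2 * (1 - v) = v ^ 10 * S v := by
  unfold Q S; ring

theorem S_nonneg {v : ℝ} (hv : 0 ≤ v) : 0 ≤ S v := by unfold S; positivity
theorem Q_pos {v : ℝ} (hv : 0 ≤ v) : 0 < Q v := by unfold Q; positivity

theorem pow_le_lin {v : ℝ} (h0 : 0 ≤ v) (h1 : v ≤ 1 / 4) (k : ℕ) : v ^ (k + 1) ≤ v * (1 / 4) ^ k := by
  rw [pow_succ, mul_comm]
  exact mul_le_mul_of_nonneg_left (pow_le_pow_left₀ h0 h1 k) h0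

theorem S_le {v : ℝ} (h0 : 0 ≤ v) (h1 : v ≤ 1 / 4) : S v ≤ 353 / 1000 + (1 / 5) * v := by
  have e2 := pow_le_lin h0 h1 1
  have e3 := pow_le_lin h0 h1 2
  have e4 := pow_le_lin h0 h1 3
  have e5 := pow_le_lin h0 h1 4
  have e6 := pow_le_lin h0 h1 5
  have e7 := pow_le_lin h0 h1 6
  have e8 := pow_le_lin h0 h1 7
  have e9 := pow_le_lin h0 h1 8
  norm_num at e2 e3 e4 e5 e6 e7 e8 e9
  unfold S
  linarith

theorem Q_lo {v : ℝ} (h0 : 0 ≤ v) : 1 + v / 2 ≤ Q v := by
  have : Q v - (1 + v / 2) = (3 / 8) * v ^ 2 + (5 / 16) * v ^ 3 + (35 / 128) * v ^ 4 + (63 / 256) * v ^ 5 +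
    (231 / 1024) * v ^ 6 + (429 / 2048) * v ^ 7 + (6435 / 32768) * v ^ 8 + (12155 / 65536) * v ^ 9 := by
    unfold Q; ring
  have h2 : 0 ≤ Q v - (1 + v / 2) := by rw [this]; positivity
  linarith

theorem inv_lo {v : ℝ} (h0 : 0 ≤ v) (h1 : v ≤ 1 / 4) : Q v ≤ 1 / √(1 - v) := by
  have hs : 0 < √(1 - v) := Real.sqrt_pos.mpr (by linarith)
  rw [le_div_iff₀ hs]
  have hq := Q_pos h0
  have h2 : (Q v * √(1 - v)) ^ 2 ≤ 1 := by
    rw [mul_pow, Real.sq_sqrt (by linarith)]
    have := QS v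
    have h3 : 0 ≤ v ^ 10 * S v := mul_nonneg (pow_nonneg h0 _) (S_nonneg h0)
    linarith
  exact (sq_le_one_iff₀ (by positivity)).mp h2

theorem inv_hi {v : ℝ} (h0 : 0 ≤ v) (h1 : v ≤ 1 / 4) : 1 / √(1 - v) ≤ Q v + (3 / 10) * v ^ 10 := by
  have hs : 0 < √(1 - v) := Real.sqrt_pos.mpr (by linarith)
  rw [div_le_iff₀ hs]
  have hq := Q_pos h0
  have hx : 0 ≤ v ^ 10 := pow_nonneg h0 _
  have h2 : 1 ≤ ((Q v + (3 / 10) * v ^ 10) * √(1 - v)) ^ 2 := by
    rw [mul_pow, Real.sq_sqrt (by linarith)]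
    have h3 := QS v
    have h4 : (Q v + (3 / 10) * v ^ 10) ^ 2 * (1 - v) - 1 =
        v ^ 10 * ((3 / 5) * ((1 - v) * Q v) + (9 / 100) * v ^ 10 * (1 - v) - S v) := by
      linear_combination -h3
    have h5 : 0 ≤ (3 / 5) * ((1 - v) * Q v) + (9 / 100) * v ^ 10 * (1 - v) - S v := by
      have h6 : (1 - v) * (1 + v / 2) ≤ (1 - v) * Q v := mul_le_mul_of_nonneg_left (Q_lo h0) (by linarith)
      have h7 := S_le h0 h1
      have h8 : 0 ≤ (9 / 100) * v ^ 10 * (1 - v) := by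
        have : 0 ≤ 1 - v := by linarith
        positivity
      nlinarith
    have h6 := mul_nonneg hx h5
    linarith
  have h3 : 0 ≤ (Q v + (3 / 10) * v ^ 10) * √(1 - v) := by positivity
  nlinarith

theorem hasDeriv_f {z : ℝ} (h0 : -1 < z) (h1 : z < 1) :
    HasDerivAt (fun z : ℝ => Real.arcsin z - z * P (z ^ 2)) (1 / √(1 - z ^ 2) - Q (z ^ 2)) z := by
  have ha := Real.hasDerivAt_arcsin (x := z) (ne_of_gt h0) (ne_of_lt h1)
  have hp : HasDerivAt (fun z : ℝ => z * P (z ^ 2)) (Q (z ^ 2)) z := by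
    have e : (fun z : ℝ => z * P (z ^ 2)) = fun z : ℝ => z ^ 1 + (1 / 6) * z ^ 3 + (3 / 40) * z ^ 5 + (5 / 112) * z ^ 7 +
        (35 / 1152) * z ^ 9 + (63 / 2816) * z ^ 11 + (231 / 13312) * z ^ 13 + (143 / 10240) * z ^ 15 +
        (6435 / 557056) * z ^ 17 + (12155 / 1245184) * z ^ 19 := by
      funext z; unfold P; ring
    rw [e]
    have h := ((((((((((hasDerivAt_pow 1 z).add ((hasDerivAt_pow 3 z).const_mul (1 / 6))).add
      ((hasDerivAt_pow 5 z).const_mul (3 / 40))).add ((hasDerivAt_pow 7 z).const_mul (5 / 112))).add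
      ((hasDerivAt_pow 9 z).const_mul (35 / 1152))).add ((hasDerivAt_pow 11 z).const_mul (63 / 2816))).add
      ((hasDerivAt_pow 13 z).const_mul (231 / 13312))).add ((hasDerivAt_pow 15 z).const_mul (143 / 10240))).add
      ((hasDerivAt_pow 17 z).const_mul (6435 / 557056))).add ((hasDerivAt_pow 19 z).const_mul (12155 / 1245184)))
    refine HasDerivAt.congr_deriv h ?_
    unfold Q
    norm_num
    ring
  exact ha.sub hp

theorem hasDeriv_g {z : ℝ} (h0 : -1 < z) (h1 : z < 1) :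
    HasDerivAt (fun z : ℝ => (1 / 70) * z ^ 21 - (Real.arcsin z - z * P (z ^ 2)))
      (Q (z ^ 2) + (3 / 10) * (z ^ 2) ^ 10 - 1 / √(1 - z ^ 2)) z := by
  have h := ((hasDerivAt_pow 21 z).const_mul (1 / 70)).sub (hasDeriv_f h0 h1)
  refine HasDerivAt.congr_deriv h ?_
  norm_num
  ring

theorem arcsin_bounds {z : ℝ} (h0 : 0 ≤ z) (h1 : z ≤ 1 / 2) :
    0 ≤ Real.arcsin z - z * P (z ^ 2) ∧ Real.arcsin z - z * P (z ^ 2) ≤ (1 / 70) * z ^ 21 := by
  have hI : ∀ x ∈ Set.Icc (0 : ℝ) (1 / 2), -1 < x ∧ x < 1 ∧ 0 ≤ x ^ 2 ∧ x ^ 2 ≤ 1 / 4 := by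
    intro x hx
    obtain ⟨a, b⟩ := hx
    refine ⟨by linarith, by linarith, by positivity, by nlinarith⟩
  constructor
  · have hm : MonotoneOn (fun z : ℝ => Real.arcsin z - z * P (z ^ 2)) (Set.Icc 0 (1 / 2)) := by
      apply monotoneOn_of_deriv_nonneg (convex_Icc _ _)
      · intro x hx
        obtain ⟨a, b, -, -⟩ := hI x hx
        exact (hasDeriv_f a b).continuousAt.continuousWithinAt
      · intro x hx
        obtain ⟨a, b, -, -⟩ := hI x (interior_subset hx)
        exact (hasDeriv_f a b).differentiableAt.differentiableWithinAt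
      · intro x hx
        obtain ⟨a, b, c, d⟩ := hI x (interior_subset hx)
        rw [(hasDeriv_f a b).deriv]
        have := inv_lo c d
        linarith
    have := hm (Set.left_mem_Icc.mpr (by norm_num)) ⟨h0, h1⟩ h0
    simpa using this
  · have hm : MonotoneOn (fun z : ℝ => (1 / 70) * z ^ 21 - (Real.arcsin z - z * P (z ^ 2))) (Set.Icc 0 (1 / 2)) := by
      apply monotoneOn_of_deriv_nonneg (convex_Icc _ _)
      · intro x hx
        obtain ⟨a, b, -, -⟩ := hI x hx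
        exact (hasDeriv_g a b).continuousAt.continuousWithinAt
      · intro x hx
        obtain ⟨a, b, -, -⟩ := hI x (interior_subset hx)
        exact (hasDeriv_g a b).differentiableAt.differentiableWithinAt
      · intro x hx
        obtain ⟨a, b, c, d⟩ := hI x (interior_subset hx)
        rw [(hasDeriv_g a b).deriv]
        have := inv_hi c d
        linarith
    have := hm (Set.left_mem_Icc.mpr (by norm_num)) ⟨h0, h1⟩ h0
    simp only [Real.arcsin_zero, zero_mul, sub_zero] at this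
    norm_num at this
    linarith

theorem cos_rec (th : ℝ) (k : ℕ) :
    Real.cos ((k + 2 : ℕ) * th) = 2 * Real.cos th * Real.cos ((k + 1 : ℕ) * th) - Real.cos ((k : ℕ) * th) := by
  have e1 : ((k + 2 : ℕ) : ℝ) * th = ((k + 1 : ℕ) : ℝ) * th + th := by push_cast; ring
  have e2 : ((k : ℕ) : ℝ) * th = ((k + 1 : ℕ) : ℝ) * th - th := by push_cast; ring
  rw [e1, e2, Real.cos_add, Real.cos_sub]
  ring

theorem cheb {v : ℝ} (h0 : 0 ≤ v) (h1 : v ≤ 1 / 4) :
    |(636619772367581343 / 10 ^ 18) * P v - pv v asC| ≤ 70 / 2 ^ 30 := by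
  obtain ⟨t, ht0, ht1, htr, htb⟩ : ∃ t : ℕ → ℝ, t 0 = 1 ∧ t 1 = 8 * v - 1 ∧
      (∀ k, t (k + 2) = 2 * (8 * v - 1) * t (k + 1) - t k) ∧ ∀ k, |t k| ≤ 1 := by
    have hc : Real.cos (Real.arccos (8 * v - 1)) = 8 * v - 1 := Real.cos_arccos (by linarith) (by linarith)
    refine ⟨fun k => Real.cos ((k : ℕ) * Real.arccos (8 * v - 1)), ?_, ?_, ?_, fun k => Real.abs_cos_le_one _⟩
    · simp
    · simp only [Nat.cast_one, one_mul]; exact hc
    · intro k
      have := cos_rec (Real.arccos (8 * v - 1)) k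
      rw [hc] at this
      exact this
  have h2 := htr 0
  have h3 := htr 1
  have h4 := htr 2
  have h5 := htr 3
  have h6 := htr 4
  have h7 := htr 5
  have h8 := htr 6
  have h9 := htr 7
  simp only [Nat.reduceAdd] at h2 h3 h4 h5 h6 h7 h8 h9
  have key : (636619772367581343 / 10 ^ 18) * P v - pv v asC =
      (-442775779638111991454936931181 / 496403639427378708480000000000000000000) * t 0 +
      (-1011942569754421185929532934753 / 496403639427378708480000000000000000000) * t 1 +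
      (-96168477014443863860695737619 / 62050454928422338560000000000000000000) * t 2 +
      (-200188221934067803426919152967 / 248201819713689354240000000000000000000) * t 3 +
      (42091813596031578243057402913 / 17728701408120668160000000000000000000) * t 4 +
      (608299734859341804655624187553 / 11819134272080445440000000000000000000) * t 5 +
      (8281596753885574555994845023 / 2954783568020111360000000000000000000) * t 6 +
      (540779506871686048326883809 / 3636656699101675520000000000000000000) * t 7 +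
      (485862480692986772745513 / 72733133982033510400000000000000000) * t 8 +
      (1547622666625590244833 / 8556839292003942400000000000000000) * t 9 := by
    rw [h9, h8, h7, h6, h5, h4, h3, h2, ht1, ht0]
    simp only [asC, pv, dy]
    unfold P
    norm_num
    ring
  rw [key, abs_le]
  have b0 := abs_le.mp (htb 0)
  have b1 := abs_le.mp (htb 1)
  have b2 := abs_le.mp (htb 2)
  have b3 := abs_le.mp (htb 3)
  have b4 := abs_le.mp (htb 4)
  have b5 := abs_le.mp (htb 5)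
  have b6 := abs_le.mp (htb 6)
  have b7 := abs_le.mp (htb 7)
  have b8 := abs_le.mp (htb 8)
  have b9 := abs_le.mp (htb 9)
  constructor
  · linarith [b0.1, b1.1, b2.1, b3.1, b4.1, b5.1, b6.1, b7.1, b8.1, b9.1,
      b0.2, b1.2, b2.2, b3.2, b4.2, b5.2, b6.2, b7.2, b8.2, b9.2]
  · linarith [b0.1, b1.1, b2.1, b3.1, b4.1, b5.1, b6.1, b7.1, b8.1, b9.1,
      b0.2, b1.2, b2.2, b3.2, b4.2, b5.2, b6.2, b7.2, b8.2, b9.2]

theorem P_le {v : ℝ} (h0 : 0 ≤ v) (h1 : v ≤ 1 / 4) : P v ≤ 2 := by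
  have e2 := pow_le_lin h0 h1 1
  have e3 := pow_le_lin h0 h1 2
  have e4 := pow_le_lin h0 h1 3
  have e5 := pow_le_lin h0 h1 4
  have e6 := pow_le_lin h0 h1 5
  have e7 := pow_le_lin h0 h1 6
  have e8 := pow_le_lin h0 h1 7
  have e9 := pow_le_lin h0 h1 8
  norm_num at e2 e3 e4 e5 e6 e7 e8 e9
  unfold P
  linarith

theorem P_nonneg {v : ℝ} (h0 : 0 ≤ v) : 0 ≤ P v := by unfold P; positivity

theorem two_div_pi : |2 / π - 636619772367581343 / 10 ^ 18| ≤ 1 / 10 ^ 12 := by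
  have h1 := Real.pi_gt_d20
  have h2 := Real.pi_lt_d20
  have hp := Real.pi_pos
  rw [abs_le]
  constructor
  · have : (636619772367581343 / 10 ^ 18 - 1 / 10 ^ 12 : ℝ) ≤ 2 / π := by
      rw [le_div_iff₀ hp]
      calc (636619772367581343 / 10 ^ 18 - 1 / 10 ^ 12 : ℝ) * π
          ≤ (636619772367581343 / 10 ^ 18 - 1 / 10 ^ 12 : ℝ) * 3.14159265358979323847 :=
            mul_le_mul_of_nonneg_left h2.le (by norm_num)
        _ ≤ 2 := by norm_num
    linarith
  · have : 2 / π ≤ (636619772367581343 / 10 ^ 18 + 1 / 10 ^ 12 : ℝ) := by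
      rw [div_le_iff₀ hp]
      calc (2 : ℝ) ≤ (636619772367581343 / 10 ^ 18 + 1 / 10 ^ 12 : ℝ) * 3.14159265358979323846 := by norm_num
        _ ≤ _ := mul_le_mul_of_nonneg_left h1.le (by norm_num)
    linarith

/-- the function itself is close to the partial sum -/
theorem asR_close {v : ℝ} (h0 : 0 ≤ v) (h1 : v ≤ 1 / 4) : |asR v - 2 / π * P v| ≤ 1 / 10 ^ 7 * (15 / 70) := by
  unfold asR
  have hpi : 2 / π ≤ 1 := by
    rw [div_le_one Real.pi_pos]; linarith [Real.pi_gt_three]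
  have hpi0 : 0 ≤ 2 / π := by positivity
  split_ifs with hv
  · subst hv
    have : P 0 = 1 := by unfold P; norm_num
    rw [this, mul_one, sub_self, abs_zero]
    norm_num
  · have hv' : 0 < v := lt_of_le_of_ne h0 (Ne.symm hv)
    have hz : 0 < √v := Real.sqrt_pos.mpr hv'
    have hzz : √v ^ 2 = v := Real.sq_sqrt h0
    have hz1 : √v ≤ 1 / 2 := by
      rw [Real.sqrt_le_left (by norm_num)]
      norm_num at h1 ⊢
      exact h1
    obtain ⟨ha, hb⟩ := arcsin_bounds hz.le hz1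
    rw [hzz] at ha hb
    have e : 2 / π * Real.arcsin √v / √v - 2 / π * P v = 2 / π * ((Real.arcsin √v - √v * P v) / √v) := by
      field_simp
    rw [e]
    have hd0 : 0 ≤ (Real.arcsin √v - √v * P v) / √v := div_nonneg ha hz.le
    have hd1 : (Real.arcsin √v - √v * P v) / √v ≤ (1 / 70) * √v ^ 20 := by
      rw [div_le_iff₀ hz]
      calc Real.arcsin √v - √v * P v ≤ (1 / 70) * √v ^ 21 := hb
        _ = (1 / 70) * √v ^ 20 * √v := by ring
    have hd2 : √v ^ 20 ≤ (1 / 2) ^ 20 := pow_le_pow_left₀ hz.le hz1 20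
    rw [abs_of_nonneg (mul_nonneg hpi0 hd0)]
    calc 2 / π * ((Real.arcsin √v - √v * P v) / √v) ≤ 1 * ((Real.arcsin √v - √v * P v) / √v) :=
          mul_le_mul_of_nonneg_right hpi hd0
      _ ≤ (1 / 70) * (1 / 2) ^ 20 := by
          rw [one_mul]; exact hd1.trans (mul_le_mul_of_nonneg_left hd2 (by norm_num))
      _ ≤ _ := by norm_num

theorem main {v : ℝ} (h0 : 0 ≤ v) (h1 : v ≤ 1 / 4) : |asR v - pv v asC| ≤ 256 / 2 ^ 30 := by
  have a := abs_le.mp (asR_close h0 h1)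
  have b := abs_le.mp (cheb h0 h1)
  have c := abs_le.mp two_div_pi
  have hP := P_le h0 h1
  have hP0 := P_nonneg h0
  have d1 : (2 / π - 636619772367581343 / 10 ^ 18) * P v ≤ 1 / 10 ^ 12 * 2 :=
    (mul_le_mul_of_nonneg_right c.2 hP0).trans (mul_le_mul_of_nonneg_left hP (by norm_num))
  have d2 : -(1 / 10 ^ 12 * 2) ≤ (2 / π - 636619772367581343 / 10 ^ 18) * P v := by
    have := (mul_le_mul_of_nonneg_right c.1 hP0)
    have h3 : 1 / 10 ^ 12 * P v ≤ 1 / 10 ^ 12 * 2 := mul_le_mul_of_nonneg_left hP (by norm_num)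
    linarith
  rw [abs_le]
  constructor
  · linarith [a.1, b.1]
  · linarith [a.2, b.2]

end EAS_

theorem eas_proof : Stmt_EAS := by
  intro x
  have h0 : 0 ≤ cl4 x := le_max_left _ _
  have h1 : cl4 x ≤ 1 / 4 := max_le (by norm_num) (min_le_left _ _)
  exact EAS_.main h0 h1

end Pool.Agent.FTA
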