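import Pool.Agent.FTA.Stmts

/-!
# FTA, module ECS: the error of the cosine polynomial
-/

open Real

namespace Pool.Agent.FTA

namespace ECS_

/-- The Taylor polynomial of the cosine. -/
noncomputable def tc (y : ℝ) : ℝ :=
  1 - y ^ 2 / 2 + y ^ 4 / 24 - y ^ 6 / 720 + y ^ 8 / 40320 - y ^ 10 / 3628800

/-- The Taylor polynomial of the sine. -/
noncomputable def ts (y : ℝ) : ℝ :=
  y - y ^ 3 / 6 + y ^ 5 / 120 - y ^ 7 / 5040 + y ^ 9 / 362880

theorem sum11 (y : ℝ) : ∑ m ∈ Finset.range 11, ((y : ℂ) * Complex.I) ^ m / (m.factorial : ℂ) =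
    (tc y : ℂ) + (ts y : ℂ) * Complex.I := by
  have h2 : Complex.I ^ 2 = -1 := Complex.I_sq
  have h3 : Complex.I ^ 3 = -Complex.I := by rw [pow_succ, h2]; ring
  have h4 : Complex.I ^ 4 = 1 := by rw [pow_succ, h3, neg_mul, Complex.I_mul_I, neg_neg]
  have h5 : Complex.I ^ 5 = Complex.I := by rw [pow_succ, h4]; ring
  have h6 : Complex.I ^ 6 = -1 := by rw [pow_succ, h5, Complex.I_mul_I]
  have h7 : Complex.I ^ 7 = -Complex.I := by rw [pow_succ, h6]; ring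
  have h8 : Complex.I ^ 8 = 1 := by rw [pow_succ, h7, neg_mul, Complex.I_mul_I, neg_neg]
  have h9 : Complex.I ^ 9 = Complex.I := by rw [pow_succ, h8]; ring
  have h10 : Complex.I ^ 10 = -1 := by rw [pow_succ, h9, Complex.I_mul_I]
  simp only [Finset.sum_range_succ, Finset.sum_range_zero, mul_pow, h2, h3, h4, h5, h6, h7, h8,
    h9, h10, tc, ts, Nat.factorial]
  push_cast
  ring

theorem cos_tc (y : ℝ) (hy : |y| ≤ π / 2) : |Real.cos y - tc y| ≤ |y| ^ 12 / 479001600 * 2 := by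
  have hn : ‖(y : ℂ) * Complex.I‖ = |y| := by simp
  have hp := Real.pi_lt_four
  have h := Complex.exp_bound' (x := (y : ℂ) * Complex.I) (n := 12) (by
    rw [hn]
    push_cast
    rw [div_le_iff₀ (by norm_num)]
    linarith)
  rw [hn] at h
  have h2 : (Complex.exp ((y : ℂ) * Complex.I) -
      ∑ m ∈ Finset.range 12, ((y : ℂ) * Complex.I) ^ m / (m.factorial : ℂ)).re =
      Real.cos y - tc y := by
    have h11 : Complex.I ^ 11 = -Complex.I := by
      have h2 : Complex.I ^ 2 = -1 := Complex.I_sq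
      calc Complex.I ^ 11 = (Complex.I ^ 2) ^ 5 * Complex.I := by ring
        _ = -Complex.I := by rw [h2]; ring
    rw [Finset.sum_range_succ, sum11, mul_pow, h11, Complex.sub_re, Complex.exp_ofReal_mul_I_re]
    have e1 : ((tc y : ℂ) + (ts y : ℂ) * Complex.I + (y : ℂ) ^ 11 * -Complex.I /
        ((11 : ℕ).factorial : ℂ)) = ((tc y : ℝ) : ℂ) +
          ((ts y - y ^ 11 / ((11 : ℕ).factorial : ℝ) : ℝ) : ℂ) * Complex.I := by
      push_cast
      ring
    rw [e1, Complex.add_re, Complex.ofReal_re, Complex.re_ofReal_mul, Complex.I_re, mul_zero,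
      add_zero]
  rw [← h2]
  refine (Complex.abs_re_le_norm _).trans (h.trans (le_of_eq ?_))
  norm_num [Nat.factorial]

theorem sin_ts (y : ℝ) (hy : |y| ≤ π / 2) : |Real.sin y - ts y| ≤ |y| ^ 11 / 39916800 * 2 := by
  have hn : ‖(y : ℂ) * Complex.I‖ = |y| := by simp
  have hp := Real.pi_lt_four
  have h := Complex.exp_bound' (x := (y : ℂ) * Complex.I) (n := 11) (by
    rw [hn]
    push_cast
    rw [div_le_iff₀ (by norm_num)]
    linarith)
  rw [hn] at h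
  have h2 : (Complex.exp ((y : ℂ) * Complex.I) -
      ∑ m ∈ Finset.range 11, ((y : ℂ) * Complex.I) ^ m / (m.factorial : ℂ)).im =
      Real.sin y - ts y := by
    rw [sum11, Complex.sub_im, Complex.exp_ofReal_mul_I_im, Complex.add_im, Complex.ofReal_im,
      Complex.im_ofReal_mul, Complex.I_im, mul_one, zero_add]
  rw [← h2]
  refine (Complex.abs_im_le_norm _).trans (h.trans (le_of_eq ?_))
  norm_num [Nat.factorial]

theorem pq : (1.57079632679489661923 : ℝ) ≤ π / 2 ∧ π / 2 ≤ 1.570796326794896619235 := by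
  have h1 := Real.pi_gt_d20
  have h2 := Real.pi_lt_d20
  constructor <;> linarith

theorem pw (k : ℕ) : (1.57079632679489661923 : ℝ) ^ k ≤ (π / 2) ^ k ∧
    (π / 2) ^ k ≤ 1.570796326794896619235 ^ k :=
  ⟨pow_le_pow_left₀ (by norm_num) pq.1 k, pow_le_pow_left₀ (by positivity) pq.2 k⟩

/-- The coefficients. -/
theorem c1 : |(π / 2) ^ 2 / 2 - 1324675879 / 2 ^ 30| ≤ 1 / 2 ^ 30 := by
  have h := pw 2
  rw [abs_le]
  constructor
  · have : (1324675879 / 2 ^ 30 - 1 / 2 ^ 30 : ℝ) ≤ (1.57079632679489661923 : ℝ) ^ 2 / 2 := by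
      norm_num
    linarith [h.1]
  · have : (1.570796326794896619235 : ℝ) ^ 2 / 2 ≤ (1324675879 / 2 ^ 30 + 1 / 2 ^ 30 : ℝ) := by
      norm_num
    linarith [h.2]

theorem c2 : |(π / 2) ^ 4 / 24 - 272375560 / 2 ^ 30| ≤ 1 / 2 ^ 30 := by
  have h := pw 4
  rw [abs_le]
  constructor
  · have : (272375560 / 2 ^ 30 - 1 / 2 ^ 30 : ℝ) ≤ (1.57079632679489661923 : ℝ) ^ 4 / 24 := by
      norm_num
    linarith [h.1]
  · have : (1.570796326794896619235 : ℝ) ^ 4 / 24 ≤ (272375560 / 2 ^ 30 + 1 / 2 ^ 30 : ℝ) := by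
      norm_num
    linarith [h.2]

theorem c3 : |(π / 2) ^ 6 / 720 - 22401992 / 2 ^ 30| ≤ 1 / 2 ^ 30 := by
  have h := pw 6
  rw [abs_le]
  constructor
  · have : (22401992 / 2 ^ 30 - 1 / 2 ^ 30 : ℝ) ≤ (1.57079632679489661923 : ℝ) ^ 6 / 720 := by
      norm_num
    linarith [h.1]
  · have : (1.570796326794896619235 : ℝ) ^ 6 / 720 ≤ (22401992 / 2 ^ 30 + 1 / 2 ^ 30 : ℝ) := by
      norm_num
    linarith [h.2]

theorem c4 : |(π / 2) ^ 8 / 40320 - 987048 / 2 ^ 30| ≤ 1 / 2 ^ 30 := by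
  have h := pw 8
  rw [abs_le]
  constructor
  · have : (987048 / 2 ^ 30 - 1 / 2 ^ 30 : ℝ) ≤ (1.57079632679489661923 : ℝ) ^ 8 / 40320 := by
      norm_num
    linarith [h.1]
  · have : (1.570796326794896619235 : ℝ) ^ 8 / 40320 ≤ (987048 / 2 ^ 30 + 1 / 2 ^ 30 : ℝ) := by
      norm_num
    linarith [h.2]

theorem c5 : |(π / 2) ^ 10 / 3628800 - 27060 / 2 ^ 30| ≤ 1 / 2 ^ 30 := by
  have h := pw 10
  rw [abs_le]
  constructor
  · have : (27060 / 2 ^ 30 - 1 / 2 ^ 30 : ℝ) ≤ (1.57079632679489661923 : ℝ) ^ 10 / 3628800 := by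
      norm_num
    linarith [h.1]
  · have : (1.570796326794896619235 : ℝ) ^ 10 / 3628800 ≤ (27060 / 2 ^ 30 + 1 / 2 ^ 30 : ℝ) := by
      norm_num
    linarith [h.2]

/-- The polynomial. -/
noncomputable def P (x : ℝ) : ℝ := 1 - 1324675879 / 2 ^ 30 * x ^ 2 + 272375560 / 2 ^ 30 * x ^ 4 -
  22401992 / 2 ^ 30 * x ^ 6 + 987048 / 2 ^ 30 * x ^ 8 - 27060 / 2 ^ 30 * x ^ 10

theorem pv_eq (x : ℝ) : pv (x ^ 2) csC = P x := by
  simp only [csC, pv, dy, P]
  norm_num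
  ring

theorem abs_mul_le {a b c : ℝ} (ha : |a| ≤ c) (hb : |b| ≤ 1) : |a * b| ≤ c := by
  rw [abs_mul]
  calc |a| * |b| ≤ c * 1 := mul_le_mul ha hb (abs_nonneg _) ((abs_nonneg _).trans ha)
    _ = c := mul_one c

theorem abs_pow_le {x : ℝ} (hx : |x| ≤ 1) (k : ℕ) : |x ^ k| ≤ 1 := by
  rw [abs_pow]
  exact pow_le_one₀ (abs_nonneg _) hx

theorem abs_y {x : ℝ} (hx : |x| ≤ 1) : |π * x / 2| ≤ π / 2 := by
  have hp := Real.pi_pos
  have : π * x / 2 = π / 2 * x := by ring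
  rw [this, abs_mul, abs_of_pos (by positivity)]
  calc π / 2 * |x| ≤ π / 2 * 1 := mul_le_mul_of_nonneg_left hx (by positivity)
    _ = π / 2 := mul_one _

theorem err (x : ℝ) (hx : |x| ≤ 1) : |cn x - P x| ≤ 1024 / 2 ^ 30 := by
  have h1 := cos_tc (π * x / 2) (abs_y hx)
  have h2 : |π * x / 2| ^ 12 ≤ (1.570796326794896619235 : ℝ) ^ 12 :=
    (pow_le_pow_left₀ (abs_nonneg _) (abs_y hx) 12).trans (pw 12).2
  have h3 : (1.570796326794896619235 : ℝ) ^ 12 / 479001600 * 2 ≤ 1019 / 2 ^ 30 := by norm_num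
  have h4 : |cn x - tc (π * x / 2)| ≤ 1019 / 2 ^ 30 := by
    unfold cn
    refine h1.trans (le_trans ?_ h3)
    linarith
  have e : cn x - P x = (cn x - tc (π * x / 2)) -
      ((π / 2) ^ 2 / 2 - 1324675879 / 2 ^ 30) * x ^ 2 +
      ((π / 2) ^ 4 / 24 - 272375560 / 2 ^ 30) * x ^ 4 -
      ((π / 2) ^ 6 / 720 - 22401992 / 2 ^ 30) * x ^ 6 +
      ((π / 2) ^ 8 / 40320 - 987048 / 2 ^ 30) * x ^ 8 -
      ((π / 2) ^ 10 / 3628800 - 27060 / 2 ^ 30) * x ^ 10 := by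
    unfold tc P
    ring
  have t1 := abs_le.1 (abs_mul_le c1 (abs_pow_le hx 2))
  have t2 := abs_le.1 (abs_mul_le c2 (abs_pow_le hx 4))
  have t3 := abs_le.1 (abs_mul_le c3 (abs_pow_le hx 6))
  have t4 := abs_le.1 (abs_mul_le c4 (abs_pow_le hx 8))
  have t5 := abs_le.1 (abs_mul_le c5 (abs_pow_le hx 10))
  have t0 := abs_le.1 h4
  rw [e, abs_le]
  constructor <;> linarith [t0.1, t0.2, t1.1, t1.2, t2.1, t2.2, t3.1, t3.2, t4.1, t4.2, t5.1,
    t5.2]

/-- The derivative. -/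
noncomputable def D (x : ℝ) : ℝ := -(Real.sin (π * x / 2) * (π / 2)) -
  (-(1324675879 / 2 ^ 30 * (2 * x)) + 272375560 / 2 ^ 30 * (4 * x ^ 3) -
  22401992 / 2 ^ 30 * (6 * x ^ 5) + 987048 / 2 ^ 30 * (8 * x ^ 7) - 27060 / 2 ^ 30 * (10 * x ^ 9))

theorem hasD (x : ℝ) : HasDerivAt (fun x => cn x - P x) (D x) x := by
  have h1 : HasDerivAt (fun x : ℝ => π * x / 2) (π / 2) x := by
    have h := ((hasDerivAt_id x).const_mul π).div_const 2
    simpa using h
  have h2 : HasDerivAt (fun x => cn x) (-(Real.sin (π * x / 2) * (π / 2))) x := by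
    have h := h1.cos
    unfold cn
    simpa using h
  have h3 : HasDerivAt P (-(1324675879 / 2 ^ 30 * (2 * x)) + 272375560 / 2 ^ 30 * (4 * x ^ 3) -
      22401992 / 2 ^ 30 * (6 * x ^ 5) + 987048 / 2 ^ 30 * (8 * x ^ 7) -
      27060 / 2 ^ 30 * (10 * x ^ 9)) x := by
    unfold P
    have g := fun k : ℕ => hasDerivAt_pow k x
    have h := (((((hasDerivAt_const x (1 : ℝ)).sub ((g 2).const_mul (1324675879 / 2 ^ 30))).add
      ((g 4).const_mul (272375560 / 2 ^ 30))).sub ((g 6).const_mul (22401992 / 2 ^ 30))).add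
      ((g 8).const_mul (987048 / 2 ^ 30))).sub ((g 10).const_mul (27060 / 2 ^ 30))
    refine HasDerivAt.congr_deriv h ?_
    norm_num
  exact h2.sub h3

theorem D_le (x : ℝ) (hx : |x| ≤ 1) : |D x| ≤ 16384 / 2 ^ 30 := by
  have h1 := sin_ts (π * x / 2) (abs_y hx)
  have h2 : |π * x / 2| ^ 11 ≤ (π / 2) ^ 11 := pow_le_pow_left₀ (abs_nonneg _) (abs_y hx) 11
  have h4 : |(Real.sin (π * x / 2) - ts (π * x / 2)) * (π / 2)| ≤ 12200 / 2 ^ 30 := by
    rw [abs_mul, abs_of_pos (by positivity : (0 : ℝ) < π / 2)]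
    have h5 : |Real.sin (π * x / 2) - ts (π * x / 2)| * (π / 2) ≤
        (π / 2) ^ 11 / 39916800 * 2 * (π / 2) := by
      apply mul_le_mul_of_nonneg_right _ (by positivity)
      refine h1.trans ?_
      linarith
    refine h5.trans ?_
    have h6 := (pw 12).2
    have h7 : (1.570796326794896619235 : ℝ) ^ 12 / 39916800 * 2 ≤ 12200 / 2 ^ 30 := by norm_num
    have h8 : (π / 2) ^ 11 / 39916800 * 2 * (π / 2) = (π / 2) ^ 12 / 39916800 * 2 := by ring
    rw [h8]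
    linarith
  have e : D x = -((Real.sin (π * x / 2) - ts (π * x / 2)) * (π / 2)) -
      2 * (((π / 2) ^ 2 / 2 - 1324675879 / 2 ^ 30) * x ^ 1) +
      4 * (((π / 2) ^ 4 / 24 - 272375560 / 2 ^ 30) * x ^ 3) -
      6 * (((π / 2) ^ 6 / 720 - 22401992 / 2 ^ 30) * x ^ 5) +
      8 * (((π / 2) ^ 8 / 40320 - 987048 / 2 ^ 30) * x ^ 7) -
      10 * (((π / 2) ^ 10 / 3628800 - 27060 / 2 ^ 30) * x ^ 9) := by
    unfold ts D
    ring
  have t1 := abs_le.1 (abs_mul_le c1 (abs_pow_le hx 1))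
  have t2 := abs_le.1 (abs_mul_le c2 (abs_pow_le hx 3))
  have t3 := abs_le.1 (abs_mul_le c3 (abs_pow_le hx 5))
  have t4 := abs_le.1 (abs_mul_le c4 (abs_pow_le hx 7))
  have t5 := abs_le.1 (abs_mul_le c5 (abs_pow_le hx 9))
  have t0 := abs_le.1 h4
  rw [e, abs_le]
  constructor <;> linarith [t0.1, t0.2, t1.1, t1.2, t2.1, t2.2, t3.1, t3.2, t4.1, t4.2, t5.1,
    t5.2]

theorem cl_mem (x : ℝ) : cl x ∈ Set.Icc (-1 : ℝ) 1 := by
  unfold cl
  constructor
  · exact le_max_left _ _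
  · exact max_le (by norm_num) (min_le_left _ _)

theorem cl_lip (x y : ℝ) : |cl x - cl y| ≤ |x - y| := by
  unfold cl
  have h1 := abs_max_sub_max_le_max (-1 : ℝ) (min 1 x) (-1) (min 1 y)
  have h2 := abs_min_sub_min_le_max (1 : ℝ) x 1 y
  rw [sub_self, abs_zero] at h1 h2
  have e1 : max 0 |min 1 x - min 1 y| = |min 1 x - min 1 y| := max_eq_right (abs_nonneg _)
  have e2 : max 0 |x - y| = |x - y| := max_eq_right (abs_nonneg _)
  rw [e1] at h1
  rw [e2] at h2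
  exact h1.trans h2

end ECS_

open ECS_ in
/-- ECS -/
theorem ecs_proof : Stmt_ECS := by
  have he : ∀ x, ecs x = (fun x => cn x - P x) (cl x) := by
    intro x
    unfold ecs
    rw [pv_eq]
  constructor
  · intro x
    rw [he]
    have h := cl_mem x
    exact err _ (abs_le.2 h)
  · intro x y
    rw [he, he]
    have h := Convex.norm_image_sub_le_of_norm_hasDerivWithin_le (f := fun x => cn x - P x)
      (f' := D) (C := 16384 / 2 ^ 30) (s := Set.Icc (-1 : ℝ) 1) (x := cl y) (y := cl x)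
      (fun z _ => (hasD z).hasDerivWithinAt) (fun z hz => by
        rw [Real.norm_eq_abs]
        exact D_le z (abs_le.2 hz)) (convex_Icc _ _) (cl_mem y) (cl_mem x)
    rw [Real.norm_eq_abs, Real.norm_eq_abs] at h
    refine h.trans ?_
    exact mul_le_mul_of_nonneg_left (cl_lip x y) (by norm_num)

end Pool.Agent.FTA
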