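import Pool.Agent.FTA.Stmts

open Real

namespace Pool.Agent.FTA

namespace ESC_

/-- Taylor coefficients of `sin (pi x / 2) / x` -/
noncomputable def a (k : ℕ) : ℝ := (-1) ^ k * (π / 2) ^ (2 * k + 1) / (Nat.factorial (2 * k + 1) : ℝ)

lemma hasSum_sc (x : ℝ) : HasSum (fun k => a k * x ^ (2 * k)) (scR x) := by
  by_cases hx : x = 0
  · subst hx
    have h1 : scR 0 = a 0 * 0 ^ (2 * 0) := by
      unfold scR a
      simp
    rw [h1]
    apply hasSum_single
    intro k hk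
    have : 2 * k ≠ 0 := by omega
    rw [zero_pow this, mul_zero]
  · have h1 := (Real.hasSum_sin (π * x / 2)).div_const x
    have h2 : scR x = Real.sin (π * x / 2) / x := by
      unfold scR sn
      rw [if_neg hx]
    rw [h2]
    refine h1.congr_fun ?_ |> fun h => h
    intro k
    unfold a
    have e1 : (π * x / 2) ^ (2 * k + 1) = (π / 2) ^ (2 * k + 1) * x ^ (2 * k) * x := by
      have : π * x / 2 = (π / 2) * x := by ring
      rw [this, mul_pow, pow_succ x]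
      ring
    rw [e1]
    field_simp

lemma abs_a (k : ℕ) : |a k| = (π / 2) ^ (2 * k + 1) / (Nat.factorial (2 * k + 1) : ℝ) := by
  unfold a
  rw [abs_div, abs_mul, abs_pow, abs_neg, abs_one, one_pow, one_mul, abs_of_nonneg (by positivity),
    abs_of_nonneg (by positivity)]

lemma abs_a_succ (k : ℕ) (hk : 1 ≤ k) : |a (k + 1)| ≤ |a k| * (1 / 4) := by
  rw [abs_a, abs_a]
  have hpi : π < 3.15 := Real.pi_lt_d2
  have hpi0 := Real.pi_pos
  have h1 : (Nat.factorial (2 * (k + 1) + 1) : ℝ) =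
      (2 * k + 3) * (2 * k + 2) * (Nat.factorial (2 * k + 1) : ℝ) := by
    have : 2 * (k + 1) + 1 = (2 * k + 1) + 1 + 1 := by ring
    rw [this, Nat.factorial_succ, Nat.factorial_succ]
    push_cast
    ring
  have h2 : (π / 2) ^ (2 * (k + 1) + 1) = (π / 2) ^ (2 * k + 1) * (π / 2) ^ 2 := by
    rw [← pow_add]
    congr 1
  have hk' : (1 : ℝ) ≤ k := by exact_mod_cast hk
  have hf : (0 : ℝ) < (Nat.factorial (2 * k + 1) : ℝ) := by positivity
  rw [h1, h2, div_le_iff₀ (by positivity)]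
  have h3 : (π / 2) ^ 2 ≤ 5 / 2 := by
    have : π / 2 ≤ 1.575 := by norm_num at hpi ⊢; linarith
    have h0 : 0 ≤ π / 2 := by positivity
    calc (π / 2) ^ 2 ≤ 1.575 ^ 2 := pow_le_pow_left₀ h0 this 2
      _ ≤ 5 / 2 := by norm_num
  have h4 : (20 : ℝ) ≤ (2 * k + 3) * (2 * k + 2) := by nlinarith
  have h5 : (π / 2) ^ (2 * k + 1) / (Nat.factorial (2 * k + 1) : ℝ) * (1 / 4) *
      ((2 * k + 3) * (2 * k + 2) * (Nat.factorial (2 * k + 1) : ℝ)) =
      (π / 2) ^ (2 * k + 1) * ((1 / 4) * ((2 * k + 3) * (2 * k + 2))) := by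
    field_simp
  rw [h5]
  apply mul_le_mul_of_nonneg_left _ (by positivity)
  linarith

lemma abs_a_tail (k : ℕ) : |a (k + 6)| ≤ |a 6| * (1 / 4) ^ k := by
  induction k with
  | zero => simp
  | succ k ih =>
    have h1 := abs_a_succ (k + 6) (by omega)
    have : k + 1 + 6 = k + 6 + 1 := by ring
    rw [this]
    calc |a (k + 6 + 1)| ≤ |a (k + 6)| * (1 / 4) := h1
      _ ≤ |a 6| * (1 / 4) ^ k * (1 / 4) := mul_le_mul_of_nonneg_right ih (by norm_num)
      _ = |a 6| * (1 / 4) ^ (k + 1) := by ring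

lemma abs_a_six : |a 6| ≤ 62 / 2 ^ 30 := by
  rw [abs_a]
  have hpi : π < 3.1416 := Real.pi_lt_d4
  have h0 : 0 ≤ π / 2 := by positivity
  have h1 : π / 2 ≤ 1.5708 := by norm_num at hpi ⊢; linarith
  have h2 : (π / 2) ^ (2 * 6 + 1) ≤ 1.5708 ^ 13 := pow_le_pow_left₀ h0 h1 13
  have h3 : (Nat.factorial (2 * 6 + 1) : ℝ) = 6227020800 := by
    norm_num [Nat.factorial]
  rw [h3]
  calc (π / 2) ^ (2 * 6 + 1) / 6227020800 ≤ 1.5708 ^ 13 / 6227020800 :=
        div_le_div_of_nonneg_right h2 (by norm_num)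
    _ ≤ 62 / 2 ^ 30 := by norm_num

lemma pow_sub_pow_le {x y : ℝ} (hx : |x| ≤ 1) (hy : |y| ≤ 1) (m : ℕ) :
    |x ^ m - y ^ m| ≤ m * |x - y| := by
  have h1 := abs_pow_sub_pow_le x y m
  have h2 : max |x| |y| ^ (m - 1) ≤ 1 := pow_le_one₀ (le_max_of_le_left (abs_nonneg _)) (max_le hx hy)
  calc |x ^ m - y ^ m| ≤ |x - y| * m * max |x| |y| ^ (m - 1) := h1
    _ ≤ |x - y| * m * 1 := mul_le_mul_of_nonneg_left h2 (by positivity)
    _ = m * |x - y| := by ring

/-- the tail -/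
noncomputable def Tl (x : ℝ) : ℝ := ∑' k, a (k + 6) * x ^ (2 * (k + 6))

lemma tl_summable {x : ℝ} : Summable fun k => a (k + 6) * x ^ (2 * (k + 6)) :=
  (summable_nat_add_iff 6).2 (hasSum_sc x).summable

lemma sc_eq (x : ℝ) : scR x = ∑ k ∈ Finset.range 6, a k * x ^ (2 * k) + Tl x := by
  have h := hasSum_sc x
  rw [← h.tsum_eq, ← h.summable.sum_add_tsum_nat_add 6]
  rfl

lemma geo_sum : HasSum (fun k : ℕ => (1 / 2 : ℝ) ^ k) 2 := hasSum_geometric_two

lemma abs_Tl {x : ℝ} (hx : |x| ≤ 1) : |Tl x| ≤ 124 / 2 ^ 30 := by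
  have h1 : ∀ k : ℕ, ‖a (k + 6) * x ^ (2 * (k + 6))‖ ≤ (62 / 2 ^ 30) * (1 / 2 : ℝ) ^ k := by
    intro k
    rw [Real.norm_eq_abs, abs_mul, abs_pow]
    have e1 := abs_a_tail k
    have e2 : |x| ^ (2 * (k + 6)) ≤ 1 := pow_le_one₀ (abs_nonneg _) hx
    have e3 : (1 / 4 : ℝ) ^ k ≤ (1 / 2) ^ k := pow_le_pow_left₀ (by norm_num) (by norm_num) k
    calc |a (k + 6)| * |x| ^ (2 * (k + 6)) ≤ |a (k + 6)| * 1 :=
          mul_le_mul_of_nonneg_left e2 (abs_nonneg _)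
      _ ≤ |a 6| * (1 / 4) ^ k := by rw [mul_one]; exact e1
      _ ≤ (62 / 2 ^ 30) * (1 / 2) ^ k :=
          mul_le_mul abs_a_six e3 (by positivity) (by positivity)
  have h2 := tsum_of_norm_bounded (geo_sum.mul_left (62 / 2 ^ 30)) h1
  rw [Real.norm_eq_abs] at h2
  refine h2.trans (le_of_eq ?_)
  norm_num

lemma lip_Tl {x y : ℝ} (hx : |x| ≤ 1) (hy : |y| ≤ 1) : |Tl x - Tl y| ≤ 1488 / 2 ^ 30 * |x - y| := by
  have h0 : Tl x - Tl y = ∑' k, a (k + 6) * (x ^ (2 * (k + 6)) - y ^ (2 * (k + 6))) := by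
    unfold Tl
    rw [← tl_summable.tsum_sub tl_summable]
    apply tsum_congr
    intro k
    ring
  have h1 : ∀ k : ℕ, ‖a (k + 6) * (x ^ (2 * (k + 6)) - y ^ (2 * (k + 6)))‖ ≤
      (744 / 2 ^ 30 * |x - y|) * (1 / 2 : ℝ) ^ k := by
    intro k
    rw [Real.norm_eq_abs, abs_mul]
    have e1 := abs_a_tail k
    have e2 := pow_sub_pow_le hx hy (2 * (k + 6))
    have e3 : ((2 * (k + 6) : ℕ) : ℝ) * (1 / 4 : ℝ) ^ k ≤ 12 * (1 / 2) ^ k := by
      have e4 : (k : ℝ) + 1 ≤ 2 ^ k := by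
        have : k + 1 ≤ 2 ^ k := Nat.lt_two_pow_self
        exact_mod_cast this
      have e5 : (1 / 4 : ℝ) ^ k = (1 / 2) ^ k * (1 / 2) ^ k := by
        rw [← mul_pow]; norm_num
      have e6 : (2 : ℝ) ^ k * (1 / 2) ^ k = 1 := by
        rw [← mul_pow]; norm_num
      have e7 : (0 : ℝ) < (1 / 2) ^ k := by positivity
      rw [e5]
      push_cast
      have e8 : (2 * ((k : ℝ) + 6)) * (1 / 2) ^ k ≤ 12 := by
        have : (2 * ((k : ℝ) + 6)) ≤ 12 * 2 ^ k := by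
          have h6 : (0 : ℝ) ≤ k := Nat.cast_nonneg k
          nlinarith
        calc (2 * ((k : ℝ) + 6)) * (1 / 2) ^ k ≤ (12 * 2 ^ k) * (1 / 2) ^ k :=
              mul_le_mul_of_nonneg_right this e7.le
          _ = 12 * (2 ^ k * (1 / 2) ^ k) := by ring
          _ = 12 := by rw [e6, mul_one]
      calc (2 * ((k : ℝ) + 6)) * ((1 / 2) ^ k * (1 / 2) ^ k)
          = ((2 * ((k : ℝ) + 6)) * (1 / 2) ^ k) * (1 / 2) ^ k := by ring
        _ ≤ 12 * (1 / 2) ^ k := mul_le_mul_of_nonneg_right e8 e7.le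
    have e9 := abs_a_six
    calc |a (k + 6)| * |x ^ (2 * (k + 6)) - y ^ (2 * (k + 6))|
        ≤ (|a 6| * (1 / 4) ^ k) * (((2 * (k + 6) : ℕ) : ℝ) * |x - y|) :=
          mul_le_mul e1 e2 (abs_nonneg _) (by positivity)
      _ = |a 6| * ((((2 * (k + 6) : ℕ) : ℝ) * (1 / 4) ^ k) * |x - y|) := by ring
      _ ≤ (62 / 2 ^ 30) * ((12 * (1 / 2) ^ k) * |x - y|) := by
          apply mul_le_mul e9 _ (by positivity) (by positivity)
          exact mul_le_mul_of_nonneg_right e3 (abs_nonneg _)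
      _ = (744 / 2 ^ 30 * |x - y|) * (1 / 2 : ℝ) ^ k := by ring
  rw [h0, ← Real.norm_eq_abs]
  have h2 := tsum_of_norm_bounded (geo_sum.mul_left (744 / 2 ^ 30 * |x - y|)) h1
  refine h2.trans (le_of_eq ?_)
  ring

lemma pi2_bounds : (1.57079632679489661923 : ℝ) ≤ π / 2 ∧ π / 2 ≤ 1.570796326794896619235 := by
  have h1 := Real.pi_gt_d20
  have h2 := Real.pi_lt_d20
  constructor <;> norm_num at h1 h2 ⊢ <;> linarith

lemma coeff (m : ℕ) (f c : ℝ) (hf : 0 < f) (h1 : (c - 1) / 2 ^ 30 * f ≤ 1.57079632679489661923 ^ m)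
    (h2 : 1.570796326794896619235 ^ m ≤ (c + 1) / 2 ^ 30 * f) :
    |(π / 2) ^ m / f - c / 2 ^ 30| ≤ 1 / 2 ^ 30 := by
  obtain ⟨b1, b2⟩ := pi2_bounds
  have h3 : 1.57079632679489661923 ^ m ≤ (π / 2) ^ m := pow_le_pow_left₀ (by norm_num) b1 m
  have h4 : (π / 2) ^ m ≤ 1.570796326794896619235 ^ m := pow_le_pow_left₀ (by positivity) b2 m
  have h5 : (c - 1) / 2 ^ 30 ≤ (π / 2) ^ m / f := by
    rw [le_div_iff₀ hf]; exact h1.trans h3
  have h6 : (π / 2) ^ m / f ≤ (c + 1) / 2 ^ 30 := by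
    rw [div_le_iff₀ hf]; exact h4.trans h2
  rw [abs_le]
  constructor
  · have : (c - 1) / 2 ^ 30 = c / 2 ^ 30 - 1 / 2 ^ 30 := by ring
    linarith
  · have : (c + 1) / 2 ^ 30 = c / 2 ^ 30 + 1 / 2 ^ 30 := by ring
    linarith

/-- coefficient errors -/
noncomputable def d : ℕ → ℝ
  | 0 => a 0 - 1686629713 / 2 ^ 30
  | 1 => a 1 + 693598668 / 2 ^ 30
  | 2 => a 2 - 85569306 / 2 ^ 30
  | 3 => a 3 + 5026995 / 2 ^ 30
  | 4 => a 4 - 172272 / 2 ^ 30
  | 5 => a 5 + 3864 / 2 ^ 30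
  | _ => 0

lemma abs_d (k : ℕ) (hk : k < 6) : |d k| ≤ 1 / 2 ^ 30 := by
  interval_cases k
  · have h := coeff 1 1 1686629713 (by norm_num) (by norm_num) (by norm_num)
    have e : d 0 = (π / 2) ^ 1 / 1 - 1686629713 / 2 ^ 30 := by
      simp only [d, a]; norm_num [Nat.factorial]
    rw [e]; exact h
  · have h := coeff 3 6 693598668 (by norm_num) (by norm_num) (by norm_num)
    have e : d 1 = -((π / 2) ^ 3 / 6 - 693598668 / 2 ^ 30) := by
      simp only [d, a]; norm_num [Nat.factorial]; ring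
    rw [e, abs_neg]; exact h
  · have h := coeff 5 120 85569306 (by norm_num) (by norm_num) (by norm_num)
    have e : d 2 = (π / 2) ^ 5 / 120 - 85569306 / 2 ^ 30 := by
      simp only [d, a]; norm_num [Nat.factorial]
    rw [e]; exact h
  · have h := coeff 7 5040 5026995 (by norm_num) (by norm_num) (by norm_num)
    have e : d 3 = -((π / 2) ^ 7 / 5040 - 5026995 / 2 ^ 30) := by
      simp only [d, a]; norm_num [Nat.factorial]; ring
    rw [e, abs_neg]; exact h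
  · have h := coeff 9 362880 172272 (by norm_num) (by norm_num) (by norm_num)
    have e : d 4 = (π / 2) ^ 9 / 362880 - 172272 / 2 ^ 30 := by
      simp only [d, a]; norm_num [Nat.factorial]
    rw [e]; exact h
  · have h := coeff 11 39916800 3864 (by norm_num) (by norm_num) (by norm_num)
    have e : d 5 = -((π / 2) ^ 11 / 39916800 - 3864 / 2 ^ 30) := by
      simp only [d, a]; norm_num [Nat.factorial]; ring
    rw [e, abs_neg]; exact h

lemma err_eq (x : ℝ) : scR x - pv (x ^ 2) scC = ∑ k ∈ Finset.range 6, d k * x ^ (2 * k) + Tl x := by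
  rw [sc_eq]
  have h1 : pv (x ^ 2) scC = 1686629713 / 2 ^ 30 + x ^ 2 * (-(693598668 / 2 ^ 30) + x ^ 2 *
      (85569306 / 2 ^ 30 + x ^ 2 * (-(5026995 / 2 ^ 30) + x ^ 2 * (172272 / 2 ^ 30 + x ^ 2 *
      (-(3864 / 2 ^ 30)))))) := by
    simp only [scC, pv, dy]
    norm_num
  rw [h1]
  simp only [Finset.sum_range_succ, Finset.sum_range_zero, d]
  ring

lemma bound {x : ℝ} (hx : |x| ≤ 1) : |scR x - pv (x ^ 2) scC| ≤ 256 / 2 ^ 30 := by
  rw [err_eq]
  have h1 : |∑ k ∈ Finset.range 6, d k * x ^ (2 * k)| ≤ ∑ _k ∈ Finset.range 6, (1 / 2 ^ 30 : ℝ) := by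
    refine (Finset.abs_sum_le_sum_abs _ _).trans (Finset.sum_le_sum fun k hk => ?_)
    rw [abs_mul, abs_pow]
    have e1 := abs_d k (Finset.mem_range.1 hk)
    have e2 : |x| ^ (2 * k) ≤ 1 := pow_le_one₀ (abs_nonneg _) hx
    calc |d k| * |x| ^ (2 * k) ≤ (1 / 2 ^ 30) * 1 :=
          mul_le_mul e1 e2 (by positivity) (by positivity)
      _ = _ := by ring
  have h2 := abs_Tl hx
  rw [Finset.sum_const, Finset.card_range, nsmul_eq_mul] at h1
  refine (abs_add_le _ _).trans ?_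
  refine (add_le_add h1 h2).trans ?_
  norm_num

lemma lip {x y : ℝ} (hx : |x| ≤ 1) (hy : |y| ≤ 1) :
    |(scR x - pv (x ^ 2) scC) - (scR y - pv (y ^ 2) scC)| ≤ 8192 / 2 ^ 30 * |x - y| := by
  rw [err_eq, err_eq]
  have h0 : ∑ k ∈ Finset.range 6, d k * x ^ (2 * k) + Tl x -
      (∑ k ∈ Finset.range 6, d k * y ^ (2 * k) + Tl y) =
      ∑ k ∈ Finset.range 6, d k * (x ^ (2 * k) - y ^ (2 * k)) + (Tl x - Tl y) := by
    simp only [mul_sub, Finset.sum_sub_distrib]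
    ring
  rw [h0]
  have h1 : |∑ k ∈ Finset.range 6, d k * (x ^ (2 * k) - y ^ (2 * k))| ≤
      ∑ _k ∈ Finset.range 6, (1 / 2 ^ 30 * (12 * |x - y|)) := by
    refine (Finset.abs_sum_le_sum_abs _ _).trans (Finset.sum_le_sum fun k hk => ?_)
    rw [abs_mul]
    have e1 := abs_d k (Finset.mem_range.1 hk)
    have e2 := pow_sub_pow_le hx hy (2 * k)
    have e3 : ((2 * k : ℕ) : ℝ) * |x - y| ≤ 12 * |x - y| := by
      apply mul_le_mul_of_nonneg_right _ (abs_nonneg _)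
      have : 2 * k ≤ 12 := by
        have := Finset.mem_range.1 hk
        omega
      exact_mod_cast this
    exact mul_le_mul e1 (e2.trans e3) (abs_nonneg _) (by positivity)
  have h2 := lip_Tl hx hy
  rw [Finset.sum_const, Finset.card_range, nsmul_eq_mul] at h1
  refine (abs_add_le _ _).trans ?_
  refine (add_le_add h1 h2).trans ?_
  have h3 : 0 ≤ |x - y| := abs_nonneg _
  push_cast
  nlinarith

lemma abs_cl (x : ℝ) : |cl x| ≤ 1 := by
  unfold cl
  rw [abs_le]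
  exact ⟨le_max_left _ _, max_le (by norm_num) (min_le_left _ _)⟩

lemma cl_lip (x y : ℝ) : |cl x - cl y| ≤ |x - y| := by
  unfold cl
  have h1 : |max (-1) (min 1 x) - max (-1) (min 1 y)| ≤ |min 1 x - min 1 y| := by
    have := abs_max_sub_max_le_max (-1) (min 1 x) (-1) (min 1 y)
    simpa using this
  have h2 : |min 1 x - min 1 y| ≤ |x - y| := by
    have := abs_min_sub_min_le_max 1 x 1 y
    simpa using this
  exact h1.trans h2

end ESC_

open ESC_ in
theorem esc_proof : Stmt_ESC := by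
  refine ⟨?_, ?_⟩
  · intro x
    exact bound (abs_cl x)
  · intro x y
    refine (lip (abs_cl x) (abs_cl y)).trans ?_
    exact mul_le_mul_of_nonneg_left (cl_lip x y) (by positivity)

end Pool.Agent.FTA
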