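import Pool.Agent.FTA.Defs

/-! Values at the periodic orthonormal configurations. -/

open Real

namespace Pool.Agent.FTA

namespace FIN_

theorem per_mod {N : ℕ} {y : Fin N → Eu 2} (h : PeriodicOrthonormal y) :
    ∀ (n : ℕ) (i : Fin N) (hr : n % 3 < N), (i : ℕ) = n → y i = y ⟨n % 3, hr⟩ := by
  intro n
  induction n using Nat.strong_induction_on with
  | _ n ih =>
    intro i hr hi
    by_cases h3 : n < 3
    · have : i = ⟨n % 3, hr⟩ := by
        apply Fin.ext
        simp only [hi]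
        omega
      rw [this]
    · have hlt : n - 3 < N := by have := i.2; omega
      have e : y i = y ⟨n - 3, hlt⟩ := h.per i ⟨n - 3, hlt⟩ (by simp only [hi]; omega)
      have hm : (n - 3) % 3 = n % 3 := by omega
      have hr' : (n - 3) % 3 < N := by rw [hm]; exact hr
      rw [e, ih (n - 3) (by omega) ⟨n - 3, hlt⟩ hr' rfl]
      congr 2

/-- inner products of a periodic orthonormal configuration -/
theorem inner_val {N : ℕ} {y : Fin N → Eu 2} (h : PeriodicOrthonormal y) (i j : Fin N) :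
    lineAngle (y i) (y j) = if (i : ℕ) % 3 = (j : ℕ) % 3 then 0 else π / 2 := by
  have hi : (i : ℕ) % 3 < N := lt_of_le_of_lt (Nat.mod_le _ _) i.2
  have hj : (j : ℕ) % 3 < N := lt_of_le_of_lt (Nat.mod_le _ _) j.2
  rw [per_mod h i i hi rfl, per_mod h j j hj rfl]
  split_ifs with e
  · have e' : (⟨(i : ℕ) % 3, hi⟩ : Fin N) = ⟨(j : ℕ) % 3, hj⟩ := Fin.ext e
    rw [e', lineAngle, real_inner_self_eq_norm_sq, h.unit]
    simp
  · have := h.orth ⟨(i : ℕ) % 3, hi⟩ ⟨(j : ℕ) % 3, hj⟩ (by simp only; omega) (by simp only; omega)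
      (fun h => e (by simpa using h))
    rw [lineAngle, this]
    simp

/-- number of indices below `n` congruent to `r` modulo `3` -/
def cnt (n r : ℕ) : ℕ := ∑ j ∈ Finset.range n, if j % 3 = r then 1 else 0

theorem cnt_add (n r : ℕ) (hr : r < 3) : cnt (n + 3) r = cnt n r + 1 := by
  unfold cnt
  rw [Finset.sum_range_succ, Finset.sum_range_succ, Finset.sum_range_succ]
  have h : ((if n % 3 = r then 1 else 0) + (if (n + 1) % 3 = r then 1 else 0) + (if (n + 2) % 3 = r then 1 else 0) : ℕ) = 1 := by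
    split_ifs <;> omega
  omega

theorem cnt_val (k s r : ℕ) (hr : r < 3) (hs : s < 3) : cnt (3 * k + s) r = k + (if r < s then 1 else 0) := by
  induction k with
  | zero =>
    interval_cases s <;> interval_cases r <;> rfl
  | succ k ih =>
    rw [show 3 * (k + 1) + s = (3 * k + s) + 3 by ring, cnt_add _ _ hr, ih]
    ring

theorem sum_mod (n : ℕ) (f : ℕ → ℝ) : ∑ i : Fin n, f ((i : ℕ) % 3) = cnt n 0 * f 0 + cnt n 1 * f 1 + cnt n 2 * f 2 := by
  rw [Fin.sum_univ_eq_sum_range (fun i => f (i % 3)) n]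
  unfold cnt
  push_cast
  rw [Finset.sum_mul, Finset.sum_mul, Finset.sum_mul, ← Finset.sum_add_distrib, ← Finset.sum_add_distrib]
  apply Finset.sum_congr rfl
  intro i _
  have : i % 3 = 0 ∨ i % 3 = 1 ∨ i % 3 = 2 := by omega
  rcases this with h | h | h <;> simp [h]

theorem energy_val {k s : ℕ} (hs : s < 3) {y : Fin (3 * k + s) → Eu 2} (h : PeriodicOrthonormal y) :
    energy y = π / 3 * (((3 * k + s : ℕ) : ℝ) ^ 2 - (if s = 0 then 0 else 1)) := by
  have e : energy y = ∑ i : Fin (3 * k + s), ∑ j : Fin (3 * k + s), (if (i : ℕ) % 3 = (j : ℕ) % 3 then 0 else π / 2) := by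
    unfold energy
    exact Finset.sum_congr rfl fun i _ => Finset.sum_congr rfl fun j _ => inner_val h i j
  rw [e]
  have e2 : ∀ i : Fin (3 * k + s), (∑ j : Fin (3 * k + s), (if (i : ℕ) % 3 = (j : ℕ) % 3 then 0 else π / 2)) =
      (fun r : ℕ => (cnt (3 * k + s) 0 * (if r = 0 then 0 else π / 2) + cnt (3 * k + s) 1 * (if r = 1 then 0 else π / 2) +
        cnt (3 * k + s) 2 * (if r = 2 then 0 else π / 2) : ℝ)) ((i : ℕ) % 3) := by
    intro i
    exact sum_mod (3 * k + s) (fun r => if (i : ℕ) % 3 = r then 0 else π / 2)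
  rw [Finset.sum_congr rfl fun i _ => e2 i, sum_mod (3 * k + s)
    (fun r : ℕ => (cnt (3 * k + s) 0 * (if r = 0 then 0 else π / 2) + cnt (3 * k + s) 1 * (if r = 1 then 0 else π / 2) +
        cnt (3 * k + s) 2 * (if r = 2 then 0 else π / 2) : ℝ))]
  rw [cnt_val k s 0 (by norm_num) hs, cnt_val k s 1 (by norm_num) hs, cnt_val k s 2 (by norm_num) hs]
  interval_cases s <;> norm_num <;> ring

/-- comparison of the bound `N^2 pi / 3` with the value at a periodic orthonormal configuration -/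
theorem compare {N : ℕ} (x y : Fin N → Eu 2) (hE : energy x ≤ (N : ℝ) ^ 2 * (π / 3)) (hy : PeriodicOrthonormal y) :
    energy x ≤ energy y + (if 3 ∣ N then 0 else π / 3) := by
  obtain ⟨k, s, hs, rfl⟩ : ∃ k s, s < 3 ∧ N = 3 * k + s := ⟨N / 3, N % 3, Nat.mod_lt _ (by norm_num), by omega⟩
  rw [energy_val hs hy]
  have hd : (3 ∣ 3 * k + s) ↔ s = 0 := by omega
  simp only [hd]
  split_ifs with h
  · nlinarith [hE]
  · nlinarith [hE]

/-- the average of the angle over an orthonormal basis -/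
theorem basis_val (e : Fin 3 → Eu 2) (he : Orthonormal ℝ e) :
    (1 / 9 : ℝ) * ∑ i, ∑ j, lineAngle (e i) (e j) = π / 3 := by
  have h : ∀ i j, lineAngle (e i) (e j) = if i = j then 0 else π / 2 := by
    intro i j
    rw [lineAngle, orthonormal_iff_ite.1 he i j]
    split_ifs <;> simp
  simp only [h, Fin.sum_univ_three]
  norm_num [Fin.ext_iff]
  ring

end FIN_

end Pool.Agent.FTA
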