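import Pool.Agent.FTA.Real

/-! Exact statements of the modules. -/

open Real

namespace Pool.Agent.FTA

/-! ### 1. Packed arithmetic and Taylor models -/

/-- packed number with the digits `D` -/
def pk (s : Finset (ℕ × ℕ × ℕ)) (D : ℕ × ℕ × ℕ → ℕ) : ℕ := ∑ e ∈ s, D e * (2 ^ 80) ^ slot e

/-- the numerals -/
def Stmt_CONST : Prop :=
  KE = pk Kx (fun _ => 1) ∧ KH = pk Hx (fun _ => 1) ∧ BE = 2 ^ 40 * KE ∧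
  C1 = 2 ^ 70 * (KE + KH) + BE * BE ∧ MK = (2 ^ 50 - 1) * KE ∧ MH = (2 ^ 80 - 1) * KH ∧ BM1 = 2 ^ 80 - 1

/-- masks and shifts act digitwise -/
def Stmt_BITS : Prop :=
  (∀ q : ℕ, q ≤ 30 → ∀ D : ℕ × ℕ × ℕ → ℕ, (∀ e, D e < 2 ^ (41 + q)) →
    Nat.land (Nat.shiftRight (pk (Kx ∪ Hx) D) q) MK = pk Kx (fun e => D e / 2 ^ q)) ∧
  (∀ D : ℕ × ℕ × ℕ → ℕ, (∀ e, D e < 2 ^ 71) → Nat.land (pk (Kx ∪ Hx) D) MH = pk Hx D)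

/-- elementary facts on the exponents and on `Enc` -/
def Stmt_KIT : Prop :=
  (∀ e ∈ Kx ∪ Hx, ∀ e' ∈ Kx ∪ Hx, slot e = slot e' → e = e') ∧ Disjoint Kx Hx ∧ Kx.card = 20 ∧ Hx.card = 64 ∧
  (∀ e ∈ Kx ∪ Hx, slot e ≤ 294) ∧ (∀ u, Cube u → ∀ e, |mono u e| ≤ 1) ∧
  (∀ N c, Enc N c ↔ ∃ D : ℕ × ℕ × ℕ → ℕ, (∀ e, D e < 2 ^ 41) ∧ (∀ e ∈ Kx, 0 < D e) ∧ N = pk Kx D ∧
    ∀ e ∈ Kx, c e = (D e : ℤ) - 2 ^ 40)

/-- sums of absolute values of centred digits -/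
def Stmt_ABS : Prop :=
  (∀ D : ℕ × ℕ × ℕ → ℕ, (∀ e, D e < 2 ^ 41) →
    ∑ e ∈ Kx, |(D e : ℤ) - 2 ^ 40| ≤ (absK (pk Kx D) : ℤ)) ∧
  (∀ D : ℕ × ℕ × ℕ → ℕ, (∀ e, D e < 2 ^ 71) →
    ∑ e ∈ Hx, |(D e : ℤ) - 2 ^ 70| ≤ (absH (pk Hx D) : ℤ))

/-- soundness of the multiplication -/
def Stmt_MUL : Prop := ∀ u, Cube u → ∀ a b x y, RepT u a x → RepT u b y → RepT u (TM.mul a b) (x * y)

/-- soundness of the linear operations -/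
def Stmt_LIN : Prop := ∀ u, Cube u →
  (∀ a b x y, RepT u a x → RepT u b y → RepT u (TM.add a b) (x + y)) ∧
  (∀ a b x y, RepT u a x → RepT u b y → RepT u (TM.sub a b) (x - y)) ∧
  (∀ a x, RepT u a x → RepT u (TM.ren a) x) ∧
  (∀ p q a x, RepT u a x → RepT u (TM.smul p q a) ((p : ℝ) / 2 ^ q * x)) ∧
  (∀ s p q, RepT u (TM.cst s p q) (dy s p q)) ∧
  (∀ a x y (e : ℕ) (o : Bool), RepT u a x → (o = true → |y - x| * 2 ^ 30 ≤ (e : ℝ)) → RepT u (TM.rad a e o) y) ∧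
  RepT u TM.one 1 ∧ RepT u TM.zero 0 ∧ RepT u tmA.ip (1 / π) ∧
  (∀ c h : ℕ, c < 2 ^ 39 → h < 2 ^ 39 → RepT u (TM.var 1 c h) (((c : ℝ) + (h : ℝ) * u.1) / 2 ^ 30) ∧
    RepT u (TM.var 7 c h) (((c : ℝ) + (h : ℝ) * u.2.1) / 2 ^ 30) ∧ RepT u (TM.var 49 c h) (((c : ℝ) + (h : ℝ) * u.2.2) / 2 ^ 30))

/-- norm bound and positivity -/
def Stmt_POS : Prop := ∀ u, Cube u →
  (∀ a x, RepT u a x → a.ok = true → |x| * 2 ^ 30 ≤ (TM.dev a : ℝ)) ∧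
  (∀ a x, RepT u a x → TM.pos a = true → 0 < x)

def Stmt_INV : Prop := ∀ u, Cube u → ∀ a x, RepT u a x →
  RepT u (TM.inv a) x⁻¹ ∧ ((TM.inv a).ok = true → x ≠ 0)
def Stmt_RSQ : Prop := ∀ u, Cube u → ∀ a x, RepT u a x →
  RepT u (TM.rsq a) (√x)⁻¹ ∧ ((TM.rsq a).ok = true → 0 < x)

/-- the flags propagate -/
def Stmt_OKF : Prop :=
  (∀ a b, (TM.mul a b).ok = true → a.ok = true ∧ b.ok = true) ∧
  (∀ a b, (TM.add a b).ok = true → a.ok = true ∧ b.ok = true) ∧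
  (∀ a b, (TM.sub a b).ok = true → a.ok = true ∧ b.ok = true) ∧
  (∀ p q a, (TM.smul p q a).ok = true → a.ok = true) ∧
  (∀ a, (TM.ren a).ok = true → a.ok = true) ∧
  (∀ a e o, (TM.rad a e o).ok = true → a.ok = true ∧ o = true) ∧
  (∀ a, (TM.inv a).ok = true → a.ok = true) ∧ (∀ a, (TM.rsq a).ok = true → a.ok = true) ∧
  (∀ a, TM.pos a = true → a.ok = true) ∧ (∀ a, TM.okf a = a.ok)

/-! ### 2. Errors of the polynomials -/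

def Stmt_ESC : Prop := (∀ x, |esc x| ≤ 256 / 2 ^ 30) ∧ ∀ x y, |esc x - esc y| ≤ 8192 / 2 ^ 30 * |x - y|
def Stmt_ECS : Prop := (∀ x, |ecs x| ≤ 1024 / 2 ^ 30) ∧ ∀ x y, |ecs x - ecs y| ≤ 16384 / 2 ^ 30 * |x - y|
def Stmt_EAC : Prop := (∀ x, |eac x| ≤ 2048 / 2 ^ 30) ∧ ∀ x y, |eac x - eac y| ≤ 262144 / 2 ^ 30 * |x - y|
def Stmt_EAS : Prop := ∀ x, |eas x| ≤ 256 / 2 ^ 30

/-- the algebra of Taylor models is sound -/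
def Stmt_TMC : Prop := ∀ u, Cube u → Compat tmA reA (RepT u)
/-- the algebra of slope models is sound -/
def Stmt_SLC : Prop := ∀ u, Cube u → ∀ r : ℝ, Compat slA prA (RepS u r)

/-! ### 3. Parametricity of the programs -/

def Stmt_PARQ : Prop := ∀ (α β : Type) (A : Alg α) (B : Alg β) (R : α → β → Prop), Compat A B R →
  ∀ a x t a' x' t', R a a' → R x x' → R t t' →
    List.Forall₂ (List.Forall₂ R) (gN A a x t) (gN B a' x' t') ∧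
    List.Forall₂ (List.Forall₂ R) (gA A a x t) (gA B a' x' t') ∧
    List.Forall₂ (List.Forall₂ R) (gB A a x t) (gB B a' x' t') ∧
    List.Forall₂ R (fN A a x t) (fN B a' x' t') ∧
    List.Forall₂ R (fP1 A a x t) (fP1 B a' x' t') ∧
    List.Forall₂ R (fP2 A a x t) (fP2 B a' x' t') ∧
    List.Forall₂ R (fF1 A a x t) (fF1 B a' x' t') ∧
    List.Forall₂ R (fF2 A a x t) (fF2 B a' x' t')

def Stmt_PARV : Prop := ∀ (α β : Type) (A : Alg α) (B : Alg β) (R : α → β → Prop), Compat A B R →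
  ∀ a x t a' x' t', R a a' → R x x' → R t t' →
    List.Forall₂ (List.Forall₂ R) (gV A a x t) (gV B a' x' t') ∧
    List.Forall₂ R (fV1 A a x t) (fV1 B a' x' t') ∧
    List.Forall₂ R (fV2 A a x t) (fV2 B a' x' t') ∧
    List.Forall₂ R (fV3 A a x t) (fV3 B a' x' t')

def Stmt_PARH : Prop := ∀ (α β : Type) (A : Alg α) (B : Alg β) (R : α → β → Prop), Compat A B R →
  ∀ a x t a' x' t', R a a' → R x x' → R t t' →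
    List.Forall₂ (List.Forall₂ R) (gHN A a x t) (gHN B a' x' t') ∧
    List.Forall₂ (List.Forall₂ R) (gHP A a x t) (gHP B a' x' t') ∧
    List.Forall₂ (List.Forall₂ R) (gHE A a x t) (gHE B a' x' t')

/-! ### 4. Trees -/

/-- `x` lies in the box with centre `c`, half width `h` (scale `2 ^ 30`) -/
def InB (x : ℝ) (c h : ℕ) : Prop := |x * 2 ^ 30 - (c : ℝ)| ≤ (h : ℝ)

/-- soundness of the tree check for regions -/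
def Stmt_TREE : Prop := ∀ (g₁ : Alg TM → TM → TM → TM → List (List TM)) (g₂ : Alg ℝ → ℝ → ℝ → ℝ → List (List ℝ)),
  (∀ u, Cube u → ∀ a x t a' x' t', RepT u a a' → RepT u x x' → RepT u t t' →
    List.Forall₂ (List.Forall₂ (RepT u)) (g₁ tmA a x t) (g₂ reA a' x' t')) →
  ∀ (ex : ℕ → ℕ → ℕ → ℕ → ℕ → ℕ → Bool) (tr : Tr) (c0 h0 c1 h1 c2 h2 : ℕ),
    h0 ≤ c0 → h1 ≤ c1 → h2 ≤ c2 → c0 + h0 < 2 ^ 39 → c1 + h1 < 2 ^ 39 → c2 + h2 < 2 ^ 39 →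
    Tr.chk (leaf g₁) ex tr c0 h0 c1 h1 c2 h2 = true →
    ∀ x y z : ℝ, InB x c0 h0 → InB y c1 h1 → InB z c2 h2 →
      (∀ l ∈ g₂ reA x y z, ∃ v ∈ l, 0 < v) ∨
      (∃ k0 l0 k1 l1 k2 l2, ex k0 l0 k1 l1 k2 l2 = true ∧ InB x k0 l0 ∧ InB y k1 l1 ∧ InB z k2 l2)

/-- soundness of the tree check for slopes -/
def Stmt_TREES : Prop := ∀ (g₁ : Alg SL → SL → SL → SL → List SL) (g₂ : Alg (ℝ × ℝ) → ℝ × ℝ → ℝ × ℝ → ℝ × ℝ → List (ℝ × ℝ)),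
  (∀ u, Cube u → ∀ r : ℝ, ∀ a x t a' x' t', RepS u r a a' → RepS u r x x' → RepS u r t t' →
    List.Forall₂ (RepS u r) (g₁ slA a x t) (g₂ prA a' x' t')) →
  ∀ (tr : Tr) (c0 h0 c1 h1 c2 h2 : ℕ),
    h0 ≤ c0 → h1 ≤ c1 → h2 ≤ c2 → c0 + h0 < 2 ^ 39 → c1 + h1 < 2 ^ 39 → c2 + h2 < 2 ^ 39 →
    Tr.chk (leafS g₁) exNo tr c0 h0 c1 h1 c2 h2 = true →
    ∀ x r z : ℝ, InB x c0 h0 → InB r c1 h1 → InB z c2 h2 → 0 ≤ r →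
      ∀ v ∈ g₂ prA (x, x) (0, r) (z, z), v.1 ≤ v.2

/-! ### 5. Natural values of the programs -/

/-- the side data in natural terms -/
noncomputable def nside (p : ℝ) : Side ℝ :=
  { t := p, S := sn p, C := cn p, i := p / sn p, d := p / sn p - sn p, q := p2 p / sn p, s := p3 p / sn p }

/-- the primitives of `reA` on their natural domains -/
def Stmt_PRIM : Prop :=
  (∀ x, |x| ≤ 1 → reA.sc x = scR x) ∧ (∀ x, |x| ≤ 1 → reA.cs x = cn x) ∧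
  (∀ t, 0 ≤ t → t ≤ 1 → reA.ac t = acR t) ∧ (∀ v, 0 ≤ v → v ≤ 1 / 4 → reA.as v = asR v)

/-- the three kinds of poles: `p ≤ q`, `k = kk p q`, `y = D / (sn p sn q)` -/
def Stmt_POLE : Prop := ∀ p q t y D : ℝ, 0 < p → p ≤ q → q ≤ 1 → 0 < y → t ^ 2 + y ^ 2 = 1 → D = y * (sn p * sn q) →
  (0 ≤ t → D * poleA reA (nside p) (nside q) (kk p q / sn p) (sn q)⁻¹ t y = F p q 1 - F p q t) ∧
  (t ≤ 0 → D * poleO reA (nside p) (nside q) (kk p q / sn p) (sn q)⁻¹ (-t) y = F p q (-1) - F p q t) ∧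
  (0 ≤ t → D * poleE reA (nside p) (nside q) (kk p q / sn p) (sn q)⁻¹ t y = F p q (-1) - F p q t)

/-- the identities at `D = 0` -/
def Stmt_ID : Prop := ∀ a b c e : ℝ, 0 ≤ a → a ≤ b → b ≤ c → c ≤ 1 → 0 ≤ e →
  (c = a + b - 2 * e → 2 - a - b - c - F a b (-1) - F a c 1 - F b c 1 =
    sn e * cn e * (4 * (sn a * sn b * sn c) - 2 * (sn e * cn e)) / 2 - 5 / 2 * (e + kk a b)) ∧
  (a + b + c = 2 + 2 * e → 2 - a - b - c - F a b (-1) - F a c (-1) - F b c (-1) =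
    sn e * cn e * (4 * (sn a * sn b * sn c) - 2 * (sn e * cn e)) / 2 - 15 / 2 * e)

/-- sign of the type -/
def sg (neg : Bool) : ℝ := if neg = true then -1 else 1

/-- elementary trigonometry of the triple -/
def Stmt_TRIG : Prop := ∀ (neg : Bool) (a b c e0 e1 e2 e3 : ℝ), 0 < a → a ≤ b → b ≤ c → c ≤ 1 → 0 < e0 →
  e0 + e1 = a → e0 + e2 = b → e0 + e1 + e2 + e3 = 2 → (if neg = true then e0 + e3 = c else e1 + e2 = c) →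
  0 < e1 ∧ 0 < e2 ∧ 0 < e3 ∧ 0 < sn e0 ∧ 0 < sn e1 ∧ 0 < sn e2 ∧ 0 < sn e3 ∧ 0 < sn a ∧ 0 < sn b ∧ 0 < sn c ∧
  gram a b c (sg neg) = 4 * (sn e0 * sn e1 * sn e2 * sn e3) ∧
  sn e0 * sn e3 - sn e1 * sn e2 = sg neg * cn c - cn a * cn b ∧
  sn e1 * sn e3 - sn e0 * sn e2 = cn b - sg neg * (cn a * cn c) ∧
  sn e2 * sn e3 - sn e0 * sn e1 = cn a - sg neg * (cn b * cn c) ∧
  (sn a * sn b) ^ 2 = (sg neg * cn c - cn a * cn b) ^ 2 + gram a b c (sg neg) ∧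
  (sn a * sn c) ^ 2 = (sg neg * cn b - cn a * cn c) ^ 2 + gram a b c (sg neg) ∧
  (sn b * sn c) ^ 2 = (sg neg * cn a - cn b * cn c) ^ 2 + gram a b c (sg neg)

/-- natural values of the core -/
def CoreVal (K : Core ℝ) (neg : Bool) (a b c e0 D : ℝ) : Prop :=
  K.a = nside a ∧ K.b = nside b ∧ K.c = nside c ∧ K.isb = (sn b)⁻¹ ∧ K.isc = (sn c)⁻¹ ∧
  K.yz = D / (sn a * sn b) ∧ K.yx = D / (sn a * sn c) ∧ K.yy = D / (sn b * sn c) ∧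
  K.xz = tt a b c (sg neg) ∧ K.xx = sg neg * tt a c b (sg neg) ∧ K.xy = sg neg * tt b c a (sg neg) ∧
  D * K.bs = sn e0 * cn e0 * (4 * (sn a * sn b * sn c) - 2 * (sn e0 * cn e0)) / 2
    - (if neg = true then 15 / 2 else 5 / 2) * e0 ∧
  D * K.kd = 2 * e0

/-- the core program, `D = sqrt gram` -/
def Stmt_CORE : Prop := ∀ (neg : Bool) (a be gm f0 f1 τ : ℝ),
  0 < a → a ≤ 1 - be → 0 ≤ gm → gm ≤ be → 0 < f0 → f0 ≤ f1 → f0 + f1 = 1 → 0 < τ → τ ^ 2 * f1 = f0 →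
  (if neg = true then be + gm = a * (f1 - f0) else be - gm = a * (f1 - f0)) →
  0 < gram a (1 - be) (1 - gm) (sg neg) ∧
  CoreVal (core reA neg a be gm f0 f1 τ) neg a (1 - be) (1 - gm) (a * f0) (√(gram a (1 - be) (1 - gm) (sg neg)))

/-- from the core to the slack, negative type -/
def Stmt_QN : Prop := ∀ (K : Core ℝ) (a b c e0 D kz kx : ℝ), 0 < a → a ≤ b → b ≤ c → c ≤ 1 → 0 ≤ e0 →
  a + b + c = 2 + 2 * e0 → D ^ 2 = gram a b c (-1) → 0 < D → CoreVal K true a b c e0 D →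
  kz = kk a b / sn a → kx = kk a c / sn a →
  Gf a b c (-1) = D * qN reA K (1 - b) (1 - c) kz kx

/-- from the core to the slack, positive type; `kz, kx` arbitrary, true kinks -/
def Stmt_QP : Prop := ∀ (K : Core ℝ) (a b c e0 D kz kx kD : ℝ), 0 < a → a ≤ b → b ≤ c → c ≤ 1 → 0 ≤ e0 →
  c = a + b - 2 * e0 → D ^ 2 = gram a b c 1 → 0 < D → CoreVal K false a b c e0 D → 1 ≤ b + c →
  kz = kk a b / sn a → kx = kk a c / sn a → D * kD = kk a b →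
  (tt a b c 1 ≤ 0 → Gf a b c 1 = D * qP reA false K (1 - c) kz kx kD) ∧
  (0 ≤ tt a b c 1 → Gf a b c 1 = D * qP reA true K (1 - c) kz kx kD)

/-- `qP` is affine in the kinks -/
def Stmt_AFF : Prop := ∀ (ev : Bool) (K : Core ℝ) (gm l0 l1 l2 z0 z1 z2 x0 x1 x2 d0 d1 d2 : ℝ), l0 + l1 + l2 = 1 →
  qP reA ev K gm (l0 * z0 + l1 * z1 + l2 * z2) (l0 * x0 + l1 * x1 + l2 * x2) (l0 * d0 + l1 * d1 + l2 * d2) =
    l0 * qP reA ev K gm z0 x0 d0 + l1 * qP reA ev K gm z1 x1 d1 + l2 * qP reA ev K gm z2 x2 d2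

/-! closed forms of the charts: `G = D * program` with `D > 0` -/

def Stmt_CN : Prop := ∀ a x t be gm : ℝ, 0 < a → 0 ≤ x → x ≤ 1 → 0 < t → t ≤ 1 →
  gm = a * ((1 - t ^ 2) / (1 + t ^ 2) * x / 2) → be = a * ((1 - t ^ 2) / (1 + t ^ 2) * (1 - x / 2)) → a ≤ 1 - be →
  ∃ D, 0 < D ∧ Gf a (1 - be) (1 - gm) (-1) = D * cN reA a x t

def Stmt_CA : Prop := ∀ a x t be gm : ℝ, 0 < a → 0 ≤ x → x ≤ 1 → 0 < t → t ≤ 1 →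
  gm = a * (2 * t ^ 2 / (1 + t ^ 2) * x) → be = gm + a * ((1 - t ^ 2) / (1 + t ^ 2)) → a ≤ 1 - be →
  ∃ D, 0 < D ∧ (cA reA a x t).xz = tt a (1 - be) (1 - gm) 1 ∧
    ((cA reA a x t).xz ≤ 0 → Gf a (1 - be) (1 - gm) 1 = D * (cA reA a x t).o) ∧
    (0 ≤ (cA reA a x t).xz → Gf a (1 - be) (1 - gm) 1 = D * (cA reA a x t).e)

def Stmt_CB : Prop := ∀ a x t be gm : ℝ, 0 < a → 0 ≤ x → x ≤ 1 → 0 < t → t ≤ 1 →
  gm = a * (2 * t ^ 2 / (1 + t ^ 2) + (1 - t ^ 2) / (1 + t ^ 2) * x) → be = gm + a * ((1 - t ^ 2) / (1 + t ^ 2)) →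
  a ≤ 1 - be →
  ∃ D, 0 < D ∧ (cB reA a x t).xz = tt a (1 - be) (1 - gm) 1 ∧
    ((cB reA a x t).xz ≤ 0 → Gf a (1 - be) (1 - gm) 1 = D * (cB reA a x t).o) ∧
    (0 ≤ (cB reA a x t).xz → Gf a (1 - be) (1 - gm) 1 = D * (cB reA a x t).e)

def Stmt_CV : Prop := ∀ (k1 : Bool) (rho b t a c : ℝ), 0 < rho → rho ≤ 1 → 0 < b → 0 < t → t ≤ 1 →
  a = rho * b → c = b * (1 + rho * ((1 - t ^ 2) / (1 + t ^ 2))) → a + c ≤ 1 →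
  (if k1 = true then 1 ≤ b + c else b + c ≤ 1) →
  ∃ D, 0 < D ∧ (cV reA k1 rho b t).xz = tt a b c 1 ∧
    ((cV reA k1 rho b t).xz ≤ 0 → Gf a b c 1 = D * (cV reA k1 rho b t).o) ∧
    (0 ≤ (cV reA k1 rho b t).xz → Gf a b c 1 = D * (cV reA k1 rho b t).e)

/-- charts near the edge, negative type -/
def Stmt_CEN : Prop := ∀ a xi x : ℝ, 0 < a → 0 ≤ xi → xi < 1 → 0 ≤ x → x ≤ 1 → a ≤ 1 - a * (xi - xi * x / 2) →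
  ∃ D, 0 < D ∧ Gf a (1 - a * (xi - xi * x / 2)) (1 - a * (xi * x / 2)) (-1) = D * eN reA a xi x

/-- near `V1`, positive type: convex combination of the three kink modes -/
def Stmt_CEP : Prop := ∀ a xi gm : ℝ, 0 < a → 0 ≤ xi → xi < 1 → 0 ≤ gm → a ≤ 1 - (gm + a * xi) → gm + (gm + a * xi) ≤ 1 →
  ∃ D l0 l1 l2 : ℝ, ∃ ev : Bool, 0 < D ∧ 0 ≤ l0 ∧ 0 ≤ l1 ∧ 0 ≤ l2 ∧ l0 + l1 + l2 = 1 ∧
    Gf a (1 - (gm + a * xi)) (1 - gm) 1 =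
      D * (l0 * eP reA 0 ev a xi gm + l1 * eP reA 1 ev a xi gm + l2 * eP reA 2 ev a xi gm)

/-- edge, positive type, all kinks active -/
def Stmt_CEF : Prop := ∀ a xi g : ℝ, 0 < a → 0 ≤ xi → xi < 1 → 0 ≤ g → g ≤ 1 - xi → a ≤ 1 - a * (g + xi) →
  a * g + a * (g + xi) ≤ 1 →
  ∃ D, ∃ ev : Bool, 0 < D ∧ Gf a (1 - a * (g + xi)) (1 - a * g) 1 = D * eF reA ev a xi g

/-- reference values are zero -/
def Stmt_REF : Prop := (∀ a x : ℝ, 0 < a → a < 1 → 0 ≤ x → x ≤ 1 → eN reA a 0 x = 0) ∧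
  (∀ a : ℝ, 0 < a → a < 1 → ∀ ev : Bool, ∀ m : ℕ, m < 3 → eP reA m ev a 0 0 = 0) ∧
  (∀ a : ℝ, 0 < a → a < 1 → ∀ ev : Bool, eF reA ev a 0 0 = 0) ∧
  (cV reA false 1 0 0).o = 0

/-- `F` in complement variables -/
def Stmt_HB : Prop :=
  (∀ al be t : ℝ, 0 ≤ be → be ≤ al → al ≤ 3 / 16 → F (1 - al) (1 - be) t =
    3 / 2 * (-(1 / 3) + al + De al / 8) * (-(1 / 3) + be + De be / 8)
    + 4 * (1 / 4 - (al / 4 + De al / 8)) * (1 / 4 - (be / 4 + De be / 8)) * T2 t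
    + 4 * (1 / 4 - (al / 4 + 3 * De al / 16)) * (1 / 4 - (be / 4 + 3 * De be / 16)) * (2 * t ^ 2 - 1)
    + (5 / 4 * be - sn al * cn al * (sn be * cn be) / 2) * (t + T1 t) / 2
    + (5 / 4 * (be * (1 - 2 * al)) - 93 / 128 * De al * De be) * t ^ 2) ∧
  (∀ t : ℝ, 0 ≤ t → t ≤ 1 → T2 t = -1 + 2 * T1 t ∧ T2 (-t) = -1 + 2 * T1 t ∧ T1 (-t) = -T1 t) ∧
  (∀ t C : ℝ, 0 ≤ t → t < 1 → 0 ≤ C → C ≤ 1 → 1 / π * (C - t) * (√(1 - t ^ 2))⁻¹ ≤ (T1 C - T1 t) / 2) ∧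
  (∀ x : ℝ, 0 ≤ x → x ≤ 1 → T1 (sn x) = x ∧ cn (1 - x) = sn x ∧ sn (1 - x) = cn x) ∧
  (∀ x : ℝ, 0 ≤ x → x ≤ 3 / 16 → 0 ≤ sn x ∧ sn x ≤ 3 / 10 ∧ 19 / 20 ≤ cn x ∧ cn x ≤ 1)

/-- complement form near `V3`, the three cases -/
def Stmt_CHN : Prop := ∀ al s u : ℝ, 0 ≤ al → al ≤ 3 / 16 → 0 ≤ s → s ≤ 1 → 0 ≤ u → u ≤ 1 →
  al * (al * s) * (hF reA true false al s u u).1 ≤ Gf (1 - al) (1 - al * s) (1 - al * s * u) (-1)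

def Stmt_CHP : Prop := ∀ al s u : ℝ, 0 ≤ al → al ≤ 3 / 16 → 0 ≤ s → s ≤ 1 → 0 ≤ u → u ≤ 1 →
  0 ≤ tt (1 - al) (1 - al * s) (1 - al * s * u) 1 →
  0 ≤ al * s * (hF reA false false al s u u).2 ∧
  al * (al * s) * (hF reA false false al s u u).1 ≤ Gf (1 - al) (1 - al * s) (1 - al * s * u) 1

def Stmt_CHE : Prop := ∀ al s v : ℝ, 0 ≤ al → al ≤ 3 / 16 → 0 ≤ s → s ≤ 1 → 0 ≤ v → al * v ≤ 1 →
  tt (1 - al) (1 - al * s) (1 - al * s * (al * v)) 1 ≤ 0 →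
  0 ≤ al * s * (hF reA false true al s (al * v) v).2 ∧
  al * (al * s) * (hF reA false true al s (al * v) v).1 ≤ Gf (1 - al) (1 - al * s) (1 - al * s * (al * v)) 1

/-! ### 6. The results of the kernel checks in natural form -/

def Stmt_RN : Prop := ∀ a x t : ℝ, 0 ≤ a → a ≤ 13 / 16 → 0 ≤ x → x ≤ 1 → 0 ≤ t → t ≤ 113 / 128 →
  a ≤ 1 - a * ((1 - t ^ 2) / (1 + t ^ 2) * (1 - x / 2)) → 0 < cN reA a x t

def Stmt_RA : Prop := ∀ a x t : ℝ, 0 ≤ a → a ≤ 13 / 16 → 0 ≤ x → x ≤ 1 → 0 ≤ t → t ≤ 1 →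
  a ≤ 1 - a * (2 * t ^ 2 / (1 + t ^ 2) * x + (1 - t ^ 2) / (1 + t ^ 2)) →
  ¬ ((1 - t ^ 2) / (1 + t ^ 2) < 1 / 8 ∧ (2 * t ^ 2 / (1 + t ^ 2) * x < 1 / 8 ∨ a < 3 / 32)) →
  ((cA reA a x t).xz ≤ 0 → 0 < (cA reA a x t).o) ∧ (0 ≤ (cA reA a x t).xz → 0 < (cA reA a x t).e)

def Stmt_RB : Prop := ∀ a x t : ℝ, 0 ≤ a → a ≤ 13 / 16 → 0 ≤ x → x ≤ 1 → 0 ≤ t → t ≤ 1 →
  a ≤ 1 - a * (2 * t ^ 2 / (1 + t ^ 2) + (1 - t ^ 2) / (1 + t ^ 2) * x + (1 - t ^ 2) / (1 + t ^ 2)) →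
  ¬ ((1 - t ^ 2) / (1 + t ^ 2) < 1 / 8 ∧ a < 3 / 32) →
  ((cB reA a x t).xz ≤ 0 → 0 < (cB reA a x t).o) ∧ (0 ≤ (cB reA a x t).xz → 0 < (cB reA a x t).e)

def Stmt_RV : Prop := ∀ (k1 : Bool) (rho b t : ℝ), 0 ≤ rho → rho ≤ 1 → 0 ≤ b → b ≤ 1 → 0 ≤ t → t ≤ 1 →
  ∀ c : ℝ, c = b * (1 + rho * ((1 - t ^ 2) / (1 + t ^ 2))) → rho * b + c ≤ 1 →
  (if k1 = true then 1 ≤ b + c else b + c ≤ 1) →
  ¬ ((1 - t ^ 2) / (1 + t ^ 2) < 1 / 8 ∧ 1 - c < 3 / 32) → ¬ (31 / 32 ≤ rho ∧ b ≤ 1 / 32 ∧ t ≤ 1 / 32) →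
  ((cV reA k1 rho b t).xz ≤ 0 → 0 < (cV reA k1 rho b t).o) ∧ (0 ≤ (cV reA k1 rho b t).xz → 0 < (cV reA k1 rho b t).e)

def Stmt_RH : Prop :=
  (∀ al s u : ℝ, 0 ≤ al → al ≤ 3 / 16 → 0 ≤ s → s ≤ 1 → 0 ≤ u → u ≤ 1 → 0 < (hF reA true false al s u u).1) ∧
  (∀ al s u : ℝ, 0 ≤ al → al ≤ 3 / 16 → 0 ≤ s → s ≤ 1 → 0 ≤ u → u ≤ 1 → 0 ≤ (hF reA false false al s u u).2 →
    0 < (hF reA false false al s u u).1) ∧
  (∀ al s v : ℝ, 0 ≤ al → al ≤ 3 / 16 → 0 ≤ s → s ≤ 1 → 0 ≤ v → v ≤ 13 / 8 →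
    0 ≤ (hF reA false true al s (al * v) v).2 → 0 < (hF reA false true al s (al * v) v).1)

def Stmt_RS : Prop :=
  (∀ a r s : ℝ, 0 ≤ a → a ≤ 13 / 16 → 0 ≤ r → r ≤ 1 / 8 → 0 ≤ s → s ≤ 1 → eN reA a 0 s ≤ eN reA a r s) ∧
  (∀ a r s : ℝ, 0 ≤ a → a ≤ 3 / 32 → 0 ≤ r → r ≤ 1 / 8 → 0 ≤ s → s ≤ 1 → ∀ m : ℕ, m < 3 → ∀ ev : Bool,
    eP reA m ev a 0 0 ≤ eP reA m ev a r (r * s)) ∧
  (∀ a r s : ℝ, 0 ≤ a → a ≤ 3 / 32 → 0 ≤ r → r ≤ 3 / 32 → 0 ≤ s → s ≤ 1 → ∀ m : ℕ, m < 3 → ∀ ev : Bool,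
    eP reA m ev a 0 0 ≤ eP reA m ev a (r * s) r) ∧
  (∀ a r s : ℝ, 3 / 32 ≤ a → a ≤ 13 / 16 → 0 ≤ r → r ≤ 1 / 8 → 0 ≤ s → s ≤ 1 → ∀ ev : Bool,
    eF reA ev a 0 0 ≤ eF reA ev a r (r * s) ∧ eF reA ev a 0 0 ≤ eF reA ev a (r * s) r) ∧
  (∀ x b t : ℝ, 0 ≤ x → x ≤ 1 / 32 → 0 ≤ b → b ≤ 1 / 32 → 0 ≤ t → t ≤ 1 / 32 →
    (cV reA false 1 0 0).o ≤ (cV reA false (1 - x) b t).o)

/-! ### 7. Covering and the main inequality -/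

def Stmt_COVN : Prop := ∀ a b c : ℝ, 0 < a → a ≤ b → b ≤ c → c ≤ 1 → 2 < a + b + c → 0 ≤ Gf a b c (-1)
def Stmt_COVP : Prop := ∀ a b c : ℝ, 0 < a → a ≤ b → b ≤ c → c ≤ 1 → c < a + b → 0 ≤ Gf a b c 1
/-- degenerate cases -/
def Stmt_DEG : Prop := (∀ a b c : ℝ, 0 ≤ a → a ≤ b → b ≤ c → c ≤ 1 → c = a + b → Gf a b c 1 = 0) ∧
  (∀ a b c : ℝ, 0 ≤ a → a ≤ b → b ≤ c → c ≤ 1 → a + b + c = 2 → Gf a b c (-1) = 0)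
/-- Gram determinant and the triangle inequalities -/
def Stmt_GRAM : Prop := ∀ a b c : ℝ, 0 ≤ a → a ≤ b → b ≤ c → c ≤ 1 →
  (0 ≤ gram a b c 1 → c ≤ a + b) ∧ (0 ≤ gram a b c (-1) → 2 ≤ a + b + c)
/-- the main inequality -/
def Stmt_MI : Prop := ∀ a b c s : ℝ, 0 ≤ a → a ≤ 1 → 0 ≤ b → b ≤ 1 → 0 ≤ c → c ≤ 1 → (s = 1 ∨ s = -1) →
  0 ≤ gram a b c s → 0 ≤ Gf a b c s

/-! ### 8. Positive definiteness -/

/-- a positive semidefinite kernel -/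
def PSDK {X : Type} (K : X → X → ℝ) : Prop :=
  (∀ x y, K x y = K y x) ∧ ∀ (n : ℕ) (x : Fin n → X) (c : Fin n → ℝ), 0 ≤ ∑ i, ∑ j, c i * c j * K (x i) (x j)

def Stmt_SCHUR : Prop := ∀ (X : Type) (K L : X → X → ℝ), PSDK K → PSDK L → PSDK (fun x y => K x y * L x y)
def Stmt_PT : Prop := PSDK (fun x y : ℝ => T1 (Real.cos (x - y))) ∧ PSDK (fun x y : ℝ => T2 (Real.cos (x - y)))
def Stmt_PW : Prop := PSDK (fun x y : Set.Icc (0 : ℝ) 1 => Wf x y)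
def Stmt_PR : Prop := PSDK (fun x y : Set.Icc (0 : ℝ) 1 => Rf x y)
def Stmt_PSD : Prop := PSDK (fun x y : Set.Icc (0 : ℝ) 1 × ℝ => F x.1 y.1 (Real.cos (x.2 - y.2)))

/-! ### 9. Geometry -/

abbrev V3 := EuclideanSpace ℝ (Fin 3)

noncomputable def ang (x y : V3) : ℝ := 2 / π * Real.arccos |inner ℝ x y|
noncomputable def sgp (r : ℝ) : ℝ := if 0 ≤ r then 1 else -1
noncomputable def tz (z x y : V3) : ℝ :=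
  (sgp (inner ℝ z x) * sgp (inner ℝ z y) * inner ℝ x y - |inner ℝ z x| * |inner ℝ z y|) / (sn (ang z x) * sn (ang z y))
noncomputable def FF (z x y : V3) : ℝ := F (ang z x) (ang z y) (tz z x y)

def Stmt_AZI : Prop := ∀ z : V3, ‖z‖ = 1 → ∃ φ : V3 → ℝ, ∀ x y : V3, ‖x‖ = 1 → ‖y‖ = 1 →
  FF z x y = F (ang z x) (ang z y) (Real.cos (φ x - φ y))
def Stmt_TRI : Prop := ∀ x y z : V3, ‖x‖ = 1 → ‖y‖ = 1 → ‖z‖ = 1 →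
  FF z x y + FF x y z + FF y z x ≤ 2 - ang x y - ang y z - ang z x
/-- the bound for all `N` -/
def Stmt_SUM : Prop := ∀ (n : ℕ) (x : Fin n → V3), (∀ i, ‖x i‖ = 1) →
  ∑ i, ∑ j, Real.arccos |inner ℝ (x i) (x j)| ≤ (n : ℝ) ^ 2 * (π / 3)
/-- the continuous version -/
def Stmt_MEAS : Prop := ∀ μ : MeasureTheory.Measure V3, MeasureTheory.IsProbabilityMeasure μ →
  μ (Metric.sphere 0 1)ᶜ = 0 → ∫ x, ∫ y, Real.arccos |inner ℝ x y| ∂μ ∂μ ≤ π / 3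

end Pool.Agent.FTA
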