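import Pool.Agent.FTA.Fin
import Pool.Agent.FTA.Stmts

/-! The continuous version: uniform measure on an orthonormal basis. -/

open Real MeasureTheory

namespace Pool.Agent.FTA

namespace FIN_

/-- the uniform probability measure on the three vectors `e 0, e 1, e 2` gives the value `pi / 3` -/
theorem basis_integral (e : Fin 3 → Eu 2) (he : Orthonormal ℝ e) :
    ∫ x, ∫ y, lineAngle x y ∂((3 : ENNReal)⁻¹ • ∑ i, Measure.dirac (e i)) ∂((3 : ENNReal)⁻¹ • ∑ i, Measure.dirac (e i)) = π / 3 := by
  have key : ∀ f : Eu 2 → ℝ, ∫ x, f x ∂((3 : ENNReal)⁻¹ • ∑ i, Measure.dirac (e i)) = (1 / 3) * ∑ i, f (e i) := by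
    intro f
    rw [integral_smul_measure, integral_finsetSum_measure]
    · simp only [integral_dirac]
      norm_num
    · intro i _
      exact integrable_dirac (by simp)
  have h2 : ∀ x, ∫ y, lineAngle x y ∂((3 : ENNReal)⁻¹ • ∑ i, Measure.dirac (e i)) = (1 / 3) * ∑ j, lineAngle x (e j) := by
    intro x
    exact key _
  simp only [h2]
  rw [key, ← basis_val e he, ← Finset.mul_sum]
  ring

end FIN_

end Pool.Agent.FTA
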