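import Pool.Agent.FTA.Stmts

set_option autoImplicit false

/-! The Gram determinant and the triangle inequalities. -/

open Real

namespace Pool.Agent.FTA

namespace GRAM_

lemma cn_add (a b : ℝ) : cn (a + b) = cn a * cn b - sn a * sn b := by
  unfold cn sn
  rw [show π * (a + b) / 2 = π * a / 2 + π * b / 2 by ring, Real.cos_add]

lemma sn_sq (a : ℝ) : sn a ^ 2 = 1 - cn a ^ 2 := by
  unfold cn sn
  have := Real.sin_sq_add_cos_sq (π * a / 2)
  linarith

lemma sn_nonneg {a : ℝ} (h0 : 0 ≤ a) (h1 : a ≤ 1) : 0 ≤ sn a := by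
  unfold sn
  refine Real.sin_nonneg_of_nonneg_of_le_pi (by positivity) ?_
  nlinarith [Real.pi_pos]

lemma cn_lt {x y : ℝ} (h0 : 0 ≤ x) (h1 : x < y) (h2 : y ≤ 2) : cn y < cn x := by
  unfold cn
  refine Real.cos_lt_cos_of_nonneg_of_le_pi (by positivity) ?_ ?_
  · nlinarith [Real.pi_pos]
  · nlinarith [Real.pi_pos]

lemma cn_two_sub (c : ℝ) : cn (2 - c) = -cn c := by
  unfold cn
  rw [show π * (2 - c) / 2 = π - π * c / 2 by ring, Real.cos_pi_sub]

end GRAM_

open GRAM_ in
theorem gram_proof : Stmt_GRAM := by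
  intro a b c ha hab hbc hc
  have hb : 0 ≤ b := ha.trans hab
  have hc0 : 0 ≤ c := hb.trans hbc
  have hs : 0 ≤ sn a * sn b :=
    mul_nonneg (sn_nonneg ha (by linarith)) (sn_nonneg hb (by linarith))
  have hsq : (sn a * sn b) ^ 2 = (1 - cn a ^ 2) * (1 - cn b ^ 2) := by
    rw [mul_pow, sn_sq, sn_sq]
  constructor
  · intro h
    by_contra hlt
    rw [not_le] at hlt
    have h1 : (cn a * cn b - cn c) ^ 2 ≤ (sn a * sn b) ^ 2 := by
      unfold gram at h
      rw [hsq]
      nlinarith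
    have h2 := abs_le_of_sq_le_sq' h1 hs
    have h3 := cn_lt (by linarith) hlt (by linarith)
    rw [cn_add] at h3
    linarith [h2.2]
  · intro h
    by_contra hlt
    rw [not_le] at hlt
    have h1 : (cn a * cn b + cn c) ^ 2 ≤ (sn a * sn b) ^ 2 := by
      unfold gram at h
      rw [hsq]
      nlinarith
    have h2 := abs_le_of_sq_le_sq' h1 hs
    have h3 := cn_lt (x := a + b) (y := 2 - c) (by linarith) (by linarith) (by linarith)
    rw [cn_add, cn_two_sub] at h3
    linarith [h2.2]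

end Pool.Agent.FTA
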