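import Pool.Agent.FTA.Stmts

open Real

namespace Pool.Agent.FTA

namespace HB_

lemma sn_one_sub (x : ℝ) : sn (1 - x) = cn x := by
  unfold sn cn
  have : π * (1 - x) / 2 = π / 2 - π * x / 2 := by ring
  rw [this, Real.sin_pi_div_two_sub]

lemma cn_one_sub (x : ℝ) : cn (1 - x) = sn x := by
  unfold sn cn
  have : π * (1 - x) / 2 = π / 2 - π * x / 2 := by ring
  rw [this, Real.cos_pi_div_two_sub]

lemma sq_add (x : ℝ) : sn x ^ 2 + cn x ^ 2 = 1 := by
  unfold sn cn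
  exact Real.sin_sq_add_cos_sq _

lemma De_one_sub (x : ℝ) : De (1 - x) = -De x := by
  unfold De
  rw [sn_one_sub]
  have := sq_add x
  linarith

lemma sin_pi_one_sub (x : ℝ) : Real.sin (π * (1 - x)) = 2 * (sn x * cn x) := by
  have h1 : π * (1 - x) = π - π * x := by ring
  rw [h1, Real.sin_pi_sub]
  unfold sn cn
  have h2 : π * x = 2 * (π * x / 2) := by ring
  nth_rewrite 1 [h2]
  rw [Real.sin_two_mul]
  ring

lemma part1 (al be t : ℝ) (h0 : 0 ≤ be) (h1 : be ≤ al) (h2 : al ≤ 3 / 16) :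
    F (1 - al) (1 - be) t =
    3 / 2 * (-(1 / 3) + al + De al / 8) * (-(1 / 3) + be + De be / 8)
    + 4 * (1 / 4 - (al / 4 + De al / 8)) * (1 / 4 - (be / 4 + De be / 8)) * T2 t
    + 4 * (1 / 4 - (al / 4 + 3 * De al / 16)) * (1 / 4 - (be / 4 + 3 * De be / 16)) * (2 * t ^ 2 - 1)
    + (5 / 4 * be - sn al * cn al * (sn be * cn be) / 2) * (t + T1 t) / 2
    + (5 / 4 * (be * (1 - 2 * al)) - 93 / 128 * De al * De be) * t ^ 2 := by
  have hk : kk (1 - al) (1 - be) = 1 - al - be := by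
    unfold kk
    rw [max_eq_left (by linarith)]
    ring
  have hmin : min (1 - al) (1 - be) = 1 - al := min_eq_left (by linarith)
  have hmax : max (1 - al) (1 - be) = 1 - be := max_eq_right (by linarith)
  unfold F p0 p2 p3 Wf Rf
  rw [hk, hmin, hmax, De_one_sub, De_one_sub, sin_pi_one_sub, sin_pi_one_sub]
  ring

lemma part2 (t : ℝ) (h0 : 0 ≤ t) (h1 : t ≤ 1) :
    T2 t = -1 + 2 * T1 t ∧ T2 (-t) = -1 + 2 * T1 t ∧ T1 (-t) = -T1 t := by
  have hp : π ≠ 0 := Real.pi_ne_zero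
  have key : T2 t = -1 + 2 * T1 t := by
    unfold T2 T1
    set θ := Real.arcsin t with hθ
    have ht : Real.sin θ = t := Real.sin_arcsin (by linarith) h1
    have hθ0 : 0 ≤ θ := Real.arcsin_nonneg.2 h0
    have hθ1 : θ ≤ π / 2 := Real.arcsin_le_pi_div_two t
    have e1 : 2 * t ^ 2 - 1 = Real.sin (2 * θ - π / 2) := by
      rw [Real.sin_sub_pi_div_two, Real.cos_two_mul', ← ht]
      have := Real.sin_sq_add_cos_sq θ
      linarith
    rw [e1, Real.arcsin_sin (by linarith) (by linarith)]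
    field_simp
    ring
  refine ⟨key, ?_, ?_⟩
  · rw [← key]
    unfold T2
    rw [neg_sq]
  · unfold T1
    rw [Real.arcsin_neg]
    ring

lemma tangent {u w : ℝ} (hu0 : 0 ≤ u) (hu1 : u < π / 2) (hw0 : 0 ≤ w) (hw1 : w ≤ π / 2) :
    Real.sin w - Real.sin u ≤ Real.cos u * (w - u) := by
  have hconc : ConcaveOn ℝ (Set.Icc 0 π) Real.sin := strictConcaveOn_sin_Icc.concaveOn
  have hpi := Real.pi_pos
  have hu : u ∈ Set.Icc 0 π := ⟨hu0, by linarith⟩
  have hw : w ∈ Set.Icc 0 π := ⟨hw0, by linarith⟩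
  rcases lt_trichotomy u w with h | h | h
  · have h1 := hconc.slope_le_of_hasDerivAt hu hw h (Real.hasDerivAt_sin u)
    rw [slope_def_field, div_le_iff₀ (by linarith)] at h1
    exact h1
  · subst h; simp
  · have h1 := hconc.le_slope_of_hasDerivAt hw hu h (Real.hasDerivAt_sin u)
    rw [slope_def_field, le_div_iff₀ (by linarith)] at h1
    linarith

lemma part3 (t C : ℝ) (h0 : 0 ≤ t) (h1 : t < 1) (h2 : 0 ≤ C) (h3 : C ≤ 1) :
    1 / π * (C - t) * (√(1 - t ^ 2))⁻¹ ≤ (T1 C - T1 t) / 2 := by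
  have hpi := Real.pi_pos
  have hu0 : 0 ≤ Real.arcsin t := Real.arcsin_nonneg.2 h0
  have hu1 : Real.arcsin t < π / 2 := Real.arcsin_lt_pi_div_two.2 h1
  have hw0 : 0 ≤ Real.arcsin C := Real.arcsin_nonneg.2 h2
  have hw1 : Real.arcsin C ≤ π / 2 := Real.arcsin_le_pi_div_two C
  have h4 := tangent hu0 hu1 hw0 hw1
  rw [Real.sin_arcsin (by linarith) h3, Real.sin_arcsin (by linarith) h1.le,
    Real.cos_arcsin] at h4
  have h5 : 0 < √(1 - t ^ 2) := by
    apply Real.sqrt_pos.2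
    nlinarith
  have h6 : (C - t) * (√(1 - t ^ 2))⁻¹ ≤ Real.arcsin C - Real.arcsin t := by
    rw [← div_eq_mul_inv, div_le_iff₀ h5]
    linarith
  unfold T1
  have h7 : (2 / π * Real.arcsin C - 2 / π * Real.arcsin t) / 2 =
      1 / π * (Real.arcsin C - Real.arcsin t) := by ring
  rw [h7, mul_assoc]
  exact mul_le_mul_of_nonneg_left h6 (by positivity)

lemma part4 (x : ℝ) (h0 : 0 ≤ x) (h1 : x ≤ 1) : T1 (sn x) = x := by
  have hpi := Real.pi_pos
  unfold T1 sn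
  rw [Real.arcsin_sin (by nlinarith) (by nlinarith)]
  field_simp

lemma part5 (x : ℝ) (h0 : 0 ≤ x) (h1 : x ≤ 3 / 16) :
    0 ≤ sn x ∧ sn x ≤ 3 / 10 ∧ 19 / 20 ≤ cn x ∧ cn x ≤ 1 := by
  have hpi := Real.pi_pos
  have hpi2 : π < 3.1416 := Real.pi_lt_d4
  set y := π * x / 2 with hy
  have hy0 : 0 ≤ y := by positivity
  have hy1 : y ≤ 0.3 := by
    have : π * x ≤ 3.1416 * (3 / 16) := mul_le_mul hpi2.le h1 h0 (by norm_num)
    rw [hy]
    norm_num at this ⊢
    linarith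
  have hy2 : y ≤ 0.295 := by
    have : π * x ≤ 3.1416 * (3 / 16) := mul_le_mul hpi2.le h1 h0 (by norm_num)
    rw [hy]
    norm_num at this ⊢
    linarith
  refine ⟨?_, ?_, ?_, ?_⟩
  · exact Real.sin_nonneg_of_nonneg_of_le_pi hy0 (by
      have := Real.pi_gt_three
      norm_num at hy1
      linarith)
  · have : Real.sin y ≤ y := Real.sin_le hy0
    show Real.sin y ≤ 3 / 10
    norm_num at hy1
    linarith
  · have : 1 - y ^ 2 / 2 ≤ Real.cos y := Real.one_sub_sq_div_two_le_cos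
    show 19 / 20 ≤ Real.cos y
    norm_num at hy2
    nlinarith
  · exact Real.cos_le_one _

end HB_

open HB_ in
theorem hb_proof : Stmt_HB := by
  refine ⟨?_, ?_, ?_, ?_, ?_⟩
  · intro al be t h0 h1 h2
    exact part1 al be t h0 h1 h2
  · intro t h0 h1
    exact part2 t h0 h1
  · intro t C h0 h1 h2 h3
    exact part3 t C h0 h1 h2 h3
  · intro x h0 h1
    exact ⟨part4 x h0 h1, cn_one_sub x, sn_one_sub x⟩
  · intro x h0 h1
    exact part5 x h0 h1

end Pool.Agent.FTA
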