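import Pool.Agent.FTA.Stmts

set_option autoImplicit false

/-! FTA, module ID: the identities at `D = 0`. -/

open Real

namespace Pool.Agent.FTA

namespace ID_

theorem sin_pi_mul (p : ℝ) : Real.sin (π * p) = 2 * (sn p * cn p) := by
  have h : π * p = 2 * (π * p / 2) := by ring
  rw [h, Real.sin_two_mul]
  unfold sn cn
  ring

theorem sq_one (p : ℝ) : sn p ^ 2 + cn p ^ 2 = 1 := by
  unfold sn cn
  exact Real.sin_sq_add_cos_sq _

theorem T1_one : T1 1 = 1 := by
  unfold T1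
  rw [Real.arcsin_one]
  have := Real.pi_ne_zero
  field_simp

theorem T1_neg : T1 (-1) = -1 := by
  unfold T1
  rw [Real.arcsin_neg, Real.arcsin_one]
  have := Real.pi_ne_zero
  field_simp

theorem T2_one : T2 1 = 1 := by
  unfold T2
  have h : (2 : ℝ) * 1 ^ 2 - 1 = 1 := by norm_num
  rw [h, Real.arcsin_one]
  have := Real.pi_ne_zero
  field_simp

theorem T2_neg : T2 (-1) = 1 := by
  unfold T2
  have h : (2 : ℝ) * (-1) ^ 2 - 1 = 1 := by norm_num
  rw [h, Real.arcsin_one]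
  have := Real.pi_ne_zero
  field_simp

/-- the common part of `F (p, q, 1)` and `F (p, q, -1)` -/
theorem base (p q m M k : ℝ) (hm : m * M = p * q) :
    3 / 2 * p0 p * p0 q + 4 * p2 p * p2 q + 4 * p3 p * p3 q
      + (5 / 4 * (m * (1 - 2 * M) + k) - 93 / 128 * De p * De q) =
    2 / 3 - (p + q) - (De p + De q) / 8 - (sn p * sn q) ^ 2 / 2 + 5 / 4 * (m + k) := by
  have hp : sn p ^ 2 = p - De p := by unfold De; ring
  have hq : sn q ^ 2 = q - De q := by unfold De; ring
  have h1 : (sn p * sn q) ^ 2 = (p - De p) * (q - De q) := by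
    rw [mul_pow, hp, hq]
  rw [h1]
  unfold p0 p2 p3
  linear_combination (-5 / 2) * hm

theorem F_pos {p q : ℝ} (h : p ≤ q) : F p q 1 =
    2 / 3 - (p + q) - (De p + De q) / 8 - (sn p * sn q) ^ 2 / 2 + 5 / 2 * p
      - sn p * cn p * (sn q * cn q) / 2 := by
  have h1 := base p q p q (kk p q) rfl
  unfold F Wf Rf
  rw [T1_one, T2_one, min_eq_left h, max_eq_right h, sin_pi_mul, sin_pi_mul]
  linear_combination h1

theorem F_neg {p q : ℝ} (h : p ≤ q) : F p q (-1) =
    2 / 3 - (p + q) - (De p + De q) / 8 - (sn p * sn q) ^ 2 / 2 + 5 / 2 * kk p q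
      + sn p * cn p * (sn q * cn q) / 2 := by
  have h1 := base p q p q (kk p q) rfl
  unfold F Wf Rf
  rw [T1_neg, T2_neg, min_eq_left h, max_eq_right h, sin_pi_mul, sin_pi_mul]
  linear_combination h1

/-- the trigonometric identity -/
theorem trig (x X y Y z Z S : ℝ) (hx : x ^ 2 + X ^ 2 = 1) (hy : y ^ 2 + Y ^ 2 = 1)
    (hz : z ^ 2 + Z ^ 2 = 1) (hS : S = x * Y * Z + X * y * Z - X * Y * z + x * y * z) :
    -(x ^ 2 + y ^ 2 + z ^ 2) / 4 + ((x * y) ^ 2 + (x * z) ^ 2 + (y * z) ^ 2) / 2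
      - (x * X * (y * Y) - x * X * (z * Z) - y * Y * (z * Z)) / 2 =
    S * (x * y * z) - S ^ 2 / 4 := by
  subst hS
  linear_combination
    (-(1 / 2) * (y * Y * (z * Z)) + 1 / 4 * (y ^ 2 * (1 - z ^ 2) + z ^ 2 * (1 - y ^ 2))) * hx +
    (-(1 / 2) * (x * X * (z * Z)) + 1 / 4 * (x ^ 2 * (1 - z ^ 2) + z ^ 2 * X ^ 2)) * hy +
    (1 / 2 * (x * X * (y * Y)) + 1 / 4 * (x ^ 2 * Y ^ 2 + y ^ 2 * X ^ 2)) * hz

theorem two_sn_cn (e : ℝ) : 2 * (sn e * cn e) = Real.sin (π * e) := (sin_pi_mul e).symm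

theorem S1 (a b c e : ℝ) (h : c = a + b - 2 * e) : 2 * (sn e * cn e) =
    sn a * cn b * cn c + cn a * sn b * cn c - cn a * cn b * sn c + sn a * sn b * sn c := by
  rw [two_sn_cn]
  have h1 : π * e = (π * a / 2 + π * b / 2) - π * c / 2 := by
    rw [h]; ring
  rw [h1, Real.sin_sub, Real.sin_add, Real.cos_add]
  unfold sn cn
  ring

theorem S2 (a b c e : ℝ) (h : a + b + c = 2 + 2 * e) : 2 * (sn e * cn e) =
    sn a * cn b * (-cn c) + cn a * sn b * (-cn c) - cn a * cn b * sn c + sn a * sn b * sn c := by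
  rw [two_sn_cn]
  have h1 : π * e = (π * a / 2 + π * b / 2 + π * c / 2) - π := by
    have : e = (a + b + c) / 2 - 1 := by linarith
    rw [this]; ring
  rw [h1, Real.sin_sub_pi, Real.sin_add, Real.sin_add, Real.cos_add]
  unfold sn cn
  ring

end ID_

open ID_ in
theorem id_proof : Stmt_ID := by
  intro a b c e ha hab hbc hc he
  have hac : a ≤ c := le_trans hab hbc
  have hDa : De a = a - sn a ^ 2 := rfl
  have hDb : De b = b - sn b ^ 2 := rfl
  have hDc : De c = c - sn c ^ 2 := rfl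
  constructor
  · intro h
    have h1 := trig (sn a) (cn a) (sn b) (cn b) (sn c) (cn c) (2 * (sn e * cn e))
      (sq_one a) (sq_one b) (sq_one c) (S1 a b c e h)
    rw [F_neg hab, F_pos hac, F_pos hbc, hDa, hDb, hDc]
    linear_combination h1 + (5 / 4) * h
  · intro h
    have h1 := trig (sn a) (cn a) (sn b) (cn b) (sn c) (-cn c) (2 * (sn e * cn e))
      (sq_one a) (sq_one b) (by rw [neg_sq]; exact sq_one c) (S2 a b c e h)
    have k1 : kk a b = a + b - 1 := max_eq_left (by linarith)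
    have k2 : kk a c = a + c - 1 := max_eq_left (by linarith)
    have k3 : kk b c = b + c - 1 := max_eq_left (by linarith)
    rw [F_neg hab, F_neg hac, F_neg hbc, k1, k2, k3, hDa, hDb, hDc]
    linear_combination h1 - (15 / 4) * h

end Pool.Agent.FTA
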