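import Pool.Agent.FTA.Stmts

/-! Module INV: soundness of the reciprocal. -/

namespace Pool.Agent.FTA

namespace INV_

theorem add_ok {a b : TM} (h : (TM.add a b).ok = true) : a.ok = true ∧ b.ok = true := by
  cases a with
  | mk aN an ar ao =>
    cases b with
    | mk bN bn br bo =>
      have h' : (Bool.and (Bool.and ao bo) (Nat.ble (Nat.add an bn) 0x8000000000)) = true := h
      rw [Bool.and_eq_true, Bool.and_eq_true] at h'
      exact h'.1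

theorem mul_ok {a b : TM} (h : (TM.mul a b).ok = true) : a.ok = true ∧ b.ok = true := by
  cases a with
  | mk aN an ar ao =>
    cases b with
    | mk bN bn br bo =>
      have h' : (Bool.and (Bool.and ao bo) (Nat.ble (Nat.mul an bn) 0x200000000000000000)) = true := h
      rw [Bool.and_eq_true, Bool.and_eq_true] at h'
      exact h'.1

theorem smul_ok {p q : ℕ} {a : TM} (h : (TM.smul p q a).ok = true) : a.ok = true := by
  cases a with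
  | mk aN an ar ao =>
    have h' : (Bool.and ao (Bool.and (Nat.ble q 30) (Nat.ble (Nat.mul an p) (Nat.mul 0x8000000000 (Nat.pow 2 q))))) = true := h
    rw [Bool.and_eq_true] at h'
    exact h'.1

theorem rad_ok (a : TM) (e : ℕ) (o : Bool) : (TM.rad a e o).ok = Bool.and a.ok o := by
  cases a with
  | mk aN an ar ao => rfl

theorem key (ex y x : ℝ) (hy : 0 ≤ y) (hex : ex = 1 - y / 2 ^ 30 * x) (h2 : |ex| ≤ 1 / 2) :
    x ≠ 0 ∧ |x⁻¹ - y / 2 ^ 30 * (1 + ex * (1 + ex * (1 + ex)))| * 2 ^ 30 ≤ 2 * y * ex ^ 4 := by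
  have hab := abs_le.1 h2
  have hpos : 0 < 1 - ex := by linarith [hab.2]
  have hxy : y / 2 ^ 30 * x = 1 - ex := by rw [hex]; ring
  have hx : x ≠ 0 := by
    rintro rfl
    rw [mul_zero] at hxy
    linarith
  refine ⟨hx, ?_⟩
  have hinv : x⁻¹ = y / 2 ^ 30 * (1 - ex)⁻¹ := by
    have h1 : (1 - ex) ≠ 0 := hpos.ne'
    field_simp
    rw [← hxy]; ring
  have hd : x⁻¹ - y / 2 ^ 30 * (1 + ex * (1 + ex * (1 + ex))) = y / 2 ^ 30 * (ex ^ 4 * (1 - ex)⁻¹) := by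
    rw [hinv]
    have h1 : (1 - ex) ≠ 0 := hpos.ne'
    field_simp
    ring
  rw [hd, abs_of_nonneg (by positivity)]
  have h3 : (1 - ex)⁻¹ ≤ 2 := by
    rw [inv_le_comm₀ hpos (by norm_num)]
    linarith [hab.2]
  have h4 : y / 2 ^ 30 * (ex ^ 4 * (1 - ex)⁻¹) * 2 ^ 30 = y * (ex ^ 4 * (1 - ex)⁻¹) := by ring
  rw [h4]
  have h5 : ex ^ 4 * (1 - ex)⁻¹ ≤ ex ^ 4 * 2 := mul_le_mul_of_nonneg_left h3 (by positivity)
  calc y * (ex ^ 4 * (1 - ex)⁻¹) ≤ y * (ex ^ 4 * 2) := mul_le_mul_of_nonneg_left h5 hy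
    _ = 2 * y * ex ^ 4 := by ring

theorem round (y E : ℕ) (ex : ℝ) (h : |ex| * 2 ^ 30 ≤ (E : ℝ)) :
    2 * (y : ℝ) * ex ^ 4 ≤ ((Nat.add (Nat.shiftRight (Nat.mul (Nat.mul 2 y) (Nat.mul (Nat.mul E E) (Nat.mul E E))) 120) 1 : ℕ) : ℝ) := by
  have e1 : (Nat.add (Nat.shiftRight (Nat.mul (Nat.mul 2 y) (Nat.mul (Nat.mul E E) (Nat.mul E E))) 120) 1 : ℕ)
      = (2 * y * (E * E * (E * E))) / 2 ^ 120 + 1 := by
    show ((2 * y * (E * E * (E * E))) >>> 120) + 1 = _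
    rw [Nat.shiftRight_eq_div_pow]
  rw [e1]
  push_cast
  have h1 : ((2 * y * (E * E * (E * E)) : ℕ) : ℝ) / 2 ^ 120 < (((2 * y * (E * E * (E * E))) / 2 ^ 120 : ℕ) : ℝ) + 1 := by
    have h2 := Nat.lt_div_mul_add (a := 2 * y * (E * E * (E * E))) (b := 2 ^ 120) (by positivity)
    have h3 : ((2 * y * (E * E * (E * E)) : ℕ) : ℝ) <
        ((((2 * y * (E * E * (E * E))) / 2 ^ 120 * 2 ^ 120 + 2 ^ 120 : ℕ)) : ℝ) := by exact_mod_cast h2
    rw [div_lt_iff₀ (by positivity)]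
    push_cast at h3 ⊢
    linarith
  have h4 : ex ^ 4 ≤ ((E : ℝ) / 2 ^ 30) ^ 4 := by
    have h5 : |ex| ≤ (E : ℝ) / 2 ^ 30 := by rw [le_div_iff₀ (by positivity)]; exact h
    have h6 : |ex| ^ 4 = ex ^ 4 := by
      rw [show (4 : ℕ) = 2 * 2 by norm_num, pow_mul, sq_abs, ← pow_mul]
    rw [← h6]
    exact pow_le_pow_left₀ (abs_nonneg _) h5 4
  have h7 : 2 * (y : ℝ) * ex ^ 4 ≤ ((2 * y * (E * E * (E * E)) : ℕ) : ℝ) / 2 ^ 120 := by
    calc 2 * (y : ℝ) * ex ^ 4 ≤ 2 * (y : ℝ) * ((E : ℝ) / 2 ^ 30) ^ 4 := mul_le_mul_of_nonneg_left h4 (by positivity)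
      _ = ((2 * y * (E * E * (E * E)) : ℕ) : ℝ) / 2 ^ 120 := by push_cast; ring
  have h8 := h7.trans h1.le
  exact_mod_cast h8

end INV_

open INV_ in
theorem inv_proof (h1 : Stmt_LIN) (h2 : Stmt_MUL) (h3 : Stmt_POS) : Stmt_INV := by
  intro u hu a x hax
  obtain ⟨hadd, hsub, hren, hsmul, -, hrad, hone, -⟩ := h1 u hu
  have hmul := h2 u hu
  obtain ⟨hdev, -⟩ := h3 u hu
  -- the pieces
  obtain ⟨y, hy⟩ : ∃ y, y = Nat.div 0x1000000000000000 (TM.ctr a) := ⟨_, rfl⟩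
  obtain ⟨e, he⟩ : ∃ e, e = TM.ren (TM.sub TM.one (TM.smul y 30 a)) := ⟨_, rfl⟩
  obtain ⟨T, hT⟩ : ∃ T, T = TM.smul y 30 (TM.add TM.one (TM.mul e (TM.add TM.one (TM.mul e (TM.add TM.one e))))) := ⟨_, rfl⟩
  have hinv : TM.inv a = TM.rad T
      (Nat.add (Nat.shiftRight (Nat.mul (Nat.mul 2 y) (Nat.mul (Nat.mul (TM.dev e) (TM.dev e)) (Nat.mul (TM.dev e) (TM.dev e)))) 120) 1)
      (Bool.and (Nat.blt 0 (TM.ctr a)) (Nat.ble (TM.dev e) 0x20000000)) := by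
    rw [hT, he, hy]; rfl
  rw [hinv]
  clear hinv
  obtain ⟨ex, hex⟩ : ∃ ex : ℝ, ex = 1 - (y : ℝ) / 2 ^ 30 * x := ⟨_, rfl⟩
  have re : RepT u e ex := by
    rw [he, hex]
    exact hren _ _ (hsub _ _ _ _ hone (hsmul y 30 a x hax))
  have rT : RepT u T ((y : ℝ) / 2 ^ 30 * (1 + ex * (1 + ex * (1 + ex)))) := by
    rw [hT]
    exact hsmul y 30 _ _ (hadd _ _ _ _ hone (hmul _ _ _ _ re (hadd _ _ _ _ hone (hmul _ _ _ _ re (hadd _ _ _ _ hone re)))))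
  have hTe : T.ok = true → e.ok = true := by
    intro h
    rw [hT] at h
    exact (mul_ok (add_ok (smul_ok h)).2).1
  -- consequences of the flags
  have hk : T.ok = true → (Bool.and (Nat.blt 0 (TM.ctr a)) (Nat.ble (TM.dev e) 0x20000000)) = true →
      x ≠ 0 ∧ |x⁻¹ - (y : ℝ) / 2 ^ 30 * (1 + ex * (1 + ex * (1 + ex)))| * 2 ^ 30 ≤
        ((Nat.add (Nat.shiftRight (Nat.mul (Nat.mul 2 y) (Nat.mul (Nat.mul (TM.dev e) (TM.dev e)) (Nat.mul (TM.dev e) (TM.dev e)))) 120) 1 : ℕ) : ℝ) := by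
    intro hTok hO
    have hb := hdev e ex re (hTe hTok)
    rw [Bool.and_eq_true] at hO
    have hE : TM.dev e ≤ 0x20000000 := Nat.le_of_ble_eq_true hO.2
    have hE' : (TM.dev e : ℝ) ≤ 2 ^ 29 := by
      have : (TM.dev e : ℝ) ≤ ((0x20000000 : ℕ) : ℝ) := by exact_mod_cast hE
      refine this.trans ?_
      norm_num
    have hle : |ex| ≤ 1 / 2 := by
      have h5 : |ex| * 2 ^ 30 ≤ 2 ^ 29 := hb.trans hE'
      have h6 : (2 : ℝ) ^ 29 = 1 / 2 * 2 ^ 30 := by norm_num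
      rw [h6] at h5
      exact le_of_mul_le_mul_right h5 (by positivity)
    obtain ⟨hx, hbd⟩ := key ex y x (Nat.cast_nonneg _) hex hle
    exact ⟨hx, hbd.trans (round y (TM.dev e) ex hb)⟩
  by_cases hTok : T.ok = true
  · refine ⟨hrad T _ x⁻¹ _ _ rT (fun hO => (hk hTok hO).2), ?_⟩
    intro h
    rw [rad_ok, Bool.and_eq_true] at h
    exact (hk h.1 h.2).1
  · have hf : ∀ (n : ℕ) (o : Bool), (TM.rad T n o).ok = true → False := by
      intro n o h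
      rw [rad_ok, Bool.and_eq_true] at h
      exact hTok h.1
    exact ⟨fun h => (hf _ _ h).elim, fun h => (hf _ _ h).elim⟩

end Pool.Agent.FTA
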