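import Pool.Agent.FTA.SL

set_option maxRecDepth 100000

namespace Pool.Agent.FTA.A

def t12 : Tr := .A (.C (.A (.A .L .L) (.A .L .L)) (.A (.C (.A .L .L) (.C (.A .L .L) (.A .L (.C (.A .L .L) (.A .L .L))))) (.C (.A .L .L) (.A (.C .L (.C .L (.B .L .L))) .L)))) (.A (.C .L (.B .L .L)) (.B (.C .L .L) .L))
theorem c12 : Tr.chk (leaf fun A => gA A) exNo t12 218103808 218103808 402653184 134217728 1006632960 67108864 = true := by decide +kernel

def t13 : Tr := .B (.B (.A (.B (.C .L .L) (.C .L .L)) (.C (.B .L .L) .L)) (.A (.B (.C .L .L) (.C .L .L)) (.C .L .L))) (.B (.A (.C .L .L) (.C .L .L)) (.A (.C .L .L) (.C .L .L)))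
theorem c13 : Tr.chk (leaf fun A => gA A) exNo t13 545259520 109051904 134217728 134217728 671088640 134217728 = true := by decide +kernel

def t14 : Tr := .B (.C (.A (.B (.C .L .L) (.C .L .L)) .L) (.C (.B (.B (.A .L .L) (.A .L .L)) (.A .L .L)) (.B (.B (.B .L .L) .L) (.B .L .L)))) (.C (.A (.B .L .L) .L) (.A (.B .L .L) (.A .L .L)))
theorem c14 : Tr.chk (leaf fun A => gA A) exNo t14 763363328 109051904 134217728 134217728 671088640 134217728 = true := by decide +kernel

def t15 : Tr := .A (.B (.B (.C .L .L) (.C .L .L)) (.B .L .L)) (.B (.C (.B (.B .L .L) .L) (.B (.B (.C .L .L) .L) .L)) (.C .L (.A .L .L)))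
theorem c15 : Tr.chk (leaf fun A => gA A) exNo t15 654311424 218103808 67108864 67108864 872415232 67108864 = true := by decide +kernel

def t16 : Tr := .B (.C (.A (.B .L .L) (.B (.C (.B .L .L) .L) (.C .L .L))) .L) (.C (.A .L (.A .L .L)) (.A (.C .L (.B .L .L)) (.B .L (.C .L .L))))
theorem c16 : Tr.chk (leaf fun A => gA A) exNo t16 654311424 218103808 67108864 67108864 1006632960 67108864 = true := by decide +kernel

def t17 : Tr := .A (.C (.B (.A .L .L) .L) (.C (.B .L .L) (.B (.C .L (.A .L .L)) (.C .L .L)))) (.C (.A (.C .L .L) (.A (.C .L .L) (.B .L (.A .L .L)))) (.A (.B (.C .L .L) .L) (.B (.C .L .L) (.A .L (.A .L (.C .L .L))))))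
theorem c17 : Tr.chk (leaf fun A => gA A) exNo t17 654311424 218103808 201326592 67108864 939524096 134217728 = true := by decide +kernel

def t18 : Tr := .A (.C (.B (.A .L .L) (.A .L .L)) (.B (.A .L .L) (.A .L .L))) (.B (.A (.C (.B .L .L) (.C .L .L)) .L) (.C (.A (.C .L .L) .L) (.A (.A .L .L) .L)))
theorem c18 : Tr.chk (leaf fun A => gA A) exNo t18 654311424 218103808 402653184 134217728 671088640 134217728 = true := by decide +kernel

def t19 : Tr := .B (.C (.B .L .L) (.A .L (.C .L .L))) (.C (.A .L .L) (.A .L (.C .L .L)))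
theorem c19 : Tr.chk (leaf fun A => gA A) exNo t19 545259520 109051904 402653184 134217728 939524096 134217728 = true := by decide +kernel

def t20 : Tr := .A (.C (.A .L .L) (.C .L (.B .L .L))) (.A (.C (.A .L (.C .L .L)) (.A .L (.B .L (.A .L .L)))) (.A (.C .L (.B .L (.B (.A .L .L) .L))) (.B (.C .L (.B (.A .L (.C .L .L)) .L)) .L)))
theorem c20 : Tr.chk (leaf fun A => gA A) exNo t20 763363328 109051904 335544320 67108864 939524096 134217728 = true := by decide +kernel

def t21 : Tr := .C (.A (.A .L (.A .L (.C .L .L))) .L) (.A (.A .L (.A .L (.B .L (.A .L .L)))) (.A (.B (.A (.A .L .L) .L) .L) .L))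
theorem c21 : Tr.chk (leaf fun A => gA A) exNo t21 763363328 109051904 469762048 67108864 939524096 134217728 = true := by decide +kernel

def t22 : Tr := .C (.A .L (.B (.C .L .L) (.A .L .L))) (.B (.C (.A .L .L) (.B (.C (.A .L .L) (.A .L .L)) (.A .L .L))) (.C (.A .L .L) (.A .L .L)))
theorem c22 : Tr.chk (leaf fun A => gA A) exNo t22 218103808 218103808 805306368 268435456 268435456 268435456 = true := by decide +kernel

def t23 : Tr := .C (.A (.C (.A .L .L) (.B (.A .L .L) (.A .L .L))) .L) (.A (.B (.A (.B (.C .L .L) .L) (.C .L .L)) (.A (.B .L .L) (.C .L .L))) .L)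
theorem c23 : Tr.chk (leaf fun A => gA A) exNo t23 654311424 218103808 671088640 134217728 268435456 268435456 = true := by decide +kernel

end Pool.Agent.FTA.A
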