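import Pool.Agent.FTA.SL

set_option maxRecDepth 100000

namespace Pool.Agent.FTA.A

def t24 : Tr := .C (.A (.C (.A .L .L) (.C .L (.B .L .L))) .L) (.A (.A (.B (.C .L .L) (.C .L .L)) (.B (.C .L .L) (.C .L (.C .L .L)))) .L)
theorem c24 : Tr.chk (leaf fun A => gA A) exNo t24 654311424 218103808 939524096 134217728 268435456 268435456 = true := by decide +kernel

def t25 : Tr := .A (.C .L (.C .L (.A .L .L))) (.A (.C .L .L) (.B (.C .L .L) (.C .L .L)))
theorem c25 : Tr.chk (leaf fun A => gA A) exNo t25 218103808 218103808 671088640 134217728 671088640 134217728 = true := by decide +kernel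

def t26 : Tr := .A (.C (.A (.C .L .L) .L) (.C (.A (.A .L .L) (.A .L .L)) (.A (.C (.A .L .L) (.A .L (.C .L (.A .L .L)))) (.A .L .L)))) (.C (.A .L (.B .L .L)) (.A (.C .L (.A .L .L)) (.B .L .L)))
theorem c26 : Tr.chk (leaf fun A => gA A) exNo t26 218103808 218103808 671088640 134217728 939524096 134217728 = true := by decide +kernel

def t27 : Tr := .A (.C .L (.A .L .L)) (.A (.C .L .L) (.B (.C .L .L) (.C .L .L)))
theorem c27 : Tr.chk (leaf fun A => gA A) exNo t27 218103808 218103808 939524096 134217728 671088640 134217728 = true := by decide +kernel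

def t28 : Tr := .A (.C (.A (.C .L .L) .L) (.A (.C (.A .L .L) (.C (.A .L .L) (.A .L .L))) (.C (.A .L .L) (.A .L .L)))) (.A (.C (.A .L .L) (.A .L .L)) (.C (.B .L .L) (.A .L (.C .L .L))))
theorem c28 : Tr.chk (leaf fun A => gA A) exNo t28 218103808 218103808 939524096 134217728 939524096 134217728 = true := by decide +kernel

def t29 : Tr := .A (.A (.C .L (.B .L .L)) (.C (.B .L .L) (.B .L (.A .L .L)))) (.B (.C .L (.A (.A .L .L) .L)) .L)
theorem c29 : Tr.chk (leaf fun A => gA A) exNo t29 654311424 218103808 671088640 134217728 671088640 134217728 = true := by decide +kernel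

def t30 : Tr := .A (.C (.B .L .L) (.B .L (.C .L .L))) (.B (.C (.C .L .L) (.A .L .L)) (.A (.C .L .L) (.C (.A .L .L) (.A .L (.B .L (.C .L .L))))))
theorem c30 : Tr.chk (leaf fun A => gA A) exNo t30 545259520 109051904 671088640 134217728 939524096 134217728 = true := by decide +kernel

def t31 : Tr := .B (.C (.A (.A (.A .L (.C .L .L)) .L) .L) (.A (.A (.A .L (.B .L (.A .L .L))) (.B (.A (.A .L .L) .L) .L)) .L)) (.C .L (.A (.B (.A (.A (.A .L .L) .L) .L) .L) .L))
theorem c31 : Tr.chk (leaf fun A => gA A) exNo t31 763363328 109051904 671088640 134217728 939524096 134217728 = true := by decide +kernel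

def t32 : Tr := .A (.B (.A (.C .L .L) (.C (.C .L .L) (.A .L .L))) (.C (.A .L (.A .L .L)) (.A .L (.A (.C .L .L) .L)))) .L
theorem c32 : Tr.chk (leaf fun A => gA A) exNo t32 654311424 218103808 939524096 134217728 671088640 134217728 = true := by decide +kernel

def t33 : Tr := .C (.A .L (.A (.C .L .L) (.A (.C .L .L) .L))) (.A (.A .L .L) (.B (.A .L (.A (.C .L .L) .L)) (.A (.A .L (.C .L .L)) .L)))
theorem c33 : Tr.chk (leaf fun A => gA A) exNo t33 545259520 109051904 872415232 67108864 939524096 134217728 = true := by decide +kernel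

def t34 : Tr := .C (.A (.A .L .L) (.B (.A (.A .L .L) .L) (.A (.A .L .L) .L))) (.A (.A .L (.A .L (.C .L .L))) (.B (.C (.A (.A .L .L) .L) (.A (.A .L (.A .L .L)) .L)) (.C (.A (.A .L .L) .L) (.A (.A (.A .L .L) .L) .L))))
theorem c34 : Tr.chk (leaf fun A => gA A) exNo t34 545259520 109051904 1006632960 67108864 939524096 134217728 = true := by decide +kernel

def t35 : Tr := .L
theorem c35 : Tr.chk (leaf fun A => gA A) exNo t35 763363328 109051904 939524096 134217728 939524096 134217728 = true := by decide +kernel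

end Pool.Agent.FTA.A
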