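import Pool.Agent.FTA.KA0
import Pool.Agent.FTA.KA1
import Pool.Agent.FTA.KA2

set_option maxRecDepth 100000

namespace Pool.Agent.FTA.A

def u0 : Tr := .C t0 t1
theorem d0 : Tr.chk (leaf fun A => gA A) exNo u0 218103808 218103808 268435456 268435456 268435456 268435456 = true := chkC rfl c0 c1

def u1 : Tr := .C t2 t3
theorem d1 : Tr.chk (leaf fun A => gA A) exNo u1 654311424 218103808 134217728 134217728 268435456 268435456 = true := chkC rfl c2 c3

def u2 : Tr := .B u1 t4
theorem d2 : Tr.chk (leaf fun A => gA A) exNo u2 654311424 218103808 268435456 268435456 268435456 268435456 = true := chkB rfl d1 c4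

def u3 : Tr := .A u0 u2
theorem d3 : Tr.chk (leaf fun A => gA A) exNo u3 436207616 436207616 268435456 268435456 268435456 268435456 = true := chkA rfl d0 d2

def u4 : Tr := .A t8 t9
theorem d4 : Tr.chk (leaf fun A => gA A) exNo u4 218103808 218103808 134217728 134217728 1040187392 33554432 = true := chkA rfl c8 c9

def u5 : Tr := .C t7 u4
theorem d5 : Tr.chk (leaf fun A => gA A) exNo u5 218103808 218103808 134217728 134217728 1006632960 67108864 = true := chkC rfl c7 d4

def u6 : Tr := .C t6 u5
theorem d6 : Tr.chk (leaf fun A => gA A) exNo u6 218103808 218103808 134217728 134217728 939524096 134217728 = true := chkC rfl c6 d5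

def u7 : Tr := .C t5 u6
theorem d7 : Tr.chk (leaf fun A => gA A) exNo u7 218103808 218103808 134217728 134217728 805306368 268435456 = true := chkC rfl c5 d6

def u8 : Tr := .C t11 t12
theorem d8 : Tr.chk (leaf fun A => gA A) exNo u8 218103808 218103808 402653184 134217728 939524096 134217728 = true := chkC rfl c11 c12

def u9 : Tr := .C t10 u8
theorem d9 : Tr.chk (leaf fun A => gA A) exNo u9 218103808 218103808 402653184 134217728 805306368 268435456 = true := chkC rfl c10 d8

def u10 : Tr := .B u7 u9
theorem d10 : Tr.chk (leaf fun A => gA A) exNo u10 218103808 218103808 268435456 268435456 805306368 268435456 = true := chkB rfl d7 d9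

def u11 : Tr := .A t13 t14
theorem d11 : Tr.chk (leaf fun A => gA A) exNo u11 654311424 218103808 134217728 134217728 671088640 134217728 = true := chkA rfl c13 c14

def u12 : Tr := .C t15 t16
theorem d12 : Tr.chk (leaf fun A => gA A) exNo u12 654311424 218103808 67108864 67108864 939524096 134217728 = true := chkC rfl c15 c16

def u13 : Tr := .B u12 t17
theorem d13 : Tr.chk (leaf fun A => gA A) exNo u13 654311424 218103808 134217728 134217728 939524096 134217728 = true := chkB rfl d12 c17

def u14 : Tr := .C u11 u13
theorem d14 : Tr.chk (leaf fun A => gA A) exNo u14 654311424 218103808 134217728 134217728 805306368 268435456 = true := chkC rfl d11 d13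

def u15 : Tr := .B t20 t21
theorem d15 : Tr.chk (leaf fun A => gA A) exNo u15 763363328 109051904 402653184 134217728 939524096 134217728 = true := chkB rfl c20 c21

def u16 : Tr := .A t19 u15
theorem d16 : Tr.chk (leaf fun A => gA A) exNo u16 654311424 218103808 402653184 134217728 939524096 134217728 = true := chkA rfl c19 d15

def u17 : Tr := .C t18 u16
theorem d17 : Tr.chk (leaf fun A => gA A) exNo u17 654311424 218103808 402653184 134217728 805306368 268435456 = true := chkC rfl c18 d16

def u18 : Tr := .B u14 u17
theorem d18 : Tr.chk (leaf fun A => gA A) exNo u18 654311424 218103808 268435456 268435456 805306368 268435456 = true := chkB rfl d14 d17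

def u19 : Tr := .A u10 u18
theorem d19 : Tr.chk (leaf fun A => gA A) exNo u19 436207616 436207616 268435456 268435456 805306368 268435456 = true := chkA rfl d10 d18

def u20 : Tr := .C u3 u19
theorem d20 : Tr.chk (leaf fun A => gA A) exNo u20 436207616 436207616 268435456 268435456 536870912 536870912 = true := chkC rfl d3 d19

def u21 : Tr := .B t23 t24
theorem d21 : Tr.chk (leaf fun A => gA A) exNo u21 654311424 218103808 805306368 268435456 268435456 268435456 = true := chkB rfl c23 c24

def u22 : Tr := .A t22 u21
theorem d22 : Tr.chk (leaf fun A => gA A) exNo u22 436207616 436207616 805306368 268435456 268435456 268435456 = true := chkA rfl c22 d21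

def u23 : Tr := .C t25 t26
theorem d23 : Tr.chk (leaf fun A => gA A) exNo u23 218103808 218103808 671088640 134217728 805306368 268435456 = true := chkC rfl c25 c26

def u24 : Tr := .C t27 t28
theorem d24 : Tr.chk (leaf fun A => gA A) exNo u24 218103808 218103808 939524096 134217728 805306368 268435456 = true := chkC rfl c27 c28

def u25 : Tr := .B u23 u24
theorem d25 : Tr.chk (leaf fun A => gA A) exNo u25 218103808 218103808 805306368 268435456 805306368 268435456 = true := chkB rfl d23 d24

def u26 : Tr := .A t30 t31
theorem d26 : Tr.chk (leaf fun A => gA A) exNo u26 654311424 218103808 671088640 134217728 939524096 134217728 = true := chkA rfl c30 c31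

def u27 : Tr := .C t29 u26
theorem d27 : Tr.chk (leaf fun A => gA A) exNo u27 654311424 218103808 671088640 134217728 805306368 268435456 = true := chkC rfl c29 d26

def u28 : Tr := .B t33 t34
theorem d28 : Tr.chk (leaf fun A => gA A) exNo u28 545259520 109051904 939524096 134217728 939524096 134217728 = true := chkB rfl c33 c34

def u29 : Tr := .A u28 t35
theorem d29 : Tr.chk (leaf fun A => gA A) exNo u29 654311424 218103808 939524096 134217728 939524096 134217728 = true := chkA rfl d28 c35

def u30 : Tr := .C t32 u29
theorem d30 : Tr.chk (leaf fun A => gA A) exNo u30 654311424 218103808 939524096 134217728 805306368 268435456 = true := chkC rfl c32 d29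

def u31 : Tr := .B u27 u30
theorem d31 : Tr.chk (leaf fun A => gA A) exNo u31 654311424 218103808 805306368 268435456 805306368 268435456 = true := chkB rfl d27 d30

def u32 : Tr := .A u25 u31
theorem d32 : Tr.chk (leaf fun A => gA A) exNo u32 436207616 436207616 805306368 268435456 805306368 268435456 = true := chkA rfl d25 d31

def u33 : Tr := .C u22 u32
theorem d33 : Tr.chk (leaf fun A => gA A) exNo u33 436207616 436207616 805306368 268435456 536870912 536870912 = true := chkC rfl d22 d32

def u34 : Tr := .B u20 u33
theorem d34 : Tr.chk (leaf fun A => gA A) exNo u34 436207616 436207616 536870912 536870912 536870912 536870912 = true := chkB rfl d20 d33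

/-- the whole region -/
theorem all : Tr.chk (leaf fun A => gA A) exNo u34 436207616 436207616 536870912 536870912 536870912 536870912 = true := d34

end Pool.Agent.FTA.A
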