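import Pool.Agent.FTA.SL

set_option maxRecDepth 100000

namespace Pool.Agent.FTA.A

def t0 : Tr := .C (.A .L .L) (.A .L (.B (.C .L .L) .L))
theorem c0 : Tr.chk (leaf fun A => gA A) exNo t0 218103808 218103808 268435456 268435456 134217728 134217728 = true := by decide +kernel

def t1 : Tr := .C (.B (.A .L (.B (.C .L .L) (.C .L .L))) (.A .L .L)) (.B (.B (.A (.C .L .L) (.B (.C .L .L) (.C .L .L))) (.C (.A .L .L) (.B (.A .L .L) (.A .L .L)))) (.B (.C (.A .L .L) (.B (.A .L .L) (.A .L .L))) (.C (.A .L .L) (.A .L .L))))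
theorem c1 : Tr.chk (leaf fun A => gA A) exNo t1 218103808 218103808 268435456 268435456 402653184 134217728 = true := by decide +kernel

def t2 : Tr := .A (.C (.A .L (.C .L .L)) (.C (.B (.A .L .L) (.A .L .L)) (.B (.B (.A .L .L) (.A .L .L)) (.B (.A .L .L) (.A .L .L))))) .L
theorem c2 : Tr.chk (leaf fun A => gA A) exNo t2 654311424 218103808 134217728 134217728 134217728 134217728 = true := by decide +kernel

def t3 : Tr := .A (.B (.C (.A (.C .L .L) (.B (.C .L .L) (.A .L .L))) (.A (.B .L .L) (.B (.A .L .L) .L))) (.A (.C .L .L) (.B (.C .L .L) (.C .L .L)))) (.B (.A (.C .L (.B (.A .L .L) (.A .L .L))) .L) (.A (.C .L (.B (.A .L .L) .L)) .L))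
theorem c3 : Tr.chk (leaf fun A => gA A) exNo t3 654311424 218103808 134217728 134217728 402653184 134217728 = true := by decide +kernel

def t4 : Tr := .C (.A (.C (.A .L .L) (.B (.A .L .L) (.A .L .L))) .L) (.A (.B (.A (.C .L .L) (.B (.C .L .L) (.C .L .L))) (.A (.C .L .L) (.C .L .L))) .L)
theorem c4 : Tr.chk (leaf fun A => gA A) exNo t4 654311424 218103808 402653184 134217728 268435456 268435456 = true := by decide +kernel

def t5 : Tr := .B (.C (.B (.C (.A .L .L) (.A .L .L)) (.A .L (.B .L .L))) (.A (.B .L .L) (.B (.B .L .L) .L))) (.C (.A .L (.B .L .L)) (.A (.A .L .L) (.B .L .L)))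
theorem c5 : Tr.chk (leaf fun A => gA A) exNo t5 218103808 218103808 134217728 134217728 671088640 134217728 = true := by decide +kernel

def t6 : Tr := .A (.B (.A .L .L) (.A .L .L)) (.B (.B (.C .L .L) .L) (.A .L .L))
theorem c6 : Tr.chk (leaf fun A => gA A) exNo t6 218103808 218103808 134217728 134217728 872415232 67108864 = true := by decide +kernel

def t7 : Tr := .A (.A (.C .L .L) (.B .L .L)) (.B (.B .L .L) (.A .L .L))
theorem c7 : Tr.chk (leaf fun A => gA A) exNo t7 218103808 218103808 134217728 134217728 973078528 33554432 = true := by decide +kernel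

def t8 : Tr := .C (.A (.A .L .L) (.B .L .L)) (.C (.A (.A .L (.B .L .L)) (.B .L .L)) (.A (.C (.A .L (.B .L .L)) (.A .L (.B (.C .L (.B .L (.A .L .L))) (.C .L (.A .L .L))))) (.B (.C .L (.B .L (.A .L .L))) (.A .L .L))))
theorem c8 : Tr.chk (leaf fun A => gA A) exNo t8 109051904 109051904 134217728 134217728 1040187392 33554432 = true := by decide +kernel

def t9 : Tr := .B (.C .L (.B .L (.C .L (.A .L .L)))) (.C (.A .L .L) (.A (.C .L (.B .L .L)) (.C .L .L)))
theorem c9 : Tr.chk (leaf fun A => gA A) exNo t9 327155712 109051904 134217728 134217728 1040187392 33554432 = true := by decide +kernel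

def t10 : Tr := .A (.C .L (.B .L .L)) (.B (.C .L .L) (.C .L .L))
theorem c10 : Tr.chk (leaf fun A => gA A) exNo t10 218103808 218103808 402653184 134217728 671088640 134217728 = true := by decide +kernel

def t11 : Tr := .A (.A (.C .L .L) .L) (.A .L (.B .L .L))
theorem c11 : Tr.chk (leaf fun A => gA A) exNo t11 218103808 218103808 402653184 134217728 872415232 67108864 = true := by decide +kernel

end Pool.Agent.FTA.A
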