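import Pool.Agent.FTA.SL

set_option maxRecDepth 100000

namespace Pool.Agent.FTA.B

def t12 : Tr := .C (.A .L (.C (.C (.B (.A .L .L) (.A .L .L)) (.B (.C (.B .L (.A .L .L)) (.B .L (.A .L .L))) (.A .L .L))) (.A .L (.C .L .L)))) (.A .L (.A .L (.A .L .L)))
theorem c12 : Tr.chk (leaf fun A => gB A) exNo t12 327155712 109051904 872415232 67108864 134217728 134217728 = true := by decide +kernel

def t13 : Tr := .C (.A .L (.C (.C (.B (.C (.A .L .L) (.B (.C (.A .L .L) (.A .L .L)) (.A .L .L))) (.C (.B (.C (.A .L .L) (.B (.A .L .L) (.A .L .L))) (.A .L .L)) (.A .L .L))) (.A .L .L)) (.A .L .L))) (.A (.A .L .L) (.A .L (.A .L .L)))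
theorem c13 : Tr.chk (leaf fun A => gB A) exNo t13 327155712 109051904 1006632960 67108864 134217728 134217728 = true := by decide +kernel

def t14 : Tr := .A (.C (.A .L .L) (.A .L .L)) (.B (.C (.A .L (.A .L (.A .L .L))) (.A .L (.A .L .L))) (.C (.A .L (.A .L (.A .L .L))) (.A .L (.A .L (.C .L .L)))))
theorem c14 : Tr.chk (leaf fun A => gB A) exNo t14 218103808 218103808 939524096 134217728 402653184 134217728 = true := by decide +kernel

def t15 : Tr := .C (.A (.B (.C (.A .L .L) (.A (.A (.C .L .L) .L) .L)) .L) .L) (.A (.B (.C (.A (.A .L .L) .L) (.A (.A .L .L) .L)) (.C (.A (.B (.A .L .L) .L) .L) (.A (.A (.C .L .L) .L) .L))) .L)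
theorem c15 : Tr.chk (leaf fun A => gB A) exNo t15 654311424 218103808 671088640 134217728 268435456 268435456 = true := by decide +kernel

def t16 : Tr := .C (.A .L .L) (.A (.B (.C .L (.A (.B (.C .L (.A .L .L)) (.C .L .L)) .L)) (.C .L (.A .L .L))) .L)
theorem c16 : Tr.chk (leaf fun A => gB A) exNo t16 654311424 218103808 939524096 134217728 268435456 268435456 = true := by decide +kernel

def t17 : Tr := .C (.A (.C (.A .L .L) (.A .L .L)) (.A (.C .L .L) (.C (.A .L .L) (.A .L .L)))) (.A (.C (.A .L .L) (.A (.C (.A .L .L) (.A .L .L)) (.C .L .L))) (.A (.C .L .L) (.C .L .L)))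
theorem c17 : Tr.chk (leaf fun A => gB A) exNo t17 218103808 218103808 671088640 134217728 805306368 268435456 = true := by decide +kernel

def t18 : Tr := .A (.A (.C .L .L) (.C .L .L)) (.B (.A (.C .L .L) (.C (.A .L .L) (.A .L .L))) (.A (.C .L .L) (.C (.A .L .L) (.A .L .L))))
theorem c18 : Tr.chk (leaf fun A => gB A) exNo t18 218103808 218103808 939524096 134217728 671088640 134217728 = true := by decide +kernel

def t19 : Tr := .A (.C (.A (.A .L .L) .L) (.A (.C (.A .L .L) (.A .L .L)) (.C .L .L))) (.A (.C .L .L) (.C (.A .L .L) (.C .L .L)))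
theorem c19 : Tr.chk (leaf fun A => gB A) exNo t19 218103808 218103808 939524096 134217728 939524096 134217728 = true := by decide +kernel

def t20 : Tr := .A (.B (.C (.A (.A .L .L) .L) (.A (.A .L (.A .L .L)) .L)) (.C (.A (.A .L .L) .L) (.A (.A .L (.A .L .L)) .L))) .L
theorem c20 : Tr.chk (leaf fun A => gB A) exNo t20 654311424 218103808 671088640 134217728 671088640 134217728 = true := by decide +kernel

def t21 : Tr := .A (.B (.C (.A (.A .L (.A .L .L)) .L) (.A (.A .L (.A .L .L)) .L)) (.C (.A (.A .L (.A .L (.A .L .L))) .L) (.A (.A .L (.A .L .L)) .L))) .L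
theorem c21 : Tr.chk (leaf fun A => gB A) exNo t21 654311424 218103808 671088640 134217728 939524096 134217728 = true := by decide +kernel

def t22 : Tr := .A (.B (.C (.A (.B (.A .L .L) (.C (.A .L .L) (.A .L .L))) .L) (.A (.A .L (.A .L .L)) .L)) (.C (.A (.B (.C (.A .L .L) (.A .L .L)) (.C .L (.A (.A .L .L) .L))) .L) (.A (.B (.A .L .L) (.A (.C .L .L) .L)) .L))) .L
theorem c22 : Tr.chk (leaf fun A => gB A) exNo t22 654311424 218103808 939524096 134217728 671088640 134217728 = true := by decide +kernel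

def t23 : Tr := .A (.B (.C (.A (.A .L (.A .L .L)) .L) (.A (.A .L (.A .L (.A .L .L))) .L)) (.C (.A (.A .L (.A .L .L)) .L) (.A (.A .L (.A .L (.A .L (.A .L .L)))) .L))) .L
theorem c23 : Tr.chk (leaf fun A => gB A) exNo t23 654311424 218103808 939524096 134217728 939524096 134217728 = true := by decide +kernel

end Pool.Agent.FTA.B
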