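import Pool.Agent.FTA.KB0
import Pool.Agent.FTA.KB1

set_option maxRecDepth 100000

namespace Pool.Agent.FTA.B

def u0 : Tr := .B t2 t3
theorem d0 : Tr.chk (leaf fun A => gB A) exNo u0 545259520 109051904 402653184 134217728 134217728 134217728 = true := chkB rfl c2 c3

def u1 : Tr := .A u0 t4
theorem d1 : Tr.chk (leaf fun A => gB A) exNo u1 654311424 218103808 402653184 134217728 134217728 134217728 = true := chkA rfl d0 c4

def u2 : Tr := .C u1 t5
theorem d2 : Tr.chk (leaf fun A => gB A) exNo u2 654311424 218103808 402653184 134217728 268435456 268435456 = true := chkC rfl d1 c5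

def u3 : Tr := .B t1 u2
theorem d3 : Tr.chk (leaf fun A => gB A) exNo u3 654311424 218103808 268435456 268435456 268435456 268435456 = true := chkB rfl c1 d2

def u4 : Tr := .A t0 u3
theorem d4 : Tr.chk (leaf fun A => gB A) exNo u4 436207616 436207616 268435456 268435456 268435456 268435456 = true := chkA rfl c0 d3

def u5 : Tr := .B t6 t7
theorem d5 : Tr.chk (leaf fun A => gB A) exNo u5 218103808 218103808 268435456 268435456 805306368 268435456 = true := chkB rfl c6 c7

def u6 : Tr := .B t8 t9
theorem d6 : Tr.chk (leaf fun A => gB A) exNo u6 654311424 218103808 268435456 268435456 805306368 268435456 = true := chkB rfl c8 c9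

def u7 : Tr := .A u5 u6
theorem d7 : Tr.chk (leaf fun A => gB A) exNo u7 436207616 436207616 268435456 268435456 805306368 268435456 = true := chkA rfl d5 d6

def u8 : Tr := .C u4 u7
theorem d8 : Tr.chk (leaf fun A => gB A) exNo u8 436207616 436207616 268435456 268435456 536870912 536870912 = true := chkC rfl d4 d7

def u9 : Tr := .B t12 t13
theorem d9 : Tr.chk (leaf fun A => gB A) exNo u9 327155712 109051904 939524096 134217728 134217728 134217728 = true := chkB rfl c12 c13

def u10 : Tr := .A t11 u9
theorem d10 : Tr.chk (leaf fun A => gB A) exNo u10 218103808 218103808 939524096 134217728 134217728 134217728 = true := chkA rfl c11 d9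

def u11 : Tr := .C u10 t14
theorem d11 : Tr.chk (leaf fun A => gB A) exNo u11 218103808 218103808 939524096 134217728 268435456 268435456 = true := chkC rfl d10 c14

def u12 : Tr := .B t10 u11
theorem d12 : Tr.chk (leaf fun A => gB A) exNo u12 218103808 218103808 805306368 268435456 268435456 268435456 = true := chkB rfl c10 d11

def u13 : Tr := .B t15 t16
theorem d13 : Tr.chk (leaf fun A => gB A) exNo u13 654311424 218103808 805306368 268435456 268435456 268435456 = true := chkB rfl c15 c16

def u14 : Tr := .A u12 u13
theorem d14 : Tr.chk (leaf fun A => gB A) exNo u14 436207616 436207616 805306368 268435456 268435456 268435456 = true := chkA rfl d12 d13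

def u15 : Tr := .C t18 t19
theorem d15 : Tr.chk (leaf fun A => gB A) exNo u15 218103808 218103808 939524096 134217728 805306368 268435456 = true := chkC rfl c18 c19

def u16 : Tr := .B t17 u15
theorem d16 : Tr.chk (leaf fun A => gB A) exNo u16 218103808 218103808 805306368 268435456 805306368 268435456 = true := chkB rfl c17 d15

def u17 : Tr := .C t20 t21
theorem d17 : Tr.chk (leaf fun A => gB A) exNo u17 654311424 218103808 671088640 134217728 805306368 268435456 = true := chkC rfl c20 c21

def u18 : Tr := .C t22 t23
theorem d18 : Tr.chk (leaf fun A => gB A) exNo u18 654311424 218103808 939524096 134217728 805306368 268435456 = true := chkC rfl c22 c23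

def u19 : Tr := .B u17 u18
theorem d19 : Tr.chk (leaf fun A => gB A) exNo u19 654311424 218103808 805306368 268435456 805306368 268435456 = true := chkB rfl d17 d18

def u20 : Tr := .A u16 u19
theorem d20 : Tr.chk (leaf fun A => gB A) exNo u20 436207616 436207616 805306368 268435456 805306368 268435456 = true := chkA rfl d16 d19

def u21 : Tr := .C u14 u20
theorem d21 : Tr.chk (leaf fun A => gB A) exNo u21 436207616 436207616 805306368 268435456 536870912 536870912 = true := chkC rfl d14 d20

def u22 : Tr := .B u8 u21
theorem d22 : Tr.chk (leaf fun A => gB A) exNo u22 436207616 436207616 536870912 536870912 536870912 536870912 = true := chkB rfl d8 d21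

/-- the whole region -/
theorem all : Tr.chk (leaf fun A => gB A) exNo u22 436207616 436207616 536870912 536870912 536870912 536870912 = true := d22

end Pool.Agent.FTA.B
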