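import Pool.Agent.FTA.KF10

set_option maxRecDepth 100000

namespace Pool.Agent.FTA.F1

/-- the whole region -/
theorem all : Tr.chk (leafS fun A => fF1 A) exNo t0 486539264 385875968 67108864 67108864 536870912 536870912 = true := c0

end Pool.Agent.FTA.F1
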