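import Pool.Agent.FTA.SL

set_option maxRecDepth 100000

namespace Pool.Agent.FTA.F1

def t0 : Tr := .C (.A (.A .L .L) (.A (.C .L .L) (.C (.C (.C .L .L) .L) (.A .L .L)))) (.A (.A .L (.C .L .L)) (.A (.C .L (.A .L .L)) (.C (.A .L .L) (.A .L (.A .L .L)))))
theorem c0 : Tr.chk (leafS fun A => fF1 A) exNo t0 486539264 385875968 67108864 67108864 536870912 536870912 = true := by decide +kernel

end Pool.Agent.FTA.F1
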