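import Pool.Agent.FTA.KHE0

set_option maxRecDepth 100000

namespace Pool.Agent.FTA.HE

/-- the whole region -/
theorem all : Tr.chk (leaf fun A => gHE A) exNo t0 100663296 100663296 536870912 536870912 872415232 872415232 = true := c0

end Pool.Agent.FTA.HE
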