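import Pool.Agent.FTA.SL

set_option maxRecDepth 100000

namespace Pool.Agent.FTA.HP

def t0 : Tr := .B .L (.C .L (.B .L (.A .L .L)))
theorem c0 : Tr.chk (leaf fun A => gHP A) exNo t0 100663296 100663296 536870912 536870912 536870912 536870912 = true := by decide +kernel

end Pool.Agent.FTA.HP
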