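import Pool.Agent.FTA.Stmts

/-! Module KIT: elementary facts on the exponents and on `Enc`. -/

namespace Pool.Agent.FTA

namespace KIT_

theorem memK {e : ℕ × ℕ × ℕ} (h : e ∈ Kx) : e.1 + e.2.1 + e.2.2 ≤ 3 := by
  unfold Kx at h
  exact (Finset.mem_filter.1 h).2

theorem memH {e : ℕ × ℕ × ℕ} (h : e ∈ Hx) : 4 ≤ e.1 + e.2.1 + e.2.2 ∧ e.1 + e.2.1 + e.2.2 ≤ 6 := by
  unfold Hx at h
  exact (Finset.mem_filter.1 h).2

theorem memU {e : ℕ × ℕ × ℕ} (h : e ∈ Kx ∪ Hx) : e.1 + e.2.1 + e.2.2 ≤ 6 := by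
  rcases Finset.mem_union.1 h with h | h
  · have := memK h; omega
  · exact (memH h).2

theorem inj (e : ℕ × ℕ × ℕ) (he : e ∈ Kx ∪ Hx) (e' : ℕ × ℕ × ℕ) (he' : e' ∈ Kx ∪ Hx)
    (h : slot e = slot e') : e = e' := by
  have h1 := memU he
  have h2 := memU he'
  obtain ⟨i, j, k⟩ := e
  obtain ⟨i', j', k'⟩ := e'
  unfold slot at h
  simp only at h1 h2 h
  have hk : k = k' := by omega
  have hj : j = j' := by omega
  have hi : i = i' := by omega
  rw [hi, hj, hk]

theorem disj : Disjoint Kx Hx := by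
  rw [Finset.disjoint_left]
  intro e h1 h2
  have := memK h1
  have := memH h2
  omega

theorem slot_le (e : ℕ × ℕ × ℕ) (he : e ∈ Kx ∪ Hx) : slot e ≤ 294 := by
  have h1 := memU he
  unfold slot
  omega

theorem mono_le (u : ℝ × ℝ × ℝ) (hu : Cube u) (e : ℕ × ℕ × ℕ) : |mono u e| ≤ 1 := by
  obtain ⟨h1, h2, h3⟩ := hu
  unfold mono
  rw [abs_mul, abs_mul, abs_pow, abs_pow, abs_pow]
  have a1 : |u.1| ^ e.1 ≤ 1 := pow_le_one₀ (abs_nonneg _) h1
  have a2 : |u.2.1| ^ e.2.1 ≤ 1 := pow_le_one₀ (abs_nonneg _) h2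
  have a3 : |u.2.2| ^ e.2.2 ≤ 1 := pow_le_one₀ (abs_nonneg _) h3
  exact mul_le_one₀ (mul_le_one₀ a1 (by positivity) a2) (by positivity) a3

theorem enc (N : ℕ) (c : ℕ × ℕ × ℕ → ℤ) : Enc N c ↔ ∃ D : ℕ × ℕ × ℕ → ℕ, (∀ e, D e < 2 ^ 41) ∧
    (∀ e ∈ Kx, 0 < D e) ∧ N = pk Kx D ∧ ∀ e ∈ Kx, c e = (D e : ℤ) - 2 ^ 40 := by
  constructor
  · rintro ⟨h1, h2⟩
    have hb : ∀ e ∈ Kx, 0 < c e + 2 ^ 40 ∧ c e + 2 ^ 40 < 2 ^ 41 := by
      intro e he
      have := abs_lt.1 (h2 e he)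
      constructor
      · linarith [this.1]
      · have h3 : (2 : ℤ) ^ 41 = 2 ^ 40 + 2 ^ 40 := by norm_num
        rw [h3]; linarith [this.2]
    refine ⟨fun e => if e ∈ Kx then (c e + 2 ^ 40).toNat else 0, ?_, ?_, ?_, ?_⟩
    · intro e
      by_cases he : e ∈ Kx
      · simp only [if_pos he]
        have := hb e he
        have h4 : ((c e + 2 ^ 40).toNat : ℤ) < 2 ^ 41 := by
          rw [Int.toNat_of_nonneg this.1.le]; exact this.2
        exact_mod_cast h4
      · simp only [if_neg he]; positivity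
    · intro e he
      simp only [if_pos he]
      have := hb e he
      have h4 : (0 : ℤ) < ((c e + 2 ^ 40).toNat : ℤ) := by
        rw [Int.toNat_of_nonneg this.1.le]; exact this.1
      exact_mod_cast h4
    · unfold pk
      have : (N : ℤ) = ((∑ e ∈ Kx, (if e ∈ Kx then (c e + 2 ^ 40).toNat else 0) * (2 ^ 80) ^ slot e : ℕ) : ℤ) := by
        rw [h1, Nat.cast_sum]
        apply Finset.sum_congr rfl
        intro e he
        rw [if_pos he, Nat.cast_mul, Int.toNat_of_nonneg (hb e he).1.le]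
        push_cast
        rfl
      exact_mod_cast this
    · intro e he
      simp only [if_pos he]
      rw [Int.toNat_of_nonneg (hb e he).1.le]
      ring
  · rintro ⟨D, hD, hp, hN, hc⟩
    constructor
    · rw [hN]; unfold pk; rw [Nat.cast_sum]
      apply Finset.sum_congr rfl
      intro e he
      rw [hc e he, Nat.cast_mul]
      push_cast
      ring
    · intro e he
      rw [hc e he, abs_lt]
      have h1 : (0 : ℤ) < (D e : ℤ) := by exact_mod_cast hp e he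
      have h2 : (D e : ℤ) < 2 ^ 41 := by exact_mod_cast hD e
      have h3 : (2 : ℤ) ^ 41 = 2 ^ 40 + 2 ^ 40 := by norm_num
      constructor
      · linarith
      · rw [h3] at h2; linarith

end KIT_

theorem kit_proof : Stmt_KIT :=
  ⟨KIT_.inj, KIT_.disj, by decide +kernel, by decide +kernel, KIT_.slot_le, KIT_.mono_le, KIT_.enc⟩

end Pool.Agent.FTA
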