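import Pool.Agent.FTA.SL

set_option maxRecDepth 100000

namespace Pool.Agent.FTA.N

def t12 : Tr := .C (.A (.A (.C .L .L) (.C .L .L)) (.A (.C .L .L) (.C .L .L))) (.C (.A (.A .L .L) (.C .L .L)) (.C (.A .L .L) (.C (.A .L .L) (.A .L .L))))
theorem c12 : Tr.chk (leaf fun A => gN A) exNo t12 654311424 218103808 939524096 134217728 710934528 236978176 = true := by decide +kernel

end Pool.Agent.FTA.N
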