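import Pool.Agent.FTA.KN0
import Pool.Agent.FTA.KN1

set_option maxRecDepth 100000

namespace Pool.Agent.FTA.N

def u0 : Tr := .B t1 t2
theorem d0 : Tr.chk (leaf fun A => gN A) exNo u0 654311424 218103808 268435456 268435456 236978176 236978176 = true := chkB rfl c1 c2

def u1 : Tr := .A t0 u0
theorem d1 : Tr.chk (leaf fun A => gN A) exNo u1 436207616 436207616 268435456 268435456 236978176 236978176 = true := chkA rfl c0 d0

def u2 : Tr := .C t5 t6
theorem d2 : Tr.chk (leaf fun A => gN A) exNo u2 654311424 218103808 402653184 134217728 710934528 236978176 = true := chkC rfl c5 c6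

def u3 : Tr := .B t4 u2
theorem d3 : Tr.chk (leaf fun A => gN A) exNo u3 654311424 218103808 268435456 268435456 710934528 236978176 = true := chkB rfl c4 d2

def u4 : Tr := .A t3 u3
theorem d4 : Tr.chk (leaf fun A => gN A) exNo u4 436207616 436207616 268435456 268435456 710934528 236978176 = true := chkA rfl c3 d3

def u5 : Tr := .C u1 u4
theorem d5 : Tr.chk (leaf fun A => gN A) exNo u5 436207616 436207616 268435456 268435456 473956352 473956352 = true := chkC rfl d1 d4

def u6 : Tr := .B t8 t9
theorem d6 : Tr.chk (leaf fun A => gN A) exNo u6 654311424 218103808 805306368 268435456 236978176 236978176 = true := chkB rfl c8 c9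

def u7 : Tr := .A t7 u6
theorem d7 : Tr.chk (leaf fun A => gN A) exNo u7 436207616 436207616 805306368 268435456 236978176 236978176 = true := chkA rfl c7 d6

def u8 : Tr := .B t11 t12
theorem d8 : Tr.chk (leaf fun A => gN A) exNo u8 654311424 218103808 805306368 268435456 710934528 236978176 = true := chkB rfl c11 c12

def u9 : Tr := .A t10 u8
theorem d9 : Tr.chk (leaf fun A => gN A) exNo u9 436207616 436207616 805306368 268435456 710934528 236978176 = true := chkA rfl c10 d8

def u10 : Tr := .C u7 u9
theorem d10 : Tr.chk (leaf fun A => gN A) exNo u10 436207616 436207616 805306368 268435456 473956352 473956352 = true := chkC rfl d7 d9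

def u11 : Tr := .B u5 u10
theorem d11 : Tr.chk (leaf fun A => gN A) exNo u11 436207616 436207616 536870912 536870912 473956352 473956352 = true := chkB rfl d5 d10

/-- the whole region -/
theorem all : Tr.chk (leaf fun A => gN A) exNo u11 436207616 436207616 536870912 536870912 473956352 473956352 = true := d11

end Pool.Agent.FTA.N
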