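import Pool.Agent.FTA.KS10

set_option maxRecDepth 100000

namespace Pool.Agent.FTA.S1

/-- the whole region -/
theorem all : Tr.chk (leafS fun A => fP1 A) exNo t0 50331648 50331648 67108864 67108864 536870912 536870912 = true := c0

end Pool.Agent.FTA.S1
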