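import Pool.Agent.FTA.SL

set_option maxRecDepth 100000

namespace Pool.Agent.FTA.S2

def t0 : Tr := .C (.C (.B .L .L) .L) .L
theorem c0 : Tr.chk (leafS fun A => fP2 A) exNo t0 50331648 50331648 50331648 50331648 536870912 536870912 = true := by decide +kernel

end Pool.Agent.FTA.S2
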