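import Pool.Agent.FTA.KSN0

set_option maxRecDepth 100000

namespace Pool.Agent.FTA.SN

/-- the whole region -/
theorem all : Tr.chk (leafS fun A => fN A) exNo t0 436207616 436207616 67108864 67108864 536870912 536870912 = true := c0

end Pool.Agent.FTA.SN
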