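import Pool.Agent.FTA.SL

set_option maxRecDepth 100000

namespace Pool.Agent.FTA.T2

def t0 : Tr := .L
theorem c0 : Tr.chk (leafS fun A => fV2 A) exNo t0 536870912 536870912 16777216 16777216 536870912 536870912 = true := by decide +kernel

end Pool.Agent.FTA.T2
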