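import Pool.Agent.FTA.SL

set_option maxRecDepth 100000

namespace Pool.Agent.FTA.V

def t12 : Tr := .B (.C (.B (.B (.C .L .L) (.A .L (.B .L .L))) (.B (.A (.C .L .L) .L) .L)) (.B (.B (.A .L .L) (.A .L (.C .L .L))) (.B (.A (.B (.C .L .L) (.C .L .L)) (.B (.C .L .L) .L)) (.A .L .L)))) (.C .L .L)
theorem c12 : Tr.chk (leaf fun A => gV A) exV t12 671088640 134217728 805306368 268435456 805306368 268435456 = true := by decide +kernel

def t13 : Tr := .B (.C (.B (.C (.B .L .L) (.B .L .L)) .L) (.B (.B (.A (.B (.A .L .L) (.C .L .L)) (.B (.A (.C .L .L) (.C .L .L)) (.A (.C .L .L) .L))) (.A (.B (.A (.C .L .L) .L) .L) .L)) .L)) .L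
theorem c13 : Tr.chk (leaf fun A => gV A) exV t13 939524096 134217728 805306368 268435456 805306368 268435456 = true := by decide +kernel

end Pool.Agent.FTA.V
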