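import Pool.Agent.FTA.KV0
import Pool.Agent.FTA.KV1

set_option maxRecDepth 100000

namespace Pool.Agent.FTA.V

def u0 : Tr := .C t0 t1
theorem d0 : Tr.chk (leaf fun A => gV A) exV u0 268435456 268435456 268435456 268435456 536870912 536870912 = true := chkC rfl c0 c1

def u1 : Tr := .A t2 t3
theorem d1 : Tr.chk (leaf fun A => gV A) exV u1 268435456 268435456 805306368 268435456 268435456 268435456 = true := chkA rfl c2 c3

def u2 : Tr := .C t5 t6
theorem d2 : Tr.chk (leaf fun A => gV A) exV u2 134217728 134217728 939524096 134217728 805306368 268435456 = true := chkC rfl c5 c6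

def u3 : Tr := .B t4 u2
theorem d3 : Tr.chk (leaf fun A => gV A) exV u3 134217728 134217728 805306368 268435456 805306368 268435456 = true := chkB rfl c4 d2

def u4 : Tr := .A u3 t7
theorem d4 : Tr.chk (leaf fun A => gV A) exV u4 268435456 268435456 805306368 268435456 805306368 268435456 = true := chkA rfl d3 c7

def u5 : Tr := .C u1 u4
theorem d5 : Tr.chk (leaf fun A => gV A) exV u5 268435456 268435456 805306368 268435456 536870912 536870912 = true := chkC rfl d1 d4

def u6 : Tr := .B u0 u5
theorem d6 : Tr.chk (leaf fun A => gV A) exV u6 268435456 268435456 536870912 536870912 536870912 536870912 = true := chkB rfl d0 d5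

def u7 : Tr := .A t8 t9
theorem d7 : Tr.chk (leaf fun A => gV A) exV u7 805306368 268435456 268435456 268435456 268435456 268435456 = true := chkA rfl c8 c9

def u8 : Tr := .C u7 t10
theorem d8 : Tr.chk (leaf fun A => gV A) exV u8 805306368 268435456 268435456 268435456 536870912 536870912 = true := chkC rfl d7 c10

def u9 : Tr := .A t12 t13
theorem d9 : Tr.chk (leaf fun A => gV A) exV u9 805306368 268435456 805306368 268435456 805306368 268435456 = true := chkA rfl c12 c13

def u10 : Tr := .C t11 u9
theorem d10 : Tr.chk (leaf fun A => gV A) exV u10 805306368 268435456 805306368 268435456 536870912 536870912 = true := chkC rfl c11 d9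

def u11 : Tr := .B u8 u10
theorem d11 : Tr.chk (leaf fun A => gV A) exV u11 805306368 268435456 536870912 536870912 536870912 536870912 = true := chkB rfl d8 d10

def u12 : Tr := .A u6 u11
theorem d12 : Tr.chk (leaf fun A => gV A) exV u12 536870912 536870912 536870912 536870912 536870912 536870912 = true := chkA rfl d6 d11

/-- the whole region -/
theorem all : Tr.chk (leaf fun A => gV A) exV u12 536870912 536870912 536870912 536870912 536870912 536870912 = true := d12

end Pool.Agent.FTA.V
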