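import Pool.Agent.FTA.SL

set_option maxRecDepth 100000

namespace Pool.Agent.FTA.V

def t0 : Tr := .A (.C (.C (.B .L (.B .L .L)) (.C (.B .L (.B .L .L)) (.A (.B .L .L) (.B .L .L)))) (.B .L (.B .L .L))) (.B (.C (.C (.C .L .L) .L) .L) (.C (.B .L .L) (.B .L .L)))
theorem c0 : Tr.chk (leaf fun A => gV A) exV t0 268435456 268435456 268435456 268435456 268435456 268435456 = true := by decide +kernel

def t1 : Tr := .A (.B (.C .L .L) (.B (.C .L .L) (.C .L .L))) (.B (.B (.C .L .L) (.C .L .L)) (.B (.C .L .L) (.B (.C .L .L) (.C .L .L))))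
theorem c1 : Tr.chk (leaf fun A => gV A) exV t1 268435456 268435456 268435456 268435456 805306368 268435456 = true := by decide +kernel

def t2 : Tr := .B (.C (.B .L (.C .L .L)) (.B .L (.A .L .L))) (.C (.B (.C .L .L) (.C (.B .L .L) (.B .L .L))) (.C (.B .L (.C (.B .L .L) (.B .L .L))) (.B .L (.C (.B .L .L) (.B .L .L)))))
theorem c2 : Tr.chk (leaf fun A => gV A) exV t2 134217728 134217728 805306368 268435456 268435456 268435456 = true := by decide +kernel

def t3 : Tr := .B (.C (.B (.A .L .L) (.C .L .L)) (.B (.B .L .L) (.C .L (.A .L .L)))) (.C .L (.B (.C .L .L) .L))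
theorem c3 : Tr.chk (leaf fun A => gV A) exV t3 402653184 134217728 805306368 268435456 268435456 268435456 = true := by decide +kernel

def t4 : Tr := .C (.B .L (.B .L .L)) (.B .L (.B .L (.C .L .L)))
theorem c4 : Tr.chk (leaf fun A => gV A) exV t4 134217728 134217728 671088640 134217728 805306368 268435456 = true := by decide +kernel

def t5 : Tr := .B (.C (.B .L .L) (.B .L .L)) (.C (.C (.A .L .L) (.B .L .L)) (.C (.B .L .L) (.B .L .L)))
theorem c5 : Tr.chk (leaf fun A => gV A) exV t5 134217728 134217728 939524096 134217728 671088640 134217728 = true := by decide +kernel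

def t6 : Tr := .B (.C (.B .L .L) (.B .L (.C .L (.C .L .L)))) (.C (.B (.C .L .L) (.C (.C .L .L) (.B .L .L))) (.C (.B (.B .L .L) (.B (.C .L .L) (.C .L .L))) (.B (.B (.C .L (.A .L .L)) (.C .L (.A .L .L))) .L)))
theorem c6 : Tr.chk (leaf fun A => gV A) exV t6 134217728 134217728 939524096 134217728 939524096 134217728 = true := by decide +kernel

def t7 : Tr := .B (.B (.C (.B .L .L) (.B .L .L)) (.C (.B (.A .L .L) (.A .L (.C .L .L))) (.B (.C .L .L) (.C .L .L)))) (.C (.B (.C (.B .L .L) (.B (.A .L .L) .L)) .L) (.B (.C (.B (.A .L .L) .L) (.B (.A .L .L) (.A .L .L))) .L))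
theorem c7 : Tr.chk (leaf fun A => gV A) exV t7 402653184 134217728 805306368 268435456 805306368 268435456 = true := by decide +kernel

def t8 : Tr := .B (.C (.C (.C (.B .L .L) .L) .L) .L) (.C (.B .L (.C .L .L)) (.B .L (.B .L .L)))
theorem c8 : Tr.chk (leaf fun A => gV A) exV t8 671088640 134217728 268435456 268435456 268435456 268435456 = true := by decide +kernel

def t9 : Tr := .B (.C (.C (.C (.B (.C (.B (.C (.B (.A .L (.C (.B (.C (.A .L (.B (.B (.A .L .X) .L) .L)) .L) .L) .L)) .L) .L) .L) .L) .L) .L) .L) (.C .L .L)) (.C (.B (.C .L .L) (.B .L .L)) (.B (.B .L .L) (.B .L .L)))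
theorem c9 : Tr.chk (leaf fun A => gV A) exV t9 939524096 134217728 268435456 268435456 268435456 268435456 = true := by decide +kernel

def t10 : Tr := .A (.B (.C .L .L) (.C (.B .L .L) (.B .L (.B .L .L)))) (.B (.C (.B .L .L) (.B .L .L)) (.C (.B .L (.B .L (.A .L (.C .L .L)))) (.B (.B .L .L) (.B (.A .L .L) (.A .L (.A (.B .L .L) (.C .L .L)))))))
theorem c10 : Tr.chk (leaf fun A => gV A) exV t10 805306368 268435456 268435456 268435456 805306368 268435456 = true := by decide +kernel

def t11 : Tr := .A (.B (.C (.B (.B .L .L) .L) (.B (.B .L (.C .L .L)) .L)) .L) (.B (.C .L (.A .L .L)) .L)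
theorem c11 : Tr.chk (leaf fun A => gV A) exV t11 805306368 268435456 805306368 268435456 268435456 268435456 = true := by decide +kernel

end Pool.Agent.FTA.V
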