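import Pool.Agent.FTA.Stmts

/-! Module LIN: soundness of the linear operations on Taylor models. -/

open Real

namespace Pool.Agent.FTA

namespace LIN_

theorem band {a b : Bool} (h : Bool.and a b = true) : a = true ∧ b = true := by
  revert h; cases a <;> cases b <;> decide

theorem ble {a b : ℕ} (h : Nat.ble a b = true) : a ≤ b := Nat.le_of_ble_eq_true h

/-- weight of an exponent -/
def W (e : ℕ × ℕ × ℕ) : ℤ := (2 ^ 80) ^ slot e

theorem W_pos (e : ℕ × ℕ × ℕ) : 0 < W e := by unfold W; positivity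

theorem castle {S : ℤ} {n : ℕ} : ((S : ℤ) : ℝ) ≤ ((n : ℕ) : ℝ) ↔ S ≤ (n : ℤ) := by
  rw [← Int.cast_natCast (R := ℝ) n, Int.cast_le]

theorem BE_eq (h2 : Stmt_CONST) : (BE : ℤ) = ∑ e ∈ Kx, 2 ^ 40 * W e := by
  have hKE : (KE : ℤ) = ∑ e ∈ Kx, W e := by
    rw [h2.1]
    unfold pk
    rw [Nat.cast_sum]
    refine Finset.sum_congr rfl fun e _ => ?_
    unfold W
    rw [one_mul]
    push_cast
    rfl
  have hBE : (BE : ℤ) = 2 ^ 40 * (KE : ℤ) := by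
    rw [h2.2.2.1]
    push_cast
    rfl
  rw [hBE, hKE, Finset.mul_sum]

theorem enc_of {P Q : ℕ} {c : ℕ × ℕ × ℕ → ℤ} (hs : (P : ℤ) - Q = ∑ e ∈ Kx, (c e + 2 ^ 40) * W e)
    (hc : ∀ e ∈ Kx, |c e| < 2 ^ 40) : Enc (Nat.sub P Q) c := by
  have hnn : 0 ≤ ∑ e ∈ Kx, (c e + 2 ^ 40) * W e := by
    refine Finset.sum_nonneg fun e he => mul_nonneg ?_ (W_pos e).le
    have := (abs_lt.1 (hc e he)).1
    linarith
  have hle : Q ≤ P := by
    have : (0 : ℤ) ≤ (P : ℤ) - Q := by rw [hs]; exact hnn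
    omega
  refine ⟨?_, hc⟩
  have e1 : ((Nat.sub P Q : ℕ) : ℤ) = (P : ℤ) - Q := Nat.cast_sub hle
  rw [e1]
  exact hs

theorem each_le {c : ℕ × ℕ × ℕ → ℤ} {n : ℕ} (h : (∑ e ∈ Kx, |c e|) ≤ (n : ℤ)) :
    ∀ e ∈ Kx, |c e| ≤ (n : ℤ) := fun _ he =>
  (Finset.single_le_sum (f := fun e => |c e|) (fun _ _ => abs_nonneg _) he).trans h

theorem sum_split (u : ℝ × ℝ × ℝ) (c d : ℕ × ℕ × ℕ → ℤ) :
    ∑ e ∈ Kx, (((c e + d e : ℤ)) : ℝ) * mono u e =
      ∑ e ∈ Kx, (c e : ℝ) * mono u e + ∑ e ∈ Kx, (d e : ℝ) * mono u e := by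
  rw [← Finset.sum_add_distrib]
  refine Finset.sum_congr rfl fun e _ => ?_
  rw [Int.cast_add]
  ring

theorem sum_split' (u : ℝ × ℝ × ℝ) (c d : ℕ × ℕ × ℕ → ℤ) :
    ∑ e ∈ Kx, (((c e - d e : ℤ)) : ℝ) * mono u e =
      ∑ e ∈ Kx, (c e : ℝ) * mono u e - ∑ e ∈ Kx, (d e : ℝ) * mono u e := by
  rw [← Finset.sum_sub_distrib]
  refine Finset.sum_congr rfl fun e _ => ?_
  rw [Int.cast_sub]
  ring

theorem add_ (h2 : Stmt_CONST) (u : ℝ × ℝ × ℝ) (a b : TM) (x y : ℝ) (ha : RepT u a x)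
    (hb : RepT u b y) : RepT u (TM.add a b) (x + y) := by
  obtain ⟨aN, an, ar, ao⟩ := a
  obtain ⟨bN, bn, br, bo⟩ := b
  intro hok
  have hok' : Bool.and (Bool.and ao bo) (Nat.ble (Nat.add an bn) 0x8000000000) = true := hok
  obtain ⟨h1, hn⟩ := band hok'
  obtain ⟨hao, hbo⟩ := band h1
  have hn' : an + bn ≤ 0x8000000000 := ble hn
  obtain ⟨c, hc, hcn, hcr⟩ := ha hao
  obtain ⟨d, hd, hdn, hdr⟩ := hb hbo
  have ec : (aN : ℤ) = ∑ e ∈ Kx, (c e + 2 ^ 40) * W e := hc.1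
  have ed : (bN : ℤ) = ∑ e ∈ Kx, (d e + 2 ^ 40) * W e := hd.1
  have hcn' : (∑ e ∈ Kx, |c e|) ≤ (an : ℤ) := castle.1 hcn
  have hdn' : (∑ e ∈ Kx, |d e|) ≤ (bn : ℤ) := castle.1 hdn
  have hsum : (∑ e ∈ Kx, |c e + d e|) ≤ ((an + bn : ℕ) : ℤ) := by
    have : (∑ e ∈ Kx, |c e + d e|) ≤ (∑ e ∈ Kx, |c e|) + ∑ e ∈ Kx, |d e| := by
      rw [← Finset.sum_add_distrib]
      exact Finset.sum_le_sum fun e _ => abs_add_le _ _
    push_cast
    linarith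
  refine ⟨fun e => c e + d e, ?_, ?_, ?_⟩
  · apply enc_of
    · have e1 : ((Nat.add aN bN : ℕ) : ℤ) = (aN : ℤ) + bN := Nat.cast_add _ _
      rw [e1, ec, ed, BE_eq h2, ← Finset.sum_add_distrib, ← Finset.sum_sub_distrib]
      refine Finset.sum_congr rfl fun e _ => ?_
      ring
    · intro e he
      have h3 := each_le hsum e he
      have h4 : ((an + bn : ℕ) : ℤ) ≤ 0x8000000000 := by exact_mod_cast hn'
      exact lt_of_le_of_lt (h3.trans h4) (by norm_num)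
  · exact castle.2 hsum
  · have hcr' : |x * 2 ^ 30 - ∑ e ∈ Kx, (c e : ℝ) * mono u e| ≤ (ar : ℝ) := hcr
    have hdr' : |y * 2 ^ 30 - ∑ e ∈ Kx, (d e : ℝ) * mono u e| ≤ (br : ℝ) := hdr
    show |(x + y) * 2 ^ 30 - ∑ e ∈ Kx, (((c e + d e : ℤ)) : ℝ) * mono u e| ≤ ((ar + br : ℕ) : ℝ)
    rw [sum_split, Nat.cast_add]
    have e1 : (x + y) * 2 ^ 30 - (∑ e ∈ Kx, (c e : ℝ) * mono u e + ∑ e ∈ Kx, (d e : ℝ) * mono u e) =
      (x * 2 ^ 30 - ∑ e ∈ Kx, (c e : ℝ) * mono u e) + (y * 2 ^ 30 - ∑ e ∈ Kx, (d e : ℝ) * mono u e) := by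
      ring
    rw [e1]
    exact (abs_add_le _ _).trans (add_le_add hcr' hdr')

theorem sub_ (h2 : Stmt_CONST) (u : ℝ × ℝ × ℝ) (a b : TM) (x y : ℝ) (ha : RepT u a x)
    (hb : RepT u b y) : RepT u (TM.sub a b) (x - y) := by
  obtain ⟨aN, an, ar, ao⟩ := a
  obtain ⟨bN, bn, br, bo⟩ := b
  intro hok
  have hok' : Bool.and (Bool.and ao bo) (Nat.ble (Nat.add an bn) 0x8000000000) = true := hok
  obtain ⟨h1, hn⟩ := band hok'
  obtain ⟨hao, hbo⟩ := band h1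
  have hn' : an + bn ≤ 0x8000000000 := ble hn
  obtain ⟨c, hc, hcn, hcr⟩ := ha hao
  obtain ⟨d, hd, hdn, hdr⟩ := hb hbo
  have ec : (aN : ℤ) = ∑ e ∈ Kx, (c e + 2 ^ 40) * W e := hc.1
  have ed : (bN : ℤ) = ∑ e ∈ Kx, (d e + 2 ^ 40) * W e := hd.1
  have hcn' : (∑ e ∈ Kx, |c e|) ≤ (an : ℤ) := castle.1 hcn
  have hdn' : (∑ e ∈ Kx, |d e|) ≤ (bn : ℤ) := castle.1 hdn
  have hsum : (∑ e ∈ Kx, |c e - d e|) ≤ ((an + bn : ℕ) : ℤ) := by
    have : (∑ e ∈ Kx, |c e - d e|) ≤ (∑ e ∈ Kx, |c e|) + ∑ e ∈ Kx, |d e| := by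
      rw [← Finset.sum_add_distrib]
      exact Finset.sum_le_sum fun e _ => abs_sub _ _
    push_cast
    linarith
  refine ⟨fun e => c e - d e, ?_, ?_, ?_⟩
  · apply enc_of
    · have e1 : ((Nat.add aN BE : ℕ) : ℤ) = (aN : ℤ) + BE := Nat.cast_add _ _
      rw [e1, ec, ed, BE_eq h2, ← Finset.sum_add_distrib, ← Finset.sum_sub_distrib]
      refine Finset.sum_congr rfl fun e _ => ?_
      ring
    · intro e he
      have h3 := each_le hsum e he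
      have h4 : ((an + bn : ℕ) : ℤ) ≤ 0x8000000000 := by exact_mod_cast hn'
      exact lt_of_le_of_lt (h3.trans h4) (by norm_num)
  · exact castle.2 hsum
  · have hcr' : |x * 2 ^ 30 - ∑ e ∈ Kx, (c e : ℝ) * mono u e| ≤ (ar : ℝ) := hcr
    have hdr' : |y * 2 ^ 30 - ∑ e ∈ Kx, (d e : ℝ) * mono u e| ≤ (br : ℝ) := hdr
    show |(x - y) * 2 ^ 30 - ∑ e ∈ Kx, (((c e - d e : ℤ)) : ℝ) * mono u e| ≤ ((ar + br : ℕ) : ℝ)
    rw [sum_split', Nat.cast_add]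
    have e1 : (x - y) * 2 ^ 30 - (∑ e ∈ Kx, (c e : ℝ) * mono u e - ∑ e ∈ Kx, (d e : ℝ) * mono u e) =
      (x * 2 ^ 30 - ∑ e ∈ Kx, (c e : ℝ) * mono u e) - (y * 2 ^ 30 - ∑ e ∈ Kx, (d e : ℝ) * mono u e) := by
      ring
    rw [e1]
    exact (abs_sub _ _).trans (add_le_add hcr' hdr')

theorem ren_ (h1 : Stmt_KIT) (h4 : Stmt_ABS) (u : ℝ × ℝ × ℝ) (a : TM) (x : ℝ) (ha : RepT u a x) :
    RepT u (TM.ren a) x := by
  obtain ⟨aN, an, ar, ao⟩ := a
  intro hok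
  obtain ⟨c, hc, _, hcr⟩ := ha hok
  refine ⟨c, hc, ?_, hcr⟩
  obtain ⟨D, hD, _, hN, hcD⟩ := (h1.2.2.2.2.2.2 aN c).1 hc
  apply castle.2
  have e1 : (TM.ren ⟨aN, an, ar, ao⟩).n = absK aN := by
    unfold TM.ren
    dsimp only
  have h5 := h4.1 D hD
  have e2 : ∑ e ∈ Kx, |c e| = ∑ e ∈ Kx, |(D e : ℤ) - 2 ^ 40| :=
    Finset.sum_congr rfl fun e he => by rw [hcD e he]
  rw [e1, e2, hN]
  exact h5

theorem fl {z Q c r M : ℤ} (hQ : 0 < Q) (h : z = Q * c + r) (hr0 : 0 ≤ r) (hr : r < Q)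
    (hz : |z| ≤ M * Q) : |c| ≤ M + 1 := by
  obtain ⟨hz1, hz2⟩ := abs_le.1 hz
  rw [abs_le]
  constructor
  · by_contra hcon
    push Not at hcon
    have h1 : c ≤ -(M + 1) - 1 := by omega
    have h2 : Q * c ≤ Q * (-(M + 1) - 1) := mul_le_mul_of_nonneg_left h1 hQ.le
    nlinarith
  · by_contra hcon
    push Not at hcon
    have h1 : M + 1 ≤ c := hcon.le
    have h2 : Q * (M + 1) ≤ Q * c := mul_le_mul_of_nonneg_left h1 hQ.le
    nlinarith

theorem abs_bd {Q z F r : ℤ} (hQ : 0 < Q) (hr0 : 0 ≤ r) (hr : r < Q) (hz : z = Q * F + r) :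
    Q * |F| ≤ |z| + Q := by
  have h : |Q * F| = |z - r| := by rw [hz]; congr 1; ring
  rw [abs_mul, abs_of_pos hQ] at h
  rw [h]
  refine (abs_sub _ _).trans ?_
  rw [abs_of_nonneg hr0]
  linarith

theorem smul_ (h1 : Stmt_KIT) (h2 : Stmt_CONST) (h3 : Stmt_BITS) (u : ℝ × ℝ × ℝ) (hu : Cube u)
    (p q : ℕ) (a : TM) (x : ℝ) (ha : RepT u a x) : RepT u (TM.smul p q a) ((p : ℝ) / 2 ^ q * x) := by
  obtain ⟨aN, an, ar, ao⟩ := a
  intro hok
  have hok' : Bool.and ao (Bool.and (Nat.ble q 30)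
    (Nat.ble (Nat.mul an p) (Nat.mul 0x8000000000 (Nat.pow 2 q)))) = true := hok
  obtain ⟨hao, hok2⟩ := band hok'
  obtain ⟨hq', hn'⟩ := band hok2
  have hq : q ≤ 30 := ble hq'
  have hn : an * p ≤ 0x8000000000 * 2 ^ q := ble hn'
  obtain ⟨c, hc, hcn, hcr⟩ := ha hao
  clear hok' hok2 hq' hn'
  have ec : (aN : ℤ) = ∑ e ∈ Kx, (c e + 2 ^ 40) * W e := hc.1
  have hcn' : (∑ e ∈ Kx, |c e|) ≤ (an : ℤ) := castle.1 hcn
  have hcr' : |x * 2 ^ 30 - ∑ e ∈ Kx, (c e : ℝ) * mono u e| ≤ (ar : ℝ) := hcr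
  have hQ : (0 : ℤ) < 2 ^ q := pow_pos two_pos q
  have hnz : ((an : ℤ)) * p ≤ 2 ^ 39 * 2 ^ q := by
    have : ((an * p : ℕ) : ℤ) ≤ ((0x8000000000 * 2 ^ q : ℕ) : ℤ) := by exact_mod_cast hn
    push_cast at this
    norm_num at this ⊢
    exact this
  have hb : ∀ e ∈ Kx, |(p : ℤ) * c e| ≤ 2 ^ 39 * 2 ^ q := by
    intro e he
    rw [abs_mul, Nat.abs_cast]
    have h5 := each_le hcn' e he
    have h6 : (p : ℤ) * |c e| ≤ p * an := mul_le_mul_of_nonneg_left h5 (Int.natCast_nonneg p)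
    linarith [mul_comm (p : ℤ) an]
  obtain ⟨D, hDdef⟩ : ∃ D : ℕ × ℕ × ℕ → ℕ, D = fun e => if e ∈ Kx then ((p : ℤ) * c e + 2 ^ 40 * 2 ^ q).toNat else 0 :=
    ⟨_, rfl⟩
  have hD : ∀ e ∈ Kx, (D e : ℤ) = (p : ℤ) * c e + 2 ^ 40 * 2 ^ q := by
    intro e he
    rw [hDdef]
    simp only [he, if_true]
    apply Int.toNat_of_nonneg
    have := (abs_le.1 (hb e he)).1
    nlinarith
  have hD0 : ∀ e, e ∉ Kx → D e = 0 := by
    intro e he
    rw [hDdef]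
    simp only [he, if_false]
  have hDlt : ∀ e, D e < 2 ^ (41 + q) := by
    intro e
    by_cases he : e ∈ Kx
    · have h5 := hD e he
      have h6 := (abs_le.1 (hb e he)).2
      have h7 : (D e : ℤ) < 2 ^ (41 + q) := by
        rw [h5, pow_add]
        nlinarith
      exact_mod_cast h7
    · rw [hD0 e he]; exact pow_pos two_pos _
  have hpk : pk (Kx ∪ Hx) D = pk Kx D := by
    unfold pk
    rw [Finset.sum_union h1.2.1]
    have : ∑ e ∈ Hx, D e * (2 ^ 80) ^ slot e = 0 := by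
      refine Finset.sum_eq_zero fun e he => ?_
      rw [hD0 e (fun hk => Finset.disjoint_left.1 h1.2.1 hk he), zero_mul]
    rw [this, add_zero]
  have hpkz : ((pk Kx D : ℕ) : ℤ) = ∑ e ∈ Kx, ((p : ℤ) * c e + 2 ^ 40 * 2 ^ q) * W e := by
    unfold pk
    rw [Nat.cast_sum]
    refine Finset.sum_congr rfl fun e he => ?_
    rw [Nat.cast_mul, hD e he]
    unfold W
    push_cast
    rfl
  have key : Nat.sub (Nat.add (Nat.mul aN p) (Nat.mul BE (Nat.pow 2 q))) (Nat.mul BE p) =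
      pk (Kx ∪ Hx) D := by
    rw [hpk]
    have hz : ((aN * p + BE * 2 ^ q : ℕ) : ℤ) - ((BE * p : ℕ) : ℤ) = ((pk Kx D : ℕ) : ℤ) := by
      rw [hpkz, Nat.cast_add, Nat.cast_mul, Nat.cast_mul, Nat.cast_mul, Nat.cast_pow, ec, BE_eq h2,
        Finset.sum_mul, Finset.sum_mul, Finset.sum_mul, ← Finset.sum_add_distrib, ← Finset.sum_sub_distrib]
      refine Finset.sum_congr rfl fun e _ => ?_
      push_cast
      ring
    show aN * p + BE * 2 ^ q - BE * p = pk Kx D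
    omega
  have hbits := h3.1 q hq D hDlt
  -- floor data
  have hfl : ∀ e ∈ Kx, ∃ r : ℤ, 0 ≤ r ∧ r < 2 ^ q ∧
      (p : ℤ) * c e = 2 ^ q * (((D e / 2 ^ q : ℕ) : ℤ) - 2 ^ 40) + r := by
    intro e he
    refine ⟨((D e % 2 ^ q : ℕ) : ℤ), Int.natCast_nonneg _, ?_, ?_⟩
    · have : D e % 2 ^ q < 2 ^ q := Nat.mod_lt _ (pow_pos two_pos q)
      exact_mod_cast this
    · have h5 := Nat.div_add_mod (D e) (2 ^ q)
      have h6 : ((2 ^ q * (D e / 2 ^ q) + D e % 2 ^ q : ℕ) : ℤ) = (D e : ℤ) := by exact_mod_cast h5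
      rw [hD e he, Nat.cast_add, Nat.cast_mul, Nat.cast_pow] at h6
      have h7 : ((2 : ℕ) : ℤ) = 2 := rfl
      rw [h7] at h6
      linarith
  have hcard : Kx.card = 20 := h1.2.2.1
  have hmono : ∀ e, |mono u e| ≤ 1 := h1.2.2.2.2.2.1 u hu
  have hsum : (∑ e ∈ Kx, |((D e / 2 ^ q : ℕ) : ℤ) - 2 ^ 40|) ≤ ((an * p / 2 ^ q + 21 : ℕ) : ℤ) := by
    have h5 : 2 ^ q * (∑ e ∈ Kx, |((D e / 2 ^ q : ℕ) : ℤ) - 2 ^ 40|) ≤ (p : ℤ) * an + 20 * 2 ^ q := by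
      have h6 : ∀ e ∈ Kx, 2 ^ q * |((D e / 2 ^ q : ℕ) : ℤ) - 2 ^ 40| ≤ (p : ℤ) * |c e| + 2 ^ q := by
        intro e he
        obtain ⟨r, hr0, hr, hz⟩ := hfl e he
        have h7 := abs_bd hQ hr0 hr hz
        rw [abs_mul, Nat.abs_cast] at h7
        exact h7
      rw [Finset.mul_sum]
      refine (Finset.sum_le_sum h6).trans ?_
      rw [Finset.sum_add_distrib, ← Finset.mul_sum, Finset.sum_const, hcard, nsmul_eq_mul]
      have := mul_le_mul_of_nonneg_left hcn' (Int.natCast_nonneg p)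
      push_cast
      linarith
    have h8 : (an : ℤ) * p < 2 ^ q * (((an * p / 2 ^ q : ℕ) : ℤ) + 1) := by
      have h9 := Nat.div_add_mod (an * p) (2 ^ q)
      have h10 : an * p % 2 ^ q < 2 ^ q := Nat.mod_lt _ (pow_pos two_pos q)
      have h11 : an * p < 2 ^ q * (an * p / 2 ^ q + 1) := by rw [mul_add, mul_one]; omega
      exact_mod_cast h11
    have h12 : 2 ^ q * (∑ e ∈ Kx, |((D e / 2 ^ q : ℕ) : ℤ) - 2 ^ 40|) <
        2 ^ q * (((an * p / 2 ^ q : ℕ) : ℤ) + 21) := by linarith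
    have h13 := lt_of_mul_lt_mul_left h12 hQ.le
    push_cast at h13 ⊢
    linarith
  refine ⟨fun e => ((D e / 2 ^ q : ℕ) : ℤ) - 2 ^ 40, ?_, ?_, ?_⟩
  · constructor
    · have e1 : (TM.smul p q ⟨aN, an, ar, ao⟩).N = pk Kx (fun e => D e / 2 ^ q) := by
        rw [← hbits, ← key]
        rfl
      rw [e1]
      unfold pk
      rw [Nat.cast_sum]
      refine Finset.sum_congr rfl fun e _ => ?_
      rw [Nat.cast_mul, Nat.cast_pow, Nat.cast_pow]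
      have h7 : ((2 : ℕ) : ℤ) = 2 := rfl
      rw [h7]
      ring
    · intro e he
      obtain ⟨r, hr0, hr, hz⟩ := hfl e he
      exact lt_of_le_of_lt (fl hQ hz hr0 hr (hb e he)) (by norm_num)
  · apply castle.2
    have e1 : (TM.smul p q ⟨aN, an, ar, ao⟩).n = an * p / 2 ^ q + 21 := by
      show Nat.shiftRight (Nat.mul an p) q + 21 = _
      rw [show Nat.shiftRight (Nat.mul an p) q = an * p / 2 ^ q from Nat.shiftRight_eq_div_pow _ _]
    rw [e1]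
    exact hsum
  · have e1 : (TM.smul p q ⟨aN, an, ar, ao⟩).r = ar * p / 2 ^ q + 21 := by
      show Nat.shiftRight (Nat.mul ar p) q + 21 = _
      rw [show Nat.shiftRight (Nat.mul ar p) q = ar * p / 2 ^ q from Nat.shiftRight_eq_div_pow _ _]
    rw [e1]
    have hQr : (0 : ℝ) < 2 ^ q := pow_pos two_pos q
    have h8 : (ar : ℝ) * p / 2 ^ q ≤ ((ar * p / 2 ^ q : ℕ) : ℝ) + 1 := by
      have h9 := Nat.div_add_mod (ar * p) (2 ^ q)
      have h10 : ar * p % 2 ^ q < 2 ^ q := Nat.mod_lt _ (pow_pos two_pos q)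
      have h11 : ar * p ≤ 2 ^ q * (ar * p / 2 ^ q + 1) := by rw [mul_add, mul_one]; omega
      have h12 : ((ar * p : ℕ) : ℝ) ≤ ((2 ^ q * (ar * p / 2 ^ q + 1) : ℕ) : ℝ) := by exact_mod_cast h11
      rw [div_le_iff₀ hQr]
      rw [Nat.cast_mul, Nat.cast_mul, Nat.cast_add, Nat.cast_one, Nat.cast_pow] at h12
      have h7 : ((2 : ℕ) : ℝ) = 2 := by norm_num
      rw [h7] at h12
      linarith
    have hterm : ∀ e ∈ Kx, |((p : ℝ) / 2 ^ q * (c e : ℝ) - ((((D e / 2 ^ q : ℕ) : ℤ) - 2 ^ 40 : ℤ) : ℝ)) * mono u e| ≤ 1 := by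
      intro e he
      obtain ⟨r, hr0, hr, hz⟩ := hfl e he
      rw [abs_mul]
      have h13 : (p : ℝ) * (c e : ℝ) = 2 ^ q * ((((D e / 2 ^ q : ℕ) : ℤ) - 2 ^ 40 : ℤ) : ℝ) + (r : ℝ) := by
        have := congrArg (fun z : ℤ => (z : ℝ)) hz
        simp only [Int.cast_mul, Int.cast_natCast, Int.cast_add, Int.cast_pow, Int.cast_ofNat] at this
        exact this
      have h14 : (p : ℝ) / 2 ^ q * (c e : ℝ) - ((((D e / 2 ^ q : ℕ) : ℤ) - 2 ^ 40 : ℤ) : ℝ) = (r : ℝ) / 2 ^ q := by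
        have : (p : ℝ) / 2 ^ q * (c e : ℝ) = ((p : ℝ) * (c e : ℝ)) / 2 ^ q := by ring
        rw [this, h13, add_div, mul_div_cancel_left₀ _ hQr.ne']
        ring
      rw [h14]
      have h15 : |(r : ℝ) / 2 ^ q| ≤ 1 := by
        have hr0' : (0 : ℝ) ≤ r := by exact_mod_cast hr0
        have hr' : (r : ℝ) ≤ 2 ^ q := by
          have : (r : ℝ) < ((2 ^ q : ℤ) : ℝ) := by exact_mod_cast hr
          push_cast at this
          exact this.le
        rw [abs_of_nonneg (div_nonneg hr0' hQr.le), div_le_one hQr]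
        exact hr'
      calc |(r : ℝ) / 2 ^ q| * |mono u e| ≤ 1 * 1 :=
            mul_le_mul h15 (hmono e) (abs_nonneg _) zero_le_one
        _ = 1 := one_mul 1
    have e2 : (p : ℝ) / 2 ^ q * x * 2 ^ 30 - ∑ e ∈ Kx, ((((D e / 2 ^ q : ℕ) : ℤ) - 2 ^ 40 : ℤ) : ℝ) * mono u e =
        (p : ℝ) / 2 ^ q * (x * 2 ^ 30 - ∑ e ∈ Kx, (c e : ℝ) * mono u e) +
          ∑ e ∈ Kx, ((p : ℝ) / 2 ^ q * (c e : ℝ) - ((((D e / 2 ^ q : ℕ) : ℤ) - 2 ^ 40 : ℤ) : ℝ)) * mono u e := by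
      have e3 : ∑ e ∈ Kx, ((p : ℝ) / 2 ^ q * (c e : ℝ) - ((((D e / 2 ^ q : ℕ) : ℤ) - 2 ^ 40 : ℤ) : ℝ)) * mono u e =
          (p : ℝ) / 2 ^ q * (∑ e ∈ Kx, (c e : ℝ) * mono u e) -
            ∑ e ∈ Kx, ((((D e / 2 ^ q : ℕ) : ℤ) - 2 ^ 40 : ℤ) : ℝ) * mono u e := by
        rw [Finset.mul_sum, ← Finset.sum_sub_distrib]
        refine Finset.sum_congr rfl fun e _ => ?_
        ring
      rw [e3]
      ring
    show |(p : ℝ) / 2 ^ q * x * 2 ^ 30 - ∑ e ∈ Kx, ((((D e / 2 ^ q : ℕ) : ℤ) - 2 ^ 40 : ℤ) : ℝ) * mono u e| ≤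
      ((ar * p / 2 ^ q + 21 : ℕ) : ℝ)
    rw [e2]
    refine (abs_add_le _ _).trans ?_
    have h16 : |(p : ℝ) / 2 ^ q * (x * 2 ^ 30 - ∑ e ∈ Kx, (c e : ℝ) * mono u e)| ≤ (ar : ℝ) * p / 2 ^ q := by
      have hpq : (0 : ℝ) ≤ (p : ℝ) / 2 ^ q := div_nonneg (Nat.cast_nonneg p) hQr.le
      rw [abs_mul, abs_of_nonneg hpq]
      have := mul_le_mul_of_nonneg_left hcr' hpq
      calc (p : ℝ) / 2 ^ q * |x * 2 ^ 30 - ∑ e ∈ Kx, (c e : ℝ) * mono u e| ≤ (p : ℝ) / 2 ^ q * ar := this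
        _ = (ar : ℝ) * p / 2 ^ q := by ring
    have h17 : |∑ e ∈ Kx, ((p : ℝ) / 2 ^ q * (c e : ℝ) - ((((D e / 2 ^ q : ℕ) : ℤ) - 2 ^ 40 : ℤ) : ℝ)) * mono u e| ≤ 20 := by
      refine (Finset.abs_sum_le_sum_abs _ _).trans ((Finset.sum_le_sum hterm).trans ?_)
      rw [Finset.sum_const, hcard, nsmul_eq_mul]
      norm_num
    rw [Nat.cast_add]
    have h18 : ((21 : ℕ) : ℝ) = 21 := by norm_num
    rw [h18]
    linarith

/-! ### Constants and variables -/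

theorem mem0 : ((0, 0, 0) : ℕ × ℕ × ℕ) ∈ Kx := by decide

theorem sum_pt (e0 : ℕ × ℕ × ℕ) (he : e0 ∈ Kx) (k : ℤ) (f : ℕ × ℕ × ℕ → ℤ) :
    ∑ e ∈ Kx, (if e = e0 then k else 0) * f e = k * f e0 := by
  rw [Finset.sum_eq_single e0]
  · rw [if_pos rfl]
  · intro b _ hb
    rw [if_neg hb, zero_mul]
  · intro h
    exact absurd he h

theorem sum_ptR (e0 : ℕ × ℕ × ℕ) (he : e0 ∈ Kx) (k : ℤ) (f : ℕ × ℕ × ℕ → ℝ) :
    ∑ e ∈ Kx, ((if e = e0 then k else 0 : ℤ) : ℝ) * f e = k * f e0 := by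
  rw [Finset.sum_eq_single e0]
  · rw [if_pos rfl]
  · intro b _ hb
    rw [if_neg hb, Int.cast_zero, zero_mul]
  · intro h
    exact absurd he h

theorem sum_ptA (e0 : ℕ × ℕ × ℕ) (he : e0 ∈ Kx) (k : ℤ) :
    ∑ e ∈ Kx, |(if e = e0 then k else 0 : ℤ)| = |k| := by
  rw [Finset.sum_eq_single e0]
  · rw [if_pos rfl]
  · intro b _ hb
    rw [if_neg hb, abs_zero]
  · intro h
    exact absurd he h

theorem W0 : W (0, 0, 0) = 1 := by
  unfold W slot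
  norm_num

theorem m0 (u : ℝ × ℝ × ℝ) : mono u (0, 0, 0) = 1 := by
  unfold mono
  norm_num

/-- a constant `k` at scale `2 ^ 30` -/
theorem repC (h2 : Stmt_CONST) (u : ℝ × ℝ × ℝ) {P Q n r : ℕ} {o : Bool} {k : ℤ} {x : ℝ}
    (hPQ : (P : ℤ) - Q = BE + k) (hk : |k| ≤ 2 ^ 39) (hn : |k| ≤ (n : ℤ)) (hx : |x * 2 ^ 30 - (k : ℝ)| ≤ (r : ℝ)) :
    RepT u ⟨Nat.sub P Q, n, r, o⟩ x := by
  intro _
  refine ⟨fun e => if e = (0, 0, 0) then k else 0, ?_, ?_, ?_⟩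
  · apply enc_of
    · rw [hPQ, BE_eq h2]
      have e1 : ∑ e ∈ Kx, ((if e = (0, 0, 0) then k else 0) + 2 ^ 40) * W e =
          ∑ e ∈ Kx, (if e = (0, 0, 0) then k else 0) * W e + ∑ e ∈ Kx, 2 ^ 40 * W e := by
        rw [← Finset.sum_add_distrib]
        exact Finset.sum_congr rfl fun e _ => add_mul _ _ _
      rw [e1, sum_pt _ mem0, W0]
      ring
    · intro e _
      by_cases h : e = (0, 0, 0)
      · simp only [h, if_true]
        exact lt_of_le_of_lt hk (by norm_num)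
      · simp only [h, if_false]
        norm_num
  · apply castle.2
    rw [sum_ptA _ mem0]
    exact hn
  · rw [sum_ptR _ mem0, m0, mul_one]
    exact hx

theorem cst_ (h2 : Stmt_CONST) (u : ℝ × ℝ × ℝ) (s : Bool) (p q : ℕ) : RepT u (TM.cst s p q) (dy s p q) := by
  intro hok
  have hok' : Bool.and (Nat.ble q 30) (Nat.ble (Nat.mul p (Nat.pow 2 (Nat.sub 30 q))) 0x8000000000) = true := hok
  obtain ⟨hq', hc'⟩ := band hok'
  have hq : q ≤ 30 := ble hq'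
  have hc : p * 2 ^ (30 - q) ≤ 0x8000000000 := ble hc'
  have hcz : ((p * 2 ^ (30 - q) : ℕ) : ℤ) ≤ 2 ^ 39 := by
    have : ((p * 2 ^ (30 - q) : ℕ) : ℤ) ≤ ((0x8000000000 : ℕ) : ℤ) := by exact_mod_cast hc
    exact this.trans (by norm_num)
  have hpow : (2 : ℝ) ^ 30 = 2 ^ q * 2 ^ (30 - q) := by
    rw [← pow_add]; congr 1; omega
  have hQr : (0 : ℝ) < 2 ^ q := by positivity
  have hval : (p : ℝ) / 2 ^ q * 2 ^ 30 = ((p * 2 ^ (30 - q) : ℕ) : ℝ) := by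
    rw [hpow, Nat.cast_mul, Nat.cast_pow]
    have h7 : ((2 : ℕ) : ℝ) = 2 := by norm_num
    rw [h7]
    field_simp
  have hnn : (0 : ℤ) ≤ ((p * 2 ^ (30 - q) : ℕ) : ℤ) := Int.natCast_nonneg _
  cases s
  · have h := repC h2 u (P := BE + p * 2 ^ (30 - q)) (Q := 0) (n := p * 2 ^ (30 - q)) (r := 0) (o := true)
      (k := ((p * 2 ^ (30 - q) : ℕ) : ℤ)) (x := dy false p q)
      (by rw [Nat.cast_add]; push_cast; ring) (by rw [abs_of_nonneg hnn]; exact hcz)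
      (by rw [abs_of_nonneg hnn])
      (by
        have e1 : dy false p q * 2 ^ 30 = ((p * 2 ^ (30 - q) : ℕ) : ℝ) := by
          rw [← hval]; unfold dy; rw [if_neg (by decide)]; ring
        rw [e1, Int.cast_natCast, sub_self, abs_zero, Nat.cast_zero])
    exact h rfl
  · have h := repC h2 u (P := BE) (Q := p * 2 ^ (30 - q)) (n := p * 2 ^ (30 - q)) (r := 0) (o := true)
      (k := -((p * 2 ^ (30 - q) : ℕ) : ℤ)) (x := dy true p q)
      (by ring) (by rw [abs_neg, abs_of_nonneg hnn]; exact hcz)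
      (by rw [abs_neg, abs_of_nonneg hnn])
      (by
        have e1 : dy true p q * 2 ^ 30 = -((p * 2 ^ (30 - q) : ℕ) : ℝ) := by
          rw [← hval]; unfold dy; rw [if_pos rfl]; ring
        rw [e1, Int.cast_neg, Int.cast_natCast, sub_self, abs_zero, Nat.cast_zero])
    exact h rfl

theorem rad_ (u : ℝ × ℝ × ℝ) (a : TM) (x y : ℝ) (e : ℕ) (o : Bool) (ha : RepT u a x)
    (h : o = true → |y - x| * 2 ^ 30 ≤ (e : ℝ)) : RepT u (TM.rad a e o) y := by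
  obtain ⟨aN, an, ar, ao⟩ := a
  intro hok
  have hok' : Bool.and ao o = true := hok
  obtain ⟨hao, ho⟩ := band hok'
  obtain ⟨c, hc, hcn, hcr⟩ := ha hao
  refine ⟨c, hc, hcn, ?_⟩
  have hcr' : |x * 2 ^ 30 - ∑ e ∈ Kx, (c e : ℝ) * mono u e| ≤ (ar : ℝ) := hcr
  have h1 := h ho
  show |y * 2 ^ 30 - ∑ e ∈ Kx, (c e : ℝ) * mono u e| ≤ ((ar + e : ℕ) : ℝ)
  have e1 : y * 2 ^ 30 - ∑ e ∈ Kx, (c e : ℝ) * mono u e =
      (x * 2 ^ 30 - ∑ e ∈ Kx, (c e : ℝ) * mono u e) + (y - x) * 2 ^ 30 := by ring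
  rw [e1, Nat.cast_add]
  refine (abs_add_le _ _).trans (add_le_add hcr' ?_)
  rw [abs_mul, abs_of_pos (by positivity : (0 : ℝ) < 2 ^ 30)]
  exact h1

theorem ip_ (h2 : Stmt_CONST) (u : ℝ × ℝ × ℝ) : RepT u tmA.ip (1 / π) := by
  have h := repC h2 u (P := BE + 341782638) (Q := 0) (n := 341782638) (r := 1) (o := true)
      (k := 341782638) (x := 1 / π)
      (by push_cast; ring) (by norm_num) (by norm_num)
      (by
        have hp1 := Real.pi_gt_d20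
        have hp2 := Real.pi_lt_d20
        have hp0 : 0 < π := Real.pi_pos
        have e1 : 1 / π * 2 ^ 30 - ((341782638 : ℤ) : ℝ) = (2 ^ 30 - 341782638 * π) / π := by
          push_cast
          field_simp
        rw [e1, abs_div, abs_of_pos hp0, div_le_iff₀ hp0, abs_le]
        constructor
        · push_cast
          nlinarith
        · push_cast
          nlinarith)
  exact h

theorem one_ (h2 : Stmt_CONST) (u : ℝ × ℝ × ℝ) : RepT u TM.one 1 := by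
  have h := cst_ h2 u false 1 0
  have e1 : dy false 1 0 = 1 := by unfold dy; norm_num
  rw [e1] at h
  have e2 : TM.cst false 1 0 = TM.one := by
    have e3 : Nat.add BE 1073741824 = TM.one.N := by decide +kernel
    show TM.mk (Nat.add BE 1073741824) 1073741824 0 true = TM.one
    rw [e3]
    rfl
  rw [e2] at h
  exact h

theorem zero_ (h2 : Stmt_CONST) (u : ℝ × ℝ × ℝ) : RepT u TM.zero 0 := by
  have h := repC h2 u (P := BE) (Q := 0) (n := 0) (r := 0) (o := true)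
      (k := 0) (x := 0) (by push_cast; ring) (by norm_num) (by norm_num) (by norm_num)
  exact h

/-- a variable -/
theorem var_ (h2 : Stmt_CONST) (u : ℝ × ℝ × ℝ) (e1 : ℕ × ℕ × ℕ) (he1 : e1 ∈ Kx) (c h : ℕ) (hc : c < 2 ^ 39)
    (hh : h < 2 ^ 39) :
    RepT u (TM.var (slot e1) c h) (((c : ℝ) + (h : ℝ) * mono u e1) / 2 ^ 30) := by
  intro _
  have hsum : (∑ e ∈ Kx, |(if e = (0, 0, 0) then (c : ℤ) else 0) + (if e = e1 then (h : ℤ) else 0)|) ≤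
      ((c + h : ℕ) : ℤ) := by
    refine (Finset.sum_le_sum fun e _ => abs_add_le _ _).trans ?_
    rw [Finset.sum_add_distrib, sum_ptA _ mem0, sum_ptA _ he1, Nat.abs_cast, Nat.abs_cast, Nat.cast_add]
  refine ⟨fun e => (if e = (0, 0, 0) then (c : ℤ) else 0) + (if e = e1 then (h : ℤ) else 0), ?_, ?_, ?_⟩
  · have hEnc := enc_of (P := BE + c + h * (2 ^ 80) ^ slot e1) (Q := 0)
      (c := fun e => (if e = (0, 0, 0) then (c : ℤ) else 0) + (if e = e1 then (h : ℤ) else 0))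
      (by
        have e2 : ∑ e ∈ Kx, ((if e = (0, 0, 0) then (c : ℤ) else 0) + (if e = e1 then (h : ℤ) else 0) + 2 ^ 40) * W e =
            ∑ e ∈ Kx, (if e = (0, 0, 0) then (c : ℤ) else 0) * W e +
              ∑ e ∈ Kx, (if e = e1 then (h : ℤ) else 0) * W e + ∑ e ∈ Kx, 2 ^ 40 * W e := by
          rw [← Finset.sum_add_distrib, ← Finset.sum_add_distrib]
          exact Finset.sum_congr rfl fun e _ => by ring
        rw [e2, sum_pt _ mem0, sum_pt _ he1, W0, ← BE_eq h2, Nat.cast_add, Nat.cast_add, Nat.cast_mul,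
          Nat.cast_pow, Nat.cast_pow, Nat.cast_zero]
        unfold W
        have h7 : ((2 : ℕ) : ℤ) = 2 := rfl
        rw [h7]
        ring)
      (by
        intro e he
        have h3 := each_le (c := fun e => (if e = (0, 0, 0) then (c : ℤ) else 0) + (if e = e1 then (h : ℤ) else 0)) hsum e he
        have h4 : ((c + h : ℕ) : ℤ) < 2 ^ 40 := by
          have : c + h < 2 ^ 40 := by
            have h5 : (2 : ℕ) ^ 40 = 2 ^ 39 + 2 ^ 39 := by norm_num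
            omega
          exact_mod_cast this
        exact lt_of_le_of_lt h3 h4)
    exact hEnc
  · exact castle.2 hsum
  · rw [sum_split, sum_ptR _ mem0, sum_ptR _ he1, m0]
    have e3 : ((c : ℝ) + (h : ℝ) * mono u e1) / 2 ^ 30 * 2 ^ 30 = (c : ℝ) + (h : ℝ) * mono u e1 := by
      field_simp
    rw [e3, Int.cast_natCast, Int.cast_natCast, mul_one, sub_self, abs_zero]
    exact Nat.cast_nonneg _

end LIN_

open LIN_ in
theorem lin_proof (h1 : Stmt_KIT) (h2 : Stmt_CONST) (h3 : Stmt_BITS) (h4 : Stmt_ABS) : Stmt_LIN := by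
  intro u hu
  refine ⟨fun a b x y => add_ h2 u a b x y, fun a b x y => sub_ h2 u a b x y,
    fun a x => ren_ h1 h4 u a x, fun p q a x => smul_ h1 h2 h3 u hu p q a x, fun s p q => cst_ h2 u s p q,
    fun a x y e o => rad_ u a x y e o, one_ h2 u, zero_ h2 u, ip_ h2 u, ?_⟩
  intro c h hc hh
  refine ⟨?_, ?_, ?_⟩
  · have := var_ h2 u (1, 0, 0) (by decide) c h hc hh
    have e1 : mono u (1, 0, 0) = u.1 := by unfold mono; norm_num
    rw [e1] at this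
    exact this
  · have := var_ h2 u (0, 1, 0) (by decide) c h hc hh
    have e1 : mono u (0, 1, 0) = u.2.1 := by unfold mono; norm_num
    rw [e1] at this
    exact this
  · have := var_ h2 u (0, 0, 1) (by decide) c h hc hh
    have e1 : mono u (0, 0, 1) = u.2.2 := by unfold mono; norm_num
    rw [e1] at this
    exact this

end Pool.Agent.FTA
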