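import Pool.Agent.FTA.Stmts

/-! Module MEAS: the bound for all finite systems gives the continuous version. -/

open Real MeasureTheory

namespace Pool.Agent.FTA

namespace MEAS_

theorem pair_int (μ : Measure V3) [IsProbabilityMeasure μ] (f : V3 × V3 → ℝ) (hf : Continuous f)
    (hb : ∀ p, |f p| ≤ π) (n : ℕ) (i j : Fin n) (hij : i ≠ j) :
    ∫ x, f (x i, x j) ∂(Measure.pi (fun _ : Fin n => μ)) = ∫ x, ∫ y, f (x, y) ∂μ ∂μ := by
  have hind : ProbabilityTheory.iIndepFun (fun (i : Fin n) (ω : Fin n → V3) => (id (ω i) : V3))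
      (Measure.pi (fun _ : Fin n => μ)) :=
    ProbabilityTheory.iIndepFun_pi (μ := fun _ : Fin n => μ) (X := fun _ : Fin n => (id : V3 → V3))
      (fun _ => aemeasurable_id)
  have hp := hind.indepFun hij
  have hmi : ∀ k : Fin n, MeasurePreserving (fun ω : Fin n → V3 => id (ω k))
      (Measure.pi (fun _ : Fin n => μ)) μ := fun k => measurePreserving_eval (fun _ : Fin n => μ) k
  have hmap := (ProbabilityTheory.indepFun_iff_map_prod_eq_prod_map_map
    (hmi i).measurable.aemeasurable (hmi j).measurable.aemeasurable).1 hp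
  rw [(hmi i).map_eq, (hmi j).map_eq] at hmap
  have h1 : ∫ x, f (x i, x j) ∂(Measure.pi (fun _ : Fin n => μ)) = ∫ p, f p ∂(μ.prod μ) := by
    rw [← hmap, integral_map]
    · rfl
    · exact ((hmi i).measurable.prodMk (hmi j).measurable).aemeasurable
    · exact hf.aestronglyMeasurable
  have hint : Integrable f (μ.prod μ) :=
    Integrable.of_bound hf.aestronglyMeasurable π (Filter.Eventually.of_forall (fun p => by
      rw [Real.norm_eq_abs]; exact hb p))
  rw [h1, integral_prod _ hint]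

theorem key (h1 : Stmt_SUM) (μ : Measure V3) [IsProbabilityMeasure μ]
    (hS : μ (Metric.sphere 0 1)ᶜ = 0) (n : ℕ) :
    ((n : ℝ) ^ 2 - n) * (∫ x, ∫ y, Real.arccos |inner ℝ x y| ∂μ ∂μ) ≤ (n : ℝ) ^ 2 * (π / 3) := by
  set I := ∫ x, ∫ y, Real.arccos |inner ℝ x y| ∂μ ∂μ with hI
  set f : V3 × V3 → ℝ := fun p => Real.arccos |inner ℝ p.1 p.2| with hfdef
  have hf : Continuous f := Real.continuous_arccos.comp (continuous_fst.inner continuous_snd).abs
  have hf0 : ∀ p, 0 ≤ f p := fun p => Real.arccos_nonneg _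
  have hfb : ∀ p, |f p| ≤ π := fun p => by
    rw [abs_of_nonneg (hf0 p)]; exact Real.arccos_le_pi _
  set P := Measure.pi (fun _ : Fin n => μ) with hP
  have hint : ∀ i j : Fin n, Integrable (fun x : Fin n → V3 => f (x i, x j)) P := fun i j =>
    Integrable.of_bound
      (hf.comp ((continuous_apply i).prodMk (continuous_apply j))).aestronglyMeasurable π
      (Filter.Eventually.of_forall (fun x => by rw [Real.norm_eq_abs]; exact hfb _))
  have hmi : ∀ k : Fin n, MeasurePreserving (fun ω : Fin n → V3 => ω k) P μ :=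
    fun k => measurePreserving_eval (fun _ : Fin n => μ) k
  have hae : ∀ᵐ x ∂μ, ‖x‖ = 1 := by
    rw [ae_iff]
    refine measure_mono_null (fun x hx => ?_) hS
    simp only [Set.mem_compl_iff, mem_sphere_zero_iff_norm]
    exact hx
  have haeP : ∀ᵐ x ∂P, ∀ i, ‖x i‖ = 1 := by
    rw [ae_all_iff]
    intro i
    exact (hmi i).quasiMeasurePreserving.ae hae
  have hle : ∫ x, ∑ i, ∑ j, f (x i, x j) ∂P ≤ (n : ℝ) ^ 2 * (π / 3) := by
    have h2 : ∫ x, ∑ i, ∑ j, f (x i, x j) ∂P ≤ ∫ _x, (n : ℝ) ^ 2 * (π / 3) ∂P := by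
      apply integral_mono_ae
      · exact integrable_finsetSum _ (fun i _ => integrable_finsetSum _ (fun j _ => hint i j))
      · exact integrable_const _
      · filter_upwards [haeP] with x hx
        exact h1 n x hx
    simpa using h2
  have hsum : ∫ x, ∑ i, ∑ j, f (x i, x j) ∂P = ∑ i, ∑ j, ∫ x, f (x i, x j) ∂P := by
    rw [integral_finsetSum _ (fun i _ => integrable_finsetSum _ (fun j _ => hint i j))]
    refine Finset.sum_congr rfl (fun i _ => ?_)
    rw [integral_finsetSum _ (fun j _ => hint i j)]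
  have hlow : ∀ i j : Fin n, (if i = j then 0 else I) ≤ ∫ x, f (x i, x j) ∂P := by
    intro i j
    by_cases h : i = j
    · rw [if_pos h]
      exact integral_nonneg (fun x => hf0 _)
    · rw [if_neg h, pair_int μ f hf hfb n i j h]
  have hcount : ∑ i : Fin n, ∑ j : Fin n, (if i = j then 0 else I) = ((n : ℝ) ^ 2 - n) * I := by
    have : ∀ i : Fin n, ∑ j : Fin n, (if i = j then 0 else I) = ((n : ℝ) - 1) * I := by
      intro i
      have h3 : ∀ j : Fin n, (if i = j then 0 else I) = I - (if i = j then I else 0) := by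
        intro j; split_ifs <;> simp
      simp_rw [h3]
      rw [Finset.sum_sub_distrib]
      simp
      ring
    simp_rw [this]
    simp
    ring
  calc ((n : ℝ) ^ 2 - n) * I = ∑ i : Fin n, ∑ j : Fin n, (if i = j then 0 else I) := hcount.symm
    _ ≤ ∑ i, ∑ j, ∫ x, f (x i, x j) ∂P :=
        Finset.sum_le_sum (fun i _ => Finset.sum_le_sum (fun j _ => hlow i j))
    _ = ∫ x, ∑ i, ∑ j, f (x i, x j) ∂P := hsum.symm
    _ ≤ _ := hle

end MEAS_

theorem meas_proof (h1 : Stmt_SUM) : Stmt_MEAS := by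
  intro μ hμ hS
  haveI := hμ
  have hk := MEAS_.key h1 μ hS
  set I := ∫ x, ∫ y, Real.arccos |inner ℝ x y| ∂μ ∂μ with hI
  by_contra hcon
  push Not at hcon
  obtain ⟨m, hm⟩ := exists_nat_gt (I / (I - π / 3))
  have hpos : 0 < I - π / 3 := by linarith
  rw [div_lt_iff₀ hpos] at hm
  have hI0 : 0 < I := lt_trans (by positivity) hcon
  have hm0 : (0 : ℝ) < m := by
    by_contra h
    push Not at h
    have : (m : ℝ) * (I - π / 3) ≤ 0 := mul_nonpos_of_nonpos_of_nonneg h hpos.le
    linarith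
  have h2 := hk m
  have h3 : (m : ℝ) * ((m : ℝ) * (I - π / 3)) ≤ (m : ℝ) * I := by nlinarith
  have h4 := le_of_mul_le_mul_left h3 hm0
  linarith

end Pool.Agent.FTA
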