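import Pool.Agent.FTA.Stmts

namespace Pool.Agent.FTA
namespace MI_

theorem Wf_symm (p q : ℝ) : Wf p q = Wf q p := by
  unfold Wf kk
  rw [min_comm p q, add_comm p q]
  ring

theorem Rf_symm (p q : ℝ) : Rf p q = Rf q p := by
  unfold Rf kk
  rw [min_comm p q, max_comm p q, add_comm p q]
  ring

theorem F_symm (p q t : ℝ) : F p q t = F q p t := by
  unfold F
  rw [Wf_symm p q, Rf_symm p q]
  ring

theorem tt_symm (p q r s : ℝ) : tt p q r s = tt q p r s := by
  unfold tt
  rw [mul_comm (cn p) (cn q), mul_comm (sn p) (sn q)]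

theorem Gf_swap12 (a b c s : ℝ) : Gf a b c s = Gf b a c s := by
  unfold Gf
  rw [F_symm a b, tt_symm a b c s]
  ring

theorem Gf_swap23 (a b c s : ℝ) : Gf a b c s = Gf a c b s := by
  unfold Gf
  rw [F_symm b c, tt_symm b c a s]
  ring

theorem gram_swap12 (a b c s : ℝ) : gram a b c s = gram b a c s := by
  unfold gram
  ring

theorem gram_swap23 (a b c s : ℝ) : gram a b c s = gram a c b s := by
  unfold gram
  ring

theorem sorted (h1 : Stmt_COVN) (h2 : Stmt_COVP) (h3 : Stmt_DEG) (h4 : Stmt_GRAM) {a b c s : ℝ} (ha : 0 ≤ a)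
    (hab : a ≤ b) (hbc : b ≤ c) (hc : c ≤ 1) (hs : s = 1 ∨ s = -1) (hg : 0 ≤ gram a b c s) : 0 ≤ Gf a b c s := by
  rcases hs with rfl | rfl
  · have h := (h4 a b c ha hab hbc hc).1 hg
    rcases h.lt_or_eq with h | h
    · exact h2 a b c (by linarith) hab hbc hc h
    · exact (h3.1 a b c ha hab hbc hc h).ge
  · have h := (h4 a b c ha hab hbc hc).2 hg
    rcases h.lt_or_eq with h | h
    · exact h1 a b c (by linarith) hab hbc hc h
    · exact (h3.2 a b c ha hab hbc hc h.symm).ge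

end MI_

theorem mi_proof (h1 : Stmt_COVN) (h2 : Stmt_COVP) (h3 : Stmt_DEG) (h4 : Stmt_GRAM) : Stmt_MI := by
  intro a b c s ha ha1 hb hb1 hc hc1 hs hg
  rcases le_total a b with hab | hab
  · rcases le_total b c with hbc | hbc
    · exact MI_.sorted h1 h2 h3 h4 ha hab hbc hc1 hs hg
    · rcases le_total a c with hac | hac
      · rw [MI_.Gf_swap23]
        rw [MI_.gram_swap23] at hg
        exact MI_.sorted h1 h2 h3 h4 ha hac hbc hb1 hs hg
      · rw [MI_.Gf_swap23, MI_.Gf_swap12]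
        rw [MI_.gram_swap23, MI_.gram_swap12] at hg
        exact MI_.sorted h1 h2 h3 h4 hc hac hab hb1 hs hg
  · rcases le_total a c with hac | hac
    · rw [MI_.Gf_swap12]
      rw [MI_.gram_swap12] at hg
      exact MI_.sorted h1 h2 h3 h4 hb hab hac hc1 hs hg
    · rcases le_total b c with hbc | hbc
      · rw [MI_.Gf_swap12, MI_.Gf_swap23]
        rw [MI_.gram_swap12, MI_.gram_swap23] at hg
        exact MI_.sorted h1 h2 h3 h4 hb hbc hac ha1 hs hg
      · rw [MI_.Gf_swap12, MI_.Gf_swap23, MI_.Gf_swap12]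
        rw [MI_.gram_swap12, MI_.gram_swap23, MI_.gram_swap12] at hg
        exact MI_.sorted h1 h2 h3 h4 hc hbc hab ha1 hs hg

end Pool.Agent.FTA
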