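import Pool.Agent.FTA.Stmts

/-! Soundness of the multiplication of packed Taylor models. -/

set_option autoImplicit false

open Real

namespace Pool.Agent.FTA

namespace MUL_

/-- componentwise sum of two exponents -/
def ad (p : (ℕ × ℕ × ℕ) × (ℕ × ℕ × ℕ)) : ℕ × ℕ × ℕ :=
  (p.1.1 + p.2.1, p.1.2.1 + p.2.2.1, p.1.2.2 + p.2.2.2)

theorem slot_ad (p : (ℕ × ℕ × ℕ) × (ℕ × ℕ × ℕ)) : slot (ad p) = slot p.1 + slot p.2 := by
  unfold slot ad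
  simp only
  ring

theorem mono_ad (u : ℝ × ℝ × ℝ) (p : (ℕ × ℕ × ℕ) × (ℕ × ℕ × ℕ)) :
    mono u (ad p) = mono u p.1 * mono u p.2 := by
  unfold mono ad
  simp only [pow_add]
  ring

theorem ad_mem (p : (ℕ × ℕ × ℕ) × (ℕ × ℕ × ℕ)) (hp : p ∈ Kx ×ˢ Kx) : ad p ∈ Kx ∪ Hx := by
  simp only [Finset.mem_product, Kx, Hx, Finset.mem_filter, Finset.mem_range, Finset.mem_union,
    ad] at *
  omega

/-- coefficients of the product -/
def pr (a b : ℕ × ℕ × ℕ → ℤ) (e : ℕ × ℕ × ℕ) : ℤ :=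
  ∑ p ∈ (Kx ×ˢ Kx).filter (fun p => ad p = e), a p.1 * b p.2

theorem sum_pr {R : Type} [CommRing R] (a b : ℕ × ℕ × ℕ → ℤ) (w : ℕ × ℕ × ℕ → R)
    (hw : ∀ p, w (ad p) = w p.1 * w p.2) :
    ∑ e ∈ Kx ∪ Hx, ((pr a b e : ℤ) : R) * w e =
      (∑ e ∈ Kx, ((a e : ℤ) : R) * w e) * ∑ e ∈ Kx, ((b e : ℤ) : R) * w e := by
  rw [Finset.sum_mul_sum, ← Finset.sum_product',
    ← Finset.sum_fiberwise_of_maps_to (g := ad) (t := Kx ∪ Hx) ad_mem]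
  refine Finset.sum_congr rfl fun e _ => ?_
  unfold pr
  push_cast
  rw [Finset.sum_mul]
  refine Finset.sum_congr rfl fun p hp => ?_
  rw [Finset.mem_filter] at hp
  rw [← hp.2, hw]
  ring

theorem abs_pr_le (a b : ℕ × ℕ × ℕ → ℤ) (e : ℕ × ℕ × ℕ) :
    |pr a b e| ≤ (∑ e ∈ Kx, |a e|) * ∑ e ∈ Kx, |b e| := by
  unfold pr
  calc |∑ p ∈ (Kx ×ˢ Kx).filter (fun p => ad p = e), a p.1 * b p.2|
      ≤ ∑ p ∈ (Kx ×ˢ Kx).filter (fun p => ad p = e), |a p.1 * b p.2| :=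
        Finset.abs_sum_le_sum_abs _ _
    _ ≤ ∑ p ∈ Kx ×ˢ Kx, |a p.1 * b p.2| :=
        Finset.sum_le_sum_of_subset_of_nonneg (Finset.filter_subset _ _)
          fun _ _ _ => abs_nonneg _
    _ = (∑ e ∈ Kx, |a e|) * ∑ e ∈ Kx, |b e| := by
        rw [Finset.sum_mul_sum, ← Finset.sum_product']
        exact Finset.sum_congr rfl fun p _ => abs_mul _ _

theorem cast_pk (s : Finset (ℕ × ℕ × ℕ)) (D : ℕ × ℕ × ℕ → ℕ) :
    ((pk s D : ℕ) : ℤ) = ∑ e ∈ s, (D e : ℤ) * (2 ^ 80) ^ slot e := by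
  unfold pk
  push_cast
  rfl

theorem mul_mk (aN an ar bN bn br : ℕ) (ao bo : Bool) :
    TM.mul (TM.mk aN an ar ao) (TM.mk bN bn br bo) =
      mulc (Nat.sub (Nat.add (Nat.mul aN bN) C1) (Nat.mul (Nat.add aN bN) BE)) an bn ar br
        (Bool.and ao bo) := rfl

theorem mulc_ok (raw an bn ar br : ℕ) (o : Bool) :
    (mulc raw an bn ar br o).ok = Bool.and o (Nat.ble (Nat.mul an bn) 0x200000000000000000) := rfl

theorem mulc_N (raw an bn ar br : ℕ) (o : Bool) :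
    (mulc raw an bn ar br o).N = Nat.land (Nat.shiftRight raw 30) MK := rfl

theorem mulc_n (raw an bn ar br : ℕ) (o : Bool) :
    (mulc raw an bn ar br o).n = absK (Nat.land (Nat.shiftRight raw 30) MK) := by
  simp only [mulc]

theorem mulc_r (raw an bn ar br : ℕ) (o : Bool) :
    (mulc raw an bn ar br o).r =
      (Nat.add (Nat.add (Nat.mul ar bn) (Nat.mul br (Nat.add an ar))) (absH (Nat.land raw MH)))
        / 2 ^ 30 + 21 := by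
  rw [← Nat.shiftRight_eq_div_pow]
  simp only [mulc]
  rfl

theorem low (D Q W : ℕ) (p : ℤ) (hD : (D : ℤ) = 2 ^ 70 + p) (hQW : D = 2 ^ 30 * Q + W)
    (hW : W < 2 ^ 30) (m : ℝ) (hm : |m| ≤ 1) :
    |(p : ℝ) * m / 2 ^ 30 - (((Q : ℤ) - 2 ^ 40 : ℤ) : ℝ) * m| ≤ 1 := by
  have h7 : (D : ℝ) = 2 ^ 70 + (p : ℝ) := by exact_mod_cast hD
  have h8 : (D : ℝ) = 2 ^ 30 * (Q : ℝ) + (W : ℝ) := by exact_mod_cast hQW
  have h9 : (p : ℝ) = 2 ^ 30 * (Q : ℝ) + (W : ℝ) - 2 ^ 70 := by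
    rw [← h8, h7]
    ring
  have h6 : (p : ℝ) * m / 2 ^ 30 - (((Q : ℤ) - 2 ^ 40 : ℤ) : ℝ) * m = (W : ℝ) / 2 ^ 30 * m := by
    rw [h9]
    push_cast
    ring
  rw [h6, abs_mul]
  have h10 : |(W : ℝ) / 2 ^ 30| ≤ 1 := by
    rw [abs_of_nonneg (by positivity), div_le_one (by positivity)]
    have h11 : (W : ℝ) < ((2 ^ 30 : ℕ) : ℝ) := Nat.cast_lt.2 hW
    rw [Nat.cast_pow, Nat.cast_ofNat] at h11
    exact h11.le
  calc |(W : ℝ) / 2 ^ 30| * |m| ≤ 1 * 1 := mul_le_mul h10 hm (abs_nonneg _) zero_le_one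
    _ = 1 := one_mul 1

theorem floor_bd (S : ℕ) : (S : ℝ) / 2 ^ 30 ≤ ((S / 2 ^ 30 : ℕ) : ℝ) + 1 := by
  have h1 : S = 2 ^ 30 * (S / 2 ^ 30) + S % 2 ^ 30 := (Nat.div_add_mod S (2 ^ 30)).symm
  have h2 : S % 2 ^ 30 < 2 ^ 30 := Nat.mod_lt _ (Nat.two_pow_pos 30)
  generalize S / 2 ^ 30 = T at h1 ⊢
  generalize S % 2 ^ 30 = V at h1 h2
  rw [div_le_iff₀ (by positivity)]
  have h8 : (S : ℝ) = 2 ^ 30 * (T : ℝ) + (V : ℝ) := by exact_mod_cast h1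
  have h9 : (V : ℝ) < ((2 ^ 30 : ℕ) : ℝ) := Nat.cast_lt.2 h2
  rw [Nat.cast_pow, Nat.cast_ofNat] at h9
  linarith

theorem prod_bd (X Y PA PB an bn ar br : ℝ) (hPAn : |PA| ≤ an) (hPBn : |PB| ≤ bn)
    (hcar : |X - PA| ≤ ar) (hcbr : |Y - PB| ≤ br) : |X * Y - PA * PB| ≤ ar * bn + br * (an + ar) := by
  have har : 0 ≤ ar := (abs_nonneg _).trans hcar
  have hbr : 0 ≤ br := (abs_nonneg _).trans hcbr
  have hX : |X| ≤ an + ar := by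
    calc |X| = |PA + (X - PA)| := by ring_nf
      _ ≤ |PA| + |X - PA| := abs_add_le _ _
      _ ≤ an + ar := add_le_add hPAn hcar
  calc |X * Y - PA * PB| = |(X - PA) * PB + (Y - PB) * X| := by ring_nf
    _ ≤ |(X - PA) * PB| + |(Y - PB) * X| := abs_add_le _ _
    _ = |X - PA| * |PB| + |Y - PB| * |X| := by rw [abs_mul, abs_mul]
    _ ≤ ar * bn + br * (an + ar) :=
        add_le_add (mul_le_mul hcar hPBn (abs_nonneg _) har) (mul_le_mul hcbr hX (abs_nonneg _) hbr)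

theorem fin_bd (x y PA PB Lo Hi Z S T an bn ar br aH : ℝ)
    (hprod : PA * PB = Lo + Hi) (hhigh : |Hi| ≤ aH) (hlow : |Lo / 2 ^ 30 - Z| ≤ 20)
    (hS : S = ar * bn + br * (an + ar) + aH) (hT : S / 2 ^ 30 ≤ T + 1)
    (herr : |(x * 2 ^ 30) * (y * 2 ^ 30) - PA * PB| ≤ ar * bn + br * (an + ar)) :
    |x * y * 2 ^ 30 - Z| ≤ T + 21 := by
  have hfin : x * y * 2 ^ 30 - Z =
      ((x * 2 ^ 30) * (y * 2 ^ 30) - PA * PB) / 2 ^ 30 + Hi / 2 ^ 30 + (Lo / 2 ^ 30 - Z) := by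
    rw [hprod]
    ring
  rw [hfin]
  calc |((x * 2 ^ 30) * (y * 2 ^ 30) - PA * PB) / 2 ^ 30 + Hi / 2 ^ 30 + (Lo / 2 ^ 30 - Z)|
      ≤ |((x * 2 ^ 30) * (y * 2 ^ 30) - PA * PB) / 2 ^ 30 + Hi / 2 ^ 30| +
        |Lo / 2 ^ 30 - Z| := abs_add_le _ _
    _ ≤ (|((x * 2 ^ 30) * (y * 2 ^ 30) - PA * PB) / 2 ^ 30| + |Hi / 2 ^ 30|) + 20 :=
        add_le_add (abs_add_le _ _) hlow
    _ ≤ ((ar * bn + br * (an + ar)) / 2 ^ 30 + aH / 2 ^ 30) + 20 := by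
        rw [abs_div, abs_div, abs_of_pos (show (0 : ℝ) < 2 ^ 30 by positivity)]
        gcongr
    _ = S / 2 ^ 30 + 20 := by
        rw [hS]
        ring
    _ ≤ T + 21 := by linarith

/-- the raw product as a packed number -/
theorem raw_eq (hC : Stmt_CONST) (hD : Disjoint Kx Hx) (aN bN : ℕ) (a b : ℕ × ℕ × ℕ → ℤ)
    (ha : (aN : ℤ) = ∑ e ∈ Kx, (a e + 2 ^ 40) * (2 ^ 80) ^ slot e)
    (hb : (bN : ℤ) = ∑ e ∈ Kx, (b e + 2 ^ 40) * (2 ^ 80) ^ slot e)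
    (D : ℕ × ℕ × ℕ → ℕ) (hDe : ∀ e, (D e : ℤ) = 2 ^ 70 + pr a b e) :
    Nat.sub (Nat.add (Nat.mul aN bN) C1) (Nat.mul (Nat.add aN bN) BE) = pk (Kx ∪ Hx) D := by
  obtain ⟨h1, h2, h3, h4, -⟩ := hC
  have e1 : ((KE : ℕ) : ℤ) = ∑ e ∈ Kx, (2 ^ 80 : ℤ) ^ slot e := by
    rw [h1, cast_pk]
    exact Finset.sum_congr rfl fun e _ => by push_cast; rw [one_mul]
  have e2 : ((KH : ℕ) : ℤ) = ∑ e ∈ Hx, (2 ^ 80 : ℤ) ^ slot e := by
    rw [h2, cast_pk]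
    exact Finset.sum_congr rfl fun e _ => by push_cast; rw [one_mul]
  have e3 : (aN : ℤ) = ∑ e ∈ Kx, (a e) * (2 ^ 80 : ℤ) ^ slot e + (BE : ℕ) := by
    rw [ha, h3]
    push_cast
    rw [e1, Finset.mul_sum, ← Finset.sum_add_distrib]
    exact Finset.sum_congr rfl fun e _ => by ring
  have e4 : (bN : ℤ) = ∑ e ∈ Kx, (b e) * (2 ^ 80 : ℤ) ^ slot e + (BE : ℕ) := by
    rw [hb, h3]
    push_cast
    rw [e1, Finset.mul_sum, ← Finset.sum_add_distrib]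
    exact Finset.sum_congr rfl fun e _ => by ring
  have e5 : ((pk (Kx ∪ Hx) D : ℕ) : ℤ) = 2 ^ 70 * ((KE : ℕ) + (KH : ℕ)) +
      (∑ e ∈ Kx, (a e) * (2 ^ 80 : ℤ) ^ slot e) * ∑ e ∈ Kx, (b e) * (2 ^ 80 : ℤ) ^ slot e := by
    have h := sum_pr (R := ℤ) a b (fun e => (2 ^ 80 : ℤ) ^ slot e) (fun p => by
      rw [slot_ad, pow_add])
    simp only [Int.cast_id] at h
    rw [← h, cast_pk, e1, e2, ← Finset.sum_union hD, Finset.mul_sum, ← Finset.sum_add_distrib]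
    exact Finset.sum_congr rfl fun e _ => by rw [hDe]; ring
  have e6 : ((C1 : ℕ) : ℤ) = 2 ^ 70 * ((KE : ℕ) + (KH : ℕ)) + (BE : ℕ) * (BE : ℕ) := by
    rw [h4]
    push_cast
    ring
  have e7 : (aN * bN + C1 : ℕ) = pk (Kx ∪ Hx) D + (aN + bN) * BE := by
    have : ((aN * bN + C1 : ℕ) : ℤ) = ((pk (Kx ∪ Hx) D + (aN + bN) * BE : ℕ) : ℤ) := by
      rw [Nat.cast_add, Nat.cast_add, Nat.cast_mul, Nat.cast_mul, Nat.cast_add, e5, e6, e3, e4]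
      ring
    exact_mod_cast this
  show (aN * bN + C1) - (aN + bN) * BE = _
  rw [e7, Nat.add_sub_cancel]

end MUL_

open MUL_ in
theorem mul_proof (h1 : Stmt_KIT) (h2 : Stmt_CONST) (h3 : Stmt_BITS) (h4 : Stmt_ABS) :
    Stmt_MUL := by
  intro u hu a b x y hax hby
  obtain ⟨-, hdis, hKc, -, -, hmono, -⟩ := h1
  have hm := hmono u hu
  obtain ⟨aN, an, ar, ao⟩ := a
  obtain ⟨bN, bn, br, bo⟩ := b
  rw [mul_mk]
  intro hok
  rw [mulc_ok] at hok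
  simp only [Bool.and_eq_true, Nat.ble_eq] at hok
  obtain ⟨⟨hao, hbo⟩, hnn⟩ := hok
  obtain ⟨ca, ⟨hca, hca'⟩, hcan, hcar⟩ := hax hao
  obtain ⟨cb, ⟨hcb, hcb'⟩, hcbn, hcbr⟩ := hby hbo
  simp only at hca hcan hcar hcb hcbn hcbr
  have hcan' : ∑ e ∈ Kx, |ca e| ≤ (an : ℤ) := by exact_mod_cast hcan
  have hcbn' : ∑ e ∈ Kx, |cb e| ≤ (bn : ℤ) := by exact_mod_cast hcbn
  have hpr : ∀ e, |pr ca cb e| ≤ 2 ^ 69 := by
    intro e
    refine (abs_pr_le ca cb e).trans ?_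
    have hnn' : ((an * bn : ℕ) : ℤ) ≤ 2 ^ 69 := by
      have : an * bn ≤ 2 ^ 69 := hnn
      exact_mod_cast this
    calc (∑ e ∈ Kx, |ca e|) * ∑ e ∈ Kx, |cb e| ≤ (an : ℤ) * (bn : ℤ) :=
          mul_le_mul hcan' hcbn' (Finset.sum_nonneg fun _ _ => abs_nonneg _) (by positivity)
      _ ≤ 2 ^ 69 := by rw [← Nat.cast_mul]; exact hnn'
  obtain ⟨D, hD⟩ : ∃ D : ℕ × ℕ × ℕ → ℕ, ∀ e, (D e : ℤ) = 2 ^ 70 + pr ca cb e := by
    refine ⟨fun e => (2 ^ 70 + pr ca cb e).toNat, fun e => ?_⟩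
    have := abs_le.1 (hpr e)
    rw [Int.toNat_of_nonneg]
    norm_num at this ⊢
    omega
  have hDlo : ∀ e, 2 ^ 69 ≤ D e := by
    intro e
    have := abs_le.1 (hpr e)
    have h := hD e
    norm_num at this h ⊢
    omega
  have hDhi : ∀ e, D e ≤ 2 ^ 70 + 2 ^ 69 := by
    intro e
    have := abs_le.1 (hpr e)
    have h := hD e
    norm_num at this h ⊢
    omega
  have hD71 : ∀ e, D e < 2 ^ 71 := fun e => lt_of_le_of_lt (hDhi e) (by norm_num)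
  have hraw := raw_eq h2 hdis aN bN ca cb hca hcb D hD
  rw [hraw]
  have hb1 := h3.1 30 le_rfl D hD71
  have hb2 := h3.2 D hD71
  obtain ⟨Q, hQ⟩ : ∃ Q : ℕ × ℕ × ℕ → ℕ, ∀ e, Q e = D e / 2 ^ 30 := ⟨_, fun _ => rfl⟩
  obtain ⟨W, hW⟩ : ∃ W : ℕ × ℕ × ℕ → ℕ, ∀ e, W e = D e % 2 ^ 30 := ⟨_, fun _ => rfl⟩
  have hQW : ∀ e, D e = 2 ^ 30 * Q e + W e := fun e => by
    rw [hQ, hW]
    exact (Nat.div_add_mod (D e) (2 ^ 30)).symm
  have hWlt : ∀ e, W e < 2 ^ 30 := fun e => by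
    rw [hW]
    exact Nat.mod_lt _ (Nat.two_pow_pos 30)
  have hq : ∀ e, Q e < 2 ^ 41 := by
    intro e
    have h5 := hDhi e
    have h6 := hQW e
    norm_num at h5 h6 ⊢
    omega
  have hb1' : Nat.land (Nat.shiftRight (pk (Kx ∪ Hx) D) 30) MK = pk Kx Q := by
    rw [hb1]
    exact congrArg (pk Kx) (funext fun e => (hQ e).symm)
  clear hb1 hQ hW
  refine ⟨fun e => (Q e : ℤ) - 2 ^ 40, ⟨?_, ?_⟩, ?_, ?_⟩
  · rw [mulc_N, hb1', cast_pk]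
    exact Finset.sum_congr rfl fun e _ => by ring
  · intro e _
    have h5 := hDlo e
    have h6 := hDhi e
    have h7 := hQW e
    have h8 := hWlt e
    rw [abs_lt]
    norm_num at h5 h6 h7 h8 ⊢
    omega
  · rw [mulc_n, hb1']
    exact_mod_cast h4.1 Q hq
  · rw [mulc_r, hb2]
    have hH := h4.2 D hD71
    obtain ⟨aH, haH⟩ : ∃ aH, aH = absH (pk Hx D) := ⟨_, rfl⟩
    rw [← haH] at hH ⊢
    obtain ⟨S, hS⟩ : ∃ S, S = Nat.add (Nat.add (Nat.mul ar bn) (Nat.mul br (Nat.add an ar))) aH :=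
      ⟨_, rfl⟩
    rw [← hS]
    have hS' : (S : ℝ) = ar * bn + br * (an + ar) + aH := by
      have : S = ar * bn + br * (an + ar) + aH := hS
      rw [this]
      push_cast
      ring
    -- the two polynomials
    obtain ⟨PA, hPA⟩ : ∃ PA, PA = ∑ e ∈ Kx, (ca e : ℝ) * mono u e := ⟨_, rfl⟩
    obtain ⟨PB, hPB⟩ : ∃ PB, PB = ∑ e ∈ Kx, (cb e : ℝ) * mono u e := ⟨_, rfl⟩
    rw [← hPA] at hcar
    rw [← hPB] at hcbr
    have hbd : ∀ (s : Finset (ℕ × ℕ × ℕ)) (c : ℕ × ℕ × ℕ → ℤ),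
        |∑ e ∈ s, (c e : ℝ) * mono u e| ≤ ((∑ e ∈ s, |c e| : ℤ) : ℝ) := by
      intro s c
      refine (Finset.abs_sum_le_sum_abs _ _).trans ?_
      push_cast
      refine Finset.sum_le_sum fun e _ => ?_
      rw [abs_mul]
      calc |(c e : ℝ)| * |mono u e| ≤ |(c e : ℝ)| * 1 :=
            mul_le_mul_of_nonneg_left (hm e) (abs_nonneg _)
        _ = |(c e : ℝ)| := mul_one _
    have hPAn : |PA| ≤ an := by
      rw [hPA]
      exact (hbd Kx ca).trans hcan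
    have hPBn : |PB| ≤ bn := by
      rw [hPB]
      exact (hbd Kx cb).trans hcbn
    have hprod : PA * PB = ∑ e ∈ Kx, (pr ca cb e : ℝ) * mono u e +
        ∑ e ∈ Hx, (pr ca cb e : ℝ) * mono u e := by
      rw [← Finset.sum_union hdis, hPA, hPB, sum_pr ca cb (mono u) (mono_ad u)]
    have hhigh : |∑ e ∈ Hx, (pr ca cb e : ℝ) * mono u e| ≤ aH := by
      refine (hbd Hx (pr ca cb)).trans ?_
      have h5 : ∑ e ∈ Hx, |pr ca cb e| ≤ (aH : ℤ) := by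
        refine le_trans (le_of_eq ?_) hH
        exact Finset.sum_congr rfl fun e _ => by rw [hD e, add_sub_cancel_left]
      exact_mod_cast h5
    have hc : (∑ e ∈ Kx, (1 : ℝ)) = 20 := by
      rw [Finset.sum_const, hKc]
      norm_num
    have hlow : |(∑ e ∈ Kx, (pr ca cb e : ℝ) * mono u e) / 2 ^ 30 -
        ∑ e ∈ Kx, (((Q e : ℤ) - 2 ^ 40 : ℤ) : ℝ) * mono u e| ≤ 20 := by
      rw [Finset.sum_div, ← Finset.sum_sub_distrib]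
      calc |∑ e ∈ Kx, ((pr ca cb e : ℝ) * mono u e / 2 ^ 30 -
            (((Q e : ℤ) - 2 ^ 40 : ℤ) : ℝ) * mono u e)|
          ≤ ∑ e ∈ Kx, |(pr ca cb e : ℝ) * mono u e / 2 ^ 30 -
            (((Q e : ℤ) - 2 ^ 40 : ℤ) : ℝ) * mono u e| := Finset.abs_sum_le_sum_abs _ _
        _ ≤ ∑ e ∈ Kx, (1 : ℝ) :=
            Finset.sum_le_sum fun e _ => low (D e) (Q e) (W e) _ (hD e) (hQW e) (hWlt e) _ (hm e)
        _ = 20 := hc
    have hXb : |x * 2 ^ 30 - PA| ≤ (ar : ℝ) := hcar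
    have herr := prod_bd (x * 2 ^ 30) (y * 2 ^ 30) PA PB an bn ar br hPAn hPBn hXb hcbr
    have hfl := floor_bd S
    refine (fin_bd x y PA PB _ _ _ S _ an bn ar br aH hprod hhigh hlow hS' hfl herr).trans
      (le_of_eq ?_)
    rw [Nat.cast_add, Nat.cast_ofNat]

end Pool.Agent.FTA
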