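import Pool.Agent.FTA.Stmts

/-! Module OKF: the flags of the packed Taylor models propagate. -/

namespace Pool.Agent.FTA
namespace OKF_

theorem band {a b : Bool} (h : Bool.and a b = true) : a = true ∧ b = true := by
  cases a <;> cases b <;> simp_all

theorem mul_ok (a b : TM) (h : (TM.mul a b).ok = true) : a.ok = true ∧ b.ok = true := by
  cases a with
  | mk aN an ar ao =>
    cases b with
    | mk bN bn br bo =>
      have h1 : Bool.and (Bool.and ao bo) (Nat.ble (Nat.mul an bn) 0x200000000000000000) = true := h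
      exact band (band h1).1

theorem add_ok (a b : TM) (h : (TM.add a b).ok = true) : a.ok = true ∧ b.ok = true := by
  cases a with
  | mk aN an ar ao =>
    cases b with
    | mk bN bn br bo =>
      have h1 : Bool.and (Bool.and ao bo) (Nat.ble (Nat.add an bn) 0x8000000000) = true := h
      exact band (band h1).1

theorem sub_ok (a b : TM) (h : (TM.sub a b).ok = true) : a.ok = true ∧ b.ok = true := by
  cases a with
  | mk aN an ar ao =>
    cases b with
    | mk bN bn br bo =>
      have h1 : Bool.and (Bool.and ao bo) (Nat.ble (Nat.add an bn) 0x8000000000) = true := h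
      exact band (band h1).1

theorem smul_ok (p q : Nat) (a : TM) (h : (TM.smul p q a).ok = true) : a.ok = true := by
  cases a with
  | mk aN an ar ao =>
    have h1 : Bool.and ao (Bool.and (Nat.ble q 30)
      (Nat.ble (Nat.mul an p) (Nat.mul 0x8000000000 (Nat.pow 2 q)))) = true := h
    exact (band h1).1

theorem ren_ok (a : TM) (h : (TM.ren a).ok = true) : a.ok = true := by
  cases a with
  | mk aN an ar ao => exact h

theorem rad_ok (a : TM) (e : Nat) (o : Bool) (h : (TM.rad a e o).ok = true) :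
    a.ok = true ∧ o = true := by
  cases a with
  | mk aN an ar ao =>
    have h1 : Bool.and ao o = true := h
    exact band h1

theorem invc_ok (e : TM) (y : Nat) (o : Bool) (h : (invc e y o).ok = true) : e.ok = true := by
  have h1 := (rad_ok _ _ _ h).1
  have h2 := smul_ok _ _ _ h1
  have h3 := (add_ok _ _ h2).2
  exact (mul_ok _ _ h3).1

theorem inv_ok (a : TM) (h : (TM.inv a).ok = true) : a.ok = true := by
  have e : TM.inv a = invc (TM.ren (TM.sub TM.one
      (TM.smul (Nat.div 0x1000000000000000 (TM.ctr a)) 30 a)))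
      (Nat.div 0x1000000000000000 (TM.ctr a)) (Nat.blt 0 (TM.ctr a)) := by
    delta TM.inv; rfl
  rw [e] at h
  have h1 := invc_ok _ _ _ h
  have h2 := ren_ok _ h1
  have h3 := (sub_ok _ _ h2).2
  exact smul_ok _ _ _ h3

theorem rsqc_ok (e : TM) (y : Nat) (o : Bool) (h : (rsqc e y o).ok = true) : e.ok = true := by
  have h1 := (rad_ok _ _ _ h).1
  have h2 := smul_ok _ _ _ h1
  have h3 := (add_ok _ _ h2).2
  exact (mul_ok _ _ h3).1

theorem rsq_ok (a : TM) (h : (TM.rsq a).ok = true) : a.ok = true := by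
  have e : TM.rsq a = (fun v => rsqc (TM.ren (TM.sub (TM.smul v 30 (TM.smul v 30 a)) TM.one)) v
      (Nat.blt 0 (TM.ctr a)))
      (nwt (TM.ctr a) 6 (Nat.pow 2 (Nat.div (Nat.sub 90 (Nat.log2 (TM.ctr a))) 2))) := by
    delta TM.rsq; rfl
  rw [e] at h
  generalize nwt (TM.ctr a) 6 (Nat.pow 2 (Nat.div (Nat.sub 90 (Nat.log2 (TM.ctr a))) 2)) = v at h
  have h1 := rsqc_ok _ _ _ h
  have h2 := ren_ok _ h1
  have h3 := (sub_ok _ _ h2).1
  exact smul_ok _ _ _ (smul_ok _ _ _ h3)

theorem pos_ok (a : TM) (h : TM.pos a = true) : a.ok = true := by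
  cases a with
  | mk aN an ar ao =>
    have h1 : Bool.and ao (Nat.blt (Nat.add (absK aN) ar)
      (Nat.mul 2 (Nat.sub (Nat.mod aN 0x100000000000000000000) 0x10000000000))) = true := h
    exact (band h1).1

end OKF_

theorem okf_proof : Stmt_OKF :=
  ⟨OKF_.mul_ok, OKF_.add_ok, OKF_.sub_ok, OKF_.smul_ok, OKF_.ren_ok, OKF_.rad_ok, OKF_.inv_ok,
    OKF_.rsq_ok, OKF_.pos_ok, fun a => by cases a with | mk aN an ar ao => rfl⟩

end Pool.Agent.FTA
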