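import Pool.Agent.FTA.Stmts

/-! Parametricity of the programs of the charts `N`, `A`, `B` and of the programs near `V1`. -/

namespace Pool.Agent.FTA

namespace PARQ_

section
variable {α β : Type} {A : Alg α} {B : Alg β} {R : α → β → Prop}

theorem one (h : Compat A B R) : R A.one B.one := h.cst _ _ _

theorem om (h : Compat A B R) {x : α} {y : β} (hx : R x y) : R (A.om x) (B.om y) := h.sub (one h) hx

theorem op (h : Compat A B R) {x : α} {y : β} (hx : R x y) : R (A.op x) (B.op y) := h.add (one h) hx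

theorem dbl (h : Compat A B R) {x : α} {y : β} (hx : R x y) : R (A.dbl x) (B.dbl y) := h.smul _ _ hx

theorem horner (h : Compat A B R) {x : α} {y : β} (hx : R x y) :
    ∀ l : List (Bool × Nat), R (A.horner x l) (B.horner y l)
  | [] => h.cst _ _ _
  | [_] => h.cst _ _ _
  | _ :: d :: l => h.add (h.cst _ _ _) (h.mul hx (horner h hx (d :: l)))

theorem sc (h : Compat A B R) {x : α} {y : β} (hx : R x y) : R (A.sc x) (B.sc y) :=
  h.wsc hx (horner h (h.mul hx hx) scC)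

theorem cs (h : Compat A B R) {x : α} {y : β} (hx : R x y) : R (A.cs x) (B.cs y) :=
  h.wcs hx (horner h (h.mul hx hx) csC)

theorem ac (h : Compat A B R) {x : α} {y : β} (hx : R x y) : R (A.ac x) (B.ac y) :=
  h.wac hx (horner h hx acC)

structure SideR (R : α → β → Prop) (P : Side α) (Q : Side β) : Prop where
  t : R P.t Q.t
  S : R P.S Q.S
  C : R P.C Q.C
  i : R P.i Q.i
  d : R P.d Q.d
  q : R P.q Q.q
  s : R P.s Q.s

theorem side_ (h : Compat A B R) {t S C i : α} {t' S' C' i' : β} (ht : R t t') (hS : R S S')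
    (hC : R C C') (hi : R i i') : SideR R (side A t S C i) (side B t' S' C' i') where
  t := ht
  S := hS
  C := hC
  i := hi
  d := h.sub hi hS
  q := h.sub (h.smul _ _ hi) (h.smul _ _ hS)
  s := h.sub (h.smul _ _ hi) (h.smul _ _ hS)

variable {P Q : Side α} {P' Q' : Side β}

theorem evenP_ (h : Compat A B R) (hP : SideR R P P') (hQ : SideR R Q Q') {y dt r : α} {y' dt' r' : β}
    (hy : R y y') (hd : R dt dt') (hr : R r r') : R (evenP A P Q y dt r) (evenP B P' Q' y' dt' r') :=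
  h.add (h.smul _ _ (h.mul (h.mul hP.q hQ.q) hd)) (h.mul hy (h.add (h.smul _ _ (h.mul hP.s hQ.s)) hr))

theorem oddP_ (h : Compat A B R) {W y ax ac : α} {W' y' ax' ac' : β} (hW : R W W') (hy : R y y')
    (hx : R ax ax') (ha : R ac ac') : R (oddP A W y ax ac) (oddP B W' y' ax' ac') :=
  h.smul _ _ (h.mul hW (h.add (h.mul hy (h.inv (op h hx))) ha))

theorem Wp_ (h : Compat A B R) (hP : SideR R P P') (hQ : SideR R Q Q') {k q : α} {k' q' : β}
    (hk : R k k') (hq : R q q') : R (Wp A P Q k q) (Wp B P' Q' k' q') :=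
  h.sub (h.smul _ _ (h.mul (h.sub hP.i hk) hq)) (h.smul _ _ (h.mul hP.C hQ.C))

theorem Rp_ (h : Compat A B R) (hP : SideR R P P') (hQ : SideR R Q Q') {k q : α} {k' q' : β}
    (hk : R k k') (hq : R q q') : R (Rp A P Q k q) (Rp B P' Q' k' q') :=
  h.sub (h.smul _ _ (h.mul (h.add (h.mul hP.i (om h (dbl h hQ.t))) hk) hq))
    (h.smul _ _ (h.mul hP.d hQ.d))

theorem poleA_ (h : Compat A B R) (hP : SideR R P P') (hQ : SideR R Q Q') {k q x y : α}
    {k' q' x' y' : β} (hk : R k k') (hq : R q q') (hx : R x x') (hy : R y y') :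
    R (poleA A P Q k q x y) (poleA B P' Q' k' q' x' y') :=
  h.add (evenP_ h hP hQ hy (ac h hx) (Rp_ h hP hQ hk hq)) (oddP_ h (Wp_ h hP hQ hk hq) hy hx (ac h hx))

theorem poleO_ (h : Compat A B R) (hP : SideR R P P') (hQ : SideR R Q Q') {k q x y : α}
    {k' q' x' y' : β} (hk : R k k') (hq : R q q') (hx : R x x') (hy : R y y') :
    R (poleO A P Q k q x y) (poleO B P' Q' k' q' x' y') :=
  h.sub (evenP_ h hP hQ hy (ac h hx) (Rp_ h hP hQ hk hq)) (oddP_ h (Wp_ h hP hQ hk hq) hy hx (ac h hx))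

theorem poleE_ (h : Compat A B R) (hP : SideR R P P') (hQ : SideR R Q Q') {k q x y : α}
    {k' q' x' y' : β} (hk : R k k') (hq : R q q') (hx : R x x') (hy : R y y') :
    R (poleE A P Q k q x y) (poleE B P' Q' k' q' x' y') :=
  h.sub (evenP_ h hP hQ hy (ac h hx) (Rp_ h hP hQ hk hq))
    (h.smul _ _ (h.mul (Wp_ h hP hQ hk hq)
      (h.add (h.mul hy (h.inv (om h hx))) (h.sub (dbl h (h.inv hy)) (ac h hx)))))

structure CoreR (R : α → β → Prop) (K : Core α) (L : Core β) : Prop where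
  a : SideR R K.a L.a
  b : SideR R K.b L.b
  c : SideR R K.c L.c
  isb : R K.isb L.isb
  isc : R K.isc L.isc
  yz : R K.yz L.yz
  yx : R K.yx L.yx
  yy : R K.yy L.yy
  xz : R K.xz L.xz
  xx : R K.xx L.xx
  xy : R K.xy L.xy
  bs : R K.bs L.bs
  kd : R K.kd L.kd

theorem core2_ (h : Compat A B R) (neg : Bool) {a b c f0 f1 tt z0 z1 Sa Ca ia Sb Cb Sc Cc s2 s3 : α} {a' b' c' f0' f1' tt' z0' z1' Sa' Ca' ia' Sb' Cb' Sc' Cc' s2' s3' : β}
    (ha : R a a') (hb : R b b') (hc : R c c') (hf0 : R f0 f0') (hf1 : R f1 f1') (htt : R tt tt') (hz0 : R z0 z0') (hz1 : R z1 z1') (hSa : R Sa Sa') (hCa : R Ca Ca') (hia : R ia ia') (hSb : R Sb Sb') (hCb : R Cb Cb') (hSc : R Sc Sc') (hCc : R Cc Cc') (hs2 : R s2 s2') (hs3 : R s3 s3') :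
    CoreR R (core2 A neg a b c f0 f1 tt z0 z1 Sa Ca ia Sb Cb Sc Cc s2 s3) (core2 B neg a' b' c' f0' f1' tt' z0' z1' Sa' Ca' ia' Sb' Cb' Sc' Cc' s2' s3') := by
  unfold core2
  extract_lets v ir pr ig isb isc DS f0s f1s yx e0 s0 c0 v' ir' pr' ig' isb' isc' DS' f0s' f1s' yx' e0' s0' c0'
  have hv : R v v' := h.mul hs2 hs3
  have hir : R ir ir' := h.rsq hv
  have hpr : R pr pr' := h.mul hz0 hz1
  have hig : R ig ig' := h.rsq hpr
  have hisb : R isb isb' := h.inv hSb
  have hisc : R isc isc' := h.inv hSc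
  have hDS : R DS DS' := dbl h (h.mul (h.mul (h.mul htt hf1) (h.mul hpr hig)) (h.mul (h.mul hv hir) hia))
  have hf0s : R f0s f0s' := h.mul (h.mul hf0 hz0) hia
  have hf1s : R f1s f1s' := h.mul (h.mul hf1 hz1) hia
  have hyx : R yx yx' := h.mul hDS hisc
  have he0 : R e0 e0' := h.mul ha hf0
  have hs0 : R s0 s0' := h.mul he0 hz0
  have hc0 : R c0 c0' := cs h he0
  cases neg
  all_goals exact
    { a := side_ h ha hSa hCa hia
      b := side_ h hb hSb hCb (h.mul hb hisb)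
      c := side_ h hc hSc hCc (h.mul hc hisc)
      isb := hisb
      isc := hisc
      yz := h.mul hDS hisb
      yx := hyx
      yy := h.mul (h.mul hyx hSa) hisb
      xz := h.mul (h.sub (h.mul hf0s hs3) (h.mul hf1s hs2)) hisb
      xx := h.mul (h.sub (h.mul hf1s hs3) (h.mul hf0s hs2)) hisc
      xy := h.mul (h.mul (h.sub hv (h.mul hs0 (h.mul (h.mul ha hf1) hz1))) hisb) hisc
      bs := h.mul (h.smul _ _ (h.mul (h.mul htt hz0) (h.mul hig hir)))
        (h.sub (h.smul _ _ (h.mul hc0 (h.sub (h.smul _ _ (h.mul (h.mul hSa hSb) hSc)) (dbl h (h.mul hs0 hc0)))))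
          (h.smul _ _ (h.inv hz0)))
      kd := h.mul htt (h.mul hig hir) }

theorem core_ (h : Compat A B R) (neg : Bool) {a be gm f0 f1 tt : α} {a' be' gm' f0' f1' tt' : β}
    (ha : R a a') (hbe : R be be') (hgm : R gm gm') (hf0 : R f0 f0') (hf1 : R f1 f1') (htt : R tt tt') :
    CoreR R (core A neg a be gm f0 f1 tt) (core B neg a' be' gm' f0' f1' tt') := by
  have hsa : R (A.sc a) (B.sc a') := sc h ha
  have e1 : ∀ neg : Bool, R (Bool.casesOn neg (A.cs (A.smul 1 1 (A.add (A.add a be) gm))) (A.cs (A.smul 1 1 (A.sub (A.add a be) gm))))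
      (Bool.casesOn neg (B.cs (B.smul 1 1 (B.add (B.add a' be') gm'))) (B.cs (B.smul 1 1 (B.sub (B.add a' be') gm')))) := by
    intro neg
    cases neg
    · exact cs h (h.smul _ _ (h.add (h.add ha hbe) hgm))
    · exact cs h (h.smul _ _ (h.sub (h.add ha hbe) hgm))
  have e2 : ∀ neg : Bool, R (Bool.casesOn neg (A.cs (A.smul 1 1 (A.sub (A.add be gm) a))) (A.cs (A.smul 1 1 (A.sub (A.add a gm) be))))
      (Bool.casesOn neg (B.cs (B.smul 1 1 (B.sub (B.add be' gm') a'))) (B.cs (B.smul 1 1 (B.sub (B.add a' gm') be')))) := by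
    intro neg
    cases neg
    · exact cs h (h.smul _ _ (h.sub (h.add hbe hgm) ha))
    · exact cs h (h.smul _ _ (h.sub (h.add ha hgm) hbe))
  exact core2_ h neg ha (om h hbe) (om h hgm) hf0 hf1 htt (sc h (h.mul ha hf0)) (sc h (h.mul ha hf1))
    (h.mul ha hsa) (cs h ha) (h.inv hsa) (cs h hbe) (h.mul hbe (sc h hbe)) (cs h hgm) (h.mul hgm (sc h hgm))
    (e1 neg) (e2 neg)

theorem z0 (h : Compat A B R) : R (A.cst false 0 0) (B.cst false 0 0) := h.cst _ _ _

theorem qN_ (h : Compat A B R) {K : Core α} {L : Core β} (hK : CoreR R K L) {be gm kz kx : α}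
    {be' gm' kz' kx' : β} (hgm : R gm gm') (hkz : R kz kz') (hkx : R kx kx') :
    R (qN A K be gm kz kx) (qN B L be' gm' kz' kx') := by
  have hky : R (A.mul (A.sub K.b.t gm) K.isb) (B.mul (B.sub L.b.t gm') L.isb) :=
    h.mul (h.sub hK.b.t hgm) hK.isb
  exact h.add (h.add hK.bs (poleO_ h hK.a hK.b hkz hK.isb (h.sub (z0 h) hK.xz) hK.yz))
    (h.add (poleO_ h hK.a hK.c hkx hK.isc hK.xx hK.yx) (poleO_ h hK.b hK.c hky hK.isc hK.xy hK.yy))

theorem qP_ (h : Compat A B R) (ev : Bool) {K : Core α} {L : Core β} (hK : CoreR R K L) {gm kz kx kD : α}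
    {gm' kz' kx' kD' : β} (hgm : R gm gm') (hkz : R kz kz') (hkx : R kx kx') (hkD : R kD kD') :
    R (qP A ev K gm kz kx kD) (qP B ev L gm' kz' kx' kD') := by
  have hky : R (A.mul (A.sub K.b.t gm) K.isb) (B.mul (B.sub L.b.t gm') L.isb) :=
    h.mul (h.sub hK.b.t hgm) hK.isb
  have h3 := h.add (poleA_ h hK.a hK.c hkx hK.isc hK.xx hK.yx) (poleA_ h hK.b hK.c hky hK.isc hK.xy hK.yy)
  have h1 := h.sub hK.bs (h.smul 5 1 hkD)
  cases ev
  · exact h.add (h.add h1 (poleO_ h hK.a hK.b hkz hK.isb (h.sub (z0 h) hK.xz) hK.yz)) h3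
  · exact h.add (h.add h1 (poleE_ h hK.a hK.b hkz hK.isb hK.xz hK.yz)) h3

theorem cN_ (h : Compat A B R) {a x t : α} {a' x' t' : β} (ha : R a a') (hx : R x x') (ht : R t t') :
    R (cN A a x t) (cN B a' x' t') := by
  unfold cN
  extract_lets t2 f1 f0 xi hh gm be K t2' f1' f0' xi' hh' gm' be' K'
  have ht2 : R t2 t2' := h.mul ht ht
  have hf1 : R f1 f1' := h.inv (op h ht2)
  have hf0 : R f0 f0' := h.mul ht2 hf1
  have hxi : R xi xi' := h.sub hf1 hf0
  have hhx : R hh hh' := h.smul _ _ (h.mul hxi hx)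
  have hgm : R gm gm' := h.mul ha hhx
  have hbe : R be be' := h.mul ha (h.sub hxi hhx)
  have hK : CoreR R K K' := core_ h true ha hbe hgm hf0 hf1 ht
  exact qN_ h hK hgm (h.mul hK.a.i (om h (h.sub hxi hhx))) (h.mul hK.a.i (om h hhx))

structure PRR (R : α → β → Prop) (p : PR α) (q : PR β) : Prop where
  o : R p.o q.o
  e : R p.e q.e
  xz : R p.xz q.xz

theorem cA_ (h : Compat A B R) {a x t : α} {a' x' t' : β} (ha : R a a') (hx : R x x') (ht : R t t') :
    PRR R (cA A a x t) (cA B a' x' t') := by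
  unfold cA
  extract_lets t2 f1 f0 xi g gm K k2 kz kx kD t2' f1' f0' xi' g' gm' K' k2' kz' kx' kD'
  have ht2 : R t2 t2' := h.mul ht ht
  have hf1 : R f1 f1' := h.inv (op h ht2)
  have hf0 : R f0 f0' := h.mul ht2 hf1
  have hxi : R xi xi' := h.sub hf1 hf0
  have hg : R g g' := dbl h (h.mul hf0 hx)
  have hgm : R gm gm' := h.mul ha hg
  have hK : CoreR R K K' := core_ h false ha (h.add hgm (h.mul ha hxi)) hgm hf0 hf1 ht
  have hk2 : R k2 k2' := h.sub (dbl h hf0) hg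
  have hkz : R kz kz' := h.mul hK.a.i hk2
  have hkx : R kx kx' := h.mul hK.a.i (om h hg)
  have hkD : R kD kD' := h.mul (om h hx) hK.kd
  exact ⟨qP_ h false hK hgm hkz hkx hkD, qP_ h true hK hgm hkz hkx hkD, hK.xz⟩

theorem cB_ (h : Compat A B R) {a x t : α} {a' x' t' : β} (ha : R a a') (hx : R x x') (ht : R t t') :
    PRR R (cB A a x t) (cB B a' x' t') := by
  unfold cB
  extract_lets t2 f1 f0 xi gm K z kx t2' f1' f0' xi' gm' K' z' kx'
  have ht2 : R t2 t2' := h.mul ht ht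
  have hf1 : R f1 f1' := h.inv (op h ht2)
  have hf0 : R f0 f0' := h.mul ht2 hf1
  have hxi : R xi xi' := h.sub hf1 hf0
  have hgm : R gm gm' := h.mul ha (h.add (dbl h hf0) (h.mul hxi hx))
  have hK : CoreR R K K' := core_ h false ha (h.add hgm (h.mul ha hxi)) hgm hf0 hf1 ht
  have hz : R z z' := z0 h
  have hkx : R kx kx' := h.mul hK.a.i (h.mul hxi (om h hx))
  exact ⟨qP_ h false hK hgm hz hkx hz, qP_ h true hK hgm hz hkx hz, hK.xz⟩

theorem ccore_ (h : Compat A B R) (neg : Bool) {a xi be gm : α} {a' xi' be' gm' : β} (ha : R a a')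
    (hxi : R xi xi') (hbe : R be be') (hgm : R gm gm') :
    CoreR R (ccore A neg a xi be gm) (ccore B neg a' xi' be' gm') := by
  have hm : R (A.om xi) (B.om xi') := om h hxi
  have hp : R (A.op xi) (B.op xi') := op h hxi
  exact core_ h neg ha hbe hgm (h.smul _ _ hm) (h.smul _ _ hp) (h.mul hm (h.rsq (h.mul hm hp)))

theorem eN_ (h : Compat A B R) {a xi x : α} {a' xi' x' : β} (ha : R a a') (hxi : R xi xi')
    (hx : R x x') : R (eN A a xi x) (eN B a' xi' x') := by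
  unfold eN
  extract_lets hh gm be K hh' gm' be' K'
  have hhx : R hh hh' := h.smul _ _ (h.mul hxi hx)
  have hgm : R gm gm' := h.mul ha hhx
  have hbe : R be be' := h.mul ha (h.sub hxi hhx)
  have hK : CoreR R K K' := ccore_ h true ha hxi hbe hgm
  exact qN_ h hK hgm (h.mul hK.a.i (om h (h.sub hxi hhx))) (h.mul hK.a.i (om h hhx))

theorem eP0 (h : Compat A B R) (ev : Bool) {a xi gm : α} {a' xi' gm' : β} (ha : R a a')
    (hxi : R xi xi') (hgm : R gm gm') : R (eP A 0 ev a xi gm) (eP B 0 ev a' xi' gm') := by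
  have hK := ccore_ h false ha hxi (h.add hgm (h.mul ha hxi)) hgm
  exact qP_ h ev hK hgm (h.mul hK.a.i (om h hxi)) hK.a.i hK.kd

theorem eP1 (h : Compat A B R) (ev : Bool) {a xi gm : α} {a' xi' gm' : β} (ha : R a a')
    (hxi : R xi xi') (hgm : R gm gm') : R (eP A 1 ev a xi gm) (eP B 1 ev a' xi' gm') := by
  have hK := ccore_ h false ha hxi (h.add hgm (h.mul ha hxi)) hgm
  exact qP_ h ev hK hgm (z0 h) (h.mul hK.a.i hxi) (z0 h)

theorem eP2 (h : Compat A B R) (ev : Bool) {a xi gm : α} {a' xi' gm' : β} (ha : R a a')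
    (hxi : R xi xi') (hgm : R gm gm') : R (eP A 2 ev a xi gm) (eP B 2 ev a' xi' gm') := by
  have hK := ccore_ h false ha hxi (h.add hgm (h.mul ha hxi)) hgm
  exact qP_ h ev hK hgm (z0 h) (z0 h) (z0 h)

theorem eF_ (h : Compat A B R) (ev : Bool) {a xi g : α} {a' xi' g' : β} (ha : R a a')
    (hxi : R xi xi') (hg : R g g') : R (eF A ev a xi g) (eF B ev a' xi' g') := by
  have hgm : R (A.mul a g) (B.mul a' g') := h.mul ha hg
  have hK := ccore_ h false ha hxi (h.mul ha (h.add hg hxi)) hgm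
  have hm : R (A.om xi) (B.om xi') := om h hxi
  exact qP_ h ev hK hgm (h.mul hK.a.i (h.sub hm hg)) (h.mul hK.a.i (om h hg))
    (h.mul (om h (h.mul hg (h.inv hm))) hK.kd)

theorem fPm_ (h : Compat A B R) {a xi gm : α} {a' xi' gm' : β} (ha : R a a')
    (hxi : R xi xi') (hgm : R gm gm') : List.Forall₂ R (fPm A a xi gm) (fPm B a' xi' gm') :=
  .cons (eP0 h false ha hxi hgm) (.cons (eP0 h true ha hxi hgm) (.cons (eP1 h false ha hxi hgm)
    (.cons (eP1 h true ha hxi hgm) (.cons (eP2 h false ha hxi hgm) (.cons (eP2 h true ha hxi hgm) .nil)))))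

theorem gN_ (h : Compat A B R) {a x t : α} {a' x' t' : β} (ha : R a a') (hx : R x x') (ht : R t t') :
    List.Forall₂ (List.Forall₂ R) (gN A a x t) (gN B a' x' t') := by
  unfold gN
  extract_lets t2 f1 xi be t2' f1' xi' be'
  have ht2 : R t2 t2' := h.mul ht ht
  have hf1 : R f1 f1' := h.inv (op h ht2)
  have hxi : R xi xi' := h.sub hf1 (h.mul ht2 hf1)
  have hbe : R be be' := h.mul ha (h.mul hxi (om h (h.smul _ _ hx)))
  exact .cons (.cons (h.sub (h.add ha hbe) (one h)) (.cons (cN_ h ha hx ht) .nil)) .nil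

theorem gA_ (h : Compat A B R) {a x t : α} {a' x' t' : β} (ha : R a a') (hx : R x x') (ht : R t t') :
    List.Forall₂ (List.Forall₂ R) (gA A a x t) (gA B a' x' t') := by
  unfold gA
  extract_lets t2 f1 f0 xi g o1 o2 o3 o4 r nz t2' f1' f0' xi' g' o1' o2' o3' o4' r' nz'
  have ht2 : R t2 t2' := h.mul ht ht
  have hf1 : R f1 f1' := h.inv (op h ht2)
  have hf0 : R f0 f0' := h.mul ht2 hf1
  have hxi : R xi xi' := h.sub hf1 hf0
  have hg : R g g' := dbl h (h.mul hf0 hx)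
  have ho1 : R o1 o1' := h.sub (h.add ha (h.mul ha (h.add hg hxi))) (one h)
  have ho2 : R o2 o2' := h.sub (h.cst _ _ _) hxi
  have ho3 : R o3 o3' := h.sub (h.cst _ _ _) hg
  have ho4 : R o4 o4' := h.sub (h.cst _ _ _) ha
  have hr : PRR R r r' := cA_ h ha hx ht
  have hnz : R nz nz' := h.sub (z0 h) hr.xz
  exact .cons (.cons ho1 (.cons ho2 (.cons hr.xz (.cons hr.o .nil))))
    (.cons (.cons ho1 (.cons ho3 (.cons ho4 (.cons hr.xz (.cons hr.o .nil)))))
    (.cons (.cons ho1 (.cons ho2 (.cons hnz (.cons hr.e .nil))))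
    (.cons (.cons ho1 (.cons ho3 (.cons ho4 (.cons hnz (.cons hr.e .nil))))) .nil)))

theorem gB_ (h : Compat A B R) {a x t : α} {a' x' t' : β} (ha : R a a') (hx : R x x') (ht : R t t') :
    List.Forall₂ (List.Forall₂ R) (gB A a x t) (gB B a' x' t') := by
  unfold gB
  extract_lets t2 f1 f0 xi gm o1 o2 o4 r nz t2' f1' f0' xi' gm' o1' o2' o4' r' nz'
  have ht2 : R t2 t2' := h.mul ht ht
  have hf1 : R f1 f1' := h.inv (op h ht2)
  have hf0 : R f0 f0' := h.mul ht2 hf1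
  have hxi : R xi xi' := h.sub hf1 hf0
  have hgm : R gm gm' := h.mul ha (h.add (dbl h hf0) (h.mul hxi hx))
  have ho1 : R o1 o1' := h.sub (h.add ha (h.add hgm (h.mul ha hxi))) (one h)
  have ho2 : R o2 o2' := h.sub (h.cst _ _ _) hxi
  have ho4 : R o4 o4' := h.sub (h.cst _ _ _) ha
  have hr : PRR R r r' := cB_ h ha hx ht
  have hnz : R nz nz' := h.sub (z0 h) hr.xz
  exact .cons (.cons ho1 (.cons ho2 (.cons hr.xz (.cons hr.o .nil))))
    (.cons (.cons ho1 (.cons ho4 (.cons hr.xz (.cons hr.o .nil))))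
    (.cons (.cons ho1 (.cons ho2 (.cons hnz (.cons hr.e .nil))))
    (.cons (.cons ho1 (.cons ho4 (.cons hnz (.cons hr.e .nil)))) .nil)))

end

end PARQ_

open PARQ_ in
theorem parq_proof : Stmt_PARQ := by
  intro α β A B R h a x t a' x' t' ha hx ht
  have hxt := h.mul hx ht
  exact ⟨gN_ h ha hx ht, gA_ h ha hx ht, gB_ h ha hx ht, .cons (eN_ h ha hx ht) .nil,
    fPm_ h ha hx hxt, fPm_ h ha hxt hx,
    .cons (eF_ h false ha hx hxt) (.cons (eF_ h true ha hx hxt) .nil),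
    .cons (eF_ h false ha hxt hx) (.cons (eF_ h true ha hxt hx) .nil)⟩

end Pool.Agent.FTA
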