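import Pool.Agent.FTA.Stmts

namespace Pool.Agent.FTA
namespace PARV_

variable {α β : Type} {A : Alg α} {B : Alg β} {R : α → β → Prop}

structure RPR (R : α → β → Prop) (p : PR α) (q : PR β) : Prop where
  o : R p.o q.o
  e : R p.e q.e
  xz : R p.xz q.xz

structure RSide (R : α → β → Prop) (P : Side α) (Q : Side β) : Prop where
  t : R P.t Q.t
  S : R P.S Q.S
  C : R P.C Q.C
  i : R P.i Q.i
  d : R P.d Q.d
  q : R P.q Q.q
  s : R P.s Q.s

theorem one_r (h : Compat A B R) : R A.one B.one := h.cst false 1 0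
theorem om_r (h : Compat A B R) {x y} (hx : R x y) : R (A.om x) (B.om y) := h.sub (one_r h) hx
theorem op_r (h : Compat A B R) {x y} (hx : R x y) : R (A.op x) (B.op y) := h.add (one_r h) hx
theorem dbl_r (h : Compat A B R) {x y} (hx : R x y) : R (A.dbl x) (B.dbl y) := h.smul 2 0 hx

theorem horner_r (h : Compat A B R) {x y} (hx : R x y) : ∀ l, R (A.horner x l) (B.horner y l)
  | [] => h.cst _ _ _
  | [_] => h.cst _ _ _
  | _ :: d :: l => h.add (h.cst _ _ _) (h.mul hx (horner_r h hx (d :: l)))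

theorem sc_r (h : Compat A B R) {x y} (hx : R x y) : R (A.sc x) (B.sc y) :=
  h.wsc hx (horner_r h (h.mul hx hx) _)
theorem cs_r (h : Compat A B R) {x y} (hx : R x y) : R (A.cs x) (B.cs y) :=
  h.wcs hx (horner_r h (h.mul hx hx) _)
theorem ac_r (h : Compat A B R) {x y} (hx : R x y) : R (A.ac x) (B.ac y) :=
  h.wac hx (horner_r h hx _)

theorem side_r (h : Compat A B R) {t S C i : α} {t' S' C' i' : β} (ht : R t t') (hS : R S S') (hC : R C C')
    (hi : R i i') : RSide R (side A t S C i) (side B t' S' C' i') where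
  t := ht
  S := hS
  C := hC
  i := hi
  d := h.sub hi hS
  q := h.sub (h.smul 3 3 hi) (h.smul 1 3 hS)
  s := h.sub (h.smul 7 4 hi) (h.smul 3 4 hS)

theorem oddP_r (h : Compat A B R) {W y ax ac : α} {W' y' ax' ac' : β} (hW : R W W') (hy : R y y') (hax : R ax ax')
    (hac : R ac ac') : R (oddP A W y ax ac) (oddP B W' y' ax' ac') :=
  h.smul 1 1 (h.mul hW (h.add (h.mul hy (h.inv (op_r h hax))) hac))

theorem vpole1_r (h : Compat A B R) {b bp bk y : α} {b' bp' bk' y' : β} {P Q : Side α} {P' Q' : Side β}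
    (hb : R b b') (hP : RSide R P P') (hQ : RSide R Q Q') (hbp : R bp bp') (hbk : R bk bk') :
    R (vpole A b P Q bp bk y).1 (vpole B b' P' Q' bp' bk' y').1 :=
  h.sub (h.smul 5 2 (h.sub hbp hbk)) (h.smul 1 1 (h.mul hb (h.mul hP.C hQ.C)))

theorem vpole2_r (h : Compat A B R) {b bp bk y : α} {b' bp' bk' y' : β} {P Q : Side α} {P' Q' : Side β}
    (hb : R b b') (hP : RSide R P P') (hQ : RSide R Q Q') (hbp : R bp bp') (hbk : R bk bk') :
    R (vpole A b P Q bp bk y).2 (vpole B b' P' Q' bp' bk' y').2 :=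
  h.sub (h.smul 5 2 (h.add (h.mul hbp (om_r h (dbl_r h hQ.t))) hbk)) (h.smul 93 7 (h.mul hb (h.mul hP.d hQ.d)))

theorem vev_r (h : Compat A B R) {b y dt r : α} {b' y' dt' r' : β} {P Q : Side α} {P' Q' : Side β}
    (hb : R b b') (hP : RSide R P P') (hQ : RSide R Q Q') (hy : R y y') (hdt : R dt dt') (hr : R r r') :
    R (vev A b P Q y dt r) (vev B b' P' Q' y' dt' r') :=
  h.add (h.smul 8 0 (h.mul hb (h.add (h.mul (h.mul hP.q hQ.q) hdt) (h.mul hy (h.mul hP.s hQ.s))))) (h.mul hy hr)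

theorem vA_r (h : Compat A B R) {b bp bk ax y : α} {b' bp' bk' ax' y' : β} {P Q : Side α} {P' Q' : Side β}
    (hb : R b b') (hP : RSide R P P') (hQ : RSide R Q Q') (hbp : R bp bp') (hbk : R bk bk') (hax : R ax ax')
    (hy : R y y') : R (vA A b P Q bp bk ax y) (vA B b' P' Q' bp' bk' ax' y') :=
  h.add (vev_r h hb hP hQ hy (ac_r h hax) (vpole2_r h hb hP hQ hbp hbk))
    (oddP_r h (vpole1_r h hb hP hQ hbp hbk) hy hax (ac_r h hax))

theorem vO_r (h : Compat A B R) {b bp bk ax y : α} {b' bp' bk' ax' y' : β} {P Q : Side α} {P' Q' : Side β}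
    (hb : R b b') (hP : RSide R P P') (hQ : RSide R Q Q') (hbp : R bp bp') (hbk : R bk bk') (hax : R ax ax')
    (hy : R y y') : R (vO A b P Q bp bk ax y) (vO B b' P' Q' bp' bk' ax' y') :=
  h.sub (vev_r h hb hP hQ hy (ac_r h hax) (vpole2_r h hb hP hQ hbp hbk))
    (oddP_r h (vpole1_r h hb hP hQ hbp hbk) hy hax (ac_r h hax))

theorem vE_r (h : Compat A B R) {b bp bk x y : α} {b' bp' bk' x' y' : β} {P Q : Side α} {P' Q' : Side β}
    (hb : R b b') (hP : RSide R P P') (hQ : RSide R Q Q') (hbp : R bp bp') (hbk : R bk bk') (hx : R x x')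
    (hy : R y y') : R (vE A b P Q bp bk x y) (vE B b' P' Q' bp' bk' x' y') :=
  h.sub (vev_r h hb hP hQ hy (ac_r h hx) (vpole2_r h hb hP hQ hbp hbk))
    (h.smul 1 1 (h.mul (vpole1_r h hb hP hQ hbp hbk)
      (h.add (h.mul hy (h.inv (om_r h hx))) (h.sub (dbl_r h (h.inv hy)) (ac_r h hx)))))

theorem cV_r (h : Compat A B R) (k1 : Bool) {rho b t rho' b' t'} (hr : R rho rho') (hb : R b b') (ht : R t t') :
    RPR R (cV A k1 rho b t) (cV B k1 rho' b' t') := by
  unfold cV
  extract_lets t2 f1 f0 a m c l2 l3 za zb zc z0 z1 p2 p3 ia ib icm v ir pr ig yz yi yx yy u0 u1 xz xx bc xy sa sb sc e0 c0 s0 bs z bk rest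
    t2' f1' f0' a' m' c' l2' l3' za' zb' zc' z0' z1' p2' p3' ia' ib' icm' v' ir' pr' ig' yz' yi' yx' yy' u0' u1' xz' xx' bc' xy' sa' sb' sc' e0' c0' s0' bs' z' bk' rest'
  have ht2 : R t2 t2' := h.mul ht ht
  clear_value t2 t2'
  have hf1 : R f1 f1' := h.inv (op_r h ht2)
  clear_value f1 f1'
  have hf0 : R f0 f0' := h.mul ht2 hf1
  clear_value f0 f0'
  have ha : R a a' := h.mul hr hb
  clear_value a a'
  have hm : R m m' := op_r h (h.mul hr (h.sub hf1 hf0))
  clear_value m m'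
  have hc : R c c' := h.mul hb hm
  clear_value c c'
  have hl2 : R l2 l2' := om_r h (h.mul hr hf0)
  clear_value l2 l2'
  have hl3 : R l3 l3' := op_r h (h.mul hr hf1)
  clear_value l3 l3'
  have hza : R za za' := sc_r h ha
  clear_value za za'
  have hzb : R zb zb' := sc_r h hb
  clear_value zb zb'
  have hzc : R zc zc' := sc_r h hc
  clear_value zc zc'
  have hz0 : R z0 z0' := sc_r h (h.mul ha hf0)
  clear_value z0 z0'
  have hz1 : R z1 z1' := sc_r h (h.mul ha hf1)
  clear_value z1 z1'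
  have hp2 : R p2 p2' := h.mul hl2 (sc_r h (h.mul hb hl2))
  clear_value p2 p2'
  have hp3 : R p3 p3' := h.mul hl3 (sc_r h (h.mul hb hl3))
  clear_value p3 p3'
  have hia : R ia ia' := h.inv hza
  clear_value ia ia'
  have hib : R ib ib' := h.inv hzb
  clear_value ib ib'
  have hicm : R icm icm' := h.inv (h.mul hm hzc)
  clear_value icm icm'
  have hv : R v v' := h.mul hp2 hp3
  clear_value v v'
  have hir : R ir ir' := h.rsq hv
  clear_value ir ir'
  have hpr : R pr pr' := h.mul hz0 hz1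
  clear_value pr pr'
  have hig : R ig ig' := h.rsq hpr
  clear_value ig ig'
  have hyz : R yz yz' := dbl_r h (h.mul (h.mul (h.mul ht hf1) (h.mul hpr hig)) (h.mul (h.mul hv hir) (h.mul hia hib)))
  clear_value yz yz'
  have hyi : R yi yi' := h.mul hyz hicm
  clear_value yi yi'
  have hyx : R yx yx' := h.mul hyi hzb
  clear_value yx yx'
  have hyy : R yy yy' := h.mul hyi (h.mul hr hza)
  clear_value yy yy'
  have hu0 : R u0 u0' := h.mul hf0 hz0
  clear_value u0 u0'
  have hu1 : R u1 u1' := h.mul hf1 hz1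
  clear_value u1 u1'
  have hxz : R xz xz' := h.mul (h.sub (h.mul hu0 hp3) (h.mul hu1 hp2)) (h.mul hia hib)
  clear_value xz xz'
  have hxx : R xx xx' := h.mul (h.sub (h.mul hu1 hp3) (h.mul hu0 hp2)) (h.mul hia hicm)
  clear_value xx xx'
  have hbc : R bc bc' := h.mul hib hicm
  clear_value bc bc'
  have hxy : R xy xy' := h.mul (h.sub hv (h.mul (h.mul hr hr) (h.mul hu0 hu1))) hbc
  clear_value xy xy'
  have hsa : RSide R sa sa' := side_r h ha (h.mul ha hza) (cs_r h ha) hia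
  clear_value sa sa'
  have hsb : RSide R sb sb' := side_r h hb (h.mul hb hzb) (cs_r h hb) hib
  clear_value sb sb'
  have hsc : RSide R sc sc' := side_r h hc (h.mul hc hzc) (cs_r h hc) (h.mul hm hicm)
  clear_value sc sc'
  have he0 : R e0 e0' := h.mul ha hf0
  clear_value e0 e0'
  have hc0 : R c0 c0' := cs_r h he0
  clear_value c0 c0'
  have hs0 : R s0 s0' := h.mul he0 hz0
  clear_value s0 s0'
  have hbs : R bs bs' := h.mul (h.smul 1 1 (h.mul (h.mul ht hz0) (h.mul hig hir))) (h.sub (h.smul 1 1 (h.mul hc0 (h.sub (h.smul 4 0 (h.mul (h.mul hsa.S hsb.S) hsc.S)) (dbl_r h (h.mul hs0 hc0))))) (h.smul 5 1 (h.inv hz0)))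
  clear_value bs bs'
  have hz : R z z' := h.cst false 0 0
  clear_value z z'
  have hbk : R bk bk' := by
    cases k1
    · exact hz
    · exact h.mul (h.mul (h.sub (h.add hb hc) (h.cst false 1 0)) (h.inv hb)) hbc
  clear_value bk bk'
  have hrest : R rest rest' := h.add hbs (h.add (vA_r h hb hsa hsc (h.mul hia hicm) hz hxx hyx) (vA_r h hb hsb hsc hbc hbk hxy hyy))
  clear_value rest rest'
  exact ⟨h.add hrest (vO_r h hb hsa hsb (h.mul hia hib) hz (h.sub hz hxz) hyz),
    h.add hrest (vE_r h hb hsa hsb (h.mul hia hib) hz hxz hyz), hxz⟩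

theorem gV_r (h : Compat A B R) {rho b t rho' b' t'} (hr : R rho rho') (hb : R b b') (ht : R t t') :
    List.Forall₂ (List.Forall₂ R) (gV A rho b t) (gV B rho' b' t') := by
  unfold gV
  extract_lets t2 f1 f0 xi a c o1 o2 o3 bc cb r r1 nz
    t2' f1' f0' xi' a' c' o1' o2' o3' bc' cb' r' r1' nz'
  have ht2 : R t2 t2' := h.mul ht ht
  have hf1 : R f1 f1' := h.inv (op_r h ht2)
  have hf0 : R f0 f0' := h.mul ht2 hf1
  have hxi : R xi xi' := h.sub hf1 hf0
  have ha : R a a' := h.mul hr hb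
  have hc : R c c' := h.mul hb (op_r h (h.mul hr hxi))
  have ho1 : R o1 o1' := h.sub (h.add ha hc) (one_r h)
  have ho2 : R o2 o2' := h.sub (h.cst false 1 3) hxi
  have ho3 : R o3 o3' := h.sub (h.cst false 3 5) (om_r h hc)
  have hbc : R bc bc' := h.sub (h.add hb hc) (one_r h)
  have hcb : R cb cb' := h.sub (one_r h) (h.add hb hc)
  have hr0 : RPR R r r' := cV_r h false hr hb ht
  have hr1 : RPR R r1 r1' := cV_r h true hr hb ht
  have hnz : R nz nz' := h.sub (h.cst false 0 0) hr0.xz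
  clear_value t2 f1 f0 xi a c o1 o2 o3 bc cb r r1 nz
    t2' f1' f0' xi' a' c' o1' o2' o3' bc' cb' r' r1' nz'
  have e1 := hr0.xz
  have e2 := hr0.o
  have e3 := hr0.e
  have e4 := hr1.o
  have e5 := hr1.e
  repeat' first | exact List.Forall₂.nil | apply List.Forall₂.cons | assumption

theorem fV_r (h : Compat A B R) {x b t x' b' t'} (hx : R x x') (hb : R b b') (ht : R t t') :
    List.Forall₂ R (fV A x b t) (fV B x' b' t') :=
  List.Forall₂.cons (cV_r h false (om_r h hx) hb ht).o List.Forall₂.nil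

end PARV_

theorem parv_proof : Stmt_PARV := by
  intro α β A B R h a x t a' x' t' ha hx ht
  exact ⟨PARV_.gV_r h ha hx ht, PARV_.fV_r h hx (h.mul hx ht) (h.mul hx ha), PARV_.fV_r h (h.mul hx ht) hx (h.mul hx ha),
    PARV_.fV_r h (h.mul hx ht) (h.mul hx ha) hx⟩

end Pool.Agent.FTA
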