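import Pool.Agent.FTA.Stmts

/-! Module POS: norm bound and positivity of Taylor models. -/

open Real

namespace Pool.Agent.FTA
namespace POS_

theorem band {a b : Bool} (h : Bool.and a b = true) : a = true ∧ b = true := by
  cases a <;> cases b <;> simp_all

theorem abs_sum_mono (hK : Stmt_KIT) (u : ℝ × ℝ × ℝ) (hu : Cube u) (c : ℕ × ℕ × ℕ → ℤ)
    (s : Finset (ℕ × ℕ × ℕ)) :
    |∑ e ∈ s, (c e : ℝ) * mono u e| ≤ ((∑ e ∈ s, |c e| : ℤ) : ℝ) := by
  push_cast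
  refine (Finset.abs_sum_le_sum_abs _ _).trans (Finset.sum_le_sum fun e _ => ?_)
  rw [abs_mul]
  have h1 := hK.2.2.2.2.2.1 u hu e
  nlinarith [abs_nonneg (c e : ℝ), abs_nonneg (mono u e)]

theorem mem0 : ((0, 0, 0) : ℕ × ℕ × ℕ) ∈ Kx := by decide

theorem mono0 (u : ℝ × ℝ × ℝ) : mono u (0, 0, 0) = 1 := by simp [mono]

theorem pk_mod (D : ℕ × ℕ × ℕ → ℕ) (hD : ∀ e, D e < 2 ^ 41) :
    pk Kx D % 2 ^ 80 = D (0, 0, 0) := by
  have h1 : pk Kx D = D (0, 0, 0) + ∑ e ∈ Kx.erase (0, 0, 0), D e * (2 ^ 80) ^ slot e := by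
    unfold pk
    rw [← Finset.add_sum_erase _ _ mem0]
    simp [slot]
  have h2 : 2 ^ 80 ∣ ∑ e ∈ Kx.erase (0, 0, 0), D e * (2 ^ 80) ^ slot e := by
    refine Finset.dvd_sum fun e he => Dvd.dvd.mul_left (dvd_pow_self _ ?_) _
    have h3 := Finset.ne_of_mem_erase he
    intro h4
    apply h3
    obtain ⟨a, b, c⟩ := e
    simp only [slot] at h4
    have ha : a = 0 := by omega
    have hb : b = 0 := by omega
    have hc : c = 0 := by omega
    subst ha hb hc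
    rfl
  obtain ⟨q, hq⟩ := h2
  rw [h1, hq]
  have h5 := hD (0, 0, 0)
  rw [Nat.add_mul_mod_self_left]
  exact Nat.mod_eq_of_lt (by
    have : (2 : ℕ) ^ 41 < 2 ^ 80 := by norm_num
    omega)

end POS_

theorem pos_proof (h1 : Stmt_KIT) (_ : Stmt_CONST) (h3 : Stmt_ABS) : Stmt_POS := by
  intro u hu
  refine ⟨fun a x hx hok => ?_, fun a x hx hpos => ?_⟩
  · obtain ⟨c, -, hn, hr⟩ := hx hok
    have h2 := POS_.abs_sum_mono h1 u hu c Kx
    have hdev : (TM.dev a : ℝ) = (a.n : ℝ) + (a.r : ℝ) := by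
      cases a with
      | mk aN an ar ao =>
        have : TM.dev (TM.mk aN an ar ao) = an + ar := rfl
        rw [this]; push_cast; rfl
    rw [hdev]
    have h4 : |x| * 2 ^ 30 = |x * 2 ^ 30| := by
      rw [abs_mul, abs_of_pos (by positivity : (0 : ℝ) < 2 ^ 30)]
    rw [h4]
    have h5 : x * 2 ^ 30 = (x * 2 ^ 30 - ∑ e ∈ Kx, (c e : ℝ) * mono u e)
        + ∑ e ∈ Kx, (c e : ℝ) * mono u e := by ring
    rw [h5]
    refine (abs_add_le _ _).trans ?_
    linarith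
  · cases a with
    | mk aN an ar ao =>
      have e1 : Bool.and ao (Nat.blt (Nat.add (absK aN) ar)
        (Nat.mul 2 (Nat.sub (Nat.mod aN 0x100000000000000000000) 0x10000000000))) = true := hpos
      obtain ⟨hao, e2⟩ := POS_.band e1
      have e3 : absK aN + ar < 2 * (aN % 2 ^ 80 - 2 ^ 40) := by
        have := Nat.blt_eq.mp e2
        exact this
      obtain ⟨c, hE, hn, hr⟩ := hx hao
      obtain ⟨D, hD, hD0, hN, hc⟩ := (h1.2.2.2.2.2.2 aN c).mp hE
      have e4 : aN % 2 ^ 80 = D (0, 0, 0) := by rw [hN]; exact POS_.pk_mod D hD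
      rw [e4] at e3
      have e5 : c (0, 0, 0) = (D (0, 0, 0) : ℤ) - 2 ^ 40 := hc _ POS_.mem0
      have e6 : ((absK aN : ℕ) : ℤ) + (ar : ℤ) < 2 * c (0, 0, 0) := by
        rw [e5]; omega
      have e7 : ∑ e ∈ Kx, |c e| ≤ ((absK aN : ℕ) : ℤ) := by
        have := h3.1 D hD
        rw [← hN] at this
        refine le_trans (le_of_eq ?_) this
        exact Finset.sum_congr rfl fun e he => by rw [hc e he]
      have e8 : ∑ e ∈ Kx, |c e| = |c (0, 0, 0)| + ∑ e ∈ Kx.erase (0, 0, 0), |c e| :=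
        (Finset.add_sum_erase _ _ POS_.mem0).symm
      have e9 : ∑ e ∈ Kx, (c e : ℝ) * mono u e
          = (c (0, 0, 0) : ℝ) + ∑ e ∈ Kx.erase (0, 0, 0), (c e : ℝ) * mono u e := by
        rw [← Finset.add_sum_erase _ _ POS_.mem0, POS_.mono0, mul_one]
      have e10 := POS_.abs_sum_mono h1 u hu c (Kx.erase (0, 0, 0))
      have hr' : |x * 2 ^ 30 - ∑ e ∈ Kx, (c e : ℝ) * mono u e| ≤ (ar : ℝ) := hr
      have e11 := (abs_le.mp hr').1
      have e12 := (abs_le.mp e10).1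
      have e13 : (0 : ℤ) < c (0, 0, 0) := by
        have t1 : (0 : ℤ) ≤ ((absK aN : ℕ) : ℤ) := Int.natCast_nonneg _
        have t2 : (0 : ℤ) ≤ (ar : ℤ) := Int.natCast_nonneg _
        omega
      rw [abs_of_pos e13] at e8
      have e14 : (∑ e ∈ Kx.erase (0, 0, 0), |c e|) < c (0, 0, 0) - (ar : ℤ) := by omega
      have e15 : ((∑ e ∈ Kx.erase (0, 0, 0), |c e| : ℤ) : ℝ) < (c (0, 0, 0) : ℝ) - (ar : ℝ) := by
        exact_mod_cast e14
      have e16 : 0 < x * 2 ^ 30 := by rw [e9] at e11; linarith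
      by_contra hneg
      have : x * 2 ^ 30 ≤ 0 := mul_nonpos_of_nonpos_of_nonneg (not_lt.mp hneg) (by positivity)
      linarith

end Pool.Agent.FTA
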