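import Pool.Agent.FTA.Stmts

open Real MeasureTheory

namespace Pool.Agent.FTA

namespace PR_

/-- indicator of `(-∞, s]` -/
noncomputable def ind (s u : ℝ) : ℝ := Set.indicator {x : ℝ | x ≤ s} (fun _ => (1 : ℝ)) u

lemma ind_mul (s t u : ℝ) : ind s u * ind t u = ind (min s t) u := by
  unfold ind
  simp only [Set.indicator_apply, Set.mem_ofPred_eq, le_min_iff]
  by_cases h1 : u ≤ s <;> by_cases h2 : u ≤ t <;> simp [h1, h2]

lemma ind_mul_fun (s u : ℝ) (φ : ℝ → ℝ) : ind s u * φ u = Set.indicator {x : ℝ | x ≤ s} φ u := by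
  unfold ind
  simp only [Set.indicator_apply, Set.mem_ofPred_eq]
  by_cases h1 : u ≤ s <;> simp [h1]

lemma int_ind (s : ℝ) (hs : 0 ≤ s) (hs' : s ≤ 1 / 2) (φ : ℝ → ℝ) :
    ∫ u in (0:ℝ)..(1 / 2), ind s u * φ u = ∫ u in (0:ℝ)..s, φ u := by
  have h1 : (fun u => ind s u * φ u) = Set.indicator {x : ℝ | x ≤ s} φ := by
    funext u; exact ind_mul_fun s u φ
  rw [h1]
  exact intervalIntegral.integral_indicator ⟨hs, hs'⟩

lemma ii_ind (s : ℝ) (φ : ℝ → ℝ) (hφ : Continuous φ) (a b : ℝ) :
    IntervalIntegrable (fun u => ind s u * φ u) volume a b := by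
  have h1 : (fun u => ind s u * φ u) = Set.indicator {x : ℝ | x ≤ s} φ := by
    funext u; exact ind_mul_fun s u φ
  rw [h1]
  have h2 := (hφ.intervalIntegrable (μ := volume) a b)
  exact ⟨h2.1.indicator measurableSet_Iic, h2.2.indicator measurableSet_Iic⟩

noncomputable def g (s u : ℝ) : ℝ := ind s u - 2 * s
noncomputable def h (u : ℝ) : ℝ := 1 - π / 2 * Real.sin (π * u)

lemma h_cont : Continuous h := by unfold h; fun_prop

lemma ii_g (s : ℝ) (φ : ℝ → ℝ) (hφ : Continuous φ) (a b : ℝ) :
    IntervalIntegrable (fun u => g s u * φ u) volume a b := by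
  have h1 : (fun u => g s u * φ u) = fun u => ind s u * φ u - 2 * s * φ u := by
    funext u; unfold g; ring
  rw [h1]
  exact (ii_ind s φ hφ a b).sub ((continuous_const.mul hφ).intervalIntegrable a b)

lemma gg (s t u : ℝ) : g s u * g t u =
    (ind (min s t) u * 1 - (2 * t) * (ind s u * 1)) - ((2 * s) * (ind t u * 1) - 4 * s * t) := by
  have := ind_mul s t u
  unfold g
  linear_combination this

lemma ii_gg (s t a b : ℝ) : IntervalIntegrable (fun u => g s u * g t u) volume a b := by
  have h1 : (fun u => g s u * g t u) = fun u => (ind (min s t) u * 1 - (2 * t) * (ind s u * 1)) -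
      ((2 * s) * (ind t u * 1) - 4 * s * t) := by
    funext u; exact gg s t u
  rw [h1]
  have hi : ∀ r, IntervalIntegrable (fun u => ind r u * 1) volume a b := fun r =>
    ii_ind r (fun _ => 1) continuous_const a b
  exact ((hi _).sub ((hi s).const_mul _)).sub (((hi t).const_mul _).sub
    (continuous_const.intervalIntegrable a b))

lemma int_gg (s t : ℝ) (hs : 0 ≤ s) (hs' : s ≤ 1 / 2) (ht : 0 ≤ t) (ht' : t ≤ 1 / 2) :
    ∫ u in (0:ℝ)..(1 / 2), g s u * g t u = min s t - 2 * s * t := by
  have h1 : (fun u => g s u * g t u) = fun u => (ind (min s t) u * 1 - (2 * t) * (ind s u * 1)) -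
      ((2 * s) * (ind t u * 1) - 4 * s * t) := by
    funext u; exact gg s t u
  have hi : ∀ r, IntervalIntegrable (fun u => ind r u * 1) volume 0 (1 / 2) := fun r =>
    ii_ind r (fun _ => 1) continuous_const _ _
  have hv : ∀ r, 0 ≤ r → r ≤ 1 / 2 → ∫ u in (0:ℝ)..(1 / 2), ind r u * 1 = r := by
    intro r hr hr'
    rw [int_ind r hr hr' (fun _ => 1)]
    simp
  rw [h1, intervalIntegral.integral_sub ((hi _).sub ((hi s).const_mul _))
    (((hi t).const_mul _).sub (continuous_const.intervalIntegrable _ _)),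
    intervalIntegral.integral_sub (hi _) ((hi s).const_mul _),
    intervalIntegral.integral_sub ((hi t).const_mul _) (continuous_const.intervalIntegrable _ _),
    intervalIntegral.integral_const_mul, intervalIntegral.integral_const_mul,
    hv _ (le_min hs ht) (le_trans (min_le_left _ _) hs'), hv s hs hs', hv t ht ht',
    intervalIntegral.integral_const]
  simp only [smul_eq_mul]
  ring

lemma prim_h (s : ℝ) : ∫ u in (0:ℝ)..s, h u = s - (1 - Real.cos (π * s)) / 2 := by
  have hd : ∀ u ∈ Set.uIcc (0:ℝ) s, HasDerivAt (fun v : ℝ => v + Real.cos (π * v) / 2) (h u) u := by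
    intro u _
    have h1 : HasDerivAt (fun v : ℝ => π * v) π u := by
      simpa using (hasDerivAt_id u).const_mul π
    have h2 : HasDerivAt (fun v : ℝ => Real.cos (π * v)) (-Real.sin (π * u) * π) u :=
      (Real.hasDerivAt_cos (π * u)).comp u h1
    have h3 := (hasDerivAt_id u).add (h2.div_const 2)
    refine h3.congr_deriv ?_
    unfold h
    ring
  rw [intervalIntegral.integral_eq_sub_of_hasDerivAt hd (h_cont.intervalIntegrable _ _)]
  simp
  ring

lemma De_eq (s : ℝ) : De s = s - (1 - Real.cos (π * s)) / 2 := by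
  unfold De sn
  have h1 : Real.sin (π * s / 2) ^ 2 = (1 - Real.cos (π * s)) / 2 := by
    have := Real.cos_sq (π * s / 2)
    have h2 := Real.sin_sq_add_cos_sq (π * s / 2)
    have h3 : 2 * (π * s / 2) = π * s := by ring
    rw [h3] at this
    linarith
  rw [h1]

lemma int_h : ∫ u in (0:ℝ)..(1 / 2), h u = 0 := by
  rw [prim_h]
  have : π * (1 / 2) = π / 2 := by ring
  rw [this, Real.cos_pi_div_two]
  norm_num

lemma int_gh (s : ℝ) (hs : 0 ≤ s) (hs' : s ≤ 1 / 2) :
    ∫ u in (0:ℝ)..(1 / 2), g s u * h u = De s := by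
  have h1 : (fun u => g s u * h u) = fun u => ind s u * h u - 2 * s * h u := by
    funext u; unfold g; ring
  have i2 : IntervalIntegrable (fun u => 2 * s * h u) volume 0 (1 / 2) :=
    (h_cont.intervalIntegrable _ _).const_mul _
  rw [h1, intervalIntegral.integral_sub (ii_ind s h h_cont _ _) i2, int_ind s hs hs' h,
    intervalIntegral.integral_const_mul, int_h, prim_h, De_eq]
  ring

lemma abs_h (u : ℝ) (hu : u ∈ Set.Icc (0:ℝ) (1 / 2)) : h u * h u ≤ 1 := by
  have h0 : 0 ≤ Real.sin (π * u) := Real.sin_nonneg_of_nonneg_of_le_pi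
    (mul_nonneg Real.pi_pos.le hu.1) (by nlinarith [Real.pi_pos, hu.2])
  have h1 : Real.sin (π * u) ≤ 1 := Real.sin_le_one _
  have hp : π ≤ 4 := Real.pi_le_four
  have hp0 := Real.pi_pos
  have ha : h u ≤ 1 := by
    unfold h
    have := mul_nonneg (by linarith : (0:ℝ) ≤ π / 2) h0
    linarith
  have hb : -1 ≤ h u := by
    unfold h
    have : π / 2 * Real.sin (π * u) ≤ 2 * 1 := mul_le_mul (by linarith) h1 h0 (by norm_num)
    linarith
  nlinarith

lemma int_hh : ∫ u in (0:ℝ)..(1 / 2), h u * h u ≤ 1 := by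
  have h1 : ∫ u in (0:ℝ)..(1 / 2), h u * h u ≤ ∫ u in (0:ℝ)..(1 / 2), (1:ℝ) :=
    intervalIntegral.integral_mono_on (by norm_num) ((h_cont.mul h_cont).intervalIntegrable _ _)
      (continuous_const.intervalIntegrable _ _) abs_h
  have h2 : ∫ u in (0:ℝ)..(1 / 2), (1:ℝ) = 1 / 2 := by simp
  linarith

/-- the folded variable -/
noncomputable def f (p : ℝ) : ℝ := min p (1 - p)
noncomputable def sg (p : ℝ) : ℝ := if p ≤ 1 / 2 then 1 else -1

lemma f_nonneg (p : ℝ) (h0 : 0 ≤ p) (h1 : p ≤ 1) : 0 ≤ f p := le_min h0 (by linarith)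
lemma f_le (p : ℝ) : f p ≤ 1 / 2 := by
  unfold f
  rcases le_total p (1 / 2) with hp | hp
  · exact le_trans (min_le_left _ _) hp
  · exact le_trans (min_le_right _ _) (by linarith)

lemma De_f (p : ℝ) : De p = sg p * De (f p) := by
  unfold sg f
  split_ifs with hp
  · rw [min_eq_left (by linarith)]; ring
  · push Not at hp
    rw [min_eq_right (by linarith), De_eq, De_eq]
    have : π * (1 - p) = π - π * p := by ring
    rw [this, Real.cos_pi_sub]
    ring

lemma K_eq (p q : ℝ) : min p q * (1 - 2 * max p q) + kk p q =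
    sg p * sg q * (min (f p) (f q) - 2 * f p * f q) := by
  unfold sg f kk
  rcases le_or_gt p (1 / 2) with hp | hp
  · rcases le_or_gt q (1 / 2) with hq | hq
    · rw [if_pos hp, if_pos hq, min_eq_left (show p ≤ 1 - p by linarith),
        min_eq_left (show q ≤ 1 - q by linarith), max_eq_right (show p + q - 1 ≤ 0 by linarith)]
      have h1 : min p q * max p q = p * q := min_mul_max p q
      linear_combination (-2) * h1
    · rw [if_pos hp, if_neg (not_le.mpr hq), min_eq_left (show p ≤ 1 - p by linarith),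
        min_eq_right (show 1 - q ≤ q by linarith), min_eq_left (show p ≤ q by linarith),
        max_eq_right (show p ≤ q by linarith)]
      rcases le_total (p + q) 1 with h | h
      · rw [max_eq_right (show p + q - 1 ≤ 0 by linarith), min_eq_left (show p ≤ 1 - q by linarith)]
        ring
      · rw [max_eq_left (show 0 ≤ p + q - 1 by linarith), min_eq_right (show 1 - q ≤ p by linarith)]
        ring
  · rcases le_or_gt q (1 / 2) with hq | hq
    · rw [if_neg (not_le.mpr hp), if_pos hq, min_eq_right (show 1 - p ≤ p by linarith),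
        min_eq_left (show q ≤ 1 - q by linarith), min_eq_right (show q ≤ p by linarith),
        max_eq_left (show q ≤ p by linarith)]
      rcases le_total (p + q) 1 with h | h
      · rw [max_eq_right (show p + q - 1 ≤ 0 by linarith), min_eq_right (show q ≤ 1 - p by linarith)]
        ring
      · rw [max_eq_left (show 0 ≤ p + q - 1 by linarith), min_eq_left (show 1 - p ≤ q by linarith)]
        ring
    · rw [if_neg (not_le.mpr hp), if_neg (not_le.mpr hq), min_eq_right (show 1 - p ≤ p by linarith),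
        min_eq_right (show 1 - q ≤ q by linarith), max_eq_left (show 0 ≤ p + q - 1 by linarith)]
      rcases le_total p q with h | h
      · rw [min_eq_left h, max_eq_right h, min_eq_right (show 1 - q ≤ 1 - p by linarith)]
        ring
      · rw [min_eq_right h, max_eq_left h, min_eq_left (show 1 - p ≤ 1 - q by linarith)]
        ring

lemma main (n : ℕ) (x : Fin n → ℝ) (hx : ∀ i, 0 ≤ x i ∧ x i ≤ 1 / 2) (a : Fin n → ℝ) (B : ℝ)
    (hB : B = ∑ i, a i * De (x i)) :
    B ^ 2 ≤ ∑ i, ∑ j, (a i * a j) * (min (x i) (x j) - 2 * x i * x j) := by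
  have h0 : 0 ≤ ∫ u in (0:ℝ)..(1 / 2), (∑ i, a i * g (x i) u - B * h u) ^ 2 :=
    intervalIntegral.integral_nonneg (by norm_num) (fun u _ => sq_nonneg _)
  have h1 : (fun u => (∑ i, a i * g (x i) u - B * h u) ^ 2) = fun u =>
      ((∑ i, ∑ j, (a i * a j) * (g (x i) u * g (x j) u)) -
        ∑ i, (2 * B * a i) * (g (x i) u * h u)) + B ^ 2 * (h u * h u) := by
    funext u
    have e1 : (∑ i, a i * g (x i) u) ^ 2 = ∑ i, ∑ j, (a i * a j) * (g (x i) u * g (x j) u) := by
      rw [sq, Finset.sum_mul_sum]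
      refine Finset.sum_congr rfl (fun i _ => Finset.sum_congr rfl (fun j _ => by ring))
    have e2 : ∑ i, (2 * B * a i) * (g (x i) u * h u) = 2 * B * h u * ∑ i, a i * g (x i) u := by
      rw [Finset.mul_sum]
      exact Finset.sum_congr rfl (fun i _ => by ring)
    rw [← e1, e2]
    ring
  have ij : ∀ i j, IntervalIntegrable (fun u => (a i * a j) * (g (x i) u * g (x j) u)) volume 0 (1 / 2) :=
    fun i j => (ii_gg (x i) (x j) 0 (1 / 2)).const_mul (a i * a j)
  have is : ∀ (m : ℕ) (F : Fin m → ℝ → ℝ), (∀ i, IntervalIntegrable (F i) volume 0 (1 / 2)) →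
      IntervalIntegrable (fun u => ∑ i, F i u) volume 0 (1 / 2) := by
    intro m F hF
    have := IntervalIntegrable.sum (Finset.univ) (fun i _ => hF i)
    have e : (∑ i, F i) = fun u => ∑ i, F i u := by
      funext u; simp
    rwa [e] at this
  have i1 : IntervalIntegrable (fun u => ∑ i, ∑ j, (a i * a j) * (g (x i) u * g (x j) u)) volume 0 (1 / 2) :=
    is n _ (fun i => is n _ (fun j => ij i j))
  have ig : ∀ i, IntervalIntegrable (fun u => (2 * B * a i) * (g (x i) u * h u)) volume 0 (1 / 2) :=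
    fun i => (ii_g (x i) h h_cont 0 (1 / 2)).const_mul _
  have i2 : IntervalIntegrable (fun u => ∑ i, (2 * B * a i) * (g (x i) u * h u)) volume 0 (1 / 2) :=
    is n _ ig
  have i3 : IntervalIntegrable (fun u => B ^ 2 * (h u * h u)) volume 0 (1 / 2) :=
    ((h_cont.mul h_cont).intervalIntegrable _ _).const_mul _
  rw [h1, intervalIntegral.integral_add (i1.sub i2) i3, intervalIntegral.integral_sub i1 i2,
    intervalIntegral.integral_finsetSum (fun i _ => is n _ (fun j => ij i j)),
    intervalIntegral.integral_finsetSum (fun i _ => ig i),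
    intervalIntegral.integral_const_mul] at h0
  have e1 : ∑ i, ∫ u in (0:ℝ)..(1 / 2), ∑ j, (a i * a j) * (g (x i) u * g (x j) u) =
      ∑ i, ∑ j, (a i * a j) * (min (x i) (x j) - 2 * x i * x j) := by
    refine Finset.sum_congr rfl (fun i _ => ?_)
    rw [intervalIntegral.integral_finsetSum (fun j _ => ij i j)]
    refine Finset.sum_congr rfl (fun j _ => ?_)
    rw [intervalIntegral.integral_const_mul, int_gg _ _ (hx i).1 (hx i).2 (hx j).1 (hx j).2]
  have e2 : ∑ i, ∫ u in (0:ℝ)..(1 / 2), (2 * B * a i) * (g (x i) u * h u) = 2 * B * B := by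
    have : ∀ i, ∫ u in (0:ℝ)..(1 / 2), (2 * B * a i) * (g (x i) u * h u) = 2 * B * (a i * De (x i)) := by
      intro i
      rw [intervalIntegral.integral_const_mul, int_gh _ (hx i).1 (hx i).2]
      ring
    rw [Finset.sum_congr rfl (fun i _ => this i), ← Finset.mul_sum, ← hB]
  rw [e1, e2] at h0
  have e3 := mul_le_mul_of_nonneg_left int_hh (sq_nonneg B)
  nlinarith

end PR_

theorem pr_proof : Stmt_PR := by
  refine ⟨fun x y => ?_, fun n x c => ?_⟩
  · change Rf x y = Rf y x
    unfold Rf kk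
    rw [min_comm (x : ℝ) y, max_comm (x : ℝ) y, add_comm (x : ℝ) y]
    ring
  · have key : ∀ i j, c i * c j * Rf (x i) (x j) =
        5 / 4 * ((c i * PR_.sg (x i)) * (c j * PR_.sg (x j)) *
          (min (PR_.f (x i)) (PR_.f (x j)) - 2 * PR_.f (x i) * PR_.f (x j))) -
        93 / 128 * ((c i * PR_.sg (x i) * De (PR_.f (x i))) * (c j * PR_.sg (x j) * De (PR_.f (x j)))) := by
      intro i j
      unfold Rf
      rw [PR_.K_eq, PR_.De_f (x i), PR_.De_f (x j)]
      ring
    have h1 : ∑ i, ∑ j, c i * c j * Rf (x i) (x j) =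
        5 / 4 * (∑ i, ∑ j, (c i * PR_.sg (x i)) * (c j * PR_.sg (x j)) *
          (min (PR_.f (x i)) (PR_.f (x j)) - 2 * PR_.f (x i) * PR_.f (x j))) -
        93 / 128 * (∑ i, c i * PR_.sg (x i) * De (PR_.f (x i))) ^ 2 := by
      rw [sq, Finset.sum_mul_sum, Finset.mul_sum, Finset.mul_sum, ← Finset.sum_sub_distrib]
      refine Finset.sum_congr rfl (fun i _ => ?_)
      rw [Finset.mul_sum, Finset.mul_sum, ← Finset.sum_sub_distrib]
      exact Finset.sum_congr rfl (fun j _ => key i j)
    have h2 := PR_.main n (fun i => PR_.f (x i))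
      (fun i => ⟨PR_.f_nonneg _ (x i).2.1 (x i).2.2, PR_.f_le _⟩) (fun i => c i * PR_.sg (x i)) _ rfl
    change 0 ≤ ∑ i, ∑ j, c i * c j * Rf (x i) (x j)
    rw [h1]
    have h4 := sq_nonneg (∑ i, c i * PR_.sg (x i) * De (PR_.f (x i)))
    nlinarith

end Pool.Agent.FTA
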