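import Pool.Agent.FTA.Stmts

open Real

namespace Pool.Agent.FTA

namespace PRIM_

theorem horner_pv (y : ℝ) : ∀ l : List (Bool × ℕ), Alg.horner reA y l = pv y l
  | [] => rfl
  | [c] => rfl
  | c :: d :: l => by
      have ih := horner_pv y (d :: l)
      show dy c.1 c.2 30 + y * Alg.horner reA y (d :: l) = dy c.1 c.2 30 + y * pv y (d :: l)
      rw [ih]

theorem cl_eq (x : ℝ) (h : |x| ≤ 1) : cl x = x := by
  have := abs_le.1 h
  unfold cl
  rw [min_eq_right this.2, max_eq_right this.1]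

theorem cl8_eq (x : ℝ) (h0 : 0 ≤ x) (h1 : x ≤ 1) : cl8 x = x := by
  unfold cl8
  rw [min_eq_right h1, max_eq_right (by linarith)]

theorem cl4_eq (x : ℝ) (h0 : 0 ≤ x) (h1 : x ≤ 1 / 4) : cl4 x = x := by
  unfold cl4
  rw [min_eq_right h1, max_eq_right h0]

end PRIM_

theorem prim_proof : Stmt_PRIM := by
  refine ⟨fun x hx => ?_, fun x hx => ?_, fun t h0 h1 => ?_, fun v h0 h1 => ?_⟩
  · show Alg.horner reA (x * x) scC + (scR (cl x) - pv (cl x ^ 2) scC) = scR x
    rw [PRIM_.horner_pv, PRIM_.cl_eq x hx, sq]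
    ring
  · show Alg.horner reA (x * x) csC + (cn (cl x) - pv (cl x ^ 2) csC) = cn x
    rw [PRIM_.horner_pv, PRIM_.cl_eq x hx, sq]
    ring
  · show Alg.horner reA t acC + (acR (cl8 t) - pv (cl8 t) acC) = acR t
    rw [PRIM_.horner_pv, PRIM_.cl8_eq t h0 h1]
    ring
  · show Alg.horner reA v asC + (asR (cl4 v) - pv (cl4 v) asC) = asR v
    rw [PRIM_.horner_pv, PRIM_.cl4_eq v h0 h1]
    ring

end Pool.Agent.FTA
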