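import Pool.Agent.FTA.Stmts

/-! Module PSD: the kernel `F` is positive semidefinite. -/

namespace Pool.Agent.FTA

open Real

namespace PSD_

variable {X Y : Type}

theorem add {K L : X → X → ℝ} (hK : PSDK K) (hL : PSDK L) : PSDK (fun x y => K x y + L x y) := by
  refine ⟨fun x y => by simp only [hK.1 x y, hL.1 x y], fun n x c => ?_⟩
  have h1 := hK.2 n x c
  have h2 := hL.2 n x c
  have h3 : ∑ i, ∑ j, c i * c j * (K (x i) (x j) + L (x i) (x j))
      = (∑ i, ∑ j, c i * c j * K (x i) (x j)) + ∑ i, ∑ j, c i * c j * L (x i) (x j) := by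
    rw [← Finset.sum_add_distrib]
    apply Finset.sum_congr rfl
    intro i _
    rw [← Finset.sum_add_distrib]
    apply Finset.sum_congr rfl
    intro j _
    ring
  rw [h3]
  linarith

theorem smul {K : X → X → ℝ} (a : ℝ) (ha : 0 ≤ a) (hK : PSDK K) : PSDK (fun x y => a * K x y) := by
  refine ⟨fun x y => by simp only [hK.1 x y], fun n x c => ?_⟩
  have h1 := hK.2 n x c
  have h3 : ∑ i, ∑ j, c i * c j * (a * K (x i) (x j)) = a * ∑ i, ∑ j, c i * c j * K (x i) (x j) := by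
    rw [Finset.mul_sum]
    apply Finset.sum_congr rfl
    intro i _
    rw [Finset.mul_sum]
    apply Finset.sum_congr rfl
    intro j _
    ring
  rw [h3]
  exact mul_nonneg ha h1

theorem comap {K : Y → Y → ℝ} (f : X → Y) (hK : PSDK K) : PSDK (fun x y => K (f x) (f y)) :=
  ⟨fun x y => hK.1 (f x) (f y), fun n x c => hK.2 n (fun i => f (x i)) c⟩

theorem rank1 (f : X → ℝ) : PSDK (fun x y => f x * f y) := by
  refine ⟨fun x y => mul_comm _ _, fun n x c => ?_⟩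
  have h3 : ∑ i, ∑ j, c i * c j * (f (x i) * f (x j)) = (∑ i, c i * f (x i)) ^ 2 := by
    rw [sq, Finset.sum_mul_sum]
    apply Finset.sum_congr rfl
    intro i _
    apply Finset.sum_congr rfl
    intro j _
    ring
  rw [h3]
  positivity

theorem congr' {K L : X → X → ℝ} (h : ∀ x y, K x y = L x y) (hK : PSDK K) : PSDK L := by
  have : K = L := by funext x y; exact h x y
  rw [← this]; exact hK

theorem cosK (k : ℝ) : PSDK (fun x y : ℝ => Real.cos (k * (x - y))) := by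
  refine congr' ?_ (add (rank1 (fun x : ℝ => Real.cos (k * x))) (rank1 (fun x : ℝ => Real.sin (k * x))))
  intro x y
  rw [mul_sub, Real.cos_sub]

end PSD_

open PSD_ in
theorem psd_proof (h1 : Stmt_SCHUR) (h2 : Stmt_PT) (h3 : Stmt_PW) (h4 : Stmt_PR) : Stmt_PSD := by
  have kc : PSDK (fun x y : Set.Icc (0 : ℝ) 1 × ℝ => Real.cos (x.2 - y.2)) := by
    refine congr' ?_ (comap (fun x : Set.Icc (0 : ℝ) 1 × ℝ => x.2) (cosK 1))
    intro x y
    simp only [one_mul]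
  have kc2 : PSDK (fun x y : Set.Icc (0 : ℝ) 1 × ℝ => Real.cos (2 * (x.2 - y.2))) :=
    comap (fun x : Set.Icc (0 : ℝ) 1 × ℝ => x.2) (cosK 2)
  have kT1 : PSDK (fun x y : Set.Icc (0 : ℝ) 1 × ℝ => T1 (Real.cos (x.2 - y.2))) :=
    comap (fun x : Set.Icc (0 : ℝ) 1 × ℝ => x.2) h2.1
  have kT2 : PSDK (fun x y : Set.Icc (0 : ℝ) 1 × ℝ => T2 (Real.cos (x.2 - y.2))) :=
    comap (fun x : Set.Icc (0 : ℝ) 1 × ℝ => x.2) h2.2
  have kW : PSDK (fun x y : Set.Icc (0 : ℝ) 1 × ℝ => Wf x.1 y.1) :=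
    comap (fun x : Set.Icc (0 : ℝ) 1 × ℝ => x.1) h3
  have kR : PSDK (fun x y : Set.Icc (0 : ℝ) 1 × ℝ => Rf x.1 y.1) :=
    comap (fun x : Set.Icc (0 : ℝ) 1 × ℝ => x.1) h4
  have k0 := rank1 (fun x : Set.Icc (0 : ℝ) 1 × ℝ => p0 x.1)
  have k2 := rank1 (fun x : Set.Icc (0 : ℝ) 1 × ℝ => p2 x.1)
  have k3 := rank1 (fun x : Set.Icc (0 : ℝ) 1 × ℝ => p3 x.1)
  have A := smul (3 / 2) (by norm_num) k0
  have B := smul 4 (by norm_num) (h1 _ _ _ k2 kT2)
  have C := smul 4 (by norm_num) (h1 _ _ _ k3 kc2)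
  have D := smul (1 / 2) (by norm_num) (h1 _ _ _ kW (add kc kT1))
  have E := h1 _ _ _ kR (h1 _ _ _ kc kc)
  refine congr' ?_ (add (add (add (add A B) C) D) E)
  intro x y
  have hcos : Real.cos (2 * (x.2 - y.2)) = 2 * Real.cos (x.2 - y.2) ^ 2 - 1 := Real.cos_two_mul _
  simp only [hcos]
  unfold F
  ring

end Pool.Agent.FTA
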