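import Pool.Agent.FTA.Stmts

/-! Module PT: the kernels `T1 (cos (x - y))` and `T2 (cos (x - y))` are positive semidefinite. -/

open Real

namespace Pool.Agent.FTA

namespace PT_

noncomputable section

lemma bernoulli_two_eval (x : ℝ) :
    (Polynomial.map (algebraMap ℚ ℝ) (Polynomial.bernoulli 2)).eval x = x ^ 2 - x + 1 / 6 := by
  simp [Polynomial.bernoulli_def, Finset.sum_range_succ, Polynomial.eval_monomial,
    Polynomial.map_monomial]
  ring

lemma hasSum_cos_sq {x : ℝ} (hx : x ∈ Set.Icc (0 : ℝ) 1) :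
    HasSum (fun n : ℕ => 1 / (n : ℝ) ^ 2 * Real.cos (2 * π * n * x))
      (π ^ 2 * (x ^ 2 - x + 1 / 6)) := by
  have h := hasSum_one_div_nat_pow_mul_cos (k := 1) one_ne_zero hx
  have e : (-1 : ℝ) ^ (1 + 1) * (2 * π) ^ (2 * 1) / 2 / ((2 * 1).factorial : ℝ) *
        (Polynomial.map (algebraMap ℚ ℝ) (Polynomial.bernoulli (2 * 1))).eval x
        = π ^ 2 * (x ^ 2 - x + 1 / 6) := by
    rw [show 2 * 1 = 2 from rfl, bernoulli_two_eval]
    have e2 : ((Nat.factorial 2 : ℕ) : ℝ) = 2 := by norm_num [Nat.factorial]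
    rw [e2]
    ring
  rw [e] at h
  simpa using h

/-- the series -/
def G (t : ℝ) : ℝ := ∑' n : ℕ, 1 / (n : ℝ) ^ 2 * Real.cos (n * t)

lemma summable_cos (t : ℝ) : Summable (fun n : ℕ => 1 / (n : ℝ) ^ 2 * Real.cos (n * t)) := by
  have h : Summable (fun n : ℕ => 1 / (n : ℝ) ^ 2) :=
    Real.summable_one_div_nat_pow.2 (by norm_num)
  refine Summable.of_norm_bounded h ?_
  intro n
  rw [norm_mul, Real.norm_eq_abs, Real.norm_eq_abs, abs_of_nonneg (by positivity)]
  exact mul_le_of_le_one_right (by positivity) (Real.abs_cos_le_one _)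

lemma G_base {t : ℝ} (h0 : 0 ≤ t) (h1 : t ≤ 2 * π) :
    G t = t ^ 2 / 4 - π * t / 2 + π ^ 2 / 6 := by
  have hpi := Real.pi_pos
  have hx : t / (2 * π) ∈ Set.Icc (0 : ℝ) 1 :=
    ⟨by positivity, by rw [div_le_one (by positivity)]; exact h1⟩
  have h := (hasSum_cos_sq hx).tsum_eq
  have e : ∀ n : ℕ, 2 * π * n * (t / (2 * π)) = n * t := by
    intro n; field_simp
  simp only [e] at h
  rw [G, h]
  field_simp
  ring

lemma cos_nat_congr {s t : ℝ} (h : Real.cos s = Real.cos t) (n : ℕ) :
    Real.cos (n * s) = Real.cos (n * t) := by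
  have h1 := Polynomial.Chebyshev.T_real_cos s (n : ℤ)
  have h2 := Polynomial.Chebyshev.T_real_cos t (n : ℤ)
  rw [h] at h1
  rw [h1] at h2
  simpa using h2

lemma G_congr {s t : ℝ} (h : Real.cos s = Real.cos t) : G s = G t := by
  unfold G
  refine tsum_congr ?_
  intro n
  rw [cos_nat_congr h n]

lemma T1_cos (t : ℝ) : T1 (Real.cos t) = 8 / π ^ 2 * (G t - 1 / 4 * G (2 * t)) := by
  have hpi := Real.pi_pos
  set s := Real.arccos (Real.cos t) with hs
  have hc : Real.cos s = Real.cos t := Real.cos_arccos (Real.neg_one_le_cos t) (Real.cos_le_one t)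
  have hc2 : Real.cos (2 * s) = Real.cos (2 * t) := by
    rw [Real.cos_two_mul, Real.cos_two_mul, hc]
  have h0 : 0 ≤ s := Real.arccos_nonneg _
  have h1 : s ≤ π := Real.arccos_le_pi _
  rw [← G_congr hc, ← G_congr hc2, G_base h0 (by linarith), G_base (by linarith) (by linarith),
    T1, Real.arcsin_eq_pi_div_two_sub_arccos, ← hs]
  field_simp
  ring

/-- the quadratic form of frequency `t` -/
lemma quad_nonneg {n : ℕ} (x : Fin n → ℝ) (c : Fin n → ℝ) (t : ℝ) :
    0 ≤ ∑ i, ∑ j, c i * c j * Real.cos (t * (x i - x j)) := by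
  have e : ∑ i, ∑ j, c i * c j * Real.cos (t * (x i - x j))
      = (∑ i, c i * Real.cos (t * x i)) ^ 2 + (∑ i, c i * Real.sin (t * x i)) ^ 2 := by
    rw [sq, sq, Finset.sum_mul_sum, Finset.sum_mul_sum, ← Finset.sum_add_distrib]
    refine Finset.sum_congr rfl fun i _ => ?_
    rw [← Finset.sum_add_distrib]
    refine Finset.sum_congr rfl fun j _ => ?_
    rw [mul_sub, Real.cos_sub]
    ring
  rw [e]
  positivity

lemma psd_one : PSDK (fun x y : ℝ => T1 (Real.cos (x - y))) := by
  refine ⟨fun x y => ?_, fun n x c => ?_⟩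
  · show T1 (Real.cos (x - y)) = T1 (Real.cos (y - x))
    rw [← Real.cos_neg, neg_sub]
  · have hpi := Real.pi_pos
    set Q : ℕ → ℝ := fun m => ∑ i, ∑ j, c i * c j * Real.cos (m * (x i - x j)) with hQ
    set F : ℕ → ℝ := fun m => 1 / (m : ℝ) ^ 2 * Q m with hF
    have hF0 : ∀ m, 0 ≤ F m := fun m => mul_nonneg (by positivity) (quad_nonneg x c m)
    have hs : ∀ i j, Summable (fun m : ℕ => c i * c j * (1 / (m : ℝ) ^ 2 *
        Real.cos (m * (x i - x j)))) := fun i j => (summable_cos _).mul_left _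
    have hFe : F = fun m : ℕ => ∑ i, ∑ j, c i * c j * (1 / (m : ℝ) ^ 2 *
        Real.cos (m * (x i - x j))) := by
      funext m
      simp only [hF, hQ, Finset.mul_sum]
      refine Finset.sum_congr rfl fun i _ => Finset.sum_congr rfl fun j _ => ?_
      ring
    have hsum : Summable F := by
      rw [hFe]
      exact summable_sum fun i _ => summable_sum fun j _ => hs i j
    have hG : ∑' m, F m = ∑ i, ∑ j, c i * c j * G (x i - x j) := by
      rw [hFe, Summable.tsum_finsetSum (fun i _ => summable_sum fun j _ => hs i j)]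
      refine Finset.sum_congr rfl fun i _ => ?_
      rw [Summable.tsum_finsetSum (fun j _ => hs i j)]
      refine Finset.sum_congr rfl fun j _ => ?_
      rw [tsum_mul_left, G]
    have hG2 : ∑' m, F (2 * m) = 1 / 4 * ∑ i, ∑ j, c i * c j * G (2 * (x i - x j)) := by
      have hs2 : ∀ i j, Summable (fun m : ℕ => 1 / 4 * (c i * c j * (1 / (m : ℝ) ^ 2 *
          Real.cos (m * (2 * (x i - x j)))))) :=
        fun i j => ((summable_cos _).mul_left _).mul_left _
      have hFe2 : (fun m : ℕ => F (2 * m)) = fun m : ℕ => ∑ i, ∑ j, 1 / 4 *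
          (c i * c j * (1 / (m : ℝ) ^ 2 * Real.cos (m * (2 * (x i - x j))))) := by
        funext m
        simp only [hF, hQ, Finset.mul_sum]
        refine Finset.sum_congr rfl fun i _ => Finset.sum_congr rfl fun j _ => ?_
        have ec : ((2 * m : ℕ) : ℝ) * (x i - x j) = m * (2 * (x i - x j)) := by
          push_cast; ring
        have ed : (1 : ℝ) / ((2 * m : ℕ) : ℝ) ^ 2 = 1 / 4 * (1 / (m : ℝ) ^ 2) := by
          push_cast
          rw [mul_pow, one_div, one_div, one_div, mul_inv]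
          norm_num
        rw [ec, ed]
        ring
      rw [hFe2, Summable.tsum_finsetSum (fun i _ => summable_sum fun j _ => hs2 i j),
        Finset.mul_sum]
      refine Finset.sum_congr rfl fun i _ => ?_
      rw [Summable.tsum_finsetSum (fun j _ => hs2 i j), Finset.mul_sum]
      refine Finset.sum_congr rfl fun j _ => ?_
      rw [tsum_mul_left, tsum_mul_left, G]
    have hle : ∑' m, F (2 * m) ≤ ∑' m, F m := by
      have hi : Function.Injective (fun m : ℕ => 2 * m) := fun a b h => by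
        have h' : 2 * a = 2 * b := h
        omega
      exact tsum_comp_le_tsum_of_inj hsum hF0 hi
    rw [hG, hG2] at hle
    have e : ∑ i, ∑ j, c i * c j * T1 (Real.cos (x i - x j))
        = 8 / π ^ 2 * (∑ i, ∑ j, c i * c j * G (x i - x j)
          - 1 / 4 * ∑ i, ∑ j, c i * c j * G (2 * (x i - x j))) := by
      rw [Finset.mul_sum, ← Finset.sum_sub_distrib, Finset.mul_sum]
      refine Finset.sum_congr rfl fun i _ => ?_
      rw [Finset.mul_sum, ← Finset.sum_sub_distrib, Finset.mul_sum]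
      refine Finset.sum_congr rfl fun j _ => ?_
      rw [T1_cos]
      ring
    show 0 ≤ ∑ i, ∑ j, c i * c j * T1 (Real.cos (x i - x j))
    rw [e]
    exact mul_nonneg (by positivity) (by linarith)

lemma T2_cos (t : ℝ) : T2 (Real.cos t) = T1 (Real.cos (2 * t)) := by
  rw [T2, T1, Real.cos_two_mul]

end

end PT_

theorem pt_proof : Stmt_PT := by
  refine ⟨PT_.psd_one, ⟨fun x y => ?_, fun n x c => ?_⟩⟩
  · show T2 (Real.cos (x - y)) = T2 (Real.cos (y - x))
    rw [← Real.cos_neg, neg_sub]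
  · have h := PT_.psd_one.2 n (fun i => 2 * x i) c
    have e : ∀ i j, T2 (Real.cos (x i - x j)) = T1 (Real.cos (2 * x i - 2 * x j)) := by
      intro i j
      rw [PT_.T2_cos, mul_sub]
    simp only [e]
    exact h

end Pool.Agent.FTA
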