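import Pool.Agent.FTA.Stmts

open Real MeasureTheory

namespace Pool.Agent.FTA

namespace PW_

noncomputable section

/-- indicator of `(0, a]` -/
def u (a : ℝ) : ℝ → ℝ := (Set.Ioc (0 : ℝ) a).indicator (fun _ => (1 : ℝ))

def nu : Measure ℝ := volume.restrict (Set.Ioc (0 : ℝ) (1 / 2))

instance : IsFiniteMeasure nu := by
  unfold nu
  refine ⟨?_⟩
  simp

lemma u_meas (a : ℝ) : Measurable (u a) :=
  measurable_const.indicator measurableSet_Ioc

lemma u_nonneg (a s : ℝ) : 0 ≤ u a s := by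
  unfold u
  exact Set.indicator_nonneg (fun _ _ => zero_le_one) s

lemma u_le (a s : ℝ) : u a s ≤ 1 := by
  unfold u
  by_cases h : s ∈ Set.Ioc (0 : ℝ) a
  · simp [Set.indicator_of_mem h]
  · simp [Set.indicator_of_notMem h]

lemma u_mul (a b s : ℝ) : u a s * u b s = u (min a b) s := by
  unfold u
  rw [← Set.inter_indicator_mul]
  have : Set.Ioc (0 : ℝ) a ∩ Set.Ioc 0 b = Set.Ioc 0 (min a b) := by
    rw [Set.Ioc_inter_Ioc]
    simp
  rw [this]
  simp

/-- bounded measurable functions are integrable -/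
lemma integ (g : ℝ → ℝ) (hg : Measurable g) (C : ℝ) (hC : ∀ s, |g s| ≤ C) : Integrable g nu :=
  Integrable.of_bound hg.aestronglyMeasurable C (Filter.Eventually.of_forall (fun s => by
    rw [Real.norm_eq_abs]; exact hC s))

lemma int_u (a : ℝ) (h0 : 0 ≤ a) (h1 : a ≤ 1 / 2) : ∫ s, u a s ∂nu = a := by
  unfold nu u
  rw [integral_indicator measurableSet_Ioc, Measure.restrict_restrict measurableSet_Ioc]
  have : Set.Ioc (0 : ℝ) a ∩ Set.Ioc 0 (1 / 2) = Set.Ioc 0 a := by
    rw [Set.Ioc_inter_Ioc, min_eq_left h1]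
    simp
  rw [this]
  simp [h0]

def ph (s : ℝ) : ℝ := π * Real.cos (π * s)

lemma ph_meas : Measurable ph := by
  unfold ph
  fun_prop

lemma ph_bound (s : ℝ) : |ph s| ≤ π := by
  unfold ph
  rw [abs_mul, abs_of_pos Real.pi_pos]
  calc π * |Real.cos (π * s)| ≤ π * 1 :=
        mul_le_mul_of_nonneg_left (Real.abs_cos_le_one _) Real.pi_pos.le
    _ = π := mul_one _

lemma int_uph (a : ℝ) (h0 : 0 ≤ a) (h1 : a ≤ 1 / 2) :
    ∫ s, u a s * ph s ∂nu = Real.sin (π * a) := by
  have e1 : ∀ s, u a s * ph s = (Set.Ioc (0 : ℝ) a).indicator ph s := by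
    intro s
    unfold u
    by_cases h : s ∈ Set.Ioc (0 : ℝ) a
    · simp [Set.indicator_of_mem h]
    · simp [Set.indicator_of_notMem h]
  simp_rw [e1]
  unfold nu
  rw [integral_indicator measurableSet_Ioc, Measure.restrict_restrict measurableSet_Ioc]
  have : Set.Ioc (0 : ℝ) a ∩ Set.Ioc 0 (1 / 2) = Set.Ioc 0 a := by
    rw [Set.Ioc_inter_Ioc, min_eq_left h1]
    simp
  rw [this, ← intervalIntegral.integral_of_le h0]
  have hd : ∀ x ∈ Set.uIcc (0 : ℝ) a, HasDerivAt (fun s => Real.sin (π * s)) (ph x) x := by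
    intro x _
    have h := (Real.hasDerivAt_sin (π * x)).comp x ((hasDerivAt_id x).const_mul π)
    unfold ph
    have e : Real.cos (π * x) * (π * 1) = π * Real.cos (π * x) := by ring
    rw [e] at h
    exact h
  have hint : IntervalIntegrable ph volume 0 a := by
    apply Continuous.intervalIntegrable
    unfold ph
    fun_prop
  rw [intervalIntegral.integral_eq_sub_of_hasDerivAt hd hint]
  simp

lemma int_ph2 : ∫ s, ph s ^ 2 ∂nu ≤ 5 := by
  have h1 : ∫ s, ph s ^ 2 ∂nu ≤ ∫ _s, (10 : ℝ) ∂nu := by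
    apply integral_mono
    · apply integ _ (ph_meas.pow_const 2) (π ^ 2)
      intro s
      rw [abs_of_nonneg (sq_nonneg _), ← sq_abs]
      exact pow_le_pow_left₀ (abs_nonneg _) (ph_bound s) 2
    · exact integrable_const _
    · intro s
      show ph s ^ 2 ≤ 10
      rw [← sq_abs]
      have h := pow_le_pow_left₀ (abs_nonneg _) (ph_bound s) 2
      have hp : π ^ 2 ≤ 10 := by
        have := Real.pi_lt_d2
        have := Real.pi_pos
        nlinarith
      linarith
  have h2 : ∫ _s, (10 : ℝ) ∂nu = 5 := by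
    unfold nu
    simp
    norm_num
  linarith

variable {n : ℕ} (f c : Fin n → ℝ)

def G (s : ℝ) : ℝ := ∑ i, c i * u (f i) s

lemma G_meas : Measurable (G f c) := by
  unfold G
  apply Finset.measurable_sum
  intro i _
  exact (u_meas _).const_mul _

lemma int_G2 (hf : ∀ i, 0 ≤ f i ∧ f i ≤ 1 / 2) :
    ∫ s, G f c s ^ 2 ∂nu = ∑ i, ∑ j, c i * c j * min (f i) (f j) := by
  have e : ∀ s, G f c s ^ 2 = ∑ i, ∑ j, c i * c j * u (min (f i) (f j)) s := by
    intro s
    unfold G
    rw [sq, Finset.sum_mul_sum]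
    refine Finset.sum_congr rfl (fun i _ => Finset.sum_congr rfl (fun j _ => ?_))
    rw [← u_mul]
    ring
  simp_rw [e]
  rw [integral_finsetSum]
  · refine Finset.sum_congr rfl (fun i _ => ?_)
    rw [integral_finsetSum]
    · refine Finset.sum_congr rfl (fun j _ => ?_)
      rw [integral_const_mul, int_u]
      · exact le_min (hf i).1 (hf j).1
      · exact (min_le_left _ _).trans (hf i).2
    · intro j _
      apply Integrable.const_mul
      apply integ _ (u_meas _) 1
      intro s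
      rw [abs_of_nonneg (u_nonneg _ _)]
      exact u_le _ _
  · intro i _
    apply integrable_finsetSum
    intro j _
    apply Integrable.const_mul
    apply integ _ (u_meas _) 1
    intro s
    rw [abs_of_nonneg (u_nonneg _ _)]
    exact u_le _ _

lemma uph_int (a : ℝ) : Integrable (fun s => u a s * ph s) nu := by
  apply integ _ ((u_meas a).mul ph_meas) π
  intro s
  show |u a s * ph s| ≤ π
  rw [abs_mul, abs_of_nonneg (u_nonneg _ _)]
  calc u a s * |ph s| ≤ 1 * π :=
        mul_le_mul (u_le _ _) (ph_bound s) (abs_nonneg _) zero_le_one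
    _ = π := one_mul _

lemma Gph_eq (s : ℝ) : G f c s * ph s = ∑ i, c i * (u (f i) s * ph s) := by
  unfold G
  rw [Finset.sum_mul]
  refine Finset.sum_congr rfl (fun i _ => ?_)
  ring

lemma int_Gph (hf : ∀ i, 0 ≤ f i ∧ f i ≤ 1 / 2) :
    ∫ s, G f c s * ph s ∂nu = ∑ i, c i * Real.sin (π * f i) := by
  simp_rw [Gph_eq]
  rw [integral_finsetSum]
  · refine Finset.sum_congr rfl (fun i _ => ?_)
    rw [integral_const_mul, int_uph _ (hf i).1 (hf i).2]
  · intro i _
    exact (uph_int _).const_mul _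

lemma G_bound (s : ℝ) : |G f c s| ≤ ∑ i, |c i| := by
  unfold G
  refine (Finset.abs_sum_le_sum_abs _ _).trans (Finset.sum_le_sum (fun i _ => ?_))
  rw [abs_mul, abs_of_nonneg (u_nonneg _ _)]
  calc |c i| * u (f i) s ≤ |c i| * 1 := mul_le_mul_of_nonneg_left (u_le _ _) (abs_nonneg _)
    _ = |c i| := mul_one _

lemma main (hf : ∀ i, 0 ≤ f i ∧ f i ≤ 1 / 2) :
    (∑ i, c i * Real.sin (π * f i)) ^ 2 ≤ 5 * ∑ i, ∑ j, c i * c j * min (f i) (f j) := by
  set S := ∑ i, c i * Real.sin (π * f i) with hS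
  set A := ∑ i, ∑ j, c i * c j * min (f i) (f j) with hA
  have iG : Integrable (fun s => G f c s ^ 2) nu := by
    apply integ _ ((G_meas f c).pow_const 2) ((∑ i, |c i|) ^ 2)
    intro s
    rw [abs_of_nonneg (sq_nonneg _), ← sq_abs]
    exact pow_le_pow_left₀ (abs_nonneg _) (G_bound f c s) 2
  have iGp : Integrable (fun s => G f c s * ph s) nu := by
    simp_rw [Gph_eq]
    apply integrable_finsetSum
    intro i _
    exact (uph_int _).const_mul _
  have ip : Integrable (fun s => ph s ^ 2) nu := by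
    apply integ _ (ph_meas.pow_const 2) (π ^ 2)
    intro s
    rw [abs_of_nonneg (sq_nonneg _), ← sq_abs]
    exact pow_le_pow_left₀ (abs_nonneg _) (ph_bound s) 2
  have h0 : 0 ≤ ∫ s, (G f c s - (S / 5) * ph s) ^ 2 ∂nu := integral_nonneg (fun s => sq_nonneg _)
  have e : ∀ s, (G f c s - (S / 5) * ph s) ^ 2
      = G f c s ^ 2 - (2 * S / 5) * (G f c s * ph s) + (S / 5) ^ 2 * ph s ^ 2 := by
    intro s; ring
  simp_rw [e] at h0
  have e1 : ∫ s, (G f c s ^ 2 - (2 * S / 5) * (G f c s * ph s) + (S / 5) ^ 2 * ph s ^ 2) ∂nu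
      = A - (2 * S / 5) * S + (S / 5) ^ 2 * ∫ s, ph s ^ 2 ∂nu := by
    have a1 := integral_add (μ := nu) (f := fun s => G f c s ^ 2 - (2 * S / 5) * (G f c s * ph s))
      (g := fun s => (S / 5) ^ 2 * ph s ^ 2) (iG.sub (iGp.const_mul _)) (ip.const_mul _)
    have a2 := integral_sub (μ := nu) (f := fun s => G f c s ^ 2)
      (g := fun s => (2 * S / 5) * (G f c s * ph s)) iG (iGp.const_mul _)
    rw [a1, a2, integral_const_mul, integral_const_mul, int_G2 f c hf, int_Gph f c hf]
  rw [e1] at h0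
  have h5 : (S / 5) ^ 2 * ∫ s, ph s ^ 2 ∂nu ≤ (S / 5) ^ 2 * 5 :=
    mul_le_mul_of_nonneg_left int_ph2 (sq_nonneg _)
  nlinarith [h0, h5]

lemma W_eq (p q : ℝ) (hp0 : 0 ≤ p) (hp1 : p ≤ 1) (hq0 : 0 ≤ q) (hq1 : q ≤ 1) :
    Wf p q = 5 / 4 * min (min p (1 - p)) (min q (1 - q))
      - Real.sin (π * min p (1 - p)) * Real.sin (π * min q (1 - q)) / 8 := by
  have hs : ∀ p : ℝ, Real.sin (π * min p (1 - p)) = Real.sin (π * p) := by
    intro p
    rcases le_total p (1 - p) with h | h
    · rw [min_eq_left h]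
    · rw [min_eq_right h]
      have : π * (1 - p) = π - π * p := by ring
      rw [this, Real.sin_pi_sub]
  rw [hs, hs]
  unfold Wf
  have hm : min p q - kk p q = min (min p (1 - p)) (min q (1 - q)) := by
    unfold kk
    rcases le_total p q with h1 | h1 <;> rcases le_total (p + q - 1) 0 with h2 | h2 <;>
      rcases le_total p (1 - p) with h3 | h3 <;> rcases le_total q (1 - q) with h4 | h4 <;>
      simp only [min_def, max_def] <;> split_ifs <;> linarith
  rw [hm]

end

end PW_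

open PW_ in
theorem pw_proof : Stmt_PW := by
  refine ⟨fun x y => ?_, fun n x c => ?_⟩
  · show Wf x y = Wf y x
    unfold Wf kk
    rw [min_comm, add_comm (x : ℝ) (y : ℝ), mul_comm (Real.sin (π * (x : ℝ)))]
  · have hx : ∀ i, 0 ≤ ((x i : ℝ)) ∧ (x i : ℝ) ≤ 1 := fun i => (x i).2
    have hf : ∀ i, 0 ≤ min (x i : ℝ) (1 - x i) ∧ min (x i : ℝ) (1 - x i) ≤ 1 / 2 := by
      intro i
      refine ⟨le_min (hx i).1 (by linarith [(hx i).2]), ?_⟩
      rcases le_total (x i : ℝ) (1 / 2) with h | h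
      · exact (min_le_left _ _).trans h
      · exact (min_le_right _ _).trans (by linarith)
    have hm := main (fun i => min (x i : ℝ) (1 - x i)) c hf
    have e : ∑ i, ∑ j, c i * c j * Wf (x i) (x j)
        = 5 / 4 * ∑ i, ∑ j, c i * c j * min (min (x i : ℝ) (1 - x i)) (min (x j : ℝ) (1 - x j))
          - (∑ i, c i * Real.sin (π * min (x i : ℝ) (1 - x i))) ^ 2 / 8 := by
      rw [sq, Finset.sum_mul_sum, Finset.mul_sum, Finset.sum_div, ← Finset.sum_sub_distrib]
      refine Finset.sum_congr rfl (fun i _ => ?_)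
      rw [Finset.mul_sum, Finset.sum_div, ← Finset.sum_sub_distrib]
      refine Finset.sum_congr rfl (fun j _ => ?_)
      rw [W_eq _ _ (hx i).1 (hx i).2 (hx j).1 (hx j).2]
      ring
    rw [e]
    have hA : 0 ≤ (∑ i, c i * Real.sin (π * min (x i : ℝ) (1 - x i))) ^ 2 := sq_nonneg _
    linarith

end Pool.Agent.FTA
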