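import Pool.Agent.FTA.Stmts

/-! From the core to the slack, negative type. -/

open Real

namespace Pool.Agent.FTA

namespace QN_

theorem sn_pos' (x : ℝ) (h0 : 0 < x) (h1 : x ≤ 1) : 0 < sn x := by
  unfold sn
  apply Real.sin_pos_of_pos_of_lt_pi
  · positivity
  · have hpi := Real.pi_pos
    nlinarith

theorem cn_nonneg' (x : ℝ) (h0 : 0 < x) (h1 : x ≤ 1) : 0 ≤ cn x := by
  unfold cn
  have hpi := Real.pi_pos
  apply Real.cos_nonneg_of_neg_pi_div_two_le_of_le
  · have : 0 < π * x / 2 := by positivity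
    linarith
  · nlinarith

theorem sn_sq' (x : ℝ) : sn x ^ 2 = 1 - cn x ^ 2 := by
  unfold sn cn
  have := Real.sin_sq_add_cos_sq (π * x / 2)
  linarith

theorem dy0 : dy false 0 0 = 0 := by
  unfold dy
  simp

theorem gram12 (a b c : ℝ) : gram a b c (-1) = gram a c b (-1) := by
  unfold gram
  ring

theorem gram13 (a b c : ℝ) : gram a b c (-1) = gram b c a (-1) := by
  unfold gram
  ring

theorem one_pole (hP : Stmt_POLE) (p q r D X Y : ℝ) (hp : 0 < p) (hpq : p ≤ q) (hq : q ≤ 1) (hr : 0 < r)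
    (hr1 : r ≤ 1) (hD : D ^ 2 = gram p q r (-1)) (hD0 : 0 < D) (hX : X = -(tt p q r (-1)))
    (hY : Y = D / (sn p * sn q)) :
    D * poleO reA (nside p) (nside q) (kk p q / sn p) (sn q)⁻¹ X Y = F p q (-1) - F p q (tt p q r (-1)) := by
  have sp := sn_pos' p hp (by linarith)
  have sq := sn_pos' q (by linarith) hq
  have hpqs : 0 < sn p * sn q := mul_pos sp sq
  have hne : sn p * sn q ≠ 0 := ne_of_gt hpqs
  have cp := cn_nonneg' p hp (by linarith)
  have cq := cn_nonneg' q (by linarith) hq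
  have cr := cn_nonneg' r hr hr1
  have hy0 : 0 < Y := by
    rw [hY]
    exact div_pos hD0 hpqs
  have ht0 : tt p q r (-1) ≤ 0 := by
    unfold tt
    apply div_nonpos_of_nonpos_of_nonneg _ (le_of_lt hpqs)
    nlinarith [mul_nonneg cp cq]
  have hty : tt p q r (-1) ^ 2 + Y ^ 2 = 1 := by
    rw [hY]
    unfold tt
    rw [div_pow, div_pow, hD, ← add_div, div_eq_one_iff_eq (pow_ne_zero 2 hne)]
    unfold gram
    have h1 := sn_sq' p
    have h2 := sn_sq' q
    rw [mul_pow, h1, h2]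
    ring
  have hDD : D = Y * (sn p * sn q) := by
    rw [hY]
    field_simp
  rw [hX]
  exact (hP p q (tt p q r (-1)) Y D hp hpq hq hy0 hty hDD).2.1 ht0

end QN_

open QN_ in
theorem qn_proof (h1 : Stmt_ID) (h2 : Stmt_POLE) (_h3 : Stmt_TRIG) : Stmt_QN := by
  intro K a b c e0 D kz kx ha hab hbc hc he habc hD hD0 hK hkz hkx
  obtain ⟨kA, kB, kC, kisb, kisc, kyz, kyx, kyy, kxz, kxx, kxy, kbs, -⟩ := hK
  have hb : 0 < b := by linarith
  have hc0 : 0 < c := by linarith
  have hid := (h1 a b c e0 (le_of_lt ha) hab hbc hc he).2 habc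
  have hsg : sg true = -1 := by
    unfold sg
    simp
  rw [hsg] at kxz kxx kxy
  have P1 := one_pole h2 a b c D (0 - K.xz) K.yz ha hab (by linarith) hc0 hc hD hD0 (by rw [kxz]; ring) kyz
  have P2 := one_pole h2 a c b D K.xx K.yx ha (by linarith) hc hb (by linarith) (by rw [hD, gram12]) hD0
    (by rw [kxx]; ring) kyx
  have P3 := one_pole h2 b c a D K.xy K.yy hb hbc hc ha (by linarith) (by rw [hD, gram13]) hD0
    (by rw [kxy]; ring) kyy
  have hky : (K.b.t - (1 - c)) * K.isb = kk b c / sn b := by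
    rw [kB, kisb]
    have : kk b c = b + c - 1 := by
      unfold kk
      exact max_eq_left (by linarith)
    rw [this]
    show (b - (1 - c)) * (sn b)⁻¹ = _
    rw [div_eq_mul_inv]
    ring
  have hq : qN reA K (1 - b) (1 - c) kz kx =
      (K.bs + poleO reA K.a K.b kz K.isb (0 - K.xz) K.yz) +
      (poleO reA K.a K.c kx K.isc K.xx K.yx + poleO reA K.b K.c ((K.b.t - (1 - c)) * K.isb) K.isc K.xy K.yy) := by
    have e0' : qN reA K (1 - b) (1 - c) kz kx =
      (K.bs + poleO reA K.a K.b kz K.isb (dy false 0 0 - K.xz) K.yz) +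
      (poleO reA K.a K.c kx K.isc K.xx K.yx + poleO reA K.b K.c ((K.b.t - (1 - c)) * K.isb) K.isc K.xy K.yy) := rfl
    rw [e0', dy0]
  have hbs : D * K.bs = sn e0 * cn e0 * (4 * (sn a * sn b * sn c) - 2 * (sn e0 * cn e0)) / 2 - 15 / 2 * e0 := by
    rw [kbs, if_pos rfl]
  rw [hq, hky, kA, kB, kC, kisb, kisc, hkz, hkx]
  rw [mul_add, mul_add, mul_add, P1, P2, P3, hbs]
  unfold Gf
  linarith [hid]

end Pool.Agent.FTA
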