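import Pool.Agent.FTA.Stmts

/-! Module QP: from the core to the slack, positive type. -/

namespace Pool.Agent.FTA

namespace QP_

lemma ang_pos {x : ℝ} (h0 : 0 < x) (h1 : x ≤ 1) : 0 < sn x := by
  unfold sn
  apply Real.sin_pos_of_pos_of_lt_pi
  · positivity
  · nlinarith [Real.pi_pos]

lemma cn_nonneg {x : ℝ} (h0 : 0 ≤ x) (h1 : x ≤ 1) : 0 ≤ cn x := by
  unfold cn
  apply Real.cos_nonneg_of_mem_Icc
  constructor <;> nlinarith [Real.pi_pos]

lemma cn_le_one (x : ℝ) : cn x ≤ 1 := Real.cos_le_one _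

lemma cn_anti {x y : ℝ} (h0 : 0 ≤ x) (h : x ≤ y) (h1 : y ≤ 1) : cn y ≤ cn x := by
  unfold cn
  apply Real.cos_le_cos_of_nonneg_of_le_pi
  · positivity
  · nlinarith [Real.pi_pos]
  · nlinarith [Real.pi_pos]

lemma sn_sq (x : ℝ) : sn x ^ 2 = 1 - cn x ^ 2 := by
  unfold sn cn
  have := Real.sin_sq_add_cos_sq (Real.pi * x / 2)
  linarith

lemma kk_eq {b c : ℝ} (h : 1 ≤ b + c) : kk b c = b + c - 1 := by
  unfold kk
  exact max_eq_left (by linarith)

/-- the sum of squares at a pole -/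
lemma sq_one {p q r D : ℝ} (hp : 0 < sn p) (hq : 0 < sn q)
    (hD : D ^ 2 = 1 - cn p ^ 2 - cn q ^ 2 - cn r ^ 2 + 2 * (cn p * cn q * cn r)) :
    tt p q r 1 ^ 2 + (D / (sn p * sn q)) ^ 2 = 1 := by
  have h1 : (sn p * sn q) ≠ 0 := (mul_pos hp hq).ne'
  unfold tt
  rw [div_pow, div_pow, ← add_div, div_eq_one_iff_eq (pow_ne_zero 2 h1)]
  rw [hD, mul_pow, sn_sq, sn_sq]
  ring

lemma tt_nonneg {p q r : ℝ} (hp : 0 < sn p) (hq : 0 < sn q) (h : cn p * cn q ≤ cn r) :
    0 ≤ tt p q r 1 := by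
  unfold tt
  apply div_nonneg
  · linarith
  · exact (mul_pos hp hq).le

lemma D_eq {p q D : ℝ} (hp : 0 < sn p) (hq : 0 < sn q) :
    D = D / (sn p * sn q) * (sn p * sn q) := by
  rw [div_mul_cancel₀ _ (mul_pos hp hq).ne']

end QP_

open QP_ in
theorem qp_proof (h1 : Stmt_ID) (h2 : Stmt_POLE) (_h3 : Stmt_TRIG) : Stmt_QP := by
  intro K a b c e0 D kz kx kD ha hab hbc hc he0 hce hD2 hD hK hbc1 hkz hkx hkD
  obtain ⟨hKa, hKb, hKc, hib, hic, hyz, hyx, hyy, hxz, hxx, hxy, hbs, _⟩ := hK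
  have hb : 0 < b := by linarith
  have hc0 : 0 < c := by linarith
  have hb1 : b ≤ 1 := by linarith
  have ha1 : a ≤ 1 := by linarith
  have sa := ang_pos ha ha1
  have sb := ang_pos hb hb1
  have sc := ang_pos hc0 hc
  have ca := cn_nonneg ha.le ha1
  have cb := cn_nonneg hb.le hb1
  have cc := cn_nonneg hc0.le hc
  have hcab := cn_anti ha.le hab hb1
  have hcbc := cn_anti hb.le hbc hc
  have ca1 := cn_le_one a
  have cb1 := cn_le_one b
  have cc1 := cn_le_one c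
  have sgf : sg false = 1 := by simp [sg]
  rw [sgf] at hxz hxx hxy
  rw [one_mul] at hxx hxy
  unfold gram at hD2
  have hDz : D ^ 2 = 1 - cn a ^ 2 - cn b ^ 2 - cn c ^ 2 + 2 * (cn a * cn b * cn c) := by
    rw [hD2]; ring
  have hDx : D ^ 2 = 1 - cn a ^ 2 - cn c ^ 2 - cn b ^ 2 + 2 * (cn a * cn c * cn b) := by
    rw [hD2]; ring
  have hDy : D ^ 2 = 1 - cn b ^ 2 - cn c ^ 2 - cn a ^ 2 + 2 * (cn b * cn c * cn a) := by
    rw [hD2]; ring
  have qz := sq_one sa sb hDz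
  have qx := sq_one sa sc hDx
  have qy := sq_one sb sc hDy
  have yz0 : 0 < D / (sn a * sn b) := div_pos hD (mul_pos sa sb)
  have yx0 : 0 < D / (sn a * sn c) := div_pos hD (mul_pos sa sc)
  have yy0 : 0 < D / (sn b * sn c) := div_pos hD (mul_pos sb sc)
  have tx0 : 0 ≤ tt a c b 1 := tt_nonneg sa sc (by nlinarith)
  have ty0 : 0 ≤ tt b c a 1 := tt_nonneg sb sc (by nlinarith)
  obtain ⟨_, pO, pE⟩ := h2 a b (tt a b c 1) (D / (sn a * sn b)) D ha hab hb1 yz0 qz (D_eq sa sb)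
  obtain ⟨pAx, _, _⟩ := h2 a c (tt a c b 1) (D / (sn a * sn c)) D ha (hab.trans hbc) hc yx0 qx
    (D_eq sa sc)
  obtain ⟨pAy, _, _⟩ := h2 b c (tt b c a 1) (D / (sn b * sn c)) D hb hbc hc yy0 qy (D_eq sb sc)
  have pAx := pAx tx0
  have pAy := pAy ty0
  have hid := (h1 a b c e0 ha.le hab hbc hc he0).1 hce
  have hky : (b - (1 - c)) * (sn b)⁻¹ = kk b c / sn b := by
    rw [kk_eq hbc1]; rw [div_eq_mul_inv]; ring
  have hz0 : reA.sub (reA.cst false 0 0) K.xz = - tt a b c 1 := by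
    show dy false 0 0 - K.xz = _
    rw [hxz]; unfold dy; simp
  have hkyP : reA.mul (reA.sub K.b.t (1 - c)) K.isb = kk b c / sn b := by
    show (K.b.t - (1 - c)) * K.isb = _
    rw [hKb, hib]
    show (b - (1 - c)) * (sn b)⁻¹ = _
    exact hky
  have hbs' : D * K.bs = sn e0 * cn e0 * (4 * (sn a * sn b * sn c) - 2 * (sn e0 * cn e0)) / 2
    - 5 / 2 * e0 := by
    rw [hbs]; simp
  have key : D * (K.bs - 5 / 2 ^ 1 * kD) = 2 - a - b - c - F a b (-1) - F a c 1 - F b c 1 := by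
    rw [hid, mul_sub, hbs', ← hkD]; ring
  constructor
  · intro hneg
    have pO := pO hneg
    show 2 - a - b - c - F a b (tt a b c 1) - F a c (tt a c b 1) - F b c (tt b c a 1) = _
    have e : qP reA false K (1 - c) kz kx kD =
        ((K.bs - 5 / 2 ^ 1 * kD) +
          poleO reA (nside a) (nside b) (kk a b / sn a) (sn b)⁻¹ (-tt a b c 1) (D / (sn a * sn b))) +
        (poleA reA (nside a) (nside c) (kk a c / sn a) (sn c)⁻¹ (tt a c b 1) (D / (sn a * sn c)) +
          poleA reA (nside b) (nside c) (kk b c / sn b) (sn c)⁻¹ (tt b c a 1) (D / (sn b * sn c))) := by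
      unfold qP
      rw [hkyP, hz0, hKa, hKb, hKc, hib, hic, hyz, hyx, hyy, hxx, hxy, hkz, hkx]
      rfl
    rw [e]
    have : D * ((K.bs - 5 / 2 ^ 1 * kD) +
          poleO reA (nside a) (nside b) (kk a b / sn a) (sn b)⁻¹ (-tt a b c 1) (D / (sn a * sn b)) +
        (poleA reA (nside a) (nside c) (kk a c / sn a) (sn c)⁻¹ (tt a c b 1) (D / (sn a * sn c)) +
          poleA reA (nside b) (nside c) (kk b c / sn b) (sn c)⁻¹ (tt b c a 1) (D / (sn b * sn c)))) =
        D * (K.bs - 5 / 2 ^ 1 * kD) +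
          D * poleO reA (nside a) (nside b) (kk a b / sn a) (sn b)⁻¹ (-tt a b c 1) (D / (sn a * sn b)) +
        (D * poleA reA (nside a) (nside c) (kk a c / sn a) (sn c)⁻¹ (tt a c b 1) (D / (sn a * sn c)) +
          D * poleA reA (nside b) (nside c) (kk b c / sn b) (sn c)⁻¹ (tt b c a 1)
            (D / (sn b * sn c))) := by ring
    rw [this, key, pO, pAx, pAy]
    ring
  · intro hpos
    have pE := pE hpos
    show 2 - a - b - c - F a b (tt a b c 1) - F a c (tt a c b 1) - F b c (tt b c a 1) = _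
    have e : qP reA true K (1 - c) kz kx kD =
        ((K.bs - 5 / 2 ^ 1 * kD) +
          poleE reA (nside a) (nside b) (kk a b / sn a) (sn b)⁻¹ (tt a b c 1) (D / (sn a * sn b))) +
        (poleA reA (nside a) (nside c) (kk a c / sn a) (sn c)⁻¹ (tt a c b 1) (D / (sn a * sn c)) +
          poleA reA (nside b) (nside c) (kk b c / sn b) (sn c)⁻¹ (tt b c a 1) (D / (sn b * sn c))) := by
      unfold qP
      rw [hkyP, hKa, hKb, hKc, hib, hic, hyz, hyx, hyy, hxz, hxx, hxy, hkz, hkx]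
      rfl
    rw [e]
    have : D * ((K.bs - 5 / 2 ^ 1 * kD) +
          poleE reA (nside a) (nside b) (kk a b / sn a) (sn b)⁻¹ (tt a b c 1) (D / (sn a * sn b)) +
        (poleA reA (nside a) (nside c) (kk a c / sn a) (sn c)⁻¹ (tt a c b 1) (D / (sn a * sn c)) +
          poleA reA (nside b) (nside c) (kk b c / sn b) (sn c)⁻¹ (tt b c a 1) (D / (sn b * sn c)))) =
        D * (K.bs - 5 / 2 ^ 1 * kD) +
          D * poleE reA (nside a) (nside b) (kk a b / sn a) (sn b)⁻¹ (tt a b c 1) (D / (sn a * sn b)) +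
        (D * poleA reA (nside a) (nside c) (kk a c / sn a) (sn c)⁻¹ (tt a c b 1) (D / (sn a * sn c)) +
          D * poleA reA (nside b) (nside c) (kk b c / sn b) (sn c)⁻¹ (tt b c a 1)
            (D / (sn b * sn c))) := by ring
    rw [this, key, pE, pAx, pAy]
    ring

end Pool.Agent.FTA
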