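import Pool.Agent.FTA.Stmts

open Real

namespace Pool.Agent.FTA

namespace REF_

theorem radd (x y : ℝ) : reA.add x y = x + y := rfl
theorem rsub (x y : ℝ) : reA.sub x y = x - y := rfl
theorem rmul (x y : ℝ) : reA.mul x y = x * y := rfl
theorem rsmul (p q : ℕ) (x : ℝ) : reA.smul p q x = (p : ℝ) / 2 ^ q * x := rfl
theorem rinv (x : ℝ) : reA.inv x = x⁻¹ := rfl
theorem rrsq (x : ℝ) : reA.rsq x = (√x)⁻¹ := rfl
theorem rcst (s : Bool) (p q : ℕ) : reA.cst s p q = dy s p q := rfl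

theorem dy00 : dy false 0 0 = 0 := by simp [dy]
theorem dy10 : dy false 1 0 = 1 := by simp [dy]
theorem rone : Alg.one reA = 1 := by
  show reA.cst false 1 0 = 1
  rw [rcst, dy10]
theorem rom (x : ℝ) : Alg.om reA x = 1 - x := by
  show reA.sub (Alg.one reA) x = 1 - x
  rw [rsub, rone]
theorem rop (x : ℝ) : Alg.op reA x = 1 + x := by
  show reA.add (Alg.one reA) x = 1 + x
  rw [radd, rone]
theorem rdbl (x : ℝ) : Alg.dbl reA x = 2 * x := by
  show reA.smul 2 0 x = 2 * x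
  rw [rsmul]; norm_num

theorem sn1 : sn 1 = 1 := by
  unfold sn
  rw [show π * 1 / 2 = π / 2 by ring, Real.sin_pi_div_two]
theorem cn1 : cn 1 = 0 := by
  unfold cn
  rw [show π * 1 / 2 = π / 2 by ring, Real.cos_pi_div_two]

theorem sncn (a : ℝ) : sn a ^ 2 + cn a ^ 2 = 1 := by
  unfold sn cn; exact Real.sin_sq_add_cos_sq _

theorem sn_pos (a : ℝ) (h0 : 0 < a) (h1 : a < 1) : 0 < sn a := by
  unfold sn
  apply Real.sin_pos_of_pos_of_lt_pi
  · positivity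
  · nlinarith [Real.pi_pos]

theorem De1 : De 1 = 0 := by unfold De; rw [sn1]; ring

theorem T2cn (a t : ℝ) (h0 : 0 < a) (h1 : a < 1) (ht : t ^ 2 = cn a ^ 2) : T2 t = 1 - 2 * a := by
  unfold T2
  rw [ht]
  have e : 2 * cn a ^ 2 - 1 = Real.sin (π / 2 - π * a) := by
    rw [Real.sin_pi_div_two_sub]
    unfold cn
    have := Real.cos_two_mul (π * a / 2)
    rw [show 2 * (π * a / 2) = π * a by ring] at this
    rw [this]
  rw [e, Real.arcsin_sin]
  · field_simp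
  · nlinarith [Real.pi_pos]
  · nlinarith [Real.pi_pos]

theorem Fa10 (a : ℝ) : F a 1 0 = -1 / 3 - De a / 4 := by
  have hT2 : T2 0 = -1 := by
    unfold T2
    rw [show (2 : ℝ) * 0 ^ 2 - 1 = -1 by ring, Real.arcsin_neg_one]
    field_simp
  have hT1 : T1 0 = 0 := by unfold T1; rw [Real.arcsin_zero]; ring
  unfold F
  rw [hT2, hT1]
  unfold p0 p2 p3
  rw [De1]
  ring

theorem F11 (a t : ℝ) (h0 : 0 < a) (h1 : a < 1) (ht : t ^ 2 = cn a ^ 2) :
    F 1 1 t = 2 / 3 - a + De a / 2 := by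
  have hW : Wf 1 1 = 0 := by
    unfold Wf kk
    rw [show π * 1 = π by ring, Real.sin_pi]
    norm_num
  have hR : Rf 1 1 = 0 := by
    unfold Rf kk
    rw [De1]
    norm_num
  unfold F
  rw [T2cn a t h0 h1 ht, hW, hR, ht]
  unfold p0 p2 p3
  rw [De1]
  have := sncn a
  unfold De
  have h2 : cn a ^ 2 = 1 - sn a ^ 2 := by linarith
  rw [h2]
  ring

theorem Gf0 (a s : ℝ) (h0 : 0 < a) (h1 : a < 1) (hs : s ^ 2 = 1) : Gf a 1 1 s = 0 := by
  have e1 : tt a 1 1 s = 0 := by unfold tt; rw [cn1]; simp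
  have e2 : tt 1 1 a s = s * cn a := by unfold tt; rw [cn1, sn1]; ring
  unfold Gf
  rw [e1, e2, Fa10, F11 a (s * cn a) h0 h1 (by rw [mul_pow, hs, one_mul])]
  ring

theorem gram1 (a s : ℝ) (h0 : 0 < a) (h1 : a < 1) : gram a 1 1 s = sn a ^ 2 := by
  unfold gram
  rw [cn1]
  have := sncn a
  linarith [this]

theorem sqg (a s : ℝ) (h0 : 0 < a) (h1 : a < 1) : √(gram a 1 1 s) = sn a := by
  rw [gram1 a s h0 h1]
  exact Real.sqrt_sq (sn_pos a h0 h1).le

theorem core1 (h : Stmt_CORE) (neg : Bool) (a : ℝ) (h0 : 0 < a) (h1 : a < 1) :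
    CoreVal (core reA neg a 0 0 (1 / 2) (1 / 2) 1) neg a 1 1 (a / 2) (sn a) := by
  have := (h neg a 0 0 (1 / 2) (1 / 2) 1 h0 (by linarith) le_rfl le_rfl (by norm_num) le_rfl (by norm_num)
    one_pos (by norm_num) (by cases neg <;> simp)).2
  rw [sub_zero, sqg a _ h0 h1] at this
  rw [show a * (1 / 2) = a / 2 by ring] at this
  exact this

theorem kk1 (a : ℝ) (h0 : 0 < a) : kk a 1 = a := by
  unfold kk
  rw [show a + 1 - 1 = a by ring]
  exact max_eq_left h0.le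

theorem half1 : reA.smul 1 1 (1 : ℝ) = 1 / 2 := by rw [rsmul]; norm_num

theorem rsq11 : reA.rsq (1 : ℝ) = 1 := by rw [rrsq]; simp

theorem ccore1 (neg : Bool) (a be gm : ℝ) (hb : be = 0) (hg : gm = 0) :
    ccore reA neg a 0 be gm = core reA neg a 0 0 (1 / 2) (1 / 2) 1 := by
  subst hb; subst hg
  unfold ccore
  simp only [rom, rop, rmul, sub_zero, add_zero, mul_one, one_mul, half1, rsq11]

theorem partN (h1 : Stmt_CORE) (h2 : Stmt_QN) (a x : ℝ) (ha : 0 < a) (ha1 : a < 1) :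
    eN reA a 0 x = 0 := by
  have K1 := core1 h1 true a ha ha1
  have hsn := sn_pos a ha ha1
  have e : eN reA a 0 x = qN reA (core reA true a 0 0 (1 / 2) (1 / 2) 1) 0 0
      ((core reA true a 0 0 (1 / 2) (1 / 2) 1).a.i) ((core reA true a 0 0 (1 / 2) (1 / 2) 1).a.i) := by
    unfold eN
    simp only [rmul, rsmul, rsub, rom, zero_mul, mul_zero, sub_zero, mul_one,
      ccore1 true a 0 0 rfl rfl]
  rw [e]
  have hi : (core reA true a 0 0 (1 / 2) (1 / 2) 1).a.i = a / sn a := by rw [K1.1]; rfl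
  rw [hi]
  have := h2 _ a 1 1 (a / 2) (sn a) (a / sn a) (a / sn a) ha ha1.le le_rfl le_rfl (by linarith)
    (by ring) (gram1 a (-1) ha ha1).symm hsn K1 (by rw [kk1 a ha]) (by rw [kk1 a ha])
  rw [Gf0 a (-1) ha ha1 (by norm_num), sub_self] at this
  rcases mul_eq_zero.1 this.symm with h | h
  · exact absurd h hsn.ne'
  · exact h

theorem ac0 (h5 : Stmt_PRIM) : Alg.ac reA 0 = 1 := by
  rw [h5.2.2.1 0 le_rfl zero_le_one]
  unfold acR
  rw [if_neg (by norm_num), Real.arccos_zero]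
  norm_num

theorem qP_kink (h5 : Stmt_PRIM) (ev : Bool) (K : Core ℝ) (kz kx kD : ℝ) (hisb : K.isb = 1) (hisc : K.isc = 1)
    (hyz : K.yz = 1) (hyx : K.yx = 1) (hxz : K.xz = 0) (hxx : K.xx = 0) :
    qP reA ev K 0 kz kx kD = qP reA ev K 0 0 0 0 + 5 / 2 * (kz - kD) := by
  have hac := ac0 h5
  cases ev
  · simp only [qP, poleO, poleE, poleA, evenP, oddP, Wp, Rp, hisb, hisc, hyz, hyx, hxz, hxx, rcst, dy00, radd,
      rsub, rmul, rsmul, rinv, rom, rop, rdbl, sub_zero, hac]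
    norm_num
    ring
  · simp only [qP, poleO, poleE, poleA, evenP, oddP, Wp, Rp, hisb, hisc, hyz, hyx, hxz, hxx, rcst, dy00, radd,
      rsub, rmul, rsmul, rinv, rom, rop, rdbl, sub_zero, hac]
    norm_num
    ring

theorem tt0 (a s : ℝ) : tt a 1 1 s = 0 := by unfold tt; rw [cn1]; simp

theorem kzero (h1 : Stmt_CORE) (h3 : Stmt_QP) (h5 : Stmt_PRIM) (a : ℝ) (ha : 0 < a) (ha1 : a < 1) (ev : Bool)
    (kz kx kD : ℝ) (hk : kz = kD) :
    qP reA ev (core reA false a 0 0 (1 / 2) (1 / 2) 1) 0 kz kx kD = 0 := by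
  have K1 := core1 h1 false a ha ha1
  have hsn := sn_pos a ha ha1
  have hisb : (core reA false a 0 0 (1 / 2) (1 / 2) 1).isb = 1 := by rw [K1.2.2.2.1, sn1, inv_one]
  have hisc : (core reA false a 0 0 (1 / 2) (1 / 2) 1).isc = 1 := by rw [K1.2.2.2.2.1, sn1, inv_one]
  have hyz : (core reA false a 0 0 (1 / 2) (1 / 2) 1).yz = 1 := by
    rw [K1.2.2.2.2.2.1, sn1, mul_one]; exact div_self hsn.ne'
  have hyx : (core reA false a 0 0 (1 / 2) (1 / 2) 1).yx = 1 := by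
    rw [K1.2.2.2.2.2.2.1, sn1, mul_one]; exact div_self hsn.ne'
  have hxz : (core reA false a 0 0 (1 / 2) (1 / 2) 1).xz = 0 := by
    rw [K1.2.2.2.2.2.2.2.2.1, tt0]
  have hxx : (core reA false a 0 0 (1 / 2) (1 / 2) 1).xx = 0 := by
    rw [K1.2.2.2.2.2.2.2.2.2.1, tt0, mul_zero]
  have hq := h3 _ a 1 1 (a / 2) (sn a) (a / sn a) (a / sn a) (a / sn a) ha ha1.le le_rfl le_rfl (by linarith)
    (by ring) (gram1 a 1 ha ha1).symm hsn K1 (by norm_num) (by rw [kk1 a ha]) (by rw [kk1 a ha])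
    (by rw [kk1 a ha]; field_simp)
  rw [Gf0 a 1 ha ha1 (by norm_num), sub_self, tt0] at hq
  have hv : qP reA ev (core reA false a 0 0 (1 / 2) (1 / 2) 1) 0 (a / sn a) (a / sn a) (a / sn a) = 0 := by
    cases ev
    · rcases mul_eq_zero.1 (hq.1 le_rfl).symm with h | h
      · exact absurd h hsn.ne'
      · exact h
    · rcases mul_eq_zero.1 (hq.2 le_rfl).symm with h | h
      · exact absurd h hsn.ne'
      · exact h
  rw [qP_kink h5 ev _ kz kx kD hisb hisc hyz hyx hxz hxx, hk, sub_self, mul_zero, add_zero]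
  rw [qP_kink h5 ev _ (a / sn a) (a / sn a) (a / sn a) hisb hisc hyz hyx hxz hxx, sub_self, mul_zero, add_zero] at hv
  exact hv

theorem kdval (h1 : Stmt_CORE) (a : ℝ) (ha : 0 < a) (ha1 : a < 1) :
    (core reA false a 0 0 (1 / 2) (1 / 2) 1).a.i = (core reA false a 0 0 (1 / 2) (1 / 2) 1).kd := by
  have K1 := core1 h1 false a ha ha1
  have hsn := sn_pos a ha ha1
  have hi : (core reA false a 0 0 (1 / 2) (1 / 2) 1).a.i = a / sn a := by rw [K1.1]; rfl
  have hk : sn a * (core reA false a 0 0 (1 / 2) (1 / 2) 1).kd = 2 * (a / 2) := K1.2.2.2.2.2.2.2.2.2.2.2.2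
  rw [hi]
  rw [div_eq_iff hsn.ne']
  linarith

theorem partP (h1 : Stmt_CORE) (h3 : Stmt_QP) (h5 : Stmt_PRIM) (a : ℝ) (ha : 0 < a) (ha1 : a < 1) (ev : Bool)
    (m : ℕ) (hm : m < 3) : eP reA m ev a 0 0 = 0 := by
  have hk := kdval h1 a ha ha1
  have hc : ccore reA false a 0 (reA.add 0 (reA.mul a 0)) 0 = core reA false a 0 0 (1 / 2) (1 / 2) 1 :=
    ccore1 false a _ _ (by rw [radd, rmul]; ring) rfl
  have hz := fun kz kx kD hk => kzero h1 h3 h5 a ha ha1 ev kz kx kD hk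
  interval_cases m
  · show qP reA ev (ccore reA false a 0 (reA.add 0 (reA.mul a 0)) 0) 0 _ _ _ = 0
    rw [hc]
    apply hz
    rw [rmul, rom, sub_zero, mul_one]
    exact hk
  · show qP reA ev (ccore reA false a 0 (reA.add 0 (reA.mul a 0)) 0) 0 _ _ _ = 0
    rw [hc]
    apply hz
    rfl
  · show qP reA ev (ccore reA false a 0 (reA.add 0 (reA.mul a 0)) 0) 0 _ _ _ = 0
    rw [hc]
    apply hz
    rfl

theorem partF (h1 : Stmt_CORE) (h3 : Stmt_QP) (h5 : Stmt_PRIM) (a : ℝ) (ha : 0 < a) (ha1 : a < 1) (ev : Bool) :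
    eF reA ev a 0 0 = 0 := by
  have hk := kdval h1 a ha ha1
  have hc : ccore reA false a 0 (reA.mul a (reA.add 0 0)) (reA.mul a 0) = core reA false a 0 0 (1 / 2) (1 / 2) 1 :=
    ccore1 false a _ _ (by rw [radd, rmul]; ring) (by rw [rmul]; ring)
  show qP reA ev (ccore reA false a 0 (reA.mul a (reA.add 0 0)) (reA.mul a 0)) (reA.mul a 0) _ _ _ = 0
  rw [hc, show reA.mul a 0 = 0 by rw [rmul, mul_zero]]
  apply kzero h1 h3 h5 a ha ha1 ev
  rw [rmul, rmul, rmul, rsub, rom, rom, rinv, sub_zero, sub_zero, zero_mul, sub_zero, mul_one, one_mul]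
  exact hk

theorem sc0 (h5 : Stmt_PRIM) : Alg.sc reA 0 = π / 2 := by
  rw [h5.1 0 (by norm_num)]
  unfold scR
  rw [if_pos rfl]

theorem cs0 (h5 : Stmt_PRIM) : Alg.cs reA 0 = 1 := by
  rw [h5.2.1 0 (by norm_num)]
  unfold cn
  simp

theorem ac1 (h5 : Stmt_PRIM) : Alg.ac reA 1 = 2 / π := by
  rw [h5.2.2.1 1 zero_le_one le_rfl]
  unfold acR
  rw [if_pos rfl]

theorem partV (h5 : Stmt_PRIM) : (cV reA false 1 0 0).o = 0 := by
  have hs := sc0 h5
  have hc := cs0 h5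
  have ha := ac1 h5
  have hpi : π ≠ 0 := Real.pi_ne_zero
  have h2 : (√2 : ℝ) ≠ 0 := by positivity
  simp only [cV, radd, rsub, rmul, rsmul, rinv, rrsq, rcst, dy00, rom, rop, rdbl, rone, mul_zero, zero_mul,
    add_zero, zero_add, sub_zero, mul_one, one_mul, inv_one, hs, hc, vA, vO, vpole, vev, evenP, oddP, side, zero_sub]
  have e1 : (π / 2 * ((1 + 1) * (π / 2)) * ((π / 2)⁻¹ * ((1 + 1) * (π / 2))⁻¹) : ℝ) = 1 := by field_simp
  have e2 : (-(-(π / 2 * (π / 2)) * ((π / 2)⁻¹ * (π / 2)⁻¹)) : ℝ) = 1 := by field_simp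
  rw [e1, e2, ha]
  push_cast
  field_simp
  norm_num

end REF_

theorem ref_proof (h1 : Stmt_CORE) (h2 : Stmt_QN) (h3 : Stmt_QP) (_h4 : Stmt_AFF) (h5 : Stmt_PRIM) : Stmt_REF :=
  ⟨fun a x ha ha1 _ _ => REF_.partN h1 h2 a x ha ha1,
   fun a ha ha1 ev m hm => REF_.partP h1 h3 h5 a ha ha1 ev m hm,
   fun a ha ha1 ev => REF_.partF h1 h3 h5 a ha ha1 ev,
   REF_.partV h5⟩

end Pool.Agent.FTA
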