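import Pool.Agent.FTA.Stmts

/-! Module RSQ: soundness of the reciprocal square root. -/

namespace Pool.Agent.FTA

namespace RSQ_

theorem add_ok {a b : TM} (h : (TM.add a b).ok = true) : a.ok = true ∧ b.ok = true := by
  cases a with
  | mk aN an ar ao =>
    cases b with
    | mk bN bn br bo =>
      have h' : (Bool.and (Bool.and ao bo) (Nat.ble (Nat.add an bn) 0x8000000000)) = true := h
      rw [Bool.and_eq_true, Bool.and_eq_true] at h'
      exact h'.1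

theorem mul_ok {a b : TM} (h : (TM.mul a b).ok = true) : a.ok = true ∧ b.ok = true := by
  cases a with
  | mk aN an ar ao =>
    cases b with
    | mk bN bn br bo =>
      have h' : (Bool.and (Bool.and ao bo) (Nat.ble (Nat.mul an bn) 0x200000000000000000)) = true := h
      rw [Bool.and_eq_true, Bool.and_eq_true] at h'
      exact h'.1

theorem smul_ok {p q : ℕ} {a : TM} (h : (TM.smul p q a).ok = true) : a.ok = true := by
  cases a with
  | mk aN an ar ao =>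
    have h' : (Bool.and ao (Bool.and (Nat.ble q 30) (Nat.ble (Nat.mul an p) (Nat.mul 0x8000000000 (Nat.pow 2 q))))) = true := h
    rw [Bool.and_eq_true] at h'
    exact h'.1

theorem rad_ok (a : TM) (e : ℕ) (o : Bool) : (TM.rad a e o).ok = Bool.and a.ok o := by
  cases a with
  | mk aN an ar ao => rfl

/-- the cubic -/
noncomputable def P (e : ℝ) : ℝ := 1 + e * (e * (3 / 8 - 5 / 16 * e) - 1 / 2)

theorem aux (e s c : ℝ) (hs : 0 < s) (hs2 : s ^ 2 = 1 + e) (hP : 0 ≤ P e)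
    (hg : |-(35 / 64) + 7 / 32 * e - 35 / 256 * e ^ 2 + 25 / 256 * e ^ 3| ≤ c * s) :
    |s⁻¹ - P e| ≤ c * e ^ 4 := by
  have h1 : (P e * s - 1) * (P e * s + 1) =
      e ^ 4 * (-(35 / 64) + 7 / 32 * e - 35 / 256 * e ^ 2 + 25 / 256 * e ^ 3) := by
    have : (P e * s - 1) * (P e * s + 1) = P e ^ 2 * s ^ 2 - 1 := by ring
    rw [this, hs2]
    unfold P
    ring
  have h2 : 1 ≤ P e * s + 1 := by
    have := mul_nonneg hP hs.le
    linarith
  have h3 : |P e * s - 1| ≤ e ^ 4 * (c * s) := by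
    have h4 : |P e * s - 1| * (P e * s + 1) ≤ e ^ 4 * (c * s) := by
      rw [← abs_of_pos (lt_of_lt_of_le one_pos h2), ← abs_mul, h1, abs_mul, abs_of_nonneg (by positivity)]
      exact mul_le_mul_of_nonneg_left hg (by positivity)
    refine le_trans ?_ h4
    exact le_mul_of_one_le_right (abs_nonneg _) h2
  have h5 : s⁻¹ - P e = -((P e * s - 1) / s) := by
    field_simp
    ring
  rw [h5, abs_neg, abs_div, abs_of_pos hs, div_le_iff₀ hs]
  calc |P e * s - 1| ≤ e ^ 4 * (c * s) := h3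
    _ = c * e ^ 4 * s := by ring

theorem P_nonneg {e : ℝ} (h : |e| ≤ 1 / 2) : 0 ≤ P e := by
  obtain ⟨h1, h2⟩ := abs_le.1 h
  have e1 : e ^ 2 ≤ 1 / 4 := by nlinarith
  have e2 : -(1 / 8) ≤ -(5 / 16 * e) * e ^ 2 := by nlinarith [sq_nonneg e]
  unfold P
  nlinarith [sq_nonneg e]

theorem cubic_bd {e : ℝ} {r : ℝ} (h : |e| ≤ r) : |-(35 / 64) + 7 / 32 * e - 35 / 256 * e ^ 2 + 25 / 256 * e ^ 3| ≤
    35 / 64 + 7 / 32 * r + 35 / 256 * r ^ 2 + 25 / 256 * r ^ 3 := by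
  have h0 : 0 ≤ |e| := abs_nonneg e
  have hr : 0 ≤ r := h0.trans h
  have h2 : |e| ^ 2 ≤ r ^ 2 := pow_le_pow_left₀ h0 h 2
  have h3 : |e| ^ 3 ≤ r ^ 3 := pow_le_pow_left₀ h0 h 3
  have a1 : |-(35 / 64) + 7 / 32 * e - 35 / 256 * e ^ 2 + 25 / 256 * e ^ 3| ≤
      |(-(35 / 64) : ℝ)| + |7 / 32 * e| + |35 / 256 * e ^ 2| + |25 / 256 * e ^ 3| := by
    have b1 := abs_add_le (-(35 / 64) + 7 / 32 * e - 35 / 256 * e ^ 2) (25 / 256 * e ^ 3)
    have b2 := abs_sub (-(35 / 64) + 7 / 32 * e) (35 / 256 * e ^ 2)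
    have b3 := abs_add_le (-(35 / 64) : ℝ) (7 / 32 * e)
    linarith
  have a2 : |(-(35 / 64) : ℝ)| = 35 / 64 := by norm_num
  have a3 : |7 / 32 * e| = 7 / 32 * |e| := by rw [abs_mul]; norm_num
  have a4 : |35 / 256 * e ^ 2| = 35 / 256 * |e| ^ 2 := by rw [abs_mul, abs_pow]; norm_num
  have a5 : |25 / 256 * e ^ 3| = 25 / 256 * |e| ^ 3 := by rw [abs_mul, abs_pow]; norm_num
  rw [a2, a3, a4, a5] at a1
  linarith

theorem key (ex y x : ℝ) (hy : 0 ≤ y) (hex : ex = (y / 2 ^ 30) ^ 2 * x - 1) (h2 : |ex| ≤ 1 / 2) :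
    0 < x ∧ |(√x)⁻¹ - y / 2 ^ 30 * P ex| * 2 ^ 30 ≤ y * 7 * ex ^ 4 ∧
      (|ex| ≤ 1 / 4 → |(√x)⁻¹ - y / 2 ^ 30 * P ex| * 2 ^ 30 ≤ y * 1 * ex ^ 4) := by
  have hab := abs_le.1 h2
  have h1e : 1 / 2 ≤ 1 + ex := by linarith [hab.1]
  have hxy : (y / 2 ^ 30) ^ 2 * x = 1 + ex := by rw [hex]; ring
  have hy0 : y ≠ 0 := by
    rintro rfl
    norm_num at hxy
    linarith
  have hypos : 0 < y := lt_of_le_of_ne hy hy0.symm
  have hx : 0 < x := by
    by_contra hc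
    push Not at hc
    have : (y / 2 ^ 30) ^ 2 * x ≤ 0 := mul_nonpos_of_nonneg_of_nonpos (by positivity) hc
    rw [hxy] at this
    linarith
  have hs : 0 < √(1 + ex) := Real.sqrt_pos.2 (by linarith)
  have hs2 : √(1 + ex) ^ 2 = 1 + ex := Real.sq_sqrt (by linarith)
  have hrt : √(1 + ex) = y / 2 ^ 30 * √x := by
    rw [← hxy, Real.sqrt_mul (by positivity), Real.sqrt_sq (by positivity)]
  have hinv : (√x)⁻¹ = y / 2 ^ 30 * (√(1 + ex))⁻¹ := by
    rw [hrt]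
    have : √x ≠ 0 := (Real.sqrt_pos.2 hx).ne'
    field_simp
  have hdiff : |(√x)⁻¹ - y / 2 ^ 30 * P ex| * 2 ^ 30 = y * |(√(1 + ex))⁻¹ - P ex| := by
    rw [hinv, ← mul_sub, abs_mul, abs_of_nonneg (by positivity : 0 ≤ y / 2 ^ 30)]
    ring
  have hsl : (7 / 10 : ℝ) ≤ √(1 + ex) := by
    apply Real.le_sqrt_of_sq_le
    norm_num
    linarith
  refine ⟨hx, ?_, ?_⟩
  · rw [hdiff, mul_assoc]
    refine mul_le_mul_of_nonneg_left (aux ex _ 7 hs hs2 (P_nonneg h2) ?_) hy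
    refine (cubic_bd h2).trans ?_
    norm_num
    linarith
  · intro h4
    rw [hdiff, mul_assoc]
    refine mul_le_mul_of_nonneg_left (aux ex _ 1 hs hs2 (P_nonneg h2) ?_) hy
    refine (cubic_bd h4).trans ?_
    norm_num
    linarith

theorem round (y c E : ℕ) (ex : ℝ) (h : |ex| * 2 ^ 30 ≤ (E : ℝ)) :
    (y : ℝ) * (c : ℝ) * ex ^ 4 ≤ ((Nat.add (Nat.shiftRight (Nat.mul (Nat.mul y c) (Nat.mul (Nat.mul E E) (Nat.mul E E))) 120) 1 : ℕ) : ℝ) := by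
  have e1 : (Nat.add (Nat.shiftRight (Nat.mul (Nat.mul y c) (Nat.mul (Nat.mul E E) (Nat.mul E E))) 120) 1 : ℕ)
      = (y * c * (E * E * (E * E))) / 2 ^ 120 + 1 := by
    show ((y * c * (E * E * (E * E))) >>> 120) + 1 = _
    rw [Nat.shiftRight_eq_div_pow]
  rw [e1]
  push_cast
  have h1 : ((y * c * (E * E * (E * E)) : ℕ) : ℝ) / 2 ^ 120 < (((y * c * (E * E * (E * E))) / 2 ^ 120 : ℕ) : ℝ) + 1 := by
    have h2 := Nat.lt_div_mul_add (a := y * c * (E * E * (E * E))) (b := 2 ^ 120) (by positivity)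
    have h3 : ((y * c * (E * E * (E * E)) : ℕ) : ℝ) <
        ((((y * c * (E * E * (E * E))) / 2 ^ 120 * 2 ^ 120 + 2 ^ 120 : ℕ)) : ℝ) := by exact_mod_cast h2
    rw [div_lt_iff₀ (by positivity)]
    push_cast at h3 ⊢
    linarith
  have h4 : ex ^ 4 ≤ ((E : ℝ) / 2 ^ 30) ^ 4 := by
    have h5 : |ex| ≤ (E : ℝ) / 2 ^ 30 := by rw [le_div_iff₀ (by positivity)]; exact h
    have h6 : |ex| ^ 4 = ex ^ 4 := by
      rw [show (4 : ℕ) = 2 * 2 by norm_num, pow_mul, sq_abs, ← pow_mul]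
    rw [← h6]
    exact pow_le_pow_left₀ (abs_nonneg _) h5 4
  have h7 : (y : ℝ) * (c : ℝ) * ex ^ 4 ≤ ((y * c * (E * E * (E * E)) : ℕ) : ℝ) / 2 ^ 120 := by
    calc (y : ℝ) * (c : ℝ) * ex ^ 4 ≤ (y : ℝ) * (c : ℝ) * ((E : ℝ) / 2 ^ 30) ^ 4 :=
          mul_le_mul_of_nonneg_left h4 (by positivity)
      _ = ((y * c * (E * E * (E * E)) : ℕ) : ℝ) / 2 ^ 120 := by push_cast; ring
  have h8 := h7.trans h1.le
  exact_mod_cast h8

end RSQ_

open RSQ_ in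
theorem rsq_proof (h1 : Stmt_LIN) (h2 : Stmt_MUL) (h3 : Stmt_POS) : Stmt_RSQ := by
  intro u hu a x hax
  obtain ⟨hadd, hsub, hren, hsmul, hcst, hrad, hone, -⟩ := h1 u hu
  have hmul := h2 u hu
  obtain ⟨hdev, -⟩ := h3 u hu
  -- the pieces
  obtain ⟨y, hy⟩ : ∃ y, y = nwt (TM.ctr a) 6 (Nat.pow 2 (Nat.div (Nat.sub 90 (Nat.log2 (TM.ctr a))) 2)) := ⟨_, rfl⟩
  obtain ⟨e, he⟩ : ∃ e, e = TM.ren (TM.sub (TM.smul y 30 (TM.smul y 30 a)) TM.one) := ⟨_, rfl⟩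
  obtain ⟨T, hT⟩ : ∃ T, T = TM.smul y 30 (TM.add TM.one (TM.mul e (TM.sub (TM.mul e (TM.sub (TM.cst false 3 3)
    (TM.smul 5 4 e))) (TM.cst false 1 1)))) := ⟨_, rfl⟩
  obtain ⟨c, hc⟩ : ∃ c : ℕ, c = Bool.casesOn (motive := fun _ => Nat) (Nat.ble (TM.dev e) 0x10000000) 7 1 := ⟨_, rfl⟩
  have hinv : TM.rsq a = TM.rad T
      (Nat.add (Nat.shiftRight (Nat.mul (Nat.mul y c) (Nat.mul (Nat.mul (TM.dev e) (TM.dev e)) (Nat.mul (TM.dev e) (TM.dev e)))) 120) 1)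
      (Bool.and (Nat.blt 0 (TM.ctr a)) (Nat.ble (TM.dev e) 0x20000000)) := by
    rw [hc, hT, he, hy]; rfl
  rw [hinv]
  clear hinv
  obtain ⟨ex, hex⟩ : ∃ ex : ℝ, ex = ((y : ℝ) / 2 ^ 30) ^ 2 * x - 1 := ⟨_, rfl⟩
  have re : RepT u e ex := by
    have h5 := hren _ _ (hsub _ _ _ _ (hsmul y 30 _ _ (hsmul y 30 a x hax)) hone)
    rw [← he] at h5
    have h6 : (y : ℝ) / 2 ^ 30 * ((y : ℝ) / 2 ^ 30 * x) - 1 = ex := by rw [hex]; ring
    rwa [h6] at h5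
  have rT : RepT u T ((y : ℝ) / 2 ^ 30 * P ex) := by
    have h5 := hsmul y 30 _ _ (hadd _ _ _ _ hone (hmul _ _ _ _ re (hsub _ _ _ _ (hmul _ _ _ _ re (hsub _ _ _ _
      (hcst false 3 3) (hsmul 5 4 _ _ re))) (hcst false 1 1))))
    rw [← hT] at h5
    have h6 : (1 + ex * (ex * (dy false 3 3 - ((5 : ℕ) : ℝ) / 2 ^ 4 * ex) - dy false 1 1)) = P ex := by
      unfold P dy
      norm_num
    rwa [h6] at h5
  have hTe : T.ok = true → e.ok = true := by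
    intro h
    rw [hT] at h
    exact (mul_ok (add_ok (smul_ok h)).2).1
  -- consequences of the flags
  have hk : T.ok = true → (Bool.and (Nat.blt 0 (TM.ctr a)) (Nat.ble (TM.dev e) 0x20000000)) = true →
      0 < x ∧ |(√x)⁻¹ - (y : ℝ) / 2 ^ 30 * P ex| * 2 ^ 30 ≤
        ((Nat.add (Nat.shiftRight (Nat.mul (Nat.mul y c) (Nat.mul (Nat.mul (TM.dev e) (TM.dev e)) (Nat.mul (TM.dev e) (TM.dev e)))) 120) 1 : ℕ) : ℝ) := by
    intro hTok hO
    have hb := hdev e ex re (hTe hTok)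
    rw [Bool.and_eq_true] at hO
    have hE : TM.dev e ≤ 0x20000000 := Nat.le_of_ble_eq_true hO.2
    have hE' : (TM.dev e : ℝ) ≤ 2 ^ 29 := by
      have : (TM.dev e : ℝ) ≤ ((0x20000000 : ℕ) : ℝ) := by exact_mod_cast hE
      refine this.trans ?_
      norm_num
    have hle : |ex| ≤ 1 / 2 := by
      have h5 : |ex| * 2 ^ 30 ≤ 2 ^ 29 := hb.trans hE'
      have h6 : (2 : ℝ) ^ 29 = 1 / 2 * 2 ^ 30 := by norm_num
      rw [h6] at h5
      exact le_of_mul_le_mul_right h5 (by positivity)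
    obtain ⟨hx, hbd, hbd4⟩ := key ex y x (Nat.cast_nonneg _) hex hle
    refine ⟨hx, ?_⟩
    have hr := round y c (TM.dev e) ex hb
    cases hq : Nat.ble (TM.dev e) 0x10000000
    · have hc7 : c = 7 := by rw [hc, hq]
      refine le_trans ?_ hr
      rw [hc7]
      exact_mod_cast hbd
    · have hc1 : c = 1 := by rw [hc, hq]
      refine le_trans ?_ hr
      rw [hc1]
      have hE4 : TM.dev e ≤ 0x10000000 := Nat.le_of_ble_eq_true hq
      have hE4' : (TM.dev e : ℝ) ≤ 2 ^ 28 := by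
        have : (TM.dev e : ℝ) ≤ ((0x10000000 : ℕ) : ℝ) := by exact_mod_cast hE4
        refine this.trans ?_
        norm_num
      have hle4 : |ex| ≤ 1 / 4 := by
        have h5 : |ex| * 2 ^ 30 ≤ 2 ^ 28 := hb.trans hE4'
        have h6 : (2 : ℝ) ^ 28 = 1 / 4 * 2 ^ 30 := by norm_num
        rw [h6] at h5
        exact le_of_mul_le_mul_right h5 (by positivity)
      have := hbd4 hle4
      exact_mod_cast this
  by_cases hTok : T.ok = true
  · refine ⟨hrad T _ _ _ _ rT (fun hO => (hk hTok hO).2), ?_⟩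
    intro h
    rw [rad_ok, Bool.and_eq_true] at h
    exact (hk h.1 h.2).1
  · have hf : ∀ (n : ℕ) (o : Bool), (TM.rad T n o).ok = true → False := by
      intro n o h
      rw [rad_ok, Bool.and_eq_true] at h
      exact hTok h.1
    exact ⟨fun h => (hf _ _ h).elim, fun h => (hf _ _ h).elim⟩

end Pool.Agent.FTA
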