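import Pool.Agent.FTA.Stmts

/-!
# FTA, module SCHUR: the Schur product theorem for kernels
-/

open Real

namespace Pool.Agent.FTA

namespace SCHUR_

open Matrix

theorem toMat {X : Type} {K : X → X → ℝ} (h : PSDK K) (n : ℕ) (x : Fin n → X) :
    (Matrix.of fun i j => K (x i) (x j)).PosSemidef := by
  rw [Matrix.posSemidef_iff_dotProduct_mulVec]
  refine ⟨?_, ?_⟩
  · ext i j
    simp [Matrix.conjTranspose_apply, h.1 (x j) (x i)]
  · intro c
    have h2 := h.2 n x c
    have h3 : star c ⬝ᵥ (Matrix.of fun i j => K (x i) (x j)) *ᵥ c =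
        ∑ i, ∑ j, c i * c j * K (x i) (x j) := by
      simp only [dotProduct, mulVec, Matrix.of_apply, Finset.mul_sum, star_trivial]
      refine Finset.sum_congr rfl fun i _ => Finset.sum_congr rfl fun j _ => ?_
      ring
    rw [h3]
    exact h2

end SCHUR_

open SCHUR_ Matrix in
theorem schur_proof : Stmt_SCHUR := by
  intro X K L hK hL
  refine ⟨fun x y => by
    show K x y * L x y = K y x * L y x
    rw [hK.1 x y, hL.1 x y], ?_⟩
  intro n x c
  have h := (toMat hK n x).hadamard (toMat hL n x)
  have h2 := (Matrix.posSemidef_iff_dotProduct_mulVec.1 h).2 c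
  have h3 : star c ⬝ᵥ ((Matrix.of fun i j => K (x i) (x j)) ⊙
      (Matrix.of fun i j => L (x i) (x j))) *ᵥ c =
      ∑ i, ∑ j, c i * c j * (K (x i) (x j) * L (x i) (x j)) := by
    simp only [dotProduct, mulVec, Matrix.of_apply, Matrix.hadamard_apply, Finset.mul_sum,
      star_trivial]
    refine Finset.sum_congr rfl fun i _ => Finset.sum_congr rfl fun j _ => ?_
    ring
  rw [h3] at h2
  exact h2

end Pool.Agent.FTA
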