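import Pool.Agent.FTA.Stmts

/-!
# SLC: the algebra of slope models is sound
-/

open Real

namespace Pool.Agent.FTA

namespace SLC_

/-- the error step of `wob` -/
lemma wob_step (hOK : Stmt_OKF) (u : ℝ × ℝ × ℝ)
    (hrad : ∀ a x y (e : ℕ) (o : Bool), RepT u a x → (o = true → |y - x| * 2 ^ 30 ≤ (e : ℝ)) →
      RepT u (TM.rad a e o) y)
    (hdev : ∀ a x, RepT u a x → a.ok = true → |x| * 2 ^ 30 ≤ (TM.dev a : ℝ))
    (f : ℝ → ℝ) (e l : ℕ) (hf1 : ∀ x, |f x| ≤ (e : ℝ) / 2 ^ 30)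
    (hf2 : ∀ x y, |f x - f y| ≤ (l : ℝ) / 2 ^ 30 * |x - y|) (r : ℝ)
    {a b : SL} {x y : ℝ × ℝ} (ha : RepS u r a x) (hb : RepS u r b y) :
    RepS u r (SL.wob e l a b) (y.1 + f x.1, y.2 + f x.2) := by
  obtain ⟨o1, o2, o3, o4, o5, o6, o7, o8, o9, o10⟩ := hOK
  obtain ⟨ha1, ha2, ha3⟩ := ha
  obtain ⟨hb1, hb2, hb3⟩ := hb
  have key : ∀ w z : ℝ, |(w + f z) - w| * 2 ^ 30 ≤ (e : ℝ) := by
    intro w z
    have h1 := hf1 z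
    have h2 : w + f z - w = f z := by ring
    rw [h2]
    rw [le_div_iff₀ (by positivity)] at h1
    exact h1
  refine ⟨hrad _ _ _ _ _ hb1 (fun _ => key _ _), hrad _ _ _ _ _ hb2 (fun _ => key _ _), ?_⟩
  intro hok
  have hok' : (TM.rad b.X (Nat.add (Nat.shiftRight (Nat.mul l (TM.dev a.X)) 30) 1)
      (TM.okf a.X)).ok = true := hok
  obtain ⟨hbX, haX⟩ := o6 _ _ _ hok'
  rw [o10] at haX
  obtain ⟨X, hX1, hX2⟩ := ha3 haX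
  obtain ⟨Y, hY1, hY2⟩ := hb3 hbX
  have hd := hdev _ _ hX2 haX
  have hbound : (l : ℝ) * |X| ≤
      ((Nat.add (Nat.shiftRight (Nat.mul l (TM.dev a.X)) 30) 1 : ℕ) : ℝ) := by
    have h1 : l * TM.dev a.X < (Nat.add (Nat.shiftRight (Nat.mul l (TM.dev a.X)) 30) 1) * 2 ^ 30 := by
      have h2 : Nat.shiftRight (Nat.mul l (TM.dev a.X)) 30 = (l * TM.dev a.X) / 2 ^ 30 :=
        Nat.shiftRight_eq_div_pow _ _
      have h3 : Nat.add (Nat.shiftRight (Nat.mul l (TM.dev a.X)) 30) 1 =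
          (l * TM.dev a.X) / 2 ^ 30 + 1 := congrArg (fun z => z + 1) h2
      rw [h3]
      generalize l * TM.dev a.X = m
      omega
    have h4 : (l : ℝ) * (TM.dev a.X : ℝ) ≤
        ((Nat.add (Nat.shiftRight (Nat.mul l (TM.dev a.X)) 30) 1 : ℕ) : ℝ) * 2 ^ 30 := by
      exact_mod_cast h1.le
    have h5 : (l : ℝ) * (|X| * 2 ^ 30) ≤ (l : ℝ) * (TM.dev a.X : ℝ) :=
      mul_le_mul_of_nonneg_left hd (Nat.cast_nonneg _)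
    nlinarith
  by_cases hr : r = 0
  · refine ⟨Y, ?_, hrad _ _ _ _ _ hY2 (fun _ => ?_)⟩
    · show y.2 + f x.2 = y.1 + f x.1 + r * Y
      have e1 : x.2 = x.1 := by rw [hX1, hr]; ring
      rw [e1, hY1]
      ring
    · rw [sub_self, abs_zero, zero_mul]
      exact Nat.cast_nonneg _
  · refine ⟨Y + (f x.2 - f x.1) / r, ?_, hrad _ _ _ _ _ hY2 (fun _ => ?_)⟩
    · show y.2 + f x.2 = y.1 + f x.1 + r * (Y + (f x.2 - f x.1) / r)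
      rw [hY1]
      field_simp
      ring
    · have e1 : Y + (f x.2 - f x.1) / r - Y = (f x.2 - f x.1) / r := by ring
      rw [e1, abs_div]
      have e2 := hf2 x.2 x.1
      have e3 : x.2 - x.1 = r * X := by rw [hX1]; ring
      rw [e3, abs_mul] at e2
      have hr' : 0 < |r| := abs_pos.2 hr
      have e4 : |f x.2 - f x.1| / |r| ≤ (l : ℝ) / 2 ^ 30 * |X| := by
        rw [div_le_iff₀ hr']
        calc |f x.2 - f x.1| ≤ (l : ℝ) / 2 ^ 30 * (|r| * |X|) := e2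
          _ = _ := by ring
      calc |f x.2 - f x.1| / |r| * 2 ^ 30 ≤ (l : ℝ) / 2 ^ 30 * |X| * 2 ^ 30 :=
            mul_le_mul_of_nonneg_right e4 (by positivity)
        _ = (l : ℝ) * |X| := by field_simp
        _ ≤ _ := hbound

end SLC_

theorem slc_proof (h1 : Stmt_LIN) (h2 : Stmt_MUL) (h3 : Stmt_POS) (h4 : Stmt_INV) (h5 : Stmt_RSQ)
    (h6 : Stmt_OKF) (h7 : Stmt_ESC) (h8 : Stmt_ECS) (h9 : Stmt_EAC) : Stmt_SLC := by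
  intro u hu r
  obtain ⟨l1, l2, l3, l4, l5, l6, l7, l8, l9, -⟩ := h1 u hu
  obtain ⟨p1, p2⟩ := h3 u hu
  have m := h2 u hu
  have iv := h4 u hu
  have rs := h5 u hu
  have hOK := h6
  obtain ⟨o1, o2, o3, o4, o5, o6, o7, o8, o9, o10⟩ := h6
  constructor
  · intro s p q
    refine ⟨l5 s p q, l5 s p q, fun _ => ⟨0, ?_, l8⟩⟩
    exact (show ∀ c : ℝ, c = c + r * 0 from fun c => by rw [mul_zero, add_zero]) _
  · rintro a b x y ⟨ha1, ha2, ha3⟩ ⟨hb1, hb2, hb3⟩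
    refine ⟨l1 _ _ _ _ ha1 hb1, l1 _ _ _ _ ha2 hb2, ?_⟩
    intro hok
    obtain ⟨q1, q2⟩ := o2 a.X b.X hok
    obtain ⟨X, hX1, hX2⟩ := ha3 q1
    obtain ⟨Y, hY1, hY2⟩ := hb3 q2
    refine ⟨X + Y, ?_, l1 _ _ _ _ hX2 hY2⟩
    show x.2 + y.2 = x.1 + y.1 + r * (X + Y)
    rw [hX1, hY1]
    ring
  · rintro a b x y ⟨ha1, ha2, ha3⟩ ⟨hb1, hb2, hb3⟩
    refine ⟨l2 _ _ _ _ ha1 hb1, l2 _ _ _ _ ha2 hb2, ?_⟩
    intro hok
    obtain ⟨q1, q2⟩ := o3 a.X b.X hok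
    obtain ⟨X, hX1, hX2⟩ := ha3 q1
    obtain ⟨Y, hY1, hY2⟩ := hb3 q2
    refine ⟨X - Y, ?_, l2 _ _ _ _ hX2 hY2⟩
    show x.2 - y.2 = x.1 - y.1 + r * (X - Y)
    rw [hX1, hY1]
    ring
  · rintro a b x y ⟨ha1, ha2, ha3⟩ ⟨hb1, hb2, hb3⟩
    refine ⟨m _ _ _ _ ha1 hb1, m _ _ _ _ ha2 hb2, ?_⟩
    intro hok
    obtain ⟨q1, q2⟩ := o2 (TM.mul a.v0 b.X) (TM.mul a.X b.v) hok
    obtain ⟨-, q3⟩ := o1 _ _ q1
    obtain ⟨q4, -⟩ := o1 _ _ q2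
    obtain ⟨X, hX1, hX2⟩ := ha3 q4
    obtain ⟨Y, hY1, hY2⟩ := hb3 q3
    refine ⟨x.1 * Y + X * y.2, ?_, ?_⟩
    · show x.2 * y.2 = x.1 * y.1 + r * (x.1 * Y + X * y.2)
      rw [hX1, hY1]
      ring
    · have w1 := m a.v0 b.X _ _ ha1 hY2
      have w2 := m a.X b.v _ _ hX2 hb2
      have w3 := l1 (TM.mul a.v0 b.X) (TM.mul a.X b.v) _ _ w1 w2
      exact w3
  · rintro p q a x ⟨ha1, ha2, ha3⟩
    refine ⟨l4 _ _ _ _ ha1, l4 _ _ _ _ ha2, ?_⟩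
    intro hok
    have q1 := o4 p q a.X hok
    obtain ⟨X, hX1, hX2⟩ := ha3 q1
    refine ⟨(p : ℝ) / 2 ^ q * X, ?_, l4 _ _ _ _ hX2⟩
    show (p : ℝ) / 2 ^ q * x.2 = (p : ℝ) / 2 ^ q * x.1 + r * ((p : ℝ) / 2 ^ q * X)
    rw [hX1]
    ring
  · rintro a x ⟨ha1, ha2, ha3⟩
    obtain ⟨i1, i2⟩ := iv _ _ ha1
    obtain ⟨i3, i4⟩ := iv _ _ ha2
    refine ⟨i1, i3, ?_⟩
    intro hok
    obtain ⟨-, q1⟩ := o3 TM.zero (TM.mul (TM.mul a.X (TM.inv a.v)) (TM.inv a.v0)) hok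
    obtain ⟨q2, q3⟩ := o1 _ _ q1
    obtain ⟨q4, q5⟩ := o1 _ _ q2
    obtain ⟨X, hX1, hX2⟩ := ha3 q4
    have n1 := i2 q3
    have n2 := i4 q5
    refine ⟨0 - X * (x.2)⁻¹ * (x.1)⁻¹, ?_, l2 _ _ _ _ l8 (m _ _ _ _ (m _ _ _ _ hX2 i3) i1)⟩
    show (x.2)⁻¹ = (x.1)⁻¹ + r * (0 - X * (x.2)⁻¹ * (x.1)⁻¹)
    have e1 : r * X = x.2 - x.1 := by rw [hX1]; ring
    have e2 : r * (0 - X * (x.2)⁻¹ * (x.1)⁻¹) = -(r * X) * ((x.2)⁻¹ * (x.1)⁻¹) := by ring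
    rw [e2, e1]
    field_simp
    ring
  · rintro a x ⟨ha1, ha2, ha3⟩
    obtain ⟨i1, i2⟩ := rs _ _ ha1
    obtain ⟨i3, i4⟩ := rs _ _ ha2
    refine ⟨i1, i3, ?_⟩
    intro hok
    obtain ⟨-, q1⟩ := o3 TM.zero (TM.mul a.X (TM.mul (TM.mul (TM.mul (TM.rsq a.v) (TM.rsq a.v0))
      (TM.mul (TM.rsq a.v) (TM.rsq a.v0))) (TM.inv (TM.add (TM.rsq a.v) (TM.rsq a.v0))))) hok
    obtain ⟨q2, q3⟩ := o1 _ _ q1
    obtain ⟨q4, -⟩ := o1 _ _ q3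
    obtain ⟨q5, -⟩ := o1 _ _ q4
    obtain ⟨q6, q7⟩ := o1 _ _ q5
    obtain ⟨X, hX1, hX2⟩ := ha3 q2
    have n1 : 0 < x.1 := i2 q7
    have n2 : 0 < x.2 := i4 q6
    have hh := m _ _ _ _ i3 i1
    refine ⟨0 - X * ((√x.2)⁻¹ * (√x.1)⁻¹ * ((√x.2)⁻¹ * (√x.1)⁻¹) * ((√x.2)⁻¹ + (√x.1)⁻¹)⁻¹), ?_,
      l2 _ _ _ _ l8 (m _ _ _ _ hX2 (m _ _ _ _ (m _ _ _ _ hh hh)
        (iv _ _ (l1 _ _ _ _ i3 i1)).1))⟩
    show (√x.2)⁻¹ = (√x.1)⁻¹ +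
      r * (0 - X * ((√x.2)⁻¹ * (√x.1)⁻¹ * ((√x.2)⁻¹ * (√x.1)⁻¹) * ((√x.2)⁻¹ + (√x.1)⁻¹)⁻¹))
    have e1 : r * X = x.2 - x.1 := by rw [hX1]; ring
    have s1 : 0 < √x.1 := Real.sqrt_pos.2 n1
    have s2 : 0 < √x.2 := Real.sqrt_pos.2 n2
    have t1 : √x.1 ^ 2 = x.1 := Real.sq_sqrt n1.le
    have t2 : √x.2 ^ 2 = x.2 := Real.sq_sqrt n2.le
    have e2 : r * (0 - X * ((√x.2)⁻¹ * (√x.1)⁻¹ * ((√x.2)⁻¹ * (√x.1)⁻¹) *
        ((√x.2)⁻¹ + (√x.1)⁻¹)⁻¹)) = -(r * X) * ((√x.2)⁻¹ * (√x.1)⁻¹ * ((√x.2)⁻¹ * (√x.1)⁻¹) *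
        ((√x.2)⁻¹ + (√x.1)⁻¹)⁻¹) := by ring
    rw [e2, e1]
    generalize √x.1 = A at *
    generalize √x.2 = B at *
    rw [← t1, ← t2]
    have hAB : A + B ≠ 0 := by positivity
    have e3 : (B⁻¹ + A⁻¹)⁻¹ = A * B / (A + B) := by
      field_simp
    rw [e3]
    field_simp
    ring
  · intro a b x y ha hb
    exact SLC_.wob_step hOK u l6 p1 esc 256 8192 (by exact_mod_cast h7.1)
      (by exact_mod_cast h7.2) r ha hb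
  · intro a b x y ha hb
    exact SLC_.wob_step hOK u l6 p1 ecs 1024 16384 (by exact_mod_cast h8.1)
      (by exact_mod_cast h8.2) r ha hb
  · intro a b x y ha hb
    exact SLC_.wob_step hOK u l6 p1 eac 2048 262144 (by exact_mod_cast h9.1)
      (by exact_mod_cast h9.2) r ha hb
  · intro a b x y ha hb
    refine ⟨?_, ?_, ?_⟩
    · intro hok
      have := (o6 b.v0 0 false hok).2
      exact absurd this (by decide)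
    · intro hok
      have := (o6 b.v 0 false hok).2
      exact absurd this (by decide)
    · intro hok
      have := (o6 b.X 0 false hok).2
      exact absurd this (by decide)
  · exact ⟨l9, l9, fun _ => ⟨0, by show 1 / π = 1 / π + r * 0; ring, l8⟩⟩

end Pool.Agent.FTA
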