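import Pool.Agent.FTA.Stmts

/-! # Module SUM: summation of the triangle inequality -/

namespace Pool.Agent.FTA

open Real

namespace SUM_

theorem ang_mem {x y : V3} (hx : ‖x‖ = 1) (hy : ‖y‖ = 1) : ang x y ∈ Set.Icc (0 : ℝ) 1 := by
  unfold ang
  have h0 : 0 ≤ Real.arccos |inner ℝ x y| := Real.arccos_nonneg _
  have h1 : Real.arccos |inner ℝ x y| ≤ π / 2 := by
    rw [Real.arccos_le_pi_div_two]; exact abs_nonneg _
  have hpi := Real.pi_pos
  constructor
  · positivity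
  · have : 2 / π * Real.arccos |inner ℝ x y| ≤ 2 / π * (π / 2) :=
      mul_le_mul_of_nonneg_left h1 (by positivity)
    have e : 2 / π * (π / 2) = 1 := by field_simp
    linarith

theorem pos (h2 : Stmt_PSD) (h3 : Stmt_AZI) (n : ℕ) (x : Fin n → V3) (hx : ∀ i, ‖x i‖ = 1)
    (k : Fin n) : 0 ≤ ∑ i, ∑ j, FF (x k) (x i) (x j) := by
  obtain ⟨φ, hφ⟩ := h3 (x k) (hx k)
  have h := h2.2 n (fun i => (⟨ang (x k) (x i), ang_mem (hx k) (hx i)⟩, φ (x i))) (fun _ => 1)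
  have e : ∑ i, ∑ j, FF (x k) (x i) (x j) = ∑ i, ∑ j, (1 : ℝ) * 1 *
      F (ang (x k) (x i)) (ang (x k) (x j)) (Real.cos (φ (x i) - φ (x j))) := by
    refine Finset.sum_congr rfl fun i _ => Finset.sum_congr rfl fun j _ => ?_
    rw [hφ _ _ (hx i) (hx j)]; ring
  rw [e]
  exact h

end SUM_

theorem sum_proof (h1 : Stmt_TRI) (h2 : Stmt_PSD) (h3 : Stmt_AZI) : Stmt_SUM := by
  intro n x hx
  have hpi := Real.pi_pos
  set A : ℝ := ∑ i, ∑ j, ang (x i) (x j) with hA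
  set S : ℝ := ∑ k, ∑ i, ∑ j, FF (x k) (x i) (x j) with hS
  have hSpos : 0 ≤ S := Finset.sum_nonneg fun k _ => SUM_.pos h2 h3 n x hx k
  have htri : ∑ i, ∑ j, ∑ k, (FF (x k) (x i) (x j) + FF (x i) (x j) (x k) + FF (x j) (x k) (x i)) ≤
      ∑ i : Fin n, ∑ j : Fin n, ∑ k : Fin n,
        ((2 : ℝ) - ang (x i) (x j) - ang (x j) (x k) - ang (x k) (x i)) := by
    refine Finset.sum_le_sum fun i _ => Finset.sum_le_sum fun j _ => Finset.sum_le_sum fun k _ => ?_
    exact h1 (x i) (x j) (x k) (hx i) (hx j) (hx k)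
  have e1 : ∑ i, ∑ j, ∑ k, FF (x k) (x i) (x j) = S := by
    rw [hS]
    calc ∑ i, ∑ j, ∑ k, FF (x k) (x i) (x j) = ∑ i, ∑ k, ∑ j, FF (x k) (x i) (x j) :=
          Finset.sum_congr rfl fun i _ => Finset.sum_comm
      _ = _ := Finset.sum_comm
  have e2 : ∑ i, ∑ j, ∑ k, FF (x i) (x j) (x k) = S := rfl
  have e3 : ∑ i, ∑ j, ∑ k, FF (x j) (x k) (x i) = S := by
    rw [hS, Finset.sum_comm]
    refine Finset.sum_congr rfl fun j _ => Finset.sum_comm
  have hL : ∑ i, ∑ j, ∑ k, (FF (x k) (x i) (x j) + FF (x i) (x j) (x k) + FF (x j) (x k) (x i)) =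
      3 * S := by
    simp only [Finset.sum_add_distrib]
    rw [e1, e2, e3]; ring
  have f1 : ∑ i : Fin n, ∑ j : Fin n, ∑ k : Fin n, ang (x i) (x j) = n * A := by
    simp only [Finset.sum_const, Finset.card_univ, Fintype.card_fin, nsmul_eq_mul]
    rw [hA, Finset.mul_sum]
    refine Finset.sum_congr rfl fun i _ => ?_
    rw [Finset.mul_sum]
  have f2 : ∑ i : Fin n, ∑ j : Fin n, ∑ k : Fin n, ang (x j) (x k) = n * A := by
    simp only [Finset.sum_const, Finset.card_univ, Fintype.card_fin, nsmul_eq_mul]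
    rw [hA]
  have f3 : ∑ i : Fin n, ∑ j : Fin n, ∑ k : Fin n, ang (x k) (x i) = n * A := by
    have : ∑ i : Fin n, ∑ j : Fin n, ∑ k : Fin n, ang (x k) (x i) =
        ∑ i : Fin n, (n : ℝ) * ∑ k : Fin n, ang (x k) (x i) := by
      refine Finset.sum_congr rfl fun i _ => ?_
      simp only [Finset.sum_const, Finset.card_univ, Fintype.card_fin, nsmul_eq_mul]
    rw [this, ← Finset.mul_sum, Finset.sum_comm, hA]
  have f0 : ∑ i : Fin n, ∑ j : Fin n, ∑ k : Fin n, (2 : ℝ) = 2 * n ^ 3 := by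
    simp only [Finset.sum_const, Finset.card_univ, Fintype.card_fin, nsmul_eq_mul]
    ring
  have hR : ∑ i : Fin n, ∑ j : Fin n, ∑ k : Fin n,
      ((2 : ℝ) - ang (x i) (x j) - ang (x j) (x k) - ang (x k) (x i)) = 2 * n ^ 3 - 3 * (n * A) := by
    simp only [Finset.sum_sub_distrib]
    rw [f0, f1, f2, f3]; ring
  rw [hL, hR] at htri
  have hfin : ∑ i, ∑ j, Real.arccos |inner ℝ (x i) (x j)| = π / 2 * A := by
    rw [hA, Finset.mul_sum]
    refine Finset.sum_congr rfl fun i _ => ?_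
    rw [Finset.mul_sum]
    refine Finset.sum_congr rfl fun j _ => ?_
    unfold ang
    field_simp
  rw [hfin]
  rcases Nat.eq_zero_or_pos n with hn | hn
  · subst hn
    simp [hA]
  · have hn' : (0 : ℝ) < n := by exact_mod_cast hn
    have h3A : 3 * A ≤ 2 * (n : ℝ) ^ 2 := by
      have : (n : ℝ) * (3 * A) ≤ n * (2 * (n : ℝ) ^ 2) := by nlinarith
      exact le_of_mul_le_mul_left this hn'
    have : π / 2 * A ≤ π / 2 * (2 / 3 * (n : ℝ) ^ 2) :=
      mul_le_mul_of_nonneg_left (by linarith) (by positivity)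
    calc π / 2 * A ≤ π / 2 * (2 / 3 * (n : ℝ) ^ 2) := this
      _ = (n : ℝ) ^ 2 * (π / 3) := by ring

end Pool.Agent.FTA
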