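import Pool.Agent.FTA.Stmts

/-!
# TMC: the algebra of Taylor models is sound
-/

open Real

namespace Pool.Agent.FTA

namespace TMC_

theorem wob {u : ℝ × ℝ × ℝ}
    (hrad : ∀ a x y (e : ℕ) (o : Bool), RepT u a x → (o = true → |y - x| * 2 ^ 30 ≤ (e : ℝ)) →
      RepT u (TM.rad a e o) y)
    {f : ℝ → ℝ} {k : ℕ} (hf : ∀ x, |f x| ≤ (k : ℝ) / 2 ^ 30) (b : TM) (o : Bool) (x y : ℝ)
    (hb : RepT u b y) : RepT u (TM.rad b k o) (y + f x) := by
  refine hrad b y (y + f x) k o hb (fun _ => ?_)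
  have h1 := hf x
  have e1 : y + f x - y = f x := by ring
  rw [e1]
  rw [le_div_iff₀ (by positivity)] at h1
  exact h1

end TMC_

theorem tmc_proof (h1 : Stmt_LIN) (h2 : Stmt_MUL) (h3 : Stmt_INV) (h4 : Stmt_RSQ)
    (h5 : Stmt_ESC) (h6 : Stmt_ECS) (h7 : Stmt_EAC) (h8 : Stmt_EAS) : Stmt_TMC := by
  intro u hu
  obtain ⟨l1, l2, l3, l4, l5, l6, l7, l8, l9, -⟩ := h1 u hu
  have m := h2 u hu
  have iv := h3 u hu
  have rs := h4 u hu
  constructor
  · intro s p q
    exact l5 s p q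
  · intro a b x y ha hb
    exact l1 a b x y ha hb
  · intro a b x y ha hb
    exact l2 a b x y ha hb
  · intro a b x y ha hb
    exact m a b x y ha hb
  · intro p q a x ha
    exact l4 p q a x ha
  · intro a x ha
    exact (iv a x ha).1
  · intro a x ha
    exact (rs a x ha).1
  · intro a b x y ha hb
    exact TMC_.wob l6 (f := esc) (k := 256) (by exact_mod_cast h5.1) b _ x y hb
  · intro a b x y ha hb
    exact TMC_.wob l6 (f := ecs) (k := 1024) (by exact_mod_cast h6.1) b _ x y hb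
  · intro a b x y ha hb
    exact TMC_.wob l6 (f := eac) (k := 2048) (by exact_mod_cast h7.1) b _ x y hb
  · intro a b x y ha hb
    exact TMC_.wob l6 (f := eas) (k := 256) (fun z => by exact_mod_cast h8 z) b _ x y hb
  · exact l9

end Pool.Agent.FTA
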