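import Pool.Agent.FTA.Stmts

/-! Module TREE: soundness of the tree check for regions. -/

namespace Pool.Agent.FTA
namespace TREE_

theorem point (x : ℝ) (c h : ℕ) (hx : InB x c h) :
    ∃ u : ℝ, |u| ≤ 1 ∧ ((c : ℝ) + (h : ℝ) * u) / 2 ^ 30 = x := by
  unfold InB at hx
  rcases Nat.eq_zero_or_pos h with h0 | hpos
  · subst h0
    refine ⟨0, by simp, ?_⟩
    have : |x * 2 ^ 30 - (c : ℝ)| = 0 := le_antisymm (by simpa using hx) (abs_nonneg _)
    have h1 : x * 2 ^ 30 - (c : ℝ) = 0 := abs_eq_zero.mp this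
    rw [div_eq_iff (by positivity)]
    linarith
  · have hh : (0 : ℝ) < (h : ℝ) := by exact_mod_cast hpos
    refine ⟨(x * 2 ^ 30 - (c : ℝ)) / (h : ℝ), ?_, ?_⟩
    · rw [abs_div, abs_of_pos hh, div_le_one hh]
      exact hx
    · rw [div_eq_iff (by positivity), mul_div_cancel₀ _ hh.ne']
      ring

theorem split (x : ℝ) (c h : ℕ) (hx : InB x c h) (hc : h ≤ c) (he : h % 2 = 0) :
    InB x (c - h / 2) (h / 2) ∨ InB x (c + h / 2) (h / 2) := by
  unfold InB at *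
  obtain ⟨m, rfl⟩ : ∃ m, h = 2 * m := ⟨h / 2, by omega⟩
  have e : 2 * m / 2 = m := by omega
  rw [e]
  have hm : m ≤ c := by omega
  push_cast [Nat.cast_sub hm] at *
  rw [abs_le] at *
  rcases le_total (x * 2 ^ 30) (c : ℝ) with h | h
  · left
    constructor <;> linarith [hx.1, hx.2]
  · right
    rw [abs_le]
    constructor <;> linarith [hx.1, hx.2]

theorem forall2_mem {α β : Type} {R : α → β → Prop} {l : List α} {l' : List β}
    (h : List.Forall₂ R l l') {b : β} (hb : b ∈ l') : ∃ a ∈ l, R a b := by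
  induction h with
  | nil => simp at hb
  | cons hab _ ih =>
    rcases List.mem_cons.mp hb with rfl | hb'
    · exact ⟨_, List.mem_cons_self, hab⟩
    · obtain ⟨a, ha, hr⟩ := ih hb'
      exact ⟨a, List.mem_cons_of_mem _ ha, hr⟩

theorem forall2_mem' {α β : Type} {R : α → β → Prop} {l : List α} {l' : List β}
    (h : List.Forall₂ R l l') {a : α} (ha : a ∈ l) : ∃ b ∈ l', R a b := by
  induction h with
  | nil => simp at ha
  | cons hab _ ih =>
    rcases List.mem_cons.mp ha with rfl | ha'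
    · exact ⟨_, List.mem_cons_self, hab⟩
    · obtain ⟨b, hb, hr⟩ := ih ha'
      exact ⟨b, List.mem_cons_of_mem _ hb, hr⟩

end TREE_

open TREE_ in
theorem tree_proof (h1 : Stmt_LIN) (h2 : Stmt_POS) : Stmt_TREE := by
  intro g₁ g₂ hg ex tr
  induction tr with
  | L =>
    intro c0 h0 c1 h1' c2 h2' _ _ _ s0 s1 s2 hchk x y z hx hy hz
    left
    obtain ⟨u0, hu0, ex0⟩ := point x c0 h0 hx
    obtain ⟨u1, hu1, ex1⟩ := point y c1 h1' hy
    obtain ⟨u2, hu2, ex2⟩ := point z c2 h2' hz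
    have hu : Cube (u0, u1, u2) := ⟨hu0, hu1, hu2⟩
    obtain ⟨-, -, -, -, -, -, -, -, -, hvar⟩ := h1 (u0, u1, u2) hu
    have r0 := (hvar c0 h0 (by omega) (by omega)).1
    have r1 := (hvar c1 h1' (by omega) (by omega)).2.1
    have r2 := (hvar c2 h2' (by omega) (by omega)).2.2
    have hF := hg (u0, u1, u2) hu _ _ _ _ _ _ r0 r1 r2
    simp only [ex0, ex1, ex2] at hF
    intro l hl
    obtain ⟨l', hl', hll⟩ := forall2_mem hF hl
    have hchk' : (g₁ tmA (TM.var 1 c0 h0) (TM.var 7 c1 h1') (TM.var 49 c2 h2')).all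
      (fun l => l.any TM.pos) = true := hchk
    rw [List.all_eq_true] at hchk'
    have := hchk' l' hl'
    rw [List.any_eq_true] at this
    obtain ⟨a, ha, hpa⟩ := this
    obtain ⟨v, hv, hav⟩ := forall2_mem' hll ha
    exact ⟨v, hv, (h2 (u0, u1, u2) hu).2 a v hav hpa⟩
  | X =>
    intro c0 h0 c1 h1' c2 h2' _ _ _ s0 s1 s2 hchk x y z hx hy hz
    right
    exact ⟨c0, h0, c1, h1', c2, h2', hchk, hx, hy, hz⟩
  | A l r ihl ihr =>
    intro c0 h0 c1 h1' c2 h2' b0 b1 b2 s0 s1 s2 hchk x y z hx hy hz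
    simp only [Tr.chk, Bool.and_eq_true] at hchk
    obtain ⟨he, hcl, hcr⟩ := hchk
    simp only [Nat.sub_eq, Nat.add_eq] at hcl hcr
    have he' : h0 % 2 = 0 := Nat.eq_of_beq_eq_true he
    rcases split x c0 h0 hx b0 he' with hx' | hx'
    · exact ihl (c0 - h0 / 2) (h0 / 2) c1 h1' c2 h2' (by omega) b1 b2 (by omega) s1 s2 hcl x y z hx' hy hz
    · exact ihr (c0 + h0 / 2) (h0 / 2) c1 h1' c2 h2' (by omega) b1 b2 (by omega) s1 s2 hcr x y z hx' hy hz
  | B l r ihl ihr =>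
    intro c0 h0 c1 h1' c2 h2' b0 b1 b2 s0 s1 s2 hchk x y z hx hy hz
    simp only [Tr.chk, Bool.and_eq_true] at hchk
    obtain ⟨he, hcl, hcr⟩ := hchk
    simp only [Nat.sub_eq, Nat.add_eq] at hcl hcr
    have he' : h1' % 2 = 0 := Nat.eq_of_beq_eq_true he
    rcases split y c1 h1' hy b1 he' with hy' | hy'
    · exact ihl c0 h0 (c1 - h1' / 2) (h1' / 2) c2 h2' b0 (by omega) b2 s0 (by omega) s2 hcl x y z hx hy' hz
    · exact ihr c0 h0 (c1 + h1' / 2) (h1' / 2) c2 h2' b0 (by omega) b2 s0 (by omega) s2 hcr x y z hx hy' hz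
  | C l r ihl ihr =>
    intro c0 h0 c1 h1' c2 h2' b0 b1 b2 s0 s1 s2 hchk x y z hx hy hz
    simp only [Tr.chk, Bool.and_eq_true] at hchk
    obtain ⟨he, hcl, hcr⟩ := hchk
    simp only [Nat.sub_eq, Nat.add_eq] at hcl hcr
    have he' : h2' % 2 = 0 := Nat.eq_of_beq_eq_true he
    rcases split z c2 h2' hz b2 he' with hz' | hz'
    · exact ihl c0 h0 c1 h1' (c2 - h2' / 2) (h2' / 2) b0 b1 (by omega) s0 s1 (by omega) hcl x y z hx hy hz'
    · exact ihr c0 h0 c1 h1' (c2 + h2' / 2) (h2' / 2) b0 b1 (by omega) s0 s1 (by omega) hcr x y z hx hy hz'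

end Pool.Agent.FTA
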