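import Pool.Agent.FTA.Stmts

/-! Soundness of the tree check for slopes. -/

open Real

namespace Pool.Agent.FTA

namespace TREES_

theorem coord (x : ℝ) (c h : ℕ) (hx : InB x c h) :
    ∃ u : ℝ, |u| ≤ 1 ∧ x = ((c : ℝ) + (h : ℝ) * u) / 2 ^ 30 := by
  unfold InB at hx
  rcases Nat.eq_zero_or_pos h with h0 | h0
  · subst h0
    refine ⟨0, by simp, ?_⟩
    have h1 : x * 2 ^ 30 - (c : ℝ) = 0 := by
      apply abs_eq_zero.mp
      apply le_antisymm _ (abs_nonneg _)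
      simpa using hx
    rw [eq_div_iff (by positivity)]
    push_cast
    linarith
  · have hp : (0 : ℝ) < (h : ℝ) := by exact_mod_cast h0
    refine ⟨(x * 2 ^ 30 - (c : ℝ)) / (h : ℝ), ?_, ?_⟩
    · rw [abs_div, abs_of_pos hp, div_le_one hp]
      exact hx
    · rw [mul_div_cancel₀ _ (ne_of_gt hp)]
      rw [eq_div_iff (by positivity)]
      ring

theorem split (x : ℝ) (c h : ℕ) (hc : h ≤ c) (hp : Nat.beq (Nat.mod h 2) 0 = true) (hx : InB x c h) :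
    InB x (Nat.sub c (Nat.div h 2)) (Nat.div h 2) ∨ InB x (Nat.add c (Nat.div h 2)) (Nat.div h 2) := by
  have h2 : h % 2 = 0 := Nat.eq_of_beq_eq_true hp
  obtain ⟨k, hk⟩ : ∃ k, h = 2 * k := ⟨h / 2, by omega⟩
  have hk' : Nat.div h 2 = k := by
    show h / 2 = k
    omega
  rw [hk']
  have e1 : Nat.sub c k = c - k := rfl
  have e2 : Nat.add c k = c + k := rfl
  rw [e1, e2]
  unfold InB at hx ⊢
  have hkc : k ≤ c := by omega
  have hh : (h : ℝ) = 2 * (k : ℝ) := by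
    rw [hk]
    push_cast
    ring
  rw [hh] at hx
  have hxx := abs_le.mp hx
  rcases le_total (x * 2 ^ 30) (c : ℝ) with hl | hl
  · left
    rw [Nat.cast_sub hkc, abs_le]
    constructor <;> linarith [hxx.1, hxx.2]
  · right
    rw [Nat.cast_add, abs_le]
    constructor <;> linarith [hxx.1, hxx.2]

theorem bnd (c h : ℕ) (hc : h ≤ c) (hb : c + h < 2 ^ 39) (hp : Nat.beq (Nat.mod h 2) 0 = true) :
    (Nat.div h 2 ≤ Nat.sub c (Nat.div h 2) ∧ Nat.sub c (Nat.div h 2) + Nat.div h 2 < 2 ^ 39) ∧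
    (Nat.div h 2 ≤ Nat.add c (Nat.div h 2) ∧ Nat.add c (Nat.div h 2) + Nat.div h 2 < 2 ^ 39) := by
  have h2 : h % 2 = 0 := Nat.eq_of_beq_eq_true hp
  show ((h / 2) ≤ c - h / 2 ∧ c - h / 2 + h / 2 < 2 ^ 39) ∧ ((h / 2) ≤ c + h / 2 ∧ c + h / 2 + h / 2 < 2 ^ 39)
  omega

theorem forall2_right {α β : Type} {R : α → β → Prop} : ∀ {l₁ : List α} {l₂ : List β}, List.Forall₂ R l₁ l₂ →
    ∀ v ∈ l₂, ∃ q ∈ l₁, R q v := by
  intro l₁ l₂ h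
  induction h with
  | nil => intro v hv; cases hv
  | cons hab _ ih =>
    intro v hv
    rcases List.mem_cons.mp hv with h1 | h1
    · subst h1
      exact ⟨_, List.mem_cons_self, hab⟩
    · obtain ⟨q, hq, hr⟩ := ih v h1
      exact ⟨q, List.mem_cons_of_mem _ hq, hr⟩

theorem leafSound (h1 : Stmt_LIN) (h2 : Stmt_POS) (h3 : Stmt_OKF)
    (g₁ : Alg SL → SL → SL → SL → List SL) (g₂ : Alg (ℝ × ℝ) → ℝ × ℝ → ℝ × ℝ → ℝ × ℝ → List (ℝ × ℝ))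
    (hg : ∀ u, Cube u → ∀ r : ℝ, ∀ a x t a' x' t', RepS u r a a' → RepS u r x x' → RepS u r t t' →
      List.Forall₂ (RepS u r) (g₁ slA a x t) (g₂ prA a' x' t'))
    (c0 h0 c1 h1' c2 h2' : ℕ) (b0 : c0 + h0 < 2 ^ 39) (b1 : c1 + h1' < 2 ^ 39) (b2 : c2 + h2' < 2 ^ 39)
    (hl : leafS g₁ c0 h0 c1 h1' c2 h2' = true) (x r z : ℝ) (hx : InB x c0 h0) (hr : InB r c1 h1')
    (hz : InB z c2 h2') (hr0 : 0 ≤ r) : ∀ v ∈ g₂ prA (x, x) (0, r) (z, z), v.1 ≤ v.2 := by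
  obtain ⟨u0, hu0, e0⟩ := coord x c0 h0 hx
  obtain ⟨u1, hu1, e1⟩ := coord r c1 h1' hr
  obtain ⟨u2, hu2, e2⟩ := coord z c2 h2' hz
  have hC : Cube (u0, u1, u2) := ⟨hu0, hu1, hu2⟩
  obtain ⟨-, -, -, -, -, -, hone, hzero, -, hvar⟩ := h1 (u0, u1, u2) hC
  obtain ⟨-, hpos⟩ := h2 (u0, u1, u2) hC
  obtain ⟨-, -, -, -, -, -, -, -, hpok, -⟩ := h3
  have r0 : RepT (u0, u1, u2) (TM.var 1 c0 h0) x := by
    have := (hvar c0 h0 (by omega) (by omega)).1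
    rw [e0]
    exact this
  have r1 : RepT (u0, u1, u2) (TM.var 7 c1 h1') r := by
    have := (hvar c1 h1' (by omega) (by omega)).2.1
    rw [e1]
    exact this
  have r2 : RepT (u0, u1, u2) (TM.var 49 c2 h2') z := by
    have := (hvar c2 h2' (by omega) (by omega)).2.2
    rw [e2]
    exact this
  have s0 : RepS (u0, u1, u2) r (SL.free 1 c0 h0) (x, x) :=
    ⟨r0, r0, fun _ => ⟨0, by simp, hzero⟩⟩
  have s1 : RepS (u0, u1, u2) r (SL.r c1 h1') (0, r) :=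
    ⟨hzero, r1, fun _ => ⟨1, by simp, hone⟩⟩
  have s2 : RepS (u0, u1, u2) r (SL.free 49 c2 h2') (z, z) :=
    ⟨r2, r2, fun _ => ⟨0, by simp, hzero⟩⟩
  have hF := hg (u0, u1, u2) hC r _ _ _ _ _ _ s0 s1 s2
  intro v hv
  obtain ⟨q, hq, hR⟩ := forall2_right hF v hv
  have hall := List.all_eq_true.mp hl q hq
  obtain ⟨-, -, hX⟩ := hR
  obtain ⟨w, hw, hRw⟩ := hX (hpok _ hall)
  have hw0 := hpos _ _ hRw hall
  rw [hw]
  nlinarith [mul_nonneg hr0 (le_of_lt hw0)]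

end TREES_

open TREES_ in
theorem trees_proof (h1 : Stmt_LIN) (h2 : Stmt_POS) (h3 : Stmt_OKF) : Stmt_TREES := by
  intro g₁ g₂ hg tr
  induction tr with
  | L =>
    intro c0 h0 c1 h1' c2 h2' _ _ _ b0 b1 b2 hc x r z hx hr hz hr0
    exact leafSound h1 h2 h3 g₁ g₂ hg c0 h0 c1 h1' c2 h2' b0 b1 b2 hc x r z hx hr hz hr0
  | X =>
    intro c0 h0 c1 h1' c2 h2' _ _ _ _ _ _ hc
    exact absurd hc (by intro h; cases h)
  | A l r ihl ihr =>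
    intro c0 h0 c1 h1' c2 h2' a0 a1 a2 b0 b1 b2 hc x rr z hx hr hz hr0
    rw [Tr.chk] at hc
    obtain ⟨hp, hc'⟩ := (Bool.and_eq_true _ _).mp hc
    obtain ⟨hcl, hcr⟩ := (Bool.and_eq_true _ _).mp hc'
    obtain ⟨⟨d1, d2⟩, ⟨d3, d4⟩⟩ := bnd c0 h0 a0 b0 hp
    rcases split x c0 h0 a0 hp hx with hs | hs
    · exact ihl _ _ _ _ _ _ d1 a1 a2 d2 b1 b2 hcl x rr z hs hr hz hr0
    · exact ihr _ _ _ _ _ _ d3 a1 a2 d4 b1 b2 hcr x rr z hs hr hz hr0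
  | B l r ihl ihr =>
    intro c0 h0 c1 h1' c2 h2' a0 a1 a2 b0 b1 b2 hc x rr z hx hr hz hr0
    rw [Tr.chk] at hc
    obtain ⟨hp, hc'⟩ := (Bool.and_eq_true _ _).mp hc
    obtain ⟨hcl, hcr⟩ := (Bool.and_eq_true _ _).mp hc'
    obtain ⟨⟨d1, d2⟩, ⟨d3, d4⟩⟩ := bnd c1 h1' a1 b1 hp
    rcases split rr c1 h1' a1 hp hr with hs | hs
    · exact ihl _ _ _ _ _ _ a0 d1 a2 b0 d2 b2 hcl x rr z hx hs hz hr0
    · exact ihr _ _ _ _ _ _ a0 d3 a2 b0 d4 b2 hcr x rr z hx hs hz hr0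
  | C l r ihl ihr =>
    intro c0 h0 c1 h1' c2 h2' a0 a1 a2 b0 b1 b2 hc x rr z hx hr hz hr0
    rw [Tr.chk] at hc
    obtain ⟨hp, hc'⟩ := (Bool.and_eq_true _ _).mp hc
    obtain ⟨hcl, hcr⟩ := (Bool.and_eq_true _ _).mp hc'
    obtain ⟨⟨d1, d2⟩, ⟨d3, d4⟩⟩ := bnd c2 h2' a2 b2 hp
    rcases split z c2 h2' a2 hp hz with hs | hs
    · exact ihl _ _ _ _ _ _ a0 a1 d1 b0 b1 d2 hcl x rr z hx hr hs hr0
    · exact ihr _ _ _ _ _ _ a0 a1 d3 b0 b1 d4 hcr x rr z hx hr hs hr0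

end Pool.Agent.FTA
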