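import Pool.Agent.FTA.Stmts

open Real

namespace Pool.Agent.FTA

namespace TRIG_

lemma sn_pos {e : ℝ} (h0 : 0 < e) (h2 : e < 2) : 0 < sn e := by
  unfold sn
  apply Real.sin_pos_of_pos_of_lt_pi
  · positivity
  · have := Real.pi_pos
    nlinarith

lemma prod1 (x y z : ℝ) : Real.sin z * Real.sin (x + y - z) - Real.sin (x - z) * Real.sin (y - z)
    = Real.cos (x + y - 2 * z) - Real.cos x * Real.cos y := by
  have h1 : Real.cos (x + y - 2 * z) - Real.cos (x + y) = 2 * (Real.sin z * Real.sin (x + y - z)) := by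
    have e1 : x + y - 2 * z = (x + y - z) - z := by ring
    have e2 : x + y = (x + y - z) + z := by ring
    rw [e1, Real.cos_sub]
    conv_lhs => rw [e2, Real.cos_add]
    rw [← e2]
    ring
  have h2 : Real.cos (x - y) - Real.cos (x + y - 2 * z) = 2 * (Real.sin (x - z) * Real.sin (y - z)) := by
    have e1 : x + y - 2 * z = (x - z) + (y - z) := by ring
    have e2 : x - y = (x - z) - (y - z) := by ring
    rw [e1, Real.cos_add, e2, Real.cos_sub]
    ring
  have h3 := Real.cos_add x y
  have h4 := Real.cos_sub x y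
  linarith

lemma prod2 (x y z : ℝ) : Real.sin (x - z) * Real.sin (x + y - z) - Real.sin z * Real.sin (y - z)
    = Real.cos y - Real.cos x * Real.cos (x + y - 2 * z) := by
  have h1 : Real.cos y - Real.cos (2 * x + y - 2 * z) = 2 * (Real.sin (x - z) * Real.sin (x + y - z)) := by
    have e1 : 2 * x + y - 2 * z = (x + y - z) + (x - z) := by ring
    have e2 : Real.cos y = Real.cos ((x + y - z) - (x - z)) := by congr 1; ring
    rw [e1, Real.cos_add, e2, Real.cos_sub]
    ring
  have h2 : Real.cos (y - 2 * z) - Real.cos y = 2 * (Real.sin z * Real.sin (y - z)) := by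
    have e1 : y - 2 * z = (y - z) - z := by ring
    have e2 : Real.cos y = Real.cos ((y - z) + z) := by congr 1; ring
    rw [e1, Real.cos_sub, e2, Real.cos_add]
    ring
  have h3 : Real.cos (2 * x + y - 2 * z) + Real.cos (y - 2 * z) = 2 * (Real.cos x * Real.cos (x + y - 2 * z)) := by
    have e1 : 2 * x + y - 2 * z = (x + y - 2 * z) + x := by ring
    have e2 : y - 2 * z = (x + y - 2 * z) - x := by ring
    have f1 := Real.cos_add (x + y - 2 * z) x
    have f2 := Real.cos_sub (x + y - 2 * z) x
    rw [← e1] at f1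
    rw [← e2] at f2
    rw [f1, f2]
    ring
  linarith

lemma gramId (x y z : ℝ) : 1 - Real.cos x ^ 2 - Real.cos y ^ 2 - Real.cos (x + y - 2 * z) ^ 2
      + 2 * (Real.cos x * Real.cos y * Real.cos (x + y - 2 * z))
    = 4 * (Real.sin z * Real.sin (x - z) * Real.sin (y - z) * Real.sin (x + y - z)) := by
  have h1 : Real.cos (x + y - 2 * z) - (Real.cos x * Real.cos y - Real.sin x * Real.sin y)
      = 2 * (Real.sin z * Real.sin (x + y - z)) := by
    have e1 : x + y - 2 * z = (x + y - z) - z := by ring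
    have e2 : Real.cos x * Real.cos y - Real.sin x * Real.sin y = Real.cos ((x + y - z) + z) := by
      rw [← Real.cos_add]; congr 1; ring
    rw [e2, e1, Real.cos_sub, Real.cos_add]
    ring
  have h2 : (Real.cos x * Real.cos y + Real.sin x * Real.sin y) - Real.cos (x + y - 2 * z)
      = 2 * (Real.sin (x - z) * Real.sin (y - z)) := by
    have e1 : x + y - 2 * z = (x - z) + (y - z) := by ring
    have e2 : Real.cos x * Real.cos y + Real.sin x * Real.sin y = Real.cos ((x - z) - (y - z)) := by
      rw [← Real.cos_sub]; congr 1; ring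
    rw [e2, e1, Real.cos_add, Real.cos_sub]
    ring
  have hx := Real.sin_sq_add_cos_sq x
  have hy := Real.sin_sq_add_cos_sq y
  have key : 4 * (Real.sin z * Real.sin (x - z) * Real.sin (y - z) * Real.sin (x + y - z))
      = (2 * (Real.sin z * Real.sin (x + y - z))) * (2 * (Real.sin (x - z) * Real.sin (y - z))) := by ring
  rw [key, ← h1, ← h2]
  have hx' : Real.sin x ^ 2 = 1 - Real.cos x ^ 2 := by linarith
  have hy' : Real.sin y ^ 2 = 1 - Real.cos y ^ 2 := by linarith
  have : (Real.sin x * Real.sin y) ^ 2 = (1 - Real.cos x ^ 2) * (1 - Real.cos y ^ 2) := by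
    rw [mul_pow, hx', hy']
  linear_combination (-1 : ℝ) * this

end TRIG_

open TRIG_ in
theorem trig_proof : Stmt_TRIG := by
  intro neg a b c e0 e1 e2 e3 ha hab hbc hc1 he0 h01 h02 hsum hc
  have hpi := Real.pi_pos
  have hE1 : e1 = a - e0 := by linarith
  have hE2 : e2 = b - e0 := by linarith
  have hE3 : e3 = 2 - a - b + e0 := by linarith
  have he0a : 2 * e0 ≤ a := by
    cases neg
    · simp at hc
      linarith
    · simp at hc
      linarith
  have p1 : 0 < e1 := by linarith
  have p2 : 0 < e2 := by linarith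
  have p3 : 0 < e3 := by linarith
  have s0 : 0 < sn e0 := sn_pos he0 (by linarith)
  have s1 : 0 < sn e1 := sn_pos p1 (by linarith)
  have s2 : 0 < sn e2 := sn_pos p2 (by linarith)
  have s3 : 0 < sn e3 := sn_pos p3 (by linarith)
  have sa : 0 < sn a := sn_pos ha (by linarith)
  have sb : 0 < sn b := sn_pos (by linarith) (by linarith)
  have sc : 0 < sn c := sn_pos (by linarith) (by linarith)
  -- the angles
  have q1 : sn e1 = Real.sin (π * a / 2 - π * e0 / 2) := by
    unfold sn; rw [hE1]; congr 1; ring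
  have q2 : sn e2 = Real.sin (π * b / 2 - π * e0 / 2) := by
    unfold sn; rw [hE2]; congr 1; ring
  have q3 : sn e3 = Real.sin (π * a / 2 + π * b / 2 - π * e0 / 2) := by
    unfold sn; rw [hE3, ← Real.sin_pi_sub]; congr 1; ring
  have q0 : sn e0 = Real.sin (π * e0 / 2) := rfl
  have qa : cn a = Real.cos (π * a / 2) := rfl
  have qb : cn b = Real.cos (π * b / 2) := rfl
  have hsg : sg neg * sg neg = 1 := by
    cases neg <;> simp [sg]
  have qc : sg neg * cn c = Real.cos (π * a / 2 + π * b / 2 - 2 * (π * e0 / 2)) := by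
    cases neg
    · simp at hc
      simp only [sg, cn]
      have : c = a + b - 2 * e0 := by linarith
      rw [this]
      simp
      congr 1; ring
    · simp at hc
      simp only [sg, cn]
      have : c = 2 - a - b + 2 * e0 := by linarith
      rw [this]
      simp
      rw [← Real.cos_pi_sub]
      congr 1; ring
  have hcc : cn c = sg neg * (sg neg * cn c) := by
    rw [← mul_assoc, hsg, one_mul]
  have hcc2 : cn c ^ 2 = (sg neg * cn c) ^ 2 := by
    have : (sg neg * cn c) ^ 2 = (sg neg * sg neg) * cn c ^ 2 := by ring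
    rw [this, hsg, one_mul]
  have hA := Real.sin_sq_add_cos_sq (π * a / 2)
  have hB := Real.sin_sq_add_cos_sq (π * b / 2)
  have hC := Real.sin_sq_add_cos_sq (π * c / 2)
  have hA' : sn a ^ 2 + cn a ^ 2 = 1 := hA
  have hB' : sn b ^ 2 + cn b ^ 2 = 1 := hB
  have hC' : sn c ^ 2 + cn c ^ 2 = 1 := hC
  have hg : gram a b c (sg neg) = 1 - cn a ^ 2 - cn b ^ 2 - (sg neg * cn c) ^ 2
      + 2 * (cn a * cn b * (sg neg * cn c)) := by
    unfold gram
    rw [← hcc2]; ring
  have hgram : gram a b c (sg neg) = 4 * (sn e0 * sn e1 * sn e2 * sn e3) := by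
    rw [hg, qc, qa, qb, q0, q1, q2, q3]
    exact gramId _ _ _
  have id1 : sn e0 * sn e3 - sn e1 * sn e2 = sg neg * cn c - cn a * cn b := by
    rw [qc, qa, qb, q0, q1, q2, q3]
    exact prod1 _ _ _
  have id2 : sn e1 * sn e3 - sn e0 * sn e2 = cn b - sg neg * (cn a * cn c) := by
    have : sg neg * (cn a * cn c) = cn a * (sg neg * cn c) := by ring
    rw [this, qc, qa, qb, q0, q1, q2, q3]
    exact prod2 _ _ _
  have id3 : sn e2 * sn e3 - sn e0 * sn e1 = cn a - sg neg * (cn b * cn c) := by
    have : sg neg * (cn b * cn c) = cn b * (sg neg * cn c) := by ring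
    rw [this, qc, qa, qb, q0, q1, q2, q3]
    have h := prod2 (π * b / 2) (π * a / 2) (π * e0 / 2)
    have e : π * b / 2 + π * a / 2 = π * a / 2 + π * b / 2 := by ring
    rw [e] at h
    exact h
  refine ⟨p1, p2, p3, s0, s1, s2, s3, sa, sb, sc, hgram, id1, id2, id3, ?_, ?_, ?_⟩
  · rw [hg]
    have t1 : sn a ^ 2 = 1 - cn a ^ 2 := by linarith
    have t2 : sn b ^ 2 = 1 - cn b ^ 2 := by linarith
    rw [mul_pow, t1, t2]; ring
  · rw [hg]
    have t1 : sn a ^ 2 = 1 - cn a ^ 2 := by linarith
    have t2 : sn c ^ 2 = 1 - cn c ^ 2 := by linarith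
    rw [mul_pow, t1, t2]
    linear_combination (cn c ^ 2 - cn b ^ 2) * hsg
  · rw [hg]
    have t1 : sn b ^ 2 = 1 - cn b ^ 2 := by linarith
    have t2 : sn c ^ 2 = 1 - cn c ^ 2 := by linarith
    rw [mul_pow, t1, t2]
    linear_combination (cn c ^ 2 - cn a ^ 2) * hsg

end Pool.Agent.FTA
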