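import Pool.Agent.FTA.BITS
import Pool.Agent.FTA.MUL
import Pool.Agent.FTA.ABS
import Pool.Agent.FTA.CORE
import Pool.Agent.FTA.CV
import Pool.Agent.FTA.CHN
import Pool.Agent.FTA.CHP
import Pool.Agent.FTA.CHE
import Pool.Agent.FTA.COVP
import Pool.Agent.FTA.EAC
import Pool.Agent.FTA.EAS
import Pool.Agent.FTA.TRIG
import Pool.Agent.FTA.ID
import Pool.Agent.FTA.TREE
import Pool.Agent.FTA.TREES
import Pool.Agent.FTA.PARQ
import Pool.Agent.FTA.PARV
import Pool.Agent.FTA.PARH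
import Pool.Agent.FTA.SLC
import Pool.Agent.FTA.PT
import Pool.Agent.FTA.MEAS
import Pool.Agent.FTA.AZI
import Pool.Agent.FTA.PW
import Pool.Agent.FTA.PR
import Pool.Agent.FTA.CONST
import Pool.Agent.FTA.KIT
import Pool.Agent.FTA.LIN
import Pool.Agent.FTA.POS
import Pool.Agent.FTA.INV
import Pool.Agent.FTA.RSQ
import Pool.Agent.FTA.OKF
import Pool.Agent.FTA.ESC
import Pool.Agent.FTA.ECS
import Pool.Agent.FTA.TMC
import Pool.Agent.FTA.PRIM
import Pool.Agent.FTA.POLE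
import Pool.Agent.FTA.QN
import Pool.Agent.FTA.QP
import Pool.Agent.FTA.AFF
import Pool.Agent.FTA.CN
import Pool.Agent.FTA.CA
import Pool.Agent.FTA.CB
import Pool.Agent.FTA.CEN
import Pool.Agent.FTA.CEP
import Pool.Agent.FTA.CEF
import Pool.Agent.FTA.REF
import Pool.Agent.FTA.HB
import Pool.Agent.FTA.COVN
import Pool.Agent.FTA.DEG
import Pool.Agent.FTA.GRAM
import Pool.Agent.FTA.MI
import Pool.Agent.FTA.SCHUR
import Pool.Agent.FTA.PSD
import Pool.Agent.FTA.TRI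
import Pool.Agent.FTA.SUM
import Pool.Agent.FTA.REG

/-! Assembly of the modules. -/

namespace Pool.Agent.FTA.Main

theorem m_KIT : Stmt_KIT := kit_proof
theorem m_CONST : Stmt_CONST := const_proof
theorem m_BITS : Stmt_BITS := bits_proof m_KIT m_CONST
theorem m_ABS : Stmt_ABS := abs_proof m_KIT m_CONST
theorem m_MUL : Stmt_MUL := mul_proof m_KIT m_CONST m_BITS m_ABS
theorem m_TRIG : Stmt_TRIG := trig_proof
theorem m_PRIM : Stmt_PRIM := prim_proof
theorem m_CORE : Stmt_CORE := core_proof m_TRIG m_PRIM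
theorem m_POLE : Stmt_POLE := pole_proof m_PRIM
theorem m_ID : Stmt_ID := id_proof
theorem m_CV : Stmt_CV := cv_proof m_POLE m_ID m_TRIG m_PRIM
theorem m_HB : Stmt_HB := hb_proof
theorem m_CHN : Stmt_CHN := chn_proof m_HB m_PRIM
theorem m_CHP : Stmt_CHP := chp_proof m_HB m_PRIM
theorem m_CHE : Stmt_CHE := che_proof m_HB m_PRIM
theorem m_LIN : Stmt_LIN := lin_proof m_KIT m_CONST m_BITS m_ABS
theorem m_POS : Stmt_POS := pos_proof m_KIT m_CONST m_ABS
theorem m_INV : Stmt_INV := inv_proof m_LIN m_MUL m_POS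
theorem m_RSQ : Stmt_RSQ := rsq_proof m_LIN m_MUL m_POS
theorem m_ESC : Stmt_ESC := esc_proof
theorem m_ECS : Stmt_ECS := ecs_proof
theorem m_EAC : Stmt_EAC := eac_proof
theorem m_EAS : Stmt_EAS := eas_proof
theorem m_TMC : Stmt_TMC := tmc_proof m_LIN m_MUL m_INV m_RSQ m_ESC m_ECS m_EAC m_EAS
theorem m_PARQ : Stmt_PARQ := parq_proof
theorem m_TREE : Stmt_TREE := tree_proof m_LIN m_POS
theorem m_RA : Stmt_RA := ra_proof m_TMC m_PARQ m_TREE
theorem m_RB : Stmt_RB := rb_proof m_TMC m_PARQ m_TREE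
theorem m_PARV : Stmt_PARV := parv_proof
theorem m_RV : Stmt_RV := rv_proof m_TMC m_PARV m_TREE
theorem m_PARH : Stmt_PARH := parh_proof
theorem m_RH : Stmt_RH := rh_proof m_TMC m_PARH m_TREE
theorem m_OKF : Stmt_OKF := okf_proof
theorem m_SLC : Stmt_SLC := slc_proof m_LIN m_MUL m_POS m_INV m_RSQ m_OKF m_ESC m_ECS m_EAC
theorem m_TREES : Stmt_TREES := trees_proof m_LIN m_POS m_OKF
theorem m_RS : Stmt_RS := rs_proof m_SLC m_PARQ m_PARV m_TREES
theorem m_QP : Stmt_QP := qp_proof m_ID m_POLE m_TRIG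
theorem m_CA : Stmt_CA := ca_proof m_CORE m_QP
theorem m_CB : Stmt_CB := cb_proof m_CORE m_QP
theorem m_AFF : Stmt_AFF := aff_proof
theorem m_CEP : Stmt_CEP := cep_proof m_CORE m_QP m_AFF
theorem m_CEF : Stmt_CEF := cef_proof m_CORE m_QP
theorem m_QN : Stmt_QN := qn_proof m_ID m_POLE m_TRIG
theorem m_REF : Stmt_REF := ref_proof m_CORE m_QN m_QP m_AFF m_PRIM
theorem m_COVP : Stmt_COVP := covp_proof m_RA m_RB m_RV m_RH m_RS m_CA m_CB m_CV m_CHP m_CHE m_CEP m_CEF m_REF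
theorem m_PT : Stmt_PT := pt_proof
theorem m_RN : Stmt_RN := rn_proof m_TMC m_PARQ m_TREE
theorem m_CN : Stmt_CN := cn_proof m_CORE m_QN
theorem m_CEN : Stmt_CEN := cen_proof m_CORE m_QN
theorem m_COVN : Stmt_COVN := covn_proof m_RN m_RH m_RS m_CN m_CHN m_CEN m_REF
theorem m_DEG : Stmt_DEG := deg_proof
theorem m_GRAM : Stmt_GRAM := gram_proof
theorem m_MI : Stmt_MI := mi_proof m_COVN m_COVP m_DEG m_GRAM
theorem m_TRI : Stmt_TRI := tri_proof m_MI
theorem m_SCHUR : Stmt_SCHUR := schur_proof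
theorem m_PW : Stmt_PW := pw_proof
theorem m_PR : Stmt_PR := pr_proof
theorem m_PSD : Stmt_PSD := psd_proof m_SCHUR m_PT m_PW m_PR
theorem m_AZI : Stmt_AZI := azi_proof
theorem m_SUM : Stmt_SUM := sum_proof m_TRI m_PSD m_AZI
theorem m_MEAS : Stmt_MEAS := meas_proof m_SUM

end Pool.Agent.FTA.Main
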