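import Pool.Agent.FTA.Stmts

/-! Parametricity of the programs near the corner (`hF`). -/

namespace Pool.Agent.FTA

namespace PARH_

variable {α β : Type} {A : Alg α} {B : Alg β} {R : α → β → Prop}

theorem one_r (h : Compat A B R) : R A.one B.one := h.cst _ _ _
theorem om_r (h : Compat A B R) {x : α} {y : β} (hx : R x y) : R (A.om x) (B.om y) := h.sub (one_r h) hx
theorem op_r (h : Compat A B R) {x : α} {y : β} (hx : R x y) : R (A.op x) (B.op y) := h.add (one_r h) hx
theorem dbl_r (h : Compat A B R) {x : α} {y : β} (hx : R x y) : R (A.dbl x) (B.dbl y) := h.smul _ _ hx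

theorem horner_r (h : Compat A B R) {x : α} {y : β} (hx : R x y) :
    ∀ l : List (Bool × Nat), R (A.horner x l) (B.horner y l)
  | [] => h.cst _ _ _
  | [_] => h.cst _ _ _
  | _ :: d :: l => h.add (h.cst _ _ _) (h.mul hx (horner_r h hx (d :: l)))

theorem sc_r (h : Compat A B R) {x : α} {y : β} (hx : R x y) : R (A.sc x) (B.sc y) :=
  h.wsc hx (horner_r h (h.mul hx hx) scC)
theorem cs_r (h : Compat A B R) {x : α} {y : β} (hx : R x y) : R (A.cs x) (B.cs y) :=
  h.wcs hx (horner_r h (h.mul hx hx) csC)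
theorem as_r (h : Compat A B R) {x : α} {y : β} (hx : R x y) : R (A.as x) (B.as y) :=
  h.was hx (horner_r h hx asC)

theorem cases_r {b : Bool} {x y : α} {x' y' : β} (hx : R x x') (hy : R y y') :
    R (Bool.casesOn (motive := fun _ => α) b x y) (Bool.casesOn (motive := fun _ => β) b x' y') := by
  cases b
  · exact hx
  · exact hy

structure CmpR (R : α → β → Prop) (P : Cmp α) (Q : Cmp β) : Prop where
  x : R P.x Q.x
  z : R P.z Q.z
  S : R P.S Q.S
  C : R P.C Q.C
  m : R P.m Q.m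
  D : R P.D Q.D
  p : R P.p Q.p
  q : R P.q Q.q
  s : R P.s Q.s

theorem cmp_r (h : Compat A B R) {x : α} {y : β} (hx : R x y) : CmpR R (cmp A x) (cmp B y) := by
  unfold cmp
  extract_lets z C m D z' C' m' D'
  have hz : R z z' := sc_r h hx
  clear_value z z'
  have hC : R C C' := h.mul hx hz
  clear_value C C'
  have hm : R m m' := h.mul hC hz
  clear_value m m'
  have hD : R D D' := om_r h hm
  clear_value D D'
  exact
    { x := hx
      z := hz
      S := cs_r h hx
      C := hC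
      m := hm
      D := hD
      p := op_r h (h.smul _ _ hD)
      q := h.add (h.cst _ _ _) (h.smul _ _ hD)
      s := h.add (h.cst _ _ _) (h.smul _ _ hD) }

theorem hF_r (h : Compat A B R) (neg ez : Bool) {al s u v : α} {al' s' u' v' : β} (hal : R al al') (hs : R s s')
    (hu : R u u') (hv : R v v') :
    R (hF A neg ez al s u v).1 (hF B neg ez al' s' u' v').1 ∧
    R (hF A neg ez al s u v).2 (hF B neg ez al' s' u' v').2 := by
  unfold hF
  extract_lets be gm a b c cab cac cbc ia ib ic iab iac ibc su us Ab Ac tzb txb Cb tya tz tx ty z2 x2 y2 ezb exb abc ww ry eya epz epx epy mB mC zz k1 dz k2 zu dx k3 zs dy l1 l2 l3 pr one P1 P2 P3 lin L2 zt xt yt L3 Wz Wx Wy WT o2a RT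
    be' gm' a' b' c' cab' cac' cbc' ia' ib' ic' iab' iac' ibc' su' us' Ab' Ac' tzb' txb' Cb' tya' tz' tx' ty' z2' x2' y2' ezb' exb' abc' ww' ry' eya' epz' epx' epy' mB' mC' zz' k1' dz' k2' zu' dx' k3' zs' dy' l1' l2' l3' pr' one' P1' P2' P3' lin' L2' zt' xt' yt' L3' Wz' Wx' Wy' WT' o2a' RT'
  have hbe : R be be' := (h.mul hal hs)
  clear_value be be'
  have hgm : R gm gm' := (h.mul hbe hu)
  clear_value gm gm'
  have ha : CmpR R a a' := (cmp_r h hal)
  clear_value a a'
  have hb : CmpR R b b' := (cmp_r h hbe)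
  clear_value b b'
  have hc : CmpR R c c' := (cmp_r h hgm)
  clear_value c c'
  have hcab : R cab cab' := (h.mul ha.S hb.S)
  clear_value cab cab'
  have hcac : R cac cac' := (h.mul ha.S hc.S)
  clear_value cac cac'
  have hcbc : R cbc cbc' := (h.mul hb.S hc.S)
  clear_value cbc cbc'
  have hia : R ia ia' := (h.inv ha.S)
  clear_value ia ia'
  have hib : R ib ib' := (h.inv hb.S)
  clear_value ib ib'
  have hic : R ic ic' := (h.inv hc.S)
  clear_value ic ic'
  have hiab : R iab iab' := (h.mul hia hib)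
  clear_value iab iab'
  have hiac : R iac iac' := (h.mul hia hic)
  clear_value iac iac'
  have hibc : R ibc ibc' := (h.mul hib hic)
  clear_value ibc ibc'
  have hsu : R su su' := (h.mul hs hu)
  clear_value su su'
  have hus : R us us' := (h.mul hu hc.z)
  clear_value us us'
  have hAb : R Ab Ab' := (h.mul ha.C hb.z)
  clear_value Ab Ab'
  have hAc : R Ac Ac' := (h.mul ha.C hc.z)
  clear_value Ac Ac'
  have htzb : R tzb tzb' := (h.mul (cases_r (cases_r (h.sub hus hAb) (h.sub hAb hus)) (h.add hus hAb)) hiab)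
  clear_value tzb tzb'
  have htxb : R txb txb' := (h.mul (cases_r (h.sub hb.z (h.mul hu hAc)) (h.add hb.z (h.mul hu hAc))) hiac)
  clear_value txb txb'
  have hCb : R Cb Cb' := (h.mul (h.mul hs hc.C) hb.z)
  clear_value Cb Cb'
  have htya : R tya tya' := (h.mul (cases_r (h.sub ha.z hCb) (h.add ha.z hCb)) hibc)
  clear_value tya tya'
  have htz : R tz tz' := (h.mul htzb hbe)
  clear_value tz tz'
  have htx : R tx tx' := (h.mul htxb hbe)
  clear_value tx tx'
  have hty : R ty ty' := (h.mul htya hal)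
  clear_value ty ty'
  have hz2 : R z2 z2' := (h.mul htz htz)
  clear_value z2 z2'
  have hx2 : R x2 x2' := (h.mul htx htx)
  clear_value x2 x2'
  have hy2 : R y2 y2' := (h.mul hty hty)
  clear_value y2 y2'
  have hezb : R ezb ezb' := (h.mul (as_r h hz2) htzb)
  clear_value ezb ezb'
  have hexb : R exb exb' := (h.mul (as_r h hx2) htxb)
  clear_value exb exb'
  have habc : R abc abc' := (dbl_r h (h.mul (h.mul ha.C hb.C) hc.C))
  clear_value abc abc'
  have hww : R ww ww' := (h.mul (cases_r (h.sub (h.add (h.mul hb.C hb.C) (h.mul hc.C hc.C)) habc) (h.add (h.add (h.mul hb.C hb.C) (h.mul hc.C hc.C)) habc)) (h.mul hia hia))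
  clear_value ww ww'
  have hry : R ry ry' := (h.mul (h.mul hcbc hia) (h.rsq (om_r h hww)))
  clear_value ry ry'
  have heya : R eya eya' := (h.mul (as_r h hy2) htya)
  clear_value eya eya'
  have hepz : R epz epz' := (h.mul hezb hbe)
  clear_value epz epz'
  have hepx : R epx epx' := (h.mul hexb hbe)
  clear_value epx epx'
  have hepy : R epy epy' := (h.mul heya hal)
  clear_value epy epy'
  have hmB : R mB mB' := (h.mul hb.m hs)
  clear_value mB mB'
  have hmC : R mC mC' := (h.mul hc.m hsu)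
  clear_value mC mC'
  have hzz : R zz zz' := (h.mul ha.z hb.z)
  clear_value zz zz'
  have hk1 : R k1 k1' := (h.mul (h.mul hus (h.sub (h.add ha.m hmB) (h.mul ha.m (h.mul hb.C hb.C)))) (h.inv (op_r h hcab)))
  clear_value k1 k1'
  have hdz : R dz dz' := (cases_r (cases_r (h.mul (h.sub hzz hk1) hiab) (h.sub (h.mul (h.mul hv hc.z) (op_r h hiab)) (h.mul hzz hiab))) (h.mul (h.sub (h.cst false 0 0) (h.add hzz hk1)) hiab))
  clear_value dz dz'
  have hk2 : R k2 k2' := (h.mul (h.mul hb.z (h.sub (h.add ha.m hmC) (h.mul ha.m (h.mul hc.C hc.C)))) (h.inv (op_r h hcac)))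
  clear_value k2 k2'
  have hzu : R zu zu' := (h.mul ha.z hus)
  clear_value zu zu'
  have hdx : R dx dx' := (h.mul (cases_r (h.sub hzu hk2) (h.sub (h.cst false 0 0) (h.add hzu hk2))) hiac)
  clear_value dx dx'
  have hk3 : R k3 k3' := (h.mul (h.mul ha.z (h.sub (h.add hb.m (h.mul hc.m hu)) (h.mul hb.m (h.mul hc.C hc.C)))) (h.inv (op_r h hcbc)))
  clear_value k3 k3'
  have hzs : R zs zs' := (h.mul (h.mul hb.z hsu) hc.z)
  clear_value zs zs'
  have hdy : R dy dy' := (h.mul (cases_r (h.sub hzs hk3) (h.sub (h.cst false 0 0) (h.add hzs hk3))) hibc)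
  clear_value dy dy'
  have hl1 : R l1 l1' := (h.mul hdz (h.add (h.mul h.ip (h.rsq (om_r h hz2))) (h.smul 1 1 (h.add hc.C htz))))
  clear_value l1 l1'
  have hl2 : R l2 l2' := (h.mul hdx (h.add (h.mul h.ip (h.rsq (om_r h hx2))) (h.smul 1 1 (h.add hb.C htx))))
  clear_value l2 l2'
  have hl3 : R l3 l3' := (h.mul hdy (h.add (h.mul h.ip hry) (h.smul 1 1 (h.add ha.C hty))))
  clear_value l3 l3'
  have hpr : ∀ (f : Cmp α → α) (f' : Cmp β → β), R (f a) (f' a') → R (f b) (f' b') → R (f c) (f' c') →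
      ∀ {wz wx wy : α} {wz' wx' wy' : β}, R wz wz' → R wx wx' → R wy wy' → R (pr f wz wx wy) (pr' f' wz' wx' wy') := by
    intro f f' fa fb fc wz wx wy wz' wx' wy' hwz hwx hwy
    exact (h.add (h.mul (h.mul fa fb) hwz) (h.add (h.mul (h.mul hu (h.mul fa fc)) hwx) (h.mul (h.mul hsu (h.mul fb fc)) hwy)))
  clear_value pr pr'
  have hone : R one one' := (one_r h)
  clear_value one one'
  have hP1 : R P1 P1' := (h.smul 3 1 (h.add (h.mul ha.p hb.p) (h.add (h.mul hu (h.mul ha.p hc.p)) (h.mul hsu (h.mul hb.p hc.p)))))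
  clear_value P1 P1'
  have hP2 : R P2 P2' := (h.smul 4 0 (hpr (fun k => k.q) (fun k => k.q) ha.q hb.q hc.q (h.sub hone (dbl_r h hepz)) (h.sub hone (dbl_r h hepx)) (h.sub hone (dbl_r h hepy))))
  clear_value P2 P2'
  have hP3 : R P3 P3' := (h.smul 4 0 (hpr (fun k => k.s) (fun k => k.s) ha.s hb.s hc.s (h.sub hone (dbl_r h hz2)) (h.sub hone (dbl_r h hx2)) (h.sub hone (dbl_r h hy2))))
  clear_value P3 P3'
  have hlin : ∀ (f : Cmp α → α) (f' : Cmp β → β), R (f a) (f' a') → R (f b) (f' b') → R (f c) (f' c') →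
      ∀ {wz wx wy : α} {wz' wx' wy' : β}, R wz wz' → R wx wx' → R wy wy' → R (lin f wz wx wy) (lin' f' wz' wx' wy') := by
    intro f f' fa fb fc wz wx wy wz' wx' wy' hwz hwx hwy
    exact (dbl_r h (h.add (h.mul (h.add fa (h.mul hs fb)) hwz) (h.add (h.mul (h.add fa (h.mul hsu fc)) hwx) (h.mul (h.add fb (h.mul hu fc)) hwy))))
  clear_value lin lin'
  have hL2 : R L2 L2' := (hlin (fun k => k.q) (fun k => k.q) ha.q hb.q hc.q hezb hexb heya)
  clear_value L2 L2'
  have hzt : R zt zt' := (h.mul htz htzb)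
  clear_value zt zt'
  have hxt : R xt xt' := (h.mul htx htxb)
  clear_value xt xt'
  have hyt : R yt yt' := (h.mul hty htya)
  clear_value yt yt'
  have hL3 : R L3 L3' := (hlin (fun k => k.s) (fun k => k.s) ha.s hb.s hc.s hzt hxt hyt)
  clear_value L3 L3'
  have hWz : R Wz Wz' := (h.mul (h.mul (h.sub (h.cst false 5 2) (h.smul 1 1 (h.mul hcab hAb))) hs) (h.smul 1 1 (h.add htzb hezb)))
  clear_value Wz Wz'
  have hWx : R Wx Wx' := (h.mul (h.mul (h.sub (h.cst false 5 2) (h.smul 1 1 (h.mul hcac hAc))) hsu) (h.smul 1 1 (h.add htxb hexb)))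
  clear_value Wx Wx'
  have hWy : R Wy Wy' := (h.mul (h.mul (h.sub (h.cst false 5 2) (h.smul 1 1 (h.mul hcbc (h.mul hb.C hc.z)))) hu) (h.smul 1 1 (h.add htya heya)))
  clear_value Wy Wy'
  have hWT : R WT WT' := (cases_r (h.add (cases_r (h.sub (h.cst false 0 0) hWz) hWz) (h.sub (h.cst false 0 0) (h.add hWx hWy))) (h.add hWz (h.add hWx hWy)))
  clear_value WT WT'
  have ho2a : R o2a o2a' := (h.smul 5 2 (om_r h (dbl_r h hal)))
  clear_value o2a o2a'
  have hRT : R RT RT' := (h.sub (h.smul 93 7 (hpr (fun k => k.D) (fun k => k.D) ha.D hb.D hc.D hz2 hx2 hy2)) (h.add (h.mul (h.mul ho2a hs) hzt) (h.add (h.mul (h.mul ho2a hsu) hxt) (h.mul (h.mul (h.smul 5 2 (om_r h (dbl_r h hbe))) hu) hyt))))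
  clear_value RT RT'
  exact ⟨(h.add (h.add (h.add hl1 (h.add hl2 hl3)) (h.sub (h.add hP2 hP3) hP1)) (h.add (h.add hL2 hL3) (h.add hWT hRT))),
    htzb⟩

end PARH_

theorem parh_proof : Stmt_PARH := by
  intro α β A B R h a x t a' x' t' ha hx ht
  have h1 := PARH_.hF_r h true false ha hx ht ht
  have h2 := PARH_.hF_r h false false ha hx ht ht
  have h3 := PARH_.hF_r h false true ha hx (h.mul ha ht) ht
  refine ⟨?_, ?_, ?_⟩
  · exact List.Forall₂.cons (List.Forall₂.cons h1.1 List.Forall₂.nil) List.Forall₂.nil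
  · exact List.Forall₂.cons (List.Forall₂.cons (h.sub (h.cst _ _ _) h2.2)
      (List.Forall₂.cons h2.1 List.Forall₂.nil)) List.Forall₂.nil
  · exact List.Forall₂.cons (List.Forall₂.cons (h.sub (h.cst _ _ _) h3.2)
      (List.Forall₂.cons h3.1 List.Forall₂.nil)) List.Forall₂.nil

end Pool.Agent.FTA
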