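import Pool.Agent.FTA.Stmts

open Real

namespace Pool.Agent.FTA

namespace POLE_

lemma sn_pos {e : ℝ} (h0 : 0 < e) (h2 : e ≤ 1) : 0 < sn e := by
  unfold sn
  apply Real.sin_pos_of_pos_of_lt_pi
  · positivity
  · have := Real.pi_pos
    nlinarith

lemma kap {t y : ℝ} (h0 : 0 ≤ t) (hy : 0 < y) (h : t ^ 2 + y ^ 2 = 1) :
    y * acR t = 2 / π * Real.arccos t := by
  have ht : t ≠ 1 := by
    rintro rfl
    have : y ^ 2 = 0 := by linarith
    have := pow_pos hy 2
    linarith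
  unfold acR
  rw [if_neg ht]
  have : √(1 - t ^ 2) = y := by
    rw [show 1 - t ^ 2 = y ^ 2 by linarith]
    exact Real.sqrt_sq hy.le
  rw [this]
  field_simp

lemma t_lt {t y : ℝ} (h0 : 0 ≤ t) (hy : 0 < y) (h : t ^ 2 + y ^ 2 = 1) : t < 1 := by
  nlinarith [pow_pos hy 2]

lemma T2_eq {t : ℝ} (h0 : 0 ≤ t) (h1 : t ≤ 1) : T2 t = 1 - 2 * (2 / π * Real.arccos t) := by
  unfold T2
  have hpi := Real.pi_pos
  have h : Real.arccos (2 * t ^ 2 - 1) = 2 * Real.arccos t := by
    have hc : Real.cos (2 * Real.arccos t) = 2 * t ^ 2 - 1 := by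
      rw [Real.cos_two_mul, Real.cos_arccos (by linarith) h1]
    rw [← hc]
    apply Real.arccos_cos
    · have := Real.arccos_nonneg t
      linarith
    · have : Real.arccos t ≤ π / 2 := Real.arccos_le_pi_div_two.mpr h0
      linarith
  have h2 : Real.arcsin (2 * t ^ 2 - 1) = π / 2 - 2 * Real.arccos t := by
    rw [← h, Real.arccos]; ring
  rw [h2]
  field_simp
  

lemma T1_eq (t : ℝ) : T1 t = 1 - 2 / π * Real.arccos t := by
  unfold T1
  have hpi := Real.pi_pos
  rw [Real.arccos]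
  field_simp
  ring

lemma T2_neg (t : ℝ) : T2 (-t) = T2 t := by
  unfold T2; ring_nf

lemma T1_neg (t : ℝ) : T1 (-t) = - T1 t := by
  unfold T1; rw [Real.arcsin_neg]; ring

lemma T2_one : T2 1 = 1 := by
  rw [T2_eq (by norm_num) le_rfl]; simp

lemma T1_one : T1 1 = 1 := by
  rw [T1_eq]; simp

lemma sinpi (p : ℝ) : Real.sin (π * p) = 2 * (sn p * cn p) := by
  unfold sn cn
  have : π * p = 2 * (π * p / 2) := by ring
  conv_lhs => rw [this]
  rw [Real.sin_two_mul]
  ring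

/-- the differences of `F` in terms of `κ` -/
lemma dA (p q : ℝ) {t y k : ℝ} (h0 : 0 ≤ t) (h1 : t ≤ 1) (h : t ^ 2 + y ^ 2 = 1) (hk : k = 2 / π * Real.arccos t) :
    F p q 1 - F p q t = 8 * (p2 p * p2 q) * k + 8 * (p3 p * p3 q) * y ^ 2 + Wf p q * ((1 - t) + k) / 2 + Rf p q * y ^ 2 := by
  unfold F
  rw [T2_one, T1_one, T2_eq h0 h1, T1_eq, ← hk]
  have : t ^ 2 = 1 - y ^ 2 := by linarith
  rw [this]; ring

lemma dO (p q : ℝ) {t y k : ℝ} (h0 : t ≤ 0) (h1 : -1 ≤ t) (h : t ^ 2 + y ^ 2 = 1) (hk : k = 2 / π * Real.arccos (-t)) :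
    F p q (-1) - F p q t = 8 * (p2 p * p2 q) * k + 8 * (p3 p * p3 q) * y ^ 2 - Wf p q * ((1 - (-t)) + k) / 2 + Rf p q * y ^ 2 := by
  unfold F
  have e1 : T2 t = T2 (-t) := (T2_neg t).symm
  have e2 : T1 t = - T1 (-t) := by rw [T1_neg]; ring
  rw [e1, e2, T2_neg, T1_neg, T2_one, T1_one, T2_eq (by linarith) (by linarith), T1_eq, ← hk]
  have : t ^ 2 = 1 - y ^ 2 := by linarith
  rw [this]; ring

lemma dE (p q : ℝ) {t y k : ℝ} (h0 : 0 ≤ t) (h1 : t ≤ 1) (h : t ^ 2 + y ^ 2 = 1) (hk : k = 2 / π * Real.arccos t) :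
    F p q (-1) - F p q t = 8 * (p2 p * p2 q) * k + 8 * (p3 p * p3 q) * y ^ 2 - Wf p q * ((1 + t) + 2 - k) / 2 + Rf p q * y ^ 2 := by
  unfold F
  rw [T2_neg, T1_neg, T2_one, T1_one, T2_eq h0 h1, T1_eq, ← hk]
  have : t ^ 2 = 1 - y ^ 2 := by linarith
  rw [this]; ring

lemma W_eq {p q : ℝ} (hp : 0 < sn p) (hq : 0 < sn q) (hpq : p ≤ q) :
    sn p * sn q * Wp reA (nside p) (nside q) (kk p q / sn p) (sn q)⁻¹ = Wf p q := by
  simp only [Wp, nside, reA, Wf, sinpi, min_eq_left hpq]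
  have h1 : sn p ≠ 0 := hp.ne'
  have h2 : sn q ≠ 0 := hq.ne'
  field_simp
  ring

lemma R_eq {p q : ℝ} (hp : 0 < sn p) (hq : 0 < sn q) (hpq : p ≤ q) :
    sn p * sn q * Rp reA (nside p) (nside q) (kk p q / sn p) (sn q)⁻¹ = Rf p q := by
  simp only [Rp, nside, reA, Rf, De, Alg.om, Alg.dbl, Alg.one, dy, min_eq_left hpq, max_eq_right hpq]
  have h1 : sn p ≠ 0 := hp.ne'
  have h2 : sn q ≠ 0 := hq.ne'
  simp
  field_simp
  ring

lemma even_eq {p q : ℝ} (hp : 0 < sn p) (hq : 0 < sn q) (hpq : p ≤ q) (y k ac : ℝ) (hk : y * ac = k) :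
    y * (sn p * sn q) * evenP reA (nside p) (nside q) y ac (Rp reA (nside p) (nside q) (kk p q / sn p) (sn q)⁻¹)
      = 8 * (p2 p * p2 q) * k + 8 * (p3 p * p3 q) * y ^ 2 + Rf p q * y ^ 2 := by
  have hR := R_eq hp hq hpq
  set R := Rp reA (nside p) (nside q) (kk p q / sn p) (sn q)⁻¹ with hRdef
  clear_value R
  have h1 : sn p ≠ 0 := hp.ne'
  have h2 : sn q ≠ 0 := hq.ne'
  simp only [evenP, nside, reA]
  rw [← hR, ← hk]
  field_simp
  ring

end POLE_

open POLE_ in
theorem pole_proof (h1 : Stmt_PRIM) : Stmt_POLE := by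
  obtain ⟨_, _, hac, _⟩ := h1
  intro p q t y D hp hpq hq hy hty hD
  have sp : 0 < sn p := sn_pos hp (by linarith)
  have sq : 0 < sn q := sn_pos (by linarith) hq
  have ht2 : t ^ 2 < 1 := by nlinarith [pow_pos hy 2]
  have ht1 : t < 1 := by nlinarith
  have ht1' : -1 < t := by nlinarith
  have hW := W_eq sp sq hpq
  refine ⟨fun h0 => ?_, fun h0 => ?_, fun h0 => ?_⟩
  · rw [dA p q h0 ht1.le hty rfl]
    have hk := kap h0 hy hty
    have he := even_eq sp sq hpq y _ _ hk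
    unfold poleA
    simp only
    rw [hac t h0 ht1.le]
    have hadd : ∀ a b : ℝ, reA.add a b = a + b := fun _ _ => rfl
    rw [hadd, mul_add, hD, he]
    have ho : y * (sn p * sn q) * oddP reA (Wp reA (nside p) (nside q) (kk p q / sn p) (sn q)⁻¹) y t (acR t)
        = Wf p q * ((1 - t) + 2 / π * Real.arccos t) / 2 := by
      rw [← hk, ← hW]
      set W := Wp reA (nside p) (nside q) (kk p q / sn p) (sn q)⁻¹
      clear_value W
      simp only [oddP, reA, Alg.op, Alg.one, dy]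
      have h1t : (1 + t) ≠ 0 := by positivity
      have e1 : y * y * (1 + t)⁻¹ = 1 - t := by
        rw [show y * y = (1 - t) * (1 + t) by nlinarith]
        field_simp
      have e2 : ((if False then (-1 : ℝ) else 1) * ((1 : ℕ) : ℝ) / 2 ^ 0 + t)⁻¹ = (1 + t)⁻¹ := by simp
      simp
      calc y * (sn p * sn q) * (2⁻¹ * (W * (y * (1 + t)⁻¹ + acR t)))
          = sn p * sn q * W * (y * y * (1 + t)⁻¹ + y * acR t) / 2 := by ring
        _ = _ := by rw [e1]
    rw [ho]; ring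
  · rw [dO p q h0 ht1'.le hty rfl]
    have hty' : (-t) ^ 2 + y ^ 2 = 1 := by rw [neg_sq]; exact hty
    have hk := kap (t := -t) (by linarith) hy hty'
    have he := even_eq sp sq hpq y _ _ hk
    unfold poleO
    simp only
    rw [hac (-t) (by linarith) (by linarith)]
    have hsub : ∀ a b : ℝ, reA.sub a b = a - b := fun _ _ => rfl
    rw [hsub, mul_sub, hD, he]
    have ho : y * (sn p * sn q) * oddP reA (Wp reA (nside p) (nside q) (kk p q / sn p) (sn q)⁻¹) y (-t) (acR (-t))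
        = Wf p q * ((1 - (-t)) + 2 / π * Real.arccos (-t)) / 2 := by
      rw [← hk, ← hW]
      set W := Wp reA (nside p) (nside q) (kk p q / sn p) (sn q)⁻¹
      clear_value W
      simp only [oddP, reA, Alg.op, Alg.one, dy]
      have h1t : (1 + -t) ≠ 0 := by
        have : 0 < 1 + -t := by linarith
        exact this.ne'
      have e1 : y * y * (1 + -t)⁻¹ = 1 - -t := by
        rw [show y * y = (1 - -t) * (1 + -t) by nlinarith]
        field_simp
      simp only [Bool.false_eq_true, if_false, Nat.cast_one, pow_zero, pow_one]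
      calc y * (sn p * sn q) * (1 / 2 * (W * (y * (1 * 1 / 1 + -t)⁻¹ + acR (-t))))
          = sn p * sn q * W * (y * y * (1 + -t)⁻¹ + y * acR (-t)) / 2 := by ring
        _ = _ := by rw [e1]
    rw [ho]; ring
  · rw [dE p q h0 ht1.le hty rfl]
    have hk := kap h0 hy hty
    have he := even_eq sp sq hpq y _ _ hk
    unfold poleE
    simp only
    rw [hac t h0 ht1.le]
    have hsub : ∀ a b : ℝ, reA.sub a b = a - b := fun _ _ => rfl
    rw [hsub, mul_sub, hD, he]
    have ho : y * (sn p * sn q) * (reA.smul 1 1 (reA.mul (Wp reA (nside p) (nside q) (kk p q / sn p) (sn q)⁻¹)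
        (reA.add (reA.mul y (reA.inv (reA.om t))) (reA.sub (reA.dbl (reA.inv y)) (acR t)))))
        = Wf p q * ((1 + t) + 2 - 2 / π * Real.arccos t) / 2 := by
      rw [← hk, ← hW]
      set W := Wp reA (nside p) (nside q) (kk p q / sn p) (sn q)⁻¹
      clear_value W
      simp only [reA, Alg.om, Alg.dbl, Alg.one, dy]
      have h1t : (1 - t) ≠ 0 := by
        have : 0 < 1 - t := by linarith
        exact this.ne'
      have e1 : y * y * (1 - t)⁻¹ = 1 + t := by
        rw [show y * y = (1 + t) * (1 - t) by nlinarith]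
        field_simp
      have e2 : y * y⁻¹ = 1 := mul_inv_cancel₀ hy.ne'
      simp only [Bool.false_eq_true, if_false, Nat.cast_one, Nat.cast_ofNat, pow_zero, pow_one]
      calc y * (sn p * sn q) * (1 / 2 * (W * (y * (1 * 1 / 1 - t)⁻¹ + (2 / 1 * y⁻¹ - acR t))))
          = sn p * sn q * W * (y * y * (1 - t)⁻¹ + 2 * (y * y⁻¹) - y * acR t) / 2 := by ring
        _ = _ := by rw [e1, e2]; ring
    rw [ho]; ring

end Pool.Agent.FTA
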