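import Pool.Agent.FTA.Region

/-! Slope arithmetic: triples `(f0, f, X)` with `f = f0 + r X`, where `r` is the chart variable number 1. -/

namespace Pool.Agent.FTA

structure SL where
  v0 : TM
  v : TM
  X : TM

def TM.zero : TM := TM.mk BE 0 0 true
def TM.okf (a : TM) : Bool := TM.casesOn (motive := fun _ => Bool) a fun _ _ _ o => o

def SL.mul (a b : SL) : SL :=
  SL.mk (TM.mul a.v0 b.v0) (TM.mul a.v b.v) (TM.add (TM.mul a.v0 b.X) (TM.mul a.X b.v))

def SL.inv (a : SL) : SL :=
  let i0 := TM.inv a.v0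
  let i := TM.inv a.v
  SL.mk i0 i (TM.sub TM.zero (TM.mul (TM.mul a.X i) i0))

def SL.rsq (a : SL) : SL :=
  let g0 := TM.rsq a.v0
  let g := TM.rsq a.v
  let h := TM.mul g g0
  SL.mk g0 g (TM.sub TM.zero (TM.mul a.X (TM.mul (TM.mul h h) (TM.inv (TM.add g g0)))))

/-- `e` = error, `l` = Lipschitz constant of the error (scale `2 ^ 30`) -/
def SL.wob (e l : Nat) (x y : SL) : SL :=
  SL.mk (TM.rad y.v0 e (TM.okf x.v0)) (TM.rad y.v e (TM.okf x.v))
    (TM.rad y.X (Nat.add (Nat.shiftRight (Nat.mul l (TM.dev x.X)) 30) 1) (TM.okf x.X))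

/-- the algebra of slope models -/
def slA : Alg SL where
  cst := fun s p q => SL.mk (TM.cst s p q) (TM.cst s p q) TM.zero
  add := fun a b => SL.mk (TM.add a.v0 b.v0) (TM.add a.v b.v) (TM.add a.X b.X)
  sub := fun a b => SL.mk (TM.sub a.v0 b.v0) (TM.sub a.v b.v) (TM.sub a.X b.X)
  mul := SL.mul
  smul := fun p q a => SL.mk (TM.smul p q a.v0) (TM.smul p q a.v) (TM.smul p q a.X)
  inv := SL.inv
  rsq := SL.rsq
  wsc := SL.wob 256 8192
  wcs := SL.wob 1024 16384
  wac := SL.wob 2048 262144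
  was := fun _ y => SL.mk (TM.rad y.v0 0 false) (TM.rad y.v 0 false) (TM.rad y.X 0 false)
  ip := SL.mk tmA.ip tmA.ip TM.zero

/-- a variable that does not depend on `r` -/
def SL.free (i c h : Nat) : SL := SL.mk (TM.var i c h) (TM.var i c h) TM.zero
/-- the variable `r` itself -/
def SL.r (c h : Nat) : SL := SL.mk TM.zero (TM.var 7 c h) TM.one

section
variable {α : Type} (A : Alg α)

/-- negative type near `V1`: `a`, `xi = r`, `x = s` -/
def fN (a r s : α) : List α := [eN A a r s]

def fPm (a xi gm : α) : List α :=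
  [eP A 0 false a xi gm, eP A 0 true a xi gm, eP A 1 false a xi gm, eP A 1 true a xi gm, eP A 2 false a xi gm, eP A 2 true a xi gm]
/-- positive type near `V1`: `xi = r`, `gm = r s` -/
def fP1 (a r s : α) : List α := fPm A a r (A.mul r s)
/-- positive type near `V1`: `gm = r`, `xi = r s` -/
def fP2 (a r s : α) : List α := fPm A a (A.mul r s) r

/-- positive type, `a` away from `0` -/
def fF1 (a r s : α) : List α := [eF A false a r (A.mul r s), eF A true a r (A.mul r s)]
def fF2 (a r s : α) : List α := [eF A false a (A.mul r s) r, eF A true a (A.mul r s) r]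

/-- corner of the chart `V`: `1 - rho`, `b`, `t` -/
def fV (x b t : α) : List α := [(cV A false (A.om x) b t).o]
def fV1 (w r s : α) : List α := fV A r (A.mul r s) (A.mul r w)
def fV2 (w r s : α) : List α := fV A (A.mul r s) r (A.mul r w)
def fV3 (w r s : α) : List α := fV A (A.mul r s) (A.mul r w) r

end

def leafS (g : Alg SL → SL → SL → SL → List SL) (c0 h0 c1 h1 c2 h2 : Nat) : Bool :=
  (g slA (SL.free 1 c0 h0) (SL.r c1 h1) (SL.free 49 c2 h2)).all (fun q => TM.pos q.X)

end Pool.Agent.FTA
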