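import Mathlib
import Pool.Agent.FTA.SL

/-! Real side: the kernel `F`, the slack `Gf`, the real algebra `reA`, and the enclosure relations. -/

open Real

namespace Pool.Agent.FTA

noncomputable section

/-! ### The certificate (angles in units of a right angle) -/

def sn (x : ℝ) : ℝ := Real.sin (π * x / 2)
def cn (x : ℝ) : ℝ := Real.cos (π * x / 2)
def De (a : ℝ) : ℝ := a - sn a ^ 2
def p0 (a : ℝ) : ℝ := 2 / 3 - a - De a / 8
def p2 (a : ℝ) : ℝ := a / 4 + De a / 8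
def p3 (a : ℝ) : ℝ := a / 4 + 3 * De a / 16
def kk (p q : ℝ) : ℝ := max (p + q - 1) 0
def Wf (p q : ℝ) : ℝ := 5 / 4 * (min p q - kk p q) - Real.sin (π * p) * Real.sin (π * q) / 8
def Rf (p q : ℝ) : ℝ := 5 / 4 * (min p q * (1 - 2 * max p q) + kk p q) - 93 / 128 * De p * De q
def T1 (t : ℝ) : ℝ := 2 / π * Real.arcsin t
def T2 (t : ℝ) : ℝ := 2 / π * Real.arcsin (2 * t ^ 2 - 1)
def F (p q t : ℝ) : ℝ :=
  3 / 2 * p0 p * p0 q + 4 * p2 p * p2 q * T2 t + 4 * p3 p * p3 q * (2 * t ^ 2 - 1)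
    + Wf p q * (t + T1 t) / 2 + Rf p q * t ^ 2
/-- cosine of the angle between the sides `p, q`, opposite to `r` -/
def tt (p q r s : ℝ) : ℝ := (s * cn r - cn p * cn q) / (sn p * sn q)
/-- the slack -/
def Gf (a b c s : ℝ) : ℝ :=
  2 - a - b - c - F a b (tt a b c s) - F a c (tt a c b s) - F b c (tt b c a s)
/-- Gram determinant -/
def gram (a b c s : ℝ) : ℝ := 1 - cn a ^ 2 - cn b ^ 2 - cn c ^ 2 + 2 * s * (cn a * cn b * cn c)

/-! ### The real algebra -/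

def scR (x : ℝ) : ℝ := if x = 0 then π / 2 else sn x / x
def acR (t : ℝ) : ℝ := if t = 1 then 2 / π else 2 / π * Real.arccos t / √(1 - t ^ 2)
def asR (v : ℝ) : ℝ := if v = 0 then 2 / π else 2 / π * Real.arcsin (√v) / √v

/-- `± p / 2 ^ q` -/
def dy (s : Bool) (p q : ℕ) : ℝ := (if s = true then -1 else 1) * (p : ℝ) / 2 ^ q
/-- polynomial with the coefficient list `l` at scale `2 ^ 30` -/
def pv (x : ℝ) : List (Bool × ℕ) → ℝ
  | [] => dy false 0 0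
  | [c] => dy c.1 c.2 30
  | c :: d :: l => dy c.1 c.2 30 + x * pv x (d :: l)

def cl (x : ℝ) : ℝ := max (-1) (min 1 x)
def cl8 (x : ℝ) : ℝ := max (-(1 / 8)) (min 1 x)
def cl4 (x : ℝ) : ℝ := max 0 (min (1 / 4) x)

/-- errors of the four polynomials (extended by clamping) -/
def esc (x : ℝ) : ℝ := scR (cl x) - pv (cl x ^ 2) scC
def ecs (x : ℝ) : ℝ := cn (cl x) - pv (cl x ^ 2) csC
def eac (x : ℝ) : ℝ := acR (cl8 x) - pv (cl8 x) acC
def eas (x : ℝ) : ℝ := asR (cl4 x) - pv (cl4 x) asC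

def reA : Alg ℝ where
  cst := dy
  add := fun x y => x + y
  sub := fun x y => x - y
  mul := fun x y => x * y
  smul := fun p q x => (p : ℝ) / 2 ^ q * x
  inv := fun x => x⁻¹
  rsq := fun x => (√x)⁻¹
  wsc := fun x y => y + esc x
  wcs := fun x y => y + ecs x
  wac := fun x y => y + eac x
  was := fun x y => y + eas x
  ip := 1 / π

/-- pairs (value at the reference point, value) -/
def prA : Alg (ℝ × ℝ) where
  cst := fun s p q => (dy s p q, dy s p q)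
  add := fun x y => (x.1 + y.1, x.2 + y.2)
  sub := fun x y => (x.1 - y.1, x.2 - y.2)
  mul := fun x y => (x.1 * y.1, x.2 * y.2)
  smul := fun p q x => ((p : ℝ) / 2 ^ q * x.1, (p : ℝ) / 2 ^ q * x.2)
  inv := fun x => (x.1⁻¹, x.2⁻¹)
  rsq := fun x => ((√x.1)⁻¹, (√x.2)⁻¹)
  wsc := fun x y => (y.1 + esc x.1, y.2 + esc x.2)
  wcs := fun x y => (y.1 + ecs x.1, y.2 + ecs x.2)
  wac := fun x y => (y.1 + eac x.1, y.2 + eac x.2)
  was := fun x y => (y.1 + eas x.1, y.2 + eas x.2)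
  ip := (1 / π, 1 / π)

/-! ### Enclosure relations -/

/-- exponents of degree at most 3 -/
def Kx : Finset (ℕ × ℕ × ℕ) :=
  ((Finset.range 4) ×ˢ ((Finset.range 4) ×ˢ (Finset.range 4))).filter (fun e => e.1 + e.2.1 + e.2.2 ≤ 3)
/-- exponents of degree 4, 5, 6 -/
def Hx : Finset (ℕ × ℕ × ℕ) :=
  ((Finset.range 7) ×ˢ ((Finset.range 7) ×ˢ (Finset.range 7))).filter
    (fun e => 4 ≤ e.1 + e.2.1 + e.2.2 ∧ e.1 + e.2.1 + e.2.2 ≤ 6)
def slot (e : ℕ × ℕ × ℕ) : ℕ := e.1 + 7 * e.2.1 + 49 * e.2.2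
def mono (u : ℝ × ℝ × ℝ) (e : ℕ × ℕ × ℕ) : ℝ := u.1 ^ e.1 * u.2.1 ^ e.2.1 * u.2.2 ^ e.2.2

/-- `N` encodes the integer coefficients `c` -/
def Enc (N : ℕ) (c : ℕ × ℕ × ℕ → ℤ) : Prop :=
  (N : ℤ) = ∑ e ∈ Kx, (c e + 2 ^ 40) * (2 ^ 80) ^ slot e ∧ ∀ e ∈ Kx, |c e| < 2 ^ 40

/-- the points of the unit cube -/
def Cube (u : ℝ × ℝ × ℝ) : Prop := |u.1| ≤ 1 ∧ |u.2.1| ≤ 1 ∧ |u.2.2| ≤ 1

/-- the Taylor model `t` encloses the number `x` at the point `u` -/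
def RepT (u : ℝ × ℝ × ℝ) (t : TM) (x : ℝ) : Prop :=
  t.ok = true → ∃ c : ℕ × ℕ × ℕ → ℤ, Enc t.N c ∧ ((∑ e ∈ Kx, |c e| : ℤ) : ℝ) ≤ (t.n : ℝ) ∧
    |x * 2 ^ 30 - ∑ e ∈ Kx, (c e : ℝ) * mono u e| ≤ (t.r : ℝ)

/-- the slope model `s` encloses the pair `p` -/
def RepS (u : ℝ × ℝ × ℝ) (r : ℝ) (s : SL) (p : ℝ × ℝ) : Prop :=
  RepT u s.v0 p.1 ∧ RepT u s.v p.2 ∧ (s.X.ok = true → ∃ x : ℝ, p.2 = p.1 + r * x ∧ RepT u s.X x)

/-- compatibility of two algebras with a relation -/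
structure Compat {α β : Type} (A : Alg α) (B : Alg β) (R : α → β → Prop) : Prop where
  cst : ∀ s p q, R (A.cst s p q) (B.cst s p q)
  add : ∀ {a b x y}, R a x → R b y → R (A.add a b) (B.add x y)
  sub : ∀ {a b x y}, R a x → R b y → R (A.sub a b) (B.sub x y)
  mul : ∀ {a b x y}, R a x → R b y → R (A.mul a b) (B.mul x y)
  smul : ∀ p q {a x}, R a x → R (A.smul p q a) (B.smul p q x)
  inv : ∀ {a x}, R a x → R (A.inv a) (B.inv x)
  rsq : ∀ {a x}, R a x → R (A.rsq a) (B.rsq x)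
  wsc : ∀ {a b x y}, R a x → R b y → R (A.wsc a b) (B.wsc x y)
  wcs : ∀ {a b x y}, R a x → R b y → R (A.wcs a b) (B.wcs x y)
  wac : ∀ {a b x y}, R a x → R b y → R (A.wac a b) (B.wac x y)
  was : ∀ {a b x y}, R a x → R b y → R (A.was a b) (B.was x y)
  ip : R A.ip B.ip

end

end Pool.Agent.FTA
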