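import Pool.Agent.FTA.TMAlg

/-! Regions: conjunctions of disjunctions of positivity statements, and the tree check. -/

namespace Pool.Agent.FTA

section
variable {α : Type} (A : Alg α)

/-- chart `N`, variables `a, x, t`, `t ≤ 113/128` -/
def gN (a x t : α) : List (List α) :=
  let t2 := A.mul t t
  let f1 := A.inv (A.op t2)
  let xi := A.sub f1 (A.mul t2 f1)
  let be := A.mul a (A.mul xi (A.om (A.smul 1 1 x)))
  [[A.sub (A.add a be) A.one, cN A a x t]]

/-- chart `A`, variables `a, x, t`; excluded: `xi < 1/8` and (`gm < a/8` or `a < 3/32`) -/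
def gA (a x t : α) : List (List α) :=
  let t2 := A.mul t t
  let f1 := A.inv (A.op t2)
  let f0 := A.mul t2 f1
  let xi := A.sub f1 f0
  let g := A.dbl (A.mul f0 x)
  let o1 := A.sub (A.add a (A.mul a (A.add g xi))) A.one
  let o2 := A.sub (A.cst false 1 3) xi
  let o3 := A.sub (A.cst false 1 3) g
  let o4 := A.sub (A.cst false 3 5) a
  let r := cA A a x t
  let nz := A.sub (A.cst false 0 0) r.xz
  [[o1, o2, r.xz, r.o], [o1, o3, o4, r.xz, r.o], [o1, o2, nz, r.e], [o1, o3, o4, nz, r.e]]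

/-- chart `B`, variables `a, x, t`; excluded: `xi < 1/8` and `a < 3/32` -/
def gB (a x t : α) : List (List α) :=
  let t2 := A.mul t t
  let f1 := A.inv (A.op t2)
  let f0 := A.mul t2 f1
  let xi := A.sub f1 f0
  let gm := A.mul a (A.add (A.dbl f0) (A.mul xi x))
  let o1 := A.sub (A.add a (A.add gm (A.mul a xi))) A.one
  let o2 := A.sub (A.cst false 1 3) xi
  let o4 := A.sub (A.cst false 3 5) a
  let r := cB A a x t
  let nz := A.sub (A.cst false 0 0) r.xz
  [[o1, o2, r.xz, r.o], [o1, o4, r.xz, r.o], [o1, o2, nz, r.e], [o1, o4, nz, r.e]]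

/-- chart `V`, variables `rho, b, t`; excluded: `xi < 1/8` and `gm < 3/32` -/
def gV (rho b t : α) : List (List α) :=
  let t2 := A.mul t t
  let f1 := A.inv (A.op t2)
  let f0 := A.mul t2 f1
  let xi := A.sub f1 f0
  let a := A.mul rho b
  let c := A.mul b (A.op (A.mul rho xi))
  let o1 := A.sub (A.add a c) A.one
  let o2 := A.sub (A.cst false 1 3) xi
  let o3 := A.sub (A.cst false 3 5) (A.om c)
  let bc := A.sub (A.add b c) A.one
  let cb := A.sub A.one (A.add b c)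
  let r := cV A false rho b t
  let r' := cV A true rho b t
  let nz := A.sub (A.cst false 0 0) r.xz
  [[o1, o2, bc, r.xz, r.o], [o1, o3, bc, r.xz, r.o], [o1, o2, bc, nz, r.e], [o1, o3, bc, nz, r.e],
   [o1, o2, cb, r.xz, r'.o], [o1, o3, cb, r.xz, r'.o], [o1, o2, cb, nz, r'.e], [o1, o3, cb, nz, r'.e]]

/-- complement charts near `V3` (`al ≤ 3/16`), variables `al, s, u`, negative type -/
def gHN (al s u : α) : List (List α) := [[(hF A true false al s u u).1]]

/-- positive type, `tz ≥ 0` -/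
def gHP (al s u : α) : List (List α) :=
  let h := hF A false false al s u u
  [[A.sub (A.cst false 0 0) h.2, h.1]]

/-- positive type, `tz ≤ 0`, `u = al v` -/
def gHE (al s v : α) : List (List α) :=
  let h := hF A false true al s (A.mul al v) v
  [[A.sub (A.cst false 0 0) h.2, h.1]]

end

/-- subdivision trees: `L` = leaf, `X` = excluded box -/
inductive Tr where
  | L : Tr
  | X : Tr
  | A : Tr → Tr → Tr
  | B : Tr → Tr → Tr
  | C : Tr → Tr → Tr

def Tr.chk (f ex : Nat → Nat → Nat → Nat → Nat → Nat → Bool) : Tr → Nat → Nat → Nat → Nat → Nat → Nat → Bool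
  | .L, c0, h0, c1, h1, c2, h2 => f c0 h0 c1 h1 c2 h2
  | .X, c0, h0, c1, h1, c2, h2 => ex c0 h0 c1 h1 c2 h2
  | .A l r, c0, h0, c1, h1, c2, h2 => and (Nat.beq (Nat.mod h0 2) 0)
      (and (l.chk f ex (Nat.sub c0 (Nat.div h0 2)) (Nat.div h0 2) c1 h1 c2 h2) (r.chk f ex (Nat.add c0 (Nat.div h0 2)) (Nat.div h0 2) c1 h1 c2 h2))
  | .B l r, c0, h0, c1, h1, c2, h2 => and (Nat.beq (Nat.mod h1 2) 0)
      (and (l.chk f ex c0 h0 (Nat.sub c1 (Nat.div h1 2)) (Nat.div h1 2) c2 h2) (r.chk f ex c0 h0 (Nat.add c1 (Nat.div h1 2)) (Nat.div h1 2) c2 h2))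
  | .C l r, c0, h0, c1, h1, c2, h2 => and (Nat.beq (Nat.mod h2 2) 0)
      (and (l.chk f ex c0 h0 c1 h1 (Nat.sub c2 (Nat.div h2 2)) (Nat.div h2 2)) (r.chk f ex c0 h0 c1 h1 (Nat.add c2 (Nat.div h2 2)) (Nat.div h2 2)))

section
variable {f ex : Nat → Nat → Nat → Nat → Nat → Nat → Bool} {l r : Tr} {c0 h0 c1 h1 c2 h2 : Nat}
theorem chkA (hp : Nat.beq (Nat.mod h0 2) 0 = true)
    (hl : l.chk f ex (Nat.sub c0 (Nat.div h0 2)) (Nat.div h0 2) c1 h1 c2 h2 = true)
    (hr : r.chk f ex (Nat.add c0 (Nat.div h0 2)) (Nat.div h0 2) c1 h1 c2 h2 = true) :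
    (Tr.A l r).chk f ex c0 h0 c1 h1 c2 h2 = true := by
  rw [Tr.chk, hp, hl, hr]; rfl
theorem chkB (hp : Nat.beq (Nat.mod h1 2) 0 = true)
    (hl : l.chk f ex c0 h0 (Nat.sub c1 (Nat.div h1 2)) (Nat.div h1 2) c2 h2 = true)
    (hr : r.chk f ex c0 h0 (Nat.add c1 (Nat.div h1 2)) (Nat.div h1 2) c2 h2 = true) :
    (Tr.B l r).chk f ex c0 h0 c1 h1 c2 h2 = true := by
  rw [Tr.chk, hp, hl, hr]; rfl
theorem chkC (hp : Nat.beq (Nat.mod h2 2) 0 = true)
    (hl : l.chk f ex c0 h0 c1 h1 (Nat.sub c2 (Nat.div h2 2)) (Nat.div h2 2) = true)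
    (hr : r.chk f ex c0 h0 c1 h1 (Nat.add c2 (Nat.div h2 2)) (Nat.div h2 2) = true) :
    (Tr.C l r).chk f ex c0 h0 c1 h1 c2 h2 = true := by
  rw [Tr.chk, hp, hl, hr]; rfl
end

/-- no excluded boxes -/
def exNo (_ _ _ _ _ _ : Nat) : Bool := false
/-- excluded box of the chart `V`: `rho ≥ 31/32`, `b ≤ 1/32`, `t ≤ 1/32` -/
def exV (c0 h0 c1 h1 c2 h2 : Nat) : Bool :=
  and (Nat.ble (Nat.add 1040187392 h0) c0) (and (Nat.ble (Nat.add c1 h1) 33554432) (Nat.ble (Nat.add c2 h2) 33554432))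

/-- leaf test for a region -/
def leaf (g : Alg TM → TM → TM → TM → List (List TM)) (c0 h0 c1 h1 c2 h2 : Nat) : Bool :=
  (g tmA (TM.var 1 c0 h0) (TM.var 7 c1 h1) (TM.var 49 c2 h2)).all (fun l => l.any TM.pos)

end Pool.Agent.FTA
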