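import Pool.Agent.FTA.Prog

namespace Pool.Agent.FTA

/-- the algebra of Taylor models -/
def tmA : Alg TM where
  cst := TM.cst
  add := TM.add
  sub := TM.sub
  mul := TM.mul
  smul := TM.smul
  inv := TM.inv
  rsq := TM.rsq
  wsc := fun x y => TM.rad y 256 (TM.casesOn (motive := fun _ => Bool) x fun _ _ _ o => o)
  wcs := fun x y => TM.rad y 1024 (TM.casesOn (motive := fun _ => Bool) x fun _ _ _ o => o)
  wac := fun x y => TM.rad y 2048 (TM.casesOn (motive := fun _ => Bool) x fun _ _ _ o => o)
  was := fun x y => TM.rad y 256 (TM.casesOn (motive := fun _ => Bool) x fun _ _ _ o => o)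
  ip := TM.mk (BE + 341782638) 341782638 1 true

end Pool.Agent.FTA
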