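import Pool.Agent.FTA.Stmts

/-!
# TRI: the slack inequality for three unit vectors
-/

open Real

namespace Pool.Agent.FTA

namespace TRI_

lemma kk_comm (p q : ℝ) : kk p q = kk q p := by
  unfold kk
  rw [add_comm]

lemma Wf_comm (p q : ℝ) : Wf p q = Wf q p := by
  unfold Wf
  rw [kk_comm p q, min_comm p q]
  ring

lemma Rf_comm (p q : ℝ) : Rf p q = Rf q p := by
  unfold Rf
  rw [kk_comm p q, min_comm p q, max_comm p q]
  ring

lemma F_comm (p q t : ℝ) : F p q t = F q p t := by
  unfold F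
  rw [Wf_comm p q, Rf_comm p q]
  ring

lemma sgp_mul_abs (r : ℝ) : sgp r * |r| = r := by
  unfold sgp
  split_ifs with h
  · rw [abs_of_nonneg h, one_mul]
  · rw [abs_of_neg (by linarith)]
    ring

lemma sgp_sq (r : ℝ) : sgp r * sgp r = 1 := by
  unfold sgp
  split_ifs <;> norm_num

lemma sgp_cases (r : ℝ) : sgp r = 1 ∨ sgp r = -1 := by
  unfold sgp
  split_ifs
  · left; rfl
  · right; rfl

lemma abs_inner_le {x y : V3} (hx : ‖x‖ = 1) (hy : ‖y‖ = 1) : |inner ℝ x y| ≤ 1 := by
  have h := abs_real_inner_le_norm x y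
  rw [hx, hy, mul_one] at h
  exact h

lemma cn_ang {x y : V3} (hx : ‖x‖ = 1) (hy : ‖y‖ = 1) : cn (ang x y) = |inner ℝ x y| := by
  unfold cn ang
  have h1 : π * (2 / π * Real.arccos |inner ℝ x y|) / 2 = Real.arccos |inner ℝ x y| := by
    have := Real.pi_ne_zero
    field_simp
  rw [h1]
  exact Real.cos_arccos (by linarith [abs_nonneg (inner ℝ x y : ℝ)]) (abs_inner_le hx hy)

lemma ang_comm (x y : V3) : ang x y = ang y x := by
  unfold ang
  rw [real_inner_comm]

lemma ang_nonneg (x y : V3) : 0 ≤ ang x y := by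
  unfold ang
  have := Real.arccos_nonneg |inner ℝ x y|
  positivity

lemma ang_le_one (x y : V3) : ang x y ≤ 1 := by
  unfold ang
  have h1 : Real.arccos |inner ℝ x y| ≤ π / 2 :=
    Real.arccos_le_pi_div_two.2 (abs_nonneg _)
  have hp := Real.pi_pos
  calc 2 / π * Real.arccos |inner ℝ x y| ≤ 2 / π * (π / 2) :=
        mul_le_mul_of_nonneg_left h1 (by positivity)
    _ = 1 := by field_simp

lemma gram_nonneg {x y z : V3} (hx : ‖x‖ = 1) (hy : ‖y‖ = 1) (hz : ‖z‖ = 1) :
    0 ≤ 1 - (inner ℝ z x) ^ 2 - (inner ℝ z y) ^ 2 - (inner ℝ x y) ^ 2 +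
      2 * ((inner ℝ z x) * (inner ℝ z y) * (inner ℝ x y) : ℝ) := by
  set p : ℝ := inner ℝ z x with hp
  set q : ℝ := inner ℝ z y with hq
  set r : ℝ := inner ℝ x y with hr
  have hzz : (inner ℝ z z : ℝ) = 1 := by rw [real_inner_self_eq_norm_sq, hz]; norm_num
  have hxx : (inner ℝ x x : ℝ) = 1 := by rw [real_inner_self_eq_norm_sq, hx]; norm_num
  have hyy : (inner ℝ y y : ℝ) = 1 := by rw [real_inner_self_eq_norm_sq, hy]; norm_num
  have hxz : (inner ℝ x z : ℝ) = p := by rw [real_inner_comm]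
  have hyz : (inner ℝ y z : ℝ) = q := by rw [real_inner_comm]
  have hyx : (inner ℝ y x : ℝ) = r := by rw [real_inner_comm]
  have h := real_inner_mul_inner_self_le (x - p • z) (y - q • z)
  have e1 : (inner ℝ (x - p • z) (y - q • z) : ℝ) = r - p * q := by
    rw [inner_sub_left, inner_sub_right, inner_sub_right, real_inner_smul_left,
      real_inner_smul_left, real_inner_smul_right, real_inner_smul_right, hxz, hzz, ← hq, ← hr]
    ring
  have e2 : (inner ℝ (x - p • z) (x - p • z) : ℝ) = 1 - p ^ 2 := by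
    rw [inner_sub_left, inner_sub_right, inner_sub_right, real_inner_smul_left,
      real_inner_smul_left, real_inner_smul_right, real_inner_smul_right, hxz, hzz, hxx, ← hp]
    ring
  have e3 : (inner ℝ (y - q • z) (y - q • z) : ℝ) = 1 - q ^ 2 := by
    rw [inner_sub_left, inner_sub_right, inner_sub_right, real_inner_smul_left,
      real_inner_smul_left, real_inner_smul_right, real_inner_smul_right, hyz, hzz, hyy, ← hq]
    ring
  rw [e1, e2, e3] at h
  nlinarith [h]

lemma tz_eq {x y z : V3} (hx : ‖x‖ = 1) (hy : ‖y‖ = 1) (hz : ‖z‖ = 1) :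
    tz z x y = tt (ang z x) (ang z y) (ang x y)
      (sgp (inner ℝ z x) * sgp (inner ℝ z y) * sgp (inner ℝ x y)) := by
  unfold tz tt
  rw [cn_ang hz hx, cn_ang hz hy, cn_ang hx hy]
  have : sgp (inner ℝ z x) * sgp (inner ℝ z y) * sgp (inner ℝ x y) * |inner ℝ x y| =
      sgp (inner ℝ z x) * sgp (inner ℝ z y) * (inner ℝ x y : ℝ) := by
    rw [mul_assoc (sgp (inner ℝ z x) * sgp (inner ℝ z y)), sgp_mul_abs]
  rw [this]

lemma tt_comm (p q r s : ℝ) : tt p q r s = tt q p r s := by
  unfold tt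
  rw [mul_comm (cn p), mul_comm (sn p)]

end TRI_

open TRI_ in
theorem tri_proof (h1 : Stmt_MI) : Stmt_TRI := by
  intro x y z hx hy hz
  set s : ℝ := sgp (inner ℝ z x) * sgp (inner ℝ z y) * sgp (inner ℝ x y) with hs
  have hs1 : s = 1 ∨ s = -1 := by
    rcases sgp_cases (inner ℝ z x) with h | h <;> rcases sgp_cases (inner ℝ z y) with h' | h' <;>
      rcases sgp_cases (inner ℝ x y) with h'' | h'' <;> rw [hs, h, h', h''] <;> norm_num
  have hg : 0 ≤ gram (ang z x) (ang z y) (ang x y) s := by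
    unfold gram
    rw [cn_ang hz hx, cn_ang hz hy, cn_ang hx hy, sq_abs, sq_abs, sq_abs]
    have e : s * (|inner ℝ z x| * |inner ℝ z y| * |inner ℝ x y|) =
        (inner ℝ z x) * (inner ℝ z y) * (inner ℝ x y : ℝ) := by
      have a1 := sgp_mul_abs (inner ℝ z x)
      have a2 := sgp_mul_abs (inner ℝ z y)
      have a3 := sgp_mul_abs (inner ℝ x y)
      calc s * (|inner ℝ z x| * |inner ℝ z y| * |inner ℝ x y|) =
          (sgp (inner ℝ z x) * |inner ℝ z x|) * (sgp (inner ℝ z y) * |inner ℝ z y|) *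
            (sgp (inner ℝ x y) * |inner ℝ x y|) := by rw [hs]; ring
        _ = _ := by rw [a1, a2, a3]
    have := gram_nonneg hx hy hz
    nlinarith [this, e]
  have hm := h1 (ang z x) (ang z y) (ang x y) s (ang_nonneg _ _) (ang_le_one _ _)
    (ang_nonneg _ _) (ang_le_one _ _) (ang_nonneg _ _) (ang_le_one _ _) hs1 hg
  unfold Gf at hm
  have f1 : FF z x y = F (ang z x) (ang z y) (tt (ang z x) (ang z y) (ang x y) s) := by
    unfold FF
    rw [tz_eq hx hy hz]
  have f2 : FF x y z = F (ang z x) (ang x y) (tt (ang z x) (ang x y) (ang z y) s) := by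
    unfold FF
    rw [tz_eq hy hz hx, F_comm, tt_comm, ang_comm x z, ang_comm y z]
    congr 2
    rw [hs, real_inner_comm x z, real_inner_comm y z]
    ring
  have f3 : FF y z x = F (ang z y) (ang x y) (tt (ang z y) (ang x y) (ang z x) s) := by
    unfold FF
    rw [tz_eq hz hx hy, ang_comm y z, ang_comm y x]
    congr 2
    rw [hs, real_inner_comm z y, real_inner_comm x y]
    ring
  rw [f1, f2, f3, ang_comm y z]
  linarith

end Pool.Agent.FTA
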